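import Pool.Agent.H56.CT.RDefs
import Pool.Agent.H22.T7.RSP
import Pool.Agent.H22.T7.INT
import Pool.Agent.H22.T7.QHW

/-!
# AIP: the identity obtained from the functional equation of a power series; components of weight zero

`aip`.  `rspf G b h` (`Pool/Agent/H22/T7/RSP.lean`) gives `ρ`, `d`; `R = 2 * ρ + d + b.natDegree + 4`.  Let `L`, `P` be given, `PW` from `rspf`.  `P = fpoly a κ` with `r = P.support.card`, `a i` = the `i`-th exponent (`P.support.equivFin`), `κ i = coeff (a i) P` (`MvPolynomial.support_sum_monomial_coeff`, reindex).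
`int_L a κ b ρ d L PW ..` (`Pool/Agent/H22/T7/INT.lean`) gives `E`; `AId a κ b R PW E` is `AIdP P b R PW E` (`F1 a κ = lmap C (toL ℂ (fpoly a κ))`, all by unfolding).

`npr`.  Induction on the list `Ω`: `[]`: `PW' = PW`, `E' = E`.  `ω :: Ω`: first the induction hypothesis, giving `PW1`, `E1`.  Then take the component of weight `0` for `ω` (adapt the proof of `qhw` in `Pool/Agent/H22/T7/QHW.lean`, `IsH`, `hc` with `w = ω`): `F = lmap C (toL ℂ P)` is `IsH ω 0` (`hΩ`; `INT_toL_coeff`).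
`GG F X (lst β)` is `IsH ω (- V β)`, `V β = ∑ j, β j * ω j` (`IsH_GG`, `N = 0`; `((lst β).map ω).sum = V β` as `hlst` in `qhw`), `F ^ k` is `IsH ω 0`.  `q β = ∑ u ∈ (PW1 β).support.filter (fun u => ∑ j, ω j * u j = V β), monomial u (coeff u (PW1 β))`, so
`toL (q β) = hc ω (V β) (toL (PW1 β))` (`INT_toL_coeff`, `hc_coeff`), `q β = 0` if `PW1 β = 0`; `PW' = Finsupp.onFinset PW1.support q ..`.
Apply `hc ω 0` to the identity: `hc ω 0 (p_β GG_β F^k) = hc ω (V β) p_β * GG_β * F^k` (`hc_mul` twice), `hc ω 0 (b • F^(R-1)) = b • F^(R-1)` (`hc_of_IsH`), `E' = hc ω 0 E1`; the sum over `PW'.support ⊆ PW1.support` (the other terms are `0`).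
-/

set_option autoImplicit false

namespace Pool.Agent.H56.CT

open Finset AddMonoidAlgebra
open Pool.Agent.H56.SMC Pool.Agent.H37.T5 Pool.Agent.H56.T5 Pool.Agent.H37.T6 Pool.Agent.H22.T6
open Pool.Agent.H22.T7

private theorem AIP_fpoly {n : ℕ} (P : MvPolynomial (Fin n) ℂ) :
    ∃ (r : ℕ) (a : Fin r → (Fin n →₀ ℕ)) (κ : Fin r → ℂ), P = fpoly a κ := by
  classical
  refine ⟨P.support.card, fun i => (P.support.equivFin.symm i : Fin n →₀ ℕ),
    fun i => MvPolynomial.coeff (P.support.equivFin.symm i : Fin n →₀ ℕ) P, ?_⟩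
  unfold fpoly
  have h1 : ∑ i : Fin P.support.card, MvPolynomial.monomial
      (P.support.equivFin.symm i : Fin n →₀ ℕ)
      (MvPolynomial.coeff (P.support.equivFin.symm i : Fin n →₀ ℕ) P) =
      ∑ u : P.support, MvPolynomial.monomial (u : Fin n →₀ ℕ) (MvPolynomial.coeff u P) :=
    Equiv.sum_comp P.support.equivFin.symm
      (fun u : P.support => MvPolynomial.monomial (u : Fin n →₀ ℕ) (MvPolynomial.coeff u P))
  rw [h1, Finset.sum_coe_sort P.support
    (fun u => MvPolynomial.monomial u (MvPolynomial.coeff u P))]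
  exact (MvPolynomial.support_sum_monomial_coeff P).symm

private theorem AIP_lst {n : ℕ} (ω : Lat n) (β : Fin n →₀ ℕ) :
    ((lst β).map ω).sum = ∑ j, (β j : ℤ) * ω j := by
  unfold lst
  have h1 : ∀ l : List (Fin n), ((l.flatMap fun j => List.replicate (β j) j).map ω).sum =
      (l.map fun j => (β j : ℤ) * ω j).sum := by
    intro l
    induction l with
    | nil => rfl
    | cons j l ih =>
      rw [List.flatMap_cons, List.map_append, List.sum_append, ih, List.map_cons,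
        List.sum_cons, List.map_replicate, List.sum_replicate, nsmul_eq_mul]
  rw [h1, ← List.ofFn_eq_map, List.sum_ofFn]

private theorem AIP_dt {n : ℕ} (ω u : Lat n) (hu : ∀ j, 0 ≤ u j) :
    dt ω u = ∑ j, ω j *
      (((Finsupp.equivFunOnFinite.symm (fun j => (u j).toNat) : Fin n →₀ ℕ) j : ℕ) : ℤ) := by
  simp only [dt]
  refine sum_congr rfl fun j _ => ?_
  have : (((Finsupp.equivFunOnFinite.symm (fun j => (u j).toNat) : Fin n →₀ ℕ) j : ℕ) : ℤ) =
      u j := by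
    rw [Finsupp.equivFunOnFinite_symm_apply_apply]
    exact Int.toNat_of_nonneg (hu j)
  rw [this]

private theorem AIP_step {n : ℕ} (P : MvPolynomial (Fin n) ℂ) (b : Polynomial ℂ) (R : ℕ)
    (PW : H22.WeylS n) (E : LP (Polynomial ℂ) n) (hlen : ∀ β ∈ PW.support, (lst β).length ≤ R)
    (hid : AIdP P b R PW E) (ω : Lat n)
    (hω : ∀ u : Fin n →₀ ℕ, MvPolynomial.coeff u P ≠ 0 → ∑ j, ω j * (u j : ℤ) = 0) :
    ∃ (PW' : H22.WeylS n) (E' : LP (Polynomial ℂ) n),
      (∀ β ∈ PW'.support, (lst β).length ≤ R) ∧ AIdP P b R PW' E' ∧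
      ∀ u, E'.coeff u ≠ 0 → E.coeff u ≠ 0 ∧ dt ω u = 0 := by
  classical
  set F : LP (Polynomial ℂ) n := lmap Polynomial.C (toL ℂ P) with hFdef
  have hF : IsH ω 0 F := by
    intro u hu
    rw [hFdef, lmap_coeff, INT_toL_coeff] at hu
    by_cases h : ∀ j, 0 ≤ u j
    · rw [if_pos h] at hu
      rw [AIP_dt ω u h]
      exact hω _ fun h0 => hu (by rw [h0, map_zero])
    · rw [if_neg h, map_zero] at hu
      exact absurd rfl hu
  set V : (Fin n →₀ ℕ) → ℤ := fun β => ∑ j, (β j : ℤ) * ω j with hV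
  set q : (Fin n →₀ ℕ) → MvPolynomial (Fin n) (Polynomial ℂ) := fun β =>
    ∑ u ∈ (PW β).support.filter (fun u => ∑ j, ω j * (u j : ℤ) = V β),
      MvPolynomial.monomial u (MvPolynomial.coeff u (PW β)) with hq
  have hqc : ∀ β u, MvPolynomial.coeff u (q β) =
      if ∑ j, ω j * (u j : ℤ) = V β then MvPolynomial.coeff u (PW β) else 0 := by
    intro β u
    simp only [hq]
    rw [MvPolynomial.coeff_sum]
    simp only [MvPolynomial.coeff_monomial]
    rw [Finset.sum_ite_eq']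
    by_cases h1 : ∑ j, ω j * (u j : ℤ) = V β
    · rw [if_pos h1]
      by_cases h2 : MvPolynomial.coeff u (PW β) = 0
      · rw [h2]; split_ifs <;> rfl
      · rw [if_pos]
        rw [Finset.mem_filter, MvPolynomial.mem_support_iff]
        exact ⟨h2, h1⟩
    · rw [if_neg h1, if_neg]
      rw [Finset.mem_filter]
      exact fun h => h1 h.2
  have hq0 : ∀ β, PW β = 0 → q β = 0 := by
    intro β hβ
    simp only [hq, hβ]
    rw [MvPolynomial.support_zero, Finset.filter_empty, Finset.sum_empty]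
  set PW' : H22.WeylS n := Finsupp.onFinset PW.support q (fun β hβ => by
    rw [Finsupp.mem_support_iff]
    exact fun h => hβ (hq0 β h)) with hPW'
  have hPW'q : ∀ β, PW' β = q β := fun β => rfl
  have hsub : PW'.support ⊆ PW.support := by
    intro β hβ
    rw [Finsupp.mem_support_iff] at hβ ⊢
    exact fun h => hβ (by rw [hPW'q]; exact hq0 β h)
  have htoL : ∀ β, toL (Polynomial ℂ) (PW' β) = hc ω (V β) (toL (Polynomial ℂ) (PW β)) := by
    intro β
    apply lp_ext; intro u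
    rw [hc_coeff, INT_toL_coeff, INT_toL_coeff, hPW'q]
    by_cases hu : ∀ j, 0 ≤ u j
    · rw [if_pos hu, if_pos hu, hqc, AIP_dt ω u hu]
    · rw [if_neg hu, if_neg hu]
      split_ifs <;> rfl
  refine ⟨PW', hc ω 0 E, fun β hβ => hlen β (hsub hβ), ?_, ?_⟩
  · have h1 := congrArg (hc ω 0) hid
    have h2 : hc ω 0 (b • F ^ (R - 1) + E) = b • F ^ (R - 1) + hc ω 0 E := by
      rw [hc_add, hc_of_IsH (IsH_smul b (by
        have := IsH_pow hF (R - 1)
        rwa [mul_zero] at this))]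
    rw [h2, hc_sum] at h1
    unfold AIdP
    rw [← hFdef, ← h1]
    refine (sum_subset hsub fun β _ hβ => ?_).trans (sum_congr rfl fun β hβ => ?_)
    · rw [Finsupp.notMem_support_iff.1 hβ, map_zero, zero_mul, zero_mul]
    · have hGG := IsH_GG hF Polynomial.X (lst β)
      have hG2 := IsH_mul hGG (IsH_pow hF (R - (lst β).length))
      rw [AIP_lst] at hG2
      have e1 : ((lst β).length : ℤ) * (0 : ℤ) - (∑ j, (β j : ℤ) * ω j) +
          ((R - (lst β).length : ℕ) : ℤ) * (0 : ℤ) = - V β := by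
        simp only [hV]; ring
      rw [e1] at hG2
      rw [mul_assoc, mul_assoc, hc_mul _ hG2, htoL]
      congr 2
      ring
  · intro u hu
    rw [hc_coeff] at hu
    split_ifs at hu with h
    · exact ⟨hu, h⟩
    · exact absurd rfl hu

/-- AIP -/
theorem aip {n : ℕ} (G : MvPowerSeries (Fin n) ℂ) (b : Polynomial ℂ)
    (h : FEq (MvPowerSeries (Fin n) ℂ) G b) :
    ∃ R ρ : ℕ, 0 < R ∧ ∀ (L : ℕ) (P : MvPolynomial (Fin n) ℂ),
      Hi (L + ρ) ((P : MvPowerSeries (Fin n) ℂ) - G) →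
      ∃ (PW : H22.WeylS n) (E : LP (Polynomial ℂ) n), (∀ β ∈ PW.support, (lst β).length ≤ R) ∧
        AIdP P b R PW E ∧ ∀ u, E.coeff u ≠ 0 → (∀ j, 0 ≤ u j) ∧ (L : ℤ) ≤ ∑ j, u j := by
  obtain ⟨ρ, d, hρ⟩ := rspf G b h
  refine ⟨2 * ρ + d + b.natDegree + 4, ρ, by omega, fun L P hP => ?_⟩
  obtain ⟨PW, h1, h2, h3⟩ := hρ L P hP
  obtain ⟨r, a, κ, rfl⟩ := AIP_fpoly P
  obtain ⟨E, e1, e2, e3⟩ := int_L a κ b ρ d L PW h1 h2 h3
  exact ⟨PW, E, e1, e2, e3⟩

/-- NPR -/
theorem npr {n : ℕ} (P : MvPolynomial (Fin n) ℂ) (b : Polynomial ℂ) (R : ℕ) (PW : H22.WeylS n)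
    (E : LP (Polynomial ℂ) n) (hlen : ∀ β ∈ PW.support, (lst β).length ≤ R)
    (hid : AIdP P b R PW E) (Ω : List (Lat n))
    (hΩ : ∀ ω ∈ Ω, ∀ u : Fin n →₀ ℕ, MvPolynomial.coeff u P ≠ 0 →
      ∑ j, ω j * (u j : ℤ) = 0) :
    ∃ (PW' : H22.WeylS n) (E' : LP (Polynomial ℂ) n),
      (∀ β ∈ PW'.support, (lst β).length ≤ R) ∧ AIdP P b R PW' E' ∧
      ∀ u, E'.coeff u ≠ 0 → E.coeff u ≠ 0 ∧ ∀ ω ∈ Ω, dt ω u = 0 := by
  induction Ω with
  | nil =>
    exact ⟨PW, E, hlen, hid, fun u hu => ⟨hu, fun ω hω => absurd hω List.not_mem_nil⟩⟩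
  | cons ω Ω ih =>
    obtain ⟨PW1, E1, a1, a2, a3⟩ := ih fun ω' hω' => hΩ ω' (List.mem_cons_of_mem _ hω')
    obtain ⟨PW2, E2, b1, b2, b3⟩ := AIP_step P b R PW1 E1 a1 a2 ω (hΩ ω List.mem_cons_self)
    refine ⟨PW2, E2, b1, b2, fun u hu => ?_⟩
    obtain ⟨c1, c2⟩ := b3 u hu
    obtain ⟨d1, d2⟩ := a3 u c1
    refine ⟨d1, fun ω' hω' => ?_⟩
    rcases List.mem_cons.1 hω' with rfl | h
    · exact c2
    · exact d2 ω' h

end Pool.Agent.H56.CT
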