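import Pool.Agent.H56.CT.Defs

/-!
# BRK: divisors which do not contribute

`ν = a + b + 2`, `e_c = ec h0 c`, `β_c = bc b c`, `e∞ = N - natDegree h0`, `tc N ν e β = g / (N (β+1) - ν e)`, `g = gcd(N, e)`.

Proof.  `∑_c e_c = natDegree h0` (over the roots; `ℂ` is algebraically closed: `Polynomial.card_roots`, `IsAlgClosed`; `Multiset.count`, `Polynomial.count_roots`), `e∞ = N - natDegree h0`.
`P = spc h0 b ⊆ S` (roots and, if `b ≥ 1`, the point `0`).  For `c ∈ S \ P`: `e_c = 0`, `β_c = 0`: `gcd(N, 0) = N`, `tc = N/N = 1`, the term is `Ξ N`.  For `c ∈ P` (special): `(e_c, β_c) ≠ (0, 0)`.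
By `¬ Contr`: all denominators of special points are `≠ 0`: `N (β_c + 1) ≠ ν e_c`, `N (a+1) ≠ ν e∞`; and `|P| + ε ≤ 2` with `ε = 1` if `a ≥ 1` or `e∞ ≥ 1` (`∞` is special), `ε = 0` otherwise (then the term at infinity is
`tc N ν 0 0 • Ξ N = Ξ N`).  So the sum is `(1 - |S| + |S \ P| + (1 - ε)) Ξ N + ∑_{c ∈ P} tc • Ξ g_c + ε tc_∞ • Ξ g_∞ = (2 - |P| - ε) Ξ N + ∑_{special} tc • Ξ g`.
Put `A_c = N (β_c + 1) - ν e_c` and `A_∞ = N (a+1) - ν e∞` (complex numbers).  `∑_{c ∈ P} β_c = b` (`0 ∈ P` if `b ≥ 1`), so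
`∑_{c ∈ P} (A_c - N) + (A_∞ - N) = N b + N a - ν (natDegree h0 + e∞) = N (a + b) - ν N = -2 N`, and `A_∞ = N` if `ε = 0`.
`|P| + ε = 0`: then `N = natDegree h0 + e∞ = 0`, impossible.
`|P| + ε = 1`: the only special point has `e = N`, `A = N - 2 N = -N`, `g = N`, `tc = N/(-N) = -1`: `(2-1) Ξ N - Ξ N = 0`.
`|P| + ε = 2`: the two special points have `e1 + e2 = N`, `A1 + A2 = 0`, `gcd(N, e1) = gcd(N, N - e1) = gcd(N, e2)`: the two terms cancel, and `(2 - 2) Ξ N = 0`.
-/

set_option autoImplicit false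

namespace Pool.Agent.H56.CT

open Finset

private theorem BRK_triv (N ν : ℕ) (hN0 : 0 < N) : tc N ν 0 0 = 1 := by
  unfold tc
  have h : (N : ℂ) ≠ 0 := by exact_mod_cast hN0.ne'
  rw [Nat.gcd_zero_right]
  simp [h]

private theorem BRK_one (N β : ℕ) (hN0 : 0 < N) : tc N (β + 2) N β = -1 := by
  unfold tc
  have h : (N : ℂ) ≠ 0 := by exact_mod_cast hN0.ne'
  rw [Nat.gcd_self]
  have h1 : (N : ℂ) * ((β : ℂ) + 1) - ((β + 2 : ℕ) : ℂ) * (N : ℂ) = -(N : ℂ) := by
    push_cast; ring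
  rw [h1, div_neg, div_self h]

private theorem BRK_pair {W : Type} [AddCommGroup W] [Module ℂ W] (Ξ : ℕ → W)
    (N ν e1 e2 β1 β2 : ℕ) (he : e1 + e2 = N) (hβ : β1 + β2 + 2 = ν) :
    tc N ν e1 β1 • Ξ (Nat.gcd N e1) + tc N ν e2 β2 • Ξ (Nat.gcd N e2) = 0 := by
  have hg : Nat.gcd N e2 = Nat.gcd N e1 := by
    subst he
    rw [Nat.gcd_comm (e1 + e2) e2, Nat.gcd_comm (e1 + e2) e1, Nat.gcd_add_self_right,
      Nat.gcd_self_add_right, Nat.gcd_comm]
  have hA : (N : ℂ) * ((β2 : ℂ) + 1) - (ν : ℂ) * (e2 : ℂ) =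
      -((N : ℂ) * ((β1 : ℂ) + 1) - (ν : ℂ) * (e1 : ℂ)) := by
    subst he hβ
    push_cast; ring
  unfold tc
  rw [hg, hA, div_neg, neg_smul, add_neg_cancel]

private theorem BRK_sum_ec (h0 : Polynomial ℂ) (b : ℕ) :
    ∑ c ∈ spc h0 b, ec h0 c = h0.natDegree := by
  classical
  have h1 : ∑ c ∈ h0.roots.toFinset, ec h0 c = ∑ c ∈ spc h0 b, ec h0 c := by
    apply Finset.sum_subset
    · unfold spc
      intro c hc
      rw [Finset.mem_union]
      left
      exact hc
    · intro c _ hc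
      unfold ec
      rw [Multiset.mem_toFinset] at hc
      rw [← Polynomial.count_roots]
      exact Multiset.count_eq_zero.2 hc
  rw [← h1]
  have h2 : ∑ c ∈ h0.roots.toFinset, ec h0 c = ∑ c ∈ h0.roots.toFinset, h0.roots.count c := by
    apply Finset.sum_congr rfl
    intro c _
    unfold ec
    rw [Polynomial.count_roots]
  rw [h2, Multiset.toFinset_sum_count_eq]
  exact Polynomial.splits_iff_card_roots.1 (IsAlgClosed.splits h0)

private theorem BRK_zero_mem (h0 : Polynomial ℂ) {b : ℕ} (hb : 1 ≤ b) : (0 : ℂ) ∈ spc h0 b := by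
  unfold spc
  rw [Finset.mem_union]
  right
  rw [if_pos hb]
  exact Finset.mem_singleton_self _

private theorem BRK_sum_bc (h0 : Polynomial ℂ) (b : ℕ) : ∑ c ∈ spc h0 b, bc b c = b := by
  rcases Nat.eq_zero_or_pos b with hb | hb
  · subst hb
    apply Finset.sum_eq_zero
    intro c _
    unfold bc
    split_ifs <;> rfl
  · rw [Finset.sum_eq_single (0 : ℂ)]
    · unfold bc
      rw [if_pos rfl]
    · intro c _ hc
      unfold bc
      rw [if_neg hc]
    · intro h
      exact absurd (BRK_zero_mem h0 hb) h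

private theorem BRK_out (h0 : Polynomial ℂ) (hh : h0 ≠ 0) (b : ℕ) {c : ℂ} (hc : c ∉ spc h0 b) :
    ec h0 c = 0 ∧ bc b c = 0 := by
  unfold spc at hc
  rw [Finset.mem_union, not_or] at hc
  obtain ⟨h1, h2⟩ := hc
  constructor
  · unfold ec
    rw [Polynomial.rootMultiplicity_eq_zero_iff]
    intro h3
    exfalso
    apply h1
    rw [Multiset.mem_toFinset, Polynomial.mem_roots hh]
    exact h3
  · unfold bc
    split_ifs with h3
    · rcases Nat.eq_zero_or_pos b with hb | hb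
      · exact hb
      · exfalso
        apply h2
        have hb' : 1 ≤ b := hb
        rw [if_pos hb', h3]
        exact Finset.mem_singleton_self _
    · rfl

private theorem BRK_sub (h0 : Polynomial ℂ) (hh : h0 ≠ 0) (b : ℕ) (S : Finset ℂ)
    (hS : ∀ c, h0.IsRoot c → c ∈ S) (hb : 1 ≤ b → (0 : ℂ) ∈ S) : spc h0 b ⊆ S := by
  intro c hc
  unfold spc at hc
  rw [Finset.mem_union] at hc
  rcases hc with h1 | h1
  · rw [Multiset.mem_toFinset, Polynomial.mem_roots hh] at h1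
    exact hS c h1
  · split_ifs at h1 with h2
    · rw [Finset.mem_singleton] at h1
      rw [h1]
      exact hb h2
    · exact absurd h1 (Finset.notMem_empty _)

/-- BRK -/
theorem brk {W : Type} [AddCommGroup W] [Module ℂ W] (Ξ : ℕ → W) (h0 : Polynomial ℂ)
    (hh : h0 ≠ 0) (N a b : ℕ) (hN0 : 0 < N) (hN : h0.natDegree ≤ N) (hc : ¬ Contr h0 N a b)
    (S : Finset ℂ) (hS : ∀ c, h0.IsRoot c → c ∈ S) (hb : 1 ≤ b → (0 : ℂ) ∈ S) :
    (1 - (S.card : ℂ)) • Ξ N +
      ∑ c ∈ S, tc N (a + b + 2) (ec h0 c) (bc b c) • Ξ (Nat.gcd N (ec h0 c)) +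
      tc N (a + b + 2) (N - h0.natDegree) a • Ξ (Nat.gcd N (N - h0.natDegree)) = 0 := by
  classical
  have hsub := BRK_sub h0 hh b S hS hb
  have hse := BRK_sum_ec h0 b
  have hsb := BRK_sum_bc h0 b
  unfold Contr at hc
  rw [not_or, not_or] at hc
  obtain ⟨_, _, hc3⟩ := hc
  set d := h0.natDegree with hd
  -- the sum over S
  have hsplit : ∑ c ∈ S, tc N (a + b + 2) (ec h0 c) (bc b c) • Ξ (Nat.gcd N (ec h0 c)) =
      ∑ c ∈ spc h0 b, tc N (a + b + 2) (ec h0 c) (bc b c) • Ξ (Nat.gcd N (ec h0 c)) +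
        ((S.card : ℂ) - ((spc h0 b).card : ℂ)) • Ξ N := by
    rw [← Finset.sum_sdiff hsub, add_comm]
    congr 1
    have h1 : ∀ c ∈ S \ spc h0 b,
        tc N (a + b + 2) (ec h0 c) (bc b c) • Ξ (Nat.gcd N (ec h0 c)) = Ξ N := by
      intro c hc
      rw [Finset.mem_sdiff] at hc
      obtain ⟨h2, h3⟩ := BRK_out h0 hh b hc.2
      rw [h2, h3, BRK_triv N _ hN0, one_smul, Nat.gcd_zero_right]
    rw [Finset.sum_congr rfl h1, Finset.sum_const, ← Nat.cast_smul_eq_nsmul ℂ,
      Finset.card_sdiff_of_subset hsub, Nat.cast_sub (Finset.card_le_card hsub)]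
  rw [hsplit]
  have hcomb : ∀ A B : W, (1 - (S.card : ℂ)) • Ξ N +
      (A + ((S.card : ℂ) - ((spc h0 b).card : ℂ)) • Ξ N) + B =
      (1 - ((spc h0 b).card : ℂ)) • Ξ N + A + B := by
    intro A B
    module
  rw [hcomb]
  by_cases hε : 1 ≤ a ∨ d < N
  · rw [if_pos hε] at hc3
    have hcard : (spc h0 b).card ≤ 1 := by omega
    rcases Nat.eq_zero_or_pos (spc h0 b).card with h0c | h1c
    · have hP : spc h0 b = ∅ := Finset.card_eq_zero.1 h0c
      rw [hP, Finset.sum_empty] at hse hsb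
      have h5 : a + 0 + 2 = a + 2 := by omega
      have hb0 : b = 0 := by omega
      have hd0 : d = 0 := by omega
      rw [hP, Finset.sum_empty, Finset.card_empty, hd0, hb0, Nat.sub_zero, Nat.gcd_self,
        add_zero, h5, BRK_one N a hN0]
      simp
    · have h1c' : (spc h0 b).card = 1 := by omega
      obtain ⟨c, hP⟩ := Finset.card_eq_one.1 h1c'
      rw [hP, Finset.sum_singleton] at hse hsb
      rw [hP, Finset.sum_singleton, Finset.card_singleton, Nat.cast_one, sub_self, zero_smul,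
        zero_add]
      apply BRK_pair
      · omega
      · omega
  · rw [if_neg hε] at hc3
    rw [not_or] at hε
    obtain ⟨ha, hdN⟩ := hε
    have ha0 : a = 0 := by omega
    have hdN' : d = N := by omega
    have hcard : (spc h0 b).card ≤ 2 := by omega
    rw [ha0, hdN', Nat.sub_self, BRK_triv N _ hN0, one_smul, Nat.gcd_zero_right]
    have hcases : (spc h0 b).card = 0 ∨ (spc h0 b).card = 1 ∨ (spc h0 b).card = 2 := by omega
    rcases hcases with h0c | h1c | h2c
    · have hP : spc h0 b = ∅ := Finset.card_eq_zero.1 h0c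
      rw [hP, Finset.sum_empty] at hse
      omega
    · obtain ⟨c, hP⟩ := Finset.card_eq_one.1 h1c
      rw [hP, Finset.sum_singleton] at hse hsb
      rw [hP, Finset.sum_singleton, Finset.card_singleton, Nat.cast_one, sub_self, zero_smul,
        zero_add, hse, hsb, hdN', Nat.gcd_self]
      have h3 : 0 + b + 2 = b + 2 := by omega
      rw [h3, BRK_one N b hN0]
      simp
    · obtain ⟨c, c', hcc, hP⟩ := Finset.card_eq_two.1 h2c
      rw [hP, Finset.sum_pair hcc] at hse hsb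
      rw [hP, Finset.sum_pair hcc, Finset.card_pair hcc]
      have h4 := BRK_pair Ξ N (0 + b + 2) (ec h0 c) (ec h0 c') (bc b c) (bc b c')
        (by omega) (by omega)
      rw [h4]
      push_cast
      module

end Pool.Agent.H56.CT
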