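import Pool.Agent.H56.CT.FDefs

/-!
# CFX: existence of the root columns

`hV k : Val (f k) (κv k) (k ∈ T)`.  Let `KE` be the set of `k` in the first case of `Val`, `KN` the set of `k` in the fourth case (and not in the first); for the other `k` let `N k` be the number in the second case, and `N k = 1` in the third case; so `κv k = 1 / N k`, `SpD (f k) (N k)`, `N k ≥ 1`; put `N k = 1` for `k ∈ KE ∪ KN`.
Columns: the type `Γ = Fin m ⊕ {k // k ∈ KN}`, `grp (inl k) = k`, `grp (inr k) = k`, `Nn (inl k) = N k`, `Nn (inr k) = 1`, `cc (inl k) = 0`, `cc (inr k) = 1`; `n = card Γ`, `Γ ≃ Fin n` (`Fintype.equivFin`).  `e = card {k // k ∈ KE}`, `ε j` = the column `inl k` of the `j`-th element `k` of `KE`.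
`Fs k = f k` for `k ∈ KE`, `U * V` for `k ∈ KN`, `U ^ N k` otherwise.
`gr`: two different columns of the same group `k`: `inl k` and `inr k`, `k ∈ KN`, so both have `Nn = 1` and are not in the range of `ε` (`KE`, `KN` are disjoint).  `n1`: a column not in the range of `ε`: the group is in `KN` (`κv k = 1`, `Nn = 1`) or `κv k = 1 / N k`, `Nn = N k`.  `ee`: first case of `Val`.
`nd`: `κv k = 1`, `k ∉ T`: not the first case (`κv k < 1`), not the second (`N ≥ 2`), not the third (`k ∈ T`), so the fourth: `k ∈ KN`, the columns `inl k`, `inr k`.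
`inj`: the pairs: `(k, 0)` for `inl k`, `(k, 1)` for `inr k`, `k ∈ KN`, and `(k, 1)` for `k ∈ KE`; all different.  `fs1`: for `k ∈ KN`: `X 0 ^ 1 * X 1 ^ 1`; otherwise the only column of the group is `inl k`.
-/

set_option autoImplicit false

namespace Pool.Agent.H56.CT

open Finset
open Pool.Agent.H22.T7

/-- the data of the variables -/
theorem CFX_data {m : ℕ} (f : Fin m → R2) (κv : Fin m → ℚ) (T : Finset (Fin m))
    (hV : ∀ k, Val (f k) (κv k) (k ∈ T)) :
    ∃ (E D : Fin m → Prop) (N : Fin m → ℕ), (∀ k, 0 < N k) ∧ (∀ k, E k → ¬ D k) ∧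
      (∀ k, E k → N k = 1 ∧ κv k < 1 ∧ Nonempty (PhiD (f k) (κv k))) ∧
      (∀ k, D k → N k = 1 ∧ κv k = 1 ∧ Node (f k)) ∧
      (∀ k, ¬ E k → ¬ D k → (N k : ℚ) * κv k = 1 ∧ SpD (f k) (N k)) ∧
      (∀ k, κv k = 1 → k ∉ T → D k) := by
  classical
  have h : ∀ k, ∃ (e d : Prop) (N : ℕ), 0 < N ∧ (e → ¬ d) ∧
      (e → N = 1 ∧ κv k < 1 ∧ Nonempty (PhiD (f k) (κv k))) ∧
      (d → N = 1 ∧ κv k = 1 ∧ Node (f k)) ∧
      (¬ e → ¬ d → (N : ℚ) * κv k = 1 ∧ SpD (f k) N) ∧
      (κv k = 1 → k ∉ T → d) := by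
    intro k
    rcases hV k with ⟨-, -, h2, h3⟩ | ⟨h0, N, h1, h2, h3⟩ | ⟨h0, h1, h2⟩ | ⟨h0, h1, h2⟩
    · exact ⟨True, False, 1, one_pos, fun _ h => h, fun _ => ⟨rfl, h2, h3⟩, fun h => h.elim,
        fun h => (h trivial).elim, fun h => absurd h h2.ne⟩
    · have hN : (N : ℚ) ≠ 0 := by
        have : N ≠ 0 := by omega
        exact_mod_cast this
      refine ⟨False, False, N, by omega, fun h => h.elim, fun h => h.elim, fun h => h.elim,
        fun _ _ => ⟨?_, h3⟩, fun h => ?_⟩
      · rw [h2]; field_simp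
      · exfalso
        rw [h2, div_eq_iff hN, one_mul] at h
        have : N = 1 := by exact_mod_cast h.symm
        omega
    · exact ⟨False, False, 1, one_pos, fun h => h.elim, fun h => h.elim, fun h => h.elim,
        fun _ _ => ⟨by rw [h1]; norm_num, h2⟩, fun _ h => absurd h0 h⟩
    · exact ⟨False, True, 1, one_pos, fun h => h.elim, fun h => h.elim,
        fun _ => ⟨rfl, h1, h2⟩, fun _ h => (h trivial).elim, fun _ _ => trivial⟩
  choose E D N h0 h1 h2 h3 h4 h5 using h
  exact ⟨E, D, N, h0, h1, h2, h3, h4, h5⟩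

/-- CFX -/
theorem cfx {m : ℕ} (f : Fin m → R2) (κv : Fin m → ℚ) (T : Finset (Fin m))
    (hV : ∀ k, Val (f k) (κv k) (k ∈ T)) :
    ∃ (n e : ℕ) (Nn : Fin n → ℕ) (grp : Fin n → Fin m) (ε : Fin e → Fin n)
      (cc : Fin n → Fin 2) (Fs : Fin m → R2), Cfg f κv T n e Nn grp ε cc Fs := by
  classical
  obtain ⟨E, D, N, h0, h1, h2, h3, h4, h5⟩ := CFX_data f κv T hV
  let φ : (Fin m ⊕ {k // D k}) ≃ Fin (Fintype.card (Fin m ⊕ {k // D k})) := Fintype.equivFin _
  let ψ : {k // E k} ≃ Fin (Fintype.card {k // E k}) := Fintype.equivFin _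
  let NG : Fin m ⊕ {k // D k} → ℕ := Sum.elim N (fun _ => 1)
  let gG : Fin m ⊕ {k // D k} → Fin m := Sum.elim id (fun k => k.1)
  let cG : Fin m ⊕ {k // D k} → Fin 2 := Sum.elim (fun _ => 0) (fun _ => 1)
  let Nn := fun j => NG (φ.symm j)
  let grp := fun j => gG (φ.symm j)
  let cc := fun j => cG (φ.symm j)
  let ε : Fin (Fintype.card {k // E k}) → Fin (Fintype.card (Fin m ⊕ {k // D k})) :=
    fun i => φ (Sum.inl (ψ.symm i).1)
  let Fs : Fin m → R2 := fun k => if E k then f k else if D k then U * V else U ^ N k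
  have eN1 : ∀ k, Nn (φ (Sum.inl k)) = N k := fun k => by
    simp only [Nn, NG, Equiv.symm_apply_apply, Sum.elim_inl]
  have eN2 : ∀ k, Nn (φ (Sum.inr k)) = 1 := fun k => by
    simp only [Nn, NG, Equiv.symm_apply_apply, Sum.elim_inr]
  have eg1 : ∀ k, grp (φ (Sum.inl k)) = k := fun k => by
    simp only [grp, gG, Equiv.symm_apply_apply, Sum.elim_inl, id]
  have eg2 : ∀ k, grp (φ (Sum.inr k)) = k.1 := fun k => by
    simp only [grp, gG, Equiv.symm_apply_apply, Sum.elim_inr]
  have ec1 : ∀ k, cc (φ (Sum.inl k)) = 0 := fun k => by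
    simp only [cc, cG, Equiv.symm_apply_apply, Sum.elim_inl]
  have ec2 : ∀ k, cc (φ (Sum.inr k)) = 1 := fun k => by
    simp only [cc, cG, Equiv.symm_apply_apply, Sum.elim_inr]
  have hr1 : ∀ k, φ (Sum.inl k) ∈ Set.range ε ↔ E k := by
    intro k
    constructor
    · rintro ⟨i, hi⟩
      have := Sum.inl_injective (φ.injective hi)
      rw [← this]
      exact (ψ.symm i).2
    · intro hk
      exact ⟨ψ ⟨k, hk⟩, by simp only [ε, Equiv.symm_apply_apply]⟩
  have hr2 : ∀ k, φ (Sum.inr k) ∉ Set.range ε := by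
    rintro k ⟨i, hi⟩
    exact absurd (φ.injective hi) Sum.inl_ne_inr
  have hge : ∀ i, grp (ε i) = (ψ.symm i).1 := fun i => eg1 _
  refine ⟨_, _, Nn, grp, ε, cc, Fs, ?_⟩
  refine ⟨?_, ?_, ?_, ?_, ?_, ?_, ?_, ?_, ?_, ?_, ?_, ?_⟩
  · intro j
    obtain ⟨g, rfl⟩ := φ.surjective j
    rcases g with k | k
    · rw [eN1]; exact h0 k
    · rw [eN2]; exact one_pos
  · intro k
    exact ⟨φ (Sum.inl k), eg1 k⟩
  · intro i i' hi
    exact ψ.symm.injective (Subtype.ext (Sum.inl_injective (φ.injective hi)))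
  · intro j j' hg hne
    obtain ⟨g, rfl⟩ := φ.surjective j
    obtain ⟨g', rfl⟩ := φ.surjective j'
    rcases g with k | k <;> rcases g' with k' | k'
    · rw [eg1, eg1] at hg
      exact absurd (by rw [hg]) hne
    · rw [eg1, eg2] at hg
      subst hg
      refine ⟨fun h => ?_, ?_⟩
      · exact h1 _ ((hr1 _).1 h) k'.2
      · rw [eN1, eN2, (h3 _ k'.2).1]
    · rw [eg2, eg1] at hg
      subst hg
      refine ⟨hr2 _, ?_⟩
      rw [eN1, eN2, (h3 _ k.2).1]
    · rw [eg2, eg2] at hg
      exact absurd (by rw [Subtype.ext hg]) hne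
  · intro j hj
    obtain ⟨g, rfl⟩ := φ.surjective j
    rcases g with k | k
    · rw [eg1, eN1]
      have hE : ¬ E k := fun h => hj ((hr1 k).2 h)
      by_cases hD : D k
      · obtain ⟨e1, e2, -⟩ := h3 k hD
        rw [e1, e2]; norm_num
      · exact (h4 k hE hD).1
    · rw [eg2, eN2, (h3 _ k.2).2.1]; norm_num
  · intro i
    obtain ⟨e1, e2, e3⟩ := h2 _ (ψ.symm i).2
    refine ⟨?_, ?_, ?_⟩
    · exact (eN1 _).trans e1
    · rw [hge]; exact e2
    · rw [hge]; exact e3
  · intro k hk hT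
    have hD := h5 k hk hT
    exact ⟨φ (Sum.inl k), φ (Sum.inr ⟨k, hD⟩), fun h => Sum.inl_ne_inr (φ.injective h), eg1 _, eg2 _⟩
  · rw [Fin.append_injective_iff]
    refine ⟨?_, ?_, ?_⟩
    · intro j j' hjj
      obtain ⟨g, rfl⟩ := φ.surjective j
      obtain ⟨g', rfl⟩ := φ.surjective j'
      have e1 := congrArg Prod.fst hjj
      have e2 := congrArg Prod.snd hjj
      simp only at e1 e2
      rcases g with k | k <;> rcases g' with k' | k'
      · rw [eg1, eg1] at e1
        rw [e1]
      · rw [ec1, ec2] at e2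
        exact absurd e2 (by decide)
      · rw [ec1, ec2] at e2
        exact absurd e2 (by decide)
      · rw [eg2, eg2] at e1
        rw [Subtype.ext e1]
    · intro i i' hii
      have e1 := congrArg Prod.fst hii
      simp only at e1
      rw [hge, hge] at e1
      exact ψ.symm.injective (Subtype.ext e1)
    · intro j i hji
      obtain ⟨g, rfl⟩ := φ.surjective j
      have e1 := congrArg Prod.fst hji
      have e2 := congrArg Prod.snd hji
      simp only at e1 e2
      rcases g with k | k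
      · rw [ec1] at e2
        exact absurd e2 (by decide)
      · rw [hge, eg2] at e1
        exact h1 _ (ψ.symm i).2 (e1 ▸ k.2)
  · intro i
    exact ec1 _
  · intro i
    rw [hge]
    exact if_pos (ψ.symm i).2
  · intro k hk
    have hE : ¬ E k := by
      intro h
      exact hk ⟨ψ ⟨k, h⟩, by simp only [hge, Equiv.symm_apply_apply]⟩
    by_cases hD : D k
    · have e : univ.filter (fun j => grp j = k) = {φ (Sum.inl k), φ (Sum.inr ⟨k, hD⟩)} := by
        ext j
        obtain ⟨g, rfl⟩ := φ.surjective j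
        rw [mem_filter, mem_insert, mem_singleton, φ.injective.eq_iff, φ.injective.eq_iff]
        rcases g with k' | k'
        · rw [eg1]
          simp
        · rw [eg2]
          simp [Subtype.ext_iff]
      rw [e, prod_pair (fun h => Sum.inl_ne_inr (φ.injective h)), eN1, eN2, ec1, ec2,
        (h3 k hD).1, pow_one, pow_one]
      simp only [Fs, if_neg hE, if_pos hD]
    · have e : univ.filter (fun j => grp j = k) = {φ (Sum.inl k)} := by
        ext j
        obtain ⟨g, rfl⟩ := φ.surjective j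
        rw [mem_filter, mem_singleton, φ.injective.eq_iff]
        rcases g with k' | k'
        · rw [eg1]
          simp
        · rw [eg2]
          simp only [mem_univ, true_and, reduceCtorEq, iff_false]
          intro h
          exact hD (h ▸ k'.2)
      rw [e, prod_singleton, eN1, ec1]
      simp only [Fs, if_neg hE, if_neg hD]
  · intro k
    by_cases hE : E k
    · exact Or.inl (if_pos hE)
    · by_cases hD : D k
      · refine Or.inr (Or.inr ⟨?_, (h3 k hD).2.2⟩)
        simp only [Fs, if_neg hE, if_pos hD]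
      · refine Or.inr (Or.inl ⟨N k, h0 k, ?_, (h4 k hE hD).2⟩)
        simp only [Fs, if_neg hE, if_neg hD]

end Pool.Agent.H56.CT
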