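import Pool.Agent.H56.CT.RDefs
import Pool.Agent.H22.T7.APR
import Pool.Agent.H22.T7.DPS

/-!
# CGH: approximation of the composition by polynomials; weights

Let `A = MvPowerSeries (Fin (n+e)) ℂ`.  `Hi L` defines an ideal (`Hi_add`, `Hi_mul_left`, `Hi_mul`, `Hi_mono`, `Hi_zero` in `Pool/Agent/H22/T7/DPS.lean`).
(1) `cgh_sbI`: the power series of `sbI e ε f' P` is `aeval (zt ε (fun j => (f' j : R2))) P`.  Induction on `e`, generalizing over all `P` (for `e+1`: `sbV` is `aeval`, `sbI` for `e`; both sides are algebra homomorphisms in `P` (first show by induction on `e` that `sbI e ε f'` is an algebra homomorphism, or that it respects `+`, `*`, `C`, and maps `X_k` to `X_{castAdd k}` for `k` not in the range and to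
`rename ![castAdd e (ε j), natAdd n j] (f' j)` for `k = ε j`; for `e+1` the substitution `sbV (castAdd e (ε last)) ..` changes only the variable `castAdd e (ε last)`, `ε` is injective)).  `zt ε f' k` for `k = ε j` is `subst ![X .., X ..] (f' j)`; for a polynomial `f' j` this is the power series of `rename ![castAdd .., natAdd ..] (f' j)`
(`MvPowerSeries.subst` of a polynomial is `aeval`: `MvPowerSeries.subst_coe` or `aeval_coe`-like lemma; the family `![X i, X j]` has nilpotent constant coefficients, `hasSubst_of_constantCoeff_zero`).  `h.choose = j` by injectivity.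
(2) `Hi L (zt ε f' k - zt ε f k)`: `k` not in the range: `0`.  `k = ε j`: the difference is `subst ![X .., X ..] (f' j - f j)` (`subst` is additive), and `subst` by variables does not change degrees: the coefficient of `subst ![X i, X j] g` at `ρ` is a (finite) sum of `coeff d g` with `d.degree = ρ.degree` (or: `subst ![X i, X j]` of a monomial is a monomial of the same degree; continuity; or write `g = ∑_{|ν| = L} x^ν g_ν`
(`Hi L g`: such a decomposition is in `Pool/Agent/H22/T7`, or prove it) and use that `subst` is a ring homomorphism).  In the same way `Hi 1 (zt ε f k)` (`hf`: no constant term).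
(3) `aeval z' P - aeval z P` for a polynomial `P` is in the ideal generated by the `z'_k - z_k` (induction on `P`), so it is in `Hi L`.
(4) `compG (rtE Nn grp a) κ ε f = aeval (zt ε f) (fpoly (rtE Nn grp a) κ)`, and `= aeval Z (fpoly a κ)` with `Z_k = ∏_{j : grp j = k} (zt ε f j)^(Nn j)` (`∏_j z_j^(Nn j * a i (grp j)) = ∏_k (∏_{grp j = k} z_j^(Nn j))^(a i k)`, `Finset.prod_fiberwise`).
`aeval Z (fpoly a' κ' - fpoly a κ)`: all exponents `u` of this polynomial have degree `≥ L`, `Z_k ∈ Hi 1` (`hg`: the group is not empty, `hN`, (2)), so `Z^u ∈ Hi (degree u)`: in `Hi L`.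
(5) The difference in the theorem is `(aeval z' - aeval z)(fpoly (rtE .. a') κ') + aeval Z (fpoly a' κ' - fpoly a κ)`.

`cgw`: induction on `e`; step: `sbV k f'` with `ω k = 0`.  Every exponent `u'` of `sbV k f' (monomial u c)` satisfies `u'_j = u_j` for `j ≠ k` (coefficients of a product `∏_{j ≠ k} X_j^{u_j} * (rename (xv k) f')^{u_k}`; the second factor has only the variables `k.castSucc`, `Fin.last`), so `∑ ω' u' = ∑ ω u`, `ω' = Fin.snoc ω 0`.
(`Fin.append ω 0` on `Fin (n + (e+1))` is `Fin.snoc (Fin.append ω 0) 0`.)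
-/

set_option autoImplicit false

namespace Pool.Agent.H56.CT

open Finset AddMonoidAlgebra
open Pool.Agent.H56.SMC Pool.Agent.H37.T5 Pool.Agent.H56.T5 Pool.Agent.H37.T6 Pool.Agent.H22.T6
open Pool.Agent.H22.T7

/-- `sbI` is an algebra homomorphism with known values. -/
theorem CGH_hom {n : ℕ} : ∀ (e : ℕ) (ε : Fin e → Fin n), Function.Injective ε →
    ∀ (f' : Fin e → MvPolynomial (Fin 2) ℂ),
    ∃ ψ : MvPolynomial (Fin n) ℂ →ₐ[ℂ] MvPolynomial (Fin (n + e)) ℂ,
      (∀ P, sbI e ε f' P = ψ P) ∧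
      (∀ k, (∀ j, ε j ≠ k) → ψ (MvPolynomial.X k) = MvPolynomial.X (Fin.castAdd e k)) ∧
      ∀ j, ψ (MvPolynomial.X (ε j)) =
        MvPolynomial.rename ![Fin.castAdd e (ε j), Fin.natAdd n j] (f' j) := by
  intro e
  induction e with
  | zero =>
    intro ε _ f'
    exact ⟨AlgHom.id ℂ _, fun P => rfl, fun k _ => rfl, fun j => j.elim0⟩
  | succ e ih =>
    intro ε hε f'
    have hinj : Function.Injective (fun j : Fin e => ε j.castSucc) := by
      intro i j hij
      exact Fin.castSucc_injective _ (hε hij)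
    obtain ⟨ψ, h1, h2, h3⟩ := ih (fun j => ε j.castSucc) hinj (fun j => f' j.castSucc)
    have hX : ∀ j : Fin (n + e), j ≠ Fin.castAdd e (ε (Fin.last e)) →
        sbV (Fin.castAdd e (ε (Fin.last e))) (f' (Fin.last e)) (MvPolynomial.X j) =
          MvPolynomial.X j.castSucc := by
      intro j hj
      rw [sbV, MvPolynomial.aeval_X, if_neg hj]
    refine ⟨(sbV (Fin.castAdd e (ε (Fin.last e))) (f' (Fin.last e))).comp ψ, ?_, ?_, ?_⟩
    · intro P
      rw [AlgHom.comp_apply, ← h1]
      rfl
    · intro k hk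
      rw [AlgHom.comp_apply, h2 k (fun j => hk j.castSucc), hX]
      · rfl
      · intro h
        exact hk (Fin.last e) (Fin.castAdd_injective n e h).symm
    · intro j
      rw [AlgHom.comp_apply]
      refine Fin.lastCases ?_ (fun i => ?_) j
      · rw [h2 (ε (Fin.last e))]
        · rw [sbV, MvPolynomial.aeval_X, if_pos rfl]
          congr 2
          funext δ
          fin_cases δ
          · rfl
          · apply Fin.ext
            simp [xv]
        · intro i hi
          have h4 := hε hi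
          exact (Fin.castSucc_lt_last i).ne h4
      · rw [h3 i]
        have hv : ∀ δ : Fin 2, (![Fin.castAdd e (ε i.castSucc), Fin.natAdd n i] : Fin 2 → Fin (n + e)) δ ≠
            Fin.castAdd e (ε (Fin.last e)) := by
          intro δ
          fin_cases δ
          · intro h
            have h4 := hε (Fin.castAdd_injective n e h)
            exact (Fin.castSucc_lt_last i).ne h4
          · intro h
            have h4 := congrArg Fin.val h
            have h5 := (ε (Fin.last e)).isLt
            simp at h4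
            omega
        have h5 : (sbV (Fin.castAdd e (ε (Fin.last e))) (f' (Fin.last e))).comp
            (MvPolynomial.rename ![Fin.castAdd e (ε i.castSucc), Fin.natAdd n i]) =
            MvPolynomial.rename ![Fin.castAdd (e + 1) (ε i.castSucc), Fin.natAdd n i.castSucc] := by
          apply MvPolynomial.algHom_ext
          intro δ
          rw [AlgHom.comp_apply, MvPolynomial.rename_X, MvPolynomial.rename_X, hX _ (hv δ)]
          congr 1
          fin_cases δ
          · rfl
          · apply Fin.ext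
            simp
        exact congrArg (fun q => q (f' i.castSucc)) h5

theorem CGH_zt {n e : ℕ} (ε : Fin e → Fin n) (hε : Function.Injective ε) (f : Fin e → R2)
    (j : Fin e) : zt ε f (ε j) = MvPowerSeries.subst ![MvPowerSeries.X (Fin.castAdd e (ε j)),
      MvPowerSeries.X (Fin.natAdd n j)] (f j) := by
  have h : ∃ i, ε i = ε j := ⟨j, rfl⟩
  have h1 : h.choose = j := hε h.choose_spec
  rw [zt, dif_pos h, h1]

theorem CGH_zt' {n e : ℕ} (ε : Fin e → Fin n) (f : Fin e → R2) (k : Fin n)
    (hk : ∀ j, ε j ≠ k) : zt ε f k = MvPowerSeries.X (Fin.castAdd e k) := by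
  rw [zt, dif_neg]
  rintro ⟨j, hj⟩
  exact hk j hj

/-- The power series of `sbI`. -/
theorem cgh_sbI {n e : ℕ} (ε : Fin e → Fin n) (hε : Function.Injective ε)
    (f' : Fin e → MvPolynomial (Fin 2) ℂ) (P : MvPolynomial (Fin n) ℂ) :
    ((sbI e ε f' P : MvPolynomial (Fin (n + e)) ℂ) : MvPowerSeries (Fin (n + e)) ℂ) =
      MvPolynomial.aeval (zt ε (fun j => (f' j : R2))) P := by
  obtain ⟨ψ, h1, h2, h3⟩ := CGH_hom e ε hε f'
  rw [h1]
  have h4 : (MvPolynomial.coeToMvPowerSeries.algHom (R := ℂ) (σ := Fin (n + e)) ℂ).comp ψ =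
      MvPolynomial.aeval (zt ε (fun j => (f' j : R2))) := by
    apply MvPolynomial.algHom_ext
    intro k
    rw [AlgHom.comp_apply, MvPolynomial.aeval_X]
    by_cases hk : ∃ j, ε j = k
    · obtain ⟨j, rfl⟩ := hk
      rw [h3, CGH_zt ε hε, MvPowerSeries.subst_coe]
      have h5 : (MvPolynomial.coeToMvPowerSeries.algHom (R := ℂ) (σ := Fin (n + e)) ℂ).comp
          (MvPolynomial.rename ![Fin.castAdd e (ε j), Fin.natAdd n j]) =
          MvPolynomial.aeval ![MvPowerSeries.X (Fin.castAdd e (ε j)),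
            MvPowerSeries.X (Fin.natAdd n j)] := by
        apply MvPolynomial.algHom_ext
        intro δ
        rw [AlgHom.comp_apply, MvPolynomial.aeval_X, MvPolynomial.rename_X]
        fin_cases δ
        · simp [MvPolynomial.coeToMvPowerSeries.algHom_apply]
        · simp [MvPolynomial.coeToMvPowerSeries.algHom_apply]
      exact congrArg (fun q => q (f' j)) h5
    · push Not at hk
      rw [h2 k hk, CGH_zt' ε _ k hk]
      simp [MvPolynomial.coeToMvPowerSeries.algHom_apply]
  have h6 := congrArg (fun q => q P) h4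
  simp only [AlgHom.comp_apply, MvPolynomial.coeToMvPowerSeries.algHom_apply] at h6
  rw [← h6]
  simp

theorem CGH_const {τ : Type} {g : MvPowerSeries τ ℂ} (h : Hi 1 g) :
    MvPowerSeries.constantCoeff g = 0 := by
  by_contra hne
  rw [← MvPowerSeries.coeff_zero_eq_constantCoeff_apply] at hne
  have h1 := h 0 hne
  simp at h1

theorem CGH_hiX {τ : Type} (k : τ) : Hi 1 (MvPowerSeries.X k : MvPowerSeries τ ℂ) := by
  classical
  intro ρ hρ
  rw [MvPowerSeries.coeff_X] at hρ
  split_ifs at hρ with h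
  · rw [h, Finsupp.degree_single]
  · exact absurd rfl hρ

/-- Substitution does not lower the order. -/
theorem CGH_subst {σ τ : Type} [Fintype σ] [DecidableEq σ] (Z : σ → MvPowerSeries τ ℂ)
    (hZ : ∀ s, Hi 1 (Z s)) (L : ℕ) : ∀ g : MvPowerSeries σ ℂ, Hi L g →
    Hi L (MvPowerSeries.subst Z g) := by
  have hs : MvPowerSeries.HasSubst Z :=
    MvPowerSeries.hasSubst_of_constantCoeff_zero fun s => CGH_const (hZ s)
  induction L with
  | zero => intro g _; exact Hi_zero _
  | succ L ih =>
    intro g hg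
    obtain ⟨q, hq, hgq⟩ := hi_dec L g hg
    rw [hgq, ← MvPowerSeries.coe_substAlgHom hs, map_sum]
    refine Hi_sum _ _ fun j _ => ?_
    rw [map_mul, MvPowerSeries.substAlgHom_X, MvPowerSeries.coe_substAlgHom]
    have h1 := Hi_mul (hZ j) (ih _ (hq j))
    rwa [add_comm] at h1

/-- The values of a polynomial at two families which are close. -/
theorem CGH_close {n : ℕ} {τ : Type} {L : ℕ} (z z' : Fin n → MvPowerSeries τ ℂ)
    (h : ∀ k, Hi L (z' k - z k)) (P : MvPolynomial (Fin n) ℂ) :
    Hi L (MvPolynomial.aeval z' P - MvPolynomial.aeval z P) := by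
  induction P using MvPolynomial.induction_on with
  | C c =>
    rw [MvPolynomial.aeval_C, MvPolynomial.aeval_C, sub_self]
    intro ρ hρ
    simp at hρ
  | add p q hp hq =>
    rw [map_add, map_add]
    have e : (MvPolynomial.aeval z' p + MvPolynomial.aeval z' q) -
        (MvPolynomial.aeval z p + MvPolynomial.aeval z q) =
        (MvPolynomial.aeval z' p - MvPolynomial.aeval z p) +
          (MvPolynomial.aeval z' q - MvPolynomial.aeval z q) := by ring
    rw [e]
    exact Hi_add hp hq
  | mul_X p k hp =>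
    rw [map_mul, map_mul, MvPolynomial.aeval_X, MvPolynomial.aeval_X]
    have e : MvPolynomial.aeval z' p * z' k - MvPolynomial.aeval z p * z k =
        z' k * (MvPolynomial.aeval z' p - MvPolynomial.aeval z p) +
          MvPolynomial.aeval z p * (z' k - z k) := by ring
    rw [e]
    exact Hi_add (Hi_mul_left _ hp) (Hi_mul_left _ (h k))

theorem CGH_fpoly {n r : ℕ} {τ : Type} (a : Fin r → (Fin n →₀ ℕ)) (κ : Fin r → ℂ)
    (z : Fin n → MvPowerSeries τ ℂ) : MvPolynomial.aeval z (fpoly a κ) =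
      ∑ i, MvPowerSeries.C (κ i) * ∏ k, z k ^ a i k := by
  rw [fpoly, map_sum]
  refine Finset.sum_congr rfl fun i _ => ?_
  rw [MvPolynomial.aeval_monomial, Finsupp.prod_fintype _ _ (fun j => pow_zero _)]
  rfl

theorem CGH_diff {n e : ℕ} (ε : Fin e → Fin n) (hε : Function.Injective ε) (f : Fin e → R2)
    (L : ℕ) (f' : Fin e → MvPolynomial (Fin 2) ℂ) (hf' : ∀ j, Hi L ((f' j : R2) - f j))
    (k : Fin n) : Hi L (zt ε (fun j => (f' j : R2)) k - zt ε f k) := by
  by_cases hk : ∃ j, ε j = k
  · obtain ⟨j, rfl⟩ := hk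
    rw [CGH_zt ε hε, CGH_zt ε hε, ← MvPowerSeries.subst_sub MvPowerSeries.HasSubst.X_X]
    refine CGH_subst _ (fun s => ?_) L _ (hf' j)
    fin_cases s
    · exact CGH_hiX _
    · exact CGH_hiX _
  · push Not at hk
    rw [CGH_zt' ε _ k hk, CGH_zt' ε _ k hk, sub_self]
    intro ρ hρ
    simp at hρ

theorem CGH_ord {n e : ℕ} (ε : Fin e → Fin n) (hε : Function.Injective ε) (f : Fin e → R2)
    (hf : ∀ j, co (f j) 0 0 = 0) (k : Fin n) : Hi 1 (zt ε f k) := by
  by_cases hk : ∃ j, ε j = k
  · obtain ⟨j, rfl⟩ := hk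
    rw [CGH_zt ε hε]
    refine CGH_subst _ (fun s => ?_) 1 _ ?_
    · fin_cases s
      · exact CGH_hiX _
      · exact CGH_hiX _
    · intro ρ hρ
      by_contra hlt
      have h0 : ρ = 0 := by
        rw [← Finsupp.degree_eq_zero_iff]
        omega
      apply hρ
      have h1 := hf j
      rw [co] at h1
      rw [h0]
      simpa using h1
  · push Not at hk
    rw [CGH_zt' ε _ k hk]
    exact CGH_hiX _

theorem CGH_group {m n r : ℕ} {τ : Type} (a : Fin r → (Fin m →₀ ℕ)) (κ : Fin r → ℂ)
    (Nn : Fin n → ℕ) (grp : Fin n → Fin m) (z : Fin n → MvPowerSeries τ ℂ) :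
    MvPolynomial.aeval z (fpoly (rtE Nn grp a) κ) =
      MvPolynomial.aeval (fun k : Fin m => ∏ j ∈ univ.filter (fun j => grp j = k), z j ^ Nn j)
        (fpoly a κ) := by
  rw [CGH_fpoly, CGH_fpoly]
  refine Finset.sum_congr rfl fun i _ => ?_
  congr 1
  rw [← Finset.prod_fiberwise (s := univ) (g := grp) (f := fun k => z k ^ rtE Nn grp a i k)]
  refine Finset.prod_congr rfl fun k _ => ?_
  rw [← Finset.prod_pow]
  refine Finset.prod_congr rfl fun j hj => ?_
  rw [rtE_apply, (Finset.mem_filter.mp hj).2, pow_mul]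

/-- CGH -/
theorem cgh {m n e r r' : ℕ} (a : Fin r → (Fin m →₀ ℕ)) (κ : Fin r → ℂ) (Nn : Fin n → ℕ)
    (hN : ∀ j, 0 < Nn j) (grp : Fin n → Fin m) (hg : Function.Surjective grp)
    (ε : Fin e → Fin n) (hε : Function.Injective ε) (f : Fin e → R2)
    (hf : ∀ j, co (f j) 0 0 = 0) (L : ℕ) (f' : Fin e → MvPolynomial (Fin 2) ℂ)
    (hf' : ∀ j, Hi L ((f' j : R2) - f j)) (a' : Fin r' → (Fin m →₀ ℕ)) (κ' : Fin r' → ℂ)
    (ha' : Hi L ((fpoly a' κ' : MvPowerSeries (Fin m) ℂ) - (fpoly a κ : MvPowerSeries _ ℂ))) :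
    Hi L (((sbI e ε f' (fpoly (rtE Nn grp a') κ') : MvPolynomial (Fin (n + e)) ℂ) :
      MvPowerSeries (Fin (n + e)) ℂ) - compG (rtE Nn grp a) κ ε f) := by
  rw [cgh_sbI ε hε]
  have h1 : compG (rtE Nn grp a) κ ε f =
      MvPolynomial.aeval (zt ε f) (fpoly (rtE Nn grp a) κ) := by
    rw [CGH_fpoly]
    rfl
  set Z : Fin m → MvPowerSeries (Fin (n + e)) ℂ :=
    fun k => ∏ j ∈ univ.filter (fun j => grp j = k), zt ε f j ^ Nn j with hZ
  have hZ1 : ∀ k, Hi 1 (Z k) := by
    intro k
    obtain ⟨j, hj⟩ := hg k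
    have hm : j ∈ univ.filter (fun j => grp j = k) := Finset.mem_filter.mpr ⟨Finset.mem_univ _, hj⟩
    rw [hZ]
    change Hi 1 (∏ j ∈ univ.filter (fun j => grp j = k), zt ε f j ^ Nn j)
    rw [← Finset.prod_erase_mul _ _ hm]
    apply Hi_mul_left
    obtain ⟨N, hN'⟩ := Nat.exists_eq_succ_of_ne_zero (hN j).ne'
    rw [hN', pow_succ]
    exact Hi_mul_left _ (CGH_ord ε hε f hf j)
  have h2 : MvPolynomial.aeval (zt ε (fun j => (f' j : R2))) (fpoly (rtE Nn grp a') κ') -
      compG (rtE Nn grp a) κ ε f =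
      (MvPolynomial.aeval (zt ε (fun j => (f' j : R2))) (fpoly (rtE Nn grp a') κ') -
        MvPolynomial.aeval (zt ε f) (fpoly (rtE Nn grp a') κ')) +
      MvPolynomial.aeval Z (fpoly a' κ' - fpoly a κ) := by
    rw [h1, CGH_group a κ, CGH_group a' κ' Nn grp (zt ε f), map_sub]
    ring
  rw [h2]
  refine Hi_add (CGH_close _ _ (CGH_diff ε hε f L f' hf') _) ?_
  rw [← MvPowerSeries.subst_coe]
  refine CGH_subst Z hZ1 L _ ?_
  have h3 : ((fpoly a' κ' - fpoly a κ : MvPolynomial (Fin m) ℂ) : MvPowerSeries (Fin m) ℂ) =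
      (fpoly a' κ' : MvPowerSeries (Fin m) ℂ) - (fpoly a κ : MvPowerSeries _ ℂ) := by
    ext ρ
    simp
  rw [h3]
  exact ha'

theorem CGH_sum {N : ℕ} (W : Fin N → ℤ) (u : Fin N →₀ ℕ) :
    Finsupp.weight W u = ∑ j, u j • W j := by
  rw [Finsupp.weight_apply]
  exact Finsupp.sum_fintype _ _ (fun j => by simp)

/-- The substitution for a variable of weight zero. -/
theorem CGH_wt {N : ℕ} (k : Fin N) (g : MvPolynomial (Fin 2) ℂ) (W : Fin N → ℤ)
    (W' : Fin (N + 1) → ℤ) (hW : ∀ j : Fin N, W' j.castSucc = W j) (hl : W' (Fin.last N) = 0)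
    (hk : W k = 0) {Q : MvPolynomial (Fin N) ℂ} (hQ : MvPolynomial.IsWeightedHomogeneous W Q 0) :
    MvPolynomial.IsWeightedHomogeneous W' (sbV k g Q) 0 := by
  have hr : MvPolynomial.IsWeightedHomogeneous W' (MvPolynomial.rename (xv k) g) 0 := by
    induction g using MvPolynomial.induction_on with
    | C c =>
      rw [MvPolynomial.rename_C]
      exact MvPolynomial.isWeightedHomogeneous_C _ _
    | add p q hp hq =>
      rw [map_add]
      exact hp.add hq
    | mul_X p δ hp =>
      rw [map_mul, MvPolynomial.rename_X]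
      have h1 := hp.mul (MvPolynomial.isWeightedHomogeneous_X ℂ W' (xv k δ))
      have h2 : W' (xv k δ) = 0 := by
        unfold xv
        split_ifs
        · rw [hW, hk]
        · exact hl
      rwa [h2, add_zero] at h1
  have hX : ∀ j : Fin N, MvPolynomial.IsWeightedHomogeneous W' (sbV k g (MvPolynomial.X j)) (W j) := by
    intro j
    rw [sbV, MvPolynomial.aeval_X]
    split_ifs with h
    · rw [h, hk]
      exact hr
    · have h1 := MvPolynomial.isWeightedHomogeneous_X ℂ W' j.castSucc
      rwa [hW] at h1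
  rw [← MvPolynomial.support_sum_monomial_coeff Q, map_sum]
  refine MvPolynomial.IsWeightedHomogeneous.sum _ _ _ fun u hu => ?_
  have hu0 : Finsupp.weight W u = 0 := hQ (MvPolynomial.mem_support_iff.mp hu)
  have e1 : sbV k g (MvPolynomial.monomial u (MvPolynomial.coeff u Q)) =
      MvPolynomial.C (MvPolynomial.coeff u Q) * ∏ j, (sbV k g (MvPolynomial.X j)) ^ u j := by
    rw [sbV, MvPolynomial.aeval_monomial, Finsupp.prod_fintype _ _ (fun j => pow_zero _)]
    congr 1
    refine Finset.prod_congr rfl fun j _ => ?_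
    rw [MvPolynomial.aeval_X]
  rw [e1]
  have h3 := MvPolynomial.IsWeightedHomogeneous.prod (w := W') univ
    (fun j => (sbV k g (MvPolynomial.X j)) ^ u j) (fun j => u j • W j)
    (fun j _ => (hX j).pow (u j))
  have h4 : ∑ j, u j • W j = 0 := by
    rw [← hu0, CGH_sum]
  rw [h4] at h3
  exact h3.C_mul _

theorem CGH_ind {n : ℕ} (P : MvPolynomial (Fin n) ℂ) (ω : Fin n → ℤ)
    (hP : MvPolynomial.IsWeightedHomogeneous ω P 0) : ∀ (e : ℕ) (ε : Fin e → Fin n)
    (f' : Fin e → MvPolynomial (Fin 2) ℂ), (∀ j, ω (ε j) = 0) →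
    MvPolynomial.IsWeightedHomogeneous (Fin.append ω (fun _ : Fin e => (0 : ℤ))) (sbI e ε f' P) 0 := by
  intro e
  induction e with
  | zero =>
    intro ε f' _
    have h1 : (Fin.append ω (fun _ : Fin 0 => (0 : ℤ)) : Fin (n + 0) → ℤ) = ω := by
      funext i
      exact Fin.append_left ω _ i
    rw [h1]
    exact hP
  | succ e ih =>
    intro ε f' hω
    refine CGH_wt (N := n + e) _ _ (Fin.append ω (fun _ : Fin e => (0 : ℤ))) _ ?_ ?_ ?_
      (ih (fun j => ε j.castSucc) (fun j => f' j.castSucc) (fun j => hω j.castSucc))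
    · intro j
      refine Fin.addCases (fun i => ?_) (fun i => ?_) j
      · rw [Fin.append_left]
        exact Fin.append_left ω _ i
      · rw [Fin.append_right]
        exact Fin.append_right ω (fun _ : Fin (e + 1) => (0 : ℤ)) i.castSucc
    · exact Fin.append_right ω (fun _ : Fin (e + 1) => (0 : ℤ)) (Fin.last e)
    · rw [Fin.append_left]
      exact hω _

/-- CGW -/
theorem cgw {n e : ℕ} (ε : Fin e → Fin n) (f' : Fin e → MvPolynomial (Fin 2) ℂ)
    (P : MvPolynomial (Fin n) ℂ) (ω : Fin n → ℤ) (hω : ∀ j, ω (ε j) = 0)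
    (hP : ∀ u : Fin n →₀ ℕ, MvPolynomial.coeff u P ≠ 0 → ∑ j, ω j * (u j : ℤ) = 0)
    (u : Fin (n + e) →₀ ℕ) (hu : MvPolynomial.coeff u (sbI e ε f' P) ≠ 0) :
    ∑ j, Fin.append ω (fun _ : Fin e => 0) j * (u j : ℤ) = 0 := by
  have hP' : MvPolynomial.IsWeightedHomogeneous ω P 0 := by
    intro d hd
    rw [CGH_sum, ← hP d hd]
    refine Finset.sum_congr rfl fun j _ => ?_
    rw [nsmul_eq_mul, mul_comm]
  have h1 := CGH_ind P ω hP' e ε f' hω hu
  rw [CGH_sum] at h1
  refine Eq.trans ?_ h1
  refine Finset.sum_congr rfl fun j _ => ?_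
  rw [nsmul_eq_mul, mul_comm]

end Pool.Agent.H56.CT
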