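import Pool.Agent.H56.CT.FDefs

/-!
# Compositions with germs of plane curves: the data of the theorem

`CTG G`: `G = 𝒢(f_1(u_1, v_1), …, f_m(u_m, v_m))` with `𝒢` convenient and nondegenerate, `f_k`
arbitrary germs of plane curves, with resolutions.  `CPt F p`: the germ of the polynomial `F` at the
point `p` is, in suitable formal coordinates and with additional variables which do not occur, a
unit times a product of powers of such germs in disjoint sets of variables.
-/

set_option autoImplicit false

namespace Pool.Agent.H56.CT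

open Finset
open Pool.Agent.H22 Pool.Agent.H22.T7

/-- `G = 𝒢(f_1(u_1, v_1), …, f_m(u_m, v_m))`, `m ≥ 1`: `𝒢 = ∑ κ_i x^{a_i}` is nondegenerate with
respect to the compact faces of its Newton polyhedron and convenient, and `f_1, …, f_m` are
arbitrary germs of plane curves, `f_k(0) = 0`, `f_k ≠ 0`, with resolution trees. -/
structure CTG {m : ℕ} (G : MvPowerSeries (Fin m × Fin 2) ℂ) where
  pos : 0 < m
  /-- the number of exponents -/
  r : ℕ
  /-- the exponents of `𝒢` -/
  a : Fin r → (Fin m →₀ ℕ)
  inj : Function.Injective a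
  ne : ∀ i, a i ≠ 0
  /-- the coefficients of `𝒢` -/
  κ : Fin r → ℂ
  κ0 : ∀ i, κ i ≠ 0
  nd : NondegC a κ
  conv : ∀ j, ∃ i k, a i = Finsupp.single j k
  /-- the germs of plane curves -/
  f : Fin m → R2
  f0 : ∀ k, co (f k) 0 0 = 0
  fne : ∀ k, f k ≠ 0
  eq : G = GC a κ f
  /-- the types of the points of the resolutions, counted with Euler characteristics -/
  M : Fin m → (Str →₀ ℤ)
  res : ∀ k, Res (f k) 0 0 (M k)
  /-- decompositions of the dual cones -/
  𝒟 : ∀ (S : Fin m → Str) (τ : Finset (Fin r)), FaceCones (pbE a (fun k => toQ (S k))) τ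
  /-- triangulations of the faces -/
  𝒯 : ∀ (S : Fin m → Str) (τ : Finset (Fin r)), FaceTriang (pbE a (fun k => toQ (S k))) τ

/-- The local topological zeta function of `G`: the sum over the tuples of types of points
`(S_1, …, S_m)` of the resolutions of `f_1, …, f_m`, with multiplicity `∏ M_k(S_k)`, of the local
topological zeta functions of `𝒢(u_1^{N_1} v_1^{N'_1}, …)` for the form
`∏ u_k^{ν_k - 1} v_k^{ν'_k - 1} du_k ∧ dv_k`. -/
noncomputable def CTG.Z {m : ℕ} {G : MvPowerSeries (Fin m × Fin 2) ℂ} (T : CTG G) : RatFunc ℂ :=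
  ∑ S ∈ Fintype.piFinset (fun k => (T.M k).support),
    (∏ k, ((T.M k (S k) : ℤ) : RatFunc ℂ)) *
      topZetaLW (pbW (fun k => toQ (S k))) (pbE T.a (fun k => toQ (S k))) (T.𝒟 S) (T.𝒯 S)

/-- In suitable formal coordinates, and with `e` additional variables which do not occur in `F`,
the germ of `F` at `p` is a unit times a product of powers `G_j^{N_j}` of germs `G_j` as in `CTG`
in disjoint sets of variables. -/
structure CPt {n : ℕ} (F : MvPolynomial (Fin n) ℂ) (p : Fin n → ℂ) where
  /-- the number of additional variables -/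
  e : ℕ
  /-- the change of coordinates -/
  φ : MvPowerSeries (Fin n ⊕ Fin e) ℂ ≃ₐ[ℂ] MvPowerSeries (Fin n ⊕ Fin e) ℂ
  /-- the unit -/
  u : MvPowerSeries (Fin n ⊕ Fin e) ℂ
  hu : IsUnit u
  /-- the number of factors -/
  q : ℕ
  /-- the numbers of plane curves of the factors -/
  m : Fin q → ℕ
  /-- the variables of the factors -/
  ι : ∀ j, Fin (m j) × Fin 2 ↪ Fin n ⊕ Fin e
  disj : ∀ j j', j ≠ j' → ∀ x y, ι j x ≠ ι j' y
  /-- the exponents of the factors -/
  N : Fin q → ℕ
  Npos : ∀ j, 0 < N j
  /-- the factors -/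
  G : ∀ j, MvPowerSeries (Fin (m j) × Fin 2) ℂ
  /-- the factors are compositions with germs of plane curves -/
  T : ∀ j, CTG (G j)
  eq : φ (MvPowerSeries.rename Sum.inl (germ F p)) =
    u * ∏ j, (MvPowerSeries.rename (ι j) (G j)) ^ (N j)

/-- The local topological zeta function `∏_j Z_{G_j}(N_j s)` of `F` at `p`. -/
noncomputable def CPt.Z {n : ℕ} {F : MvPolynomial (Fin n) ℂ} {p : Fin n → ℂ} (T : CPt F p) :
    RatFunc ℂ :=
  ∏ j, aff (T.N j) 0 (T.T j).Z

end Pool.Agent.H56.CT
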