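import Pool.Agent.H56.CT.LEX

/-!
# INVN: the numerical conditions are preserved

Throughout `e_c = ec (ini N g) c`, `e∞ = N - natDegree (ini N g)`.  Only the statements of `LEX` are used, the rest is arithmetic of natural numbers (`nlinarith`, `omega` after products are given names).

Facts.  Case (1), `a ≥ 1`, `b = 0`: `AX1 g N1 e1`, `1 ≤ N1`, `a e1 ≤ N1`, `2 ≤ e1` (`ax1_nx`), `N ≤ N1 + e1`, `N1 ≤ e∞` (`lex_deg`), so `N1 + 1 ≤ N`: otherwise `N = N1` and then ... (`g_{N1,0} = 0` because `e1 ≥ 1`; but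
`N = N1`, `N1 ≤ e∞` give `natDegree (ini N g) = 0`, so `ini N g` is the constant `g_{N,0} = g_{N1,0} = 0`, contradiction).  `m_c := e_c ≤ N - N1` for all `c` (`lex_rt`, `lex_deg`).  If `N = N1 + 1`: `natDegree ≤ 1` and the
coefficient `g_{N-1,1} = g_{N1,1}` of `z` vanishes (`e1 ≥ 2`), so `ini N g` is a nonzero constant.
Case (2), `a = 0`, `b ≥ 1`: symmetric: `AX2 g N2 e2`, `b e2 ≤ N2`, `2 ≤ e2`, `N2 ≤ e_0`, `N2 + 1 ≤ N`; `e_c ≤ N - N2` for `c ≠ 0` (`lex_rt`), `e∞ ≤ N - N2` (`N2 ≤ e_0 ≤ natDegree`).  If `N = N2 + 1`: `ini N g = l z^N`.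
Case (3), `a, b ≥ 1`: `N1 + N2 < N` (`ax_nx`), `a + 1 ≤ N1`, `b + 1 ≤ N2` (the last condition of `both`), so `a + b + 3 ≤ N`; `N ≤ N1 + e1`, `N ≤ N2 + e2`, `N1 ≤ e∞`, `N2 ≤ e_0`, `e_c ≤ N - N1 - N2` for `c ≠ 0`, `e_0 ≤ N - N1`,
`e∞ ≤ N - N2`.  With `μ = N - N1 - N2 ≥ 1`: `a μ ≤ N1` (from `a e1 ≤ N1 + a N2` and `μ ≤ e1 - N2`), `b μ ≤ N2`.
Case (0), `a = b = 0`: `3 ≤ N`, or `N = 2` and `ini 2 g` has degree `0`, or degree `2` with a double root (`rootMultiplicity c ≠ 1`; over `ℂ` it splits).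

`inv_alpha`, first part: `b N < (a+b+2) e_0` if `b ≥ 1`: enough `b N < (a+b+2) N2`.  Case (2): `N ≤ N2 + e2`, `b N ≤ b N2 + N2 < (b+2) N2`.  Case (3): `b N = b N1 + b N2 + b μ < (a+1) N2 + b N2 + N2`.
Second part: symmetric.  Third part: suppose `N ≤ a + b + 2`.  Case (3) is impossible.  Case (1): if `N ≥ N1 + 2`: `a (N - N1) ≤ a e1 ≤ N1`, `N ≥ a (N - N1) + (N - N1) ≥ 2 a + 2 > a + 2`, a contradiction; so `N = N1 + 1`, `ini N g`
is constant, `e_c = 0` for all `c`, `e∞ = N`, `spc = ∅`; `Contr`: first part `N * (bc 0 c + 1) = 0` is false; second: `N (a+1) = (a+2) N` is false; third: `0 + 1 < 3`.  Case (2): symmetric: `ini N g = l z^N`, `e_0 = N`,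
`e∞ = 0`, `spc = {0}`: `N (b+1) = (b+2) N` is false, `c ≠ 0`: `N = 0` is false, `N * 1 = 0` is false, `1 + 0 < 3`.  Case (0): `N = 2`: `ini` constant: as in case (1) with `a = 0`: `2 (0+1) = 2 * 2` is false; or `l (z-c)^2`: `e_c = 2`,
`2 * 1 = 2 * 2` is false, `e∞ = 0`; `spc` has one element.

`inv_c`: the new data: `AX1 g' N e_c` (`lex_c`), and for `c = 0`, `b ≥ 1`: `AX2 g' N2 (e2 + N2)` (`lex_c2`), order `N'` (`lex_ord`).
 One divisor (`c ≠ 0` or `b = 0`): `1 ≤ N`, and `(a+b+1) e_c ≤ N`.  Case (0): `e_c ≤ N`.  Case (1): `a e_c + e_c ≤ a (N-N1) + (N-N1) ≤ a e1 + N - N1 ≤ N`.  Case (2), `c ≠ 0`: symmetric.  Case (3), `c ≠ 0`: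
 `(a+b+1) e_c ≤ a μ + b μ + μ ≤ N1 + N2 + μ = N`.
 Two divisors (`c = 0`, `b ≥ 1`), new `(N1', e1', N2', e2') = (N, e_0, N2, e2 + N2)`, exponents `(a+b+1, b)`.  Needed:
 (i) `(a+b+1) e_0 ≤ N + (a+b+1) N2`: in case (3) `e_0 - N2 ≤ N - N1 - N2 = μ`; in case (2) `e_0 - N2 ≤ N - N2`; as before.  (ii) `b (e2 + N2) ≤ N2 + b N`: case (2): `b e2 ≤ N2`, `N2 ≤ N`.  Case (3): `b e2 ≤ N2 + b N1`,
 `N1 + N2 ≤ N`.  (iii) `b N < (a+b+2) N2`: shown above.  (iv) `(a+b+1) N2 < (b+1) N`: case (2): `(b+1) N2 < (b+1) N`; case (3): `a N2 < (b+1) N1` and `(b+1) N2 ≤ (b+1) N2`: sum `(a+b+1) N2 < (b+1)(N1 + N2) ≤ (b+1) N`.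
 (v) if `N + N2 < N'` then `a+b+2 ≤ N` and `b + 1 ≤ N2`: case (3): clear.  Case (2): `2 b ≤ b e2 ≤ N2`, so `b + 1 ≤ N2`, and `N ≥ N2 + 1 ≥ b + 2`.
`inv_i`: symmetric: new `AX1 g' N1 (N1+e1)` (if `a ≥ 1`), `AX2 g' N e∞`; exponents `(a, a+b+1)`.
(For `both` of the new point the order `N'` and `N' ≥ N + N2` come from `lex_ord`, `lex_c0_ord`; `g' ≠ 0` because of `AX1`.)
-/

set_option autoImplicit false

namespace Pool.Agent.H56.CT

open Finset
open Pool.Agent.H22.T7

theorem INVN_coeff (N : ℕ) (g : R2) (j : ℕ) (hj : j ≤ N) : (ini N g).coeff j = co g (N - j) j := by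
  unfold ini
  rw [Polynomial.finsetSum_coeff]
  simp only [Polynomial.coeff_monomial]
  rw [Finset.sum_ite_eq']
  rw [if_pos (Finset.mem_range.2 (by omega))]

/-- case (1) -/
theorem INVN_d1 {g : R2} {a N : ℕ} (ha : 1 ≤ a) (hI : Inv g a 0) (hN : Ord g N) (hx : NX g a 0 N) :
    ∃ N1 e1, AX1 g N1 e1 ∧ 1 ≤ N1 ∧ a * e1 ≤ N1 ∧ 2 ≤ e1 ∧ N ≤ N1 + e1 ∧ (ini N g).natDegree + N1 ≤ N ∧
      N1 + 1 ≤ N ∧ (N = N1 + 1 → (ini N g).natDegree = 0) := by
  obtain ⟨N1, e1, h1, h2, h3⟩ := hI.one ha rfl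
  have h4 := ax1_nx h1 ha hx
  obtain ⟨h5, h6, h7⟩ := lex_deg hN h1
  have hz : ∀ j, j < e1 → N - j = N1 → j ≤ N → (ini N g).coeff j = 0 := by
    intro j hj hj1 hj2
    rw [INVN_coeff N g j hj2, hj1]
    exact h1.2.1 j hj
  have h8 : N1 + 1 ≤ N := by
    by_contra hcon
    have h9 : N = N1 := by omega
    have h10 : (ini N g).natDegree = 0 := by omega
    have h11 := Polynomial.eq_C_of_natDegree_eq_zero h10
    rw [hz 0 (by omega) (by omega) (by omega), Polynomial.C_0] at h11
    exact hN.2 h11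
  refine ⟨N1, e1, h1, h2, h3, h4, h5, h7, h8, fun h9 => ?_⟩
  by_contra h10
  have h11 : (ini N g).natDegree = 1 := by omega
  have h12 := hz 1 (by omega) (by omega) (by omega)
  have h13 : (ini N g).leadingCoeff = 0 := by
    rw [Polynomial.leadingCoeff, h11, h12]
  exact hN.2 (Polynomial.leadingCoeff_eq_zero.1 h13)

/-- case (2) -/
theorem INVN_d2 {g : R2} {b N : ℕ} (hb : 1 ≤ b) (hI : Inv g 0 b) (hN : Ord g N) (hx : NX g 0 b N) :
    ∃ N2 e2, AX2 g N2 e2 ∧ 1 ≤ N2 ∧ b * e2 ≤ N2 ∧ 2 ≤ e2 ∧ N ≤ N2 + e2 ∧ N2 ≤ ec (ini N g) 0 ∧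
      N2 + 1 ≤ N ∧ (N = N2 + 1 → ∃ l : ℂ, ini N g = Polynomial.C l * Polynomial.X ^ N) := by
  obtain ⟨N2, e2, h1, h2, h3⟩ := hI.two rfl hb
  have h4 := ax2_nx h1 hb hx
  obtain ⟨h5, h6⟩ := lex_deg2 hN h1
  have h7 := (lex_rt hN 0).1
  have h8 := ini_deg N g
  have hz : ∀ j, j ≤ N → (j < N2 ∨ (j = N2 ∧ N - j < e2)) → (ini N g).coeff j = 0 := by
    intro j hj hj1
    rw [INVN_coeff N g j hj]
    rcases hj1 with hj1 | ⟨hj1, hj2⟩
    · exact h1.1 _ _ hj1
    · rw [← hj1] at h1
      exact h1.2.1 _ hj2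
  have h9 : N2 + 1 ≤ N := by
    by_contra hcon
    have h9 : N = N2 := by omega
    apply hN.2
    ext j
    rw [Polynomial.coeff_zero]
    by_cases hj : j ≤ N
    · apply hz j hj
      omega
    · exact Polynomial.coeff_eq_zero_of_natDegree_lt (by omega)
  refine ⟨N2, e2, h1, h2, h3, h4, h5, h6, h9, fun h10 => ⟨(ini N g).coeff N, ?_⟩⟩
  ext j
  rw [Polynomial.coeff_C_mul_X_pow]
  by_cases hj : j = N
  · rw [if_pos hj, hj]
  · rw [if_neg hj]
    by_cases hj1 : j ≤ N
    · apply hz j hj1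
      omega
    · exact Polynomial.coeff_eq_zero_of_natDegree_lt (by omega)

/-- case (3) -/
theorem INVN_d3 {g : R2} {a b N : ℕ} (ha : 1 ≤ a) (hb : 1 ≤ b) (hI : Inv g a b) (hN : Ord g N) (hx : NX g a b N) :
    ∃ N1 e1 N2 e2, AX1 g N1 e1 ∧ AX2 g N2 e2 ∧ a * e1 ≤ N1 + a * N2 ∧ b * e2 ≤ N2 + b * N1 ∧
      b * N1 < (a + 1) * N2 ∧ a * N2 < (b + 1) * N1 ∧ N1 + N2 < N ∧ a + 1 ≤ N1 ∧ b + 1 ≤ N2 ∧
      N ≤ N1 + e1 ∧ N ≤ N2 + e2 ∧ (ini N g).natDegree + N1 ≤ N ∧ N2 ≤ ec (ini N g) 0 := by
  obtain ⟨N1, e1, N2, e2, N', h1, h2, h3, h4, h5, h6, h7, h8⟩ := hI.both ha hb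
  have h9 := ord_unique hN h3
  rw [← h9] at h8
  have h10 := ax_nx h1 h2 hN ha hb hx
  obtain ⟨h11, h12⟩ := h8 h10
  obtain ⟨h13, -, h14⟩ := lex_deg hN h1
  obtain ⟨h15, h16⟩ := lex_deg2 hN h2
  exact ⟨N1, e1, N2, e2, h1, h2, h4, h5, h6, h7, h10, h11, h12, h13, h15, h14, h16⟩

/-- `a μ ≤ N1` -/
theorem INVN_mu {a N1 e1 N2 m : ℕ} (h : a * e1 ≤ N1 + a * N2) (h1 : m + N2 ≤ e1) : a * m ≤ N1 := by
  have h2 := Nat.mul_le_mul_left a h1
  rw [Nat.mul_add] at h2
  omega

theorem INVN_ax1_ne {g : R2} {N e : ℕ} (h : AX1 g N e) : g ≠ 0 := by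
  intro h0
  apply h.2.2
  rw [h0]
  unfold co
  exact map_zero _

theorem inv_c {g : R2} {a b N : ℕ} (hI : Inv g a b) (hN : Ord g N) (hx : NX g a b N) (c : ℂ) :
    Inv (sb U (U * (V + MvPowerSeries.C c)) g) (a + b + 1) (if c = 0 then b else 0) := by
  have hc := lex_c hN c
  have hd := ini_deg N g
  have hr := (lex_rt hN c).1
  have hr0 := (lex_rt hN 0).1
  refine ⟨fun _ hb => ?_, fun h => absurd h (by omega), fun _ hb => ?_⟩
  · refine ⟨N, ec (ini N g) c, hc, ?_⟩
    by_cases hb0 : b = 0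
    · subst hb0
      by_cases ha : a = 0
      · subst ha
        have h1 := hx.1 rfl rfl
        refine ⟨by omega, by omega⟩
      · obtain ⟨N1, e1, h1, h2, h3, h4, h5, h6, h7, h8⟩ := INVN_d1 (by omega) hI hN hx
        refine ⟨by omega, ?_⟩
        have h9 : a * ec (ini N g) c ≤ N1 := (Nat.mul_le_mul_left a (by omega)).trans h3
        have h10 : (a + 0 + 1) * ec (ini N g) c = a * ec (ini N g) c + ec (ini N g) c := by ring
        omega
    · have hc0 : c ≠ 0 := by
        intro h
        rw [if_pos h] at hb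
        exact hb0 hb
      by_cases ha : a = 0
      · subst ha
        obtain ⟨N2, e2, h1, h2, h3, h4, h5, h6, h7, h8⟩ := INVN_d2 (by omega) hI hN hx
        have h9 := (lex_rt hN c).2 N2 e2 h1 hc0
        refine ⟨by omega, ?_⟩
        have h10 : b * ec (ini N g) c ≤ N2 := (Nat.mul_le_mul_left b (by omega)).trans h3
        have h11 : (0 + b + 1) * ec (ini N g) c = b * ec (ini N g) c + ec (ini N g) c := by ring
        omega
      · obtain ⟨N1, e1, N2, e2, h1, h2, h3, h4, h5, h6, h7, h8, h9, h10, h11, h12, h13⟩ :=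
          INVN_d3 (by omega) (by omega) hI hN hx
        have h14 := (lex_rt hN c).2 N2 e2 h2 hc0
        refine ⟨by omega, ?_⟩
        have h15 : a * ec (ini N g) c ≤ N1 := INVN_mu h3 (by omega)
        have h16 : b * ec (ini N g) c ≤ N2 := INVN_mu h4 (by omega)
        have h17 : (a + b + 1) * ec (ini N g) c = a * ec (ini N g) c + b * ec (ini N g) c + ec (ini N g) c := by ring
        omega
  · by_cases hc0 : c = 0
    · subst hc0
      rw [if_pos rfl] at hb ⊢
      obtain ⟨N', hN'⟩ := lex_ord _ (INVN_ax1_ne hc)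
      by_cases ha : a = 0
      · subst ha
        obtain ⟨N2, e2, h1, h2, h3, h4, h5, h6, h7, h8⟩ := INVN_d2 hb hI hN hx
        refine ⟨N, ec (ini N g) 0, N2, e2 + N2, N', hc, lex_c2 h1, hN', ?_, ?_, ?_, ?_, ?_⟩
        · -- (b+1) e0 ≤ N + (b+1) N2
          obtain ⟨m, hm⟩ : ∃ m, ec (ini N g) 0 = N2 + m := ⟨ec (ini N g) 0 - N2, by omega⟩
          rw [hm] at hr0 ⊢
          have h9 : b * m ≤ b * e2 := Nat.mul_le_mul_left b (by omega)
          have h10 : (0 + b + 1) * (N2 + m) = (0 + b + 1) * N2 + (b * m + m) := by ring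
          omega
        · have h9 : b * N2 ≤ b * N := Nat.mul_le_mul_left b (by omega)
          rw [Nat.mul_add]
          omega
        · have h9 : b * N ≤ b * (N2 + e2) := Nat.mul_le_mul_left b h5
          have h10 : (0 + b + 1 + 1) * N2 = b * N2 + 2 * N2 := by ring
          rw [Nat.mul_add] at h9
          omega
        · have h9 : (b + 1) * N2 < (b + 1) * N := Nat.mul_lt_mul_of_pos_left (by omega) (by omega)
          have h10 : (0 + b + 1) * N2 = (b + 1) * N2 := by ring
          omega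
        · intro _
          have h9 : b * 2 ≤ b * e2 := Nat.mul_le_mul_left b h4
          omega
      · obtain ⟨N1, e1, N2, e2, h1, h2, h3, h4, h5, h6, h7, h8, h9, h10, h11, h12, h13⟩ :=
          INVN_d3 (by omega) hb hI hN hx
        refine ⟨N, ec (ini N g) 0, N2, e2 + N2, N', hc, lex_c2 h2, hN', ?_, ?_, ?_, ?_, ?_⟩
        · obtain ⟨m, hm⟩ : ∃ m, ec (ini N g) 0 = N2 + m := ⟨ec (ini N g) 0 - N2, by omega⟩
          rw [hm] at hr0 ⊢
          have h15 : a * m ≤ N1 := INVN_mu h3 (by omega)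
          have h16 : b * m ≤ N2 := INVN_mu h4 (by omega)
          have h17 : (a + b + 1) * (N2 + m) = (a + b + 1) * N2 + (a * m + b * m + m) := by ring
          omega
        · have h15 : b * (N1 + N2) ≤ b * N := Nat.mul_le_mul_left b (by omega)
          rw [Nat.mul_add] at h15 ⊢
          omega
        · obtain ⟨m, hm⟩ : ∃ m, N = N1 + N2 + m := ⟨N - (N1 + N2), by omega⟩
          have h16 : b * m ≤ N2 := INVN_mu h4 (by omega)
          have h17 : b * N = b * N1 + b * N2 + b * m := by rw [hm]; ring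
          have h18 : (a + b + 1 + 1) * N2 = (a + 1) * N2 + b * N2 + N2 := by ring
          omega
        · have h15 : (b + 1) * (N1 + N2) ≤ (b + 1) * N := Nat.mul_le_mul_left _ (by omega)
          have h16 : (b + 1) * (N1 + N2) = (b + 1) * N1 + (b + 1) * N2 := by ring
          have h17 : (a + b + 1) * N2 = a * N2 + (b + 1) * N2 := by ring
          omega
        · intro _
          omega
    · rw [if_neg hc0] at hb
      omega

theorem inv_i {g : R2} {a b N : ℕ} (hI : Inv g a b) (hN : Ord g N) (hx : NX g a b N) :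
    Inv (sb (U * V) V g) a (a + b + 1) := by
  have hi := lex_i2 hN
  have hd := ini_deg N g
  have hr0 := (lex_rt hN 0).1
  obtain ⟨ei, hei⟩ : ∃ ei, ei = N - (ini N g).natDegree := ⟨_, rfl⟩
  rw [← hei] at hi
  refine ⟨fun _ h => absurd h (by omega), fun ha _ => ?_, fun ha _ => ?_⟩
  · subst ha
    refine ⟨N, ei, hi, ?_⟩
    by_cases hb : b = 0
    · subst hb
      have h1 := hx.1 rfl rfl
      refine ⟨by omega, by omega⟩
    · obtain ⟨N2, e2, h1, h2, h3, h4, h5, h6, h7, h8⟩ := INVN_d2 (by omega) hI hN hx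
      refine ⟨by omega, ?_⟩
      have h9 : b * ei ≤ b * e2 := Nat.mul_le_mul_left b (by omega)
      have h10 : (0 + b + 1) * ei = b * ei + ei := by ring
      omega
  · have hne : sb (U * V) V g ≠ 0 := by
      intro h0
      apply hi.2.2
      rw [h0]
      unfold co
      exact map_zero _
    obtain ⟨N', hN'⟩ := lex_ord _ hne
    by_cases hb : b = 0
    · subst hb
      obtain ⟨N1, e1, h1, h2, h3, h4, h5, h6, h7, h8⟩ := INVN_d1 ha hI hN hx
      refine ⟨N1, N1 + e1, N, ei, N', lex_i1 h1, hi, hN', ?_, ?_, ?_, ?_, ?_⟩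
      · have h9 : a * N1 ≤ a * N := Nat.mul_le_mul_left a (by omega)
        rw [Nat.mul_add]
        omega
      · obtain ⟨m, hm⟩ : ∃ m, ei = N1 + m := ⟨ei - N1, by omega⟩
        rw [hm]
        have h9 : a * m ≤ a * e1 := Nat.mul_le_mul_left a (by omega)
        have h10 : (a + 0 + 1) * (N1 + m) = (a + 0 + 1) * N1 + (a * m + m) := by ring
        omega
      · have h9 : (a + 1) * N1 < (a + 1) * N := Nat.mul_lt_mul_of_pos_left (by omega) (by omega)
        have h10 : (a + 0 + 1) * N1 = (a + 1) * N1 := by ring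
        omega
      · have h9 : a * N ≤ a * (N1 + e1) := Nat.mul_le_mul_left a h5
        have h10 : (a + 0 + 1 + 1) * N1 = a * N1 + 2 * N1 := by ring
        rw [Nat.mul_add] at h9
        omega
      · intro _
        have h9 : a * 2 ≤ a * e1 := Nat.mul_le_mul_left a h4
        omega
    · obtain ⟨N1, e1, N2, e2, h1, h2, h3, h4, h5, h6, h7, h8, h9, h10, h11, h12, h13⟩ :=
        INVN_d3 ha (by omega) hI hN hx
      refine ⟨N1, N1 + e1, N, ei, N', lex_i1 h1, hi, hN', ?_, ?_, ?_, ?_, ?_⟩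
      · have h15 : a * (N1 + N2) ≤ a * N := Nat.mul_le_mul_left a (by omega)
        rw [Nat.mul_add] at h15 ⊢
        omega
      · obtain ⟨m, hm⟩ : ∃ m, ei = N1 + m := ⟨ei - N1, by omega⟩
        rw [hm]
        have h15 : a * m ≤ N1 := INVN_mu h3 (by omega)
        have h16 : b * m ≤ N2 := INVN_mu h4 (by omega)
        have h17 : (a + b + 1) * (N1 + m) = (a + b + 1) * N1 + (a * m + b * m + m) := by ring
        omega
      · have h15 : (a + 1) * (N1 + N2) ≤ (a + 1) * N := Nat.mul_le_mul_left _ (by omega)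
        have h16 : (a + 1) * (N1 + N2) = (a + 1) * N1 + (a + 1) * N2 := by ring
        have h17 : (a + b + 1) * N1 = b * N1 + (a + 1) * N1 := by ring
        omega
      · obtain ⟨m, hm⟩ : ∃ m, N = N1 + N2 + m := ⟨N - (N1 + N2), by omega⟩
        have h16 : a * m ≤ N1 := INVN_mu h3 (by omega)
        have h17 : a * N = a * N1 + a * N2 + a * m := by rw [hm]; ring
        have h18 : (a + b + 1 + 1) * N1 = (b + 1) * N1 + a * N1 + N1 := by ring
        omega
      · intro _
        omega

/-- the case of a constant initial form -/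
theorem INVN_const {h0 : Polynomial ℂ} {N a : ℕ} (h1 : h0 ≠ 0) (h2 : h0.natDegree = 0) (hN : 0 < N) :
    ¬ Contr h0 N a 0 := by
  have h3 : ∀ c, ec h0 c = 0 := by
    intro c
    unfold ec
    rw [← Polynomial.count_roots]
    have h4 := Multiset.count_le_card c h0.roots
    have h5 := Polynomial.card_roots' h0
    omega
  have h4 : h0.roots = 0 := by
    apply Multiset.card_eq_zero.1
    have := Polynomial.card_roots' h0
    omega
  rintro (⟨c, hc⟩ | h5 | h5)
  · rw [h3 c, Nat.mul_zero] at hc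
    have : 0 < N * (bc 0 c + 1) := Nat.mul_pos hN (by omega)
    omega
  · rw [h2, Nat.sub_zero, Nat.mul_comm] at h5
    have h6 := Nat.eq_of_mul_eq_mul_right hN h5
    omega
  · unfold spc at h5
    rw [h4] at h5
    simp at h5
    split_ifs at h5 <;> omega

theorem inv_alpha {g : R2} {a b N : ℕ} (hI : Inv g a b) (hN : Ord g N) (hx : NX g a b N) :
    0 < N ∧ (1 ≤ b → b * N < (a + b + 2) * ec (ini N g) 0) ∧
      (1 ≤ a → a * N < (a + b + 2) * (N - (ini N g).natDegree)) ∧
      (N ≤ a + b + 2 → ¬ Contr (ini N g) N a b) := by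
  have hd := ini_deg N g
  have hr0 := (lex_rt hN 0).1
  by_cases ha : a = 0
  · subst ha
    by_cases hb : b = 0
    · subst hb
      have h1 := hx.1 rfl rfl
      refine ⟨by omega, fun h => by omega, fun h => by omega, fun h2 => ?_⟩
      rcases h1 with h1 | ⟨h1, h3, h4⟩
      · omega
      · by_cases h5 : (ini N g).natDegree = 0
        · exact INVN_const hN.2 h5 (by omega)
        · have h6 : (ini N g).natDegree = 2 := by omega
          have hcard : (ini N g).roots.card = 2 := by
            rw [← h6]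
            exact (Polynomial.splits_iff_card_roots.1 (IsAlgClosed.splits _))
          obtain ⟨c, hc⟩ : ∃ c, c ∈ (ini N g).roots := by
            apply Multiset.card_pos_iff_exists_mem.1
            omega
          have h7 : (ini N g).roots.count c = 2 := by
            have h8 := Multiset.count_le_card c (ini N g).roots
            have h9 := Multiset.one_le_count_iff_mem.2 hc
            have h10 := h4 c
            rw [← Polynomial.count_roots] at h10
            omega
          have h8 : (ini N g).roots = Multiset.replicate 2 c := by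
            symm
            apply Multiset.eq_of_le_of_card_le
            · rw [← h7]
              exact Multiset.le_count_iff_replicate_le.1 le_rfl
            · rw [Multiset.card_replicate, hcard]
          have h9 : ∀ c', ec (ini N g) c' = 2 ∨ ec (ini N g) c' = 0 := by
            intro c'
            unfold ec
            rw [← Polynomial.count_roots, h8, Multiset.count_replicate]
            split_ifs
            · left; rfl
            · right; rfl
          rintro (⟨c', hc'⟩ | h10 | h10)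
          · have h11 : bc 0 c' = 0 := by
              unfold bc
              split_ifs <;> rfl
            rw [h11] at hc'
            rcases h9 c' with h12 | h12 <;> rw [h12] at hc' <;> omega
          · rw [h6] at h10
            omega
          · unfold spc at h10
            rw [h8] at h10
            simp at h10
            split_ifs at h10 <;> omega
    · obtain ⟨N2, e2, h1, h2, h3, h4, h5, h6, h7, h8⟩ := INVN_d2 (by omega) hI hN hx
      refine ⟨by omega, fun _ => ?_, fun h => by omega, fun h9 => ?_⟩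
      · have h9 : b * N ≤ b * (N2 + e2) := Nat.mul_le_mul_left b h5
        have h10 : (0 + b + 2) * N2 = b * N2 + 2 * N2 := by ring
        have h11 : (0 + b + 2) * N2 ≤ (0 + b + 2) * ec (ini N g) 0 := Nat.mul_le_mul_left _ h6
        rw [Nat.mul_add] at h9
        omega
      · have h10 : N = N2 + 1 := by
          by_contra hcon
          obtain ⟨m, hm⟩ : ∃ m, N = N2 + (m + 2) := ⟨N - N2 - 2, by omega⟩
          have h11 : b * (m + 2) ≤ b * e2 := Nat.mul_le_mul_left b (by omega)
          have h12 : b * (m + 2) = b * m + 2 * b := by ring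
          omega
        obtain ⟨l, hl⟩ := h8 h10
        have hl0 : l ≠ 0 := by
          intro h
          apply hN.2
          rw [hl, h]
          simp
        have hdeg : (ini N g).natDegree = N := by
          rw [hl, Polynomial.natDegree_C_mul_X_pow N l hl0]
        have hroots : (ini N g).roots = Multiset.replicate N 0 := by
          rw [hl, Polynomial.roots_C_mul_X_pow hl0]
          rw [Multiset.nsmul_singleton]
        have hecc : ∀ c, ec (ini N g) c = if c = 0 then N else 0 := by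
          intro c
          unfold ec
          rw [← Polynomial.count_roots, hroots, Multiset.count_replicate]
          by_cases hc : c = 0
          · rw [if_pos hc, if_pos hc.symm]
          · rw [if_neg hc, if_neg (fun h => hc h.symm)]
        rintro (⟨c, hc⟩ | h12 | h12)
        · rw [hecc c] at hc
          unfold bc at hc
          by_cases hc0 : c = 0
          · rw [if_pos hc0, if_pos hc0, Nat.mul_comm] at hc
            have h13 := Nat.eq_of_mul_eq_mul_right (by omega : 0 < N) hc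
            omega
          · rw [if_neg hc0, if_neg hc0] at hc
            omega
        · rw [hdeg, Nat.sub_self, Nat.mul_zero] at h12
          omega
        · rw [hdeg] at h12
          unfold spc at h12
          rw [hroots] at h12
          have h13 : ((Multiset.replicate N (0 : ℂ)).toFinset ∪ (if 1 ≤ b then {0} else ∅) : Finset ℂ) ⊆ {0} := by
            intro c hc
            rw [Finset.mem_union, Multiset.mem_toFinset] at hc
            rcases hc with hc | hc
            · rw [Finset.mem_singleton]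
              exact Multiset.eq_of_mem_replicate hc
            · split_ifs at hc
              · exact hc
              · exact absurd hc (Finset.notMem_empty _)
          have h14 := Finset.card_le_card h13
          rw [Finset.card_singleton] at h14
          split_ifs at h12 h14 <;> omega
  · by_cases hb : b = 0
    · subst hb
      obtain ⟨N1, e1, h1, h2, h3, h4, h5, h6, h7, h8⟩ := INVN_d1 (by omega) hI hN hx
      refine ⟨by omega, fun h => by omega, fun _ => ?_, fun h9 => ?_⟩
      · have h9 : a * N ≤ a * (N1 + e1) := Nat.mul_le_mul_left a h5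
        have h10 : (a + 0 + 2) * N1 = a * N1 + 2 * N1 := by ring
        have h11 : (a + 0 + 2) * N1 ≤ (a + 0 + 2) * (N - (ini N g).natDegree) :=
          Nat.mul_le_mul_left _ (by omega)
        rw [Nat.mul_add] at h9
        omega
      · have h10 : N = N1 + 1 := by
          by_contra hcon
          obtain ⟨m, hm⟩ : ∃ m, N = N1 + (m + 2) := ⟨N - N1 - 2, by omega⟩
          have h11 : a * (m + 2) ≤ a * e1 := Nat.mul_le_mul_left a (by omega)
          have h12 : a * (m + 2) = a * m + 2 * a := by ring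
          omega
        exact INVN_const hN.2 (h8 h10) (by omega)
    · obtain ⟨N1, e1, N2, e2, h1, h2, h3, h4, h5, h6, h7, h8, h9, h10, h11, h12, h13⟩ :=
        INVN_d3 (by omega) (by omega) hI hN hx
      obtain ⟨m, hm⟩ : ∃ m, N = N1 + N2 + m := ⟨N - (N1 + N2), by omega⟩
      have h15 : a * m ≤ N1 := INVN_mu h3 (by omega)
      have h16 : b * m ≤ N2 := INVN_mu h4 (by omega)
      refine ⟨by omega, fun _ => ?_, fun _ => ?_, fun h => by omega⟩
      · have h17 : b * N = b * N1 + b * N2 + b * m := by rw [hm]; ring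
        have h18 : (a + b + 2) * N2 = (a + 1) * N2 + b * N2 + N2 := by ring
        have h19 : (a + b + 2) * N2 ≤ (a + b + 2) * ec (ini N g) 0 := Nat.mul_le_mul_left _ h13
        omega
      · have h17 : a * N = a * N1 + a * N2 + a * m := by rw [hm]; ring
        have h18 : (a + b + 2) * N1 = (b + 1) * N1 + a * N1 + N1 := by ring
        have h19 : (a + b + 2) * N1 ≤ (a + b + 2) * (N - (ini N g).natDegree) :=
          Nat.mul_le_mul_left _ (by omega)
        omega

end Pool.Agent.H56.CT
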