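import Pool.Agent.H56.CT.SBB

/-!
# LFX: the exponents of a leaf

Proof.  `Hi 1 x ↔ co x 0 0 = 0`.  `lf_co`: `ψ` preserves non-units (`sb_aut`, `sb_co`), also for `ψ.symm`.
Let `h = ψ.symm V`, `co h 0 0 = 0`.  Claim A: if `Associated (ψ U) U` then `co h 0 1 ≠ 0`.  `ψ.symm U` is associated to `U` (apply `ψ.symm`), `ψ.symm U = U ε'`.  Suppose `co h 0 1 = 0`.  Then `co (ψ.symm x) 0 1 = 0` for all `x` with
`co x 0 0 = 0`: `x = U x1 + V x2` (`hi_dec` with `N = 0`), `ψ.symm x = U ε' (..) + h (..)`, and `co (U y) 0 1 = 0`, `co (h y) 0 1 = co h 0 0 * co y 0 1 + co h 0 1 * co y 0 0 = 0`.  For `x = ψ V`: `co V 0 1 = 1`, a contradiction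
(`co (ψ V) 0 0 = 0`).
`lf1`: `g = ψ.symm (U^{N1} V^{N2}) = U^{N1} ε'^{N1} h^{N2}`, `co g i j = 0` for `i < N1` and `co g N1 j = co (ε'^{N1} h^{N2}) 0 j`.  The map `x ↦ x(0, v)`, `R2 → ℂ⟦v⟧` (coefficients `co x 0 j`) is a ring homomorphism; `h(0, v)` has order `1`,
`ε'(0, v)` is a unit; so `h^{N2}(0,v) ε'^{N1}(0,v)` has order `N2` (`PowerSeries.order_mul`, `order_pow`; or `h(0,v) = v * unit`).
`lf2`: the same with `u` and `v` exchanged (or apply `lf1` to `g' = sb V U g`).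
`lf_unit`: `ψ f = U^0 V^0 = 1` would make `f` a unit.
`lf_gs`: `ψ g = U^{N1} V^0`, so `g = (ψ.symm U)^{N1}`.
-/

set_option autoImplicit false

namespace Pool.Agent.H56.CT

open Finset
open Pool.Agent.H22.T7

/-- The restriction to a coordinate axis. -/
private noncomputable def LFX_r (s : Fin 2) (x : R2) : PowerSeries ℂ :=
  PowerSeries.mk fun j => MvPowerSeries.coeff (Finsupp.single s j) x

private theorem LFX_co (s : Fin 2) (x : R2) (j : ℕ) :
    PowerSeries.coeff j (LFX_r s x) = MvPowerSeries.coeff (Finsupp.single s j) x :=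
  PowerSeries.coeff_mk _ _

private theorem LFX_add (s : Fin 2) (x y : R2) : LFX_r s (x + y) = LFX_r s x + LFX_r s y := by
  ext j
  rw [map_add, LFX_co, LFX_co, LFX_co, map_add]

private theorem LFX_mul (s : Fin 2) (x y : R2) : LFX_r s (x * y) = LFX_r s x * LFX_r s y := by
  ext j
  rw [LFX_co, PowerSeries.coeff_mul, MvPowerSeries.coeff_mul, Finsupp.antidiagonal_single,
    Finset.sum_map]
  refine Finset.sum_congr rfl fun p _ => ?_
  rw [LFX_co, LFX_co]
  rfl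

private theorem LFX_one (s : Fin 2) : LFX_r s 1 = 1 := by
  ext j
  rw [LFX_co, PowerSeries.coeff_one, MvPowerSeries.coeff_one]
  by_cases hj : j = 0
  · simp [hj]
  · simp [hj, Finsupp.single_eq_zero]

private theorem LFX_pow (s : Fin 2) (x : R2) (n : ℕ) : LFX_r s (x ^ n) = LFX_r s x ^ n := by
  induction n with
  | zero => rw [pow_zero, pow_zero, LFX_one]
  | succ n ih => rw [pow_succ, pow_succ, LFX_mul, ih]

private theorem LFX_X (s s' : Fin 2) (h : s' ≠ s) : LFX_r s (MvPowerSeries.X s') = 0 := by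
  ext j
  rw [LFX_co, MvPowerSeries.coeff_X, map_zero, if_neg]
  intro h1
  have h2 := DFunLike.congr_fun h1 s'
  rw [Finsupp.single_eq_of_ne h, Finsupp.single_eq_same] at h2
  exact zero_ne_one h2

private theorem LFX_Xs (s : Fin 2) : LFX_r s (MvPowerSeries.X s) = PowerSeries.X := by
  ext j
  rw [LFX_co, MvPowerSeries.coeff_X, PowerSeries.coeff_X]
  by_cases hj : j = 1
  · simp [hj]
  · rw [if_neg hj, if_neg]
    intro h1
    exact hj (Finsupp.single_injective s h1)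

private theorem LFX_c0 (s : Fin 2) (x : R2) : PowerSeries.coeff 0 (LFX_r s x) = co x 0 0 := by
  rw [LFX_co, SBB_coe, Finsupp.single_zero, MvPowerSeries.coeff_zero_eq_constantCoeff_apply]

private theorem LFX_nu (ψ : R2 ≃ₐ[ℂ] R2) (x : R2) (h : co x 0 0 = 0) : co (ψ x) 0 0 = 0 := by
  obtain ⟨h1, h2, h3⟩ := sb_aut ψ
  rw [h3, sb_co _ _ h1 h2, h]

private theorem LFX_main (s s' : Fin 2) (hs : s' ≠ s) (g : R2) (ψ : R2 ≃ₐ[ℂ] R2) (N1 N2 : ℕ)
    (h : ψ g = (MvPowerSeries.X s') ^ N1 * (MvPowerSeries.X s) ^ N2)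
    (hu : Associated (ψ (MvPowerSeries.X s')) (MvPowerSeries.X s' : R2)) :
    ∃ w : R2, g = (MvPowerSeries.X s') ^ N1 * w ∧
      (∀ j < N2, MvPowerSeries.coeff (Finsupp.single s j) w = 0) ∧
      MvPowerSeries.coeff (Finsupp.single s N2) w ≠ 0 := by
  obtain ⟨ε, hε⟩ := hu
  -- the inverse automorphism
  obtain ⟨e, he⟩ : ∃ e : R2ˣ, ψ.symm (MvPowerSeries.X s') = MvPowerSeries.X s' * (e : R2) := by
    refine ⟨Units.map (ψ.symm : R2 →* R2) ε, ?_⟩
    conv_lhs => rw [← hε, map_mul, AlgEquiv.symm_apply_apply]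
    rfl
  obtain ⟨H, hH⟩ : ∃ H : R2, H = ψ.symm (MvPowerSeries.X s) := ⟨_, rfl⟩
  have hX0 : ∀ i : Fin 2, co (MvPowerSeries.X i : R2) 0 0 = 0 := by
    intro i
    rw [SBB_coe, MvPowerSeries.constantCoeff_X]
  have hH0 : PowerSeries.coeff 0 (LFX_r s H) = 0 := by
    rw [LFX_c0, hH]
    exact LFX_nu _ _ (hX0 s)
  have hH1 : PowerSeries.coeff 1 (LFX_r s H) ≠ 0 := by
    intro h0
    have key : ∀ x : R2, co x 0 0 = 0 → PowerSeries.coeff 1 (LFX_r s (ψ.symm x)) = 0 := by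
      intro x hx
      obtain ⟨y, z, hyz⟩ : ∃ y z : R2, x = MvPowerSeries.X s' * y + MvPowerSeries.X s * z := by
        obtain ⟨g', -, hg⟩ := hi_dec 0 _ (SBB_hi1 x hx)
        refine ⟨g' s', g' s, ?_⟩
        rw [hg, Fin.sum_univ_two]
        fin_cases s <;> fin_cases s' <;> simp at hs ⊢
        rw [add_comm]
      rw [hyz, map_add, map_mul, map_mul, he, ← hH, LFX_add, LFX_mul, LFX_mul, LFX_mul,
        LFX_X s s' hs, zero_mul, zero_mul, zero_add, PowerSeries.coeff_mul]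
      refine Finset.sum_eq_zero fun p hp => ?_
      rw [HasAntidiagonal.mem_antidiagonal] at hp
      have h1 : p.1 = 0 ∨ p.1 = 1 := by omega
      rcases h1 with h1 | h1
      · rw [h1, hH0, zero_mul]
      · rw [h1, h0, zero_mul]
    have h2 := key (ψ (MvPowerSeries.X s)) (LFX_nu _ _ (hX0 s))
    rw [AlgEquiv.symm_apply_apply, LFX_Xs, PowerSeries.coeff_one_X] at h2
    exact one_ne_zero h2
  have hg : g = (MvPowerSeries.X s') ^ N1 * ((e : R2) ^ N1 * H ^ N2) := by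
    have h1 : g = ψ.symm (ψ g) := (AlgEquiv.symm_apply_apply _ _).symm
    rw [h1, h, map_mul, map_pow, map_pow, he, ← hH, mul_pow]
    ring
  have hoH : (LFX_r s H).order = ((1 : ℕ) : ℕ∞) := by
    rw [PowerSeries.order_eq_nat]
    refine ⟨hH1, fun i hi => ?_⟩
    have : i = 0 := by omega
    rw [this, hH0]
  have hoe : (LFX_r s (e : R2)).order = ((0 : ℕ) : ℕ∞) := by
    rw [PowerSeries.order_eq_nat]
    refine ⟨?_, fun i hi => absurd hi (Nat.not_lt_zero _)⟩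
    rw [LFX_c0, SBB_coe]
    exact (MvPowerSeries.isUnit_iff_constantCoeff.1 e.isUnit).ne_zero
  have ho : (LFX_r s ((e : R2) ^ N1 * H ^ N2)).order = (N2 : ℕ∞) := by
    rw [LFX_mul, LFX_pow, LFX_pow, PowerSeries.order_mul, PowerSeries.order_pow,
      PowerSeries.order_pow, hoH, hoe]
    simp
  rw [PowerSeries.order_eq_nat] at ho
  refine ⟨_, hg, fun j hj => ?_, ?_⟩
  · rw [← LFX_co]
    exact ho.2 j hj
  · rw [← LFX_co]
    exact ho.1

theorem lf1 (g : R2) (ψ : R2 ≃ₐ[ℂ] R2) (N1 N2 : ℕ) (h : ψ g = U ^ N1 * V ^ N2)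
    (hu : Associated (ψ U) U) : AX1 g N1 N2 := by
  obtain ⟨w, hw, h1, h2⟩ := LFX_main 1 0 (by decide) g ψ N1 N2 h hu
  have hc : ∀ j, co g N1 j = MvPowerSeries.coeff (Finsupp.single 1 j) w := by
    intro j
    unfold co
    rw [hw, MvPowerSeries.X_pow_eq, MvPowerSeries.coeff_add_monomial_mul, one_mul]
  refine ⟨fun i j hi => ?_, fun j hj => ?_, ?_⟩
  · unfold co
    rw [hw, MvPowerSeries.X_pow_eq, MvPowerSeries.coeff_monomial_mul, if_neg]
    intro hle
    have := hle 0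
    simp at this
    omega
  · rw [hc]
    exact h1 j hj
  · rw [hc]
    exact h2

theorem lf2 (g : R2) (ψ : R2 ≃ₐ[ℂ] R2) (N1 N2 : ℕ) (h : ψ g = U ^ N1 * V ^ N2)
    (hv : Associated (ψ V) V) : AX2 g N2 N1 := by
  obtain ⟨w, hw, h1, h2⟩ := LFX_main 0 1 (by decide) g ψ N2 N1 (by rw [h, mul_comm]) hv
  have hc : ∀ i, co g i N2 = MvPowerSeries.coeff (Finsupp.single 0 i) w := by
    intro i
    unfold co
    rw [hw, MvPowerSeries.X_pow_eq, add_comm, MvPowerSeries.coeff_add_monomial_mul, one_mul]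
  refine ⟨fun i j hj => ?_, fun i hi => ?_, ?_⟩
  · unfold co
    rw [hw, MvPowerSeries.X_pow_eq, MvPowerSeries.coeff_monomial_mul, if_neg]
    intro hle
    have := hle 1
    simp at this
    omega
  · rw [hc]
    exact h1 i hi
  · rw [hc]
    exact h2

theorem lf_unit (f : R2) (hf : co f 0 0 = 0) (ψ : R2 ≃ₐ[ℂ] R2) (N1 N2 : ℕ)
    (h : ψ f = U ^ N1 * V ^ N2) : 0 < N1 ∨ 0 < N2 := by
  by_contra hcon
  push Not at hcon
  have h1 : N1 = 0 := by omega
  have h2 : N2 = 0 := by omega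
  rw [h1, h2, pow_zero, pow_zero, mul_one] at h
  have h3 := LFX_nu ψ f hf
  rw [h, SBB_coe, map_one] at h3
  exact one_ne_zero h3

end Pool.Agent.H56.CT
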