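import Pool.Agent.H56.CT.SBB

/-!
# PTH: composition of the substitutions along the tree

Proof.  `jac_comp`: chain rule `sb_pd` for `sb X' Y' X` and `sb X' Y' Y`, expand the determinant (`ring`).
General step: if `Path f g a b X Y` and `X'`, `Y'` have no constant term then `sb X' Y' g = sb (sb X' Y' X) (sb X' Y' Y) f` (`sb_sb`), the constant terms vanish (`sb_co`), and
`jac (sb X' Y' X) (sb X' Y' Y) = sb X' Y' (U^a V^b ε) * jac X' Y' = X'^a Y'^b (sb X' Y' ε) * jac X' Y'` (`sb_hom`), `sb X' Y' ε` is a unit.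
`path_c`: `X' = U`, `Y' = U (V + c)`, `jac X' Y' = U` (`MvPowerSeries.pderiv_X`, Leibniz).  `U^a (U (V+c))^b U = U^{a+b+1} (V+c)^b`; if `c ≠ 0` then `V + c` is a unit (`MvPowerSeries.isUnit_iff_constantCoeff`).
`path_i`: `X' = U V`, `Y' = V`, `jac X' Y' = V`, `(U V)^a V^b V = U^a V^{a+b+1}`.
`path_swap`: `X' = V`, `Y' = U`, `jac X' Y' = -1`.
`path_psi`: `X' = ψ U`, `Y' = ψ V` (`sb_aut`).  `jac X' Y'` is a unit: with `X'' = ψ⁻¹ U`, `Y'' = ψ⁻¹ V`: `sb X' Y' X'' = ψ (ψ⁻¹ U) = U`, `sb X' Y' Y'' = V`, so by `jac_comp`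
`1 = jac U V = sb X' Y' (jac X'' Y'') * jac X' Y'`.  `(ψ U)^a` is `U^a` up to a unit (clear if `a = 0`; otherwise `Associated.pow_pow`), same for `V`.
`path_id`: `sb_id`, `jac U V = 1`.
-/

set_option autoImplicit false

namespace Pool.Agent.H56.CT

open Finset
open Pool.Agent.H22.T7

theorem jac_comp (X Y X' Y' : R2) (hX' : co X' 0 0 = 0) (hY' : co Y' 0 0 = 0) :
    jac (sb X' Y' X) (sb X' Y' Y) = sb X' Y' (jac X Y) * jac X' Y' := by
  obtain ⟨F, hF, _, _⟩ := sb_hom X' Y' hX' hY'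
  unfold jac
  rw [sb_pd X' Y' hX' hY' 0 X, sb_pd X' Y' hX' hY' 1 X, sb_pd X' Y' hX' hY' 0 Y,
    sb_pd X' Y' hX' hY' 1 Y, ← hF (pd 0 X * pd 1 Y - pd 1 X * pd 0 Y), map_sub, map_mul, map_mul,
    hF, hF, hF, hF]
  ring

theorem PTH_step {f g : R2} {a b a' b' : ℕ} {X Y : R2} (h : Path f g a b X Y) (X' Y' ε' : R2)
    (hX' : co X' 0 0 = 0) (hY' : co Y' 0 0 = 0)
    (hj : X' ^ a * Y' ^ b * jac X' Y' = U ^ a' * V ^ b' * ε') (hε' : IsUnit ε') :
    ∃ X1 Y1, Path f (sb X' Y' g) a' b' X1 Y1 := by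
  obtain ⟨F, hF, hFU, hFV⟩ := sb_hom X' Y' hX' hY'
  obtain ⟨ε, hε, hje⟩ := h.jac
  refine ⟨sb X' Y' X, sb X' Y' Y, ?_, ?_, ?_, ?_⟩
  · rw [sb_co X' Y' hX' hY']
    exact h.cX
  · rw [sb_co X' Y' hX' hY']
    exact h.cY
  · rw [← h.eq, sb_sb X Y X' Y' h.cX h.cY hX' hY']
  · refine ⟨F ε * ε', (hε.map F).mul hε', ?_⟩
    rw [jac_comp X Y X' Y' hX' hY', hje, ← hF, map_mul, map_mul, map_pow, map_pow, hFU, hFV]
    calc X' ^ a * Y' ^ b * F ε * jac X' Y' = (X' ^ a * Y' ^ b * jac X' Y') * F ε := by ring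
      _ = U ^ a' * V ^ b' * (F ε * ε') := by
        rw [hj]
        ring

theorem PTH_co (g : R2) : co g 0 0 = MvPowerSeries.constantCoeff g := by
  simp [co]

theorem PTH_co_mul (g h : R2) (hg : co g 0 0 = 0) : co (g * h) 0 0 = 0 := by
  rw [PTH_co] at hg ⊢
  rw [map_mul, hg, zero_mul]

theorem PTH_coU : co U 0 0 = 0 := by
  rw [PTH_co]
  simp

theorem PTH_coV : co V 0 0 = 0 := by
  rw [PTH_co]
  simp

theorem PTH_pdU : pd 0 U = 1 ∧ pd 1 U = 0 := by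
  constructor
  · exact MvPowerSeries.pderiv_X_self
  · exact MvPowerSeries.pderiv_X_of_ne (by decide)

theorem PTH_pdV : pd 0 V = 0 ∧ pd 1 V = 1 := by
  constructor
  · exact MvPowerSeries.pderiv_X_of_ne (by decide)
  · exact MvPowerSeries.pderiv_X_self

theorem PTH_mul (j : Fin 2) (g h : R2) : pd j (g * h) = g * pd j h + h * pd j g := by
  simp [smul_eq_mul]

theorem PTH_add (j : Fin 2) (g h : R2) : pd j (g + h) = pd j g + pd j h :=
  map_add (MvPowerSeries.pderiv ℂ j : Derivation ℂ R2 R2) g h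

theorem PTH_C (j : Fin 2) (c : ℂ) : pd j (MvPowerSeries.C c : R2) = 0 := by
  have h1 := (MvPowerSeries.pderiv ℂ j : Derivation ℂ R2 R2).map_algebraMap c
  exact h1

theorem path_c {f g : R2} {a b : ℕ} {X Y : R2} (h : Path f g a b X Y) (c : ℂ) :
    ∃ X' Y', Path f (sb U (U * (V + MvPowerSeries.C c)) g) (a + b + 1)
      (if c = 0 then b else 0) X' Y' := by
  have hco : co (U * (V + MvPowerSeries.C c)) 0 0 = 0 := PTH_co_mul _ _ PTH_coU
  have hjac : jac U (U * (V + MvPowerSeries.C c)) = U := by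
    unfold jac
    rw [PTH_pdU.1, PTH_pdU.2, PTH_mul, PTH_mul, PTH_add, PTH_add, PTH_C, PTH_C, PTH_pdU.1,
      PTH_pdU.2, PTH_pdV.1, PTH_pdV.2]
    ring
  by_cases hc : c = 0
  · rw [if_pos hc]
    refine PTH_step h U (U * (V + MvPowerSeries.C c)) 1 PTH_coU hco ?_ isUnit_one
    rw [hjac, hc, map_zero, add_zero]
    ring
  · rw [if_neg hc]
    refine PTH_step h U (U * (V + MvPowerSeries.C c)) ((V + MvPowerSeries.C c) ^ b) PTH_coU hco ?_
      (IsUnit.pow b ?_)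
    · rw [hjac, mul_pow]
      ring
    · rw [MvPowerSeries.isUnit_iff_constantCoeff]
      simp [hc]

theorem path_i {f g : R2} {a b : ℕ} {X Y : R2} (h : Path f g a b X Y) :
    ∃ X' Y', Path f (sb (U * V) V g) a (a + b + 1) X' Y' := by
  have hjac : jac (U * V) V = V := by
    unfold jac
    rw [PTH_mul, PTH_mul, PTH_pdU.1, PTH_pdU.2, PTH_pdV.1, PTH_pdV.2]
    ring
  refine PTH_step h (U * V) V 1 (PTH_co_mul _ _ PTH_coU) PTH_coV ?_ isUnit_one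
  rw [hjac]
  ring

theorem path_swap {f g : R2} {a b : ℕ} {X Y : R2} (h : Path f g a b X Y) :
    ∃ X' Y', Path f (sb V U g) b a X' Y' := by
  have hjac : jac V U = -1 := by
    unfold jac
    rw [PTH_pdU.1, PTH_pdU.2, PTH_pdV.1, PTH_pdV.2]
    ring
  refine PTH_step h V U (-1) PTH_coV PTH_coU ?_ isUnit_one.neg
  rw [hjac]
  ring

theorem PTH_jac_id : jac U V = 1 := by
  unfold jac
  rw [PTH_pdU.1, PTH_pdU.2, PTH_pdV.1, PTH_pdV.2]
  ring

theorem PTH_assoc {x y : R2} {a : ℕ} (h : 1 ≤ a → Associated x y) :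
    ∃ ε : R2, IsUnit ε ∧ x ^ a = y ^ a * ε := by
  rcases Nat.eq_zero_or_pos a with ha | ha
  · subst ha
    exact ⟨1, isUnit_one, by simp⟩
  · obtain ⟨u, hu⟩ := ((h ha).pow_pow (n := a)).symm
    exact ⟨u, u.isUnit, hu.symm⟩

theorem path_psi {f g : R2} {a b : ℕ} {X Y : R2} (h : Path f g a b X Y) (ψ : R2 ≃ₐ[ℂ] R2)
    (hu : 1 ≤ a → Associated (ψ U) U) (hv : 1 ≤ b → Associated (ψ V) V) :
    ∃ X' Y', Path f (ψ g) a b X' Y' := by
  obtain ⟨h1, h2, h3⟩ := sb_aut ψ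
  obtain ⟨k1, k2, k3⟩ := sb_aut ψ.symm
  obtain ⟨ε1, hε1, e1⟩ := PTH_assoc hu
  obtain ⟨ε2, hε2, e2⟩ := PTH_assoc hv
  have hJ : IsUnit (jac (ψ U) (ψ V)) := by
    have h4 := jac_comp (ψ.symm U) (ψ.symm V) (ψ U) (ψ V) h1 h2
    rw [← h3, ← h3, AlgEquiv.apply_symm_apply, AlgEquiv.apply_symm_apply, PTH_jac_id] at h4
    exact isUnit_iff_exists_inv'.2 ⟨_, h4.symm⟩
  rw [h3 g]
  refine PTH_step h (ψ U) (ψ V) (ε1 * ε2 * jac (ψ U) (ψ V)) h1 h2 ?_ ((hε1.mul hε2).mul hJ)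
  rw [e1, e2]
  ring

theorem path_id (f : R2) : Path f f 0 0 U V := by
  refine ⟨PTH_coU, PTH_coV, sb_id f, 1, isUnit_one, ?_⟩
  rw [PTH_jac_id]
  ring

end Pool.Agent.H56.CT
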