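import Pool.Agent.H56.CT.SEP
import Pool.Agent.H56.CT.PTH
import Pool.Agent.H56.CT.INVN
import Pool.Agent.H56.CT.BRK
import Pool.Agent.H56.CT.LFX

/-!
# TRM: the sum over the strata is a combination of good terms

Notation.  For a point `(g, a, b)` of the tree: if `a ≥ 1`, `AX1 g N1 e1` (unique: `ax1_unique`), `B1 = tc N1 (a+1) e1 b • Ξ ((a+1)/N1) (gcd N1 e1)`; if `b ≥ 1`, `AX2 g N2 e2`,
`B2 = tc N2 (b+1) e2 a • Ξ ((b+1)/N2) (gcd N2 e2)`; zero otherwise.  `x ≡ y` means `x - y ∈ Wr`.  `Es M = M.sum fun S m => m • E S` (`Finsupp.sum_add_index'`, `Finsupp.sum_finset_sum_index`, `Finsupp.sum_single_index`).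

Claim (induction on `Res g a b M`): let `Path f g a b X Y`, `Inv g a b`, and
 (G1) if `a ≥ 1`, `AX1 g N1 e1` and `N1 (b+1) = (a+1) e1` then `Gd ((a+1)/N1)`;  (G2) if `b ≥ 1`, `AX2 g N2 e2` and `N2 (a+1) = (b+1) e2` then `Gd ((b+1)/N2)`.
Then `Es M ≡ B1 + B2`, in the form: for all `N1 e1 N2 e2` with (`1 ≤ a → AX1 g N1 e1`), (`1 ≤ b → AX2 g N2 e2`): `Es M - (if 1 ≤ a then .. else 0) - (if 1 ≤ b then .. else 0) ∈ Wr`.
(For `a ≥ 1` some `N1 e1` exist by `Inv`, and `1 ≤ N1`.)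

Leaf, `ψ g = U^{N1} V^{N2}`, `Es M = E ⟨N1, a+1, N2, b+1⟩`.
 `a, b ≥ 1`: `AX1 g N1 N2` (`lf1`), `AX2 g N2 N1` (`lf2`), `1 ≤ N1, N2` (from `both`: `a N2 < (b+1) N1` gives `N1 > 0`, `b N1 < (a+1) N2` gives `N2 > 0`).  If `(a+1) N2 ≠ (b+1) N1`: `dbl`, with
 `gcd/(N1 (b+1) - N2 (a+1)) = tc N1 (a+1) N2 b` and `= -tc N2 (b+1) N1 a`; so `E = B1 + B2`.  If equal: `Gd ((a+1)/N1)` by (G1), `E ∈ Wr` by `hG2` (`κ = (a+1)/N1 = (b+1)/N2`), and the coefficients `tc` are `../0 = 0`.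
 `a ≥ 1`, `b = 0`: `AX1 g N1 N2`, `1 ≤ N1`.  `N2 = 0`: `s1`: `E = Ξ ((a+1)/N1) N1`, `tc N1 (a+1) 0 0 = N1/N1 = 1`.  `N2 ≥ 1`: there is a strict branch of multiplicity `N2`: `path_psi` gives `Path f (U^{N1} V^{N2}) a 0`, so `SpD f N2`.
 If `(a+1) N2 ≠ N1`: `dbl`: `E = B1 - (..) • Ξ (1/N2) g`, `g = gcd N1 N2`; if `N2 ≥ 2`: `hS`, `hG1` (`g > 0`); if `N2 = 1`: `g = 1`, `Ξ (1/1) 1 = Ξ 1 1 ∈ Wr` by `h1`.  If equal: `Gd ((a+1)/N1)` by (G1), `hG2`, `B1 = 0`.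
 `a = 0`, `b ≥ 1`: symmetric (`lf2`, `s2`, `path_swap` and `sb V U (U^{N1} V^{N2}) = V^{N1} U^{N2}`).
 `a = b = 0`: add to the claim the hypothesis (R) `a = 0 → b = 0 → g = f` (it holds at the root, and at all other points `a + b ≥ 1`).  So `g = f`, and `(N1, N2) ≠ (0, 0)` by `lf_unit`.  `N1, N2 ≥ 1`: `SpD f N1`, `SpD f N2` (`path_psi`,
 `path_swap`).  `N1 ≠ N2`: `dbl` (`ν1 = ν2 = 1`), both terms are in `Wr` as above (if `N1 = 1` then `gcd = 1`, use `h1`).  `N1 = N2 = n ≥ 2`: `Gd (1/n)` and `hG2`.  `N1 = N2 = 1`: `Node f` with the same `ψ`, `hn`.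
 `N2 = 0`: `s1`: `Ξ (1/N1) N1`, in `Wr` by `hS`, `hG1` or (`N1 = 1`) `h1`.  `N1 = 0`: `s2`.

Blow-up.  `ν = a+b+2`, `κ = ν/N`, `h0 = ini N g`, `0 < N` etc. from `inv_alpha`.  Let `C = Contr h0 N a b`.  (i) If `C` then `ν < N` (`inv_alpha`), `sep` gives `Nonempty (PhiD f κ)`, so `Gd κ` by `hSE` (`0 < κ < 1`), so `Ξ κ g ∈ Wr` for all `g > 0` (`hG1`).
 Children: `path_c`, `path_i`, `inv_c`, `inv_i`; `AX1 (child c) N e_c` (`lex_c`), `AX2 (child i) N e∞` (`lex_i2`), `AX2 (child 0) N2 (e2+N2)` (`lex_c2`), `AX1 (child i) N1 (N1+e1)` (`lex_i1`).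
 (G1) for the child `c` (exponents `a+b+1`, `bc b c`): `N (β_c + 1) = ν e_c` is the first part of `Contr`, so `Gd κ` by (i) (`(a+b+1)+1 = ν`).  (G2) for the child `0` if `b ≥ 1`: `N2 (a+b+1+1) = (b+1)(e2+N2)` iff `N2 (a+1) = (b+1) e2`: (G2) of the parent.
 Child `i` (exponents `a`, `a+b+1`): (G2): `N (a+1) = ν e∞`: second part of `Contr`.  (G1) if `a ≥ 1`: `N1 (a+b+1+1) = (a+1)(N1+e1)` iff `N1 (b+1) = (a+1) e1`.
 Boundary terms of the children: `B1(child c) = tc N ν e_c β_c • Ξ κ (gcd N e_c)`; `B2(child 0) = tc N2 (b+1) (e2+N2) (a+b+1) • Ξ ((b+1)/N2) (gcd N2 (e2+N2)) = B2(parent)` (`N2 (a+b+2) - (b+1)(e2+N2) = N2 (a+1) - (b+1) e2`,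
 `Nat.gcd_add_self_right`); `B2(child i) = tc N ν e∞ a • Ξ κ (gcd N e∞)`, `B1(child i) = B1(parent)`.
 `Es M = ∑_c Es (M c) + Es Mi + (1 - |S|) • E ⟨N, ν, 0, 1⟩`, the last `E` is `Ξ κ N` (`s1`).  So `Es M - B1 - B2 ≡ (1-|S|) • Ξ κ N + ∑_{c ∈ S} tc N ν e_c β_c • Ξ κ (gcd) + tc N ν e∞ a • Ξ κ (gcd)`.  If `C`: all terms are in `Wr`
 (`gcd N _ > 0`).  If not `C`: `brk` with `Ξ := Ξ κ`.
Root: `Inv f 0 0` is trivial, `path_id`.
-/

set_option autoImplicit false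

namespace Pool.Agent.H56.CT

open Finset

private theorem TRM_tc2 (N e a b : ℕ) : tc N (b + 1) (e + N) (a + b + 1) = tc N (b + 1) e a := by
  unfold tc
  rw [Nat.gcd_add_self_right]
  congr 1
  push_cast
  ring

private theorem TRM_tc1 (N e a b : ℕ) : tc N (a + 1) (N + e) (a + b + 1) = tc N (a + 1) e b := by
  unfold tc
  rw [Nat.gcd_self_add_right]
  congr 1
  push_cast
  ring

private theorem TRM_tc0 (N ν : ℕ) (hN : 0 < N) : tc N ν 0 0 = 1 := by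
  have h : (N : ℂ) ≠ 0 := by exact_mod_cast hN.ne'
  unfold tc
  rw [Nat.gcd_zero_right]
  simp [h]

private theorem TRM_tcz (N ν e β : ℕ) (h : N * (β + 1) = ν * e) : tc N ν e β = 0 := by
  have h1 : (N : ℂ) * ((β : ℂ) + 1) = (ν : ℂ) * e := by exact_mod_cast h
  unfold tc
  rw [h1, sub_self, div_zero]

section

variable {W : Type} [AddCommGroup W] [Module ℂ W]

/-- boundary term -/
private noncomputable def TRM_B (Ξ : ℚ → ℕ → W) (N ν e β : ℕ) : W :=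
  tc N ν e β • Ξ (((ν : ℕ) : ℚ) / N) (Nat.gcd N e)

/-- both boundary terms cancel -/
private theorem TRM_dbl {E : Str → W} {Ξ : ℚ → ℕ → W} (hE : EW E Ξ) {m n a b : ℕ} (hm : 0 < m)
    (hn : 0 < n) (h : (a + 1) * n ≠ (b + 1) * m) :
    E ⟨m, a + 1, n, b + 1⟩ = TRM_B Ξ m (a + 1) n b + TRM_B Ξ n (b + 1) m a := by
  rw [hE.dbl m (a + 1) n (b + 1) hm hn (Nat.succ_pos _) (Nat.succ_pos _) h]
  unfold TRM_B tc
  rw [Nat.gcd_comm n m]
  have h1 : (m : ℂ) * ((b : ℂ) + 1) - ((a + 1 : ℕ) : ℂ) * n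
      = (m : ℂ) * ((b + 1 : ℕ) : ℂ) - (n : ℂ) * ((a + 1 : ℕ) : ℂ) := by push_cast; ring
  have h2 : (n : ℂ) * ((a : ℂ) + 1) - ((b + 1 : ℕ) : ℂ) * m
      = -((m : ℂ) * ((b + 1 : ℕ) : ℂ) - (n : ℂ) * ((a + 1 : ℕ) : ℂ)) := by push_cast; ring
  rw [h1, h2, div_neg, neg_smul, smul_sub, sub_eq_add_neg]

private theorem TRM_eq {E : Str → W} {Wr : Submodule ℂ W} {Gd : ℚ → Prop}
    (hG2 : ∀ κ, Gd κ → ∀ N1 ν1 N2 ν2 : ℕ, 0 < N1 → 0 < N2 → (ν1 : ℚ) = κ * N1 →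
      (ν2 : ℚ) = κ * N2 → E ⟨N1, ν1, N2, ν2⟩ ∈ Wr) {m n a b : ℕ} (hm : 0 < m)
    (hn : 0 < n) (h : (a + 1) * n = (b + 1) * m) (hG : Gd (((a + 1 : ℕ) : ℚ) / m)) :
    E ⟨m, a + 1, n, b + 1⟩ ∈ Wr := by
  have hm' : (m : ℚ) ≠ 0 := by exact_mod_cast hm.ne'
  have h1 : ((a + 1 : ℕ) : ℚ) * n = ((b + 1 : ℕ) : ℚ) * m := by exact_mod_cast h
  refine hG2 _ hG m (a + 1) n (b + 1) hm hn ?_ ?_
  · rw [div_mul_cancel₀ _ hm']
  · rw [div_mul_eq_mul_div, h1, mul_div_assoc, div_self hm', mul_one]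

private theorem TRM_eq' {E : Str → W} {Wr : Submodule ℂ W} {Gd : ℚ → Prop}
    (hG2 : ∀ κ, Gd κ → ∀ N1 ν1 N2 ν2 : ℕ, 0 < N1 → 0 < N2 → (ν1 : ℚ) = κ * N1 →
      (ν2 : ℚ) = κ * N2 → E ⟨N1, ν1, N2, ν2⟩ ∈ Wr) {m n a b : ℕ} (hm : 0 < m)
    (hn : 0 < n) (h : (a + 1) * n = (b + 1) * m) (hG : Gd (((b + 1 : ℕ) : ℚ) / n)) :
    E ⟨m, a + 1, n, b + 1⟩ ∈ Wr := by
  have hn' : (n : ℚ) ≠ 0 := by exact_mod_cast hn.ne'
  have h1 : ((a + 1 : ℕ) : ℚ) * n = ((b + 1 : ℕ) : ℚ) * m := by exact_mod_cast h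
  refine hG2 _ hG m (a + 1) n (b + 1) hm hn ?_ ?_
  · rw [div_mul_eq_mul_div, ← h1, mul_div_assoc, div_self hn', mul_one]
  · rw [div_mul_cancel₀ _ hn']

/-- the terms of the strict branches -/
private theorem TRM_br {Ξ : ℚ → ℕ → W} {Wr : Submodule ℂ W} {f : R2} {Gd : ℚ → Prop}
    (hG1 : ∀ κ, Gd κ → ∀ g, 0 < g → Ξ κ g ∈ Wr)
    (hS : ∀ N : ℕ, 2 ≤ N → SpD f N → Gd (1 / (N : ℚ)))
    (h1 : SpD f 1 → Ξ 1 1 ∈ Wr) {n k : ℕ} (hn : 0 < n) (hk : 0 < k) (hk1 : n = 1 → k = 1)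
    (hs : SpD f n) : Ξ (((0 + 1 : ℕ) : ℚ) / n) k ∈ Wr := by
  have e1 : ((0 + 1 : ℕ) : ℚ) / n = 1 / (n : ℚ) := by norm_num
  rw [e1]
  rcases Nat.lt_or_ge n 2 with h | h
  · have hn1 : n = 1 := by omega
    rw [hk1 hn1]
    subst hn1
    have e2 : (1 : ℚ) / ((1 : ℕ) : ℚ) = 1 := by norm_num
    rw [e2]
    exact h1 hs
  · exact hG1 _ (hS n h hs) k hk

private theorem TRM_gcd1 {m n : ℕ} (h : n = 1) : Nat.gcd m n = 1 := by
  rw [h, Nat.gcd_one_right]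

private theorem TRM_spd {f g : R2} {a : ℕ} {X Y : R2} (hp : Path f g a 0 X Y)
    (ψ : R2 ≃ₐ[ℂ] R2) (m n : ℕ) (h : ψ g = U ^ m * V ^ n)
    (hu : 1 ≤ a → Associated (ψ U) U) : SpD f n := by
  obtain ⟨X', Y', h1⟩ := path_psi hp ψ hu (fun h0 => absurd h0 (by omega))
  rw [h] at h1
  exact ⟨m, a, X', Y', h1⟩

private theorem TRM_spd' {f g : R2} {b : ℕ} {X Y : R2} (hp : Path f g 0 b X Y)
    (ψ : R2 ≃ₐ[ℂ] R2) (m n : ℕ) (h : ψ g = U ^ m * V ^ n)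
    (hv : 1 ≤ b → Associated (ψ V) V) : SpD f m := by
  obtain ⟨X', Y', h1⟩ := path_psi hp ψ (fun h0 => absurd h0 (by omega)) hv
  rw [h] at h1
  obtain ⟨X'', Y'', h2⟩ := path_swap h1
  have hV : co V 0 0 = 0 := by
    unfold co
    simp only [Finsupp.single_zero, add_zero, MvPowerSeries.coeff_X]
    rw [if_neg]
    intro h0
    exact one_ne_zero (Finsupp.single_eq_zero.1 h0.symm)
  have hU : co U 0 0 = 0 := by
    unfold co
    simp only [Finsupp.single_zero, add_zero, MvPowerSeries.coeff_X]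
    rw [if_neg]
    intro h0
    exact one_ne_zero (Finsupp.single_eq_zero.1 h0.symm)
  obtain ⟨F, hF, hFU, hFV⟩ := sb_hom V U hV hU
  have h3 : sb V U (U ^ m * V ^ n) = U ^ n * V ^ m := by
    rw [← hF, map_mul, map_pow, map_pow, hFU, hFV, mul_comm]
  rw [h3] at h2
  exact ⟨n, b, X'', Y'', h2⟩

/-- the leaves -/
private theorem TRM_leaf {E : Str → W} {Ξ : ℚ → ℕ → W}
    (hE : EW E Ξ) (Wr : Submodule ℂ W) (f : R2) (hf0 : co f 0 0 = 0)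
    (Gd : ℚ → Prop) (hG1 : ∀ κ, Gd κ → ∀ g, 0 < g → Ξ κ g ∈ Wr)
    (hG2 : ∀ κ, Gd κ → ∀ N1 ν1 N2 ν2 : ℕ, 0 < N1 → 0 < N2 → (ν1 : ℚ) = κ * N1 →
      (ν2 : ℚ) = κ * N2 → E ⟨N1, ν1, N2, ν2⟩ ∈ Wr)
    (hS : ∀ N : ℕ, 2 ≤ N → SpD f N → Gd (1 / (N : ℚ)))
    (h1 : SpD f 1 → Ξ 1 1 ∈ Wr) (hn : Node f → E ⟨1, 1, 1, 1⟩ ∈ Wr)
    (g : R2) (a b : ℕ) (ψ : R2 ≃ₐ[ℂ] R2) (m n : ℕ) (h : ψ g = U ^ m * V ^ n)
    (hu : 1 ≤ a → Associated (ψ U) U) (hv : 1 ≤ b → Associated (ψ V) V)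
    (X Y : R2) (hp : Path f g a b X Y) (hI : Inv g a b) (hR : a = 0 → b = 0 → g = f)
    (hA1 : ∀ N1 e1, 1 ≤ a → AX1 g N1 e1 → N1 * (b + 1) = (a + 1) * e1 →
      Gd (((a + 1 : ℕ) : ℚ) / N1))
    (hA2 : ∀ N2 e2, 1 ≤ b → AX2 g N2 e2 → N2 * (a + 1) = (b + 1) * e2 →
      Gd (((b + 1 : ℕ) : ℚ) / N2))
    (N1 e1 N2 e2 : ℕ) (hX1 : 1 ≤ a → AX1 g N1 e1) (hX2 : 1 ≤ b → AX2 g N2 e2) :
    E ⟨m, a + 1, n, b + 1⟩ - (if 1 ≤ a then TRM_B Ξ N1 (a + 1) e1 b else 0)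
      - (if 1 ≤ b then TRM_B Ξ N2 (b + 1) e2 a else 0) ∈ Wr := by
  have hl1 : 1 ≤ a → AX1 g m n ∧ N1 = m ∧ e1 = n ∧ 0 < m := by
    intro ha
    have h2 := lf1 g ψ m n h (hu ha)
    obtain ⟨h3, h4⟩ := ax1_unique (hX1 ha) h2
    refine ⟨h2, h3, h4, ?_⟩
    rcases Nat.eq_zero_or_pos b with hb | hb
    · obtain ⟨N, e, h5, h6, -⟩ := hI.one ha hb
      obtain ⟨h7, -⟩ := ax1_unique h5 h2
      omega
    · obtain ⟨N, e, N', e', -, h5, -, -, -, -, -, h6, -⟩ := hI.both ha hb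
      obtain ⟨h7, -⟩ := ax1_unique h5 h2
      rw [← h7]
      refine Nat.pos_of_ne_zero fun h0 => ?_
      rw [h0, Nat.mul_zero] at h6
      exact Nat.not_lt_zero _ h6
  have hl2 : 1 ≤ b → AX2 g n m ∧ N2 = n ∧ e2 = m ∧ 0 < n := by
    intro hb
    have h2 := lf2 g ψ m n h (hv hb)
    obtain ⟨h3, h4⟩ := ax2_unique (hX2 hb) h2
    refine ⟨h2, h3, h4, ?_⟩
    rcases Nat.eq_zero_or_pos a with ha | ha
    · obtain ⟨N, e, h5, h6, -⟩ := hI.two ha hb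
      obtain ⟨h7, -⟩ := ax2_unique h5 h2
      omega
    · obtain ⟨N, e, N', e', -, -, h5, -, -, -, h6, -, -⟩ := hI.both ha hb
      obtain ⟨h7, -⟩ := ax2_unique h5 h2
      rw [← h7]
      refine Nat.pos_of_ne_zero fun h0 => ?_
      rw [h0, Nat.mul_zero] at h6
      exact Nat.not_lt_zero _ h6
  rcases Nat.eq_zero_or_pos a with ha | ha
  · rcases Nat.eq_zero_or_pos b with hb | hb
    · -- a = b = 0
      subst ha
      subst hb
      rw [if_neg (by omega), if_neg (by omega), sub_zero, sub_zero]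
      have hgf := hR rfl rfl
      subst hgf
      have hs2 := TRM_spd hp ψ m n h hu
      have hs1 := TRM_spd' hp ψ m n h hv
      rcases Nat.eq_zero_or_pos m with hm | hm
      · subst hm
        have hn0 : 0 < n := by
          rcases lf_unit g hf0 ψ 0 n h with h2 | h2
          · exact absurd h2 (lt_irrefl _)
          · exact h2
        have h2 := hE.s2 n 1 hn0 Nat.one_pos
        have h3 : E ⟨0, 0 + 1, n, 0 + 1⟩ = Ξ (((0 + 1 : ℕ) : ℚ) / n) n := h2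
        rw [h3]
        exact TRM_br hG1 hS h1 hn0 hn0 (fun h4 => h4) hs2
      rcases Nat.eq_zero_or_pos n with hn0 | hn0
      · subst hn0
        have h3 : E ⟨m, 0 + 1, 0, 0 + 1⟩ = Ξ (((0 + 1 : ℕ) : ℚ) / m) m := hE.s1 m 1 hm Nat.one_pos
        rw [h3]
        exact TRM_br hG1 hS h1 hm hm (fun h4 => h4) hs1
      by_cases hmn : (0 + 1) * n = (0 + 1) * m
      · have hmn' : n = m := by omega
        subst hmn'
        rcases Nat.lt_or_ge n 2 with h2 | h2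
        · have h3 : n = 1 := by omega
          subst h3
          exact hn ⟨ψ, by rw [h, pow_one, pow_one]⟩
        · refine TRM_eq hG2 hm hn0 hmn ?_
          have h3 := hS n h2 hs1
          have e1 : ((0 + 1 : ℕ) : ℚ) / n = 1 / (n : ℚ) := by norm_num
          rw [e1]
          exact h3
      · rw [TRM_dbl hE hm hn0 hmn]
        have hg : 0 < Nat.gcd m n := Nat.gcd_pos_of_pos_left _ hm
        have hg' : 0 < Nat.gcd n m := Nat.gcd_pos_of_pos_left _ hn0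
        refine Wr.add_mem (Wr.smul_mem _ ?_) (Wr.smul_mem _ ?_)
        · exact TRM_br hG1 hS h1 hm hg (fun h4 => by rw [h4, Nat.gcd_one_left]) hs1
        · exact TRM_br hG1 hS h1 hn0 hg' (fun h4 => by rw [h4, Nat.gcd_one_left]) hs2
    · -- a = 0, b ≥ 1
      subst ha
      replace hb : 1 ≤ b := hb
      obtain ⟨hax, rfl, rfl, hn0⟩ := hl2 hb
      rw [if_neg (by omega), if_pos hb, sub_zero]
      have hs1 := TRM_spd' hp ψ e2 N2 h hv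
      rcases Nat.eq_zero_or_pos e2 with hm | hm
      · subst hm
        have h3 : E ⟨0, 0 + 1, N2, b + 1⟩ = Ξ (((b + 1 : ℕ) : ℚ) / N2) N2 :=
          hE.s2 N2 (b + 1) hn0 (Nat.succ_pos _)
        unfold TRM_B
        rw [h3, TRM_tc0 N2 (b + 1) hn0, one_smul, Nat.gcd_zero_right, sub_self]
        exact Wr.zero_mem
      by_cases hmn : (0 + 1) * N2 = (b + 1) * e2
      · have h2 := hA2 N2 e2 hb hax (by rw [Nat.mul_comm, hmn])
        have h3 := TRM_eq' hG2 hm hn0 hmn h2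
        unfold TRM_B
        rw [TRM_tcz N2 (b + 1) e2 0 (by rw [Nat.mul_comm, hmn]), zero_smul, sub_zero]
        exact h3
      · rw [TRM_dbl hE hm hn0 hmn, add_sub_cancel_right]
        exact Wr.smul_mem _ (TRM_br hG1 hS h1 hm (Nat.gcd_pos_of_pos_left _ hm)
          (fun h4 => by rw [h4, Nat.gcd_one_left]) hs1)
  · rcases Nat.eq_zero_or_pos b with hb | hb
    · -- a ≥ 1, b = 0
      subst hb
      replace ha : 1 ≤ a := ha
      obtain ⟨hax, rfl, rfl, hm⟩ := hl1 ha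
      rw [if_pos ha, if_neg (by omega), sub_zero]
      have hs2 := TRM_spd hp ψ N1 e1 h hu
      rcases Nat.eq_zero_or_pos e1 with hn0 | hn0
      · subst hn0
        have h3 : E ⟨N1, a + 1, 0, 0 + 1⟩ = Ξ (((a + 1 : ℕ) : ℚ) / N1) N1 :=
          hE.s1 N1 (a + 1) hm (Nat.succ_pos _)
        unfold TRM_B
        rw [h3, TRM_tc0 N1 (a + 1) hm, one_smul, Nat.gcd_zero_right, sub_self]
        exact Wr.zero_mem
      by_cases hmn : (a + 1) * e1 = (0 + 1) * N1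
      · have h2 := hA1 N1 e1 ha hax (by rw [hmn, Nat.mul_comm])
        have h3 := TRM_eq hG2 hm hn0 hmn h2
        unfold TRM_B
        rw [TRM_tcz N1 (a + 1) e1 0 (by rw [hmn, Nat.mul_comm]), zero_smul, sub_zero]
        exact h3
      · rw [TRM_dbl hE hm hn0 hmn, add_sub_cancel_left]
        exact Wr.smul_mem _ (TRM_br hG1 hS h1 hn0 (Nat.gcd_pos_of_pos_left _ hn0)
          (fun h4 => by rw [h4, Nat.gcd_one_left]) hs2)
    · -- a, b ≥ 1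
      replace ha : 1 ≤ a := ha
      replace hb : 1 ≤ b := hb
      obtain ⟨hax, rfl, rfl, hm⟩ := hl1 ha
      obtain ⟨hax2, rfl, rfl, hn0⟩ := hl2 hb
      rw [if_pos ha, if_pos hb]
      by_cases hmn : (a + 1) * N2 = (b + 1) * e2
      · have h4 : e2 * (b + 1) = (a + 1) * N2 := by rw [hmn, Nat.mul_comm]
        have h2 := hA1 e2 N2 ha hax h4
        have h3 := TRM_eq hG2 hm hn0 hmn h2
        unfold TRM_B
        rw [TRM_tcz e2 (a + 1) N2 b h4,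
          TRM_tcz N2 (b + 1) e2 a (by rw [Nat.mul_comm, hmn]), zero_smul, zero_smul,
          sub_zero, sub_zero]
        exact h3
      · rw [TRM_dbl hE hm hn0 hmn, add_sub_cancel_left, sub_self]
        exact Wr.zero_mem

/-- the claim for a point of the tree -/
private def TRM_Cl (E : Str → W) (Ξ : ℚ → ℕ → W) (Wr : Submodule ℂ W) (f : R2) (Gd : ℚ → Prop)
    (g : R2) (a b : ℕ) (M : Str →₀ ℤ) : Prop :=
  ∀ (X Y : R2), Path f g a b X Y → Inv g a b → (a = 0 → b = 0 → g = f) →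
    (∀ N1 e1, 1 ≤ a → AX1 g N1 e1 → N1 * (b + 1) = (a + 1) * e1 →
      Gd (((a + 1 : ℕ) : ℚ) / N1)) →
    (∀ N2 e2, 1 ≤ b → AX2 g N2 e2 → N2 * (a + 1) = (b + 1) * e2 →
      Gd (((b + 1 : ℕ) : ℚ) / N2)) →
    ∀ (N1 e1 N2 e2 : ℕ), (1 ≤ a → AX1 g N1 e1) → (1 ≤ b → AX2 g N2 e2) →
    Finsupp.linearCombination ℤ E M - (if 1 ≤ a then TRM_B Ξ N1 (a + 1) e1 b else 0)
      - (if 1 ≤ b then TRM_B Ξ N2 (b + 1) e2 a else 0) ∈ Wr

private theorem TRM_blow {E : Str → W} {Ξ : ℚ → ℕ → W}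
    (hE : EW E Ξ) (Wr : Submodule ℂ W) (f : R2)
    (Gd : ℚ → Prop) (hG1 : ∀ κ, Gd κ → ∀ g, 0 < g → Ξ κ g ∈ Wr)
    (hSE : ∀ κ : ℚ, 0 < κ → κ < 1 → Nonempty (PhiD f κ) → Gd κ)
    (g : R2) (a b N : ℕ) (hN : Ord g N) (hx : NX g a b N) (S : Finset ℂ)
    (hS : ∀ c, (ini N g).IsRoot c → c ∈ S) (h0 : 1 ≤ b → (0 : ℂ) ∈ S) (M : ℂ → (Str →₀ ℤ))
    (Mi : Str →₀ ℤ)
    (hM : ∀ c ∈ S, TRM_Cl E Ξ Wr f Gd (sb U (U * (V + MvPowerSeries.C c)) g) (a + b + 1)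
      (if c = 0 then b else 0) (M c))
    (hi : TRM_Cl E Ξ Wr f Gd (sb (U * V) V g) a (a + b + 1) Mi) :
    TRM_Cl E Ξ Wr f Gd g a b (∑ c ∈ S, M c + Mi +
      Finsupp.single ⟨N, a + b + 2, 0, 1⟩ (1 - (S.card : ℤ))) := by
  intro X Y hp hI hR hA1 hA2 N1 e1 N2 e2 hX1 hX2
  obtain ⟨hN0, hal2, hal1, hal3⟩ := inv_alpha hI hN hx
  have hNQ : (0 : ℚ) < N := by exact_mod_cast hN0
  have hne : ini N g ≠ 0 := hN.2
  have hC : Contr (ini N g) N a b → Gd (((a + b + 2 : ℕ) : ℚ) / N) := by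
    intro hC
    have hν : a + b + 2 < N := by
      by_contra h1
      exact hal3 (not_lt.1 h1) hC
    have hs := sep f g a b N X Y hp hN hν hal2 hal1 hC
    refine hSE _ ?_ ?_ hs
    · exact div_pos (by exact_mod_cast Nat.succ_pos _) hNQ
    · rw [div_lt_one hNQ]
      exact_mod_cast hν
  have hch : ∀ c ∈ S, Finsupp.linearCombination ℤ E (M c)
      - TRM_B Ξ N (a + b + 2) (ec (ini N g) c) (bc b c)
      - (if c = 0 then (if 1 ≤ b then TRM_B Ξ N2 (b + 1) e2 a else 0) else 0) ∈ Wr := by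
    intro c hc
    obtain ⟨X', Y', hp'⟩ := path_c hp c
    have hI' := inv_c hI hN hx c
    have hax := lex_c hN c
    have h1 := hM c hc X' Y' hp' hI' (fun h2 => absurd h2 (by omega))
      (by
        intro N1' e1' _ hA hE'
        obtain ⟨rfl, rfl⟩ := ax1_unique hA hax
        exact hC (Or.inl ⟨c, hE'⟩))
      (by
        intro N2' e2' hb' hA hE'
        by_cases hc0 : c = 0
        · subst hc0
          rw [if_pos rfl] at hb' hE' ⊢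
          have hA' := hX2 hb'
          obtain ⟨rfl, rfl⟩ := ax2_unique hA (lex_c2 hA')
          refine hA2 N2' e2 hb' hA' ?_
          nlinarith [hE']
        · rw [if_neg hc0] at hb'
          exact absurd hb' (by omega))
      N (ec (ini N g) c) N2 (e2 + N2) (fun _ => hax)
      (by
        intro hb'
        by_cases hc0 : c = 0
        · subst hc0
          rw [if_pos rfl] at hb'
          exact lex_c2 (hX2 hb')
        · rw [if_neg hc0] at hb'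
          exact absurd hb' (by omega))
    rw [if_pos (by omega)] at h1
    have e1 : TRM_B Ξ N (a + b + 1 + 1) (ec (ini N g) c) (if c = 0 then b else 0)
        = TRM_B Ξ N (a + b + 2) (ec (ini N g) c) (bc b c) := rfl
    rw [e1] at h1
    by_cases hc0 : c = 0
    · rw [if_pos hc0] at h1 ⊢
      have e2 : TRM_B Ξ N2 (b + 1) (e2 + N2) (a + b + 1) = TRM_B Ξ N2 (b + 1) e2 a := by
        unfold TRM_B
        rw [TRM_tc2, Nat.gcd_add_self_right]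
      rw [e2] at h1
      exact h1
    · rw [if_neg hc0] at h1 ⊢
      rw [if_neg (by omega)] at h1
      exact h1
  have hsum := Wr.sum_mem hch
  rw [Finset.sum_sub_distrib, Finset.sum_sub_distrib, Finset.sum_ite_eq'] at hsum
  have hB2 : (if (0 : ℂ) ∈ S then (if 1 ≤ b then TRM_B Ξ N2 (b + 1) e2 a else 0) else 0)
      = (if 1 ≤ b then TRM_B Ξ N2 (b + 1) e2 a else 0) := by
    by_cases hb : 1 ≤ b
    · rw [if_pos (h0 hb)]
    · rw [if_neg hb, ite_self]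
  rw [hB2] at hsum
  obtain ⟨X', Y', hp'⟩ := path_i hp
  have hI' := inv_i hI hN hx
  have hax := lex_i2 hN
  have hii := hi X' Y' hp' hI' (fun _ h2 => absurd h2 (by omega))
    (by
      intro N1' e1' ha hA hE'
      have hA' := hX1 ha
      obtain ⟨rfl, rfl⟩ := ax1_unique hA (lex_i1 hA')
      refine hA1 N1' e1 ha hA' ?_
      nlinarith [hE'])
    (by
      intro N2' e2' _ hA hE'
      obtain ⟨rfl, rfl⟩ := ax2_unique hA hax
      exact hC (Or.inr (Or.inl hE')))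
    N1 (N1 + e1) N (N - (ini N g).natDegree) (fun ha => lex_i1 (hX1 ha)) (fun _ => hax)
  rw [if_pos (show 1 ≤ a + b + 1 by omega)] at hii
  have e3 : TRM_B Ξ N1 (a + 1) (N1 + e1) (a + b + 1) = TRM_B Ξ N1 (a + 1) e1 b := by
    unfold TRM_B
    rw [TRM_tc1, Nat.gcd_self_add_right]
  have e4 : TRM_B Ξ N (a + b + 1 + 1) (N - (ini N g).natDegree) a
      = TRM_B Ξ N (a + b + 2) (N - (ini N g).natDegree) a := rfl
  rw [e3, e4] at hii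
  rw [map_add, map_add, map_sum, Finsupp.linearCombination_single,
    hE.s1 N (a + b + 2) hN0 (Nat.succ_pos _)]
  have hz : (1 - (S.card : ℤ)) • Ξ (((a + b + 2 : ℕ) : ℚ) / N) N
      = (1 - (S.card : ℂ)) • Ξ (((a + b + 2 : ℕ) : ℚ) / N) N := by
    rw [← Int.cast_smul_eq_zsmul ℂ]
    push_cast
    rfl
  rw [hz]
  have hQ : (1 - (S.card : ℂ)) • Ξ (((a + b + 2 : ℕ) : ℚ) / N) N +
      ∑ c ∈ S, TRM_B Ξ N (a + b + 2) (ec (ini N g) c) (bc b c) +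
      TRM_B Ξ N (a + b + 2) (N - (ini N g).natDegree) a ∈ Wr := by
    by_cases hCC : Contr (ini N g) N a b
    · have hG := hG1 _ (hC hCC)
      refine Wr.add_mem (Wr.add_mem (Wr.smul_mem _ (hG N hN0)) (Wr.sum_mem fun c _ => ?_)) ?_
      · exact Wr.smul_mem _ (hG _ (Nat.gcd_pos_of_pos_left _ hN0))
      · exact Wr.smul_mem _ (hG _ (Nat.gcd_pos_of_pos_left _ hN0))
    · have h5 := brk (fun k => Ξ (((a + b + 2 : ℕ) : ℚ) / N) k) (ini N g) hne N a b hN0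
        (ini_deg N g) hCC S hS h0
      have h6 : (1 - (S.card : ℂ)) • Ξ (((a + b + 2 : ℕ) : ℚ) / N) N +
        ∑ c ∈ S, TRM_B Ξ N (a + b + 2) (ec (ini N g) c) (bc b c) +
        TRM_B Ξ N (a + b + 2) (N - (ini N g).natDegree) a = 0 := h5
      rw [h6]
      exact Wr.zero_mem
  have hT := Wr.add_mem (Wr.add_mem hsum hii) hQ
  convert hT using 1
  abel

private theorem TRM_all {E : Str → W} {Ξ : ℚ → ℕ → W}
    (hE : EW E Ξ) (Wr : Submodule ℂ W) (f : R2) (hf0 : co f 0 0 = 0)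
    (Gd : ℚ → Prop) (hG1 : ∀ κ, Gd κ → ∀ g, 0 < g → Ξ κ g ∈ Wr)
    (hG2 : ∀ κ, Gd κ → ∀ N1 ν1 N2 ν2 : ℕ, 0 < N1 → 0 < N2 → (ν1 : ℚ) = κ * N1 →
      (ν2 : ℚ) = κ * N2 → E ⟨N1, ν1, N2, ν2⟩ ∈ Wr)
    (hSE : ∀ κ : ℚ, 0 < κ → κ < 1 → Nonempty (PhiD f κ) → Gd κ)
    (hS : ∀ N : ℕ, 2 ≤ N → SpD f N → Gd (1 / (N : ℚ)))
    (h1 : SpD f 1 → Ξ 1 1 ∈ Wr) (hn : Node f → E ⟨1, 1, 1, 1⟩ ∈ Wr)
    {g : R2} {a b : ℕ} {M : Str →₀ ℤ} (hM : Res g a b M) : TRM_Cl E Ξ Wr f Gd g a b M := by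
  induction hM with
  | leaf g a b ψ m n h hu hv =>
    intro X Y hp hI hR hA1 hA2 N1 e1 N2 e2 hX1 hX2
    rw [Finsupp.linearCombination_single, one_smul]
    exact TRM_leaf hE Wr f hf0 Gd hG1 hG2 hS h1 hn g a b ψ m n h hu hv X Y hp hI hR hA1 hA2
      N1 e1 N2 e2 hX1 hX2
  | blow g a b N hN hx S hS' h0 M Mi _ _ ihM ihi =>
    exact TRM_blow hE Wr f Gd hG1 hSE g a b N hN hx S hS' h0 M Mi ihM ihi

end

/-- TRM -/
theorem trm {W : Type} [AddCommGroup W] [Module ℂ W] (E : Str → W) (Ξ : ℚ → ℕ → W)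
    (hE : EW E Ξ) (Wr : Submodule ℂ W) (f : R2) (hf : f ≠ 0) (hf0 : co f 0 0 = 0)
    (Gd : ℚ → Prop) (hG1 : ∀ κ, Gd κ → ∀ g, 0 < g → Ξ κ g ∈ Wr)
    (hG2 : ∀ κ, Gd κ → ∀ N1 ν1 N2 ν2 : ℕ, 0 < N1 → 0 < N2 → (ν1 : ℚ) = κ * N1 →
      (ν2 : ℚ) = κ * N2 → E ⟨N1, ν1, N2, ν2⟩ ∈ Wr)
    (hSE : ∀ κ : ℚ, 0 < κ → κ < 1 → Nonempty (PhiD f κ) → Gd κ)
    (hS : ∀ N : ℕ, 2 ≤ N → SpD f N → Gd (1 / (N : ℚ)))
    (h1 : SpD f 1 → Ξ 1 1 ∈ Wr) (hn : Node f → E ⟨1, 1, 1, 1⟩ ∈ Wr) (M : Str →₀ ℤ)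
    (hM : Res f 0 0 M) : (M.sum fun S m => m • E S) ∈ Wr := by
  have h2 := TRM_all hE Wr f hf0 Gd hG1 hG2 hSE hS h1 hn hM U V (path_id f)
    ⟨fun h => absurd h (by omega), fun _ h => absurd h (by omega), fun h => absurd h (by omega)⟩
    (fun _ _ => rfl) (fun _ _ h => absurd h (by omega)) (fun _ _ h => absurd h (by omega))
    0 0 0 0 (fun h => absurd h (by omega)) (fun h => absurd h (by omega))
  rw [if_neg (by omega), sub_zero, sub_zero, Finsupp.linearCombination_apply] at h2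
  exact h2

end Pool.Agent.H56.CT
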