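import Pool.Agent.H56.CT.HBR
import Pool.Agent.H56.CT.TRM

/-!
# MFI: the sum over all types of points is regular

`res_pos`: induction on `Res`: `leaf`: the support of `single` is `⟨N1, a+1, N2, b+1⟩`; `blow`: the support of a sum is contained in the union of the supports (`Finsupp.support_add`, `support_finset_sum`), and `⟨N, a+b+2, 0, 1⟩`.
`mfi`: claim: for every list `l` without repetitions, all `κ`, `T`, `S` such that for all `k ∉ l`: `Val (f k) (κ k) (k ∈ T)` and `RedS (κ k) (k ∈ T) (S k)`, and for all `k`: `(S k).Pos`, the function `msum a M l S` is regular at `s0`.  Induction on `l`.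
`[]`: `HB a κ T s0` by `hHB`; `κ_k > 0` and `κ_k = 1` for `k ∈ T` by `Val`; `reg_red`.
`k :: l`: `msum a M (k :: l) S = (M k).sum fun s c => c • E s`, `E s = msum a M l (update S k (toQ s))`; apply `trm` with `E`, `Ξ κ g = msum a M l (update S k ⟨g, g κ, 0, 1⟩)` (`ms_EW`), `Wr` = the regular functions (a submodule: `Reg.add`, `reg_zero`, multiples with constants), `Gd κ' = Val (f k) κ' False`.
`hG1`: the induction hypothesis for `update S k ⟨g, g κ', 0, 1⟩`, `update κ k κ'`, `T.erase k` (`RedS`, second case).  `hG2`: third case, with `toQ ⟨N1, ν1, N2, ν2⟩`.  `hSE`, `hS`: the definition of `Val`.  `h1`: `update κ k 1`, `insert k T`, `⟨1, 1 * 1, 0, 1⟩ = ⟨1, 1, 0, 1⟩`.  `hn`: `Val (f k) 1 False` by its last case, third case of `RedS`.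
(`Val .. False` and `Val .. (k ∈ T.erase k)`: the propositions are equivalent, `propext` or `simp`.)  `Finsupp.sum` with the integers `c`: `c • x` in `RatFunc ℂ`, as in `trm`.
The theorem is the case of the list `l` of all `k` (no condition on `S`).
-/

set_option autoImplicit false

namespace Pool.Agent.H56.CT

open Finset

theorem res_pos {g : R2} {a b : ℕ} {M : Str →₀ ℤ} (h : Res g a b M) :
    ∀ s ∈ M.support, 0 < s.ν1 ∧ 0 < s.ν2 := by
  induction h with
  | leaf g a b ψ N1 N2 h hu hv =>
    intro s hs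
    have h1 := Finsupp.support_single_subset hs
    rw [Finset.mem_singleton] at h1
    rw [h1]
    exact ⟨Nat.succ_pos _, Nat.succ_pos _⟩
  | blow g a b N hN hx S hS h0 M Mi _ _ ihM ihi =>
    intro s hs
    rw [Finsupp.mem_support_iff] at hs
    by_cases h1 : (∑ c ∈ S, M c) s = 0
    · by_cases h2 : Mi s = 0
      · have h3 : Finsupp.single (⟨N, a + b + 2, 0, 1⟩ : Str) (1 - (S.card : ℤ)) s ≠ 0 := by
          intro h3
          apply hs
          rw [Finsupp.add_apply, Finsupp.add_apply, h1, h2, h3]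
          rfl
        have h4 := Finsupp.support_single_subset (Finsupp.mem_support_iff.2 h3)
        rw [Finset.mem_singleton] at h4
        rw [h4]
        exact ⟨Nat.succ_pos _, Nat.one_pos⟩
      · exact ihi s (Finsupp.mem_support_iff.2 h2)
    · rw [Finsupp.finsetSum_apply] at h1
      obtain ⟨c, hc, h2⟩ := Finset.exists_ne_zero_of_sum_ne_zero h1
      exact ihM c hc s (Finsupp.mem_support_iff.2 h2)

/-- The regular functions. -/
private noncomputable def MFI_Wr (s0 : ℂ) : Submodule ℂ (RatFunc ℂ) where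
  carrier := {R | H37.SM.Reg s0 R}
  add_mem' := fun h1 h2 => H37.SM.Reg.add h1 h2
  zero_mem' := H37.SM.reg_zero
  smul_mem' := by
    intro c R hR
    have h1 : H37.SM.Reg s0 (algebraMap ℂ (RatFunc ℂ) c) := by
      rw [H37.SM.reg_iff]
      refine ⟨Polynomial.C c, 1, by simp, ?_⟩
      simp
    have h2 : c • R = algebraMap ℂ (RatFunc ℂ) c * R := Algebra.smul_def _ _
    change H37.SM.Reg s0 (c • R)
    rw [h2]
    exact H37.SM.Reg.mul h1 hR

private theorem MFI_val_pos {g : R2} {κ : ℚ} {t : Prop} (h : Val g κ t) : 0 < κ := by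
  rcases h with ⟨_, h, _⟩ | ⟨_, N, hN, h, _⟩ | ⟨_, h, _⟩ | ⟨_, h, _⟩
  · exact h
  · rw [h]
    have : (0 : ℚ) < N := by exact_mod_cast (by omega : 0 < N)
    positivity
  · rw [h]
    exact one_pos
  · rw [h]
    exact one_pos

private theorem MFI_val_one {g : R2} {κ : ℚ} {t : Prop} (h : Val g κ t) (ht : t) : κ = 1 := by
  rcases h with ⟨h, _⟩ | ⟨h, _⟩ | ⟨_, h, _⟩ | ⟨h, _⟩
  · exact absurd ht h
  · exact absurd ht h
  · exact h
  · exact absurd ht h

/-- MFI -/
theorem mfi {m r : ℕ} (a : Fin r → (Fin m →₀ ℕ)) (ha : Function.Injective a)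
    (hconv : H22.T7.Conv a) (hne : ∀ i, a i ≠ 0) (hr : 0 < r) (f : Fin m → R2)
    (hf : ∀ k, f k ≠ 0) (hf0 : ∀ k, co (f k) 0 0 = 0) (M : Fin m → (Str →₀ ℤ))
    (hM : ∀ k, Res (f k) 0 0 (M k)) (s0 : ℂ) (hs1 : s0 ≠ -1)
    (hHB : ∀ (κ : Fin m → ℚ) (T : Finset (Fin m)), (∀ k, Val (f k) (κ k) (k ∈ T)) →
      HB a κ T s0) (S : Fin m → Slt) (hS : ∀ k, (S k).Pos) :
    H37.SM.Reg s0 (msum a M (List.finRange m) S) := by
  have hMp : ∀ k, ∀ s ∈ (M k).support, 0 < s.ν1 ∧ 0 < s.ν2 := fun k => res_pos (hM k)
  have main : ∀ l : List (Fin m), l.Nodup → ∀ (κ : Fin m → ℚ) (T : Finset (Fin m))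
      (S : Fin m → Slt), (∀ k, k ∉ l → Val (f k) (κ k) (k ∈ T)) →
      (∀ k, k ∉ l → RedS (κ k) (k ∈ T) (S k)) → (∀ k, (S k).Pos) →
      H37.SM.Reg s0 (msum a M l S) := by
    intro l
    induction l with
    | nil =>
      intro _ κ T S hV hR hP
      have hV' : ∀ k, Val (f k) (κ k) (k ∈ T) := fun k => hV k List.not_mem_nil
      exact reg_red a ha hconv hne hr κ (fun k => MFI_val_pos (hV' k)) T
        (fun k hk => MFI_val_one (hV' k) hk) s0 hs1 (hHB κ T hV') S
        (fun k => hR k List.not_mem_nil)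
    | cons k l ih =>
      intro hnd κ T S hV hR hP
      obtain ⟨hkl, hnd'⟩ := List.nodup_cons.1 hnd
      have hstep : ∀ (κ' : ℚ) (t : Prop) (T' : Finset (Fin m)) (s' : Slt), (k ∈ T') = t →
          (∀ k', k' ≠ k → (k' ∈ T') = (k' ∈ T)) → Val (f k) κ' t → RedS κ' t s' → s'.Pos →
          H37.SM.Reg s0 (msum a M l (Function.update S k s')) := by
        intro κ' t T' s' ht hT' hv hr' hp
        refine ih hnd' (Function.update κ k κ') T' _ ?_ ?_ ?_
        · intro k' hk'
          by_cases hkk : k' = k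
          · subst hkk
            rw [Function.update_self, ht]
            exact hv
          · rw [Function.update_of_ne hkk, hT' k' hkk]
            exact hV k' (fun h => (List.mem_cons.1 h).elim hkk hk')
        · intro k' hk'
          by_cases hkk : k' = k
          · subst hkk
            rw [Function.update_self, Function.update_self, ht]
            exact hr'
          · rw [Function.update_of_ne hkk, Function.update_of_ne hkk, hT' k' hkk]
            exact hR k' (fun h => (List.mem_cons.1 h).elim hkk hk')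
        · intro k'
          by_cases hkk : k' = k
          · subst hkk
            rw [Function.update_self]
            exact hp
          · rw [Function.update_of_ne hkk]
            exact hP k'
      have he1 : (k ∈ T.erase k) = False := by simp
      have he2 : ∀ k', k' ≠ k → (k' ∈ T.erase k) = (k' ∈ T) := by
        intro k' hk'
        simp [hk']
      have hi1 : (k ∈ insert k T) = True := by simp
      have hi2 : ∀ k', k' ≠ k → (k' ∈ insert k T) = (k' ∈ T) := by
        intro k' hk'
        simp [hk']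
      have key := trm (fun s => msum a M l (Function.update S k (toQ s)))
        (fun κ g => msum a M l (Function.update S k ⟨g, g * κ, 0, 1⟩))
        (ms_EW a M hMp l S hP k hkl) (MFI_Wr s0) (f k) (hf k) (hf0 k)
        (fun κ' => Val (f k) κ' False) ?_ ?_ ?_ ?_ ?_ ?_ (M k) (hM k)
      · exact key
      · intro κ' hκ' g hg
        refine hstep κ' False (T.erase k) _ he1 he2 hκ' (Or.inr (Or.inl ⟨not_false, g, hg, rfl⟩))
          ⟨?_, one_pos⟩
        have h1 := MFI_val_pos hκ'
        have h2 : (0 : ℚ) < g := by exact_mod_cast hg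
        exact mul_pos h2 h1
      · intro κ' hκ' N1 ν1 N2 ν2 hN1 hN2 h1 h2
        have h0 := MFI_val_pos hκ'
        refine hstep κ' False (T.erase k) _ he1 he2 hκ'
          (Or.inr (Or.inr ⟨not_false, ⟨N1, ν1, N2, ν2⟩, rfl, hN1, hN2, h1, h2⟩)) ⟨?_, ?_⟩
        · change (0 : ℚ) < (ν1 : ℚ)
          rw [h1]
          have : (0 : ℚ) < N1 := by exact_mod_cast hN1
          positivity
        · change (0 : ℚ) < (ν2 : ℚ)
          rw [h2]
          have : (0 : ℚ) < N2 := by exact_mod_cast hN2
          positivity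
      · intro κ' h1 h2 h3
        exact Or.inl ⟨not_false, h1, h2, h3⟩
      · intro N hN h1
        exact Or.inr (Or.inl ⟨not_false, N, hN, rfl, h1⟩)
      · intro h1
        refine hstep 1 True (insert k T) _ hi1 hi2 (Or.inr (Or.inr (Or.inl ⟨trivial, rfl, h1⟩)))
          (Or.inl ⟨trivial, ?_⟩) ⟨?_, one_pos⟩
        · simp
        · simp
      · intro h1
        refine hstep 1 False (T.erase k) _ he1 he2 (Or.inr (Or.inr (Or.inr ⟨not_false, rfl, h1⟩)))
          (Or.inr (Or.inr ⟨not_false, ⟨1, 1, 1, 1⟩, rfl, one_pos, one_pos, ?_, ?_⟩)) ⟨?_, ?_⟩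
        · simp
        · simp
        · simp [toQ]
        · simp [toQ]
  exact main (List.finRange m) (List.nodup_finRange m) (fun _ => 0) ∅ S
    (fun k hk => absurd (List.mem_finRange k) hk) (fun k hk => absurd (List.mem_finRange k) hk) hS

end Pool.Agent.H56.CT
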