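import Pool.Agent.H56.CT.FDefs
import Pool.Agent.H22.T7.PFB

/-!
# FRM: functions of `u^n v`

`A = MvPowerSeries σ ℂ`, `Φ : A →ₐ[ℂ] A` with `Φ (X u) = X u ^ n * X v`, `Φ (X v) = 0`, `Φ (X j) = X j` otherwise (`substAlgHom`, constant coefficients `0`).
Coefficients: `coeff q (Φ g) = coeff ρ g` if `q u = n * q v`, with `ρ v = 0`, `ρ u = q v`, `ρ j = q j` otherwise; and `coeff q (Φ g) = 0` if `q u ≠ n * q v` (it may be convenient to DEFINE `Φ g` by this formula; it is additive, and multiplicative: for `q = q1 + q2` with both `q_i u = n q_i v`, ..; only the properties (a)-(c) below are used.  For `G` without `v` the element `Φ G` is the substitution in the theorem: `coeff_subst`, or: both `Φ'` := the substitution `subst (fun j => if j = u then X u ^ n * X v else X j)` and `Φ` are algebra homomorphisms, `Φ = Φ' ∘ κ`, where `κ` sets `X v = 0` and `κ G = G`).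
(a) `Φ` is a `ℂ`-algebra homomorphism.  (b) `pderiv u (Φ h) = n X u ^ (n-1) X v * Φ (pderiv u h)`, `pderiv v (Φ h) = X u ^ n * Φ (pderiv u h)`, `pderiv j (Φ h) = Φ (pderiv j h)` otherwise (chain rule; check on coefficients, or for monomials and by the argument with `Hi` in `Pool/Agent/H56/CT/SBB.lean`).
(c) Let `S` be the subalgebra of `Module.End ℂ A` generated by the `pderiv j`, `j ≠ v` (only `⊆ Diff A` and that its elements preserve the subspace `A0 = {h | ∀ ρ, coeff ρ h ≠ 0 → ρ v = 0}` are needed).  Claim: for every `D ∈ Diff A` there are finitely many `c_i ∈ A`, `E_i ∈ S` with `D (Φ h) = ∑ c_i * Φ (E_i h)` for all `h`.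
`Diff_ind`: `1`; sums; scalars; `mulLeft a * D`: `a * c_i`; `d * D` (`d` a derivation, `d y = ∑_j d (X j) * pderiv j y` (`dps`)): `d (c_i Φ (E_i h)) = (d c_i) Φ (E_i h) + c_i ∑_j d (X j) pderiv j (Φ (E_i h))` and (b).
For `B ∈ PF A`: `B c (Φ h) = ∑ i, c_i * Φ (E_i c h)` with finitely many `E_i`, polynomial families with values in `S` (`PF_iff`: `c ^ l • E`).
(d) `π : A → A`, linear: `coeff ρ (π g) = coeff ρ' g`, where `ρ' v = ρ u`, `ρ' u = M + n * ρ u`, `ρ' j = ρ j` otherwise, if `ρ v = 0`, and `coeff ρ (π g) = 0` if `ρ v ≠ 0`.  Claim: `π (c * Φ g) = π c * g` for `g ∈ A0`.  Coefficient of `ρ` with `ρ v = 0`: `∑_{q + q' = ρ'} coeff q c * coeff q' (Φ g)`, only `q' u = n q' v` contribute, then `q u = M + n (ρ u) - n (q' v) = M + n (q v)`, so the pairs `(q, q')` correspond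
to the pairs `(μ, μ')` with `μ + μ' = ρ`, `μ u = q v`, `μ' u = q' v`, and `coeff q c = coeff μ (π c)`, `coeff q' (Φ g) = coeff μ' g`.  (For `ρ v ≠ 0` both sides are `0`: `π c`, `g ∈ A0`.)  `π (X u ^ M * Φ g) = g` for `g ∈ A0` (`π (X u ^ M) = 1`).
(e) Let `B (k) ((Φ G)^(k+1)) = b(k) • (X u ^ M * (Φ G) ^ k)`.  Apply `π`: `∑ i, π (c_i) * (E_i k) (G^(k+1)) = b(k) • G ^ k` (`G^k`, `(E_i k) (G^(k+1)) ∈ A0`; `A0` is a subring).  `B' c = ∑ i, mulLeft (π c_i) * E_i c ∈ PF A`.
-/

set_option autoImplicit false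

namespace Pool.Agent.H56.CT

open Finset
open Pool.Agent.H22.T7

theorem FRM_hi1 {σ : Type} (g : MvPowerSeries σ ℂ) (h : MvPowerSeries.constantCoeff g = 0) :
    Hi 1 g := by
  intro ρ hρ
  by_contra hcon
  have h1 : ρ.degree = 0 := by omega
  rw [Finsupp.degree_eq_zero_iff] at h1
  apply hρ
  rw [h1, MvPowerSeries.coeff_zero_eq_constantCoeff_apply, h]

theorem FRM_zero {σ : Type} (g : MvPowerSeries σ ℂ) (h : ∀ N, Hi N g) : g = 0 := by
  ext ρ
  by_contra hne
  have h1 : MvPowerSeries.coeff ρ g ≠ 0 := hne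
  have h2 := h (ρ.degree + 1) ρ h1
  omega

theorem FRM_ind {σ : Type} [Fintype σ] [DecidableEq σ] (F : σ → MvPowerSeries σ ℂ)
    (E : MvPowerSeries σ ℂ → MvPowerSeries σ ℂ)
    (hadd : ∀ x y, E (x + y) = E x + E y) (hC : ∀ c : ℂ, E (MvPowerSeries.C c) = 0)
    (hX : ∀ j x, E (MvPowerSeries.X j * x) = F j * E x) (hF : ∀ j, Hi 1 (F j))
    (h : MvPowerSeries σ ℂ) : E h = 0 := by
  have h0 : E 0 = 0 := by
    have := hC 0
    rwa [map_zero] at this
  have hsum : ∀ (s : Finset σ) (f : σ → MvPowerSeries σ ℂ),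
      E (∑ i ∈ s, f i) = ∑ i ∈ s, E (f i) := by
    intro s f
    induction s using Finset.induction_on with
    | empty => simp [h0]
    | insert i s hi ih => rw [sum_insert hi, sum_insert hi, hadd, ih]
  apply FRM_zero
  intro N
  induction N generalizing h with
  | zero => exact Hi_zero _
  | succ N ih =>
    obtain ⟨g, -, hg⟩ := hi_dec 0 (h - MvPowerSeries.C (MvPowerSeries.constantCoeff h))
      (FRM_hi1 _ (by simp))
    have h2 : h = MvPowerSeries.C (MvPowerSeries.constantCoeff h) +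
        ∑ j, MvPowerSeries.X j * g j := by
      rw [← hg]
      ring
    rw [h2, hadd, hC, zero_add, hsum, add_comm N 1]
    refine Hi_sum _ _ fun j _ => ?_
    rw [hX]
    exact Hi_mul (hF j) (ih _)

/-- Setting `X v = 0`. -/
noncomputable def FRM_ka {σ : Type} (v : σ) : MvPowerSeries σ ℂ →ₗ[ℂ] MvPowerSeries σ ℂ where
  toFun g := fun ρ => if ρ v = 0 then MvPowerSeries.coeff ρ g else 0
  map_add' x y := by
    ext ρ
    show (if ρ v = 0 then MvPowerSeries.coeff ρ (x + y) else 0) =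
      (if ρ v = 0 then MvPowerSeries.coeff ρ x else 0) +
        (if ρ v = 0 then MvPowerSeries.coeff ρ y else 0)
    split_ifs
    · rw [map_add]
    · rw [add_zero]
  map_smul' c x := by
    ext ρ
    show (if ρ v = 0 then MvPowerSeries.coeff ρ (c • x) else 0) =
      c * (if ρ v = 0 then MvPowerSeries.coeff ρ x else 0)
    split_ifs
    · rw [MvPowerSeries.coeff_smul]
    · rw [mul_zero]

theorem FRM_ka_coeff {σ : Type} (v : σ) (g : MvPowerSeries σ ℂ) (ρ : σ →₀ ℕ) :
    MvPowerSeries.coeff ρ (FRM_ka v g) = if ρ v = 0 then MvPowerSeries.coeff ρ g else 0 := rfl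

/-- The shift of exponents. -/
noncomputable def FRM_sh {σ : Type} (u v : σ) (n M : ℕ) (ρ : σ →₀ ℕ) : σ →₀ ℕ :=
  (ρ.update v (ρ u)).update u (M + n * ρ u)

theorem FRM_sh_u {σ : Type} (u v : σ) (n M : ℕ) (ρ : σ →₀ ℕ) :
    FRM_sh u v n M ρ u = M + n * ρ u := by
  classical
  unfold FRM_sh
  simp

theorem FRM_sh_v {σ : Type} {u v : σ} (huv : u ≠ v) (n M : ℕ) (ρ : σ →₀ ℕ) :
    FRM_sh u v n M ρ v = ρ u := by
  classical
  unfold FRM_sh
  simp [Function.update_of_ne huv.symm]

theorem FRM_sh_j {σ : Type} {u v : σ} (n M : ℕ) (ρ : σ →₀ ℕ) {j : σ} (h1 : j ≠ u)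
    (h2 : j ≠ v) : FRM_sh u v n M ρ j = ρ j := by
  classical
  unfold FRM_sh
  simp [Function.update_of_ne h1, Function.update_of_ne h2]

/-- The projection. -/
noncomputable def FRM_pi {σ : Type} (u v : σ) (n M : ℕ) :
    MvPowerSeries σ ℂ →ₗ[ℂ] MvPowerSeries σ ℂ where
  toFun g := fun ρ => if ρ v = 0 then MvPowerSeries.coeff (FRM_sh u v n M ρ) g else 0
  map_add' x y := by
    ext ρ
    show (if ρ v = 0 then MvPowerSeries.coeff (FRM_sh u v n M ρ) (x + y) else 0) =
      (if ρ v = 0 then MvPowerSeries.coeff (FRM_sh u v n M ρ) x else 0) +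
        (if ρ v = 0 then MvPowerSeries.coeff (FRM_sh u v n M ρ) y else 0)
    split_ifs
    · rw [map_add]
    · rw [add_zero]
  map_smul' c x := by
    ext ρ
    show (if ρ v = 0 then MvPowerSeries.coeff (FRM_sh u v n M ρ) (c • x) else 0) =
      c * (if ρ v = 0 then MvPowerSeries.coeff (FRM_sh u v n M ρ) x else 0)
    split_ifs
    · rw [MvPowerSeries.coeff_smul]
    · rw [mul_zero]

theorem FRM_pi_coeff {σ : Type} (u v : σ) (n M : ℕ) (g : MvPowerSeries σ ℂ) (ρ : σ →₀ ℕ) :
    MvPowerSeries.coeff ρ (FRM_pi u v n M g) =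
      if ρ v = 0 then MvPowerSeries.coeff (FRM_sh u v n M ρ) g else 0 := rfl

theorem FRM_pi_mon {σ : Type} {u v : σ} (huv : u ≠ v) (n M : ℕ) {μ μ' : σ →₀ ℕ}
    (h1 : μ v = 0) (h2 : μ' u = n * μ u) (h3 : μ' v = μ u)
    (h4 : ∀ j, j ≠ u → j ≠ v → μ' j = μ j) (c : MvPowerSeries σ ℂ) :
    FRM_pi u v n M (c * MvPowerSeries.monomial μ' 1) =
      FRM_pi u v n M c * MvPowerSeries.monomial μ 1 := by
  classical
  ext ρ
  rw [FRM_pi_coeff, MvPowerSeries.coeff_mul_monomial, MvPowerSeries.coeff_mul_monomial,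
    FRM_pi_coeff]
  by_cases hv : ρ v = 0
  · rw [if_pos hv]
    have hiff : μ' ≤ FRM_sh u v n M ρ ↔ μ ≤ ρ := by
      constructor
      · intro h j
        by_cases hju : j = u
        · rw [hju, ← h3]
          have := h v
          rwa [FRM_sh_v huv] at this
        · by_cases hjv : j = v
          · rw [hjv, h1]
            exact Nat.zero_le _
          · have := h j
            rwa [FRM_sh_j n M ρ hju hjv, h4 j hju hjv] at this
      · intro h j
        by_cases hju : j = u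
        · rw [hju, FRM_sh_u, h2]
          have := Nat.mul_le_mul_left n (h u)
          omega
        · by_cases hjv : j = v
          · rw [hjv, FRM_sh_v huv, h3]
            exact h u
          · rw [FRM_sh_j n M ρ hju hjv, h4 j hju hjv]
            exact h j
    by_cases hle : μ ≤ ρ
    · rw [if_pos (hiff.2 hle), if_pos hle, if_pos (by rw [Finsupp.tsub_apply, hv]; simp)]
      congr 2
      congr 1
      ext j
      by_cases hju : j = u
      · rw [hju, FRM_sh_u, Finsupp.tsub_apply, Finsupp.tsub_apply, FRM_sh_u, h2]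
        have h5 := hle u
        obtain ⟨t, ht⟩ := Nat.exists_eq_add_of_le h5
        rw [ht, Nat.add_sub_cancel_left, Nat.mul_add]
        omega
      · by_cases hjv : j = v
        · rw [hjv, FRM_sh_v huv, Finsupp.tsub_apply, Finsupp.tsub_apply, FRM_sh_v huv, h3]
        · rw [FRM_sh_j n M _ hju hjv, Finsupp.tsub_apply, Finsupp.tsub_apply,
            FRM_sh_j n M _ hju hjv, h4 j hju hjv]
    · rw [if_neg (fun h => hle (hiff.1 h)), if_neg hle]
  · rw [if_neg hv]
    by_cases hle : μ ≤ ρ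
    · rw [if_pos hle, if_neg, zero_mul]
      rw [Finsupp.tsub_apply, h1]
      exact hv
    · rw [if_neg hle]

/-- No exponent contains `v`. -/
def FRM_A0 {σ : Type} (v : σ) (g : MvPowerSeries σ ℂ) : Prop :=
  ∀ ρ, MvPowerSeries.coeff ρ g ≠ 0 → ρ v = 0

theorem FRM_ka_A0 {σ : Type} {v : σ} {g : MvPowerSeries σ ℂ} (h : FRM_A0 v g) :
    FRM_ka v g = g := by
  ext ρ
  rw [FRM_ka_coeff]
  split_ifs with hv
  · rfl
  · by_contra hcon
    exact hv (h ρ (fun h0 => hcon h0.symm))

theorem FRM_ka_C {σ : Type} (v : σ) (c : ℂ) :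
    FRM_ka v (MvPowerSeries.C c : MvPowerSeries σ ℂ) = MvPowerSeries.C c := by
  classical
  apply FRM_ka_A0
  intro ρ hρ
  rw [MvPowerSeries.coeff_C] at hρ
  by_contra hcon
  apply hρ
  rw [if_neg]
  rintro rfl
  exact hcon rfl

theorem FRM_ka_X {σ : Type} {v j : σ} (hj : j ≠ v) (x : MvPowerSeries σ ℂ) :
    FRM_ka v (MvPowerSeries.X j * x) = MvPowerSeries.X j * FRM_ka v x := by
  classical
  ext ρ
  rw [FRM_ka_coeff, MvPowerSeries.X_def, MvPowerSeries.coeff_monomial_mul,
    MvPowerSeries.coeff_monomial_mul, FRM_ka_coeff]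
  have e : (ρ - Finsupp.single j 1 : σ →₀ ℕ) v = ρ v := by
    rw [Finsupp.tsub_apply, Finsupp.single_eq_of_ne hj.symm, Nat.sub_zero]
  rw [e]
  split_ifs <;> simp

theorem FRM_ka_v {σ : Type} {v : σ} (x : MvPowerSeries σ ℂ) :
    FRM_ka v (MvPowerSeries.X v * x) = 0 := by
  classical
  ext ρ
  rw [FRM_ka_coeff, MvPowerSeries.X_def, MvPowerSeries.coeff_monomial_mul, map_zero]
  split_ifs with h1 h2
  · have := h2 v
    rw [Finsupp.single_eq_same, h1] at this
    omega
  · rfl
  · rfl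

theorem FRM_A0_one {σ : Type} (v : σ) : FRM_A0 v (1 : MvPowerSeries σ ℂ) := by
  classical
  intro ρ hρ
  rw [MvPowerSeries.coeff_one] at hρ
  by_contra hcon
  apply hρ
  rw [if_neg]
  rintro rfl
  exact hcon rfl

theorem FRM_A0_mul {σ : Type} {v : σ} {g h : MvPowerSeries σ ℂ} (hg : FRM_A0 v g)
    (hh : FRM_A0 v h) : FRM_A0 v (g * h) := by
  classical
  intro ρ hρ
  rw [MvPowerSeries.coeff_mul] at hρ
  obtain ⟨p, hp, hne⟩ := Finset.exists_ne_zero_of_sum_ne_zero hρ
  rw [HasAntidiagonal.mem_antidiagonal] at hp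
  rw [← hp, Finsupp.add_apply, hg _ (left_ne_zero_of_mul hne), hh _ (right_ne_zero_of_mul hne)]

theorem FRM_A0_pow {σ : Type} {v : σ} {g : MvPowerSeries σ ℂ} (hg : FRM_A0 v g) (k : ℕ) :
    FRM_A0 v (g ^ k) := by
  induction k with
  | zero => rw [pow_zero]; exact FRM_A0_one v
  | succ k ih => rw [pow_succ]; exact FRM_A0_mul ih hg

theorem FRM_A0_pd {σ : Type} {v : σ} {g : MvPowerSeries σ ℂ} (hg : FRM_A0 v g) (j : σ) :
    FRM_A0 v (MvPowerSeries.pderiv ℂ j g) := by
  classical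
  intro ρ hρ
  rw [MvPowerSeries.coeff_pderiv] at hρ
  have h1 := hg _ (left_ne_zero_of_mul hρ)
  rw [Finsupp.add_apply] at h1
  omega

section

variable {σ : Type} [Fintype σ] [DecidableEq σ]
  (F : MvPowerSeries σ ℂ →ₐ[ℂ] MvPowerSeries σ ℂ)

omit [Fintype σ] [DecidableEq σ] in
theorem FRM_FC (c : ℂ) : F (MvPowerSeries.C c) = MvPowerSeries.C c := F.commutes c

/-- The chain rule. -/
theorem FRM_chain (hF : ∀ j, Hi 1 (F (MvPowerSeries.X j)))
    (δ : Derivation ℂ (MvPowerSeries σ ℂ) (MvPowerSeries σ ℂ)) (h : MvPowerSeries σ ℂ) :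
    δ (F h) = ∑ i, δ (F (MvPowerSeries.X i)) * F (MvPowerSeries.pderiv ℂ i h) := by
  have h3 := FRM_ind (fun j => F (MvPowerSeries.X j))
    (fun h => δ (F h) - ∑ i, δ (F (MvPowerSeries.X i)) * F (MvPowerSeries.pderiv ℂ i h))
    (fun x y => by
      simp only [map_add, mul_add, sum_add_distrib]
      ring)
    (fun c => by
      have e1 : δ (MvPowerSeries.C c) = 0 := δ.map_algebraMap c
      have e2 : ∀ i, MvPowerSeries.pderiv ℂ i (MvPowerSeries.C c : MvPowerSeries σ ℂ) = 0 :=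
        fun i => MvPowerSeries.pderiv_C
      simp only [FRM_FC, e1, e2, map_zero, mul_zero, sum_const_zero, sub_zero])
    (fun j x => by
      have e1 : ∀ i, F (MvPowerSeries.pderiv ℂ i (MvPowerSeries.X j * x)) =
          F (MvPowerSeries.X j) * F (MvPowerSeries.pderiv ℂ i x) +
            F x * (if i = j then 1 else 0) := by
        intro i
        rw [Derivation.leibniz, smul_eq_mul, smul_eq_mul, map_add, map_mul, map_mul]
        congr 2
        by_cases hij : i = j
        · rw [if_pos hij, hij, MvPowerSeries.pderiv_X_self, map_one]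
        · rw [if_neg hij, MvPowerSeries.pderiv_X_of_ne (fun h => hij h.symm), map_zero]
      simp only [e1, mul_add, sum_add_distrib]
      have e2 : ∑ i, δ (F (MvPowerSeries.X i)) * (F x * (if i = j then 1 else 0)) =
          δ (F (MvPowerSeries.X j)) * F x := by
        rw [Finset.sum_eq_single j]
        · rw [if_pos rfl, mul_one]
        · intro i _ hij
          rw [if_neg hij, mul_zero, mul_zero]
        · intro hj
          exact absurd (Finset.mem_univ j) hj
      have e3 : ∑ i, δ (F (MvPowerSeries.X i)) *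
          (F (MvPowerSeries.X j) * F (MvPowerSeries.pderiv ℂ i x)) =
          F (MvPowerSeries.X j) * ∑ i, δ (F (MvPowerSeries.X i)) *
            F (MvPowerSeries.pderiv ℂ i x) := by
        rw [mul_sum]
        exact sum_congr rfl fun i _ => by ring
      rw [e2, e3, map_mul, Derivation.leibniz, smul_eq_mul, smul_eq_mul]
      ring) hF h
  exact sub_eq_zero.1 h3

/-- The span of the operators `h ↦ c * F (E h)`. -/
noncomputable def FRM_T (v : σ) : Submodule ℂ (Module.End ℂ (MvPowerSeries σ ℂ)) :=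
  Submodule.span ℂ {L | ∃ (c : MvPowerSeries σ ℂ), ∃ E ∈ Diff (MvPowerSeries σ ℂ),
    (∀ g, FRM_A0 v g → FRM_A0 v (E g)) ∧
      L = LinearMap.mulLeft ℂ c * F.toLinearMap * E}

omit [Fintype σ] [DecidableEq σ] in
theorem FRM_T_mem (v : σ) (c : MvPowerSeries σ ℂ) {E : Module.End ℂ (MvPowerSeries σ ℂ)}
    (hE : E ∈ Diff (MvPowerSeries σ ℂ)) (hE2 : ∀ g, FRM_A0 v g → FRM_A0 v (E g)) :
    LinearMap.mulLeft ℂ c * F.toLinearMap * E ∈ FRM_T F v :=
  Submodule.subset_span ⟨c, E, hE, hE2, rfl⟩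

omit [Fintype σ] [DecidableEq σ] in
theorem FRM_T_mul (v : σ) (a : MvPowerSeries σ ℂ) {L : Module.End ℂ (MvPowerSeries σ ℂ)}
    (hL : L ∈ FRM_T F v) : LinearMap.mulLeft ℂ a * L ∈ FRM_T F v := by
  unfold FRM_T at hL
  induction hL using Submodule.span_induction with
  | mem L hL =>
    obtain ⟨c, E, hE, hE2, rfl⟩ := hL
    have : LinearMap.mulLeft ℂ a * (LinearMap.mulLeft ℂ c * F.toLinearMap * E) =
        LinearMap.mulLeft ℂ (a * c) * F.toLinearMap * E := by
      ext1 x
      show a * (c * F (E x)) = a * c * F (E x)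
      ring
    rw [this]
    exact FRM_T_mem F v _ hE hE2
  | zero => rw [mul_zero]; exact Submodule.zero_mem _
  | add x y _ _ hx hy => rw [mul_add]; exact Submodule.add_mem _ hx hy
  | smul c x _ hx => rw [mul_smul_comm]; exact Submodule.smul_mem _ _ hx

theorem FRM_T_der (hF : ∀ j, Hi 1 (F (MvPowerSeries.X j))) (v : σ)
    (δ : Derivation ℂ (MvPowerSeries σ ℂ) (MvPowerSeries σ ℂ))
    {L : Module.End ℂ (MvPowerSeries σ ℂ)}
    (hL : L ∈ FRM_T F v) : δ.toLinearMap * L ∈ FRM_T F v := by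
  unfold FRM_T at hL
  induction hL using Submodule.span_induction with
  | mem L hL =>
    obtain ⟨c, E, hE, hE2, rfl⟩ := hL
    have : δ.toLinearMap * (LinearMap.mulLeft ℂ c * F.toLinearMap * E) =
        LinearMap.mulLeft ℂ (δ c) * F.toLinearMap * E +
        ∑ i, LinearMap.mulLeft ℂ (c * δ (F (MvPowerSeries.X i))) * F.toLinearMap *
          ((MvPowerSeries.pderiv ℂ i : Derivation ℂ (MvPowerSeries σ ℂ)
            (MvPowerSeries σ ℂ)).toLinearMap * E) := by
      ext1 x
      rw [LinearMap.add_apply, LinearMap.sum_apply]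
      show δ (c * F (E x)) = δ c * F (E x) +
        ∑ i, (c * δ (F (MvPowerSeries.X i))) * F (MvPowerSeries.pderiv ℂ i (E x))
      rw [Derivation.leibniz, smul_eq_mul, smul_eq_mul, FRM_chain F hF δ (E x), mul_sum]
      have : ∀ i, c * (δ (F (MvPowerSeries.X i)) * F (MvPowerSeries.pderiv ℂ i (E x))) =
          (c * δ (F (MvPowerSeries.X i))) * F (MvPowerSeries.pderiv ℂ i (E x)) :=
        fun i => by ring
      simp only [this]
      ring
    rw [this]
    refine Submodule.add_mem _ (FRM_T_mem F v _ hE hE2) (Submodule.sum_mem _ fun i _ => ?_)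
    exact FRM_T_mem F v _ (mul_mem (der_mem _) hE) fun g hg => FRM_A0_pd (hE2 g hg) i
  | zero => rw [mul_zero]; exact Submodule.zero_mem _
  | add x y _ _ hx hy => rw [mul_add]; exact Submodule.add_mem _ hx hy
  | smul c x _ hx => rw [mul_smul_comm]; exact Submodule.smul_mem _ _ hx

theorem FRM_T_all (hF : ∀ j, Hi 1 (F (MvPowerSeries.X j))) (v : σ) :
    ∀ D ∈ Diff (MvPowerSeries σ ℂ), D * F.toLinearMap ∈ FRM_T F v := by
  refine Diff_ind (P := fun D => D * F.toLinearMap ∈ FRM_T F v) ?_ ?_ ?_ ?_ ?_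
  · have h := FRM_T_mem F v 1 (one_mem (Diff (MvPowerSeries σ ℂ))) (fun g hg => hg)
    have e : LinearMap.mulLeft ℂ (1 : MvPowerSeries σ ℂ) * F.toLinearMap * 1 =
        1 * F.toLinearMap := by
      ext1 x
      show 1 * F x = F x
      rw [one_mul]
    rwa [e] at h
  · intro D E h1 h2
    rw [add_mul]
    exact Submodule.add_mem _ h1 h2
  · intro c D h1
    rw [smul_mul_assoc]
    exact Submodule.smul_mem _ _ h1
  · intro a D h1
    rw [mul_assoc]
    exact FRM_T_mul F v a h1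
  · intro δ D h1
    rw [mul_assoc]
    exact FRM_T_der F hF v δ h1

end

section

variable {σ : Type} [Fintype σ] [DecidableEq σ] {u v : σ} {n : ℕ}
  {F : MvPowerSeries σ ℂ →ₐ[ℂ] MvPowerSeries σ ℂ}

omit [Fintype σ] in
theorem FRM_pX (huv : u ≠ v) (M : ℕ)
    (hFu : F (MvPowerSeries.X u) = MvPowerSeries.X u ^ n * MvPowerSeries.X v)
    (hFj : ∀ j, j ≠ u → F (MvPowerSeries.X j) = MvPowerSeries.X j) (c : MvPowerSeries σ ℂ)
    {j : σ} (hj : j ≠ v) :
    FRM_pi u v n M (c * F (MvPowerSeries.X j)) = FRM_pi u v n M c * MvPowerSeries.X j := by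
  by_cases hju : j = u
  · subst hju
    rw [hFu, MvPowerSeries.X_pow_eq, MvPowerSeries.X_def, MvPowerSeries.X_def,
      MvPowerSeries.monomial_mul_monomial, one_mul]
    apply FRM_pi_mon huv
    · rw [Finsupp.single_eq_of_ne huv.symm]
    · rw [Finsupp.add_apply, Finsupp.single_eq_same, Finsupp.single_eq_same,
        Finsupp.single_eq_of_ne huv, mul_one, add_zero]
    · rw [Finsupp.add_apply, Finsupp.single_eq_same, Finsupp.single_eq_same,
        Finsupp.single_eq_of_ne huv.symm, zero_add]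
    · intro i h1 h2
      rw [Finsupp.add_apply, Finsupp.single_eq_of_ne h1, Finsupp.single_eq_of_ne h2,
        Finsupp.single_eq_of_ne h1, add_zero]
  · rw [hFj j hju, MvPowerSeries.X_def]
    apply FRM_pi_mon huv
    · rw [Finsupp.single_eq_of_ne hj.symm]
    · rw [Finsupp.single_eq_of_ne (fun h => hju h.symm), mul_zero]
    · rw [Finsupp.single_eq_of_ne hj.symm, Finsupp.single_eq_of_ne (fun h => hju h.symm)]
    · intro i _ _
      rfl

theorem FRM_pif (huv : u ≠ v) (M : ℕ)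
    (hFu : F (MvPowerSeries.X u) = MvPowerSeries.X u ^ n * MvPowerSeries.X v)
    (hFj : ∀ j, j ≠ u → F (MvPowerSeries.X j) = MvPowerSeries.X j) (c g : MvPowerSeries σ ℂ) :
    FRM_pi u v n M (c * F (FRM_ka v g)) = FRM_pi u v n M c * FRM_ka v g := by
  have h3 := FRM_ind (fun j => if j = v then 0 else MvPowerSeries.X j)
    (fun g => FRM_pi u v n M (c * F (FRM_ka v g)) - FRM_pi u v n M c * FRM_ka v g)
    (fun x y => by
      simp only [map_add, mul_add]
      ring)
    (fun r => by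
      show FRM_pi u v n M (c * F (FRM_ka v (MvPowerSeries.C r))) -
        FRM_pi u v n M c * FRM_ka v (MvPowerSeries.C r) = 0
      rw [FRM_ka_C, FRM_FC, mul_comm c, ← MvPowerSeries.smul_eq_C_mul, map_smul,
        MvPowerSeries.smul_eq_C_mul]
      ring)
    (fun j x => by
      show FRM_pi u v n M (c * F (FRM_ka v (MvPowerSeries.X j * x))) -
        FRM_pi u v n M c * FRM_ka v (MvPowerSeries.X j * x) =
        (if j = v then 0 else MvPowerSeries.X j) *
        (FRM_pi u v n M (c * F (FRM_ka v x)) - FRM_pi u v n M c * FRM_ka v x)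
      by_cases hj : j = v
      · rw [if_pos hj, hj, FRM_ka_v, map_zero, mul_zero, map_zero]
        ring
      · rw [if_neg hj, FRM_ka_X hj, map_mul F]
        have e : c * (F (MvPowerSeries.X j) * F (FRM_ka v x)) =
            (c * F (FRM_ka v x)) * F (MvPowerSeries.X j) := by ring
        rw [e, FRM_pX huv M hFu hFj _ hj]
        ring)
    (fun j => by
      show Hi 1 (if j = v then 0 else MvPowerSeries.X j)
      split_ifs
      · exact FRM_hi1 _ (map_zero _)
      · exact FRM_hi1 _ (MvPowerSeries.constantCoeff_X _)) g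
  exact sub_eq_zero.1 h3

theorem FRM_Q (huv : u ≠ v) (M : ℕ)
    (hFu : F (MvPowerSeries.X u) = MvPowerSeries.X u ^ n * MvPowerSeries.X v)
    (hFj : ∀ j, j ≠ u → F (MvPowerSeries.X j) = MvPowerSeries.X j)
    {L : Module.End ℂ (MvPowerSeries σ ℂ)} (hL : L ∈ FRM_T F v) :
    ∃ D' ∈ Diff (MvPowerSeries σ ℂ), ∀ g, FRM_A0 v g → FRM_pi u v n M (L g) = D' g := by
  unfold FRM_T at hL
  induction hL using Submodule.span_induction with
  | mem L hL =>
    obtain ⟨c, E, hE, hE2, rfl⟩ := hL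
    refine ⟨LinearMap.mulLeft ℂ (FRM_pi u v n M c) * E, mul_mem (mulLeft_mem _) hE, ?_⟩
    intro g hg
    show FRM_pi u v n M (c * F (E g)) = FRM_pi u v n M c * E g
    have h1 := FRM_pif huv M hFu hFj c (E g)
    rwa [FRM_ka_A0 (hE2 g hg)] at h1
  | zero =>
    refine ⟨0, zero_mem _, fun g _ => ?_⟩
    rw [LinearMap.zero_apply, map_zero]
  | add x y _ _ hx hy =>
    obtain ⟨D1, h1, h1'⟩ := hx
    obtain ⟨D2, h2, h2'⟩ := hy
    refine ⟨D1 + D2, add_mem h1 h2, fun g hg => ?_⟩
    rw [LinearMap.add_apply, map_add, h1' g hg, h2' g hg, LinearMap.add_apply]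
  | smul c x _ hx =>
    obtain ⟨D1, h1, h1'⟩ := hx
    refine ⟨c • D1, (Diff _).smul_mem h1 c, fun g hg => ?_⟩
    rw [LinearMap.smul_apply, map_smul, h1' g hg, LinearMap.smul_apply]

end

theorem FRM_piX {σ : Type} {u v : σ} (huv : u ≠ v) (n M : ℕ) :
    FRM_pi u v n M (MvPowerSeries.X u ^ M) = 1 := by
  classical
  ext ρ
  rw [FRM_pi_coeff, MvPowerSeries.coeff_X_pow, MvPowerSeries.coeff_one]
  by_cases h : ρ = 0
  · subst h
    rw [if_pos rfl, if_pos (show (0 : σ →₀ ℕ) v = 0 from rfl), if_pos]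
    ext j
    by_cases hju : j = u
    · rw [hju, FRM_sh_u, Finsupp.single_eq_same]
      simp
    · by_cases hjv : j = v
      · rw [hjv, FRM_sh_v huv, Finsupp.single_eq_of_ne huv.symm]
        rfl
      · rw [FRM_sh_j n M _ hju hjv, Finsupp.single_eq_of_ne hju]
        rfl
  · rw [if_neg h]
    split_ifs with hv hs
    · exfalso
      apply h
      ext j
      by_cases hju : j = u
      · have := DFunLike.congr_fun hs v
        rw [FRM_sh_v huv, Finsupp.single_eq_of_ne huv.symm] at this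
        rw [hju, this]
        rfl
      · by_cases hjv : j = v
        · rw [hjv, hv]
          rfl
        · have := DFunLike.congr_fun hs j
          rw [FRM_sh_j n M _ hju hjv, Finsupp.single_eq_of_ne hju] at this
          rw [this]
          rfl
    · rfl
    · rfl

/-- FRM -/
theorem frm {σ : Type} [Fintype σ] [DecidableEq σ] (u v : σ) (huv : u ≠ v) (n : ℕ)
    (G : MvPowerSeries σ ℂ) (hG : ∀ ρ, MvPowerSeries.coeff ρ G ≠ 0 → ρ v = 0) (M : ℕ)
    (b : Polynomial ℂ)
    (h : FEqV (MvPowerSeries σ ℂ)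
      (MvPowerSeries.subst (fun j => if j = u then
        (MvPowerSeries.X u ^ n * MvPowerSeries.X v : MvPowerSeries σ ℂ)
        else MvPowerSeries.X j) G) (MvPowerSeries.X u ^ M) b) :
    FEq (MvPowerSeries σ ℂ) G b := by
  have hcc : ∀ j, MvPowerSeries.constantCoeff ((fun j => if j = u then
      (MvPowerSeries.X u ^ n * MvPowerSeries.X v : MvPowerSeries σ ℂ)
        else MvPowerSeries.X j) j) = 0 := by
    intro j
    by_cases hj : j = u
    · simp [hj]
    · simp [hj]
  have hs := MvPowerSeries.hasSubst_of_constantCoeff_zero hcc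
  obtain ⟨F, hFG, hFX⟩ : ∃ F : MvPowerSeries σ ℂ →ₐ[ℂ] MvPowerSeries σ ℂ,
      (∀ g, F g = MvPowerSeries.subst (fun j => if j = u then
        (MvPowerSeries.X u ^ n * MvPowerSeries.X v : MvPowerSeries σ ℂ)
        else MvPowerSeries.X j) g) ∧ ∀ j, F (MvPowerSeries.X j) = if j = u then
        (MvPowerSeries.X u ^ n * MvPowerSeries.X v : MvPowerSeries σ ℂ)
        else MvPowerSeries.X j := by
    refine ⟨MvPowerSeries.substAlgHom hs, fun g => ?_, fun j => ?_⟩
    · rw [MvPowerSeries.coe_substAlgHom]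
    · rw [MvPowerSeries.substAlgHom_X]
  have hFu : F (MvPowerSeries.X u) = MvPowerSeries.X u ^ n * MvPowerSeries.X v := by
    rw [hFX, if_pos rfl]
  have hFj : ∀ j, j ≠ u → F (MvPowerSeries.X j) = MvPowerSeries.X j := by
    intro j hj
    rw [hFX, if_neg hj]
  have hF1 : ∀ j, Hi 1 (F (MvPowerSeries.X j)) := by
    intro j
    apply FRM_hi1
    rw [hFX]
    exact hcc j
  rw [← hFG] at h
  obtain ⟨B, hB, hBk⟩ := h
  obtain ⟨d, D, hD, hDc⟩ := (PF_iff B).1 hB
  choose D' hD' hD'' using fun i => FRM_Q huv M hFu hFj (FRM_T_all F hF1 v (D i) (hD i))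
  refine ⟨fun c => ∑ i : Fin d, c ^ (i : ℕ) • D' i, (PF_iff _).2 ⟨d, D', hD', fun _ => rfl⟩, ?_⟩
  intro k
  have h1 := congrArg (FRM_pi u v n M) (hBk k)
  have h2 := FRM_pif (F := F) huv M hFu hFj (MvPowerSeries.X u ^ M) (G ^ k)
  rw [FRM_ka_A0 (FRM_A0_pow hG k), FRM_piX huv, map_pow] at h2
  rw [map_smul, h2, hDc, LinearMap.sum_apply, map_sum, ← map_pow] at h1
  rw [← h1, LinearMap.sum_apply]
  refine Finset.sum_congr rfl fun i _ => ?_
  rw [LinearMap.smul_apply, LinearMap.smul_apply, map_smul]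
  congr 1
  exact (hD'' i _ (FRM_A0_pow hG (k + 1))).symm

end Pool.Agent.H56.CT
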