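import Pool.Agent.H56.CT.FPB
import Pool.Agent.H56.CT.FRM

/-!
# FGI: simplification of the germs

`fstep`.  First case: `update F k0 (F k0) = F`.  Third case (`Node`): `nodp`, `fpb` with `e = 0`: `M = 0`, `X ^ 0 = 1`, `FEq` is `FEqV .. 1`.
Second case: `spf` gives `Path (F k0) ((U ^ n * V) ^ N) a' 0 X Y`, `fpb` gives `FEqV (GC a κ (update F k0 ((U ^ n * V) ^ N))) (X (k0,0) ^ M) b`.  With `u = (k0, 0)`, `v = (k0, 1)`, `G = GC a κ (update F k0 (U ^ N))`:
`GC a κ (update F k0 ((U ^ n * V) ^ N)) = subst (fun j => if j = u then X u ^ n * X v else X j) G`: the substitution is an algebra homomorphism (`substAlgHom`, constant coefficients `0`), it fixes `rename (l, ·) h` for `l ≠ k0` (`rename_eq_subst`, `MvPowerSeries.subst_comp_subst_apply`), and maps `rename (k0, ·) (U ^ N) = X u ^ N` to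
`(X u ^ n * X v) ^ N = rename (k0, ·) ((U ^ n * V) ^ N)`.  The exponents `ρ` of `G` satisfy `ρ (k0, 1) = 0`: the set `A0` of series with this property is closed under sums, products, contains constants, `X (k0, 0)`, and `rename (l, ·) h` for `l ≠ k0` (`ext_coeff_out` in `Pool/Agent/H22/T7/EXT.lean`, or `coeff_rename_eq_zero`).  `frm`.
`fgi`: claim for every finset `s`: `FEq (GC a κ (fun k => if k ∈ s then Fs k else f k)) b`; `Finset.induction_on`, `fstep` (`fun k => if k ∈ insert k0 s then Fs k else f k = update (fun k => if k ∈ s ..) k0 (Fs k0)`).  `s = univ`.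
-/

set_option autoImplicit false

namespace Pool.Agent.H56.CT

open Finset
open Pool.Agent.H22.T7

/-- The series without the variable `v`. -/
private def FGI_A0 {σ : Type} (v : σ) : Subalgebra ℂ (MvPowerSeries σ ℂ) where
  carrier := {g | ∀ ρ, MvPowerSeries.coeff ρ g ≠ 0 → ρ v = 0}
  mul_mem' := by
    classical
    intro g h hg hh ρ hρ
    rw [MvPowerSeries.coeff_mul] at hρ
    obtain ⟨p, hp, hne⟩ := Finset.exists_ne_zero_of_sum_ne_zero hρ
    rw [Finset.HasAntidiagonal.mem_antidiagonal] at hp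
    rw [← hp, Finsupp.add_apply, hg p.1 (left_ne_zero_of_mul hne),
      hh p.2 (right_ne_zero_of_mul hne)]
  add_mem' := by
    intro g h hg hh ρ hρ
    rw [map_add] at hρ
    by_cases h1 : MvPowerSeries.coeff ρ g = 0
    · rw [h1, zero_add] at hρ
      exact hh ρ hρ
    · exact hg ρ h1
  algebraMap_mem' := by
    classical
    intro c ρ hρ
    have h1 : (algebraMap ℂ (MvPowerSeries σ ℂ) c) = MvPowerSeries.C c := rfl
    rw [h1, MvPowerSeries.coeff_C] at hρ
    split_ifs at hρ with h2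
    · rw [h2]; rfl
    · exact absurd rfl hρ

private theorem FGI_C {σ : Type} (v : σ) (c : ℂ) :
    (MvPowerSeries.C c : MvPowerSeries σ ℂ) ∈ FGI_A0 v :=
  (FGI_A0 v).algebraMap_mem c

private theorem FGI_X {σ : Type} [DecidableEq σ] (u v : σ) (h : u ≠ v) :
    (MvPowerSeries.X u : MvPowerSeries σ ℂ) ∈ FGI_A0 v := by
  intro ρ hρ
  rw [MvPowerSeries.coeff_X] at hρ
  split_ifs at hρ with h2
  · rw [h2, Finsupp.single_apply, if_neg h]
  · exact absurd rfl hρ

private theorem FGI_ren {m : ℕ} (k k0 : Fin m) (hk : k ≠ k0) (g : R2) :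
    MvPowerSeries.rename (fun δ : Fin 2 => (k, δ)) g ∈
      FGI_A0 ((k0, 1) : Fin m × Fin 2) := by
  intro ρ hρ
  by_contra h1
  apply hρ
  exact ext_coeff_out (⟨fun δ : Fin 2 => (k, δ), fun x y h => (Prod.mk.inj h).2⟩ :
    Fin 2 ↪ Fin m × Fin 2) g ρ (k0, 1) (by
      rintro ⟨δ, hδ⟩
      exact hk (Prod.mk.inj hδ).1) h1

private theorem FGI_mem {m r : ℕ} (a : Fin r → (Fin m →₀ ℕ)) (κ : Fin r → ℂ) (F : Fin m → R2)
    (k0 : Fin m) (N : ℕ) :
    GC a κ (Function.update F k0 (U ^ N)) ∈ FGI_A0 ((k0, 1) : Fin m × Fin 2) := by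
  unfold GC
  refine sum_mem fun i _ => mul_mem (FGI_C _ _) (prod_mem fun k _ => pow_mem ?_ _)
  by_cases hk : k = k0
  · subst hk
    rw [Function.update_self, map_pow, MvPowerSeries.rename_X]
    exact pow_mem (FGI_X _ _ (by simp)) _
  · exact FGI_ren k k0 hk _

private theorem FGI_subst {m r : ℕ} (a : Fin r → (Fin m →₀ ℕ)) (κ : Fin r → ℂ)
    (F : Fin m → R2) (k0 : Fin m) (n N : ℕ) :
    MvPowerSeries.subst (fun j : Fin m × Fin 2 => if j = (k0, 0) then
        (MvPowerSeries.X (k0, 0) ^ n * MvPowerSeries.X (k0, 1) :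
          MvPowerSeries (Fin m × Fin 2) ℂ)
        else MvPowerSeries.X j) (GC a κ (Function.update F k0 (U ^ N))) =
      GC a κ (Function.update F k0 ((U ^ n * V) ^ N)) := by
  set s : Fin m × Fin 2 → MvPowerSeries (Fin m × Fin 2) ℂ := fun j => if j = (k0, 0) then
        (MvPowerSeries.X (k0, 0) ^ n * MvPowerSeries.X (k0, 1) :
          MvPowerSeries (Fin m × Fin 2) ℂ)
        else MvPowerSeries.X j with hs
  have hS : MvPowerSeries.HasSubst s := by
    apply MvPowerSeries.hasSubst_of_constantCoeff_zero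
    intro j
    simp only [hs]
    split_ifs
    · rw [map_mul, MvPowerSeries.constantCoeff_X, mul_zero]
    · exact MvPowerSeries.constantCoeff_X j
  have hco : ∀ g, MvPowerSeries.subst s g =
      (MvPowerSeries.substAlgHom (R := ℂ) hS) g := fun g => by
    rw [MvPowerSeries.coe_substAlgHom]
  have hfix : ∀ k : Fin m, k ≠ k0 → ∀ g : R2,
      (MvPowerSeries.substAlgHom (R := ℂ) hS) (MvPowerSeries.rename (fun δ : Fin 2 => (k, δ)) g) =
        MvPowerSeries.rename (fun δ : Fin 2 => (k, δ)) g := by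
    intro k hk g
    have e1 : MvPowerSeries.rename (fun δ : Fin 2 => (k, δ)) g =
        MvPowerSeries.subst ((MvPowerSeries.X : Fin m × Fin 2 → MvPowerSeries (Fin m × Fin 2) ℂ) ∘
          (fun δ : Fin 2 => (k, δ))) g := MvPowerSeries.rename_eq_subst _ g
    have hX : MvPowerSeries.HasSubst
        ((MvPowerSeries.X : Fin m × Fin 2 → MvPowerSeries (Fin m × Fin 2) ℂ) ∘
          (fun δ : Fin 2 => (k, δ))) := by
      apply MvPowerSeries.hasSubst_of_constantCoeff_zero
      intro δ
      exact MvPowerSeries.constantCoeff_X _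
    rw [← hco]
    conv_lhs => rw [e1]
    rw [MvPowerSeries.subst_comp_subst_apply hX hS, e1]
    congr 1
    funext δ
    rw [Function.comp_apply, MvPowerSeries.subst_X hS]
    simp only [hs]
    rw [if_neg]
    intro h
    exact hk (Prod.mk.inj h).1
  rw [hco]
  unfold GC
  rw [map_sum]
  refine sum_congr rfl fun i _ => ?_
  have hC : (MvPowerSeries.substAlgHom (R := ℂ) hS) (MvPowerSeries.C (κ i)) =
      MvPowerSeries.C (κ i) := (MvPowerSeries.substAlgHom (R := ℂ) hS).commutes (κ i)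
  rw [map_mul, hC, map_prod]
  congr 1
  refine prod_congr rfl fun k _ => ?_
  rw [map_pow]
  congr 1
  by_cases hk : k = k0
  · subst hk
    rw [Function.update_self, Function.update_self, map_pow, MvPowerSeries.rename_X, map_pow,
      map_pow, map_mul, map_pow, MvPowerSeries.rename_X, MvPowerSeries.rename_X,
      MvPowerSeries.substAlgHom_X]
    simp only [hs, if_true]
  · rw [Function.update_of_ne hk, Function.update_of_ne hk, hfix k hk]

theorem fstep {m r : ℕ} (a : Fin r → (Fin m →₀ ℕ)) (κ : Fin r → ℂ) (F : Fin m → R2)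
    (k0 : Fin m) (g : R2) (hg : g = F k0 ∨ (∃ N : ℕ, 0 < N ∧ g = U ^ N ∧ SpD (F k0) N) ∨
      (g = U * V ∧ Node (F k0))) (b : Polynomial ℂ)
    (h : FEq (MvPowerSeries (Fin m × Fin 2) ℂ) (GC a κ F) b) :
    FEq (MvPowerSeries (Fin m × Fin 2) ℂ) (GC a κ (Function.update F k0 g)) b := by
  rcases hg with hg | ⟨N, hN, hg, hsp⟩ | ⟨hg, hno⟩
  · rw [hg, Function.update_eq_self]
    exact h
  · obtain ⟨n, a', X, Y, hp⟩ := spf hN hsp
    obtain ⟨M, -, hF⟩ := fpb a κ F k0 hp b h
    rw [hg]
    apply frm ((k0, 0) : Fin m × Fin 2) (k0, 1) (by simp) n _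
      (fun ρ hρ => FGI_mem a κ F k0 N ρ hρ) M b
    rw [FGI_subst]
    exact hF
  · obtain ⟨X, Y, hp⟩ := nodp hno
    obtain ⟨M, hM, hF⟩ := fpb a κ F k0 hp b h
    rw [hM rfl, pow_zero] at hF
    rw [hg]
    exact hF

/-- FGI -/
theorem fgi {m r : ℕ} (a : Fin r → (Fin m →₀ ℕ)) (κ : Fin r → ℂ) (f Fs : Fin m → R2)
    (hs : ∀ k, Fs k = f k ∨ (∃ N : ℕ, 0 < N ∧ Fs k = U ^ N ∧ SpD (f k) N) ∨
      (Fs k = U * V ∧ Node (f k))) (b : Polynomial ℂ)
    (h : FEq (MvPowerSeries (Fin m × Fin 2) ℂ) (GC a κ f) b) :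
    FEq (MvPowerSeries (Fin m × Fin 2) ℂ) (GC a κ Fs) b := by
  classical
  have key : ∀ s : Finset (Fin m), FEq (MvPowerSeries (Fin m × Fin 2) ℂ)
      (GC a κ (fun k => if k ∈ s then Fs k else f k)) b := by
    intro s
    induction s using Finset.induction_on with
    | empty => simpa using h
    | insert k0 s hk0 ih =>
      have e1 : (fun k => if k ∈ insert k0 s then Fs k else f k) =
          Function.update (fun k => if k ∈ s then Fs k else f k) k0 (Fs k0) := by
        funext k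
        by_cases hk : k = k0
        · subst hk
          rw [Function.update_self, if_pos (Finset.mem_insert_self _ _)]
        · rw [Function.update_of_ne hk]
          simp [Finset.mem_insert, hk]
      rw [e1]
      apply fstep a κ _ k0 (Fs k0) _ b ih
      rw [if_neg hk0]
      exact hs k0
  have h1 := key Finset.univ
  simpa using h1

end Pool.Agent.H56.CT
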