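import Pool.Agent.H56.CT.FDefs
import Pool.Agent.H22.T7.RST
import Pool.Agent.H22.T7.AUT

/-!
# FRS: the variables which do not occur are removed

`ι0 = Fin.append (fun j => (grp j, cc j)) (fun j => (grp (ε j), 1)) : Fin (n + e) → Fin m × Fin 2`, injective (`hc.inj`), `θ : Fin m × Fin 2 ≃ Fin (m * 2)` (`finProdFinEquiv`), `ι = θ ∘ ι0` as an embedding.
(1) `rename ι0 (compG (rtE Nn grp a) κ ε (fun j => f (grp (ε j)))) = GC a κ Fs`.  Both are sums over `i` of `C (κ i)` times a product.  `compG`: `∏_{j : Fin n} (zt ε f'' j) ^ (Nn j * a i (grp j)) = ∏_k (∏_{j : grp j = k} (zt ε f'' j) ^ (Nn j)) ^ (a i k)` (`Finset.prod_fiberwise`, `pow_mul`).  `rename ι0` is an algebra homomorphism.  For `k` not of the form `grp (ε j)`: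
`zt ε f'' j = X (castAdd e j)` for `grp j = k`, with image `X (k, cc j)`, so the product over `j` has the image `∏ X (k, cc j) ^ Nn j = rename (k, ·) (∏ X (cc j) ^ Nn j) = rename (k, ·) (Fs k)` (`hc.fs1`).  For `k = grp (ε j0)`: the only column of the group is `ε j0` (`hc.gr`: another column in the same group would give `ε j0 ∉ range ε`), `Nn (ε j0) = 1` (`hc.ee`),
`zt ε f'' (ε j0) = subst ![X (castAdd e (ε j0)), X (natAdd n j0)] (f k)` (the chosen index is `j0`, `hc.εi`), and its image under `rename ι0` is `subst ![X (k, 0), X (k, 1)] (f k) = rename (k, ·) (f k)` (`rename_eq_subst`, `MvPowerSeries.subst_comp_subst_apply`, `hc.ce`, `ι0 (natAdd n j0) = (k, 1)`), `Fs k = f k` (`hc.fs0`).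
(2) `aut` with `MvPowerSeries.renameEquiv ℂ θ`: `FEq (MvPowerSeries (Fin (m * 2)) ℂ) (rename θ (GC a κ Fs)) b`, and `rename θ (rename ι0 G') = rename ι G'` (`rename_rename`).  `rst` with `V = 1`: the exponents of `1` are `0`.
-/

set_option autoImplicit false

namespace Pool.Agent.H56.CT

open Finset
open Pool.Agent.H22.T7

theorem FRS_congr {σ τ : Type} {g g' : σ → τ} [Filter.TendstoCofinite g]
    [Filter.TendstoCofinite g'] (h : g = g') (p : MvPowerSeries σ ℂ) :
    MvPowerSeries.rename g p = MvPowerSeries.rename g' p := by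
  subst h
  rfl

theorem FRS_zt_off {n e : ℕ} (ε : Fin e → Fin n) (f : Fin e → R2) (j : Fin n)
    (hj : j ∉ Set.range ε) : zt ε f j = MvPowerSeries.X (Fin.castAdd e j) := by
  rw [zt, dif_neg]
  rintro ⟨i, hi⟩
  exact hj ⟨i, hi⟩

theorem FRS_zt_on {n e : ℕ} (ε : Fin e → Fin n) (hε : Function.Injective ε) (f : Fin e → R2)
    (j : Fin e) : zt ε f (ε j) =
      MvPowerSeries.rename (![Fin.castAdd e (ε j), Fin.natAdd n j] : Fin 2 → Fin (n + e)) (f j) := by
  have h : ∃ j', ε j' = ε j := ⟨j, rfl⟩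
  have h2 : h.choose = j := hε h.choose_spec
  rw [zt, dif_pos h, MvPowerSeries.rename_eq_subst, h2]
  congr 1
  funext δ
  refine Fin.cases ?_ (fun i => ?_) δ
  · rfl
  · fin_cases i
    rfl

/-- FRS -/
theorem frs {m r n e : ℕ} (a : Fin r → (Fin m →₀ ℕ)) (κ : Fin r → ℂ) (f : Fin m → R2)
    (κv : Fin m → ℚ) (T : Finset (Fin m)) (Nn : Fin n → ℕ) (grp : Fin n → Fin m)
    (ε : Fin e → Fin n) (cc : Fin n → Fin 2) (Fs : Fin m → R2)
    (hc : Cfg f κv T n e Nn grp ε cc Fs) (b : Polynomial ℂ)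
    (h : FEq (MvPowerSeries (Fin m × Fin 2) ℂ) (GC a κ Fs) b) :
    FEq (MvPowerSeries (Fin (n + e)) ℂ)
      (compG (rtE Nn grp a) κ ε (fun j => f (grp (ε j)))) b := by
  classical
  obtain ⟨ι0, hι0⟩ : ∃ ι0 : Fin (n + e) → Fin m × Fin 2, ι0 =
    Fin.append (fun j : Fin n => (grp j, cc j)) (fun j : Fin e => (grp (ε j), (1 : Fin 2))) :=
    ⟨_, rfl⟩
  have hinj : Function.Injective ι0 := by
    rw [hι0]
    exact hc.inj
  have hl : ∀ j : Fin n, ι0 (Fin.castAdd e j) = (grp j, cc j) := fun j => by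
    rw [hι0, Fin.append_left]
  have hr : ∀ j : Fin e, ι0 (Fin.natAdd n j) = (grp (ε j), 1) := fun j => by
    rw [hι0, Fin.append_right]
  have z1 : ∀ j : Fin n, j ∉ Set.range ε →
      MvPowerSeries.rename ι0 (zt ε (fun j => f (grp (ε j))) j) =
        (MvPowerSeries.X (grp j, cc j) : MvPowerSeries (Fin m × Fin 2) ℂ) := by
    intro j hj
    rw [FRS_zt_off ε _ j hj, MvPowerSeries.rename_X, hl]
  have z2 : ∀ j : Fin e, MvPowerSeries.rename ι0 (zt ε (fun j => f (grp (ε j))) (ε j)) =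
      MvPowerSeries.rename (fun δ : Fin 2 => (grp (ε j), δ)) (f (grp (ε j))) := by
    intro j
    rw [FRS_zt_on ε hc.εi, MvPowerSeries.rename_rename]
    refine FRS_congr ?_ _
    funext δ
    refine Fin.cases ?_ (fun i => ?_) δ
    · change ι0 (Fin.castAdd e (ε j)) = _
      rw [hl, hc.ce]
    · fin_cases i
      change ι0 (Fin.natAdd n j) = _
      rw [hr]
      rfl
  have grp1 : ∀ k : Fin m, ∏ j ∈ univ.filter (fun j => grp j = k),
      (MvPowerSeries.rename ι0 (zt ε (fun j => f (grp (ε j))) j)) ^ Nn j =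
        MvPowerSeries.rename (fun δ : Fin 2 => (k, δ)) (Fs k) := by
    intro k
    by_cases hk : k ∈ Set.range (fun j => grp (ε j))
    · obtain ⟨j0, hj0⟩ := hk
      simp only at hj0
      subst hj0
      have hfil : univ.filter (fun j => grp j = grp (ε j0)) = {ε j0} := by
        ext j
        rw [mem_filter, mem_singleton]
        constructor
        · rintro ⟨_, hj⟩
          by_contra hne
          exact (hc.gr (ε j0) j hj.symm (Ne.symm hne)).1 ⟨j0, rfl⟩
        · rintro rfl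
          exact ⟨mem_univ _, rfl⟩
      rw [hfil, prod_singleton, (hc.ee j0).1, pow_one, z2, hc.fs0]
    · rw [hc.fs1 k hk, map_prod]
      refine prod_congr rfl fun j hj => ?_
      have hj' : grp j = k := (mem_filter.1 hj).2
      have hjr : j ∉ Set.range ε := by
        rintro ⟨j0, rfl⟩
        exact hk ⟨j0, hj'⟩
      rw [z1 j hjr, map_pow, MvPowerSeries.rename_X, hj']
  have key : MvPowerSeries.rename ι0
      (compG (rtE Nn grp a) κ ε (fun j => f (grp (ε j)))) = GC a κ Fs := by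
    rw [compG, GC, map_sum]
    refine sum_congr rfl fun i _ => ?_
    rw [map_mul, MvPowerSeries.rename_C, map_prod]
    congr 1
    have h1 : ∀ j : Fin n, MvPowerSeries.rename ι0
        (zt ε (fun j => f (grp (ε j))) j ^ rtE Nn grp a i j) =
        ((MvPowerSeries.rename ι0 (zt ε (fun j => f (grp (ε j))) j)) ^ Nn j) ^ a i (grp j) := by
      intro j
      rw [map_pow, rtE_apply, pow_mul]
    rw [prod_congr rfl fun j _ => h1 j, ← prod_fiberwise (s := univ) (g := grp)]
    refine prod_congr rfl fun k _ => ?_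
    rw [← grp1 k, ← prod_pow]
    refine prod_congr rfl fun j hj => ?_
    rw [(mem_filter.1 hj).2]
  have h2 := aut (MvPowerSeries.renameEquiv ℂ
    (finProdFinEquiv : Fin m × Fin 2 ≃ Fin (m * 2))) _ b h
  have h3 : MvPowerSeries.renameEquiv ℂ (finProdFinEquiv : Fin m × Fin 2 ≃ Fin (m * 2))
      (GC a κ Fs) = MvPowerSeries.rename ((finProdFinEquiv : Fin m × Fin 2 ≃ Fin (m * 2)) ∘ ι0)
        (compG (rtE Nn grp a) κ ε (fun j => f (grp (ε j)))) := by
    rw [← key, ← MvPowerSeries.rename_rename]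
    rfl
  rw [h3] at h2
  obtain ⟨ι, hι⟩ : ∃ ι : Fin (n + e) ↪ Fin (m * 2), ι =
    ⟨(finProdFinEquiv : Fin m × Fin 2 ≃ Fin (m * 2)) ∘ ι0,
      (finProdFinEquiv : Fin m × Fin 2 ≃ Fin (m * 2)).injective.comp hinj⟩ := ⟨_, rfl⟩
  have hιf : ((finProdFinEquiv : Fin m × Fin 2 ≃ Fin (m * 2)) ∘ ι0) = ι := by
    rw [hι]
    rfl
  rw [FRS_congr hιf] at h2
  refine rst ι _ 1 one_ne_zero ?_ b h2
  intro ρ hρ x
  rw [MvPowerSeries.coeff_one] at hρ
  by_cases h0 : ρ = 0
  · rw [h0]
    rfl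
  · rw [if_neg h0] at hρ
    exact absurd rfl hρ

end Pool.Agent.H56.CT
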