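import Pool.Agent.H56.CT.SD0

/-!
# Compositions with germs of plane curves: resolution trees

`Res g a b M`: a tree of blow-ups of points which resolves the germ `g` of a plane curve at a point
where the Jacobian of the previous blow-ups is `u^a v^b` up to a unit; `M` counts the strata with
their Euler characteristics.
-/

set_option autoImplicit false

namespace Pool.Agent.H56.CT

open Finset
open Pool.Agent.H22.T7

/-- The partial derivatives. -/
noncomputable abbrev pd (j : Fin 2) (g : R2) : R2 := MvPowerSeries.pderiv ℂ j g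

/-- The Jacobian determinant. -/
noncomputable def jac (X Y : R2) : R2 := pd 0 X * pd 1 Y - pd 1 X * pd 0 Y

/-- `g = f(X, Y)`, and the Jacobian determinant of `(X, Y)` is `u^a v^b` up to a unit. -/
structure Path (f g : R2) (a b : ℕ) (X Y : R2) : Prop where
  cX : co X 0 0 = 0
  cY : co Y 0 0 = 0
  eq : sb X Y f = g
  jac : ∃ ε : R2, IsUnit ε ∧ jac X Y = U ^ a * V ^ b * ε

/-- A formal version of the integrals over the fibres of `f`, for a vanishing cycle with exponent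
`κ - 1`: `φ(h)` is `τ^{1-κ} ∫_{f = τ} h dx ∧ dy / df`. -/
structure PhiD (f : R2) (κ : ℚ) where
  /-- the integral -/
  φ : R2 →ₗ[ℂ] PowerSeries ℂ
  /-- a constant -/
  N : ℕ
  N0 : 0 < N
  mul : ∀ h, φ (f * h) = PowerSeries.X * φ h
  cc : ∀ j h, PowerSeries.coeff 0 (φ (h * pd j f)) = 0
  der : ∀ j h i, PowerSeries.coeff i (φ (pd j h)) =
    ((κ : ℂ) + i) * PowerSeries.coeff (i + 1) (φ (h * pd j f))
  cont : ∀ (M : ℕ) h, Hi M h → ∀ i, N * i < M → PowerSeries.coeff i (φ h) = 0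
  one : PowerSeries.coeff 0 (φ 1) = 1

/-- A strict branch of multiplicity `N` of `f`. -/
def SpD (f : R2) (N : ℕ) : Prop := ∃ n a X Y, Path f (U ^ n * V ^ N) a 0 X Y

/-- `f = x y` in suitable coordinates. -/
def Node (f : R2) : Prop := ∃ ψ : R2 ≃ₐ[ℂ] R2, ψ f = U * V

/-- `(N, e)` is the smallest exponent of `g` in the lexicographic order, first `u` then `v`. -/
def AX1 (g : R2) (N e : ℕ) : Prop :=
  (∀ i j, i < N → co g i j = 0) ∧ (∀ j, j < e → co g N j = 0) ∧ co g N e ≠ 0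

/-- The same with `u` and `v` exchanged. -/
def AX2 (g : R2) (N e : ℕ) : Prop :=
  (∀ i j, j < N → co g i j = 0) ∧ (∀ i, i < e → co g i N = 0) ∧ co g e N ≠ 0

/-- The numerical conditions which are preserved by the blow-ups. -/
structure Inv (g : R2) (a b : ℕ) : Prop where
  one : 1 ≤ a → b = 0 → ∃ N1 e1, AX1 g N1 e1 ∧ 1 ≤ N1 ∧ a * e1 ≤ N1
  two : a = 0 → 1 ≤ b → ∃ N2 e2, AX2 g N2 e2 ∧ 1 ≤ N2 ∧ b * e2 ≤ N2
  both : 1 ≤ a → 1 ≤ b → ∃ N1 e1 N2 e2 N, AX1 g N1 e1 ∧ AX2 g N2 e2 ∧ Ord g N ∧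
    a * e1 ≤ N1 + a * N2 ∧ b * e2 ≤ N2 + b * N1 ∧ b * N1 < (a + 1) * N2 ∧
    a * N2 < (b + 1) * N1 ∧ (N1 + N2 < N → a + 1 ≤ N1 ∧ b + 1 ≤ N2)

/-- `e_c`, the multiplicity of the zero `c` of `g_N(1, z)`. -/
noncomputable def ec (h0 : Polynomial ℂ) (c : ℂ) : ℕ := h0.rootMultiplicity c

/-- `b` at the point `0`, and `0` at the other points. -/
noncomputable def bc (b : ℕ) (c : ℂ) : ℕ := if c = 0 then b else 0

open Classical in
/-- The special points at finite distance. -/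
noncomputable def spc (h0 : Polynomial ℂ) (b : ℕ) : Finset ℂ :=
  h0.roots.toFinset ∪ (if 1 ≤ b then {0} else ∅)

/-- The exceptional divisor contributes: one of the numbers `α` vanishes, or there are at least
three special points. -/
def Contr (h0 : Polynomial ℂ) (N a b : ℕ) : Prop :=
  (∃ c, N * (bc b c + 1) = (a + b + 2) * ec h0 c) ∨
    N * (a + 1) = (a + b + 2) * (N - h0.natDegree) ∨
    3 ≤ (spc h0 b).card + (if 1 ≤ a ∨ h0.natDegree < N then 1 else 0)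

/-- The coefficient `g / (N (β + 1) - ν e)` of a special point, `g = gcd(N, e)`. -/
noncomputable def tc (N ν e β : ℕ) : ℂ :=
  (Nat.gcd N e : ℂ) / ((N : ℂ) * (β + 1) - (ν : ℂ) * e)

/-- The identities between the zeta functions of the strata. -/
structure EW {W : Type} [AddCommGroup W] [Module ℂ W] (E : Str → W) (Ξ : ℚ → ℕ → W) : Prop where
  dbl : ∀ N1 ν1 N2 ν2 : ℕ, 0 < N1 → 0 < N2 → 0 < ν1 → 0 < ν2 → ν1 * N2 ≠ ν2 * N1 →
    E ⟨N1, ν1, N2, ν2⟩ = ((Nat.gcd N1 N2 : ℂ) / ((N1 : ℂ) * ν2 - (N2 : ℂ) * ν1)) •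
      (Ξ ((ν1 : ℚ) / N1) (Nat.gcd N1 N2) - Ξ ((ν2 : ℚ) / N2) (Nat.gcd N1 N2))
  s1 : ∀ N ν : ℕ, 0 < N → 0 < ν → E ⟨N, ν, 0, 1⟩ = Ξ ((ν : ℚ) / N) N
  s2 : ∀ N ν : ℕ, 0 < N → 0 < ν → E ⟨0, 1, N, ν⟩ = Ξ ((ν : ℚ) / N) N

end Pool.Agent.H56.CT
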