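import Pool.Agent.H56.CT.ZDefs
import Pool.Agent.H56.CT.Defs
import Pool.Agent.H60.ConeExist

/-!
# Systems of columns: definitions

`𝒢 = ∑ κ_i x^{a_i}`; for every variable `x_k` two new variables with `x_k = u_k^{N1} v_k^{N2}` and the
form `u_k^{ν1 - 1} v_k^{ν2 - 1} du_k dv_k`.
-/

set_option autoImplicit false

namespace Pool.Agent.H56.CT

open Finset
open Pool.Agent.H37.T6

/-- Two columns: the exponents `N1`, `N2` and the weights `ν1`, `ν2`. -/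
structure Slt where
  /-- the first exponent -/
  N1 : ℕ
  /-- the first weight -/
  ν1 : ℚ
  /-- the second exponent -/
  N2 : ℕ
  /-- the second weight -/
  ν2 : ℚ

/-- The exponents. -/
def Slt.N (S : Slt) (δ : Fin 2) : ℕ := if δ = 0 then S.N1 else S.N2

/-- The weights. -/
def Slt.w (S : Slt) (δ : Fin 2) : ℚ := if δ = 0 then S.ν1 else S.ν2

/-- The weights are positive. -/
def Slt.Pos (S : Slt) : Prop := 0 < S.ν1 ∧ 0 < S.ν2

/-- A type of points as two columns. -/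
def toQ (S : Str) : Slt := ⟨S.N1, S.ν1, S.N2, S.ν2⟩

/-- The exponents of `𝒢(u_k^{N1} v_k^{N2})`. -/
noncomputable def pbE {m r : ℕ} (a : Fin r → (Fin m →₀ ℕ)) (S : Fin m → Slt) :
    Fin r → (Fin (m * 2) →₀ ℕ) :=
  fun i => Finsupp.equivFunOnFinite.symm (fun j =>
    (S (finProdFinEquiv.symm j).1).N (finProdFinEquiv.symm j).2 *
      a i (finProdFinEquiv.symm j).1)

/-- The weights. -/
def pbW {m : ℕ} (S : Fin m → Slt) : Fin (m * 2) → ℚ :=
  fun j => (S (finProdFinEquiv.symm j).1).w (finProdFinEquiv.symm j).2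

/-- The zeta function of the system. -/
noncomputable def ZS {m r : ℕ} (a : Fin r → (Fin m →₀ ℕ)) (S : Fin m → Slt) : RatFunc ℂ :=
  topZetaLW (pbW S) (pbE a S)
    (fun τ => (H60.ConeExist.exists_faceCones (pbE a S) τ).some)
    (fun τ => (H60.ConeExist.exists_faceTriang (pbE a S) τ).some)

/-- For every relatively interior basis `Yb` of a face with `s0p = s0` some `b ∈ Yb` has exactly
one apex direction `k` with `κ_k = 1`, and `k ∈ T`. -/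
def HB {m r : ℕ} (a : Fin r → (Fin m →₀ ℕ)) (κ : Fin m → ℚ) (T : Finset (Fin m)) (s0 : ℂ) :
    Prop :=
  ∀ (w : Fin m → ℕ) (Yb : Finset (Fin r)), (∀ j, 0 < w j) → YDp a κ w Yb ∅ →
    s0 = s0p a κ w → ∃ b k, k ∈ T ∧ ApexY a Yb ∅ b k ∧
      ∀ k', κ k' = 1 → ApexY a Yb ∅ b k' → k' = k

/-- The admissible integral types of points for the exponent `κ` (`K` is large). -/
def GoodS (κ : ℚ) (t : Prop) (K : ℚ) (S : Str) : Prop :=
  (t ∧ S = ⟨1, 1, 0, 1⟩) ∨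
    (¬ t ∧ 0 < S.ν1 ∧ 0 < S.ν2 ∧ (0 < S.N1 ∨ 0 < S.N2) ∧
      (0 < S.N1 → (S.ν1 : ℚ) = κ * S.N1 ∨ K * S.N1 ≤ S.ν1) ∧
      (0 < S.N2 → (S.ν2 : ℚ) = κ * S.N2 ∨ K * S.N2 ≤ S.ν2))

/-- The reduced types. -/
def RedS (κ : ℚ) (t : Prop) (S : Slt) : Prop :=
  (t ∧ S = ⟨1, 1, 0, 1⟩) ∨ (¬ t ∧ ∃ g : ℕ, 0 < g ∧ S = ⟨g, g * κ, 0, 1⟩) ∨
    (¬ t ∧ ∃ S' : Str, S = toQ S' ∧ 0 < S'.N1 ∧ 0 < S'.N2 ∧ (S'.ν1 : ℚ) = κ * S'.N1 ∧
      (S'.ν2 : ℚ) = κ * S'.N2)

/-- The exponents `κ` which occur for the germ `f`; `t`: the multiplicity one case. -/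
def Val (f : R2) (κ : ℚ) (t : Prop) : Prop :=
  (¬ t ∧ 0 < κ ∧ κ < 1 ∧ Nonempty (PhiD f κ)) ∨
    (¬ t ∧ ∃ N : ℕ, 2 ≤ N ∧ κ = 1 / (N : ℚ) ∧ SpD f N) ∨
    (t ∧ κ = 1 ∧ SpD f 1) ∨ (¬ t ∧ κ = 1 ∧ Node f)

/-- The iterated sum over the types of the points of the variables in the list. -/
noncomputable def msum {m r : ℕ} (a : Fin r → (Fin m →₀ ℕ)) (M : Fin m → (Str →₀ ℤ)) :
    List (Fin m) → (Fin m → Slt) → RatFunc ℂ
  | [], S => ZS a S
  | k :: l, S => (M k).sum fun s c => c • msum a M l (Function.update S k (toQ s))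

theorem pbE_apply {m r : ℕ} (a : Fin r → (Fin m →₀ ℕ)) (S : Fin m → Slt) (i : Fin r)
    (j : Fin m) (δ : Fin 2) : pbE a S i (finProdFinEquiv (j, δ)) = (S j).N δ * a i j := by
  change (S (finProdFinEquiv.symm (finProdFinEquiv (j, δ))).1).N
    (finProdFinEquiv.symm (finProdFinEquiv (j, δ))).2 *
      a i (finProdFinEquiv.symm (finProdFinEquiv (j, δ))).1 = _
  rw [Equiv.symm_apply_apply]

theorem pbW_apply {m : ℕ} (S : Fin m → Slt) (j : Fin m) (δ : Fin 2) :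
    pbW S (finProdFinEquiv (j, δ)) = (S j).w δ := by
  change (S (finProdFinEquiv.symm (finProdFinEquiv (j, δ))).1).w
    (finProdFinEquiv.symm (finProdFinEquiv (j, δ))).2 = _
  rw [Equiv.symm_apply_apply]

end Pool.Agent.H56.CT
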