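import Pool.Agent.H56.CT.WDefs
import Pool.Agent.H56.T5.APPL
import Pool.Agent.H22.T7.APX

/-!
# WAP: the relation on the slice of `w`, with weights

ADAPT `appX` (`Pool/Agent/H22/T7/APX.lean`) (and `appL`, `Pool/Agent/H56/T5/APPL.lean`, for the lemmas).  Changes.
(1) The relation is the hypothesis `hA : RELH ..` applied to `M`, `lam` (instead of `mrx`); it has `sh (TT1 p)` instead of `sh univ`; `sh D ⊆ sh (TT1 p)` by `hD`, so `ExL.mono` gives the relation with `sh D`.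
(2) `p` of `coreL` is `ppw (fun j => C (pC p j)) (C s0 + X) (C I)`; `hP1`: for `k = j.succ.succ ∈ sh D`: the value is `C (p j) = 1`.  `constantCoeff` of it is `ppw (pC p) s0 I`.
(3) `pv (ppw p s t) (vec l l2 q) = -l s - l2 t + ∑ q_j p_j` (as `pv_pp`).  `hnr`: for the functionals `vec (-N(v)) 0 v`: the value is `N(v) s + ∑ v_j p_j + m`: if `N(v) > 0` it is not constant in `X`, so nonzero; if `N(v) = 0`: `m < l v` and
`l v = ⌈-dt (h v) y0 / m0⌉` with `dt (h v) y0 = ∑ v_j (y0)_{j+2} ≥ m0 ∑ v_j p_j` (`hyj`; if `v_j ≠ 0` then `∃ i, a i j = 0`, because `N(v) = 0`; this replaces `APPL_wsum`), so `m < -∑ v_j p_j`, the value is a nonzero constant.  `vec 1 0 0`: `-s + m`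
not constant.  Bad functionals (`l2`-coordinate `> 0`): the constant coefficient `.. - l2 I + ..` has nonzero imaginary part (`s0`, `p` real), so it is a unit, as before.
(4) `hx`, `hxP`: the exponents of `x` are in `HiV a w`: `u = vec l l2 q`; good functionals: `vec 1 0 0`: `dt = l ≥ 0 ≥ l v`; `vec (-N(v)) 0 v`: `dt = -N(v) l + ∑ v_j q_j ≥ 0`; `dt (h5 a w) u > 0`; `hxP`: `vec_mem_LL` with `q ≥ 0`.
-/

set_option autoImplicit false

namespace Pool.Agent.H56.CT

open Finset AddMonoidAlgebra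
open Pool.Agent.H56.SMC Pool.Agent.H37.T5 Pool.Agent.H56.T5 Pool.Agent.H37.T6 Pool.Agent.H22.T6


theorem WAP_pv {n : ℕ} {R : Type} [CommRing R] (P : Fin n → R) (s t : R) (l l2 : ℤ)
    (q : Fin n → ℤ) :
    pv (ppw P s t) (vec l l2 q) = -((l : R) * s) - (l2 : R) * t + ∑ j, (q j : R) * P j := by
  simp only [pv, ppw, vec]
  rw [Fin.sum_univ_succ, Fin.sum_univ_succ]
  simp only [Fin.cons_zero, Fin.cons_succ]
  ring

/-- The constant coefficient. -/
theorem WAP_c0 {n : ℕ} (p : Fin n → ℚ) (s0 : ℂ) (h : Lat (n + 2)) (mm : ℤ) :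
    PowerSeries.constantCoeff (pv (ppw (fun j => PowerSeries.C (pC p j))
      (PowerSeries.C s0 + PowerSeries.X) (PowerSeries.C Complex.I)) h + (mm : PA)) =
      -((h 0 : ℂ) * s0) - (h (Fin.succ 0) : ℂ) * Complex.I +
        ((∑ j : Fin n, (h j.succ.succ : ℚ) * p j : ℚ) : ℂ) + (mm : ℂ) := by
  conv_lhs => rw [vec_surj h, WAP_pv]
  simp only [map_add, map_sub, map_neg, map_mul, map_sum, map_intCast,
    PowerSeries.constantCoeff_C, PowerSeries.constantCoeff_X, pC]
  push_cast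
  ring

/-- The coefficient of `X`. -/
theorem WAP_c1 {n : ℕ} (p : Fin n → ℚ) (s0 : ℂ) (h : Lat (n + 2)) (mm : ℤ) :
    PowerSeries.coeff 1 (pv (ppw (fun j => PowerSeries.C (pC p j))
      (PowerSeries.C s0 + PowerSeries.X) (PowerSeries.C Complex.I)) h + (mm : PA)) =
      -(h 0 : ℂ) := by
  have hint : ∀ z : ℤ, (z : PA) = PowerSeries.C (z : ℂ) := fun z => (map_intCast _ z).symm
  have hC1 : ∀ z : ℂ, PowerSeries.coeff 1 (PowerSeries.C z) = 0 := by
    intro z
    rw [PowerSeries.coeff_C, if_neg one_ne_zero]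
  have hz : ∀ z : ℤ, PowerSeries.coeff 1 (z : PA) = 0 := by
    intro z
    rw [hint, hC1]
  conv_lhs => rw [vec_surj h, WAP_pv]
  have e : ∑ j : Fin n, (((fun j : Fin n => h j.succ.succ) j : ℤ) : PA) *
      PowerSeries.C (pC p j) =
      PowerSeries.C (∑ j : Fin n, (h j.succ.succ : ℂ) * pC p j) := by
    rw [map_sum]
    refine sum_congr rfl fun j _ => ?_
    rw [map_mul, hint]
  rw [e, hint, hint, hint, mul_add, ← map_mul, ← map_mul]
  simp only [map_add, map_sub, map_neg]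
  rw [PowerSeries.coeff_C_mul, PowerSeries.coeff_one_X]
  simp [hC1, hz]

theorem WAP_s0im {n r : ℕ} (a : Fin r → (Fin n →₀ ℕ)) (p : Fin n → ℚ) (w : Fin n → ℕ) :
    (s0p a p w).im = 0 := by
  have : s0p a p w = ((-((wsp p w : ℚ) : ℝ) / (H22.wmin a w : ℝ) : ℝ) : ℂ) := by
    rw [s0p]; push_cast; rfl
  rw [this, Complex.ofReal_im]

theorem WAP_bad {n r : ℕ} (a : Fin r → (Fin n →₀ ℕ)) (p : Fin n → ℚ) (w : Fin n → ℕ)
    (h : Lat (n + 2)) (hc : h (Fin.succ 0) ≠ 0) (mm : ℤ) :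
    PowerSeries.constantCoeff (pv (ppw (fun j => PowerSeries.C (pC p j))
      (PowerSeries.C (s0p a p w) + PowerSeries.X) (PowerSeries.C Complex.I)) h +
        (mm : PA)) ≠ 0 := by
  rw [WAP_c0]
  intro e0
  have hs := WAP_s0im a p w
  have hq : (((∑ j : Fin n, (h j.succ.succ : ℚ) * p j : ℚ) : ℂ)).im = 0 := Complex.ratCast_im _
  have e2 := congrArg Complex.im e0
  rw [Complex.add_im, Complex.add_im, Complex.sub_im, Complex.neg_im, Complex.mul_im,
    Complex.mul_im, hs, hq, Complex.intCast_im, Complex.intCast_im, Complex.intCast_im,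
    Complex.intCast_re, Complex.intCast_re, Complex.I_re, Complex.I_im, Complex.zero_im] at e2
  have e3 : ((h (Fin.succ 0) : ℤ) : ℝ) = 0 := by linarith
  exact hc (by exact_mod_cast e3)

/-- If `wmin a v = 0` then the coordinates of `y0` bound `∑ v_j p_j`. -/
theorem WAP_wsum {n r : ℕ} (hr : 0 < r) (a : Fin r → (Fin n →₀ ℕ)) (p : Fin n → ℚ) (m0 : ℤ)
    (y0 : Lat (n + 2))
    (hyj : ∀ j, (∃ i, a i j = 0) → p j * m0 ≤ (y0 j.succ.succ : ℚ)) (v : Fin n → ℕ)
    (hv : H22.wmin a v = 0) :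
    (m0 : ℚ) * ∑ j, (v j : ℚ) * p j ≤
      ((dt (vec (-(H22.wmin a v : ℤ)) 0 (fun j => (v j : ℤ))) y0 : ℤ) : ℚ) := by
  have hex : ∃ i, ∑ j, a i j * v j = 0 := by
    have : Nonempty (Fin r) := ⟨⟨0, hr⟩⟩
    have h1 : sInf (Set.range fun i : Fin r => ∑ j, a i j * v j) ∈
        Set.range fun i : Fin r => ∑ j, a i j * v j :=
      Nat.sInf_mem (Set.range_nonempty _)
    obtain ⟨i, hi⟩ := h1
    refine ⟨i, ?_⟩
    have h2 : H22.wmin a v = sInf (Set.range fun i : Fin r => ∑ j, a i j * v j) := by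
      unfold H22.wmin
      rfl
    rw [← hv, h2, ← hi]
  obtain ⟨i, hi⟩ := hex
  rw [hv]
  have h3 : ∀ j, (v j : ℚ) * (p j * m0) ≤ (v j : ℚ) * (y0 j.succ.succ : ℚ) := by
    intro j
    by_cases hj : v j = 0
    · rw [hj]; simp
    · have h4 : a i j = 0 := by
        have h5 := (Finset.sum_eq_zero_iff.1 hi) j (mem_univ j)
        rcases Nat.mul_eq_zero.1 h5 with h6 | h6
        · exact h6
        · exact absurd h6 hj
      exact mul_le_mul_of_nonneg_left (hyj j ⟨i, h4⟩) (by positivity)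
  rw [vec_surj y0, dt_vec]
  have h6 : ((m0 : ℚ) * ∑ j, (v j : ℚ) * p j) = ∑ j, (v j : ℚ) * (p j * m0) := by
    rw [mul_sum]
    exact sum_congr rfl fun j _ => by ring
  rw [h6]
  have h7 := sum_le_sum (s := univ) fun j _ => h3 j
  push_cast
  simpa using h7

theorem WAP_vj {n r : ℕ} (a : Fin r → (Fin n →₀ ℕ)) (v : Fin n → ℕ) (l l2 : ℤ)
    (q : Fin n → ℤ) :
    dt (vec (-(H22.wmin a v : ℤ)) 0 (fun j => (v j : ℤ))) (vec l l2 q) =
      ∑ j, q j * (v j : ℤ) - l * (H22.wmin a v : ℤ) := by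
  rw [dt_vec]
  have : ∑ j, (v j : ℤ) * q j = ∑ j, q j * (v j : ℤ) :=
    sum_congr rfl fun j _ => mul_comm _ _
  rw [this]
  ring

/-- WAP -/
theorem apw {n r : ℕ} (a : Fin r → (Fin n →₀ ℕ)) (κ : Fin r → ℂ) (p : Fin n → ℚ)
    (hp : ∀ j, 0 < p j ∧ p j ≤ 1) (b : Polynomial ℂ) (w : Fin n → ℕ) (hA : RELH a κ p b w)
    (hN : 0 < H22.wmin a w) (D : Finset (Fin n)) (hD : ∀ j ∈ D, p j = 1) (M : ℤ) (hM : 0 < M)
    (m0 : ℤ) (hm0 : 0 < m0) (y0 : Lat (n + 2)) (hy0c : InC (A5 a M) y0)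
    (hy0 : dt (h5 a w) y0 = 0)
    (hyj : ∀ j, (∃ i, a i j = 0) → p j * m0 ≤ (y0 j.succ.succ : ℚ))
    (lam : Option (Fin n) ⊕ Fin 0 → ℂ)
    (hK : KExactL (A5 a M) (cC κ lam) ev (sh D) (RG (A5 a M) m0 y0)) :
    ExL (ppw (pC p) (s0p a p w) Complex.I) (A5 a M)
      (cF (A5 a M) (cC κ lam) (h5 a w)) ev (sh D)
      (RG (A5 a M) m0 y0 ∩ {u | dt (h5 a w) u = 0}) (single 0 (b.eval (s0p a p w))) := by
  classical
  have hr := appg_pos a w hN
  have hδ := appg_delta a (noW n) M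
  obtain ⟨e, he⟩ := fspan hr a (noW n) M hM
  obtain ⟨mf, h, hh, hprim, hfacet, hfac⟩ := fac (cA a (bbM (noW n) M)) (vec 1 1 0) hδ ⟨e, he⟩
  have hS := appg_sset (cA a (bbM (noW n) M)) h hh hfac
  have hSc : ∀ u, u ∈ Sc h (lev h m0 y0) ↔ InC (cA a (bbM (noW n) M)) (m0 • u + y0) := by
    intro u
    rw [mem_Sc_lev h hm0, hS]
  have hScRG : Sc h (lev h m0 y0) = RG (A5 a M) m0 y0 := by
    ext u
    exact hSc u
  have hl0 : ∀ v, lev h m0 y0 v ≤ 0 := by
    intro v
    have := appg_lev h m0 hm0 y0 v 0 (by rw [mul_zero]; exact hy0c (h v) (hh v))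
    linarith
  have hSδ : ∀ u ∈ Sc h (lev h m0 y0), -|dt (vec 1 1 0) y0| ≤ dt (vec 1 1 0) u := by
    intro u hu
    rw [hSc] at hu
    have h1 := hu (vec 1 1 0) (fun i => by rw [hδ i]; norm_num)
    rw [dt_add, dt_zsmul] at h1
    have h2 := le_abs_self (dt (vec 1 1 0) y0)
    have h3 := abs_nonneg (dt (vec 1 1 0) y0)
    by_contra hcon
    push Not at hcon
    nlinarith
  have hh0 := appg_h0 a (noW n) M hM w (fun k => k.elim0)
  have hS0 : ∀ u ∈ Sc h (lev h m0 y0), 0 ≤ dt (h5 a w) u := by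
    intro u hu
    rw [hSc] at hu
    have h1 := hu _ hh0
    rw [dt_add, dt_zsmul] at h1
    have h2 : dt (vec (-(H22.wmin a w : ℤ)) 0 (fun j => (w j : ℤ))) y0 = 0 := hy0
    rw [h2, add_zero] at h1
    exact nonneg_of_mul_nonneg_right h1 hm0
  have hcases : ∀ v, h v (Fin.succ 0) ≠ 0 ∨ h v = vec 1 0 0 ∨
      ∃ v' : Fin n → ℕ, RayNormal a (noW n) v' ∧ univ.gcd v' = 1 ∧
        h v = vec (-(H22.wmin a v' : ℤ)) 0 (fun j => (v' j : ℤ)) := by
    intro v
    by_cases h1 : h v (Fin.succ 0) = 0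
    · exact Or.inr (fnr hr a (noW n) M hM (h v) (hh v) (hprim v) (hfacet v) h1)
    · exact Or.inl h1
  have hnr : ∀ v, ∀ mm : ℤ, mm < lev h m0 y0 v →
      pv (ppw (fun j => PowerSeries.C (pC p j)) (PowerSeries.C (s0p a p w) + PowerSeries.X)
        (PowerSeries.C Complex.I)) (h v) + (mm : PA) ≠ 0 := by
    intro v mm hmm h0
    rcases hcases v with h1 | h1 | ⟨v', -, -, hv'⟩
    · exact WAP_bad a p w (h v) h1 mm (by rw [h0, map_zero])
    · have e1 := WAP_c1 p (s0p a p w) (h v) mm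
      rw [h0, map_zero, h1] at e1
      simp [vec] at e1
    · by_cases hw0 : H22.wmin a v' = 0
      · have e0 := WAP_c0 p (s0p a p w) (h v) mm
        rw [h0, map_zero, hv'] at e0
        simp only [vec, Fin.cons_zero, Fin.cons_succ, hw0] at e0
        have e3 : ((∑ j, ((v' j : ℤ) : ℚ) * p j + mm : ℚ) : ℂ) = 0 := by
          push_cast
          push_cast at e0
          rw [e0]
          ring
        have e4 : (∑ j, ((v' j : ℤ) : ℚ) * p j) + mm = 0 := by exact_mod_cast e3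
        have e5 := WAP_wsum hr a p m0 y0 hyj v' hw0
        rw [← hv'] at e5
        have e6 : dt (h v) y0 < -mm * m0 := by
          unfold lev at hmm
          have : dt (h v) y0 / m0 < -mm := by linarith
          exact (Int.ediv_lt_iff_lt_mul hm0).1 this
        have e7 : ((dt (h v) y0 : ℤ) : ℚ) < -(mm : ℚ) * (m0 : ℚ) := by exact_mod_cast e6
        have e8 : ∑ j, ((v' j : ℕ) : ℚ) * p j = -(mm : ℚ) := by
          have : ∑ j, ((v' j : ℤ) : ℚ) * p j = ∑ j, ((v' j : ℕ) : ℚ) * p j :=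
            sum_congr rfl fun j _ => by push_cast; rfl
          linarith
        rw [e8] at e5
        linarith
      · have e1 := WAP_c1 p (s0p a p w) (h v) mm
        rw [h0, map_zero, hv'] at e1
        simp only [vec, Fin.cons_zero] at e1
        apply hw0
        have e3 : ((H22.wmin a v' : ℤ) : ℂ) = 0 := by
          rw [e1]; push_cast; ring
        exact_mod_cast e3
  have hbad : ∀ v, ¬ (h v (Fin.succ 0) = 0) → ∀ mm : ℤ, mm < lev h m0 y0 v →
      IsUnit (pv (ppw (fun j => PowerSeries.C (pC p j))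
        (PowerSeries.C (s0p a p w) + PowerSeries.X)
        (PowerSeries.C Complex.I)) (h v) + (mm : PA)) := by
    intro v hng mm hmm
    rw [PowerSeries.isUnit_iff_constantCoeff, isUnit_iff_ne_zero]
    exact WAP_bad a p w (h v) hng mm
  obtain ⟨x, hex, hx⟩ := hA M hM lam
  have hxS : Supp {u | (∀ v, h v (Fin.succ 0) = 0 → lev h m0 y0 v ≤ dt (h v) u) ∧
        0 < dt (h5 a w) u} x := by
    intro u hu
    obtain ⟨l, l2, q, rfl, hl, hq, hv, hvw⟩ := hx u hu
    refine ⟨fun v hgood => ?_, ?_⟩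
    · refine (hl0 v).trans ?_
      rcases hcases v with h1 | h1 | ⟨v', -, -, hv'⟩
      · exact absurd hgood h1
      · rw [h1, dt_vec]
        simpa using hl
      · rw [hv', WAP_vj]
        have := hv v'
        linarith
    · have h10 : dt (h5 a w) (vec l l2 q) =
          ∑ j, q j * (w j : ℤ) - l * (H22.wmin a w : ℤ) := WAP_vj a w l l2 q
      show 0 < dt (h5 a w) (vec l l2 q)
      rw [h10]
      linarith
  have hxP : Supp (LL ev (sh D) ∅) x := by
    intro u hu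
    obtain ⟨l, l2, q, rfl, hl, hq, hv, hvw⟩ := hx u hu
    exact vec_mem_LL D ∅ _ _ _ fun j _ => hq j
  have hDT : D ⊆ TT1 p := by
    intro j hj
    simp only [TT1, mem_filter, mem_univ, true_and]
    exact hD j hj
  have hmain := coreL (A5 a M) (cC κ lam)
    (ppw (fun j => PowerSeries.C (pC p j)) (PowerSeries.C (s0p a p w) + PowerSeries.X)
        (PowerSeries.C Complex.I)) (sh D)
    (by
      intro k hk
      obtain ⟨j, hj, rfl⟩ := mem_sh.1 hk
      have hpj : pC p j = 1 := by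
        simp [pC, hD j hj]
      simp [ppw, hpj])
    (by
      intro k hk i
      obtain ⟨j, -, rfl⟩ := mem_sh.1 hk
      rw [dt_ev]
      rcases i with i | (o | k)
      · simp [A5, cA, vec]
      · simp only [A5, cA, vec, Fin.cons_succ]
        exact appg_bbM_nonneg (noW n) M hM o j
      · exact k.elim0)
    h (lev h m0 y0) hl0 (fun v => h v (Fin.succ 0) = 0) (vec 1 1 0) (h5 a w) hδ _ hSδ hh hh0
    hS0 hnr hbad (by rw [hScRG]; exact hK) _ x hxS hxP
    (ExL.mono (Set.Subset.refl _) (sh_mono hDT) hex)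
  rw [hScRG, appg_aeval] at hmain
  have hpp : (fun j => PowerSeries.constantCoeff
      ((ppw (fun j => PowerSeries.C (pC p j)) (PowerSeries.C (s0p a p w) + PowerSeries.X)
        (PowerSeries.C Complex.I) : Fin (n + 2) → PA) j)) =
      ppw (pC p) (s0p a p w) Complex.I := by
    funext j
    refine Fin.cases ?_ (fun j => Fin.cases ?_ (fun j => ?_) j) j
    · simp [ppw]
    · simp [ppw]
    · simp [ppw]
  rw [hpp] at hmain
  exact hmain

end Pool.Agent.H56.CT
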