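import Pool.Agent.H56.CT.WDefs
import Pool.Agent.H22.T6.GEV

/-!
# WEV: evaluation of the relation at a point of the torus, with weights

ADAPT `GEV_gs`, `evalx` (`Pool/Agent/H22/T6/GEV.lean`; `GEV_E`, `GEV_single`, `GEV_vec` by import).  Only `hL.c0`, `hL.c1`, `hL.PC` are used, which are the same for `LPW`; the condition on `k` has the additional part `p j = 1`, which is passed through.
-/

set_option autoImplicit false

namespace Pool.Agent.H56.CT

open Finset AddMonoidAlgebra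
open Pool.Agent.H56.SMC Pool.Agent.H37.T5 Pool.Agent.H56.T5 Pool.Agent.H37.T6 Pool.Agent.H22.T6

theorem WEV_gs {n r : ℕ} (a : Fin r → (Fin n →₀ ℕ)) (κ : Fin r → ℂ) (w : Fin n → ℕ) (M : ℤ)
    (hM : 0 < M) (lm : Option (Fin n) ⊕ Fin 0 → ℂ) (P : Finset (Fin n)) (c : Fin n → ℚ)
    (lam : Fin r → ℚ) (p : Fin n → ℚ)
    (hL : LPW (fun i j => a i j) (FF a w) (CC0 a w) P c lam p)
    (t : Fin n → ℂˣ) (j : Fin n) (hj : j ∈ P) (hc : c j = 1) :
    GEV_E t (gs (A5 a M) (cF (A5 a M) (cC κ lm) (h5 a w)) (ev j.succ.succ)) =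
      ∑ i ∈ H22.T6.PF a w j, κ i * tz t (aZ a i) := by
  classical
  have hw : w j ≠ 0 := by
    have := hL.PC hj
    unfold CC0 at this
    exact (Finset.mem_filter.1 this).2.1
  simp only [gs, map_sum, GEV_single, dt_ev]
  rw [Fintype.sum_sum_type, Fintype.sum_sum_type, Fintype.sum_option]
  have h2 : ∑ x : Fin n, cF (A5 a M) (cC κ lm) (h5 a w) (Sum.inr (Sum.inl (some x))) *
      (A5 a M (Sum.inr (Sum.inl (some x))) j.succ.succ : ℂ) *
      tz t (fun k => A5 a M (Sum.inr (Sum.inl (some x))) k.succ.succ) = 0 := by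
    refine Finset.sum_eq_zero fun x _ => ?_
    by_cases hx : x = j
    · subst hx
      have hd : dt (h5 a w) (A5 a M (Sum.inr (Sum.inl (some x)))) ≠ 0 := by
        rw [A5_some, h5, dt_vec]
        have : ∑ k, (w k : ℤ) * (M • ev x : Lat n) k = (w x : ℤ) * M := by
          rw [Finset.sum_eq_single x]
          · simp [ev]
          · intro k _ hk
            simp [ev, hk]
          · intro h; exact absurd (Finset.mem_univ x) h
        rw [this]
        have h3 : (0 : ℤ) < (w x : ℤ) * M :=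
          mul_pos (by exact_mod_cast Nat.pos_of_ne_zero hw) hM
        simp only [mul_zero, zero_mul, zero_add]
        exact h3.ne'
      rw [cF, if_neg hd, zero_mul, zero_mul]
    · have : A5 a M (Sum.inr (Sum.inl (some x))) j.succ.succ = 0 := by
        rw [A5_some, GEV_vec]
        have : j ≠ x := fun h => hx h.symm
        simp [ev, this]
      rw [this]
      simp
  have h3 : cF (A5 a M) (cC κ lm) (h5 a w) (Sum.inr (Sum.inl none)) *
      (A5 a M (Sum.inr (Sum.inl none)) j.succ.succ : ℂ) *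
      tz t (fun k => A5 a M (Sum.inr (Sum.inl none)) k.succ.succ) = 0 := by
    have : A5 a M (Sum.inr (Sum.inl none)) j.succ.succ = 0 := by
      rw [A5_none, GEV_vec]
      rfl
    rw [this]
    simp
  rw [h2, h3]
  simp only [Finset.univ_eq_empty, Finset.sum_empty, add_zero]
  have h4 : ∀ i, i ∈ FF a w ↔ dt (h5 a w) (A5 a M (Sum.inl i)) = 0 := by
    intro i
    rw [A5_inl, h5, dt_vec]
    unfold FF
    simp only [Finset.mem_filter, Finset.mem_univ, true_and]
    have : ∑ k, (w k : ℤ) * ((a i k : ℕ) : ℤ) = ((∑ k, a i k * w k : ℕ) : ℤ) := by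
      push_cast
      exact Finset.sum_congr rfl fun k _ => mul_comm _ _
    rw [this]
    constructor
    · intro h
      rw [h]
      ring
    · intro h
      have : ((∑ k, a i k * w k : ℕ) : ℤ) = (H22.wmin a w : ℤ) := by linarith
      exact_mod_cast this
  have h5' : H22.T6.PF a w j = Finset.univ.filter (fun i => i ∈ FF a w ∧ a i j = 1) := by
    unfold H22.T6.PF
    ext i
    simp
  rw [h5', Finset.sum_filter]
  refine Finset.sum_congr rfl fun i _ => ?_
  by_cases hi : i ∈ FF a w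
  · have hd := (h4 i).1 hi
    rw [cF, if_pos hd, A5_inl]
    simp only [GEV_vec, cC, Int.cast_natCast]
    have hle : (a i j : ℚ) ≤ 1 := by
      have h6 := hL.c1 i hi
      have h7 : c j * (a i j : ℚ) ≤ ∑ k, c k * (a i k : ℚ) :=
        Finset.single_le_sum (f := fun k => c k * (a i k : ℚ))
          (fun k _ => mul_nonneg (hL.c0 k) (Nat.cast_nonneg _)) (Finset.mem_univ j)
      rw [hc, one_mul] at h7
      exact h7.trans h6
    have hle' : a i j ≤ 1 := by exact_mod_cast hle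
    rcases Nat.le_one_iff_eq_zero_or_eq_one.1 hle' with h | h
    · rw [h, if_neg (by simp)]
      simp
    · rw [h, if_pos ⟨hi, rfl⟩]
      simp only [Nat.cast_one, mul_one]
      rfl
  · have hd := fun h => hi ((h4 i).2 h)
    rw [cF, if_neg hd, if_neg (fun h => hi h.1), zero_mul, zero_mul]

/-- WEV -/
theorem evalxw {n r : ℕ} (a : Fin r → (Fin n →₀ ℕ)) (κ : Fin r → ℂ) (w : Fin n → ℕ) (M : ℤ)
    (hM : 0 < M) (lm : Option (Fin n) ⊕ Fin 0 → ℂ) (P : Finset (Fin n)) (c : Fin n → ℚ)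
    (lam : Fin r → ℚ) (p : Fin n → ℚ)
    (hL : LPW (fun i j => a i j) (FF a w) (CC0 a w) P c lam p)
    (tt : Fin (n + 2) → LP ℂ (n + 2))
    (ht : ∀ k, tt k ≠ 0 → ∃ j ∈ P, p j = 1 ∧ c j = 1 ∧ k = j.succ.succ)
    (h1 : (single 0 1 : LP ℂ (n + 2)) =
      ∑ k, gs (A5 a M) (cF (A5 a M) (cC κ lm) (h5 a w)) (ev k) * tt k) (t : Fin n → ℂˣ) :
    ∃ j ∈ P, p j = 1 ∧ c j = 1 ∧ ∑ i ∈ H22.T6.PF a w j, κ i * tz t (aZ a i) ≠ 0 := by
  by_contra hcon
  push Not at hcon
  have h2 := congrArg (GEV_E t) h1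
  rw [GEV_single, map_sum] at h2
  have h3 : ∀ k, GEV_E t (gs (A5 a M) (cF (A5 a M) (cC κ lm) (h5 a w)) (ev k) * tt k) = 0 := by
    intro k
    by_cases hk : tt k = 0
    · rw [hk, mul_zero, map_zero]
    · obtain ⟨j, hj, hp, hc, rfl⟩ := ht k hk
      rw [map_mul, WEV_gs a κ w M hM lm P c lam p hL t j hj hc, hcon j hj hp hc, zero_mul]
  rw [Finset.sum_eq_zero (fun k _ => h3 k)] at h2
  simp [tz] at h2

end Pool.Agent.H56.CT
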