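import Pool.Agent.H56.CT.WDefs
import Pool.Agent.H22.T6.GCP

/-!
# WCP: the parameter with weights is a complex combination of the exponents of the face

ADAPT `crit_pi` (`Pool/Agent/H22/T6/GCP.lean`; `GCP_span`, `GCP_pi`, `GCP_sum` by import): replace `p0R` by `p0W`, so `e0 : ∑ i, x i = wsp p w / wmin a w` and `e1 : ∑ i, x i * a i j + y j = p j`; `pp` by `ppw (pC p)`.
-/

set_option autoImplicit false

namespace Pool.Agent.H56.CT

open Finset AddMonoidAlgebra
open Pool.Agent.H56.SMC Pool.Agent.H37.T5 Pool.Agent.H56.T5 Pool.Agent.H37.T6 Pool.Agent.H22.T6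

/-- WCP -/
theorem crit_piw {n r : ℕ} (a : Fin r → (Fin n →₀ ℕ)) (p : Fin n → ℚ) (w : Fin n → ℕ)
    (hcrit : CritW a p w) (M : ℤ) (hM : 0 < M) :
    ∃ π : IX n r → ℂ, (∀ g, dt (h5 a w) (A5 a M g) ≠ 0 → π g = 0) ∧
      ∀ k, ppw (pC p) (s0p a p w) Complex.I k = ∑ g, π g * (A5 a M g k : ℂ) := by
  have hMC : (M : ℂ) ≠ 0 := by exact_mod_cast hM.ne'
  rw [CritW, Submodule.span_union, Submodule.mem_sup] at hcrit
  obtain ⟨u, hu, v, hv, huv⟩ := hcrit
  obtain ⟨x, hx, rfl⟩ := GCP_span (fun i => i ∈ FF a w) (fun i => H22.rowR a i) u hu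
  obtain ⟨y, hy, rfl⟩ := GCP_span (fun j : Fin n => w j = 0)
    (fun j => (eR j : Unit ⊕ Fin n → ℝ)) v hv
  have e0 : ∑ i, x i = ((wsp p w : ℚ) : ℝ) / (H22.wmin a w : ℝ) := by
    have h := congrFun huv (Sum.inl ())
    simpa [H22.rowR, eR, p0W] using h
  have e1 : ∀ j, ∑ i, x i * (a i j : ℝ) + y j = (p j : ℝ) := by
    intro j
    have h := congrFun huv (Sum.inr j)
    simpa [H22.rowR, eR, p0W, Pi.single_apply] using h
  refine ⟨GCP_pi M x y, ?_, ?_⟩
  · intro g hg
    rcases g with i | (o | k)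
    · show ((x i : ℝ) : ℂ) = 0
      rw [hx i, Complex.ofReal_zero]
      intro hi
      apply hg
      rw [FF, Finset.mem_filter] at hi
      rw [A5_inl, h5, dt_vec]
      have h2 : ((∑ j, a i j * w j : ℕ) : ℤ) = (H22.wmin a w : ℤ) := by exact_mod_cast hi.2
      push_cast at h2
      have h3 : ∑ j, (w j : ℤ) * (a i j : ℤ) = ∑ j, (a i j : ℤ) * (w j : ℤ) :=
        sum_congr rfl fun j _ => mul_comm _ _
      rw [h3, h2]
      ring
    · rcases o with _ | j
      · exfalso
        apply hg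
        rw [A5_none, h5, dt_vec]
        simp
      · show ((y j : ℝ) : ℂ) / (M : ℂ) = 0
        rw [hy j, Complex.ofReal_zero, zero_div]
        intro hj
        apply hg
        rw [A5_some, h5, dt_vec]
        simp [ev, Pi.single_apply, hj]
    · exact k.elim0
  · intro k
    rw [GCP_sum]
    simp only [GCP_pi, A5_inl, A5_none, A5_some]
    refine Fin.cases ?_ (fun k => Fin.cases ?_ (fun j => ?_) k) k
    · simp only [ppw, s0p, vec, Fin.cons_zero]
      have h := congrArg (fun z : ℝ => (z : ℂ)) e0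
      push_cast at h
      simp only [Int.cast_one, Int.cast_zero, mul_one, mul_zero, Finset.sum_const_zero, add_zero]
      rw [h, neg_div, neg_neg]
    · simp only [ppw, vec, Fin.cons_succ, Fin.cons_zero, Int.cast_one, Int.cast_zero, mul_one,
        mul_zero, Finset.sum_const_zero]
      ring
    · simp only [ppw, pC, vec, Fin.cons_succ, Pi.zero_apply, Int.cast_zero, mul_zero, Pi.smul_apply,
        ev, Pi.single_apply, smul_eq_mul, mul_ite, mul_one, Int.cast_ite, zero_add]
      have h := congrArg (fun z : ℝ => (z : ℂ)) (e1 j)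
      push_cast at h
      rw [Finset.sum_ite_eq Finset.univ j, if_pos (Finset.mem_univ _), div_mul_cancel₀ _ hMC]
      rw [← h]
      push_cast
      rfl

end Pool.Agent.H56.CT
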