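import Pool.Agent.H56.CT.WTA
import Pool.Agent.H56.CT.WTB
import Pool.Agent.H56.CT.WCP
import Pool.Agent.H22.T6.GGD

/-!
# WGD: the level and the density of the good levels, with weights

ADAPT `good` (`Pool/Agent/H22/T6/GGD.lean`; `GGD_yq`, `GGD_dtY`, `GGD_lay`, `chamber`, `dens`, `rbasis` by import) with `thetaw`, `yclearw`, `crit_piw` instead of `theta`, `yclear`, `crit_pi`.  The equations for `rbasis`: `inr k`: `g ↦ A5 a M g k` if `k ∈ sh P`, zero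
otherwise, as before.  `π - θ0` satisfies them: for `j ∈ P`: `∑ π g A_g (j+2) = p j` (`ppw (pC p) _ _ j.succ.succ = pC p j`) and `∑ θ0 g A_g (j+2) = yq θ0 = p j` (`THW.P1`).
Conclusion for the points `Y` of the density statement: `(Y_{j+2} : ℚ) = p j m` for `j ∈ P`, so `Y k = m` for `k ∈ sh (P.filter (p j = 1))`.
-/

set_option autoImplicit false

namespace Pool.Agent.H56.CT

open Finset AddMonoidAlgebra
open Pool.Agent.H56.SMC Pool.Agent.H37.T5 Pool.Agent.H56.T5 Pool.Agent.H37.T6 Pool.Agent.H22.T6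

/-- WGD -/
theorem goodw {n r : ℕ} (a : Fin r → (Fin n →₀ ℕ)) (w : Fin n → ℕ) (p : Fin n → ℚ)
    (hp : ∀ j, 0 < p j ∧ p j ≤ 1) (hcrit : CritW a p w) (M : ℤ)
    (hM : (n : ℤ) + 2 ≤ M) {κ : Type} [Fintype κ] (h : κ → Lat (n + 2))
    (P : Finset (Fin n)) (c : Fin n → ℚ) (lam : Fin r → ℚ)
    (hL : LPW (fun i j => a i j) (FF a w) (CC0 a w) P c lam p) (D : ℤ) (hD : 0 < D)
    (cZ : Fin n → ℤ) (hcZ : ∀ j, (cZ j : ℚ) = D * c j)
    (hsm : ∑ i ∈ FF a w, lam i * (1 - ∑ j, c j * (a i j : ℚ)) < 1 / (2 * D)) :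
    ∃ (m0 : ℤ) (Y0 : Lat (n + 2)), 0 < m0 ∧ InC (A5 a M) Y0 ∧ dt (h5 a w) Y0 = 0 ∧
      (∀ j, (∃ i, a i j = 0) → p j * m0 ≤ (Y0 j.succ.succ : ℚ)) ∧
      (∀ j ∈ P, (Y0 j.succ.succ : ℚ) = p j * m0) ∧
      Y0 (Fin.succ 0) < m0 ∧ D * Y0 0 - ∑ j, cZ j * Y0 j.succ.succ < m0 ∧
      ∀ Δ : MvPolynomial (Fin (n + 2)) ℂ,
        MvPolynomial.eval (ppw (pC p) (s0p a p w) Complex.I) Δ ≠ 0 →
        ∃ (m : ℤ) (Y : Lat (n + 2)), 0 < m ∧
          Lay h (h5 a w) m Y = Lay h (h5 a w) m0 Y0 ∧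
          (∀ k ∈ sh (P.filter (fun j => p j = 1)), Y k = m) ∧
          MvPolynomial.eval (fun j => (Y j : ℂ) / (m : ℂ)) Δ ≠ 0 := by
  classical
  obtain ⟨θ0, ε, hε, hθ⟩ := thetaw a w M hM P c lam p hp hL D hD cZ hcZ hsm
  obtain ⟨eqs, heqs⟩ : ∃ eqs : IX n r ⊕ Fin (n + 2) → IX n r → ℤ, eqs = fun e g' => match e with
    | Sum.inl g => if g' = g then (if dt (h5 a w) (A5 a M g) ≠ 0 then 1 else 0) else 0
    | Sum.inr k => if k ∈ sh P then A5 a M g' k else 0 := ⟨_, rfl⟩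
  have el : ∀ g g', eqs (Sum.inl g) g' =
      if g' = g then (if dt (h5 a w) (A5 a M g) ≠ 0 then 1 else 0) else 0 := by
    intro g g'
    rw [heqs]
  have er : ∀ k g', eqs (Sum.inr k) g' = if k ∈ sh P then A5 a M g' k else 0 := by
    intro k g'
    rw [heqs]
  obtain ⟨s, ρ, hρ, hspan⟩ := rbasis eqs
  have hρ1 : ∀ i g, dt (h5 a w) (A5 a M g) ≠ 0 → ρ i g = 0 := by
    intro i g hg
    have h1 := hρ i (Sum.inl g)
    rw [Finset.sum_eq_single g] at h1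
    · rw [el, if_pos rfl, if_pos hg] at h1
      simpa using h1
    · intro g' _ hne
      rw [el, if_neg hne]
      simp
    · intro hc
      exact absurd (Finset.mem_univ _) hc
  have hρ2 : ∀ i, ∀ k ∈ sh P, yq a M (ρ i) k = 0 := by
    intro i k hk
    have h1 := hρ i (Sum.inr k)
    unfold yq
    rw [← h1]
    refine Finset.sum_congr rfl fun g _ => ?_
    rw [er, if_pos hk]
    ring
  obtain ⟨S, hS⟩ : ∃ S : ℚ, S = ∑ g, ∑ i, |ρ i g| := ⟨_, rfl⟩
  have hS0 : 0 ≤ S := by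
    rw [hS]
    exact Finset.sum_nonneg fun g _ => Finset.sum_nonneg fun i _ => abs_nonneg _
  obtain ⟨ε', hε'⟩ : ∃ ε' : ℚ, ε' = ε / (1 + S) := ⟨_, rfl⟩
  have hε'0 : 0 < ε' := by
    rw [hε']
    positivity
  have hε'1 : ε' * S < ε := by
    rw [hε', div_mul_eq_mul_div, div_lt_iff₀ (by linarith)]
    nlinarith
  have hTH : ∀ τ : Fin s → ℚ, (∀ i, |τ i| < ε') →
      THW a w M P D cZ p (fun g => θ0 g + ∑ i, τ i * ρ i g) := by
    intro τ hτ
    refine hθ (fun g => ∑ i, τ i * ρ i g) ?_ ?_ ?_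
    · intro g
      have h1 : |∑ i, τ i * ρ i g| ≤ ∑ i, ε' * |ρ i g| := by
        refine (Finset.abs_sum_le_sum_abs _ _).trans (Finset.sum_le_sum fun i _ => ?_)
        rw [abs_mul]
        exact mul_le_mul_of_nonneg_right (hτ i).le (abs_nonneg _)
      rw [← Finset.mul_sum] at h1
      have h2 : ∑ i, |ρ i g| ≤ S := by
        rw [hS]
        exact Finset.single_le_sum (f := fun g => ∑ i, |ρ i g|)
          (fun g _ => Finset.sum_nonneg fun i _ => abs_nonneg _) (Finset.mem_univ g)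
      have h3 := mul_le_mul_of_nonneg_left h2 hε'0.le
      linarith
    · intro g hg
      exact Finset.sum_eq_zero fun i _ => by rw [hρ1 i g hg, mul_zero]
    · intro j hj
      have hk : j.succ.succ ∈ sh P := mem_sh.mpr ⟨j, hj, rfl⟩
      have h1 := GGD_yq a M (fun _ => 0) ρ τ j.succ.succ
      have h2 : yq a M (fun _ : IX n r => (0 : ℚ)) j.succ.succ = 0 := by
        unfold yq
        simp
      rw [h2, zero_add] at h1
      have h3 : (fun g => (0 : ℚ) + ∑ i, τ i * ρ i g) = fun g => ∑ i, τ i * ρ i g := by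
        funext g
        rw [zero_add]
      rw [h3] at h1
      rw [h1]
      exact Finset.sum_eq_zero fun i _ => by rw [hρ2 i _ hk, zero_mul]
  obtain ⟨τ1, hτ1, ε1, hε1, hch⟩ := chamber
    (fun v => ∑ g, θ0 g * (dt (h v) (A5 a M g) : ℚ))
    (fun v i => ∑ g, ρ i g * (dt (h v) (A5 a M g) : ℚ)) (ε' / 2) (by linarith)
  have hτb : ∀ τ : Fin s → ℚ, (∀ i, |τ i - τ1 i| < min ε1 (ε' / 2)) → ∀ i, |τ i| < ε' := by
    intro τ hτ i
    have h1 := hτ i
    have h2 := hτ1 i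
    have h3 := lt_of_lt_of_le h1 (min_le_right _ _)
    have h4 : |τ i| ≤ |τ i - τ1 i| + |τ1 i| := by
      have := abs_add_le (τ i - τ1 i) (τ1 i)
      simpa using this
    linarith
  have hself : ∀ i, |τ1 i - τ1 i| < min ε1 (ε' / 2) := by
    intro i
    rw [sub_self, abs_zero]
    exact lt_min hε1 (by linarith)
  obtain ⟨m0, Y0, hm0, hY0, hInC, hdt0, hP0, hJ0, hl0, hs0⟩ :=
    yclearw a w M P D cZ p _ (hTH τ1 (hτb τ1 hself))
  refine ⟨m0, Y0, hm0, hInC, hdt0, hJ0, hP0, hl0, hs0, ?_⟩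
  intro Δ hΔ
  obtain ⟨π, hπ0, hπ⟩ := crit_piw a p w hcrit M (by omega)
  have hTH0 : THW a w M P D cZ p (fun g => θ0 g + 0) := by
    refine hθ (fun _ => 0) (fun g => by simpa using hε) (fun g _ => rfl) (fun k _ => ?_)
    unfold yq
    simp
  have hθ00 : (fun g => θ0 g + 0) = θ0 := by
    funext g
    rw [add_zero]
  rw [hθ00] at hTH0
  have hsol : ∀ e, ∑ g, (eqs e g : ℂ) * (π g - (θ0 g : ℂ)) = 0 := by
    intro e
    rcases e with g | k
    · rw [Finset.sum_eq_single g]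
      · rw [el, if_pos rfl]
        by_cases hg : dt (h5 a w) (A5 a M g) ≠ 0
        · rw [hπ0 g hg, hTH0.off g hg]
          simp
        · rw [if_neg hg]
          simp
      · intro g' _ hne
        rw [el, if_neg hne]
        simp
      · intro hc
        exact absurd (Finset.mem_univ _) hc
    · by_cases hk : k ∈ sh P
      · have h1 : ∑ g, (eqs (Sum.inr k) g : ℂ) * (π g - (θ0 g : ℂ)) =
            ∑ g, π g * (A5 a M g k : ℂ) - ((yq a M θ0 k : ℚ) : ℂ) := by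
          unfold yq
          push_cast
          rw [← Finset.sum_sub_distrib]
          refine Finset.sum_congr rfl fun g _ => ?_
          rw [er, if_pos hk]
          ring
        obtain ⟨j, hj, rfl⟩ := mem_sh.mp hk
        rw [h1, ← hπ, hTH0.P1 j hj]
        have h2 : (ppw (pC p) (s0p a p w) Complex.I : Fin (n + 2) → ℂ) j.succ.succ =
            ((p j : ℚ) : ℂ) := rfl
        rw [h2, sub_self]
      · refine Finset.sum_eq_zero fun g _ => ?_
        rw [er, if_neg hk]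
        simp
  obtain ⟨τ0, hτ0⟩ := hspan (fun g => π g - (θ0 g : ℂ)) hsol
  obtain ⟨Δ', hΔ'⟩ : ∃ Δ' : MvPolynomial (Fin s) ℂ, Δ' = MvPolynomial.bind₁
    (fun k => MvPolynomial.C ((yq a M θ0 k : ℚ) : ℂ) +
      ∑ i, MvPolynomial.C ((yq a M (ρ i) k : ℚ) : ℂ) * MvPolynomial.X i) Δ := ⟨_, rfl⟩
  have hev : ∀ τ : Fin s → ℂ, MvPolynomial.eval τ Δ' = MvPolynomial.eval
      (fun k => ((yq a M θ0 k : ℚ) : ℂ) + ∑ i, ((yq a M (ρ i) k : ℚ) : ℂ) * τ i) Δ := by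
    intro τ
    rw [hΔ']
    have h1 := MvPolynomial.eval₂Hom_bind₁ (RingHom.id ℂ) τ
      (fun k => MvPolynomial.C ((yq a M θ0 k : ℚ) : ℂ) +
        ∑ i, MvPolynomial.C ((yq a M (ρ i) k : ℚ) : ℂ) * MvPolynomial.X i) Δ
    refine h1.trans ?_
    have h2 : (fun k => (MvPolynomial.eval₂Hom (RingHom.id ℂ) τ)
        (MvPolynomial.C ((yq a M θ0 k : ℚ) : ℂ) +
          ∑ i, MvPolynomial.C ((yq a M (ρ i) k : ℚ) : ℂ) * MvPolynomial.X i)) =
        fun k => ((yq a M θ0 k : ℚ) : ℂ) + ∑ i, ((yq a M (ρ i) k : ℚ) : ℂ) * τ i := by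
      funext k
      rw [map_add, map_sum]
      simp
    rw [h2]
    rfl
  have hpw : (fun k => ((yq a M θ0 k : ℚ) : ℂ) + ∑ i, ((yq a M (ρ i) k : ℚ) : ℂ) * τ0 i) =
      ppw (pC p) (s0p a p w) Complex.I := by
    funext k
    rw [hπ k]
    have h1 : ∀ g, π g = (θ0 g : ℂ) + ∑ i, τ0 i * (ρ i g : ℂ) := by
      intro g
      rw [← hτ0 g]
      ring
    simp only [h1]
    unfold yq
    push_cast
    have h2 : ∑ g, ((θ0 g : ℂ) + ∑ i, τ0 i * (ρ i g : ℂ)) * (A5 a M g k : ℂ) =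
        ∑ g, (θ0 g : ℂ) * (A5 a M g k : ℂ) +
          ∑ g, ∑ i, τ0 i * (ρ i g : ℂ) * (A5 a M g k : ℂ) := by
      rw [← Finset.sum_add_distrib]
      refine Finset.sum_congr rfl fun g _ => ?_
      rw [add_mul, Finset.sum_mul]
    rw [h2, Finset.sum_comm (f := fun g i => τ0 i * (ρ i g : ℂ) * (A5 a M g k : ℂ))]
    congr 1
    refine Finset.sum_congr rfl fun i _ => ?_
    rw [Finset.sum_mul]
    refine Finset.sum_congr rfl fun g _ => ?_
    ring
  have hne : MvPolynomial.eval τ0 Δ' ≠ 0 := by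
    rw [hev, hpw]
    exact hΔ
  obtain ⟨τ, hτ, hτe⟩ := dens Δ' τ0 hne τ1 (min ε1 (ε' / 2)) (lt_min hε1 (by linarith))
  obtain ⟨m, Y, hm, hY, -, hdt, hP, -, -, -⟩ := yclearw a w M P D cZ p _ (hTH τ (hτb τ hτ))
  refine ⟨m, Y, hm, ?_, ?_, ?_⟩
  · ext u
    rw [GGD_lay a w M h θ0 ρ τ m Y hm hY hdt u, GGD_lay a w M h θ0 ρ τ1 m0 Y0 hm0 hY0 hdt0 u]
    refine and_congr_right fun _ => forall_congr' fun v => ?_
    exact hch τ (fun i => lt_of_lt_of_le (hτ i) (min_le_left _ _)) v (dt (h v) u)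
  · intro k hk
    obtain ⟨j, hj, rfl⟩ := mem_sh.mp hk
    obtain ⟨hj1, hj2⟩ := Finset.mem_filter.mp hj
    have h1 := hP j hj1
    rw [hj2, one_mul] at h1
    exact_mod_cast h1
  · rw [hev] at hτe
    have hmc : (m : ℂ) ≠ 0 := by exact_mod_cast hm.ne'
    have h1 : (fun j => (Y j : ℂ) / (m : ℂ)) =
        fun k => ((yq a M θ0 k : ℚ) : ℂ) + ∑ i, ((yq a M (ρ i) k : ℚ) : ℂ) * ((τ i : ℚ) : ℂ) := by
      funext k
      have h2 := hY k
      rw [GGD_yq] at h2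
      have h3 : (Y k : ℂ) = (m : ℂ) * (((yq a M θ0 k : ℚ) : ℂ) +
          ∑ i, ((yq a M (ρ i) k : ℚ) : ℂ) * ((τ i : ℚ) : ℂ)) := by
        exact_mod_cast congrArg (fun x : ℚ => (x : ℂ)) h2
      rw [h3, mul_div_cancel_left₀ _ hmc]
    rw [h1]
    exact hτe

end Pool.Agent.H56.CT
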