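import Pool.Agent.H56.CT.WDefs
import Pool.Agent.H22.T6.GUP

/-!
# WUP: the property (U'), with weights

ADAPT `uprime` (`Pool/Agent/H22/T6/GUP.lean`).
Proof.  Suppose the identity holds on `FF a w`.  The linear functional `φ(y) = ∑ k ∈ K2, y (inr k) - ∑ k ∈ K2, y (inr (j k))` vanishes on `H22.rowR a i`, `i ∈ FF a w`, and on `eR j'`, `w j' = 0` (`j' ≠ k` for `k ∈ K2`: `k ∈ P ⊆ CC0 a w`, `w k ≠ 0`; `j' ≠ j k` by `hj`), so on
`p0W a p w` (`hcrit`): `∑ k ∈ K2, p k = ∑ k ∈ K2, p (j k)`.  `p k = 1` for `k ∈ K2` and all `p ≤ 1`, so `p (j k) = 1` for all `k ∈ K2`.  All `j k` are in `CC0 a w` (`hz`, `hj`).  `y_j = ∑ i ∈ FF, lam i * a i j` is `p j` on `P` and `> p j` on `CC0 \ P`.  Summing the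
identity with the weights `lam i`: `∑ k ∈ K2, y_{j k} = ∑ k ∈ K2, y_k = |K2|`, and all `y_{j k} ≥ p (j k) = 1`, so all are `1 = p (j k)` and `j k ∈ P`, `c (j k) > 0`.  The rest (the functional `c'`) is unchanged (Case B of `uprime`).
-/

set_option autoImplicit false

namespace Pool.Agent.H56.CT

open Finset AddMonoidAlgebra
open Pool.Agent.H56.SMC Pool.Agent.H37.T5 Pool.Agent.H56.T5 Pool.Agent.H37.T6 Pool.Agent.H22.T6

/-- WUP -/
theorem uprimew {n r : ℕ} (a : Fin r → (Fin n →₀ ℕ)) (w : Fin n → ℕ) (hN : 0 < H22.wmin a w)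
    (p : Fin n → ℚ) (hp : ∀ j, 0 < p j ∧ p j ≤ 1) (hz : ∀ j, ∃ i, a i j = 0)
    (hcrit : CritW a p w) (P : Finset (Fin n)) (c : Fin n → ℚ)
    (lam : Fin r → ℚ) (hL : LPW (fun i j => a i j) (FF a w) (CC0 a w) P c lam p)
    (K2 : Finset (Fin n)) (hK2 : ∀ k ∈ K2, k ∈ P ∧ p k = 1 ∧ c k = 1) (hne : K2.Nonempty)
    (j : Fin n → Fin n) (hinj : Set.InjOn j (K2 : Set (Fin n)))
    (hj : ∀ k ∈ K2, j k ∉ K2 ∧ w (j k) ≠ 0) :
    ¬ ∀ i ∈ FF a w, ∑ k ∈ K2, a i k = ∑ k ∈ K2, a i (j k) := by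
  classical
  intro hid
  have _ := hinj
  have _ := hN
  have hck : ∀ i, ∑ k ∈ K2, (a i k : ℚ) = ∑ k ∈ K2, c k * (a i k : ℚ) := fun i =>
    sum_congr rfl fun k hk => by rw [(hK2 k hk).2.2, one_mul]
  have hidQ : ∀ i ∈ FF a w, ∑ k ∈ K2, (a i k : ℚ) = ∑ k ∈ K2, (a i (j k) : ℚ) := by
    intro i hi
    exact_mod_cast hid i hi
  have hidR : ∀ i ∈ FF a w, ∑ k ∈ K2, (a i k : ℝ) = ∑ k ∈ K2, (a i (j k) : ℝ) := by
    intro i hi
    exact_mod_cast hid i hi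
  have hA : ∀ k ∈ K2, j k ∈ CC0 a w := by
    intro k hk
    simp only [CC0, mem_filter, mem_univ, true_and]
    exact ⟨(hj k hk).2, hz (j k)⟩
  have hwk : ∀ k ∈ K2, w k ≠ 0 := by
    intro k hk
    have h1 := hL.PC (hK2 k hk).1
    simp only [CC0, mem_filter, mem_univ, true_and] at h1
    exact h1.1
  have hker : Submodule.span ℝ
      ({y | ∃ i ∈ FF a w, y = H22.rowR a i} ∪
        {y | ∃ j, w j = 0 ∧ y = (eR j : Unit ⊕ Fin n → ℝ)}) ≤
      LinearMap.ker (∑ k ∈ K2, ((LinearMap.proj (Sum.inr k) : (Unit ⊕ Fin n → ℝ) →ₗ[ℝ] ℝ) -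
        LinearMap.proj (Sum.inr (j k)))) := by
    rw [Submodule.span_le]
    rintro y (⟨i, hi, rfl⟩ | ⟨j', hj', rfl⟩)
    · simp only [SetLike.mem_coe, LinearMap.mem_ker, LinearMap.sum_apply, LinearMap.sub_apply,
        LinearMap.proj_apply, H22.rowR, Sum.elim_inr]
      rw [sum_sub_distrib, hidR i hi, sub_self]
    · simp only [SetLike.mem_coe, LinearMap.mem_ker, LinearMap.sum_apply, LinearMap.sub_apply,
        LinearMap.proj_apply, eR, Sum.elim_inr]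
      refine sum_eq_zero fun k hk => ?_
      have h1 : k ≠ j' := by
        rintro rfl
        exact hwk k hk hj'
      have h2 : j k ≠ j' := by
        rintro rfl
        exact (hj k hk).2 hj'
      rw [Pi.single_eq_of_ne h1, Pi.single_eq_of_ne h2, sub_zero]
  have hp0 := hker hcrit
  simp only [LinearMap.mem_ker, LinearMap.sum_apply, LinearMap.sub_apply, LinearMap.proj_apply,
    p0W, Sum.elim_inr] at hp0
  have hpj : ∀ k ∈ K2, p (j k) = 1 := by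
    have h1 : ∑ k ∈ K2, (p k - p (j k)) = 0 := by exact_mod_cast hp0
    have h2 : ∀ k ∈ K2, 0 ≤ p k - p (j k) := fun k hk => by
      rw [(hK2 k hk).2.1]
      linarith [(hp (j k)).2]
    intro k hk
    have h3 := (sum_eq_zero_iff_of_nonneg h2).1 h1 k hk
    rw [(hK2 k hk).2.1] at h3
    linarith
  have hy1 : ∀ k ∈ K2, ∑ i ∈ FF a w, lam i * (a i k : ℚ) = 1 := fun k hk => by
    have h1 := hL.lP k (hK2 k hk).1
    rw [(hK2 k hk).2.1] at h1
    exact h1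
  have hy2 : ∀ k ∈ K2, 1 ≤ ∑ i ∈ FF a w, lam i * (a i (j k) : ℚ) := by
    intro k hk
    by_cases hP : j k ∈ P
    · have h1 := hL.lP _ hP
      rw [hpj k hk] at h1
      exact h1.ge
    · have h1 := hL.lC _ (hA k hk) hP
      rw [hpj k hk] at h1
      exact h1.le
  have hsum : ∑ k ∈ K2, ∑ i ∈ FF a w, lam i * (a i (j k) : ℚ) =
      ∑ k ∈ K2, ∑ i ∈ FF a w, lam i * (a i k : ℚ) := by
    rw [sum_comm, sum_comm (s := K2)]
    refine sum_congr rfl fun i hi => ?_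
    rw [← mul_sum, ← mul_sum, hidQ i hi]
  have hz1 : ∑ k ∈ K2, (∑ i ∈ FF a w, lam i * (a i (j k) : ℚ) - 1) = 0 := by
    rw [sum_sub_distrib, hsum, ← sum_sub_distrib]
    exact sum_eq_zero fun k hk => by rw [hy1 k hk, sub_self]
  have hz2 := (sum_eq_zero_iff_of_nonneg (fun k hk => sub_nonneg.2 (hy2 k hk))).1 hz1
  have hjP : ∀ k ∈ K2, j k ∈ P := by
    intro k hk
    by_contra hP
    have h1 := hL.lC _ (hA k hk) hP
    have h2 := hz2 k hk
    rw [hpj k hk] at h1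
    linarith
  obtain ⟨k2, hk2⟩ := hne
  have hex : ∃ i ∈ FF a w, a i k2 ≠ 0 := by
    by_contra hno
    push Not at hno
    have h1 := hy1 k2 hk2
    rw [sum_eq_zero fun i hi => by rw [hno i hi, Nat.cast_zero, mul_zero]] at h1
    exact zero_ne_one h1
  obtain ⟨i, hi, hik⟩ := hex
  have hge : (1 : ℚ) ≤ ∑ k ∈ K2, (a i k : ℚ) := by
    have h1 : (a i k2 : ℚ) ≤ ∑ k ∈ K2, (a i k : ℚ) :=
      single_le_sum (f := fun k => (a i k : ℚ)) (fun k _ => Nat.cast_nonneg _) hk2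
    have h2 : (1 : ℚ) ≤ (a i k2 : ℚ) := by
      exact_mod_cast Nat.one_le_iff_ne_zero.2 hik
    exact h2.trans h1
  have hex3 : ∃ k3 ∈ K2, a i (j k3) ≠ 0 := by
    by_contra hno
    push Not at hno
    rw [hidQ i hi, sum_eq_zero fun k hk => by rw [hno k hk, Nat.cast_zero]] at hge
    linarith
  obtain ⟨k3, hk3, hik3⟩ := hex3
  have h1 := hL.c1 i hi
  have h2 : ∑ l ∈ insert (j k3) K2, c l * (a i l : ℚ) ≤ ∑ l, c l * (a i l : ℚ) :=
    sum_le_univ_sum_of_nonneg (fun j => mul_nonneg (hL.c0 j) (Nat.cast_nonneg _))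
  rw [sum_insert (hj k3 hk3).1, ← hck i] at h2
  have h3 : 0 < c (j k3) := lt_of_le_of_ne (hL.c0 _) (Ne.symm ((hL.cP _).2 (hjP k3 hk3)))
  have h4 : 0 < c (j k3) * (a i (j k3) : ℚ) := by
    apply mul_pos h3
    exact_mod_cast Nat.pos_of_ne_zero hik3
  linarith

end Pool.Agent.H56.CT
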