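import Pool.Agent.H56.CT.WDefs
import Pool.Agent.H22.T6.VV

/-!
# WVV: Lemma V, with weights

ADAPT `lemV` (`Pool/Agent/H22/T6/VV.lean`; `lemV_rel` by import).  The point `p0R` is used only once, in `hne`: a functional `y ↦ y (inr k)`, `k ∈ K`, cannot vanish on `Y` because it does not vanish at `p0W` (`p k > 0`).  `hU0` is now the negation of the new conclusion; in
`hj` it is used for `b = bb k`, `k ∈ K1 ⊆ K ⊆ T`.
-/

set_option autoImplicit false

namespace Pool.Agent.H56.CT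

open Finset AddMonoidAlgebra
open Pool.Agent.H56.SMC Pool.Agent.H37.T5 Pool.Agent.H56.T5 Pool.Agent.H37.T6 Pool.Agent.H22.T6

/-- WVV -/
theorem lemVw {n r : ℕ} (a : Fin r → (Fin n →₀ ℕ)) (p : Fin n → ℚ) (hp : ∀ j, 0 < p j)
    (w : Fin n → ℕ) (Yb : Finset (Fin r)) (Yj : Finset (Fin n)) (hY : YDp a p w Yb Yj)
    (T K : Finset (Fin n)) (hKT : K ⊆ T) (hK : K.Nonempty)
    (hKw : ∀ k ∈ K, w k ≠ 0) (hK1 : ∀ i ∈ FF a w, ∑ k ∈ K, a i k ≤ 1)
    (hdim : Module.finrank ℝ (Submodule.span ℝ (Dif (aZ a) (H22.T6.PF a w) K)) < K.card)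
    (hU : ∀ K2 : Finset (Fin n), K2 ⊆ K → K2.Nonempty → ∀ j : Fin n → Fin n,
      Set.InjOn j (K2 : Set (Fin n)) → (∀ k ∈ K2, j k ∉ K ∧ w (j k) ≠ 0) →
      ¬ ∀ i ∈ FF a w, ∑ k ∈ K2, a i k = ∑ k ∈ K2, a i (j k)) : UYp a T Yb Yj := by
  classical
  by_contra hU0
  have hFF : ∀ i, i ∈ FF a w ↔ ∑ j, a i j * w j = H22.wmin a w := by
    intro i
    simp [FF]
  have hPF : ∀ k i, i ∈ PF a w k ↔ i ∈ FF a w ∧ a i k = 1 := by
    intro k i
    simp [PF]
  have hYF : ∀ b ∈ Yb, b ∈ FF a w := fun b hb => (hFF b).2 (hY.on b hb)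
  have hKJ : ∀ k ∈ K, k ∉ Yj := fun k hk h => hKw k hk (hY.onj k h)
  have h01 : ∀ i ∈ FF a w, ∀ k ∈ K, a i k ≤ 1 := fun i hi k hk =>
    (single_le_sum (f := fun k => a i k) (fun _ _ => Nat.zero_le _) hk).trans (hK1 i hi)
  have h11 : ∀ i ∈ FF a w, ∀ k ∈ K, ∀ k' ∈ K, a i k = 1 → a i k' = 1 → k = k' := by
    intro i hi k hk k' hk' h1 h2
    by_contra hne
    have h3 : ∑ l ∈ ({k, k'} : Finset (Fin n)), a i l ≤ ∑ l ∈ K, a i l :=
      sum_le_sum_of_subset (by
        intro l hl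
        rcases mem_insert.1 hl with rfl | hl
        · exact hk
        · rw [mem_singleton.1 hl]
          exact hk')
    rw [sum_pair hne, h1, h2] at h3
    have := hK1 i hi
    omega
  have hne : ∀ k ∈ K, ∃ b ∈ Yb, a b k = 1 := by
    intro k hk
    by_contra hcon
    push Not at hcon
    have h0 : ∀ b ∈ Yb, a b k = 0 := by
      intro b hb
      have := h01 b (hYF b hb) k hk
      have := hcon b hb
      omega
    have hle : Submodule.span ℝ ({y | ∃ b ∈ Yb, y = H22.rowR a b} ∪ {y | ∃ j ∈ Yj, y = eR j}) ≤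
        LinearMap.ker (LinearMap.proj (Sum.inr k) : (Unit ⊕ Fin n → ℝ) →ₗ[ℝ] ℝ) := by
      rw [Submodule.span_le]
      rintro y (⟨b, hb, rfl⟩ | ⟨j, hj, rfl⟩)
      · simp [LinearMap.mem_ker, H22.rowR, h0 b hb]
      · have : k ≠ j := fun h => hKJ k hk (h ▸ hj)
        simp [eR, this]
    have h1 := hle hY.span
    have h2 : p k = 0 := by simpa [p0W] using h1
    exact (hp k).ne' h2
  have hFr : Nonempty (Fin r) := by
    obtain ⟨kk, hkk⟩ := hK
    obtain ⟨b, -⟩ := hne kk hkk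
    exact ⟨b⟩
  choose! bb hbY hb1 using hne
  set K1 := K.filter (fun k => ∀ b ∈ Yb, a b k = 1 → b = bb k) with hK1def
  set K3 := K.filter (fun k => ¬ ∀ b ∈ Yb, a b k = 1 → b = bb k) with hK3def
  have hcard : K1.card + K3.card = K.card := card_filter_add_card_filter_not _
  have hK1K : ∀ k ∈ K1, k ∈ K := fun k hk => (mem_filter.1 hk).1
  have hK3K : ∀ k ∈ K3, k ∈ K := fun k hk => (mem_filter.1 hk).1
  have hex3 : ∀ k ∈ K3, ∃ b ∈ Yb, a b k = 1 ∧ b ≠ bb k := by
    intro k hk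
    have := (mem_filter.1 hk).2
    push Not at this
    exact this
  choose! b' hb'Y hb'1 hb'ne using hex3
  have h13 : ∀ k ∈ K1, ∀ k' ∈ K3, k ≠ k' := by
    rintro k hk k' hk' rfl
    exact (mem_filter.1 hk').2 (mem_filter.1 hk).2
  set W := Submodule.span ℝ (Dif (aZ a) (PF a w) K) with hW
  let d : Fin n → (Fin n → ℝ) := fun k j => (a (b' k) j : ℝ) - (a (bb k) j : ℝ)
  have hdifW : ∀ k ∈ K, ∀ i ∈ FF a w, ∀ i' ∈ FF a w, a i k = 1 → a i' k = 1 →
      (fun j => (a i j : ℝ) - (a i' j : ℝ)) ∈ W := by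
    intro k hk i hi i' hi' h1 h2
    refine Submodule.subset_span ⟨k, hk, i, (hPF k i).2 ⟨hi, h1⟩, i', (hPF k i').2 ⟨hi', h2⟩, ?_⟩
    ext j
    simp [aZ]
  have hdW : ∀ k ∈ K3, d k ∈ W := fun k hk =>
    hdifW k (hK3K k hk) _ (hYF _ (hb'Y k hk)) _ (hYF _ (hbY k (hK3K k hk))) (hb'1 k hk)
      (hb1 k (hK3K k hk))
  have hrow : LinearIndependent ℝ (fun b : Yb => H22.rowR a b.1) :=
    (linearIndependent_sum.1 hY.ind).1
  have hd : LinearIndependent ℝ (fun k : K3 => d k.1) := by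
    rw [Fintype.linearIndependent_iff] at hrow ⊢
    intro c hc k0
    have hsum : ∀ g : Fin r → ℝ, ∑ b : Yb, (∑ k : K3, c k * ((if b.1 = b' k.1 then 1 else 0) -
        (if b.1 = bb k.1 then 1 else 0))) * g b.1 = ∑ k : K3, c k * (g (b' k.1) - g (bb k.1)) := by
      intro g
      simp only [sum_mul]
      rw [sum_comm]
      refine sum_congr rfl fun k _ => ?_
      have e1 : ∀ β ∈ Yb, ∑ b : Yb, (if b.1 = β then (1 : ℝ) else 0) * g b.1 = g β := by
        intro β hβ
        rw [Finset.sum_coe_sort Yb (fun b => (if b = β then (1 : ℝ) else 0) * g b)]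
        simp [hβ]
      have e2 := e1 _ (hb'Y k.1 k.2)
      have e3 := e1 _ (hbY k.1 (hK3K k.1 k.2))
      simp only [mul_assoc, ← mul_sum, sub_mul, sum_sub_distrib, e2, e3]
    have h2 := hrow (fun b => ∑ k : K3, c k * ((if b.1 = b' k.1 then 1 else 0) -
      (if b.1 = bb k.1 then 1 else 0))) (by
        ext t
        rw [Finset.sum_apply]
        simp only [Pi.smul_apply, smul_eq_mul]
        rw [hsum (fun b => H22.rowR a b t)]
        rcases t with t | j
        · simp [H22.rowR]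
        · have h3 := congrFun hc j
          rw [Finset.sum_apply] at h3
          simpa [H22.rowR, d] using h3) ⟨b' k0.1, hb'Y k0.1 k0.2⟩
    have h3 : ∀ k : K3, c k * ((if b' k0.1 = b' k.1 then (1 : ℝ) else 0) -
        (if b' k0.1 = bb k.1 then 1 else 0)) = if k = k0 then c k0 else 0 := by
      intro k
      by_cases hk : k = k0
      · subst hk
        rw [if_pos rfl, if_neg (hb'ne k.1 k.2), if_pos rfl, sub_zero, mul_one]
      · have e1 : b' k0.1 ≠ b' k.1 := by
          intro h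
          refine hk (Subtype.ext (h11 _ (hYF _ (hb'Y k.1 k.2)) _ (hK3K _ k.2) _ (hK3K _ k0.2)
            (hb'1 k.1 k.2) ?_))
          rw [← h]
          exact hb'1 k0.1 k0.2
        have e2 : b' k0.1 ≠ bb k.1 := by
          intro h
          refine hk (Subtype.ext (h11 _ (hYF _ (hbY k.1 (hK3K k.1 k.2))) _ (hK3K _ k.2) _
            (hK3K _ k0.2) (hb1 k.1 (hK3K k.1 k.2)) ?_))
          rw [← h]
          exact hb'1 k0.1 k0.2
        rw [if_neg e1, if_neg e2, if_neg hk, sub_zero, mul_zero]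
    simp only [h3] at h2
    simpa using h2
  have hapex : ∀ k ∈ K1, ApexY a Yb Yj (bb k) k := by
    intro k hk
    refine ⟨hbY k (hK1K k hk), hb1 k (hK1K k hk), hKJ k (hK1K k hk), fun b hb hbne => ?_⟩
    have h1 := h01 b (hYF b hb) k (hK1K k hk)
    by_contra h2
    exact hbne ((mem_filter.1 hk).2 b hb (by omega))
  have hj : ∀ k ∈ K1, ∃ k', ApexY a Yb Yj (bb k) k' ∧ k' ≠ k := by
    intro k hk
    by_contra hcon
    push Not at hcon
    exact hU0 ⟨bb k, k, hKT (hK1K k hk), hapex k hk, hcon⟩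
  choose! jj hjA hjne using hj
  have hbbne : ∀ k ∈ K, ∀ k' ∈ K, k ≠ k' → bb k ≠ bb k' := by
    intro k hk k' hk' hkk h
    refine hkk (h11 _ (hYF _ (hbY k hk)) _ hk _ hk' (hb1 k hk) ?_)
    rw [h]
    exact hb1 k' hk'
  obtain ⟨μ, ⟨k0, hk0, hμ0⟩, hμ⟩ := lemV_rel W K1 K3 (by rw [hcard]; exact hdim)
    (fun k => LinearMap.proj (jj k)) d hdW hd (by
      intro k hk k' hk'
      have hk3 := hK3K k' hk'
      have e1 : a (b' k') (jj k) = 0 := by
        refine (hjA k hk).2.2.2 _ (hb'Y k' hk') fun h => ?_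
        refine h13 k hk k' hk' (h11 _ (hYF _ (hbY k (hK1K k hk))) _ (hK1K k hk) _ hk3
          (hb1 k (hK1K k hk)) ?_)
        rw [← h]
        exact hb'1 k' hk'
      have e2 : a (bb k') (jj k) = 0 :=
        (hjA k hk).2.2.2 _ (hbY k' hk3) fun h =>
          hbbne k (hK1K k hk) k' hk3 (h13 k hk k' hk') h.symm
      simp [d, e1, e2])
  set K2 := K1.filter (fun k => μ k ≠ 0) with hK2def
  have hK21 : ∀ k ∈ K2, k ∈ K1 := fun k hk => (mem_filter.1 hk).1
  have hK2K : ∀ k ∈ K2, k ∈ K := fun k hk => hK1K k (hK21 k hk)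
  have hμ2 : ∀ v ∈ W, ∑ k ∈ K2, μ k * v (jj k) = 0 := by
    intro v hv
    have h1 := hμ v hv
    rw [hK2def, sum_filter]
    refine Eq.trans (sum_congr rfl fun k _ => ?_) h1
    by_cases h : μ k = 0
    · simp [h]
    · simp [h]
  -- the values at the distinguished elements
  have hjb : ∀ k ∈ K2, ∀ k' ∈ K2, a (bb k) (jj k') = if k' = k then 1 else 0 := by
    intro k hk k' hk'
    by_cases h : k' = k
    · subst h
      rw [if_pos rfl]
      exact (hjA k' (hK21 k' hk')).2.1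
    · rw [if_neg h]
      exact (hjA k' (hK21 k' hk')).2.2.2 _ (hbY k (hK2K k hk))
        (hbbne k (hK2K k hk) k' (hK2K k' hk') fun e => h e.symm)
  have hone : ∀ i ∈ FF a w, ∀ k ∈ K2, a i k = 1 → ∑ k' ∈ K2, a i k' = 1 := by
    intro i hi k hk h1
    rw [sum_eq_single_of_mem k hk fun k' hk' hkk => ?_, h1]
    have h2 := h01 i hi k' (hK2K k' hk')
    by_contra h3
    exact hkk (h11 i hi k' (hK2K k' hk') k (hK2K k hk) (by omega) h1)
  have hψ : ∀ i ∈ FF a w, ∑ k ∈ K2, a i k ≤ ∑ k ∈ K2, a i (jj k) := by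
    intro i hi
    by_cases h : ∃ k ∈ K2, a i k = 1
    · obtain ⟨k, hk, hik⟩ := h
      rw [hone i hi k hk hik]
      by_contra hcon
      have h0 : ∀ k' ∈ K2, a i (jj k') = 0 := by
        have : ∑ k' ∈ K2, a i (jj k') = 0 := by omega
        exact fun k' hk' => (sum_eq_zero_iff.1 this) k' hk'
      have h1 := hμ2 _ (hdifW k (hK2K k hk) i hi (bb k) (hYF _ (hbY k (hK2K k hk))) hik
        (hb1 k (hK2K k hk)))
      rw [sum_eq_single_of_mem k hk fun k' hk' hkk => ?_] at h1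
      · rw [h0 k hk, hjb k hk k hk, if_pos rfl] at h1
        have : μ k = 0 := by
          have h2 : μ k * ((0 : ℕ) - (1 : ℕ) : ℝ) = 0 := h1
          push_cast at h2
          linarith
        exact (mem_filter.1 hk).2 this
      · rw [h0 k' hk', hjb k hk k' hk', if_neg hkk]
        simp
    · push Not at h
      have : ∑ k ∈ K2, a i k = 0 := sum_eq_zero fun k hk => by
        have h1 := h01 i hi k (hK2K k hk)
        have h2 := h k hk
        omega
      rw [this]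
      exact Nat.zero_le _
  have hψY : ∀ b ∈ Yb, ∑ k ∈ K2, a b k = ∑ k ∈ K2, a b (jj k) := by
    intro b hb
    by_cases h : ∃ k ∈ K2, b = bb k
    · obtain ⟨k, hk, rfl⟩ := h
      rw [hone _ (hYF _ hb) k hk (hb1 k (hK2K k hk))]
      rw [sum_congr rfl fun k' hk' => hjb k hk k' hk']
      simp [hk]
    · push Not at h
      rw [sum_eq_zero fun k hk => ?_, sum_eq_zero fun k hk => ?_]
      · exact (hjA k (hK21 k hk)).2.2.2 b hb (h k hk)
      · exact (hapex k (hK21 k hk)).2.2.2 b hb (h k hk)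
  let y : Unit ⊕ Fin n → ℝ := Sum.elim (fun _ => 0)
    (fun t => ∑ k ∈ K2, ((if t = jj k then (1 : ℝ) else 0) - (if t = k then 1 else 0)))
  have hyr : ∀ i, ∑ t, H22.rowR a i t * y t =
      ((∑ k ∈ K2, a i (jj k) : ℕ) : ℝ) - ((∑ k ∈ K2, a i k : ℕ) : ℝ) := by
    intro i
    rw [Fintype.sum_sum_type]
    simp only [y, H22.rowR, Sum.elim_inl, Sum.elim_inr, mul_zero, sum_const_zero, zero_add]
    simp only [mul_sum]
    rw [sum_comm]
    push_cast
    rw [← sum_sub_distrib]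
    refine sum_congr rfl fun k _ => ?_
    simp [mul_sub, sum_sub_distrib]
  have hyj0 : ∀ j, w j = 0 → y (Sum.inr j) = ∑ k ∈ K2, (if j = jj k then (1 : ℝ) else 0) := by
    intro j hj
    simp only [y, Sum.elim_inr]
    refine sum_congr rfl fun k hk => ?_
    rw [if_neg (fun h : j = k => hKw k (hK2K k hk) (h ▸ hj)), sub_zero]
  obtain ⟨hr1, hr2⟩ := hY.rel y
    (by
      intro i hi
      rw [hyr, sub_nonneg]
      exact_mod_cast hψ i ((hFF i).2 hi))
    (by
      intro j hj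
      rw [hyj0 j hj]
      exact sum_nonneg fun k _ => by split_ifs <;> norm_num)
    (by
      intro b hb
      rw [hyr, hψY b hb, sub_self])
    (by
      intro j hj
      rw [hyj0 j (hY.onj j hj)]
      refine sum_eq_zero fun k hk => if_neg fun h => ?_
      exact (hjA k (hK21 k hk)).2.2.1 (h ▸ hj))
  have hk02 : k0 ∈ K2 := mem_filter.2 ⟨hk0, hμ0⟩
  refine hU K2 (fun k hk => hK2K k hk) ⟨k0, hk02⟩ jj ?_ ?_ ?_
  · intro k hk k' hk' h
    by_contra hkk
    have h1 := hjb k hk k' hk'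
    have h2 := hjb k hk k hk
    rw [if_neg (fun e => hkk e.symm)] at h1
    rw [if_pos rfl] at h2
    change jj k = jj k' at h
    rw [h, h1] at h2
    exact zero_ne_one h2
  · intro k hk
    have hA := hjA k (hK21 k hk)
    refine ⟨fun h => ?_, fun h => ?_⟩
    · exact hjne k (hK21 k hk) (h11 _ (hYF _ hA.1) _ h _ (hK2K k hk) hA.2.1 (hb1 k (hK2K k hk)))
    · have h1 := hr2 (jj k) h
      rw [hyj0 _ h] at h1
      rw [sum_eq_zero_iff_of_nonneg (fun k _ => by split_ifs <;> norm_num)] at h1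
      have := h1 k hk
      rw [if_pos rfl] at this
      exact one_ne_zero this
  · intro i hi
    have h1 := hr1 i ((hFF i).1 hi)
    rw [hyr, sub_eq_zero] at h1
    exact_mod_cast h1.symm

end Pool.Agent.H56.CT
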