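import Pool.Agent.H56.CT.WLP
import Pool.Agent.H56.CT.WGD
import Pool.Agent.H56.CT.WSU
import Pool.Agent.H56.CT.WEV
import Pool.Agent.H56.CT.WUP
import Pool.Agent.H56.CT.WVV
import Pool.Agent.H56.CT.WAP
import Pool.Agent.H22.T6.RT

/-!
# WRT: the root side, with weights

ADAPT `geX` (`Pool/Agent/H22/T6/GLU.lean`) and `rootT6` (`Pool/Agent/H22/T6/RT.lean`), see also `Pool/Agent/H22/T7/RTX.lean`.
`geyw`: as `geX` with `goodw`, `apw` (`D = P.filter (p j = 1)`), `gkx` (with this `D`; `hyD`: `Y0_{j+2} = p j m0 = m0`), `strict` (with `sh D`), `evalxw`, `supp_tw`.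
`rootw`: as `rootT6` with `lpw`, `geyw`; `K = P.filter (fun k => p k = 1 ∧ c k = 1)`; `hKne`: the sum in `hL.lP k` is `p k = 1`; `lemVw` with `T = TT1 p`, `uprimew` instead of `uprime` (no condition `hsw`).  `RT_cover` for `CritW`: the coordinate `p j > 0` of
`p0W` is not zero, so some `i ∈ FF a w` has `a i j ≠ 0` for `j ∈ CC0 a w` (`w j ≠ 0`).  `CritW` follows from `hY.span` as in `rootT6`.
-/

set_option autoImplicit false

namespace Pool.Agent.H56.CT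

open Finset AddMonoidAlgebra
open Pool.Agent.H56.SMC Pool.Agent.H37.T5 Pool.Agent.H56.T5 Pool.Agent.H37.T6 Pool.Agent.H22.T6

/-- A functional which vanishes on the face vanishes at `p0W`. -/
theorem WRT_fun {n r : ℕ} (a : Fin r → (Fin n →₀ ℕ)) (p : Fin n → ℚ) (w : Fin n → ℕ)
    (hcrit : CritW a p w)
    (f : (Unit ⊕ Fin n → ℝ) →ₗ[ℝ] ℝ) (h1 : ∀ i ∈ FF a w, f (H22.rowR a i) = 0)
    (h2 : ∀ j, w j = 0 → f (eR j) = 0) : f (p0W a p w) = 0 := by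
  have h3 : Submodule.span ℝ ({y | ∃ i ∈ FF a w, y = H22.rowR a i} ∪
      {y | ∃ j, w j = 0 ∧ y = (eR j : Unit ⊕ Fin n → ℝ)}) ≤ LinearMap.ker f := by
    rw [Submodule.span_le]
    rintro y (⟨i, hi, rfl⟩ | ⟨j, hj, rfl⟩)
    · exact h1 i hi
    · exact h2 j hj
  exact h3 hcrit

theorem WRT_cover {n r : ℕ} (a : Fin r → (Fin n →₀ ℕ)) (p : Fin n → ℚ) (hp : ∀ j, 0 < p j)
    (w : Fin n → ℕ) (hcrit : CritW a p w)
    (j : Fin n) (hj : j ∈ CC0 a w) : ∃ i ∈ FF a w, a i j ≠ 0 := by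
  by_contra hcon
  push Not at hcon
  have h1 := WRT_fun a p w hcrit (LinearMap.proj (Sum.inr j)) (fun i hi => by
    simp [H22.rowR, hcon i hi]) (fun j' hj' => by
    have : j ≠ j' := by
      rintro rfl
      exact ((mem_CC0 a w j).1 hj).1 hj'
    simp [eR, this])
  have h2 : ((p j : ℚ) : ℝ) = 0 := by simpa [p0W] using h1
  have h3 : p j = 0 := by exact_mod_cast h2
  exact (hp j).ne' h3

theorem geyw {n r : ℕ} (a : Fin r → (Fin n →₀ ℕ)) (κ : Fin r → ℂ) (hnd : Nondeg a κ)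
    (p : Fin n → ℚ) (hp : ∀ j, 0 < p j ∧ p j ≤ 1)
    (b : Polynomial ℂ) (w : Fin n → ℕ) (hA : RELH a κ p b w)
    (hN : 0 < H22.wmin a w) (hcrit : CritW a p w) (P : Finset (Fin n)) (c : Fin n → ℚ)
    (hLP : ∀ η : ℚ, 0 < η → ∃ lam : Fin r → ℚ,
      LPW (fun i j => a i j) (FF a w) (CC0 a w) P c lam p ∧
        ∑ i ∈ FF a w, lam i * (1 - ∑ j, c j * (a i j : ℚ)) < η)
    (hb : b.eval (s0p a p w) ≠ 0) (t : Fin n → ℂˣ) :
    ∃ j ∈ P, p j = 1 ∧ c j = 1 ∧ ∑ i ∈ H22.T6.PF a w j, κ i * tz t (aZ a i) ≠ 0 := by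
  classical
  obtain ⟨D, cZ, hD, hcZ⟩ := GLU_den c
  have hDQ : (0 : ℚ) < D := by exact_mod_cast hD
  obtain ⟨lam, hL, hsm⟩ := hLP (1 / (2 * D)) (by positivity)
  have hr := appg_pos a w hN
  obtain ⟨M, hMn, hM⟩ : ∃ M : ℤ, (n : ℤ) + 2 ≤ M ∧ 0 < M := ⟨(n : ℤ) + 2, le_rfl, by positivity⟩
  have hδ := appg_delta a (noW n) M
  obtain ⟨e, he⟩ := fspan hr a (noW n) M hM
  obtain ⟨mf, h, hh, -, -, hfac⟩ := fac (cA a (bbM (noW n) M)) (vec 1 1 0) hδ ⟨e, he⟩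
  have hS := appg_sset (cA a (bbM (noW n) M)) h hh hfac
  have hH : ∀ i, 0 ≤ dt (h5 a w) (A5 a M i) := appg_h0 a (noW n) M hM w (fun k => k.elim0)
  obtain ⟨lm, hlm⟩ := lam_exists (Finset.univ.image κ) (Option (Fin n) ⊕ Fin 0)
  have hlm' : AlgebraicIndependent (Algebra.adjoin ℚ (Set.range κ)) lm := by
    have h1 : ((Finset.univ.image κ : Finset ℂ) : Set ℂ) = Set.range κ := by
      simp
    rwa [h1] at hlm
  have hT : TorusND (A5 a M) (cC κ lm) := ndg a κ hnd (bbM (noW n) M) lm hlm'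
  obtain ⟨m0, Y0, hm0, hY0C, hY0h, hY0j, hY0P, hl2, hsmY, hgood⟩ :=
    goodw a w p hp hcrit M hMn h P c lam hL D hD cZ hcZ hsm
  set PT : Finset (Fin n) := P.filter (fun j => p j = 1) with hPT
  have hPT1 : ∀ j ∈ PT, j ∈ P ∧ p j = 1 := fun j hj => by
    rw [hPT, mem_filter] at hj
    exact hj
  have hYD : ∀ j ∈ PT, Y0 j.succ.succ = m0 := by
    intro j hj
    have h1 := hY0P j (hPT1 j hj).1
    rw [(hPT1 j hj).2, one_mul] at h1
    exact_mod_cast h1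
  have hK := gkx hr a κ M hM lm hT PT m0 hm0 Y0 hYD
  have hex := apw a κ p hp b w hA hN PT (fun j hj => (hPT1 j hj).2) M hM m0 hm0 Y0 hY0C hY0h
    hY0j lm hK
  have hset : RG (A5 a M) m0 Y0 ∩ {u | dt (h5 a w) u = 0} = Lay h (h5 a w) m0 Y0 := by
    ext u
    constructor
    · rintro ⟨h1, h2⟩
      refine ⟨(hS _).2 h1, ?_⟩
      have h2' : dt (h5 a w) u = 0 := h2
      rw [dt_add, dt_zsmul, h2', hY0h]
      ring
    · rintro ⟨h1, h2⟩
      refine ⟨(hS _).1 h1, ?_⟩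
      rw [dt_add, dt_zsmul, hY0h, add_zero] at h2
      exact (mul_eq_zero.1 h2).resolve_left hm0.ne'
  rw [hset] at hex
  have hPa : ∀ k ∈ sh PT, ∀ i, 0 ≤ A5 a M i k := by
    intro k hk i
    obtain ⟨j, -, rfl⟩ := mem_sh.1 hk
    rcases i with i | (o | k)
    · simp [A5, cA, vec]
    · simp only [A5, cA, vec, Fin.cons_succ]
      exact appg_bbM_nonneg (noW n) M hM o j
    · exact k.elim0
  obtain ⟨tt, htt, h1⟩ := strict (A5 a M) (cC κ lm) h (vec 1 1 0) hδ hh hfac hT (h5 a w) hH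
    (sh PT) hPa _ _ hgood _ hb hex
  refine evalxw a κ w M hM lm P c lam p hL tt ?_ h1 t
  intro k hk
  obtain ⟨u, hu⟩ : ∃ u, (tt k).coeff u ≠ 0 := by
    by_contra hcon
    push Not at hcon
    exact hk (lp_ext fun u => by rw [hcon u]; rfl)
  obtain ⟨⟨⟨h2, h3⟩, h4⟩, h5'⟩ := htt k u hu
  have h3' : dt (h5 a w) u = 0 := by
    rw [dt_add, dt_zsmul, hY0h, add_zero] at h3
    exact (mul_eq_zero.1 h3).resolve_left hm0.ne'
  exact supp_tw hr a w M hM P c lam p hp hL D hD cZ hcZ m0 hm0 Y0 hY0h hY0P hl2 hsmY u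
    ((hS _).1 h2) h3' k h4 h5'

/-- WRT -/
theorem rootw {n r : ℕ} (a : Fin r → (Fin n →₀ ℕ)) (κ : Fin r → ℂ) (hnd : Nondeg a κ)
    (p : Fin n → ℚ) (hp : ∀ j, 0 < p j ∧ p j ≤ 1) (hz : ∀ j, ∃ i, a i j = 0)
    (b : Polynomial ℂ) (w : Fin n → ℕ) (hA : RELH a κ p b w) (hb : b.eval (s0p a p w) ≠ 0)
    (Yb : Finset (Fin r)) (Yj : Finset (Fin n)) (hY : YDp a p w Yb Yj) :
    UYp a (TT1 p) Yb Yj := by
  classical
  have hN := hY.pos
  have hr := appg_pos a w hN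
  have hcrit : CritW a p w := by
    refine Submodule.span_mono ?_ hY.span
    rintro y (⟨i, hi, rfl⟩ | ⟨j, hj, rfl⟩)
    · exact Or.inl ⟨i, (mem_FF a w i).2 (hY.on i hi), rfl⟩
    · exact Or.inr ⟨j, hY.onj j hj, rfl⟩
  obtain ⟨P, c, hLP⟩ := lpw (fun i j => a i j) (FF a w) (RT_FF hr a w) (CC0 a w)
    (WRT_cover a p (fun j => (hp j).1) w hcrit) p (fun j => (hp j).1)
  have hemp := geyw a κ hnd p hp b w hA hN hcrit P c hLP hb
  obtain ⟨lam, hL, -⟩ := hLP 1 one_pos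
  set K : Finset (Fin n) := P.filter (fun k => p k = 1 ∧ c k = 1) with hK
  have hKP : ∀ k ∈ K, k ∈ P ∧ p k = 1 ∧ c k = 1 := fun k hk => by
    rw [hK, mem_filter] at hk
    exact hk
  have hKw : ∀ k ∈ K, w k ≠ 0 := fun k hk =>
    ((mem_CC0 a w k).1 (hL.PC (hKP k hk).1)).1
  -- the sum over `K`
  have hK1 : ∀ i ∈ FF a w, ∑ k ∈ K, a i k ≤ 1 := by
    intro i hi
    have h1 := hL.c1 i hi
    have h2 : ((∑ k ∈ K, a i k : ℕ) : ℚ) ≤ ∑ j, c j * (a i j : ℚ) := by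
      push_cast
      calc ∑ k ∈ K, (a i k : ℚ) = ∑ k ∈ K, c k * (a i k : ℚ) :=
            sum_congr rfl fun k hk => by rw [(hKP k hk).2.2, one_mul]
        _ ≤ _ := sum_le_sum_of_subset_of_nonneg (subset_univ _) fun j _ _ =>
            mul_nonneg (hL.c0 j) (by positivity)
    have h3 := h2.trans h1
    exact_mod_cast h3
  have hKne : ∀ k ∈ K, (H22.T6.PF a w k).Nonempty := by
    intro k hk
    obtain ⟨i, hi, hik⟩ : ∃ i ∈ FF a w, a i k ≠ 0 := by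
      by_contra hcon
      push Not at hcon
      have h1 := hL.lP k (hKP k hk).1
      rw [sum_eq_zero (fun i hi => by simp [hcon i hi])] at h1
      exact (hp k).1.ne h1
    refine ⟨i, mem_filter.2 ⟨hi, ?_⟩⟩
    have h1 := hK1 i hi
    have h2 : a i k ≤ ∑ k ∈ K, a i k := single_le_sum (f := fun k => a i k)
      (fun _ _ => Nat.zero_le _) hk
    omega
  obtain ⟨K', hK'ne, hK'dim⟩ := bn (θ := {k // k ∈ K}) (aZ a) (fun k => H22.T6.PF a w k.1)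
    (fun k => hKne k.1 k.2) (fun _ i => κ i)
    (fun ν t h0 => ndx a κ hnd w K hKne hK1 ν t h0)
    (fun t => by
      obtain ⟨j, hj, hpj, hcj, hne⟩ := hemp t
      exact ⟨⟨j, mem_filter.2 ⟨hj, hpj, hcj⟩⟩, hne⟩)
  set K2 : Finset (Fin n) := K'.map (Function.Embedding.subtype _) with hK2
  have hK2K : K2 ⊆ K := by
    intro k hk
    obtain ⟨k', -, rfl⟩ := mem_map.1 hk
    exact k'.2
  have hDif : Dif (aZ a) (H22.T6.PF a w) K2 = Dif (aZ a) (fun k : {k // k ∈ K} => H22.T6.PF a w k.1) K' := by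
    ext v
    constructor
    · rintro ⟨k, hk, i, hi, i', hi', hv⟩
      obtain ⟨k', hk', rfl⟩ := mem_map.1 hk
      exact ⟨k', hk', i, hi, i', hi', hv⟩
    · rintro ⟨k, hk, i, hi, i', hi', hv⟩
      exact ⟨k.1, mem_map.2 ⟨k, hk, rfl⟩, i, hi, i', hi', hv⟩
  refine lemVw a p (fun j => (hp j).1) w Yb Yj hY (TT1 p) K2 (fun k hk => ?_) (hK'ne.map)
    (fun k hk => hKw k (hK2K hk)) (fun i hi => ?_) ?_ ?_
  · exact mem_filter.2 ⟨mem_univ k, (hKP k (hK2K hk)).2.1⟩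
  · exact (sum_le_sum_of_subset hK2K).trans (hK1 i hi)
  · rw [hDif, hK2, card_map]
    exact hK'dim
  · intro K3 hK3 hne j hinj hj
    exact uprimew a w hN p hp hz hcrit P c lam hL K3 (fun k hk => hKP k (hK2K (hK3 hk))) hne j
      hinj (fun k hk => ⟨fun h => (hj k hk).1 (hK3 h), (hj k hk).2⟩)

end Pool.Agent.H56.CT
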