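import Pool.Agent.H56.CT.NPB
import Pool.Agent.H56.CT.SDefs
import Pool.Agent.H56.CT.WRT
import Pool.Agent.H22.T7.FPR
import Pool.Agent.H22.T7.TRA

/-!
# HBX: from the root columns to the variables of `𝒢`

Let `w`, `Yb` with `w > 0`, `hY : YDp a κv w Yb ∅`, `s0 = s0p a κv w` be given.
(1) `a'`, `κ'`, `η` from `fpr` (`Pool/Agent/H22/T7/FPR.lean`) with `H = 0`, `D0` larger than `D1` and than all `(a i).degree`: `Above a a' η`, `Nondeg a' κ'`, and `Hi D1 (fpoly a' κ' - fpoly a κ)` (`Hi_mono`-like: `∀ ρ, .. → D0 ≤ ρ.degree`; `fpoly a κ` as a power series is `∑ monomial`, `H = 0`).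
`a' t ≠ 0`: for `t = η i` by `ha`; otherwise by `Above` with all weights `1`: `0 ≤ wmin < ∑ a' t j`.
(2) `c k` = the number of `j` with `grp j = k` (`> 0`, `hg`), `Λ = ∏_j (Nn j * c (grp j))`, `w' j = w (grp j) * ∏_{j' ≠ j} (Nn j' * c (grp j'))`, so `Nn j * c (grp j) * w' j = w (grp j) * Λ`, `w' j > 0`, and `∑_{j : grp j = k} Nn j * w' j = w k * Λ` (multiply with `c k`).
So `∑_j rtE Nn grp a' t j * w' j = Λ * ∑_k a' t k * w k` for all `t`, and for `aR = rtE Nn grp a'`: `wmin aR w' = Λ * wmin a' w = Λ * wmin a w` (`tra_wmin`; minimum over all `t`; `r > 0`: `Conv`, `m > 0`), `wsp p w' = ∑_j Nn j κv (grp j) w' j = Λ * wsp κv w`; so `s0p aR p w' = s0p a κv w = s0`.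
(3) `YDp aR p w' (Yb.map η) ∅`: `pos`, `on`: (2) and `hY` (`a' (η b) = a b`).  `onj`: empty.
Let `Λ* : (Unit ⊕ Fin m → ℝ) →ₗ (Unit ⊕ Fin n → ℝ)`, `(Λ* y) (inl _) = y (inl _)`, `(Λ* y) (inr j) = Nn j * y (inr (grp j))`; it is injective (`hg`, `hN`) and `Λ* (rowR a b) = rowR aR (η b)`.  `ind`: the rows of `Yb.map η` are the images of the rows of `Yb` under the injective map (`LinearIndependent.map'`; reindex `Yb.map η ≃ Yb`; the second part has an empty index type; see `tra` in `Pool/Agent/H22/T7/TRA.lean`).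
`rel`: for `y : Unit ⊕ Fin n → ℝ` let `y' (inl _) = y (inl _)`, `y' (inr k) = ∑_{j : grp j = k} Nn j * y (inr j)`: `∑_t rowR aR (η i) t * y t = ∑_t rowR a i t * y' t`.  The exponents `t` of `aR` on the face of `w'` are the `η i` with `i` on the face of `w` (by (2); `t` not in the range of `η` are strictly above: `Above`, `Λ > 0`).
So `hY.rel` for `y'` gives the claim (no `j` with `w' j = 0`).
`span`: `p0W aR p w' = Λ* (p0W a κv w)` (first entry: `Λ wsp / (Λ wmin)`, entry `j`: `p j = Nn j κv (grp j)`), and `Λ*` maps the span of the rows of `Yb` into the span of the rows of `Yb.map η` (`Submodule.map_span`, or span induction; `Yj = ∅`).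
(4) `rootw` for `aR`, `κ'`, `p`, `b`, `w'`: `Nondeg` by `npb`; `0 < p j ≤ 1`; `hz`: for `j` choose `k' ≠ grp j` (`2 ≤ m`), `hc k'`: `a i = single k' c`, `aR (η i) j = Nn j * 0`; `RELH` by `hR` (`w' > 0`).  It gives `b'` and `j0` with `p j0 = 1` (`mem TT1`), `ApexY aR (Yb.map η) ∅ b' j0`, unique `j0`; `b' = η b0`, `b0 ∈ Yb`.
`ApexY aR (Yb.map η) ∅ (η b) j ↔ ApexY a Yb ∅ b (grp j) ∧ Nn j = 1` (`Nn j * a b (grp j) = 1`; `Nn j * x = 0 ↔ x = 0`).
`k0 = grp j0`; `κv k0 = 1` (`p j0 = Nn j0 * κv k0`, `Nn j0 = 1`).  `k0 ∈ T`: otherwise `hT` gives `j ≠ j'` in the group of `k0`, with `Nn j = Nn j' = 1` (`p j = Nn j * 1 ≤ 1`), both are apex directions of `η b0`, so `j = j0 = j'`, a contradiction.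
If `κv k' = 1` and `ApexY a Yb ∅ b0 k'`: for `j'` with `grp j' = k'`: `Nn j' = 1`, so `j'` is an apex direction of `η b0`, `j' = j0`, `k' = k0`.
-/

set_option autoImplicit false

namespace Pool.Agent.H56.CT

open Finset
open Pool.Agent.H56.SMC Pool.Agent.H22.T7 Pool.Agent.H37.T6

theorem HBX_cpos {m n : ℕ} (grp : Fin n → Fin m) (hg : Function.Surjective grp) (k : Fin m) :
    0 < (univ.filter (fun j => grp j = k)).card := by
  obtain ⟨j, hj⟩ := hg k
  exact Finset.card_pos.2 ⟨j, Finset.mem_filter.2 ⟨Finset.mem_univ j, hj⟩⟩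

/-- The weight vector `w'`. -/
theorem HBX_w {m n : ℕ} (Nn : Fin n → ℕ) (hN : ∀ j, 0 < Nn j) (grp : Fin n → Fin m)
    (hg : Function.Surjective grp) (w : Fin m → ℕ) (hw : ∀ k, 0 < w k) :
    ∃ (Λ : ℕ) (w' : Fin n → ℕ), 0 < Λ ∧ (∀ j, 0 < w' j) ∧
      ∀ k, ∑ j ∈ univ.filter (fun j => grp j = k), Nn j * w' j = w k * Λ := by
  classical
  obtain ⟨c, hc⟩ : ∃ c : Fin m → ℕ, ∀ k, c k = (univ.filter (fun j => grp j = k)).card :=
    ⟨_, fun _ => rfl⟩
  have hcp : ∀ k, 0 < c k := fun k => by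
    rw [hc]
    exact HBX_cpos grp hg k
  refine ⟨∏ j, (Nn j * c (grp j)),
    fun j => w (grp j) * ∏ j' ∈ univ.erase j, (Nn j' * c (grp j')),
    Finset.prod_pos fun j _ => Nat.mul_pos (hN j) (hcp _),
    fun j => Nat.mul_pos (hw _) (Finset.prod_pos fun j _ => Nat.mul_pos (hN j) (hcp _)),
    fun k => ?_⟩
  have h1 : ∀ j, Nn j * c (grp j) * ∏ j' ∈ univ.erase j, (Nn j' * c (grp j')) =
      ∏ j, (Nn j * c (grp j)) := fun j =>
    Finset.mul_prod_erase univ (fun j => Nn j * c (grp j)) (mem_univ j)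
  apply Nat.eq_of_mul_eq_mul_left (hcp k)
  rw [Finset.mul_sum]
  calc _ = ∑ j ∈ univ.filter (fun j => grp j = k), w k * ∏ j, (Nn j * c (grp j)) := by
        apply Finset.sum_congr rfl
        intro j hj
        have hj' : grp j = k := (mem_filter.1 hj).2
        rw [← h1 j, ← hj']
        ring
    _ = _ := by rw [Finset.sum_const, smul_eq_mul, hc]

theorem HBX_sum {R : Type} [CommSemiring R] {m n : ℕ} (Nn : Fin n → ℕ) (grp : Fin n → Fin m)
    (x : Fin m → R) (z : Fin n → R) :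
    ∑ j, (Nn j : R) * x (grp j) * z j =
      ∑ k, x k * ∑ j ∈ univ.filter (fun j => grp j = k), (Nn j : R) * z j := by
  rw [← Finset.sum_fiberwise univ grp (fun j => (Nn j : R) * x (grp j) * z j)]
  apply Finset.sum_congr rfl
  intro k _
  rw [Finset.mul_sum]
  apply Finset.sum_congr rfl
  intro j hj
  rw [(mem_filter.1 hj).2]
  ring

theorem HBX_dot {m n r : ℕ} (Nn : Fin n → ℕ) (grp : Fin n → Fin m)
    (a : Fin r → (Fin m →₀ ℕ)) (w : Fin m → ℕ) (Λ : ℕ) (w' : Fin n → ℕ)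
    (h : ∀ k, ∑ j ∈ univ.filter (fun j => grp j = k), Nn j * w' j = w k * Λ) (i : Fin r) :
    ∑ j, rtE Nn grp a i j * w' j = Λ * ∑ k, a i k * w k := by
  have h1 := HBX_sum (R := ℕ) Nn grp (fun k => a i k) w'
  simp only [Nat.cast_id] at h1
  simp only [rtE_apply]
  rw [h1, Finset.mul_sum]
  exact Finset.sum_congr rfl fun k _ => by rw [h k]; ring

theorem HBX_wmin {m n r : ℕ} (hr : 0 < r) (Nn : Fin n → ℕ) (grp : Fin n → Fin m)
    (a : Fin r → (Fin m →₀ ℕ)) (w : Fin m → ℕ) (Λ : ℕ) (w' : Fin n → ℕ)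
    (h : ∀ k, ∑ j ∈ univ.filter (fun j => grp j = k), Nn j * w' j = w k * Λ) :
    H22.wmin (rtE Nn grp a) w' = Λ * H22.wmin a w := by
  have hd := HBX_dot Nn grp a w Λ w' h
  apply le_antisymm
  · obtain ⟨i, hi⟩ := H11.exists_wmin hr a w
    have h1 := H11.wmin_le (rtE Nn grp a) w' i
    rw [hd, hi] at h1
    exact h1
  · obtain ⟨i, hi⟩ := H11.exists_wmin hr (rtE Nn grp a) w'
    rw [← hi, hd]
    exact Nat.mul_le_mul_left _ (H11.wmin_le a w i)

theorem HBX_wsp {m n : ℕ} (Nn : Fin n → ℕ) (grp : Fin n → Fin m) (κv : Fin m → ℚ)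
    (p : Fin n → ℚ) (hpd : ∀ j, p j = (Nn j : ℚ) * κv (grp j)) (w : Fin m → ℕ) (Λ : ℕ)
    (w' : Fin n → ℕ)
    (h : ∀ k, ∑ j ∈ univ.filter (fun j => grp j = k), Nn j * w' j = w k * Λ) :
    wsp p w' = Λ * wsp κv w := by
  unfold wsp
  have h1 := HBX_sum (R := ℚ) Nn grp κv (fun j => (w' j : ℚ))
  simp only [hpd]
  rw [h1, Finset.mul_sum]
  apply Finset.sum_congr rfl
  intro k _
  have h2 : ((∑ j ∈ univ.filter (fun j => grp j = k), Nn j * w' j : ℕ) : ℚ) =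
      ((w k * Λ : ℕ) : ℚ) := by rw [h k]
  push_cast at h2
  rw [h2]
  ring

/-- The map on the rows. -/
noncomputable def HBX_L {m n : ℕ} (Nn : Fin n → ℕ) (grp : Fin n → Fin m) :
    (Unit ⊕ Fin m → ℝ) →ₗ[ℝ] (Unit ⊕ Fin n → ℝ) where
  toFun y := Sum.elim (fun u => y (Sum.inl u)) (fun j => (Nn j : ℝ) * y (Sum.inr (grp j)))
  map_add' y z := by
    funext t
    rcases t with t | t
    · rfl
    · simp only [Sum.elim_inr, Pi.add_apply]
      ring
  map_smul' c y := by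
    funext t
    rcases t with t | t
    · rfl
    · simp only [Sum.elim_inr, Pi.smul_apply, smul_eq_mul, RingHom.id_apply]
      ring

theorem HBX_Linl {m n : ℕ} (Nn : Fin n → ℕ) (grp : Fin n → Fin m) (y : Unit ⊕ Fin m → ℝ)
    (u : Unit) : HBX_L Nn grp y (Sum.inl u) = y (Sum.inl u) := rfl

theorem HBX_Linr {m n : ℕ} (Nn : Fin n → ℕ) (grp : Fin n → Fin m) (y : Unit ⊕ Fin m → ℝ)
    (j : Fin n) : HBX_L Nn grp y (Sum.inr j) = (Nn j : ℝ) * y (Sum.inr (grp j)) := rfl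

theorem HBX_Linj {m n : ℕ} (Nn : Fin n → ℕ) (hN : ∀ j, 0 < Nn j) (grp : Fin n → Fin m)
    (hg : Function.Surjective grp) : Function.Injective (HBX_L Nn grp) := by
  intro y z h
  funext t
  rcases t with t | k
  · exact congrFun h (Sum.inl t)
  · obtain ⟨j, rfl⟩ := hg k
    have h1 : (Nn j : ℝ) * y (Sum.inr (grp j)) = (Nn j : ℝ) * z (Sum.inr (grp j)) :=
      congrFun h (Sum.inr j)
    have h2 : (Nn j : ℝ) ≠ 0 := by exact_mod_cast (hN j).ne'
    exact mul_left_cancel₀ h2 h1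

theorem HBX_Lrow {m n r : ℕ} (Nn : Fin n → ℕ) (grp : Fin n → Fin m)
    (a : Fin r → (Fin m →₀ ℕ)) (i : Fin r) :
    HBX_L Nn grp (H22.rowR a i) = H22.rowR (rtE Nn grp a) i := by
  funext t
  rcases t with t | j
  · rfl
  · rw [HBX_Linr]
    simp only [H22.rowR, Sum.elim_inr, rtE_apply]
    push_cast
    rfl

/-- The pairing of the rows. -/
theorem HBX_pair {m n r : ℕ} (Nn : Fin n → ℕ) (grp : Fin n → Fin m)
    (a : Fin r → (Fin m →₀ ℕ)) (y : Unit ⊕ Fin n → ℝ) (i : Fin r) :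
    ∑ t, H22.rowR (rtE Nn grp a) i t * y t =
      ∑ t, H22.rowR a i t * (Sum.elim (fun u => y (Sum.inl u)) (fun k =>
        ∑ j ∈ univ.filter (fun j => grp j = k), (Nn j : ℝ) * y (Sum.inr j)) :
          Unit ⊕ Fin m → ℝ) t := by
  rw [Fintype.sum_sum_type, Fintype.sum_sum_type]
  have h1 := HBX_sum (R := ℝ) Nn grp (fun k => ((a i k : ℕ) : ℝ)) (fun j => y (Sum.inr j))
  congr 1
  simp only [H22.rowR, Sum.elim_inr, rtE_apply]
  rw [← h1]
  exact Finset.sum_congr rfl fun j _ => by push_cast; ring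

theorem HBX_ydp {m n r r' : ℕ} (a : Fin r → (Fin m →₀ ℕ)) (a' : Fin r' → (Fin m →₀ ℕ))
    (η : Fin r ↪ Fin r') (hη : Above a a' η) (Nn : Fin n → ℕ)
    (hN : ∀ j, 0 < Nn j) (grp : Fin n → Fin m) (hg : Function.Surjective grp)
    (κv : Fin m → ℚ) (p : Fin n → ℚ)
    (hpd : ∀ j, p j = (Nn j : ℚ) * κv (grp j)) (w : Fin m → ℕ) (hw : ∀ j, 0 < w j) (Λ : ℕ)
    (w' : Fin n → ℕ) (hΛ : 0 < Λ) (hw' : ∀ j, 0 < w' j)
    (h : ∀ k, ∑ j ∈ univ.filter (fun j => grp j = k), Nn j * w' j = w k * Λ)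
    (Yb : Finset (Fin r)) (hY : YDp a κv w Yb ∅) :
    s0p (rtE Nn grp a') p w' = s0p a κv w ∧ YDp (rtE Nn grp a') p w' (Yb.map η) ∅ := by
  have hr : 0 < r := appg_pos a w hY.pos
  have hr' : 0 < r' := (Nat.zero_le _).trans_lt (η ⟨0, hr⟩).2
  have hwm : H22.wmin (rtE Nn grp a') w' = Λ * H22.wmin a w := by
    rw [HBX_wmin hr' Nn grp a' w Λ w' h, tra_wmin a a' η hη w hw hr]
  have hws := HBX_wsp Nn grp κv p hpd w Λ w' h
  have hdot := HBX_dot Nn grp a' w Λ w' h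
  have hΛR : (Λ : ℝ) ≠ 0 := by exact_mod_cast hΛ.ne'
  have hΛC : (Λ : ℂ) ≠ 0 := by exact_mod_cast hΛ.ne'
  have hrow : ∀ b, HBX_L Nn grp (H22.rowR a b) = H22.rowR (rtE Nn grp a') (η b) := by
    intro b
    rw [← HBX_Lrow, tra_row a a' η hη]
  have hface : ∀ t, ∑ j, rtE Nn grp a' t j * w' j = H22.wmin (rtE Nn grp a') w' →
      ∃ i, η i = t ∧ ∑ j, a i j * w j = H22.wmin a w := by
    intro t ht
    rw [hdot, hwm] at ht
    have ht' := Nat.eq_of_mul_eq_mul_left hΛ ht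
    by_cases h1 : t ∈ Set.range η
    · obtain ⟨i, rfl⟩ := h1
      refine ⟨i, rfl, ?_⟩
      rw [← ht', hη.1]
    · exfalso
      have h2 := hη.2 t h1 w hw
      omega
  have hface' : ∀ i, ∑ j, a i j * w j = H22.wmin a w →
      ∑ j, rtE Nn grp a' (η i) j * w' j = H22.wmin (rtE Nn grp a') w' := by
    intro i hi
    rw [hdot, hwm, hη.1, hi]
  refine ⟨?_, ?_, ?_, ?_, ?_, ?_, ?_⟩
  · unfold s0p
    rw [hwm, hws]
    push_cast
    rw [neg_div, neg_div, mul_div_mul_left _ _ hΛC]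
  · rw [hwm]
    exact Nat.mul_pos hΛ hY.pos
  · intro b hb
    obtain ⟨b0, hb0, rfl⟩ := Finset.mem_map.1 hb
    exact hface' b0 (hY.on b0 hb0)
  · intro j hj
    exact absurd hj (Finset.notMem_empty j)
  · have hex : ∀ t : (Yb.map η : Finset (Fin r')), ∃ b : Yb, η b.1 = t.1 := by
      intro t
      obtain ⟨b, hb, hbt⟩ := Finset.mem_map.1 t.2
      exact ⟨⟨b, hb⟩, hbt⟩
    choose g hgg using hex
    have hginj : Function.Injective g := by
      intro t t' htt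
      apply Subtype.ext
      rw [← hgg t, ← hgg t', htt]
    have h1 := (hY.ind.comp (Sum.map g (fun x : (∅ : Finset (Fin n)) =>
        ((Finset.notMem_empty _ x.2).elim : (∅ : Finset (Fin m)))))
      (Sum.map_injective.2 ⟨hginj, fun x => (Finset.notMem_empty _ x.2).elim⟩)).map'
        (HBX_L Nn grp) (LinearMap.ker_eq_bot.2 (HBX_Linj Nn hN grp hg))
    have h2 : ((HBX_L Nn grp) ∘ (Sum.elim (fun b : Yb => H22.rowR a b.1)
          (fun j : (∅ : Finset (Fin m)) => (Pool.Agent.H37.T5.eR j.1 : Unit ⊕ Fin m → ℝ))) ∘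
            (Sum.map g (fun x : (∅ : Finset (Fin n)) =>
        ((Finset.notMem_empty _ x.2).elim : (∅ : Finset (Fin m)))))) =
          Sum.elim (fun b : (Yb.map η : Finset (Fin r')) => H22.rowR (rtE Nn grp a') b.1)
            (fun j : (∅ : Finset (Fin n)) => (Pool.Agent.H37.T5.eR j.1 : Unit ⊕ Fin n → ℝ)) := by
      funext t
      rcases t with t | t
      · simp only [Function.comp_apply, Sum.map_inl, Sum.elim_inl]
        rw [hrow, hgg]
      · exact (Finset.notMem_empty _ t.2).elim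
    rw [h2] at h1
    exact h1
  · intro y hy1 hy2 hy3 hy4
    have h1 := hY.rel (Sum.elim (fun u => y (Sum.inl u)) (fun k =>
        ∑ j ∈ univ.filter (fun j => grp j = k), (Nn j : ℝ) * y (Sum.inr j)))
      (fun i hi => by
        have h3 := hy1 (η i) (hface' i hi)
        rw [HBX_pair, tra_row a a' η hη] at h3
        exact h3) (fun j hj => absurd hj (hw j).ne') (fun b hb => by
        have h3 := hy3 (η b) (Finset.mem_map_of_mem _ hb)
        rw [HBX_pair, tra_row a a' η hη] at h3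
        exact h3) (fun j hj => absurd hj (Finset.notMem_empty j))
    refine ⟨fun t ht => ?_, fun j hj => absurd hj (hw' j).ne'⟩
    obtain ⟨i, rfl, hi⟩ := hface t ht
    rw [HBX_pair, tra_row a a' η hη]
    exact h1.1 i hi
  · have h1 : p0W (rtE Nn grp a') p w' = HBX_L Nn grp (p0W a κv w) := by
      funext t
      rcases t with t | j
      · rw [HBX_Linl]
        simp only [p0W, Sum.elim_inl]
        rw [hwm, hws]
        push_cast
        rw [mul_div_mul_left _ _ hΛR]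
      · rw [HBX_Linr]
        simp only [p0W, Sum.elim_inr]
        rw [hpd]
        push_cast
        rfl
    rw [h1]
    have h2 := Submodule.mem_map_of_mem (f := HBX_L Nn grp) hY.span
    rw [Submodule.map_span] at h2
    refine Submodule.span_mono ?_ h2
    rintro _ ⟨y, ⟨b, hb, rfl⟩ | ⟨j, hj, rfl⟩, rfl⟩
    · exact Or.inl ⟨η b, Finset.mem_map_of_mem _ hb, hrow b⟩
    · exact absurd hj (Finset.notMem_empty j)

/-- The apex directions. -/
theorem HBX_apex {m n r r' : ℕ} (a : Fin r → (Fin m →₀ ℕ)) (a' : Fin r' → (Fin m →₀ ℕ))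
    (η : Fin r ↪ Fin r') (hη : ∀ i, a' (η i) = a i) (Nn : Fin n → ℕ)
    (hN : ∀ j, 0 < Nn j) (grp : Fin n → Fin m) (Yb : Finset (Fin r)) (b : Fin r) (j : Fin n) :
    ApexY (rtE Nn grp a') (Yb.map η) ∅ (η b) j ↔ ApexY a Yb ∅ b (grp j) ∧ Nn j = 1 := by
  unfold ApexY
  rw [rtE_apply, hη]
  constructor
  · rintro ⟨h1, h2, -, h4⟩
    have h5 := Nat.eq_one_of_mul_eq_one_right h2
    have h6 := Nat.eq_one_of_mul_eq_one_left h2
    refine ⟨⟨(Finset.mem_map' η).1 h1, h6, Finset.notMem_empty _, fun b' hb' hne => ?_⟩, h5⟩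
    have h7 := h4 (η b') (Finset.mem_map_of_mem _ hb') (fun h => hne (η.injective h))
    rw [rtE_apply, hη] at h7
    exact (Nat.mul_eq_zero.1 h7).resolve_left (hN j).ne'
  · rintro ⟨⟨h1, h2, -, h4⟩, h5⟩
    refine ⟨Finset.mem_map_of_mem _ h1, by rw [h2, h5], Finset.notMem_empty _,
      fun b' hb' hne => ?_⟩
    obtain ⟨b0, hb0, rfl⟩ := Finset.mem_map.1 hb'
    rw [rtE_apply, hη, h4 b0 hb0 (fun h => hne (by rw [h])), mul_zero]

theorem HBX_fpoly {m r : ℕ} (a : Fin r → (Fin m →₀ ℕ)) (κ : Fin r → ℂ) :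
    (fpoly a κ : MvPowerSeries (Fin m) ℂ) = ∑ i, MvPowerSeries.monomial (a i) (κ i) := by
  have h4 := map_sum (MvPolynomial.coeToMvPowerSeries.ringHom (σ := Fin m) (R := ℂ))
    (fun i => MvPolynomial.monomial (a i) (κ i)) Finset.univ
  simp only [MvPolynomial.coeToMvPowerSeries.ringHom_apply] at h4
  rw [fpoly, h4]
  exact Finset.sum_congr rfl fun i _ => MvPolynomial.coe_monomial _ _

/-- HBX -/
theorem hbx {m n r : ℕ} (hm : 2 ≤ m) (a : Fin r → (Fin m →₀ ℕ)) (κ : Fin r → ℂ)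
    (ha : ∀ i, a i ≠ 0) (hc : Conv a) (nd : NondegC a κ) (Nn : Fin n → ℕ)
    (hN : ∀ j, 0 < Nn j) (grp : Fin n → Fin m) (hg : Function.Surjective grp)
    (κv : Fin m → ℚ) (hκ : ∀ k, 0 < κv k) (p : Fin n → ℚ)
    (hpd : ∀ j, p j = (Nn j : ℚ) * κv (grp j)) (hp : ∀ j, p j ≤ 1) (T : Finset (Fin m))
    (hT : ∀ k, κv k = 1 → k ∉ T → ∃ j j', j ≠ j' ∧ grp j = k ∧ grp j' = k)
    (b : Polynomial ℂ) (s0 : ℂ) (hb : b.eval s0 ≠ 0) (D1 : ℕ)
    (hR : ∀ (r' : ℕ) (a' : Fin r' → (Fin m →₀ ℕ)) (κ' : Fin r' → ℂ) (η : Fin r → Fin r'),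
      (∀ i, a' (η i) = a i) → (∀ t, a' t ≠ 0) →
      Hi D1 ((fpoly a' κ' : MvPowerSeries (Fin m) ℂ) - (fpoly a κ : MvPowerSeries (Fin m) ℂ)) →
      ∀ w : Fin n → ℕ, (∀ j, 0 < w j) → RELH (rtE Nn grp a') κ' p b w) :
    HB a κv T s0 := by
  intro w Yb hw hY hs
  have hr : 0 < r := appg_pos a w hY.pos
  obtain ⟨r', a', κ', η, hη, nd', hHi⟩ := fpr (by omega) a κ hc nd 0
    (fun ρ hρ => absurd (by simp) hρ) (D1 + ∑ i, (a i).degree + 1) (fun i => by
      have h1 : (a i).degree ≤ ∑ i, (a i).degree :=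
        Finset.single_le_sum (f := fun i => (a i).degree) (fun i _ => Nat.zero_le _)
          (Finset.mem_univ i)
      omega)
  have ha' : ∀ t, a' t ≠ 0 := by
    intro t ht
    by_cases h1 : t ∈ Set.range η
    · obtain ⟨i, rfl⟩ := h1
      exact ha i (by rw [← hη.1, ht])
    · have h2 := hη.2 t h1 (fun _ => 1) (fun _ => one_pos)
      rw [ht] at h2
      simp at h2
  have hHi' : Hi D1 ((fpoly a' κ' : MvPowerSeries (Fin m) ℂ) -
      (fpoly a κ : MvPowerSeries (Fin m) ℂ)) := by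
    intro ρ hρ
    rw [HBX_fpoly a κ] at hρ
    rw [add_zero] at hHi
    have h1 := hHi ρ hρ
    omega
  obtain ⟨Λ, w', hΛ, hw', hsum⟩ := HBX_w Nn hN grp hg w hw
  obtain ⟨hs', hYD⟩ := HBX_ydp a a' η hη Nn hN grp hg κv p hpd w hw Λ w' hΛ hw' hsum Yb hY
  have hz : ∀ j, ∃ i, rtE Nn grp a' i j = 0 := by
    intro j
    obtain ⟨k', hk'⟩ : ∃ k' : Fin m, k' ≠ grp j := by
      have : Nontrivial (Fin m) := Fin.nontrivial_iff_two_le.2 hm
      exact exists_ne (grp j)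
    obtain ⟨i, c, hi⟩ := hc k'
    refine ⟨η i, ?_⟩
    rw [rtE_apply, hη.1, hi, Finsupp.single_eq_of_ne hk'.symm, mul_zero]
  have hpp : ∀ j, 0 < p j ∧ p j ≤ 1 := fun j => ⟨by
    rw [hpd]
    have h1 : (0 : ℚ) < Nn j := by exact_mod_cast hN j
    exact mul_pos h1 (hκ _), hp j⟩
  obtain ⟨b', j0, hj0, hb', huniq⟩ := rootw (rtE Nn grp a') κ' (npb a' κ' nd' Nn hN grp hg) p
    hpp hz b w' (hR r' a' κ' η hη.1 ha' hHi' w' hw') (by rw [hs', ← hs]; exact hb) (Yb.map η) ∅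
    hYD
  obtain ⟨b0, hb0, rfl⟩ := Finset.mem_map.1 hb'.1
  have hap := HBX_apex a a' η hη.1 Nn hN grp Yb b0
  obtain ⟨hA, hN1⟩ := (hap j0).1 hb'
  have hpj0 : p j0 = 1 := (Finset.mem_filter.1 hj0).2
  have hκ0 : κv (grp j0) = 1 := by
    rw [hpd, hN1, Nat.cast_one, one_mul] at hpj0
    exact hpj0
  have hNone : ∀ j, κv (grp j) = 1 → Nn j = 1 := by
    intro j hj
    have h1 := hp j
    rw [hpd, hj, mul_one] at h1
    have h2 : Nn j ≤ 1 := by exact_mod_cast h1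
    have h3 := hN j
    omega
  have hall : ∀ j, κv (grp j) = 1 → ApexY a Yb ∅ b0 (grp j) → j = j0 := fun j hj hA' =>
    huniq j ((hap j).2 ⟨hA', hNone j hj⟩)
  refine ⟨b0, grp j0, ?_, hA, ?_⟩
  · by_contra hnot
    obtain ⟨j, j', hne, hj, hj'⟩ := hT (grp j0) hκ0 hnot
    apply hne
    rw [hall j (by rw [hj]; exact hκ0) (by rw [hj]; exact hA),
      hall j' (by rw [hj']; exact hκ0) (by rw [hj']; exact hA)]
  · intro k' hk' hA'
    obtain ⟨j', rfl⟩ := hg k'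
    rw [hall j' hk' hA']

end Pool.Agent.H56.CT
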