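import Pool.Agent.H56.CT.RMN
import Pool.Agent.H56.CT.HBX
import Pool.Agent.H56.CT.FGI
import Pool.Agent.H56.CT.CFX
import Pool.Agent.H56.CT.FRS

/-!
# MRT: the root side

`cfx f κv T hV` gives `n, e, Nn, grp, ε, cc, Fs` and `hc : Cfg ..`.  `fgi` (`hc.st`): `FEq (GC a κ Fs) b`; `frs`: `FEq (compG (rtE Nn grp a) κ ε (fun j => f (grp (ε j)))) b`.
`p j = Nn j * κv (grp j)`.  `κv k > 0` by `Val` (all four cases).  `rmn` with `f := fun j => f (grp (ε j))`: `0 < n` (`hc.gs`, `2 ≤ m`), `p k = 1` for `k` not in the range of `ε` (`hc.n1`), `p (ε j) = κv (grp (ε j)) < 1` (`hc.ee`), so `≠ 1`; `φ j : PhiD (f (grp (ε j))) (p (ε j))`: chosen from `hc.ee` (`Nonempty`), rewriting `p (ε j) = κv (grp (ε j))`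
(first show `∀ j, Nonempty (PhiD (f (grp (ε j))) (p (ε j)))`, by `rw`, then `Classical.choice`).  It gives `D1` and the hypothesis `hR` of `hbx`; `hp`: `p j ≤ 1` (both cases), `hT`: `hc.nd`.
-/

set_option autoImplicit false

namespace Pool.Agent.H56.CT

open Finset
open Pool.Agent.H56.SMC Pool.Agent.H22.T7 Pool.Agent.H37.T6

theorem MRT_pos (f : R2) (κ : ℚ) (t : Prop) (h : Val f κ t) : 0 < κ := by
  rcases h with ⟨_, h, _⟩ | ⟨_, N, hN, h, _⟩ | ⟨_, h, _⟩ | ⟨_, h, _⟩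
  · exact h
  · rw [h]
    have : (0 : ℚ) < N := by
      have : 0 < N := by omega
      exact_mod_cast this
    positivity
  · rw [h]
    exact one_pos
  · rw [h]
    exact one_pos

/-- MRT -/
theorem mrt {m r : ℕ} (hm : 2 ≤ m) (a : Fin r → (Fin m →₀ ℕ)) (κ : Fin r → ℂ)
    (ha : ∀ i, a i ≠ 0) (hc : Conv a) (nd : NondegC a κ) (f : Fin m → R2)
    (hf0 : ∀ k, co (f k) 0 0 = 0) (b : Polynomial ℂ)
    (h : FEq (MvPowerSeries (Fin m × Fin 2) ℂ) (GC a κ f) b) (s0 : ℂ) (hb : b.eval s0 ≠ 0)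
    (κv : Fin m → ℚ) (T : Finset (Fin m)) (hV : ∀ k, Val (f k) (κv k) (k ∈ T)) :
    HB a κv T s0 := by
  classical
  obtain ⟨n, e, Nn, grp, ε, cc, Fs, hC⟩ := cfx f κv T hV
  have h1 := fgi a κ f Fs hC.st b h
  have h2 := frs a κ f κv T Nn grp ε cc Fs hC b h1
  have hκ : ∀ k, 0 < κv k := fun k => MRT_pos _ _ _ (hV k)
  have hn : 0 < n := by
    obtain ⟨j, _⟩ := hC.gs ⟨0, by omega⟩
    exact (Nat.zero_le _).trans_lt j.2
  obtain ⟨p, hp⟩ : ∃ p : Fin n → ℚ, ∀ j, p j = (Nn j : ℚ) * κv (grp j) := ⟨_, fun j => rfl⟩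
  have hp0 : ∀ j, 0 < p j := fun j => by
    rw [hp]
    have h3 : (0 : ℚ) < Nn j := by exact_mod_cast hC.N0 j
    exact mul_pos h3 (hκ _)
  have hp1 : ∀ k, k ∉ Set.range ε → p k = 1 := fun k hk => by
    rw [hp]
    exact hC.n1 k hk
  have hpe : ∀ j, p (ε j) = κv (grp (ε j)) := fun j => by
    rw [hp, (hC.ee j).1, Nat.cast_one, one_mul]
  have hpε : ∀ j, p (ε j) ≠ 1 := fun j => by
    rw [hpe]
    exact (hC.ee j).2.1.ne
  have hφ : ∀ j, Nonempty (PhiD (f (grp (ε j))) (p (ε j))) := fun j => by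
    rw [hpe]
    exact (hC.ee j).2.2
  obtain ⟨D1, hR⟩ := rmn hn a κ hc Nn hC.N0 grp hC.gs ε hC.εi hC.gr
    (fun j => f (grp (ε j))) (fun j => hf0 _) p hp0 hp1 hpε (fun j => Classical.choice (hφ j)) b h2
  refine hbx hm a κ ha hc nd Nn hC.N0 grp hC.gs κv hκ p hp ?_ T hC.nd b s0 hb D1 hR
  intro j
  by_cases hj : j ∈ Set.range ε
  · obtain ⟨i, rfl⟩ := hj
    rw [hpe]
    exact (hC.ee i).2.1.le
  · exact (hp1 j hj).le

end Pool.Agent.H56.CT
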