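import Pool.Agent.H56.CT.MR1
import Pool.Agent.H56.CT.MRT
import Pool.Agent.H22.T7.UP

/-!
# MRO: the root side for one plane curve, and for any number of plane curves

`mro`.  Let `w`, `Yb`, `hs : s0 = s0p a κv w`, `w 0 > 0` be given.  `r > 0` by `hc 0`; let `i0` minimize `a i 0`, `c = a i0 0 > 0` (`ha`).  `wmin a w = c * w 0`, `wsp κv w = κv 0 * w 0`, so `s0 = - κv 0 / c`.  With `F = rename (fun δ => (0, δ)) (f 0)`: `GC a κ f = ∑ i, C (κ i) * F ^ (a i 0) = F ^ c * U`, `U = ∑ i, C (κ i) * F ^ (a i 0 - c)`, a unit: its constant coefficient is `κ i0`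
(the constant coefficient of `F` is `co (f 0) 0 0 = 0`, `a i 0 > c` for `i ≠ i0` by `inj`).  `F ≠ 0` (`rename` is injective).  `up F U .. c` (`MvPowerSeries` is a domain) gives `FEqV F (U ^ M) (b.comp (C (c⁻¹) * X))`, `FEqV_unit`: `FEq F (..)`; `aut` with the inverse of `MvPowerSeries.renameEquiv ℂ e`, `e : Fin 2 ≃ Fin 1 × Fin 2`: `FEq R2 (f 0) (b.comp ..)`.
`mr1` with `hV 0`: `b.eval (c⁻¹ * -(κv 0)) = 0`, so `b.eval s0 = 0`, contradicting `hb`.
`mru`: `m = 1`: `mro` (`obtain rfl`); `m ≥ 2`: `mrt`.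
-/

set_option autoImplicit false

namespace Pool.Agent.H56.CT

open Finset
open Pool.Agent.H56.SMC Pool.Agent.H22.T7 Pool.Agent.H37.T6

theorem mro {r : ℕ} (a : Fin r → (Fin 1 →₀ ℕ)) (κ : Fin r → ℂ) (inj : Function.Injective a)
    (ha : ∀ i, a i ≠ 0) (hκ : ∀ i, κ i ≠ 0) (hc : Conv a) (f : Fin 1 → R2)
    (hf0 : ∀ k, co (f k) 0 0 = 0) (hf : ∀ k, f k ≠ 0) (b : Polynomial ℂ)
    (h : FEq (MvPowerSeries (Fin 1 × Fin 2) ℂ) (GC a κ f) b) (s0 : ℂ) (hb : b.eval s0 ≠ 0)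
    (κv : Fin 1 → ℚ) (T : Finset (Fin 1)) (hV : ∀ k, Val (f k) (κv k) (k ∈ T)) :
    HB a κv T s0 := by
  intro w Yb hw _ hs
  exfalso
  obtain ⟨i1, k1, hi1⟩ := hc 0
  have : Nonempty (Fin r) := ⟨i1⟩
  obtain ⟨i0, hi0⟩ := Finite.exists_min (fun i : Fin r => a i 0)
  obtain ⟨c, hcd⟩ : ∃ c : ℕ, c = a i0 0 := ⟨_, rfl⟩
  have hle : ∀ i, c ≤ a i 0 := fun i => by rw [hcd]; exact hi0 i
  have hcpos : 0 < c := by
    rcases Nat.eq_zero_or_pos c with h0 | h0
    · exfalso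
      apply ha i0
      refine Finsupp.ext (fun j => ?_)
      rw [Subsingleton.elim j 0]
      rw [← hcd]
      simpa using h0
    · exact h0
  have hne : ∀ i, i ≠ i0 → a i 0 - c ≠ 0 := by
    intro i hi h1
    apply hi
    apply inj
    refine Finsupp.ext (fun j => ?_)
    rw [Subsingleton.elim j 0]
    have := hle i
    omega
  have hmin : H22.wmin a w = c * w 0 := by
    unfold H22.wmin
    apply le_antisymm
    · refine (ciInf_le ⟨0, fun x _ => Nat.zero_le _⟩ i0).trans ?_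
      rw [Fin.sum_univ_one, ← hcd]
    · refine le_ciInf (fun i => ?_)
      rw [Fin.sum_univ_one]
      exact Nat.mul_le_mul_right _ (hle i)
  have hwsp : wsp κv w = κv 0 * w 0 := by
    unfold wsp
    rw [Fin.sum_univ_one]
  have hw0 : ((w 0 : ℕ) : ℂ) ≠ 0 := Nat.cast_ne_zero.mpr (hw 0).ne'
  have hcC : ((c : ℕ) : ℂ) ≠ 0 := Nat.cast_ne_zero.mpr hcpos.ne'
  have hs' : s0 = ((c : ℂ)⁻¹) * (-(κv 0 : ℂ)) := by
    rw [hs]
    unfold s0p
    rw [hmin, hwsp]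
    push_cast
    field_simp
  obtain ⟨F, hF⟩ : ∃ F : MvPowerSeries (Fin 1 × Fin 2) ℂ,
      F = MvPowerSeries.rename (fun δ : Fin 2 => ((0 : Fin 1), δ)) (f 0) := ⟨_, rfl⟩
  have hcF : MvPowerSeries.constantCoeff F = 0 := by
    rw [hF, MvPowerSeries.constantCoeff_rename]
    have h1 := hf0 0
    unfold co at h1
    simpa using h1
  obtain ⟨W, hW⟩ : ∃ W : MvPowerSeries (Fin 1 × Fin 2) ℂ,
      W = ∑ i, MvPowerSeries.C (κ i) * F ^ (a i 0 - c) := ⟨_, rfl⟩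
  have hGC : GC a κ f = F ^ c * W := by
    unfold GC
    rw [hW, Finset.mul_sum]
    refine Finset.sum_congr rfl (fun i _ => ?_)
    rw [Fin.prod_univ_one, ← hF]
    have e1 : F ^ (a i 0) = F ^ c * F ^ (a i 0 - c) := by
      rw [← pow_add]
      congr 1
      have := hle i
      omega
    rw [e1]
    ring
  have hWu : IsUnit W := by
    rw [MvPowerSeries.isUnit_iff_constantCoeff]
    have e1 : MvPowerSeries.constantCoeff W = κ i0 := by
      rw [hW, map_sum]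
      rw [Finset.sum_eq_single i0]
      · rw [map_mul, map_pow, hcF, ← hcd, Nat.sub_self, pow_zero, mul_one,
          MvPowerSeries.constantCoeff_C]
      · intro i _ hi
        rw [map_mul, map_pow, hcF, zero_pow (hne i hi), mul_zero]
      · intro h1
        exact absurd (Finset.mem_univ i0) h1
    rw [e1]
    exact isUnit_iff_ne_zero.mpr (hκ i0)
  obtain ⟨e, he⟩ : ∃ e : Fin 2 ≃ Fin 1 × Fin 2, e =
      ⟨fun δ => (0, δ), Prod.snd, fun _ => rfl, fun x => by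
        refine Prod.ext (Subsingleton.elim _ _) rfl⟩ := ⟨_, rfl⟩
  have hFe : F = MvPowerSeries.renameEquiv ℂ e (f 0) := by
    rw [hF, he]
    rfl
  have hF0 : F ≠ 0 := by
    rw [hFe]
    intro h1
    exact hf 0 ((map_eq_zero_iff _ (MvPowerSeries.renameEquiv ℂ e).injective).1 h1)
  rw [hGC] at h
  have hdom : IsDomain (MvPowerSeries (Fin 1 × Fin 2) ℂ) := NoZeroDivisors.to_isDomain _
  obtain ⟨M, hM⟩ := up F W hF0 hWu.ne_zero c hcpos b h
  have h2 : FEq (MvPowerSeries (Fin 1 × Fin 2) ℂ) F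
      (b.comp (Polynomial.C ((c : ℂ)⁻¹) * Polynomial.X)) := by
    refine FEqV_unit F (W ^ M) 1 (hWu.pow M) _ ?_
    rw [mul_one]
    exact hM
  have h3 := aut (MvPowerSeries.renameEquiv ℂ e).symm F _ h2
  have h4 : (MvPowerSeries.renameEquiv ℂ e).symm F = f 0 := by
    rw [hFe]
    exact AlgEquiv.symm_apply_apply _ _
  rw [h4] at h3
  have h5 := mr1 (hf 0) (hf0 0) _ h3 (κv 0) _ (hV 0)
  rw [Polynomial.eval_comp, Polynomial.eval_mul, Polynomial.eval_C, Polynomial.eval_X] at h5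
  apply hb
  rw [hs']
  exact h5

/-- MRU -/
theorem mru {m r : ℕ} (hm : 0 < m) (a : Fin r → (Fin m →₀ ℕ)) (κ : Fin r → ℂ)
    (inj : Function.Injective a) (ha : ∀ i, a i ≠ 0) (hκ : ∀ i, κ i ≠ 0) (hc : Conv a)
    (nd : NondegC a κ) (f : Fin m → R2) (hf0 : ∀ k, co (f k) 0 0 = 0) (hf : ∀ k, f k ≠ 0)
    (b : Polynomial ℂ) (h : FEq (MvPowerSeries (Fin m × Fin 2) ℂ) (GC a κ f) b) (s0 : ℂ)
    (hb : b.eval s0 ≠ 0) (κv : Fin m → ℚ) (T : Finset (Fin m))
    (hV : ∀ k, Val (f k) (κv k) (k ∈ T)) : HB a κv T s0 := by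
  rcases Nat.lt_or_ge 1 m with h2 | h1
  · exact mrt h2 a κ ha hc nd f hf0 b h s0 hb κv T hV
  · obtain rfl : m = 1 := by omega
    exact mro a κ inj ha hκ hc f hf0 hf b h s0 hb κv T hV

end Pool.Agent.H56.CT
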