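import Pool.Agent.H56.CT.ZDefs
import Pool.Agent.H22.VolAdd
import Pool.Agent.H22.G9

/-!
# ZNV: ranks and volumes under integral linear maps

`hA`: `a' i = A a_i`, `hB`: `a_i = B a' i`, with integral matrices `A`, `B`.  Let `v_i = homRow a i`, `v'_i = homRow a' i`, `Ã`, `B̃` the maps extended by the identity of the first coordinate: `v'_i = Ã v_i`, `v_i = B̃ v'_i`; the same over `ℝ` for `rowR`.
(1) `faceRank`: `Ã` maps the span of the `rowR a i`, `i ∈ τ`, onto the span of the `rowR a' i` and `B̃` maps back: both finranks are `≤` each other (`Submodule.map`, `finrank_map_le`).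
(2) `faceVol`: let `N` = all `x ∈ ℤ^{1+n}` with `M x ∈ span_ℤ (v_i)_{i∈σ}` for some `M ≠ 0`, `N'` the same for `v'`.  The torsion submodule of `ℤ^{1+n}/span v` is `N/span v`.  `Ã` maps `N` to `N'`, `B̃` maps `N'` to `N`, they are inverse to each other on `N`, `N'` (`M (B̃ Ã x - x) = 0` for `x ∈ N` since `B̃ Ã v_i = v_i`; similarly for `N'`),
and map the spans onto each other.  So the numbers of elements of the torsion submodules are equal (`Nat.card_congr`; build the map with `Submodule.mapQ`, it maps torsion to torsion, in both directions).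
(3) linear relations between the rows of `a` and of `a'` are the same: `∑ β_i rowR a i = 0` iff `∑ β_i rowR a' i = 0`; so `UpperS a h σ ↔ UpperS a' h σ`.
(4) `nvol`: choose heights `h` linearly independent over `ℚ` (`exists_..` used for `nvol_eq_upper` in `Pool/Agent/H22/G10.lean`, `G12.lean`; grep `LinearIndependent ℚ`), `nvol_eq_upper` for `a` and `a'` (the condition `hflat` for `a'` from that of `a` by (3)).
-/

set_option autoImplicit false

namespace Pool.Agent.H56.CT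

open Finset

/-- `a'` and `a` are integral linear images of each other. -/
def EqvE {n n' r : ℕ} (a : Fin r → (Fin n →₀ ℕ)) (a' : Fin r → (Fin n' →₀ ℕ)) : Prop :=
  (∃ A : Fin n' → Fin n → ℤ, ∀ i j', (a' i j' : ℤ) = ∑ j, A j' j * (a i j : ℤ)) ∧
    ∃ B : Fin n → Fin n' → ℤ, ∀ i j, (a i j : ℤ) = ∑ j', B j j' * (a' i j' : ℤ)

private lemma ZNV_lat {κ κ' ι : Type*} (v : ι → κ → ℤ) (v' : ι → κ' → ℤ)
    (F : (κ → ℤ) →ₗ[ℤ] (κ' → ℤ)) (G : (κ' → ℤ) →ₗ[ℤ] (κ → ℤ))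
    (hF : ∀ i, F (v i) = v' i) (hG : ∀ i, G (v' i) = v i) : H22.latIndex v' = H22.latIndex v := by
  obtain ⟨P, hP⟩ : ∃ P, P = Submodule.span ℤ (Set.range v) := ⟨_, rfl⟩
  obtain ⟨P', hP'⟩ : ∃ P', P' = Submodule.span ℤ (Set.range v') := ⟨_, rfl⟩
  have h1 : P ≤ P'.comap F := by
    rw [hP, Submodule.span_le]
    rintro _ ⟨i, rfl⟩
    rw [SetLike.mem_coe, Submodule.mem_comap, hF, hP']
    exact Submodule.subset_span ⟨i, rfl⟩
  have h2 : P' ≤ P.comap G := by
    rw [hP', Submodule.span_le]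
    rintro _ ⟨i, rfl⟩
    rw [SetLike.mem_coe, Submodule.mem_comap, hG, hP]
    exact Submodule.subset_span ⟨i, rfl⟩
  have h3 : ∀ x ∈ P, G (F x) = x := by
    intro x hx
    rw [hP] at hx
    have h4 : Submodule.span ℤ (Set.range v) ≤ LinearMap.eqLocus (G ∘ₗ F) LinearMap.id := by
      rw [Submodule.span_le]
      rintro _ ⟨i, rfl⟩
      rw [SetLike.mem_coe, LinearMap.mem_eqLocus, LinearMap.comp_apply, hF, hG, LinearMap.id_apply]
    exact h4 hx
  have h4 : ∀ x ∈ P', F (G x) = x := by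
    intro x hx
    rw [hP'] at hx
    have h4 : Submodule.span ℤ (Set.range v') ≤ LinearMap.eqLocus (F ∘ₗ G) LinearMap.id := by
      rw [Submodule.span_le]
      rintro _ ⟨i, rfl⟩
      rw [SetLike.mem_coe, LinearMap.mem_eqLocus, LinearMap.comp_apply, hG, hF, LinearMap.id_apply]
    exact h4 hx
  have t1 : ∀ x : ((κ → ℤ) ⧸ P), x ∈ Submodule.torsion ℤ ((κ → ℤ) ⧸ P) →
      P.mapQ P' F h1 x ∈ Submodule.torsion ℤ ((κ' → ℤ) ⧸ P') := by
    intro x hx
    rw [Submodule.mem_torsion_iff] at hx ⊢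
    obtain ⟨M, hM⟩ := hx
    refine ⟨M, ?_⟩
    have h5 := congrArg (P.mapQ P' F h1) hM
    rw [map_zero] at h5
    rw [← h5]
    exact (LinearMap.map_smul (P.mapQ P' F h1) (M : ℤ) x).symm
  have t2 : ∀ x : ((κ' → ℤ) ⧸ P'), x ∈ Submodule.torsion ℤ ((κ' → ℤ) ⧸ P') →
      P'.mapQ P G h2 x ∈ Submodule.torsion ℤ ((κ → ℤ) ⧸ P) := by
    intro x hx
    rw [Submodule.mem_torsion_iff] at hx ⊢
    obtain ⟨M, hM⟩ := hx
    refine ⟨M, ?_⟩
    have h5 := congrArg (P'.mapQ P G h2) hM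
    rw [map_zero] at h5
    rw [← h5]
    exact (LinearMap.map_smul (P'.mapQ P G h2) (M : ℤ) x).symm
  have r1 : ∀ x : ((κ → ℤ) ⧸ P), x ∈ Submodule.torsion ℤ ((κ → ℤ) ⧸ P) →
      P'.mapQ P G h2 (P.mapQ P' F h1 x) = x := by
    intro x hx
    obtain ⟨y, rfl⟩ := Submodule.Quotient.mk_surjective P x
    rw [Submodule.mem_torsion_iff] at hx
    obtain ⟨M, hM⟩ := hx
    have hM0 : (M : ℤ) ≠ 0 := nonZeroDivisors.coe_ne_zero M
    have h5 : (M : ℤ) • y ∈ P := by
      rw [← Submodule.Quotient.mk_eq_zero, Submodule.Quotient.mk_smul]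
      exact hM
    have h6 := h3 _ h5
    rw [map_smul, map_smul] at h6
    have h7 : G (F y) = y := by
      funext k
      have h8 := congrFun h6 k
      rw [Pi.smul_apply, Pi.smul_apply, smul_eq_mul, smul_eq_mul] at h8
      exact mul_left_cancel₀ hM0 h8
    rw [Submodule.mapQ_apply, Submodule.mapQ_apply, h7]
  have r2 : ∀ x : ((κ' → ℤ) ⧸ P'), x ∈ Submodule.torsion ℤ ((κ' → ℤ) ⧸ P') →
      P.mapQ P' F h1 (P'.mapQ P G h2 x) = x := by
    intro x hx
    obtain ⟨y, rfl⟩ := Submodule.Quotient.mk_surjective P' x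
    rw [Submodule.mem_torsion_iff] at hx
    obtain ⟨M, hM⟩ := hx
    have hM0 : (M : ℤ) ≠ 0 := nonZeroDivisors.coe_ne_zero M
    have h5 : (M : ℤ) • y ∈ P' := by
      rw [← Submodule.Quotient.mk_eq_zero, Submodule.Quotient.mk_smul]
      exact hM
    have h6 := h4 _ h5
    rw [map_smul, map_smul] at h6
    have h7 : F (G y) = y := by
      funext k
      have h8 := congrFun h6 k
      rw [Pi.smul_apply, Pi.smul_apply, smul_eq_mul, smul_eq_mul] at h8
      exact mul_left_cancel₀ hM0 h8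
    rw [Submodule.mapQ_apply, Submodule.mapQ_apply, h7]
  unfold H22.latIndex
  rw [← hP, ← hP']
  refine Nat.card_congr ⟨fun x => ⟨P'.mapQ P G h2 x.1, t2 x.1 x.2⟩,
    fun x => ⟨P.mapQ P' F h1 x.1, t1 x.1 x.2⟩, fun x => ?_, fun x => ?_⟩
  · exact Subtype.ext (r2 x.1 x.2)
  · exact Subtype.ext (r1 x.1 x.2)

/-- the extension of a matrix by the identity of the first coordinate -/
private def ZNV_ext {R : Type*} [CommRing R] {n n' : ℕ} (A : Fin n' → Fin n → R) :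
    (Unit ⊕ Fin n → R) →ₗ[R] (Unit ⊕ Fin n' → R) where
  toFun x := Sum.elim (fun _ => x (Sum.inl ())) (fun j' => ∑ j, A j' j * x (Sum.inr j))
  map_add' x y := by
    funext k
    rcases k with k | k
    · simp
    · simp [mul_add, Finset.sum_add_distrib]
  map_smul' c x := by
    funext k
    rcases k with k | k
    · simp
    · simp only [Pi.smul_apply, smul_eq_mul, Sum.elim_inr, RingHom.id_apply, Finset.mul_sum]
      exact Finset.sum_congr rfl fun j _ => by ring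

private lemma ZNV_extZ {n n' r : ℕ} {a : Fin r → (Fin n →₀ ℕ)} {a' : Fin r → (Fin n' →₀ ℕ)}
    {A : Fin n' → Fin n → ℤ} (hA : ∀ i j', (a' i j' : ℤ) = ∑ j, A j' j * (a i j : ℤ)) (i : Fin r) :
    ZNV_ext A (H22.homRow a i) = H22.homRow a' i := by
  funext k
  rcases k with k | k
  · rfl
  · simp only [ZNV_ext, LinearMap.coe_mk, AddHom.coe_mk, Sum.elim_inr, H22.homRow]
    exact (hA i k).symm

private lemma ZNV_extR {n n' r : ℕ} {a : Fin r → (Fin n →₀ ℕ)} {a' : Fin r → (Fin n' →₀ ℕ)}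
    {A : Fin n' → Fin n → ℤ} (hA : ∀ i j', (a' i j' : ℤ) = ∑ j, A j' j * (a i j : ℤ)) (i : Fin r) :
    ZNV_ext (fun j' j => (A j' j : ℝ)) (H22.rowR a i) = H22.rowR a' i := by
  funext k
  rcases k with k | k
  · rfl
  · simp only [ZNV_ext, LinearMap.coe_mk, AddHom.coe_mk, Sum.elim_inr, H22.rowR]
    have h := congrArg (fun z : ℤ => (z : ℝ)) (hA i k)
    push_cast at h
    exact h.symm

private lemma ZNV_img {n n' r : ℕ} {a : Fin r → (Fin n →₀ ℕ)} {a' : Fin r → (Fin n' →₀ ℕ)}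
    (F : (Unit ⊕ Fin n → ℝ) →ₗ[ℝ] (Unit ⊕ Fin n' → ℝ)) (hF : ∀ i, F (H22.rowR a i) = H22.rowR a' i)
    (τ : Finset (Fin r)) : Submodule.span ℝ (H22.rowR a' '' (τ : Set (Fin r))) =
      (Submodule.span ℝ (H22.rowR a '' (τ : Set (Fin r)))).map F := by
  rw [Submodule.map_span, Set.image_image]
  congr 1
  exact Set.image_congr fun i _ => (hF i).symm

theorem faceRank_eqv {n n' r : ℕ} {a : Fin r → (Fin n →₀ ℕ)} {a' : Fin r → (Fin n' →₀ ℕ)}
    (h : EqvE a a') (τ : Finset (Fin r)) : H22.faceRank a' τ = H22.faceRank a τ := by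
  obtain ⟨⟨A, hA⟩, ⟨B, hB⟩⟩ := h
  unfold H22.faceRank
  apply le_antisymm
  · rw [ZNV_img _ (ZNV_extR hA) τ]
    exact Submodule.finrank_map_le _ _
  · rw [ZNV_img _ (ZNV_extR hB) τ]
    exact Submodule.finrank_map_le _ _

theorem faceVol_eqv {n n' r : ℕ} {a : Fin r → (Fin n →₀ ℕ)} {a' : Fin r → (Fin n' →₀ ℕ)}
    (h : EqvE a a') (σ : Finset (Fin r)) : H22.faceVol a' σ = H22.faceVol a σ := by
  obtain ⟨⟨A, hA⟩, ⟨B, hB⟩⟩ := h
  unfold H22.faceVol
  exact ZNV_lat _ _ (ZNV_ext A) (ZNV_ext B) (fun i => ZNV_extZ hA i) (fun i => ZNV_extZ hB i)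

private lemma ZNV_upper {n n' r : ℕ} {a : Fin r → (Fin n →₀ ℕ)} {a' : Fin r → (Fin n' →₀ ℕ)}
    (G : (Unit ⊕ Fin n' → ℝ) →ₗ[ℝ] (Unit ⊕ Fin n → ℝ)) (hG : ∀ i, G (H22.rowR a' i) = H22.rowR a i)
    {h : Fin r → ℝ} {σ : Finset (Fin r)} (hU : H22.UpperS a h σ) : H22.UpperS a' h σ := by
  refine ⟨?_, fun l hl β hβ => ?_⟩
  · apply LinearIndependent.of_comp G
    have h1 : (G ∘ fun i : σ => H22.rowR a' i) = fun i : σ => H22.rowR a i := by
      funext i
      exact hG i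
    rw [h1]
    exact hU.1
  · apply hU.2 l hl β
    have h1 := congrArg G hβ
    rw [hG, map_sum] at h1
    rw [h1]
    refine Finset.sum_congr rfl fun i _ => ?_
    rw [map_smul, hG]

/-- ZNV -/
theorem nvol_eqv {n n' r : ℕ} {a : Fin r → (Fin n →₀ ℕ)} {a' : Fin r → (Fin n' →₀ ℕ)}
    (h : EqvE a a') (τ : Finset (Fin r)) (hτ : τ.Nonempty) (hF : H22.IsFace a τ)
    (𝒯 : H22.FaceTriang a τ) (𝒯' : H22.FaceTriang a' τ) : H22.nvol 𝒯' = H22.nvol 𝒯 := by
  classical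
  have hh0 : ∃ h' : Fin r → ℝ, LinearIndependent ℚ h' := by
    have h1 : (r : Cardinal) ≤ Module.rank ℚ ℝ := by
      rw [Real.rank_rat_real]
      exact (Cardinal.nat_lt_continuum r).le
    obtain ⟨s, hs, hli⟩ := le_rank_iff_exists_linearIndependent_finset.mp h1
    let e : Fin r ≃ s := Fintype.equivOfCardEq (by rw [Fintype.card_fin, Fintype.card_coe, hs])
    exact ⟨fun i => (e i : ℝ), hli.comp e e.injective⟩
  obtain ⟨ht, hht⟩ := hh0
  have hflat : ∀ l, H22.rowR a l ∈ Submodule.span ℝ (H22.rowR a '' (τ : Set (Fin r))) → l ∈ τ := by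
    intro l hl
    have h1 := H22.isFace_flat hτ hF
    rw [← h1, H22.mem_flatF]
    exact hl
  obtain ⟨⟨A, hA⟩, ⟨B, hB⟩⟩ := h
  have hflat' : ∀ l, H22.rowR a' l ∈ Submodule.span ℝ (H22.rowR a' '' (τ : Set (Fin r))) → l ∈ τ := by
    intro l hl
    apply hflat
    rw [ZNV_img _ (ZNV_extR hB) τ, ← ZNV_extR hB l]
    exact Submodule.mem_map_of_mem hl
  have hfr := faceRank_eqv ⟨⟨A, hA⟩, ⟨B, hB⟩⟩ τ
  rw [H22.nvol_eq_upper a ht hht τ hτ hflat 𝒯, H22.nvol_eq_upper a' ht hht τ hτ hflat' 𝒯', hfr]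
  have hiff : ∀ σ : Finset (Fin r), H22.UpperS a' ht σ ↔ H22.UpperS a ht σ := fun σ =>
    ⟨ZNV_upper _ (ZNV_extR hA), ZNV_upper _ (ZNV_extR hB)⟩
  refine Finset.sum_congr ?_ fun σ _ => faceVol_eqv ⟨⟨A, hA⟩, ⟨B, hB⟩⟩ σ
  ext σ
  simp only [mem_filter, mem_univ, true_and, hiff]

end Pool.Agent.H56.CT
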