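import Pool.Agent.H56.CT.ZLJ
import Pool.Agent.H56.CT.ZNV
import Pool.Agent.H22.Rat

/-!
# ZUN: independence of the decompositions, permutations of the variables

`goodW`: as `JfunG_good` (`Pool/Agent/H22/G9.lean`) with the positive numbers `ν·w_c` (`w_c ≠ 0` since the generators are independent; `GoodR.inv_linear` is for natural numbers, prove the version for a positive rational constant in the same way).
`ratW`: two rational functions with the same values at all real `s > 0` (`GoodR`) are equal (copy `ztb_goodR_unique` from `Pool/Agent/H56/SMC/ZTB.lean`).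
`Jfun_uniq`: `Jval_LB` for both with the same lattice basis (`exists_LB`).
`Jfun_perm`: let `b` be a lattice basis for `a`, `τ`; `b' c j = b c (π j)` is one for `pmE π a`; the integrands agree: `fW (ν ∘ π) (pmE π a) τ i0 s (k ∘ π) = fW ν a τ i0 s k` (sums over `j` permuted, `minCone` permuted).  So `JvalW` agree by `Jval_LB`.
`topZeta_uniq`, `topZeta_perm`: summand by summand: `IsCFace (pmE π a) τ ↔ IsCFace a τ` (permute `k`), `EqvE a (pmE π a)` (permutation matrices), `faceRank_eqv`, `nvol_eqv` (for `π = 1`, i.e. `a' = a`, this gives the independence of the triangulation).  Compact faces are faces and they are nonempty if `faceRank ≥ 1`.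
-/

set_option autoImplicit false

namespace Pool.Agent.H56.CT

open Finset

theorem ZUN_linear {ν : ℚ} {N : ℕ} (hν : 0 < ν) :
    H22.GoodR ((RatFunc.C ((ν : ℚ) : ℂ) + (N : RatFunc ℂ) * RatFunc.X)⁻¹)
      (fun s => 1 / (((ν : ℚ) : ℂ) + (s : ℂ) * (N : ℂ))) := by
  refine ⟨1, Polynomial.C ((ν : ℚ) : ℂ) + (N : Polynomial ℂ) * Polynomial.X, ?_, ?_,
    fun s _ => ?_⟩
  · constructor
    · intro h
      have := congrArg (Polynomial.eval (0 : ℂ)) h
      simp at this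
      exact hν.ne' this
    · intro z hz
      rw [Polynomial.IsRoot] at hz
      simp only [Polynomial.eval_add, Polynomial.eval_mul, Polynomial.eval_natCast,
        Polynomial.eval_X, Polynomial.eval_C] at hz
      have hN : (N : ℂ) ≠ 0 := by
        intro h0
        rw [h0, zero_mul, add_zero] at hz
        have : ν = 0 := by exact_mod_cast hz
        exact hν.ne' this
      have hN' : (0 : ℝ) < N := by
        have : N ≠ 0 := by exact_mod_cast hN
        positivity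
      have hν' : (0 : ℝ) < (ν : ℝ) := by exact_mod_cast hν
      refine ⟨-((ν : ℝ) / (N : ℝ)), ?_, ?_⟩
      · have : (0 : ℝ) ≤ (ν : ℝ) / (N : ℝ) := by positivity
        linarith
      · push_cast
        field_simp
        linear_combination hz
  · rw [map_one, one_div]
    simp [RatFunc.algebraMap_X, RatFunc.algebraMap_C]
  · simp only [Polynomial.eval_one, Polynomial.eval_add, Polynomial.eval_mul,
      Polynomial.eval_natCast, Polynomial.eval_X, Polynomial.eval_C]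
    rw [mul_comm (s : ℂ)]

theorem ZUN_wsp_pos {n : ℕ} {ν : Fin n → ℚ} (hν : ∀ j, 0 < ν j) {w : Fin n → ℕ}
    (hw : 0 < H22.wsum w) : 0 < wsp ν w := by
  unfold wsp
  unfold H22.wsum at hw
  obtain ⟨j, _, hj⟩ : ∃ j ∈ (univ : Finset (Fin n)), 0 < w j := by
    by_contra hcon
    push Not at hcon
    have : ∑ j, w j = 0 := Finset.sum_eq_zero fun j hj => Nat.le_zero.1 (hcon j hj)
    omega
  refine Finset.sum_pos' (fun i _ => mul_nonneg (hν i).le (Nat.cast_nonneg _)) ⟨j, mem_univ _, ?_⟩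
  have : (0 : ℚ) < (w j : ℚ) := by exact_mod_cast hj
  exact mul_pos (hν j) this

theorem goodW {n r : ℕ} (ν : Fin n → ℚ) (hν : ∀ j, 0 < ν j) (a : Fin r → (Fin n →₀ ℕ))
    (τ : Finset (Fin r)) (𝒟 : H22.FaceCones a τ) :
    H22.GoodR (JfunW ν a τ 𝒟) (fun s => (JvalW ν a τ 𝒟 s : ℂ)) := by
  unfold JfunW
  refine H22.GoodR.congr (H22.GoodR.sum _ fun C _ => (H22.GoodR.natCast _).mul
    (H22.GoodR.prod _ fun c _ => ZUN_linear (ZUN_wsp_pos hν (H22.wsum_pos (𝒟.indep C) c)))) ?_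
  intro s _
  unfold JvalW
  push_cast
  rfl

theorem ratW {Z Z' : RatFunc ℂ} {G : ℝ → ℂ} (h : H22.GoodR Z G) (h' : H22.GoodR Z' G) :
    Z = Z' := by
  obtain ⟨p, q, hq, hZ, hF⟩ := h
  obtain ⟨p', q', hq', hZ', hF'⟩ := h'
  have key : p * q' = p' * q := by
    apply Polynomial.eq_of_infinite_eval_eq
    refine Set.Infinite.mono (s := (fun s : ℝ => (s : ℂ)) '' Set.Ioi (0 : ℝ)) ?_ ?_
    · rintro _ ⟨s, hs, rfl⟩
      have hs' : 0 < s := hs
      show Polynomial.eval (s : ℂ) (p * q') = Polynomial.eval (s : ℂ) (p' * q)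
      have h1 := hF s hs'
      rw [hF' s hs', div_eq_div_iff (hq'.eval_ne hs') (hq.eval_ne hs')] at h1
      rw [Polynomial.eval_mul, Polynomial.eval_mul]
      exact h1.symm
    · refine Set.Infinite.image ?_ (Set.Ioi_infinite 0)
      intro x _ y _ hxy
      have : (x : ℂ) = (y : ℂ) := hxy
      exact_mod_cast this
  rw [hZ, hZ', div_eq_div_iff (H22.algMap_ne hq.1) (H22.algMap_ne hq'.1), ← map_mul, ← map_mul,
    key]

theorem Jfun_uniq {n r : ℕ} (ν : Fin n → ℚ) (hν : ∀ j, 0 < ν j) (a : Fin r → (Fin n →₀ ℕ))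
    (τ : Finset (Fin r)) (hτ : τ.Nonempty) (𝒟 𝒟' : H22.FaceCones a τ) :
    JfunW ν a τ 𝒟 = JfunW ν a τ 𝒟' := by
  obtain ⟨b, hb⟩ := exists_LB a τ hτ
  obtain ⟨i0, hi0⟩ := hτ
  refine ratW (goodW ν hν a τ 𝒟) ?_
  refine H22.GoodR.congr (goodW ν hν a τ 𝒟') ?_
  intro s hs
  rw [(Jval_LB ν hν a τ 𝒟 b hb i0 hi0 s hs).2, (Jval_LB ν hν a τ 𝒟' b hb i0 hi0 s hs).2]

theorem ZUN_pmE {n r : ℕ} (π : Equiv.Perm (Fin n)) (a : Fin r → (Fin n →₀ ℕ)) (i : Fin r)
    (j : Fin n) : pmE π a i j = a i (π j) := by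
  unfold pmE
  simp

theorem ZUN_sum {n r : ℕ} (π : Equiv.Perm (Fin n)) (a : Fin r → (Fin n →₀ ℕ)) (i : Fin r)
    (k : Fin n → ℝ) :
    ∑ j, (pmE π a i j : ℝ) * k (π j) = ∑ j, (a i j : ℝ) * k j := by
  rw [← Equiv.sum_comp π (fun j => (a i j : ℝ) * k j)]
  exact Finset.sum_congr rfl fun j _ => by rw [ZUN_pmE]

theorem ZUN_sumZ {n r : ℕ} (π : Equiv.Perm (Fin n)) (a : Fin r → (Fin n →₀ ℕ)) (i : Fin r)
    (k : Fin n → ℤ) :
    ∑ j, (pmE π a i j : ℤ) * k (π j) = ∑ j, (a i j : ℤ) * k j := by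
  rw [← Equiv.sum_comp π (fun j => (a i j : ℤ) * k j)]
  exact Finset.sum_congr rfl fun j _ => by rw [ZUN_pmE]

theorem ZUN_min {n r : ℕ} (π : Equiv.Perm (Fin n)) (a : Fin r → (Fin n →₀ ℕ))
    (τ : Finset (Fin r)) (k : Fin n → ℝ) :
    (fun j => k (π j)) ∈ H22.minCone (pmE π a) τ ↔ k ∈ H22.minCone a τ := by
  unfold H22.minCone
  simp only [Set.mem_ofPred_eq, ZUN_sum]
  refine and_congr_left fun _ => ⟨fun h j => ?_, fun h j => h _⟩
  have := h (π.symm j)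
  rwa [Equiv.apply_symm_apply] at this

theorem ZUN_fW {n r : ℕ} (π : Equiv.Perm (Fin n)) (ν : Fin n → ℚ)
    (a : Fin r → (Fin n →₀ ℕ)) (τ : Finset (Fin r)) (i0 : Fin r) (s : ℝ) (k : Fin n → ℝ) :
    fW (fun j => ν (π j)) (pmE π a) τ i0 s (fun j => k (π j)) = fW ν a τ i0 s k := by
  unfold fW
  simp only [ZUN_sum]
  have h1 : ∑ j, (ν (π j) : ℝ) * k (π j) = ∑ j, (ν j : ℝ) * k j :=
    Equiv.sum_comp π (fun j => (ν j : ℝ) * k j)
  rw [h1]
  by_cases hk : k ∈ H22.minCone a τ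
  · rw [if_pos hk, if_pos ((ZUN_min π a τ k).2 hk)]
  · rw [if_neg hk, if_neg (fun h => hk ((ZUN_min π a τ k).1 h))]

theorem ZUN_LB {n r d : ℕ} (π : Equiv.Perm (Fin n)) {a : Fin r → (Fin n →₀ ℕ)}
    {τ : Finset (Fin r)} {b : Fin d → Fin n → ℤ} (hb : IsLB a τ b) :
    IsLB (pmE π a) τ (fun c j => b c (π j)) := by
  constructor
  · have h1 := hb.ind.map' (LinearMap.funLeft ℤ ℤ π)
      (LinearMap.ker_eq_bot.2 (LinearMap.funLeft_injective_of_surjective ℤ ℤ π π.surjective))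
    exact h1
  · intro c i hi i' hi'
    rw [ZUN_sumZ π a i (b c), ZUN_sumZ π a i' (b c)]
    exact hb.mem c i hi i' hi'
  · intro k hk
    have hkk : ∀ j, k j = (fun j => k (π.symm j)) (π j) := by
      intro j
      simp
    obtain ⟨x, hx⟩ := hb.gen (fun j => k (π.symm j)) (by
      intro i hi i' hi'
      rw [← ZUN_sumZ π a i, ← ZUN_sumZ π a i']
      simp only [Equiv.symm_apply_apply]
      exact hk i hi i' hi')
    refine ⟨x, ?_⟩
    funext j
    have := congrFun hx (π j)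
    simp only [Equiv.symm_apply_apply, Finset.sum_apply, Pi.smul_apply] at this
    rw [this]
    simp only [Finset.sum_apply, Pi.smul_apply]

theorem Jfun_perm {n r : ℕ} (π : Equiv.Perm (Fin n)) (ν : Fin n → ℚ) (hν : ∀ j, 0 < ν j)
    (a : Fin r → (Fin n →₀ ℕ)) (τ : Finset (Fin r)) (hτ : τ.Nonempty)
    (𝒟 : H22.FaceCones a τ) (𝒟' : H22.FaceCones (pmE π a) τ) :
    JfunW (fun j => ν (π j)) (pmE π a) τ 𝒟' = JfunW ν a τ 𝒟 := by
  obtain ⟨b, hb⟩ := exists_LB a τ hτ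
  obtain ⟨i0, hi0⟩ := hτ
  refine ratW (goodW (fun j => ν (π j)) (fun j => hν _) (pmE π a) τ 𝒟') ?_
  refine H22.GoodR.congr (goodW ν hν a τ 𝒟) ?_
  intro s hs
  rw [(Jval_LB ν hν a τ 𝒟 b hb i0 hi0 s hs).2,
    (Jval_LB (fun j => ν (π j)) (fun j => hν _) (pmE π a) τ 𝒟' _ (ZUN_LB π hb) i0 hi0 s hs).2]
  congr 1
  unfold LB
  refine MeasureTheory.integral_congr_ae (Filter.Eventually.of_forall fun p => ?_)
  exact ZUN_fW π ν a τ i0 s (fun j => ∑ c, p c * (b c j : ℝ))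

theorem ZUN_refl {n r : ℕ} (a : Fin r → (Fin n →₀ ℕ)) : EqvE a a :=
  ⟨⟨fun j' j => if j = j' then 1 else 0, fun i j' => by simp⟩,
    ⟨fun j j' => if j' = j then 1 else 0, fun i j => by simp⟩⟩

theorem ZUN_eqv {n r : ℕ} (π : Equiv.Perm (Fin n)) (a : Fin r → (Fin n →₀ ℕ)) :
    EqvE a (pmE π a) :=
  ⟨⟨fun j' j => if j = π j' then 1 else 0, fun i j' => by simp [ZUN_pmE]⟩,
    ⟨fun j j' => if j' = π.symm j then 1 else 0, fun i j => by simp [ZUN_pmE]⟩⟩

theorem ZUN_ne {n r : ℕ} {a : Fin r → (Fin n →₀ ℕ)} {τ : Finset (Fin r)}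
    (h : 1 ≤ H22.faceRank a τ) : τ.Nonempty := by
  rw [Finset.nonempty_iff_ne_empty]
  rintro rfl
  unfold H22.faceRank at h
  simp at h

theorem ZUN_face {n r : ℕ} {a : Fin r → (Fin n →₀ ℕ)} {τ : Finset (Fin r)}
    (h : H22.T7.IsCFace a τ) : H22.IsFace a τ := by
  obtain ⟨k, hk, h2⟩ := h
  exact ⟨k, fun j => (hk j).le, h2⟩

theorem ZUN_cface {n r : ℕ} (π : Equiv.Perm (Fin n)) (a : Fin r → (Fin n →₀ ℕ))
    (τ : Finset (Fin r)) : H22.T7.IsCFace (pmE π a) τ ↔ H22.T7.IsCFace a τ := by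
  constructor
  · rintro ⟨k, hk, h⟩
    have h1 : ∀ i, ∑ j, (a i j : ℝ) * k (π.symm j) = ∑ j, (pmE π a i j : ℝ) * k j := by
      intro i
      rw [← ZUN_sum π a i]
      simp only [Equiv.symm_apply_apply]
    refine ⟨fun j => k (π.symm j), fun j => hk _, fun l => ?_⟩
    simp only [h1]
    exact h l
  · rintro ⟨k, hk, h⟩
    refine ⟨fun j => k (π j), fun j => hk _, fun l => ?_⟩
    simp only [ZUN_sum]
    exact h l

theorem topZeta_uniq {n r : ℕ} (ν : Fin n → ℚ) (hν : ∀ j, 0 < ν j) (a : Fin r → (Fin n →₀ ℕ))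
    (𝒟 𝒟' : ∀ τ, H22.FaceCones a τ) (𝒯 𝒯' : ∀ τ, H22.FaceTriang a τ) :
    topZetaLW ν a 𝒟 𝒯 = topZetaLW ν a 𝒟' 𝒯' := by
  classical
  unfold topZetaLW
  congr 1
  · refine Finset.sum_congr rfl fun τ hτ => ?_
    rw [Finset.mem_filter] at hτ
    exact Jfun_uniq ν hν a τ (ZUN_ne hτ.2.2.ge) _ _
  · congr 1
    refine Finset.sum_congr rfl fun τ hτ => ?_
    rw [Finset.mem_filter] at hτ
    have hne : τ.Nonempty := ZUN_ne (a := a) (by omega)
    rw [Jfun_uniq ν hν a τ hne (𝒟 τ) (𝒟' τ),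
      nvol_eqv (ZUN_refl a) τ hne (ZUN_face hτ.2.1) (𝒯' τ) (𝒯 τ)]

/-- ZUN -/
theorem topZeta_perm {n r : ℕ} (π : Equiv.Perm (Fin n)) (ν : Fin n → ℚ) (hν : ∀ j, 0 < ν j)
    (a : Fin r → (Fin n →₀ ℕ)) (𝒟 : ∀ τ, H22.FaceCones a τ) (𝒯 : ∀ τ, H22.FaceTriang a τ)
    (𝒟' : ∀ τ, H22.FaceCones (pmE π a) τ) (𝒯' : ∀ τ, H22.FaceTriang (pmE π a) τ) :
    topZetaLW (fun j => ν (π j)) (pmE π a) 𝒟' 𝒯' = topZetaLW ν a 𝒟 𝒯 := by
  classical
  have hfr : ∀ τ, H22.faceRank (pmE π a) τ = H22.faceRank a τ := faceRank_eqv (ZUN_eqv π a)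
  unfold topZetaLW
  congr 1
  · refine Finset.sum_congr ?_ fun τ hτ => ?_
    · exact Finset.filter_congr fun τ _ => by rw [ZUN_cface, hfr]
    · rw [Finset.mem_filter] at hτ
      exact Jfun_perm π ν hν a τ (ZUN_ne hτ.2.2.ge) _ _
  · congr 1
    refine Finset.sum_congr ?_ fun τ hτ => ?_
    · exact Finset.filter_congr fun τ _ => by rw [ZUN_cface, hfr]
    · rw [Finset.mem_filter] at hτ
      have hne : τ.Nonempty := ZUN_ne (a := a) (by omega)
      rw [Jfun_perm π ν hν a τ hne (𝒟 τ) (𝒟' τ), hfr τ,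
        nvol_eqv (ZUN_eqv π a) τ hne (ZUN_face hτ.2.1) (𝒯 τ) (𝒯' τ)]

end Pool.Agent.H56.CT
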