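import Pool.Agent.H56.CT.SDefs
import Pool.Agent.H56.CT.ZUN

/-!
# MSM: the iterated sum as a sum over tuples

Claim for a list `l` without repetitions and a fixed `s1 : Str`: `msum a M l S0 = ∑ S ∈ Fintype.piFinset (fun k => if k ∈ l then (M k).support else {s1}), (∏ k ∈ l.toFinset, (M k (S k) : ℂ)) • ZS a (fun k => if k ∈ l then toQ (S k) else S0 k)`.
Induction on `l`.  `[]`: the only tuple is the constant one.  `k :: l`: `(M k).sum fun s c => c • msum a M l (update S0 k (toQ s))`, a sum over `s ∈ (M k).support`; insert the induction hypothesis for `update S0 k (toQ s)`; the pairs `(s, S)`, `S` a tuple for `l` (so `S k = s1`), correspond to the tuples `update S k s` for `k :: l`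
(`Finset.sum_sigma'` or `sum_product'` and `Finset.sum_bij'`; the inverse is `S' ↦ (S' k, update S' k s1)`).  `ℤ`-multiples and `ℂ`-multiples in `RatFunc ℂ` agree (`Int.cast_smul_eq_zsmul`).
The theorem: all `k`; `ZS` with arbitrary decompositions by `topZeta_uniq` (weights positive by `hM` for tuples in the supports).
-/

set_option autoImplicit false

namespace Pool.Agent.H56.CT

open Finset

theorem MSM_list {m r : ℕ} (a : Fin r → (Fin m →₀ ℕ)) (M : Fin m → (Str →₀ ℤ)) (s1 : Str)
    (l : List (Fin m)) (hl : l.Nodup) : ∀ S0 : Fin m → Slt,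
    msum a M l S0 = ∑ S ∈ Fintype.piFinset (fun k => if k ∈ l then (M k).support else {s1}),
      (∏ k ∈ l.toFinset, ((M k (S k) : ℤ) : RatFunc ℂ)) *
        ZS a (fun k => if k ∈ l then toQ (S k) else S0 k) := by
  classical
  induction l with
  | nil =>
    intro S0
    have h1 : Fintype.piFinset (fun k : Fin m => if k ∈ ([] : List (Fin m)) then (M k).support
        else {s1}) = {fun _ => s1} := by
      ext S
      rw [Fintype.mem_piFinset, Finset.mem_singleton]
      constructor
      · intro h
        funext k
        have := h k
        simpa using this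
      · rintro rfl k
        simp
    rw [h1, Finset.sum_singleton]
    simp [msum]
  | cons k l ih =>
    intro S0
    rw [List.nodup_cons] at hl
    have hk : k ∉ l := hl.1
    have hkf : k ∉ l.toFinset := by rwa [List.mem_toFinset]
    have hmem : ∀ j, j ≠ k → (j ∈ k :: l ↔ j ∈ l) := by
      intro j hj
      rw [List.mem_cons]
      exact ⟨fun h => h.resolve_left hj, fun h => Or.inr h⟩
    have hkk : k ∈ k :: l := List.mem_cons_self
    have e1 : msum a M (k :: l) S0 =
        (M k).sum fun s c => c • msum a M l (Function.update S0 k (toQ s)) := rfl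
    rw [e1, Finsupp.sum]
    have e2 : ∀ s ∈ (M k).support, (M k s) • msum a M l (Function.update S0 k (toQ s)) =
        ∑ S ∈ Fintype.piFinset (fun k => if k ∈ l then (M k).support else {s1}),
          ((M k s : ℤ) : RatFunc ℂ) * ((∏ j ∈ l.toFinset, ((M j (S j) : ℤ) : RatFunc ℂ)) *
            ZS a (fun j => if j ∈ l then toQ (S j) else Function.update S0 k (toQ s) j)) := by
      intro s _
      rw [ih hl.2, zsmul_eq_mul, Finset.mul_sum]
    rw [Finset.sum_congr rfl e2, ← Finset.sum_product']
    refine Finset.sum_bij' (fun x _ => Function.update x.2 k x.1)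
      (fun S _ => (S k, Function.update S k s1)) ?_ ?_ ?_ ?_ ?_
    · intro x hx
      rw [Finset.mem_product, Fintype.mem_piFinset] at hx
      rw [Fintype.mem_piFinset]
      intro j
      by_cases hj : j = k
      · subst hj
        rw [Function.update_self, if_pos hkk]
        exact hx.1
      · rw [Function.update_of_ne hj]
        have := hx.2 j
        by_cases hjl : j ∈ l
        · rw [if_pos ((hmem j hj).2 hjl)]
          rwa [if_pos hjl] at this
        · rw [if_neg (fun h => hjl ((hmem j hj).1 h))]
          rwa [if_neg hjl] at this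
    · intro S hS
      rw [Fintype.mem_piFinset] at hS
      rw [Finset.mem_product, Fintype.mem_piFinset]
      refine ⟨?_, fun j => ?_⟩
      · have := hS k
        rwa [if_pos hkk] at this
      · by_cases hj : j = k
        · subst hj
          change Function.update S j s1 j ∈ _
          rw [Function.update_self, if_neg hk, Finset.mem_singleton]
        · change Function.update S k s1 j ∈ _
          rw [Function.update_of_ne hj]
          have := hS j
          by_cases hjl : j ∈ l
          · rw [if_pos hjl]
            rwa [if_pos ((hmem j hj).2 hjl)] at this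
          · rw [if_neg hjl]
            rwa [if_neg (fun h => hjl ((hmem j hj).1 h))] at this
    · intro x hx
      rw [Finset.mem_product, Fintype.mem_piFinset] at hx
      have h1 := hx.2 k
      rw [if_neg hk, Finset.mem_singleton] at h1
      refine Prod.ext ?_ ?_
      · change Function.update x.2 k x.1 k = x.1
        rw [Function.update_self]
      · change Function.update (Function.update x.2 k x.1) k s1 = x.2
        rw [Function.update_idem, ← h1, Function.update_eq_self]
    · intro S hS
      change Function.update (Function.update S k s1) k (S k) = S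
      rw [Function.update_idem, Function.update_eq_self]
    · intro x hx
      change _ = (∏ j ∈ (k :: l).toFinset, ((M j (Function.update x.2 k x.1 j) : ℤ) : RatFunc ℂ)) *
        ZS a (fun j => if j ∈ k :: l then toQ (Function.update x.2 k x.1 j) else S0 j)
      rw [List.toFinset_cons, Finset.prod_insert hkf, Function.update_self, mul_assoc]
      congr 1
      congr 1
      · refine Finset.prod_congr rfl fun j hj => ?_
        have hj' : j ≠ k := by
          rintro rfl
          exact hkf hj
        rw [Function.update_of_ne hj']
      · congr 1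
        funext j
        by_cases hj : j = k
        · subst hj
          rw [if_neg hk, Function.update_self, if_pos hkk, Function.update_self]
        · rw [Function.update_of_ne hj]
          by_cases hjl : j ∈ l
          · rw [if_pos hjl, if_pos ((hmem j hj).2 hjl)]
            rw [Function.update_of_ne hj]
          · rw [if_neg hjl, if_neg (fun h => hjl ((hmem j hj).1 h))]

/-- MSM -/
theorem msum_eq {m r : ℕ} (a : Fin r → (Fin m →₀ ℕ)) (M : Fin m → (Str →₀ ℤ))
    (hM : ∀ k, ∀ s ∈ (M k).support, 0 < s.ν1 ∧ 0 < s.ν2)
    (𝒟 : ∀ (S : Fin m → Str) (τ : Finset (Fin r)), H22.FaceCones (pbE a (fun k => toQ (S k))) τ)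
    (𝒯 : ∀ (S : Fin m → Str) (τ : Finset (Fin r)), H22.FaceTriang (pbE a (fun k => toQ (S k))) τ)
    (S0 : Fin m → Slt) :
    ∑ S ∈ Fintype.piFinset (fun k => (M k).support), (∏ k, ((M k (S k) : ℤ) : RatFunc ℂ)) *
        topZetaLW (pbW (fun k => toQ (S k))) (pbE a (fun k => toQ (S k))) (𝒟 S) (𝒯 S) =
      msum a M (List.finRange m) S0 := by
  classical
  rw [MSM_list a M ⟨1, 1, 0, 1⟩ (List.finRange m) (List.nodup_finRange m) S0]
  have hmem : ∀ k : Fin m, k ∈ List.finRange m := List.mem_finRange
  have e1 : (fun k : Fin m => if k ∈ List.finRange m then (M k).support else {⟨1, 1, 0, 1⟩}) =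
      fun k => (M k).support := by
    funext k
    rw [if_pos (hmem k)]
  have e2 : (List.finRange m).toFinset = (univ : Finset (Fin m)) := by
    ext k
    simp
  rw [e1, e2]
  refine Finset.sum_congr rfl fun S hS => ?_
  rw [Fintype.mem_piFinset] at hS
  congr 1
  have e3 : (fun k : Fin m => if k ∈ List.finRange m then toQ (S k) else S0 k) =
      fun k => toQ (S k) := by
    funext k
    rw [if_pos (hmem k)]
  rw [e3]
  unfold ZS
  refine topZeta_uniq _ ?_ _ _ _ _ _
  intro j
  obtain ⟨⟨k, δ⟩, rfl⟩ := finProdFinEquiv.surjective j
  rw [pbW_apply]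
  have h := hM k (S k) (hS k)
  unfold Slt.w toQ
  split_ifs
  · change (0 : ℚ) < ((S k).ν1 : ℚ)
    exact_mod_cast h.1
  · change (0 : ℚ) < ((S k).ν2 : ℚ)
    exact_mod_cast h.2

end Pool.Agent.H56.CT
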