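import Pool.Agent.H56.CT.FDefs
import Pool.Agent.H22.T7.RST
import Pool.Agent.H22.T7.AUT
import Pool.Agent.H22.T7.EXT

/-!
# RSG: restriction and extension of the set of variables

`autV`: as `aut` (`Pool/Agent/H22/T7/AUT.lean`, `AUT_conj`): `B' c = ∑ i, c ^ i • D_i'`, `B' k ((φ G)^(k+1)) = φ (B k (G^(k+1))) = b(k) • (φ V * (φ G)^k)`.
`rsg`.  `θ : τ ≃ Fin n`, `θ' : σ ≃ Fin m` (`Fintype.equivFin`), `ι' = (θ'.symm.toEmbedding.trans ι).trans θ.toEmbedding`.  `autV` with `MvPowerSeries.renameEquiv ℂ θ`: `FEqV (MvPowerSeries (Fin n) ℂ) (rename θ (rename ι G)) (rename θ V) b`, and `rename θ (rename ι G) = rename ι' (rename θ' G)` (`MvPowerSeries.rename_rename`).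
`rst ι' (rename θ' G) (rename θ V)`: the exponents of `rename θ V` are those of `V`, transported (`MvPowerSeries.coeff_embDomain_rename`), so they vanish on the range of `ι'`; `rename θ V ≠ 0` (injective).  So `FEq (MvPowerSeries (Fin m) ℂ) (rename θ' G) b`, and `aut` with the inverse of `renameEquiv ℂ θ'`.
`exd`: `B ∈ PF`, `B c = ∑ i, c ^ i • D i` (`PF_iff`), `D' i` from `ext` (`Pool/Agent/H22/T7/EXT.lean`) with `q = 1`: `D' i (rename inl g) = rename inl (D i g)`; `B' c = ∑ i, c ^ i • D' i`.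
-/

set_option autoImplicit false

namespace Pool.Agent.H56.CT

open Finset
open Pool.Agent.H22.T7

theorem autV {R R' : Type} [CommRing R] [Algebra ℂ R] [CommRing R'] [Algebra ℂ R']
    (φ : R ≃ₐ[ℂ] R') (G V : R) (b : Polynomial ℂ) (h : FEqV R G V b) :
    FEqV R' (φ G) (φ V) b := by
  obtain ⟨B, hB, hk⟩ := h
  obtain ⟨d, D, hD, hBD⟩ := (PF_iff B).1 hB
  choose D' hD' h1 using fun i => AUT_conj φ (D i) (hD i)
  refine ⟨fun c => ∑ i : Fin d, c ^ (i : ℕ) • D' i, (PF_iff _).2 ⟨d, D', hD', fun c => rfl⟩, ?_⟩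
  intro k
  have h2 := hk k
  have h3 : φ (B (k : ℂ) (G ^ (k + 1))) = φ (b.eval (k : ℂ) • (V * G ^ k)) := by rw [h2]
  rw [hBD, LinearMap.sum_apply, map_sum] at h3
  change (∑ i : Fin d, (k : ℂ) ^ (i : ℕ) • D' i) ((φ G) ^ (k + 1)) = _
  rw [LinearMap.sum_apply, ← map_pow, ← map_pow, ← map_mul]
  rw [map_smul] at h3
  rw [← h3]
  apply Finset.sum_congr rfl
  intro i _
  rw [LinearMap.smul_apply, LinearMap.smul_apply, h1, map_smul]

theorem RSG_rename_congr {σ τ : Type} (f g : σ → τ) [Filter.TendstoCofinite f]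
    [Filter.TendstoCofinite g] (h : f = g) (p : MvPowerSeries σ ℂ) :
    MvPowerSeries.rename f p = MvPowerSeries.rename g p := by
  subst h
  rfl

/-- RSG -/
theorem rsg {σ τ : Type} [Fintype σ] [DecidableEq σ] [Fintype τ] [DecidableEq τ] (ι : σ ↪ τ)
    (G : MvPowerSeries σ ℂ) (V : MvPowerSeries τ ℂ) (hV : V ≠ 0)
    (hV2 : ∀ ρ, MvPowerSeries.coeff ρ V ≠ 0 → ∀ x, ρ (ι x) = 0) (b : Polynomial ℂ)
    (h : FEqV (MvPowerSeries τ ℂ) (MvPowerSeries.rename ι G) V b) :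
    FEq (MvPowerSeries σ ℂ) G b := by
  let θ : τ ≃ Fin (Fintype.card τ) := Fintype.equivFin τ
  let θ' : σ ≃ Fin (Fintype.card σ) := Fintype.equivFin σ
  let ι' : Fin (Fintype.card σ) ↪ Fin (Fintype.card τ) :=
    (θ'.symm.toEmbedding.trans ι).trans θ.toEmbedding
  have hι' : ∀ x, ι' (θ' x) = θ (ι x) := by
    intro x
    change θ (ι (θ'.symm (θ' x))) = θ (ι x)
    rw [Equiv.symm_apply_apply]
  have h1 := autV (MvPowerSeries.renameEquiv ℂ θ) _ _ b h
  have e1 : MvPowerSeries.renameEquiv ℂ θ (MvPowerSeries.rename ι G) =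
      MvPowerSeries.rename ι' (MvPowerSeries.rename θ' G) := by
    change MvPowerSeries.rename θ (MvPowerSeries.rename ι G) = _
    rw [MvPowerSeries.rename_rename, MvPowerSeries.rename_rename]
    exact RSG_rename_congr _ _ (funext fun x => (hι' x).symm) G
  rw [e1] at h1
  have hV' : MvPowerSeries.renameEquiv ℂ θ V ≠ 0 := by
    intro h0
    exact hV ((map_eq_zero_iff _ (MvPowerSeries.renameEquiv ℂ θ).injective).1 h0)
  have hV2' : ∀ ρ, MvPowerSeries.coeff ρ (MvPowerSeries.renameEquiv ℂ θ V) ≠ 0 →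
      ∀ x, ρ (ι' x) = 0 := by
    intro ρ hρ x
    obtain ⟨y, rfl⟩ := ext_range θ.toEmbedding ρ fun t ht => absurd ⟨θ.symm t, by simp⟩ ht
    have e2 : MvPowerSeries.coeff (Finsupp.embDomain θ.toEmbedding y)
        (MvPowerSeries.renameEquiv ℂ θ V) = MvPowerSeries.coeff y V :=
      MvPowerSeries.coeff_embDomain_rename θ.toEmbedding V y
    rw [e2] at hρ
    have h3 := hV2 y hρ (θ'.symm x)
    have h4 : ι' x = θ.toEmbedding (ι (θ'.symm x)) := rfl
    rw [h4, Finsupp.embDomain_apply_self]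
    exact h3
  have h5 := rst ι' (MvPowerSeries.rename θ' G) _ hV' hV2' b h1
  have h6 := aut (MvPowerSeries.renameEquiv ℂ θ').symm _ b h5
  have e3 : (MvPowerSeries.renameEquiv ℂ θ').symm (MvPowerSeries.rename θ' G) = G :=
    (MvPowerSeries.renameEquiv ℂ θ').symm_apply_apply G
  rw [e3] at h6
  exact h6

theorem exd {n e : ℕ} (G : MvPowerSeries (Fin n) ℂ) (b : Polynomial ℂ)
    (h : FEq (MvPowerSeries (Fin n) ℂ) G b) :
    FEq (MvPowerSeries (Fin n ⊕ Fin e) ℂ) (MvPowerSeries.rename Sum.inl G) b := by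
  obtain ⟨B, hB, hk⟩ := h
  obtain ⟨d, D, hD, hBD⟩ := (PF_iff B).1 hB
  choose D' hD' h1 using fun i => ext (β := Fin e) (hD i)
  have h2 : ∀ i g, D' i (MvPowerSeries.rename Sum.inl g) =
      MvPowerSeries.rename Sum.inl (D i g) := by
    intro i g
    have h3 := h1 i g 1
    rwa [map_one, mul_one, mul_one] at h3
  refine ⟨fun c => ∑ i : Fin d, c ^ (i : ℕ) • D' i, (PF_iff _).2 ⟨d, D', hD', fun c => rfl⟩, ?_⟩
  intro k
  have h4 := hk k
  have h3 : MvPowerSeries.rename (Sum.inl : Fin n → Fin n ⊕ Fin e) (B (k : ℂ) (G ^ (k + 1))) =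
      MvPowerSeries.rename (Sum.inl : Fin n → Fin n ⊕ Fin e)
        (b.eval (k : ℂ) • (1 * G ^ k)) := by rw [h4]
  rw [hBD, LinearMap.sum_apply, map_sum] at h3
  change (∑ i : Fin d, (k : ℂ) ^ (i : ℕ) • D' i)
    ((MvPowerSeries.rename Sum.inl G) ^ (k + 1)) = _
  rw [LinearMap.sum_apply, one_mul, ← map_pow, ← map_pow]
  rw [one_mul, map_smul] at h3
  rw [← h3]
  apply Finset.sum_congr rfl
  intro i _
  rw [LinearMap.smul_apply, LinearMap.smul_apply, h2, map_smul]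

end Pool.Agent.H56.CT
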