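import Pool.Agent.H56.CT.CTD
import Pool.Agent.H56.CT.MRO
import Pool.Agent.H56.CT.MFI
import Pool.Agent.H56.CT.MSM
import Pool.Agent.H56.CT.RSG
import Pool.Agent.H22.T7.MAI
import Pool.Agent.H22.G6

/-!
# CTM: assembly

`ctg_unit`: the constant coefficient of `GC a κ f` is `0` (`T.ne`: some `a i k ≠ 0`, the constant coefficient of `rename .. (f k)` is `co (f k) 0 0 = 0`).
`ctg_reg`: `T.eq`.  `qf` (`Pool/Agent/H22/T7/QF.lean`; `MvPowerSeries σ ℂ` is a domain) gives `b.eval (-1) = 0`, so `s0 ≠ -1`.  `r > 0` (`T.conv`, `T.pos`).  `mfi` with `hHB := fun κ T' hV => mru ..` (`Conv T.a` is `T.conv`), and any `S`, e.g. `fun _ => ⟨1, 1, 0, 1⟩`; `msum_eq` (`res_pos` for `hM`) rewrites `T.Z`.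
`ct_local`: as `mai_gt` (`Pool/Agent/H22/T7/MAI.lean`) for the ring `MvPowerSeries (Fin n ⊕ Fin T.e) ℂ`: `aut T.φ _ _ (exd _ b (cmp F p b (fea F b P hfe)))`; `rename Sum.inl (germ F p) ≠ 0` (`rename` is injective).  `up`, `FEqV_unit`, `rsg (T.ι j)` instead of `rst`; `Off`, `Off_one`, `Off_mul`, `Off_pow`, `Off_prod`, `Off_rename` for general finite index types have to be copied.
`reg_prod`, `reg_aff` as there; `ctg_reg` for `b.comp (C (N⁻¹) * X)` at `N s0` (no condition on the real part).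
`ct_main`: as `fin_main` (`Pool/Agent/H22/T7/FIN.lean`).
-/

set_option autoImplicit false

namespace Pool.Agent.H56.CT

open Finset
open Pool.Agent.H22.T7 Pool.Agent.H37.SM

/-- The exponents vanish on the range of `ι`. -/
def CTM_Off {σ τ : Type} (ι : σ ↪ τ) (h : MvPowerSeries τ ℂ) : Prop :=
  ∀ ρ, MvPowerSeries.coeff ρ h ≠ 0 → ∀ x, ρ (ι x) = 0

theorem CTM_Off_one {σ τ : Type} (ι : σ ↪ τ) : CTM_Off ι (1 : MvPowerSeries τ ℂ) := by
  classical
  intro ρ hρ x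
  rw [MvPowerSeries.coeff_one] at hρ
  by_cases h : ρ = 0
  · rw [h]; rfl
  · rw [if_neg h] at hρ; exact absurd rfl hρ

theorem CTM_Off_mul {σ τ : Type} (ι : σ ↪ τ) {g h : MvPowerSeries τ ℂ}
    (hg : CTM_Off ι g) (hh : CTM_Off ι h) : CTM_Off ι (g * h) := by
  classical
  intro ρ hρ x
  rw [MvPowerSeries.coeff_mul] at hρ
  obtain ⟨q, hq, hne⟩ := Finset.exists_ne_zero_of_sum_ne_zero hρ
  rw [Finset.HasAntidiagonal.mem_antidiagonal] at hq
  rw [← hq, Finsupp.add_apply, hg _ (left_ne_zero_of_mul hne) x,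
    hh _ (right_ne_zero_of_mul hne) x]

theorem CTM_Off_pow {σ τ : Type} (ι : σ ↪ τ) {g : MvPowerSeries τ ℂ}
    (hg : CTM_Off ι g) (k : ℕ) : CTM_Off ι (g ^ k) := by
  induction k with
  | zero => rw [pow_zero]; exact CTM_Off_one ι
  | succ k ih => rw [pow_succ]; exact CTM_Off_mul ι ih hg

theorem CTM_Off_prod {σ τ : Type} {α : Type} (ι : σ ↪ τ) (s : Finset α)
    (f : α → MvPowerSeries τ ℂ) (hf : ∀ i ∈ s, CTM_Off ι (f i)) : CTM_Off ι (∏ i ∈ s, f i) := by
  classical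
  induction s using Finset.induction_on with
  | empty => rw [prod_empty]; exact CTM_Off_one ι
  | insert i s hi ih =>
    rw [prod_insert hi]
    exact CTM_Off_mul ι (hf i (mem_insert_self i s)) (ih fun j hj => hf j (mem_insert_of_mem hj))

theorem CTM_Off_rename {σ σ' τ : Type} (ι : σ ↪ τ) (ι' : σ' ↪ τ)
    (hd : ∀ x y, ι x ≠ ι' y) (g : MvPowerSeries σ' ℂ) :
    CTM_Off ι (MvPowerSeries.rename ι' g) := by
  classical
  intro ρ hρ x
  by_contra hx
  apply hρ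
  apply MvPowerSeries.coeff_rename_eq_zero
  rintro ⟨ρ', rfl⟩
  apply hx
  exact Finsupp.mapDomain_of_notMem_range _ _ (by rintro ⟨y, hy⟩; exact hd x y hy.symm)

theorem CTM_germ {n : ℕ} (F : MvPolynomial (Fin n) ℂ) (hF : F ≠ 0) (p : Fin n → ℂ) :
    germ F p ≠ 0 := by
  intro h2
  apply hF
  have h3 : (MvPolynomial.aeval (fun j => MvPolynomial.X j + MvPolynomial.C (p j)) F :
      MvPolynomial (Fin n) ℂ) = 0 := MvPolynomial.coe_injective _ _ (by
    rw [MvPolynomial.coe_zero]; exact h2)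
  have h4 := congrArg (MvPolynomial.aeval (fun j => MvPolynomial.X j - MvPolynomial.C (p j) :
    Fin n → MvPolynomial (Fin n) ℂ)) h3
  rw [map_zero, ← AlgHom.comp_apply] at h4
  have h5 : (MvPolynomial.aeval (fun j => MvPolynomial.X j - MvPolynomial.C (p j) :
      Fin n → MvPolynomial (Fin n) ℂ)).comp (MvPolynomial.aeval
      (fun j => MvPolynomial.X j + MvPolynomial.C (p j) : Fin n → MvPolynomial (Fin n) ℂ)) =
      AlgHom.id ℂ _ := by
    apply MvPolynomial.algHom_ext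
    intro j
    simp
  rw [h5] at h4
  exact h4

theorem ctg_unit {m : ℕ} {G : MvPowerSeries (Fin m × Fin 2) ℂ} (T : CTG G) : ¬ IsUnit G := by
  classical
  intro hG
  rw [MvPowerSeries.isUnit_iff_constantCoeff, T.eq] at hG
  apply hG.ne_zero
  unfold GC
  rw [map_sum]
  refine Finset.sum_eq_zero fun i _ => ?_
  obtain ⟨k, hk⟩ : ∃ k, T.a i k ≠ 0 := by
    by_contra hcon
    push Not at hcon
    exact T.ne i (Finsupp.ext hcon)
  rw [map_mul, map_prod]
  have h0 : MvPowerSeries.constantCoeff (T.f k) = 0 := by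
    have h := T.f0 k
    unfold co at h
    rw [← MvPowerSeries.coeff_zero_eq_constantCoeff_apply, ← h]
    congr 1
    simp
  refine mul_eq_zero_of_right _ (Finset.prod_eq_zero (Finset.mem_univ k) ?_)
  rw [map_pow, MvPowerSeries.constantCoeff_rename, h0, zero_pow hk]

theorem ctg_reg {m : ℕ} {G : MvPowerSeries (Fin m × Fin 2) ℂ} (T : CTG G) (hG : G ≠ 0)
    (b : Polynomial ℂ) (h : FEq (MvPowerSeries (Fin m × Fin 2) ℂ) G b) (s0 : ℂ)
    (hb : b.eval s0 ≠ 0) : Reg s0 T.Z := by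
  classical
  have hdom : IsDomain (MvPowerSeries (Fin m × Fin 2) ℂ) := NoZeroDivisors.to_isDomain _
  have hs1 : s0 ≠ -1 := by
    rintro rfl
    obtain ⟨B, hB, hBk⟩ := h
    exact hb (qf G hG (ctg_unit T) b hB (fun k => by rw [hBk k, one_mul])).1
  have hr : 0 < T.r := by
    obtain ⟨i, -, -⟩ := T.conv ⟨0, by have := T.pos; omega⟩
    exact lt_of_le_of_lt (Nat.zero_le _) i.2
  have h' : FEq (MvPowerSeries (Fin m × Fin 2) ℂ) (GC T.a T.κ T.f) b := by
    rw [← T.eq]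
    exact h
  have key := mfi T.a T.inj T.conv T.ne hr T.f T.fne T.f0 T.M T.res s0 hs1
    (fun κ T' hV => mru T.pos T.a T.κ T.inj T.ne T.κ0 T.conv T.nd T.f T.f0 T.fne b h' s0 hb κ T' hV)
    (fun _ => ⟨1, 1, 0, 1⟩) (fun _ => ⟨one_pos, one_pos⟩)
  rw [← msum_eq T.a T.M (fun k => res_pos (T.res k)) T.𝒟 T.𝒯] at key
  exact key

theorem ct_local {n : ℕ} (F : MvPolynomial (Fin n) ℂ) (hF : F ≠ 0) (p : Fin n → ℂ) (T : CPt F p)
    (b : Polynomial ℂ) (P : H22.WeylS n) (hfe : H22.FunctionalEquation F b P) (s0 : ℂ)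
    (hb : b.eval s0 ≠ 0) : Reg s0 T.Z := by
  classical
  have hdom : IsDomain (MvPowerSeries (Fin n ⊕ Fin T.e) ℂ) := NoZeroDivisors.to_isDomain _
  have h1 := aut T.φ _ _ (exd (e := T.e) _ b (cmp F p b (fea F b P hfe)))
  have hg0 : T.φ (MvPowerSeries.rename Sum.inl (germ F p)) ≠ 0 := by
    intro h0
    have h2 : MvPowerSeries.rename Sum.inl (germ F p) = 0 :=
      T.φ.injective (h0.trans (map_zero T.φ).symm)
    apply CTM_germ F hF p
    exact MvPowerSeries.rename_injective (R := ℂ) (Function.Embedding.inl : Fin n ↪ Fin n ⊕ Fin T.e)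
      (h2.trans (map_zero (MvPowerSeries.rename (R := ℂ) (Sum.inl : Fin n → Fin n ⊕ Fin T.e))).symm)
  rw [T.eq] at h1 hg0
  refine reg_prod s0 _ _ fun j _ => ?_
  apply reg_aff
  rw [add_zero]
  set U : MvPowerSeries (Fin n ⊕ Fin T.e) ℂ := ∏ j' ∈ univ.erase j,
    (MvPowerSeries.rename (T.ι j') (T.G j')) ^ (T.N j') with hU
  have hprod : T.u * ∏ j, (MvPowerSeries.rename (T.ι j) (T.G j)) ^ (T.N j) =
      (MvPowerSeries.rename (T.ι j) (T.G j)) ^ (T.N j) * (T.u * U) := by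
    rw [← mul_prod_erase univ _ (mem_univ j)]
    ring
  rw [hprod] at h1 hg0
  have hG1 : MvPowerSeries.rename (T.ι j) (T.G j) ≠ 0 := by
    intro h0
    apply hg0
    rw [h0, zero_pow (T.Npos j).ne', zero_mul]
  have hU1 : T.u * U ≠ 0 := fun h0 => hg0 (by rw [h0, mul_zero])
  have hU2 : U ≠ 0 := fun h0 => hU1 (by rw [h0, mul_zero])
  obtain ⟨M, h2⟩ := up _ _ hG1 hU1 (T.N j) (T.Npos j) b h1
  rw [mul_pow] at h2
  have h3 := FEqV_unit _ _ _ (T.hu.pow M) _ h2
  have hoff : CTM_Off (T.ι j) (U ^ M) := by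
    refine CTM_Off_pow _ (CTM_Off_prod _ _ _ fun j' hj' =>
      CTM_Off_pow _ (CTM_Off_rename _ _ ?_ _) _) _
    exact T.disj j j' (Ne.symm (ne_of_mem_erase hj'))
  have h4 := rsg (T.ι j) (T.G j) (U ^ M) (pow_ne_zero _ hU2) hoff _ h3
  have hN : ((T.N j : ℕ) : ℂ) ≠ 0 := by exact_mod_cast (T.Npos j).ne'
  refine ctg_reg (T.T j) ?_ _ h4 _ ?_
  · intro h0
    apply hG1
    rw [h0, map_zero]
  · rw [Polynomial.eval_comp]
    have h7 : (Polynomial.C ((T.N j : ℂ)⁻¹) * Polynomial.X).eval ((T.N j : ℂ) * s0) = s0 := by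
      simp only [Polynomial.eval_mul, Polynomial.eval_C, Polynomial.eval_X]
      field_simp
    rw [h7]
    exact hb

/-- The theorem. -/
theorem ct_main {n : ℕ} (F : MvPolynomial (Fin n) ℂ) (hF : ∀ c : ℂ, F ≠ MvPolynomial.C c)
    (b : Polynomial ℂ) (P : H22.WeylS n) (hP : H22.FunctionalEquation F b P) {N : ℕ}
    (p : Fin N → Fin n → ℂ) (T : ∀ i, CPt F (p i)) (c0 c1 : ℂ) (χ : Fin N → ℂ) (s0 : ℂ)
    (hs : (RatFunc.C c0 + RatFunc.C c1 / (RatFunc.X + 1) +
      ∑ i, RatFunc.C (χ i) * (T i).Z).denom.IsRoot s0) : b.IsRoot s0 := by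
  classical
  by_contra hb
  have hF0 : F ≠ 0 := by
    intro h
    exact hF 0 (by rw [h, map_zero])
  have hb' : b.eval s0 ≠ 0 := hb
  have hs1 : s0 ≠ -1 := by
    rintro rfl
    exact hb' (H22.eval_neg_one_general F hF b P hP)
  have h1 : Reg s0 (RatFunc.C c0 + RatFunc.C c1 / (RatFunc.X + 1) +
      ∑ i, RatFunc.C (χ i) * (T i).Z) := by
    refine Reg.add (Reg.add (reg_C s0 c0) ?_) (Reg.sum _ _ fun i _ => ?_)
    · rw [div_eq_mul_inv]
      refine (reg_C s0 c1).mul ?_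
      have h2 := reg_inv_linear (s0 := s0) 1 1 (by
        intro h
        apply hs1
        push_cast at h
        linear_combination h)
      have h3 : ((1 : ℕ) : RatFunc ℂ) + ((1 : ℕ) : RatFunc ℂ) * RatFunc.X = RatFunc.X + 1 := by
        push_cast; ring
      rw [h3] at h2
      exact h2
    · exact (reg_C s0 (χ i)).mul (ct_local F hF0 (p i) (T i) b P hP s0 hb')
  exact h1 hs

end Pool.Agent.H56.CT
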