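import Mathlib

/-!
# DRV: the derivation `d/dz` of the field of rational functions

Proof.  Let `K = RatFunc ℂ` (or `FractionRing ℂ[X]`), `T = TrivSqZeroExt K K` (dual numbers `x + y ε`, `ε² = 0`).  The map `p ↦ inl p + inr p'` is a ring homomorphism `ℂ[X] → T` (even a
`ℂ`-algebra homomorphism, `Polynomial.aeval (inl X + inr 1)`), and the image of `p ≠ 0` is a unit (`TrivSqZeroExt.isUnit_iff_isUnit_fst`: the first component is `p ≠ 0`).  So it extends to an algebra
homomorphism `F : K → T` (`IsLocalization.liftAlgHom` / `IsFractionRing`, `RatFunc.liftAlgHom`-like), with `fst ∘ F = id` (both are algebra homomorphisms `K → K` which fix `X`;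
`IsLocalization.algHom_ext`-like).  `D = snd ∘ F` is `ℂ`-linear and `D (x y) = x D y + y D x`.  Alternatively define `D P = (p' q - p q')/q²` with `p = P.num`, `q = P.denom` and check directly.
The last statement: `D ∘ algebraMap` and `algebraMap ∘ derivative` are derivations `ℂ[X] → K` which agree at `X` (`Polynomial.derivation_ext`, `Derivation.compAlgebraMap`).
-/

set_option autoImplicit false

namespace Pool.Agent.H56.CT

open KaehlerDifferential

/-- DRV -/
theorem drv : ∃ D : Derivation ℂ (RatFunc ℂ) (RatFunc ℂ), ∀ p : Polynomial ℂ,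
    D (algebraMap (Polynomial ℂ) (RatFunc ℂ) p) =
      algebraMap (Polynomial ℂ) (RatFunc ℂ) (Polynomial.derivative p) := by
  classical
  let A := Polynomial ℂ
  let K := RatFunc ℂ
  let M := nonZeroDivisors (Polynomial ℂ)
  let d : Derivation ℂ (Polynomial ℂ) (RatFunc ℂ) := Polynomial.mkDerivation ℂ (1 : RatFunc ℂ)
  let g := KaehlerDifferential.map ℂ ℂ (Polynomial ℂ) (RatFunc ℂ)
  have hloc : IsLocalizedModule M g :=
    KaehlerDifferential.isLocalizedModule_map (R := ℂ) (S := Polynomial ℂ) (T := RatFunc ℂ) M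
  have hunit : ∀ x : M, IsUnit ((algebraMap (Polynomial ℂ) (Module.End (Polynomial ℂ) (RatFunc ℂ))) x) := by
    intro x
    have hx : algebraMap (Polynomial ℂ) (RatFunc ℂ) x ≠ 0 :=
      IsFractionRing.to_map_ne_zero_of_mem_nonZeroDivisors x.2
    rw [Module.End.isUnit_iff]
    constructor
    · intro a b hab
      have h : (x : Polynomial ℂ) • a = (x : Polynomial ℂ) • b := hab
      rw [Algebra.smul_def, Algebra.smul_def] at h
      exact mul_left_cancel₀ hx h
    · intro b
      refine ⟨(algebraMap (Polynomial ℂ) (RatFunc ℂ) x)⁻¹ * b, ?_⟩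
      show (x : Polynomial ℂ) • ((algebraMap (Polynomial ℂ) (RatFunc ℂ) x)⁻¹ * b) = b
      rw [Algebra.smul_def, mul_inv_cancel_left₀ hx]
  let L : Ω[RatFunc ℂ⁄ℂ] →ₗ[Polynomial ℂ] RatFunc ℂ :=
    IsLocalizedModule.lift M g d.liftKaehlerDifferential hunit
  have hL : ∀ w, L (g w) = d.liftKaehlerDifferential w := by
    intro w
    exact IsLocalizedModule.lift_apply M g d.liftKaehlerDifferential hunit w
  let L' : Ω[RatFunc ℂ⁄ℂ] →ₗ[RatFunc ℂ] RatFunc ℂ := L.extendScalarsOfIsLocalization M (RatFunc ℂ)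
  refine ⟨L'.compDer (KaehlerDifferential.D ℂ (RatFunc ℂ)), ?_⟩
  intro p
  show L (KaehlerDifferential.D ℂ (RatFunc ℂ) (algebraMap (Polynomial ℂ) (RatFunc ℂ) p)) = _
  have e : KaehlerDifferential.D ℂ (RatFunc ℂ) (algebraMap (Polynomial ℂ) (RatFunc ℂ) p)
      = g (KaehlerDifferential.D ℂ (Polynomial ℂ) p) := by
    rw [KaehlerDifferential.map_D]
  rw [e, hL, Derivation.liftKaehlerDifferential_comp_D]
  show Polynomial.mkDerivation ℂ (1 : RatFunc ℂ) p = _
  rw [Polynomial.mkDerivation_apply, Algebra.smul_def, mul_one]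

end Pool.Agent.H56.CT
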