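import Pool.Agent.H56.CT.RDefs
import Pool.Agent.H22.T7.DPS
import Pool.Agent.H56.SMC.BFA

/-!
# ES1: integration over the fibres of `f`

For `q : Lat (n+1)` let `h_q = U^{q_k} V^{q_last}` (`toNat`), and for `i : ℕ` let `q^i : Lat n` be `q` without the last coordinate, with the coordinate `k` replaced by `i` (`fun j => if j = k then i else q j.castSucc`).  Define (linear in the coefficients)
`ψ (single q x) = ∑ i ∈ range D, single q^i (C (coeff i (φ h_q)) * x)`, `Q δ (single q x) = ∑ i ∈ range D, single q^i (C (coeff (i+1) (φ (h_q * pd δ f))) * x)`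
(e.g. as a composition with `Finsupp.lsum`, or `∑ u ∈ g.coeff.support, ..` with a proof of linearity, `Finsupp.sum_add_index'`).

All properties are linear in `g` (and in `P`), so `g = single q x` with `q ≥ 0` (`JFL_ind` in `Pool/Agent/H56/T5/JFL.lean`), `P = monomial u c` (`MvPolynomial.induction_on'`-like; `PLn`, `sbV` are additive; `PLn` is multiplicative: `bfa_lmap_mul` and `toL` is a ring homomorphism).  Write `a = q_k`, `a' = q_last`, `h = U^a V^{a'}`.
`pos`, `posQ`, `off`: clear.
`mul`: `PLn (sbV k f' P) * single q x = ∑_v` (coefficient of `v` in `f'^{u_k}`) `single (q + u off k + v)`; applying `ψ`: `∑_{i<D} C (coeff i (φ (f'^{u_k} h)))` (linearity of `φ`; `f'` as a polynomial: `MvPolynomial.as_sum`, or induction: more convenient: show first, for every polynomial `p` in two variables and every `q ≥ 0`,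
`ψ (PLn (rename (xv k) p) * single q x) = ∑ i ∈ range D, single q^i (C (coeff i (φ (p * h_q))) * x)`, by linearity in `p` and for monomials `p`).  On the other side `PLn P * ψ (single q x)` has the terms `c x coeff i (φ h)`, `i < D`, at the exponent `i + u_k` of `x_k`.  For the exponent `i < D` of `x_k`:
`coeff i (φ (f'^{u_k} h)) = coeff i (φ (f^{u_k} h))` (`f' - f ∈ Hi (N (D+1) + 1)`, so `(f'^{u_k} - f^{u_k}) h` also (`sub_dvd_pow_sub_pow`; `Hi` is an ideal: `Hi_mul_left` or similar in `Pool/Agent/H22/T7/APR.lean`), and `cont`: `N i < N (D+1) + 1`) `= coeff i (X^{u_k} φ h)` (`mul` of `PhiD`, iterated) `= coeff (i - u_k) (φ h)` if `i ≥ u_k`, and `0` otherwise.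
So the difference consists of terms with exponent `≥ D` of `x_k` (from the second term), all exponents `≥ 0`: in `TK k D`.
`dL0`, `th0`: `dL j.castSucc (single q x) = single (-ev j + q) (q_j x)`; direct calculation (`q_j = 0`: the coefficient is `0`).
`dL1`, `th1`: `dL j.castSucc (PLn (sbV k f' P)) = PLn (pderiv j.castSucc (sbV k f' P)) = PLn (sbV k f' (pderiv j P))` (`j ≠ k`; chain rule, induction on `P`) and `dL j (PLn P) = PLn (pderiv j P)`, so `mul` for `pderiv j P`; for `thL` with `X j * pderiv j P` (`thL j (PLn P) = PLn (X j * pderiv j P)`).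
`x0`: `dL (xv k δ) (single q x) = single (q - e_δ) (q_δ x)`, and `pd δ h_q = q_δ h_{q - e_δ}` (`q_δ = 0`: both zero).  So `ψ (..) = ∑_{i<D} single q^i (coeff i (φ (pd δ h)) x)`, and by `der`: `coeff i (φ (pd δ h)) = (κ + i) coeff (i+1) (φ (h pd δ f))`, which is the coefficient of `(θ_k + κ) Q_δ`.
`x1`: `P = monomial u c`.  If `u_k = 0`: both terms vanish (`sbV k f' P` does not contain the variables `xv k δ`; `thL k (PLn P) = 0`).  Otherwise `dL (xv k δ) (PLn (sbV k f' P)) = c u_k x^{u off k} PLn (rename (xv k) (f'^{u_k - 1} pd δ f'))` (chain rule), so `ψ` of the product with `single q x` is `∑_{i<D} c u_k x coeff i (φ (f'^{u_k-1} (pd δ f') h))`.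
For `i < D`: `coeff i (φ (f'^{u_k-1} (pd δ f') h)) = coeff i (φ (f^{u_k-1} (pd δ f) h))` (`pd δ (f' - f) ∈ Hi (N (D+1))`, `N i < N (D+1)`; `Hi` is an ideal) `= coeff (i - (u_k - 1)) (φ (h pd δ f))` if `i ≥ u_k - 1`, `0` otherwise; for `i = u_k - 1` this is `0` by `cc`.
`thL k (PLn P) * Q δ (single q x) = c u_k x^u ∑_{i' < D} coeff (i'+1) (φ (h pd δ f)) x_k^{i'}`: the coefficient at the exponent `i = i' + u_k` of `x_k`, `u_k ≤ i`, is `coeff (i - u_k + 1) (φ (h pd δ f))`, the same (`i ≥ u_k` so `i' = i - u_k < D`).  So the difference consists of terms with exponent `≥ D`.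
`one`: `ψ 1 = ∑_{i<D} single (i e_k) (C (coeff i (φ 1)))`, `coeff 0 (φ 1) = 1`, `0 < D`.
`ne`: if `(a, a') ≠ 0`: `coeff 0 (φ h) = 0` (`cont` with `M = 1`, `i = 0`: `Hi 1 h`), so `u_k = i ≥ 1`.  Otherwise some `q_j > 0`, `j` not `k`, last, and `u_j = q_j`.
`zero`: `a + a' ≥ N D`, `Hi (N D) h`, `N i < N D` for `i < D` (`N0`), `cont`.
-/

set_option autoImplicit false

namespace Pool.Agent.H56.CT

open Finset AddMonoidAlgebra
open Pool.Agent.H56.SMC Pool.Agent.H37.T5 Pool.Agent.H56.T5 Pool.Agent.H37.T6 Pool.Agent.H22.T6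
open Pool.Agent.H22.T7

section ES1

variable {n : ℕ}

/-- the fibre sum of one monomial -/
noncomputable def ES1_T (k : Fin n) (D : ℕ) (b : ℕ → ℂ) (q : Lat n) (x : PA) : LP PA n :=
  ∑ i ∈ range D, single (Function.update q k (i : ℤ)) (PowerSeries.C (b i) * x)

theorem ES1_T_zero (k : Fin n) (D : ℕ) (b : ℕ → ℂ) (q : Lat n) : ES1_T k D b q 0 = 0 := by
  unfold ES1_T
  refine sum_eq_zero fun i _ => ?_
  rw [mul_zero, AddMonoidAlgebra.single_zero]

theorem ES1_T_congr (k : Fin n) {D : ℕ} {b b' : ℕ → ℂ} (h : ∀ i < D, b i = b' i) (q : Lat n)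
    (x : PA) : ES1_T k D b q x = ES1_T k D b' q x := by
  unfold ES1_T
  refine sum_congr rfl fun i hi => ?_
  rw [h i (mem_range.1 hi)]

theorem ES1_T_off (k : Fin n) (D : ℕ) (b : ℕ → ℂ) {q q' : Lat n} (h : ∀ j, j ≠ k → q j = q' j)
    (x : PA) : ES1_T k D b q x = ES1_T k D b q' x := by
  unfold ES1_T
  refine sum_congr rfl fun i _ => ?_
  congr 1
  funext j
  by_cases hj : j = k
  · rw [hj, Function.update_self, Function.update_self]
  · rw [Function.update_of_ne hj, Function.update_of_ne hj, h j hj]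

theorem ES1_T_addb (k : Fin n) (D : ℕ) (b b' : ℕ → ℂ) (q : Lat n) (x : PA) :
    ES1_T k D (fun i => b i + b' i) q x = ES1_T k D b q x + ES1_T k D b' q x := by
  unfold ES1_T
  rw [← sum_add_distrib]
  refine sum_congr rfl fun i _ => ?_
  rw [← AddMonoidAlgebra.single_add, map_add, add_mul]

theorem ES1_T_smulb (k : Fin n) (D : ℕ) (c : ℂ) (b : ℕ → ℂ) (q : Lat n) (x : PA) :
    ES1_T k D (fun i => c * b i) q x = ES1_T k D b q (PowerSeries.C c * x) := by
  unfold ES1_T
  refine sum_congr rfl fun i _ => ?_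
  congr 1
  rw [map_mul]
  ring

theorem ES1_single_mul (k : Fin n) (D : ℕ) (b : ℕ → ℂ) (q u : Lat n) (hu : u k = 0) (x : PA) :
    single u 1 * ES1_T k D b q x = ES1_T k D b (u + q) x := by
  unfold ES1_T
  rw [mul_sum]
  refine sum_congr rfl fun i _ => ?_
  rw [single_mul_single, one_mul]
  congr 1
  funext j
  by_cases hj : j = k
  · rw [hj, Pi.add_apply, Function.update_self, Function.update_self, hu, zero_add]
  · rw [Pi.add_apply, Function.update_of_ne hj, Function.update_of_ne hj, Pi.add_apply]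

theorem ES1_T_coeff {k : Fin n} {D : ℕ} {b : ℕ → ℂ} {q : Lat n} {x : PA} {u : Lat n}
    (h : (ES1_T k D b q x).coeff u ≠ 0) :
    ∃ i < D, u = Function.update q k (i : ℤ) ∧ b i ≠ 0 := by
  unfold ES1_T at h
  rw [coeff_finsum] at h
  obtain ⟨i, hi, hne⟩ := Finset.exists_ne_zero_of_sum_ne_zero h
  rw [coeff_single'] at hne
  by_cases h1 : u = Function.update q k (i : ℤ)
  · rw [if_pos h1] at hne
    refine ⟨i, mem_range.1 hi, h1, fun h0 => hne ?_⟩
    rw [h0, map_zero, zero_mul]
  · rw [if_neg h1] at hne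
    exact absurd rfl hne

/-- the fibre sum -/
noncomputable def ES1_S (k : Fin n) (D : ℕ) (B : ℕ → ℕ → ℕ → ℂ) :
    LP PA (n + 1) →ₗ[PA] LP PA n :=
  (Finsupp.lsum PA (fun q : Lat (n + 1) => LinearMap.toSpanSingleton PA (LP PA n)
    (ES1_T k D (fun i => B i (q k.castSucc).toNat (q (Fin.last n)).toNat)
      (fun j => q j.castSucc) 1))).comp (AddMonoidAlgebra.coeffLinearEquiv PA).toLinearMap

theorem ES1_S_single (k : Fin n) (D : ℕ) (B : ℕ → ℕ → ℕ → ℂ) (q : Lat (n + 1)) (x : PA) :
    ES1_S k D B (single q x) =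
      ES1_T k D (fun i => B i (q k.castSucc).toNat (q (Fin.last n)).toNat)
      (fun j => q j.castSucc) x := by
  unfold ES1_S
  rw [LinearMap.comp_apply]
  show Finsupp.lsum PA _ (Finsupp.single q x) = _
  rw [Finsupp.lsum_single, LinearMap.toSpanSingleton_apply]
  unfold ES1_T
  rw [smul_sum]
  refine sum_congr rfl fun i _ => ?_
  rw [JF_smul_single]
  congr 1
  ring

/-! ### The polynomials -/

theorem ES1_PLn_C (c : ℂ) : PLn (n := n) (MvPolynomial.C c) = single 0 (PowerSeries.C c) := by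
  unfold PLn
  rw [bfa_toL_C, bfa_lmap_single]
  rfl

theorem ES1_PLn_one : PLn (n := n) 1 = 1 := by
  rw [← MvPolynomial.C_1, ES1_PLn_C, map_one]
  rfl

theorem ES1_PLn_add (P Q : MvPolynomial (Fin n) ℂ) : PLn (P + Q) = PLn P + PLn Q := by
  unfold PLn
  rw [map_add, lmap_add]

theorem ES1_PLn_zero : PLn (n := n) 0 = 0 := by
  unfold PLn
  rw [map_zero, bfa_lmap_zero]

theorem ES1_PLn_mul (P Q : MvPolynomial (Fin n) ℂ) : PLn (P * Q) = PLn P * PLn Q := by
  unfold PLn
  rw [map_mul, bfa_lmap_mul]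

theorem ES1_PLn_X (j : Fin n) : PLn (MvPolynomial.X j) = (single (ev j) 1 : LP PA n) := by
  unfold PLn
  rw [bfa_toL_X, bfa_lmap_single, map_one]

theorem ES1_dL_PLn (j : Fin n) (P : MvPolynomial (Fin n) ℂ) :
    dL j (PLn P) = PLn (MvPolynomial.pderiv j P) := by
  unfold PLn
  rw [bfa_toL_pderiv, bfa_dL_lmap]

theorem ES1_thL_dL (j : Fin n) (g : LP PA n) : thL j g = single (ev j) 1 * dL j g := by
  unfold thL dL
  rw [← mul_assoc, single_mul_single, add_neg_cancel, one_mul]
  exact (one_mul _).symm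

theorem ES1_thL_PLn (j : Fin n) (P : MvPolynomial (Fin n) ℂ) :
    thL j (PLn P) = PLn (MvPolynomial.X j * MvPolynomial.pderiv j P) := by
  rw [ES1_thL_dL, ES1_dL_PLn, ES1_PLn_mul, ES1_PLn_X]

theorem ES1_thL_add (j : Fin n) (x y : LP PA n) : thL j (x + y) = thL j x + thL j y :=
  bfa_dg_add _ x y

theorem ES1_dL_add (j : Fin n) (x y : LP PA n) : dL j (x + y) = dL j x + dL j y :=
  bfa_dL_add j x y

theorem ES1_thL_single (j : Fin n) (q : Lat n) (x : PA) :
    thL j (single q x) = single q ((q j : PA) * x) := by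
  apply lp_ext; intro u
  unfold thL
  rw [dg_coeff, coeff_single', coeff_single']
  by_cases h : u = q
  · rw [if_pos h, if_pos h, h]
  · rw [if_neg h, if_neg h, mul_zero]

theorem ES1_thL_zero (j : Fin n) : thL j (0 : LP PA n) = 0 := by
  rw [← AddMonoidAlgebra.single_zero (0 : Lat n), ES1_thL_single, mul_zero]

theorem ES1_dL_zero (j : Fin n) : dL j (0 : LP PA n) = 0 := by
  rw [← AddMonoidAlgebra.single_zero (0 : Lat n), JF_dL_single, mul_zero,
    AddMonoidAlgebra.single_zero, AddMonoidAlgebra.single_zero]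

theorem ES1_thL_sum {α : Type} (s : Finset α) (f : α → LP PA n) (j : Fin n) :
    thL j (∑ i ∈ s, f i) = ∑ i ∈ s, thL j (f i) := by
  classical
  induction s using Finset.induction_on with
  | empty => simp [ES1_thL_zero]
  | insert a s ha ih => rw [sum_insert ha, sum_insert ha, ES1_thL_add, ih]

theorem ES1_dL_sum {α : Type} (s : Finset α) (f : α → LP PA n) (j : Fin n) :
    dL j (∑ i ∈ s, f i) = ∑ i ∈ s, dL j (f i) := by
  classical
  induction s using Finset.induction_on with
  | empty => simp [ES1_dL_zero]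
  | insert a s ha ih => rw [sum_insert ha, sum_insert ha, ES1_dL_add, ih]

/-! ### TK -/

theorem ES1_TK_single {k : Fin n} {D : ℕ} {q : Lat n} (hq : ∀ j, 0 ≤ q j) (hk : (D : ℤ) ≤ q k)
    (x : PA) : single q x ∈ TK k D := by
  have h : (single q x : LP PA n) = x • single q 1 := by rw [JF_smul_single, mul_one]
  rw [h]
  exact Submodule.smul_mem _ _ (Submodule.subset_span ⟨q, hq, hk, rfl⟩)

theorem ES1_TK_mul1 {k : Fin n} {D : ℕ} (P : MvPolynomial (Fin n) ℂ) :
    ∀ q : Lat n, (∀ j, 0 ≤ q j) → (D : ℤ) ≤ q k → ∀ x : PA, PLn P * single q x ∈ TK k D := by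
  induction P using MvPolynomial.induction_on with
  | C a =>
    intro q hq hk x
    rw [ES1_PLn_C, single_mul_single, zero_add]
    exact ES1_TK_single hq hk _
  | add P Q hP hQ =>
    intro q hq hk x
    rw [ES1_PLn_add, add_mul]
    exact Submodule.add_mem _ (hP q hq hk x) (hQ q hq hk x)
  | mul_X P j hP =>
    intro q hq hk x
    rw [ES1_PLn_mul, mul_assoc, ES1_PLn_X, single_mul_single, one_mul]
    have hev : ∀ i, 0 ≤ (ev j : Lat n) i := by
      intro i
      unfold ev
      rw [Pi.single_apply]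
      split_ifs <;> norm_num
    refine hP _ (fun i => ?_) ?_ x
    · rw [Pi.add_apply]
      exact add_nonneg (hev i) (hq i)
    · rw [Pi.add_apply]
      have := hev k
      omega

theorem ES1_TK_mul {k : Fin n} {D : ℕ} (P : MvPolynomial (Fin n) ℂ) {y : LP PA n}
    (hy : y ∈ TK k D) : PLn P * y ∈ TK k D := by
  unfold TK at hy
  induction hy using Submodule.span_induction with
  | mem y hy =>
    obtain ⟨q, hq, hk, rfl⟩ := hy
    exact ES1_TK_mul1 P q hq hk 1
  | zero => rw [mul_zero]; exact Submodule.zero_mem _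
  | add x y _ _ hx hy => rw [mul_add]; exact Submodule.add_mem _ hx hy
  | smul a x _ hx => rw [mul_smul_comm]; exact Submodule.smul_mem _ _ hx

/-- the shift -/
theorem ES1_shift (k : Fin n) (D : ℕ) (b b2 : ℕ → ℂ)
    (h0 : 0 < D → b 0 = 0) (h : ∀ i, i + 1 < D → b (i + 1) = b2 i) (q : Lat n)
    (hq : ∀ j, j ≠ k → 0 ≤ q j) (x : PA) :
    ES1_T k D b q x - single (ev k) 1 * ES1_T k D b2 q x ∈ TK k D := by
  set F : ℕ → LP PA n := fun i => if 1 ≤ i then
    single (Function.update q k (i : ℤ)) (PowerSeries.C (b2 (i - 1)) * x) else 0 with hF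
  have e1 : ES1_T k D b q x = ∑ i ∈ range D, F i := by
    unfold ES1_T
    refine sum_congr rfl fun i hi => ?_
    rw [hF]
    rcases Nat.eq_zero_or_pos i with h1 | h1
    · subst h1
      rw [h0 (mem_range.1 hi), map_zero, zero_mul, AddMonoidAlgebra.single_zero]
      rfl
    · obtain ⟨m, rfl⟩ : ∃ m, i = m + 1 := ⟨i - 1, by omega⟩
      simp only [Nat.le_add_left, if_true, Nat.add_sub_cancel]
      rw [h m (mem_range.1 hi)]
  have e2 : single (ev k) 1 * ES1_T k D b2 q x = ∑ i ∈ range D, F (i + 1) := by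
    unfold ES1_T
    rw [mul_sum]
    refine sum_congr rfl fun i _ => ?_
    rw [hF]
    simp only [Nat.le_add_left, if_true, Nat.add_sub_cancel]
    rw [single_mul_single, one_mul]
    congr 1
    funext j
    by_cases hj : j = k
    · rw [hj, Pi.add_apply, Function.update_self, Function.update_self, ev, Pi.single_eq_same]
      push_cast
      ring
    · rw [Pi.add_apply, Function.update_of_ne hj, Function.update_of_ne hj, ev,
        Pi.single_eq_of_ne hj, zero_add]
  have e3 : ∑ i ∈ range D, F (i + 1) = ∑ i ∈ range D, F i + F D := by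
    have h1 := sum_range_succ F D
    have h2 := sum_range_succ' F D
    have h3 : F 0 = 0 := by rw [hF]; rfl
    rw [h3, add_zero] at h2
    rw [← h2, h1]
  rw [e1, e2, e3, sub_add_cancel_left]
  apply Submodule.neg_mem
  rw [hF]
  by_cases h1 : 1 ≤ D
  · simp only [h1, if_true]
    refine ES1_TK_single (fun j => ?_) ?_ _
    · by_cases hj : j = k
      · rw [hj, Function.update_self]
        positivity
      · rw [Function.update_of_ne hj]
        exact hq j hj
    · rw [Function.update_self]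
  · simp only [h1, if_false]
    exact Submodule.zero_mem _

/-! ### The substitution -/

theorem ES1_xv0 (k : Fin n) : xv k 0 = k.castSucc := by
  unfold xv
  rw [if_pos rfl]

theorem ES1_xv1 (k : Fin n) : xv k 1 = Fin.last n := by
  unfold xv
  rw [if_neg (by decide)]

theorem ES1_xv_ne (k : Fin n) (δ : Fin 2) (j : Fin n) (hj : j ≠ k) : j.castSucc ≠ xv k δ := by
  unfold xv
  split_ifs
  · intro h
    exact hj (Fin.castSucc_injective n h)
  · exact Fin.castSucc_ne_last j

theorem ES1_xv_inj (k : Fin n) : Function.Injective (xv k) := by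
  intro a b h
  fin_cases a <;> fin_cases b
  · rfl
  · exfalso
    have h' : k.castSucc = Fin.last n := h
    exact Fin.castSucc_ne_last k h'
  · exfalso
    have h' : Fin.last n = k.castSucc := h
    exact Fin.castSucc_ne_last k h'.symm
  · rfl

theorem ES1_sbV_X (k j : Fin n) (f' : MvPolynomial (Fin 2) ℂ) : sbV k f' (MvPolynomial.X j) =
    if j = k then MvPolynomial.rename (xv k) f' else MvPolynomial.X j.castSucc := by
  unfold sbV
  rw [MvPolynomial.aeval_X]

theorem ES1_sbV_C (k : Fin n) (f' : MvPolynomial (Fin 2) ℂ) (c : ℂ) :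
    sbV k f' (MvPolynomial.C c) = MvPolynomial.C c := by
  unfold sbV
  rw [MvPolynomial.aeval_C]
  rfl

theorem ES1_pd_rename (k : Fin n) (p : MvPolynomial (Fin 2) ℂ) (j : Fin n) (hj : j ≠ k) :
    MvPolynomial.pderiv j.castSucc (MvPolynomial.rename (xv k) p) = 0 := by
  induction p using MvPolynomial.induction_on with
  | C a => rw [MvPolynomial.rename_C, MvPolynomial.pderiv_C]
  | add p q hp hq => rw [map_add, map_add, hp, hq, add_zero]
  | mul_X p i hp =>
    rw [map_mul, Derivation.leibniz, hp, MvPolynomial.rename_X,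
      MvPolynomial.pderiv_X_of_ne (ES1_xv_ne k i j hj).symm]
    simp

theorem ES1_pd_sbV (k : Fin n) (f' : MvPolynomial (Fin 2) ℂ) (j : Fin n) (hj : j ≠ k)
    (P : MvPolynomial (Fin n) ℂ) : MvPolynomial.pderiv j.castSucc (sbV k f' P) =
      sbV k f' (MvPolynomial.pderiv j P) := by
  classical
  induction P using MvPolynomial.induction_on with
  | C a => rw [ES1_sbV_C, MvPolynomial.pderiv_C, MvPolynomial.pderiv_C, map_zero]
  | add p q hp hq => simp only [map_add, hp, hq]
  | mul_X p i hp =>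
    rw [map_mul, Derivation.leibniz, Derivation.leibniz, map_add, hp]
    simp only [smul_eq_mul, map_mul]
    congr 2
    rw [ES1_sbV_X]
    by_cases hi : i = k
    · rw [if_pos hi, ES1_pd_rename k f' j hj, hi, MvPolynomial.pderiv_X_of_ne (Ne.symm hj),
        map_zero]
    · rw [if_neg hi, MvPolynomial.pderiv_X, MvPolynomial.pderiv_X]
      by_cases hij : i = j
      · subst hij
        rw [Pi.single_eq_same, Pi.single_eq_same, map_one]
      · rw [Pi.single_eq_of_ne hij, Pi.single_eq_of_ne (fun h => hij (Fin.castSucc_injective n h)),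
          map_zero]

theorem ES1_pdx_sbV (k : Fin n) (f' : MvPolynomial (Fin 2) ℂ) (δ : Fin 2)
    (P : MvPolynomial (Fin n) ℂ) : MvPolynomial.pderiv (xv k δ) (sbV k f' P) =
      sbV k f' (MvPolynomial.pderiv k P) *
        MvPolynomial.rename (xv k) (MvPolynomial.pderiv δ f') := by
  classical
  induction P using MvPolynomial.induction_on with
  | C a => rw [ES1_sbV_C, MvPolynomial.pderiv_C, MvPolynomial.pderiv_C, map_zero, zero_mul]
  | add p q hp hq => simp only [map_add, hp, hq, add_mul]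
  | mul_X p i hp =>
    rw [map_mul, Derivation.leibniz, Derivation.leibniz, map_add, hp]
    simp only [smul_eq_mul, map_mul]
    have h : MvPolynomial.pderiv (xv k δ) (sbV k f' (MvPolynomial.X i)) =
        sbV k f' (MvPolynomial.pderiv k (MvPolynomial.X i)) *
        MvPolynomial.rename (xv k) (MvPolynomial.pderiv δ f') := by
      rw [ES1_sbV_X]
      by_cases hi : i = k
      · rw [if_pos hi, hi, MvPolynomial.pderiv_rename (ES1_xv_inj k), MvPolynomial.pderiv_X_self,
          map_one, one_mul]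
      · rw [if_neg hi, MvPolynomial.pderiv_X_of_ne (ES1_xv_ne k δ i hi),
          MvPolynomial.pderiv_X_of_ne hi, map_zero, zero_mul]
    rw [h]
    ring

/-! ### The monomials in two variables -/

theorem ES1_mon (a b : ℕ) : (U ^ a * V ^ b : R2) =
    MvPowerSeries.monomial (Finsupp.single 0 a + Finsupp.single 1 b) 1 := by
  rw [MvPowerSeries.X_pow_eq, MvPowerSeries.X_pow_eq, MvPowerSeries.monomial_mul_monomial,
    one_mul]

theorem ES1_Hi_mon (a b : ℕ) : Hi (a + b) (U ^ a * V ^ b : R2) := by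
  intro ρ hρ
  rw [ES1_mon, MvPowerSeries.coeff_monomial] at hρ
  by_cases h : ρ = Finsupp.single 0 a + Finsupp.single 1 b
  · rw [h, map_add, Finsupp.degree_single, Finsupp.degree_single]
  · rw [if_neg h] at hρ
    exact absurd rfl hρ

theorem ES1_pd0 (a b : ℕ) : pd 0 (U ^ a * V ^ b : R2) = (a : ℂ) • (U ^ (a - 1) * V ^ b) := by
  show MvPowerSeries.pderiv ℂ 0 _ = _
  rw [Derivation.leibniz, Derivation.leibniz_pow, Derivation.leibniz_pow,
    MvPowerSeries.pderiv_X_self, MvPowerSeries.pderiv_X_of_ne (by decide)]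
  simp only [smul_eq_mul, nsmul_eq_mul, mul_one]
  rw [MvPowerSeries.smul_eq_C_mul, map_natCast]
  ring

theorem ES1_pd1 (a b : ℕ) : pd 1 (U ^ a * V ^ b : R2) = (b : ℂ) • (U ^ a * V ^ (b - 1)) := by
  show MvPowerSeries.pderiv ℂ 1 _ = _
  rw [Derivation.leibniz, Derivation.leibniz_pow, Derivation.leibniz_pow,
    MvPowerSeries.pderiv_X_self, MvPowerSeries.pderiv_X_of_ne (by decide)]
  simp only [smul_eq_mul, nsmul_eq_mul, mul_one]
  rw [MvPowerSeries.smul_eq_C_mul, map_natCast]
  ring

theorem ES1_ev_nn (j : Fin n) (i : Fin n) : 0 ≤ (ev j : Lat n) i := by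
  unfold ev
  rw [Pi.single_apply]
  split_ifs <;> norm_num

/-- `U^a V^b` for the exponents of `q` -/
noncomputable def ES1_h (k : Fin n) (q : Lat (n + 1)) : R2 :=
  U ^ (q k.castSucc).toNat * V ^ (q (Fin.last n)).toNat

theorem ES1_h_ev (k : Fin n) (δ : Fin 2) (q : Lat (n + 1)) (hq : ∀ j, 0 ≤ q j) :
    ES1_h k (ev (xv k δ) + q) = MvPowerSeries.X δ * ES1_h k q := by
  unfold ES1_h
  have h0 := hq k.castSucc
  have h1 := hq (Fin.last n)
  fin_cases δ
  · have e1 : (ev (xv k 0) + q) k.castSucc = q k.castSucc + 1 := by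
      rw [ES1_xv0, Pi.add_apply, ev, Pi.single_eq_same, add_comm]
    have e2 : (ev (xv k 0) + q) (Fin.last n) = q (Fin.last n) := by
      rw [ES1_xv0, Pi.add_apply, ev, Pi.single_eq_of_ne (Fin.castSucc_ne_last k).symm, zero_add]
    show U ^ ((ev (xv k 0) + q) k.castSucc).toNat * V ^ ((ev (xv k 0) + q) (Fin.last n)).toNat = _
    rw [e1, e2, Int.toNat_add h0 zero_le_one]
    show U ^ ((q k.castSucc).toNat + 1) * _ = U * _
    ring
  · have e1 : (ev (xv k 1) + q) k.castSucc = q k.castSucc := by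
      rw [ES1_xv1, Pi.add_apply, ev, Pi.single_eq_of_ne (Fin.castSucc_ne_last k), zero_add]
    have e2 : (ev (xv k 1) + q) (Fin.last n) = q (Fin.last n) + 1 := by
      rw [ES1_xv1, Pi.add_apply, ev, Pi.single_eq_same, add_comm]
    show U ^ ((ev (xv k 1) + q) k.castSucc).toNat * V ^ ((ev (xv k 1) + q) (Fin.last n)).toNat = _
    rw [e1, e2, Int.toNat_add h1 zero_le_one]
    show _ * V ^ ((q (Fin.last n)).toNat + 1) = V * _
    ring

/-- `U^a V^b` is unchanged -/
theorem ES1_h_off (k : Fin n) (j : Fin n) (hj : j ≠ k) (q u : Lat (n + 1))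
    (hu : u = ev j.castSucc ∨ u = -ev j.castSucc) : ES1_h k (u + q) = ES1_h k q := by
  have e1 : (ev j.castSucc : Lat (n + 1)) k.castSucc = 0 := by
    rw [ev, Pi.single_eq_of_ne (fun h => hj (Fin.castSucc_injective n h).symm)]
  have e2 : (ev j.castSucc : Lat (n + 1)) (Fin.last n) = 0 := by
    rw [ev, Pi.single_eq_of_ne (Fin.castSucc_ne_last j).symm]
  unfold ES1_h
  rcases hu with rfl | rfl
  · rw [Pi.add_apply, Pi.add_apply, e1, e2, zero_add, zero_add]
  · rw [Pi.add_apply, Pi.add_apply, Pi.neg_apply, Pi.neg_apply, e1, e2, neg_zero, zero_add,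
      zero_add]

theorem ES1_T_mulx (k : Fin n) (D : ℕ) (b : ℕ → ℂ) (q : Lat n) (x y : PA) :
    single 0 y * ES1_T k D b q x = ES1_T k D b q (y * x) := by
  unfold ES1_T
  rw [mul_sum]
  refine sum_congr rfl fun i _ => ?_
  rw [single_mul_single, zero_add]
  congr 1
  ring

/-- the sum for a power series in two variables -/
noncomputable def ES1_W {f : R2} {κ : ℚ} (φ : PhiD f κ) (k : Fin n) (D : ℕ) (h : R2) (q : Lat n)
    (x : PA) : LP PA n :=
  ES1_T k D (fun i => PowerSeries.coeff i (φ.φ h)) q x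

theorem ES1_W_add {f : R2} {κ : ℚ} (φ : PhiD f κ) (k : Fin n) (D : ℕ) (h h' : R2) (q : Lat n)
    (x : PA) : ES1_W φ k D (h + h') q x = ES1_W φ k D h q x + ES1_W φ k D h' q x := by
  unfold ES1_W
  rw [← ES1_T_addb]
  simp only [map_add]

theorem ES1_W_smul {f : R2} {κ : ℚ} (φ : PhiD f κ) (k : Fin n) (D : ℕ) (c : ℂ) (h : R2)
    (q : Lat n) (x : PA) :
    ES1_W φ k D (c • h) q x = ES1_W φ k D h q (PowerSeries.C c * x) := by
  unfold ES1_W
  rw [← ES1_T_smulb]
  simp only [map_smul, smul_eq_mul]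

/-- `ψ` -/
noncomputable def ES1_psi {f : R2} {κ : ℚ} (φ : PhiD f κ) (k : Fin n) (D : ℕ) :
    LP PA (n + 1) →ₗ[PA] LP PA n :=
  ES1_S k D (fun i a b => PowerSeries.coeff i (φ.φ (U ^ a * V ^ b)))

/-- `Q` -/
noncomputable def ES1_Q {f : R2} {κ : ℚ} (φ : PhiD f κ) (k : Fin n) (D : ℕ) (δ : Fin 2) :
    LP PA (n + 1) →ₗ[PA] LP PA n :=
  ES1_S k D (fun i a b => PowerSeries.coeff (i + 1) (φ.φ (U ^ a * V ^ b * pd δ f)))

theorem ES1_psi_single {f : R2} {κ : ℚ} (φ : PhiD f κ) (k : Fin n) (D : ℕ) (q : Lat (n + 1))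
    (x : PA) : ES1_psi φ k D (single q x) =
      ES1_W φ k D (ES1_h k q) (fun j => q j.castSucc) x := by
  unfold ES1_psi
  rw [ES1_S_single]
  rfl

theorem ES1_Q_single {f : R2} {κ : ℚ} (φ : PhiD f κ) (k : Fin n) (D : ℕ) (δ : Fin 2)
    (q : Lat (n + 1)) (x : PA) : ES1_Q φ k D δ (single q x) =
      ES1_T k D (fun i => PowerSeries.coeff (i + 1) (φ.φ (ES1_h k q * pd δ f)))
        (fun j => q j.castSucc) x := by
  unfold ES1_Q
  rw [ES1_S_single]
  rfl

theorem ES1_keyA {f : R2} {κ : ℚ} (φ : PhiD f κ) (k : Fin n) (D : ℕ)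
    (p : MvPolynomial (Fin 2) ℂ) : ∀ q : Lat (n + 1), (∀ j, 0 ≤ q j) → ∀ x : PA,
      ES1_psi φ k D (PLn (MvPolynomial.rename (xv k) p) * single q x) =
        ES1_W φ k D ((p : R2) * ES1_h k q) (fun j => q j.castSucc) x := by
  induction p using MvPolynomial.induction_on with
  | C a =>
    intro q hq x
    rw [MvPolynomial.rename_C, ES1_PLn_C, single_mul_single, zero_add, ES1_psi_single,
      MvPolynomial.coe_C, ← MvPowerSeries.smul_eq_C_mul, ES1_W_smul]
  | add p p' hp hp' =>
    intro q hq x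
    rw [map_add, ES1_PLn_add, add_mul, map_add, hp q hq x, hp' q hq x, ← ES1_W_add,
      MvPolynomial.coe_add, add_mul]
  | mul_X p δ hp =>
    intro q hq x
    rw [map_mul (MvPolynomial.rename (xv k)), MvPolynomial.rename_X, ES1_PLn_mul, mul_assoc,
      ES1_PLn_X, single_mul_single, one_mul, hp (ev (xv k δ) + q)
        (fun j => by rw [Pi.add_apply]; exact add_nonneg (ES1_ev_nn _ j) (hq j)) x,
      ES1_h_ev k δ q hq, MvPolynomial.coe_mul, MvPolynomial.coe_X, mul_assoc]
    unfold ES1_W
    apply ES1_T_off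
    intro j hj
    show (ev (xv k δ) + q) j.castSucc = q j.castSucc
    rw [Pi.add_apply, ev, Pi.single_eq_of_ne (ES1_xv_ne k δ j hj), zero_add]

/-- the difference of `f'` and `f` does not matter -/
theorem ES1_ff {f : R2} {κ : ℚ} (φ : PhiD f κ) (D : ℕ) (f' : MvPolynomial (Fin 2) ℂ)
    (hf' : Hi (φ.N * (D + 1) + 1) ((f' : R2) - f)) (g : R2) (i : ℕ) (hi : i < D) :
    PowerSeries.coeff i (φ.φ ((f' : R2) * g)) = PowerSeries.coeff i (φ.φ (f * g)) := by
  have h1 : Hi (φ.N * (D + 1) + 1) (g * ((f' : R2) - f)) := Hi_mul_left g hf'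
  have h2 : φ.N * i < φ.N * (D + 1) + 1 := by
    have : φ.N * i ≤ φ.N * (D + 1) := Nat.mul_le_mul_left _ (by omega)
    omega
  have h3 := φ.cont _ _ h1 i h2
  have h4 : (f' : R2) * g = f * g + g * ((f' : R2) - f) := by ring
  rw [h4, map_add, map_add, h3, add_zero]

theorem ES1_fd {f : R2} {κ : ℚ} (φ : PhiD f κ) (D : ℕ) (f' : MvPolynomial (Fin 2) ℂ)
    (hf' : Hi (φ.N * (D + 1) + 1) ((f' : R2) - f)) (δ : Fin 2) (g : R2) (i : ℕ) (hi : i < D) :
    PowerSeries.coeff i (φ.φ (((MvPolynomial.pderiv δ f' : MvPolynomial (Fin 2) ℂ) : R2) * g)) =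
      PowerSeries.coeff i (φ.φ (g * pd δ f)) := by
  have h0 : Hi (φ.N * (D + 1)) (pd δ ((f' : R2) - f)) := Hi_pderiv δ hf'
  have h1 : Hi (φ.N * (D + 1)) (g * pd δ ((f' : R2) - f)) := Hi_mul_left g h0
  have h2 : φ.N * i < φ.N * (D + 1) := Nat.mul_lt_mul_of_pos_left (by omega) φ.N0
  have h3 := φ.cont _ _ h1 i h2
  have h4 : ((MvPolynomial.pderiv δ f' : MvPolynomial (Fin 2) ℂ) : R2) * g =
      g * pd δ f + g * pd δ ((f' : R2) - f) := by
    have h5 : pd δ ((f' : R2) - f) =
        ((MvPolynomial.pderiv δ f' : MvPolynomial (Fin 2) ℂ) : R2) - pd δ f := by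
      show MvPowerSeries.pderiv ℂ δ _ = _
      rw [map_sub, MvPowerSeries.pderiv_coe]
    rw [h5]
    ring
  rw [h4, map_add, map_add, h3, add_zero]

theorem ES1_gen {f : R2} {κ : ℚ} (φ : PhiD f κ) (k : Fin n) (D : ℕ)
    (f' : MvPolynomial (Fin 2) ℂ) (hf' : Hi (φ.N * (D + 1) + 1) ((f' : R2) - f))
    (P : MvPolynomial (Fin n) ℂ) : ∀ (p : MvPolynomial (Fin 2) ℂ) (q : Lat (n + 1)),
      (∀ j, 0 ≤ q j) → ∀ x : PA,
      ES1_psi φ k D (PLn (sbV k f' P * MvPolynomial.rename (xv k) p) * single q x) -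
        PLn P * ES1_W φ k D ((p : R2) * ES1_h k q) (fun j => q j.castSucc) x ∈ TK k D := by
  induction P using MvPolynomial.induction_on with
  | C a =>
    intro p q hq x
    rw [ES1_sbV_C, ES1_PLn_mul, mul_comm (PLn (MvPolynomial.C a)), mul_assoc, ES1_PLn_C,
      single_mul_single, zero_add, ES1_keyA φ k D p q hq, ES1_PLn_C]
    unfold ES1_W
    rw [ES1_T_mulx, sub_self]
    exact Submodule.zero_mem _
  | add P P' hP hP' =>
    intro p q hq x
    have h := Submodule.add_mem _ (hP p q hq x) (hP' p q hq x)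
    rw [map_add, add_mul, ES1_PLn_add, add_mul, map_add, ES1_PLn_add, add_mul, add_sub_add_comm]
    exact h
  | mul_X P j hP =>
    intro p q hq x
    by_cases hj : j = k
    · subst hj
      have e1 : sbV j f' (P * MvPolynomial.X j) * MvPolynomial.rename (xv j) p =
          sbV j f' P * MvPolynomial.rename (xv j) (f' * p) := by
        rw [map_mul, ES1_sbV_X, if_pos rfl, map_mul, mul_assoc]
      have h1 := hP (f' * p) q hq x
      rw [e1, ES1_PLn_mul P]
      have h2 : ES1_W φ j D (((f' * p : MvPolynomial (Fin 2) ℂ) : R2) * ES1_h j q)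
            (fun i => q i.castSucc) x -
          PLn (MvPolynomial.X j) * ES1_W φ j D ((p : R2) * ES1_h j q) (fun i => q i.castSucc) x ∈
            TK j D := by
        rw [ES1_PLn_X]
        unfold ES1_W
        apply ES1_shift
        · intro hD
          rw [MvPolynomial.coe_mul, mul_assoc, ES1_ff φ D f' hf' _ 0 hD, φ.mul]
          exact PowerSeries.coeff_zero_X_mul _
        · intro i hi
          rw [MvPolynomial.coe_mul, mul_assoc, ES1_ff φ D f' hf' _ _ hi, φ.mul,
            PowerSeries.coeff_succ_X_mul]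
        · intro i _
          exact hq _
      have h3 := Submodule.add_mem _ h1 (ES1_TK_mul P h2)
      rw [mul_sub, sub_add_sub_cancel, ← mul_assoc] at h3
      exact h3
    · have e1 : PLn (sbV k f' (P * MvPolynomial.X j) * MvPolynomial.rename (xv k) p) *
          single q x = PLn (sbV k f' P * MvPolynomial.rename (xv k) p) *
            single (ev j.castSucc + q) x := by
        rw [map_mul, ES1_sbV_X, if_neg hj]
        have e2 : (single (ev j.castSucc + q) x : LP PA (n + 1)) =
            PLn (MvPolynomial.X j.castSucc) * single q x := by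
          rw [ES1_PLn_X, single_mul_single, one_mul]
        rw [e2]
        simp only [ES1_PLn_mul]
        ring
      have h1 := hP p (ev j.castSucc + q)
        (fun i => by rw [Pi.add_apply]; exact add_nonneg (ES1_ev_nn _ i) (hq i)) x
      rw [e1, ES1_PLn_mul P, ES1_PLn_X, mul_assoc]
      have e3 : single (ev j) 1 * ES1_W φ k D ((p : R2) * ES1_h k q) (fun i => q i.castSucc) x =
          ES1_W φ k D ((p : R2) * ES1_h k (ev j.castSucc + q))
            (fun i => (ev j.castSucc + q) i.castSucc) x := by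
        unfold ES1_W
        rw [ES1_single_mul k D _ _ (ev j)
          (by rw [ev, Pi.single_eq_of_ne (Ne.symm hj)]),
          ES1_h_off k j hj q _ (Or.inl rfl)]
        congr 1
        funext i
        rw [Pi.add_apply, Pi.add_apply]
        congr 1
        unfold ev
        by_cases hi : i = j
        · subst hi
          rw [Pi.single_eq_same, Pi.single_eq_same]
        · rw [Pi.single_eq_of_ne hi,
            Pi.single_eq_of_ne (fun h => hi (Fin.castSucc_injective n h))]
      rw [e3]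
      exact h1

theorem ES1_pd_h {f : R2} {κ : ℚ} (φ : PhiD f κ) (k : Fin n) (D : ℕ) (δ : Fin 2)
    (q : Lat (n + 1)) (hq : ∀ j, 0 ≤ q j) (x : PA) :
    ES1_psi φ k D (dL (xv k δ) (single q x)) =
      ES1_W φ k D (pd δ (ES1_h k q)) (fun j => q j.castSucc) x := by
  rw [JF_dL_single, ES1_psi_single]
  have hx : ((q (xv k δ) : PA)) = PowerSeries.C ((q (xv k δ)).toNat : ℂ) := by
    rw [map_natCast]
    have : ((q (xv k δ)).toNat : ℤ) = q (xv k δ) := Int.toNat_of_nonneg (hq _)
    conv_lhs => rw [← this]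
    exact Int.cast_natCast _
  have hoff : ES1_W φ k D (ES1_h k (-ev (xv k δ) + q)) (fun j => (-ev (xv k δ) + q) j.castSucc)
      ((q (xv k δ) : PA) * x) =
      ES1_W φ k D (ES1_h k (-ev (xv k δ) + q)) (fun j => q j.castSucc)
      ((q (xv k δ) : PA) * x) := by
    unfold ES1_W
    apply ES1_T_off
    intro j hj
    show (-ev (xv k δ) + q) j.castSucc = q j.castSucc
    rw [Pi.add_apply, Pi.neg_apply, ev, Pi.single_eq_of_ne (ES1_xv_ne k δ j hj), neg_zero,
      zero_add]
  rw [hoff, hx, ← ES1_W_smul]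
  congr 1
  unfold ES1_h
  fin_cases δ
  · have e0 : xv k ⟨0, by decide⟩ = k.castSucc := ES1_xv0 k
    have e1 : (-ev (xv k ⟨0, by decide⟩) + q) k.castSucc = q k.castSucc - 1 := by
      rw [e0, Pi.add_apply, Pi.neg_apply, ev, Pi.single_eq_same]
      ring
    have e2 : (-ev (xv k ⟨0, by decide⟩) + q) (Fin.last n) = q (Fin.last n) := by
      rw [e0, Pi.add_apply, Pi.neg_apply, ev, Pi.single_eq_of_ne (Fin.castSucc_ne_last k).symm,
        neg_zero, zero_add]
    rw [e1, e2, e0]
    have e3 := ES1_pd0 (q k.castSucc).toNat (q (Fin.last n)).toNat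
    refine Eq.trans ?_ e3.symm
    have e4 : (q k.castSucc - 1).toNat = (q k.castSucc).toNat - 1 := by omega
    rw [e4]
  · have e0 : xv k ⟨1, by decide⟩ = Fin.last n := ES1_xv1 k
    have e1 : (-ev (xv k ⟨1, by decide⟩) + q) k.castSucc = q k.castSucc := by
      rw [e0, Pi.add_apply, Pi.neg_apply, ev, Pi.single_eq_of_ne (Fin.castSucc_ne_last k),
        neg_zero, zero_add]
    have e2 : (-ev (xv k ⟨1, by decide⟩) + q) (Fin.last n) = q (Fin.last n) - 1 := by
      rw [e0, Pi.add_apply, Pi.neg_apply, ev, Pi.single_eq_same]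
      ring
    rw [e1, e2, e0]
    have e3 := ES1_pd1 (q k.castSucc).toNat (q (Fin.last n)).toNat
    refine Eq.trans ?_ e3.symm
    have e4 : (q (Fin.last n) - 1).toNat = (q (Fin.last n)).toNat - 1 := by omega
    rw [e4]

/-- a property of all terms -/
theorem ES1_pos (k : Fin n) (D : ℕ) (b : ℕ → ℂ) (q : Lat (n + 1)) (hq : ∀ j, 0 ≤ q j) (x : PA) :
    Supp (Pos n) (ES1_T k D b (fun j => q j.castSucc) x) := by
  intro u hu
  obtain ⟨i, _, rfl, _⟩ := ES1_T_coeff hu
  intro j
  by_cases hj : j = k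
  · rw [hj, Function.update_self]
    positivity
  · rw [Function.update_of_ne hj]
    exact hq _

end ES1

/-- ES1 -/
theorem es1 {f : R2} {κ : ℚ} (φ : PhiD f κ) {n : ℕ} (k : Fin n) (D : ℕ) (hD : 0 < D)
    (f' : MvPolynomial (Fin 2) ℂ) (hf' : Hi (φ.N * (D + 1) + 1) ((f' : R2) - f)) :
    ∃ (ψ : LP PA (n + 1) →ₗ[PA] LP PA n) (Q : Fin 2 → LP PA (n + 1) →ₗ[PA] LP PA n),
      ESP k (κ : ℂ) D φ.N f' ψ Q := by
  have hmul : ∀ P g, Supp (Pos (n + 1)) g →
      ES1_psi φ k D (PLn (sbV k f' P) * g) - PLn P * ES1_psi φ k D g ∈ TK k D := by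
    intro P g hg
    refine JFL_ind (M := fun g => ES1_psi φ k D (PLn (sbV k f' P) * g) -
      PLn P * ES1_psi φ k D g ∈ TK k D) ?_ ?_ ?_ hg
    · simp only [mul_zero, map_zero, sub_zero]
      exact Submodule.zero_mem _
    · intro x y hx hy
      have h := Submodule.add_mem _ hx hy
      rw [mul_add, map_add, map_add, mul_add, add_sub_add_comm]
      exact h
    · intro q hq x
      have h := ES1_gen φ k D f' hf' P 1 q hq x
      rw [map_one, mul_one, MvPolynomial.coe_one, one_mul, ← ES1_psi_single] at h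
      exact h
  refine ⟨ES1_psi φ k D, ES1_Q φ k D, ?_, ?_, hmul, ?_, ?_, ?_, ?_, ?_, ?_, ?_, ?_, ?_, ?_⟩
  · -- pos
    intro g hg
    refine JFL_ind (M := fun g => Supp (Pos n) (ES1_psi φ k D g)) ?_ ?_ ?_ hg
    · show Supp (Pos n) (ES1_psi φ k D 0)
      rw [map_zero]
      exact Supp.zero _
    · intro x y hx hy
      show Supp (Pos n) (ES1_psi φ k D (x + y))
      rw [map_add]
      exact hx.add hy
    · intro q hq x
      show Supp (Pos n) (ES1_psi φ k D (single q x))
      rw [ES1_psi_single]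
      exact ES1_pos k D _ q hq x
  · -- posQ
    intro δ g hg
    refine JFL_ind (M := fun g => Supp (Pos n) (ES1_Q φ k D δ g)) ?_ ?_ ?_ hg
    · show Supp (Pos n) (ES1_Q φ k D δ 0)
      rw [map_zero]
      exact Supp.zero _
    · intro x y hx hy
      show Supp (Pos n) (ES1_Q φ k D δ (x + y))
      rw [map_add]
      exact hx.add hy
    · intro q hq x
      show Supp (Pos n) (ES1_Q φ k D δ (single q x))
      rw [ES1_Q_single]
      exact ES1_pos k D _ q hq x
  · -- dL0
    intro j g hj hg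
    refine JFL_ind (M := fun g => ES1_psi φ k D (dL j.castSucc g) = dL j (ES1_psi φ k D g))
      ?_ ?_ ?_ hg
    · rw [ES1_dL_zero, map_zero, ES1_dL_zero]
    · intro x y hx hy
      rw [ES1_dL_add, map_add, map_add, ES1_dL_add, hx, hy]
    · intro q hq x
      rw [JF_dL_single, ES1_psi_single, ES1_psi_single, ES1_h_off k j hj q _ (Or.inr rfl)]
      unfold ES1_W ES1_T
      rw [ES1_dL_sum]
      refine sum_congr rfl fun i _ => ?_
      rw [JF_dL_single, Function.update_of_ne hj]
      congr 1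
      · funext i'
        rw [Pi.add_apply, Pi.neg_apply]
        by_cases hi : i' = k
        · rw [hi, Function.update_self, Function.update_self, ev,
            Pi.single_eq_of_ne (Ne.symm hj), neg_zero, zero_add]
        · rw [Function.update_of_ne hi, Function.update_of_ne hi, Pi.add_apply, Pi.neg_apply]
          congr 2
          unfold ev
          by_cases hi' : i' = j
          · subst hi'
            rw [Pi.single_eq_same, Pi.single_eq_same]
          · rw [Pi.single_eq_of_ne hi',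
              Pi.single_eq_of_ne (fun h => hi' (Fin.castSucc_injective n h))]
      · ring
  · -- dL1
    intro j P g hj hg
    rw [ES1_dL_PLn, ES1_dL_PLn, ES1_pd_sbV k f' j hj]
    exact hmul _ g hg
  · -- th0
    intro j g hj hg
    refine JFL_ind (M := fun g => ES1_psi φ k D (thL j.castSucc g) = thL j (ES1_psi φ k D g))
      ?_ ?_ ?_ hg
    · rw [ES1_thL_zero, map_zero, ES1_thL_zero]
    · intro x y hx hy
      rw [ES1_thL_add, map_add, map_add, ES1_thL_add, hx, hy]
    · intro q hq x
      rw [ES1_thL_single, ES1_psi_single, ES1_psi_single]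
      unfold ES1_W ES1_T
      rw [ES1_thL_sum]
      refine sum_congr rfl fun i _ => ?_
      rw [ES1_thL_single, Function.update_of_ne hj]
      congr 1
      ring
  · -- th1
    intro j P g hj hg
    rw [ES1_thL_PLn, ES1_thL_PLn, ES1_pd_sbV k f' j hj]
    have h1 : (MvPolynomial.X j.castSucc : MvPolynomial (Fin (n + 1)) ℂ) =
        sbV k f' (MvPolynomial.X j) := by
      rw [ES1_sbV_X, if_neg hj]
    rw [h1, ← map_mul]
    exact hmul _ g hg
  · -- x0
    intro δ g hg
    refine JFL_ind (M := fun g => ES1_psi φ k D (dL (xv k δ) g) =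
      thL k (ES1_Q φ k D δ g) + (PowerSeries.C (κ : ℂ) : PA) • ES1_Q φ k D δ g) ?_ ?_ ?_ hg
    · rw [ES1_dL_zero, map_zero, map_zero, ES1_thL_zero, smul_zero, add_zero]
    · intro x y hx hy
      rw [ES1_dL_add, map_add, hx, hy, map_add, ES1_thL_add, smul_add]
      abel
    · intro q hq x
      rw [ES1_pd_h φ k D δ q hq, ES1_Q_single]
      unfold ES1_W ES1_T
      rw [ES1_thL_sum, smul_sum, ← sum_add_distrib]
      refine sum_congr rfl fun i _ => ?_
      rw [ES1_thL_single, Function.update_self, JF_smul_single, ← AddMonoidAlgebra.single_add]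
      beta_reduce
      rw [φ.der]
      congr 1
      have h1 : (((i : ℤ) : PA)) = PowerSeries.C ((i : ℕ) : ℂ) := by
        rw [map_natCast]
        exact Int.cast_natCast _
      rw [h1, map_mul, map_add]
      ring
  · -- x1
    intro δ P g hg
    refine JFL_ind (M := fun g => ES1_psi φ k D (dL (xv k δ) (PLn (sbV k f' P)) * g) -
      thL k (PLn P) * ES1_Q φ k D δ g ∈ TK k D) ?_ ?_ ?_ hg
    · simp only [mul_zero, map_zero, sub_zero]
      exact Submodule.zero_mem _
    · intro x y hx hy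
      have h := Submodule.add_mem _ hx hy
      rw [mul_add, map_add, map_add, mul_add, add_sub_add_comm]
      exact h
    · intro q hq x
      rw [ES1_dL_PLn, ES1_pdx_sbV, ES1_thL_PLn, ES1_Q_single]
      have h1 := ES1_gen φ k D f' hf' (MvPolynomial.pderiv k P) (MvPolynomial.pderiv δ f') q hq x
      have h2 : ES1_W φ k D (((MvPolynomial.pderiv δ f' : MvPolynomial (Fin 2) ℂ) : R2) *
            ES1_h k q) (fun j => q j.castSucc) x -
          single (ev k) 1 * ES1_T k D
            (fun i => PowerSeries.coeff (i + 1) (φ.φ (ES1_h k q * pd δ f)))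
            (fun j => q j.castSucc) x ∈ TK k D := by
        unfold ES1_W
        apply ES1_shift
        · intro hD'
          rw [ES1_fd φ D f' hf' δ _ 0 hD']
          exact φ.cc δ _
        · intro i hi
          rw [ES1_fd φ D f' hf' δ _ _ hi]
        · intro i _
          exact hq _
      have h3 := Submodule.add_mem _ h1 (ES1_TK_mul (MvPolynomial.pderiv k P) h2)
      rw [mul_sub, sub_add_sub_cancel] at h3
      rw [ES1_PLn_mul (MvPolynomial.X k), ES1_PLn_X, mul_comm (single (ev k) 1), mul_assoc]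
      exact h3
  · -- one
    intro u hu
    have h1 : ES1_psi φ k D 1 = ES1_T k D (fun i => PowerSeries.coeff i (φ.φ 1))
        (0 : Lat n) 1 := by
      rw [AddMonoidAlgebra.one_def, ES1_psi_single]
      have h0 : ES1_h k (0 : Lat (n + 1)) = 1 := by
        unfold ES1_h
        simp
      rw [h0]
      rfl
    obtain ⟨D', rfl⟩ : ∃ D', D = D' + 1 := ⟨D - 1, by omega⟩
    have h2 : ES1_psi φ k (D' + 1) 1 - 1 = ∑ i ∈ range D',
        single (Function.update (0 : Lat n) k ((i + 1 : ℕ) : ℤ))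
          (PowerSeries.C (PowerSeries.coeff (i + 1) (φ.φ 1)) * 1) := by
      rw [h1]
      unfold ES1_T
      rw [sum_range_succ']
      have h3 : (single (Function.update (0 : Lat n) k ((0 : ℕ) : ℤ))
          (PowerSeries.C (PowerSeries.coeff 0 (φ.φ 1)) * 1) : LP PA n) = 1 := by
        rw [φ.one, map_one, mul_one, AddMonoidAlgebra.one_def]
        congr 1
        funext j
        by_cases hj : j = k
        · rw [hj, Function.update_self]
          rfl
        · rw [Function.update_of_ne hj]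
      rw [h3, add_sub_cancel_right]
    rw [h2, coeff_finsum] at hu
    obtain ⟨i, hi, hne⟩ := Finset.exists_ne_zero_of_sum_ne_zero hu
    rw [coeff_single'] at hne
    by_cases h3 : u = Function.update (0 : Lat n) k ((i + 1 : ℕ) : ℤ)
    · refine ⟨fun h0 => ?_, fun j => ?_⟩
      · have h4 := congrFun h3 k
        rw [Function.update_self, h0] at h4
        have h5 : (0 : ℤ) = ((i + 1 : ℕ) : ℤ) := h4
        omega
      · rw [h3]
        by_cases hj : j = k
        · rw [hj, Function.update_self]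
          positivity
        · rw [Function.update_of_ne hj]
          rfl
    · rw [if_neg h3] at hne
      exact absurd rfl hne
  · -- ne
    intro q x hq hq0 u hu hu0
    rw [ES1_psi_single] at hu
    obtain ⟨i, _, hui, hb⟩ := ES1_T_coeff hu
    have hi0 : i = 0 := by
      have h4 := congrFun hui k
      rw [Function.update_self, hu0] at h4
      have h5 : (0 : ℤ) = (i : ℤ) := h4
      omega
    have hoff : ∀ j, j ≠ k → q j.castSucc = 0 := by
      intro j hj
      have h4 := congrFun hui j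
      rw [Function.update_of_ne hj, hu0] at h4
      exact h4.symm
    apply hb
    rw [hi0]
    have hHi : Hi 1 (ES1_h k q) := by
      refine Hi_mono ?_ (ES1_Hi_mon _ _)
      by_contra hcon
      apply hq0
      have h1 := hq k.castSucc
      have h2 := hq (Fin.last n)
      have h3 : q k.castSucc = 0 := by omega
      have h4 : q (Fin.last n) = 0 := by omega
      funext j
      refine Fin.lastCases ?_ (fun j' => ?_) j
      · exact h4
      · by_cases hj : j' = k
        · rw [hj]
          exact h3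
        · exact hoff j' hj
    exact φ.cont 1 _ hHi 0 (by simp)
  · -- zero
    intro q x hq hN
    rw [ES1_psi_single]
    have h1 := hq k.castSucc
    have h2 := hq (Fin.last n)
    have hHi : Hi (φ.N * D) (ES1_h k q) := by
      refine Hi_mono ?_ (ES1_Hi_mon _ _)
      omega
    unfold ES1_W
    rw [ES1_T_congr k (b' := fun _ => 0) (fun i hi =>
      φ.cont _ _ hHi i (Nat.mul_lt_mul_of_pos_left hi φ.N0))]
    unfold ES1_T
    refine sum_eq_zero fun i _ => ?_
    rw [map_zero, zero_mul, AddMonoidAlgebra.single_zero]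
  · -- off
    intro q x hq u hu j hj
    rw [ES1_psi_single] at hu
    obtain ⟨i, _, hui, hb⟩ := ES1_T_coeff hu
    rw [hui, Function.update_of_ne hj]

end Pool.Agent.H56.CT
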