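import Pool.Agent.H56.CT.RDefs

/-!
# ES2: composition of the formal integrals with the integration over the fibres

`I' i m = (I i m) ∘ ψ`.  For `-R ≤ i ≤ 1` elements of `TK k D` are killed by `I i m` (`hK`, span induction; scalars: `I` is linear).
`h1`: `I i m (ψ g) = I (i-1) m (PLn P * ψ g)` (`h1` of `I`, `pos`) `= I (i-1) m (ψ (PLn P' * g))` by `mul`.  `h2` in the same way.
`h3`, variable `j.castSucc`, `j ≠ k`, `e j = none` (for `eS`: `Fin.snoc_castSucc`): `h3` of `I` for `ψ g` with `dL0`, `dL1`.  `h4`: the same with `th0`, `th1` (`ψ` is linear).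
`h3`, variable `k.castSucc = xv k 0` or `Fin.last n = xv k 1`, i.e. `xv k δ`: `I i m (ψ (dL (xv k δ) g)) = I i m (thL k (Q δ g) + C c • Q δ g)` (`x0`); `h4` of `I` for the variable `k` and `Q δ g` (`posQ`), and `x1` for `P` and for the second polynomial (killed: index `i - 1 ≥ -R`, resp. `i`).
`h4` does not occur for `k.castSucc`, `Fin.last n` (type `none`).
`z1`: `pos`.  `z0`: `ψ (single q x)` is the sum of its terms, all with exponents `≥ 0` (`pos`) and `≠ 0` (`ne`), `z0` of `I`.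
`I 0 0 (ψ 1) = I 0 0 1 + I 0 0 (ψ 1 - 1)`, the last term is `0` by `one`, `z0`.
Kills: the first set by `zero`; the second: all exponents `u` of `ψ (single q x)` are `≥ 0` and agree with `fun j => q j.castSucc` off `k` (`off`), so they are in `K`.
-/

set_option autoImplicit false

namespace Pool.Agent.H56.CT

open Finset AddMonoidAlgebra
open Pool.Agent.H56.SMC Pool.Agent.H37.T5 Pool.Agent.H56.T5 Pool.Agent.H37.T6 Pool.Agent.H22.T6
open Pool.Agent.H22.T7

private theorem ES2_sum {n : ℕ} (z : LP PA n) :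
    z = ∑ v ∈ z.coeff.support, single v (z.coeff v) := by
  conv_lhs => rw [← AddMonoidAlgebra.sum_coeff_single z]
  rfl

private theorem ES2_smul {n : ℕ} (v : Lat n) (r : PA) :
    (single v r : LP PA n) = r • single v 1 := by
  rw [AddMonoidAlgebra.smul_single', mul_one]

/-- a linear map kills `g` if it kills the terms of `g` -/
private theorem ES2_terms {n : ℕ} {W : Type} [AddCommGroup W] [Module PA W]
    (L : LP PA n →ₗ[PA] W) (g : LP PA n)
    (h : ∀ u, g.coeff u ≠ 0 → L (single u (g.coeff u)) = 0) : L g = 0 := by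
  rw [ES2_sum g, map_sum]
  exact Finset.sum_eq_zero fun u hu => h u (Finsupp.mem_support_iff.1 hu)

private theorem ES2_kill {n : ℕ} {W : Type} [AddCommGroup W] [Module PA W] {R : ℕ}
    {I : ℤ → ℤ → LP PA n →ₗ[PA] W} {k : Fin n} {D : ℕ} (hK : Kil R I {q | (D : ℤ) ≤ q k})
    {i m : ℤ} (h1 : -(R : ℤ) ≤ i) (h2 : i ≤ 1) {x y : LP PA n} (h : x - y ∈ TK k D) :
    I i m x = I i m y := by
  have hle : TK k D ≤ LinearMap.ker (I i m) := by
    unfold TK
    rw [Submodule.span_le]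
    rintro _ ⟨q, hq, hD, rfl⟩
    exact hK i m q 1 h1 h2 hq hD
  have h3 := hle h
  rw [LinearMap.mem_ker, map_sub] at h3
  exact sub_eq_zero.1 h3

private theorem ES2_supp {n : ℕ} {q : Lat n} (hq : ∀ j, 0 ≤ q j) (x : PA) :
    Supp (Pos n) (single q x : LP PA n) :=
  Supp.single (S := Pos n) (v := q) hq x

/-- ES2 -/
theorem es2 {n : ℕ} {W : Type} [AddCommGroup W] [Module PA W] (R : ℕ) (s t : PA)
    (P P2 : MvPolynomial (Fin n) ℂ) (e : Fin n → Option ℂ) (I : ℤ → ℤ → LP PA n →ₗ[PA] W)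
    (hI : FI R s t P P2 e I) (k : Fin n) (c : ℂ) (hk : e k = some c) (D N : ℕ)
    (f' : MvPolynomial (Fin 2) ℂ) (ψ : LP PA (n + 1) →ₗ[PA] LP PA n)
    (Q : Fin 2 → LP PA (n + 1) →ₗ[PA] LP PA n) (hψ : ESP k c D N f' ψ Q)
    (hK : Kil R I {q | (D : ℤ) ≤ q k}) :
    FI R s t (sbV k f' P) (sbV k f' P2) (eS k e) (fun i m => (I i m).comp ψ) ∧
      I 0 0 (ψ 1) = I 0 0 1 ∧
      Kil R (fun i m => (I i m).comp ψ)
        {q | ((N * D : ℕ) : ℤ) ≤ q k.castSucc + q (Fin.last n)} ∧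
      ∀ K : Set (Lat n), (∀ q q' : Lat n, (∀ j, j ≠ k → q j = q' j) → q ∈ K → q' ∈ K) →
        Kil R I K → Kil R (fun i m => (I i m).comp ψ) {q | (fun j => q j.castSucc) ∈ K} := by
  have hA : ∀ (A : MvPolynomial (Fin n) ℂ) (i m : ℤ) (g : LP PA (n + 1)), -(R : ℤ) ≤ i → i ≤ 1 →
      Supp (Pos (n + 1)) g → I i m (ψ (PLn (sbV k f' A) * g)) = I i m (PLn A * ψ g) :=
    fun A i m g h1 h2 hg => ES2_kill hK h1 h2 (hψ.mul A g hg)
  refine ⟨⟨?_, ?_, ?_, ?_, ?_, ?_⟩, ?_, ?_, ?_⟩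
  · intro i m g h1 h2 hg
    change I i m (ψ g) = I (i - 1) m (ψ (PLn (sbV k f' P) * g))
    rw [hA P (i - 1) m g h1 (by omega) hg]
    exact hI.h1 i m (ψ g) h1 h2 (hψ.pos g hg)
  · intro i m g h1 h2 hg
    change I i m (ψ g) = I i (m - 1) (ψ (PLn (sbV k f' P2) * g))
    rw [hA P2 i (m - 1) g h1 h2 hg]
    exact hI.h2 i m (ψ g) h1 h2 (hψ.pos g hg)
  · intro i m j g hj h1 h2 hg
    change I i m (ψ (dL j g)) + (s + (i : PA)) • I (i - 1) m (ψ (dL j (PLn (sbV k f' P)) * g)) +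
      (t + (m : PA)) • I i (m - 1) (ψ (dL j (PLn (sbV k f' P2)) * g)) = 0
    have hx : ∀ δ : Fin 2, I i m (ψ (dL (xv k δ) g)) +
        (s + (i : PA)) • I (i - 1) m (ψ (dL (xv k δ) (PLn (sbV k f' P)) * g)) +
        (t + (m : PA)) • I i (m - 1) (ψ (dL (xv k δ) (PLn (sbV k f' P2)) * g)) = 0 := by
      intro δ
      rw [hψ.x0 δ g hg, ES2_kill hK h1 (by omega) (hψ.x1 δ P g hg),
        ES2_kill hK (by omega : -(R : ℤ) ≤ i) h2 (hψ.x1 δ P2 g hg)]
      exact hI.h4 i m k c (Q δ g) hk h1 h2 (hψ.posQ δ g hg)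
    refine Fin.lastCases ?_ (fun j0 => ?_) j (motive := fun j => eS k e j = none →
      I i m (ψ (dL j g)) + (s + (i : PA)) • I (i - 1) m (ψ (dL j (PLn (sbV k f' P)) * g)) +
      (t + (m : PA)) • I i (m - 1) (ψ (dL j (PLn (sbV k f' P2)) * g)) = 0) hj
    · intro _
      have h3 := hx 1
      have h4 : xv k 1 = Fin.last n := by
        unfold xv
        rw [if_neg (by decide)]
      rw [h4] at h3
      exact h3
    · intro hj0
      by_cases hjk : j0 = k
      · subst hjk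
        have h3 := hx 0
        have h4 : xv j0 0 = j0.castSucc := by
          unfold xv
          rw [if_pos rfl]
        rw [h4] at h3
        exact h3
      · have h3 : e j0 = none := by
          unfold eS at hj0
          rw [Fin.snoc_castSucc, if_neg hjk] at hj0
          exact hj0
        rw [hψ.dL0 j0 g hjk hg, ES2_kill hK h1 (by omega) (hψ.dL1 j0 P g hjk hg),
          ES2_kill hK (by omega : -(R : ℤ) ≤ i) h2 (hψ.dL1 j0 P2 g hjk hg)]
        exact hI.h3 i m j0 (ψ g) h3 h1 h2 (hψ.pos g hg)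
  · intro i m j c' g hj h1 h2 hg
    change I i m (ψ (thL j g + PowerSeries.C c' • g)) +
      (s + (i : PA)) • I (i - 1) m (ψ (thL j (PLn (sbV k f' P)) * g)) +
      (t + (m : PA)) • I i (m - 1) (ψ (thL j (PLn (sbV k f' P2)) * g)) = 0
    refine Fin.lastCases ?_ (fun j0 => ?_) j (motive := fun j => eS k e j = some c' →
      I i m (ψ (thL j g + PowerSeries.C c' • g)) +
      (s + (i : PA)) • I (i - 1) m (ψ (thL j (PLn (sbV k f' P)) * g)) +
      (t + (m : PA)) • I i (m - 1) (ψ (thL j (PLn (sbV k f' P2)) * g)) = 0) hj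
    · intro h
      unfold eS at h
      rw [Fin.snoc_last] at h
      exact absurd h (by simp)
    · intro hj0
      unfold eS at hj0
      rw [Fin.snoc_castSucc] at hj0
      by_cases hjk : j0 = k
      · rw [if_pos hjk] at hj0
        exact absurd hj0 (by simp)
      · rw [if_neg hjk] at hj0
        rw [map_add, map_smul, hψ.th0 j0 g hjk hg,
          ES2_kill hK h1 (by omega) (hψ.th1 j0 P g hjk hg),
          ES2_kill hK (by omega : -(R : ℤ) ≤ i) h2 (hψ.th1 j0 P2 g hjk hg)]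
        exact hI.h4 i m j0 c' (ψ g) hj0 h1 h2 (hψ.pos g hg)
  · intro m g hg
    exact hI.z1 m (ψ g) (hψ.pos g hg)
  · intro m q x hq hq0
    refine ES2_terms (I 0 m) (ψ (single q x)) fun u hu => ?_
    exact hI.z0 m u _ (hψ.pos _ (ES2_supp hq x) u hu) (hψ.ne q x hq hq0 u hu)
  · have h1 : I 0 0 (ψ 1 - 1) = 0 := by
      refine ES2_terms (I 0 0) (ψ 1 - 1) fun u hu => ?_
      obtain ⟨h2, h3⟩ := hψ.one u hu
      exact hI.z0 0 u _ h3 h2
    rw [map_sub] at h1
    exact sub_eq_zero.1 h1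
  · intro i m q x _ _ hq hqD
    change I i m (ψ (single q x)) = 0
    rw [hψ.zero q x hq hqD, map_zero]
  · intro K hKs hKK i m q x h1 h2 hq hqK
    refine ES2_terms (I i m) (ψ (single q x)) fun u hu => ?_
    refine hKK i m u _ h1 h2 (hψ.pos _ (ES2_supp hq x) u hu) ?_
    exact hKs (fun j => q j.castSucc) u (fun j hj => (hψ.off q x hq u hu j hj).symm) hqK

end Pool.Agent.H56.CT
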