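import Pool.Agent.H56.CT.RDefs
import Pool.Agent.H56.CT.SDefs
import Pool.Agent.H22.T7.DPS

/-!
# Compositions `𝒢(F_1(u_1, v_1), …, F_m(u_m, v_m))`: definitions
-/

set_option autoImplicit false

namespace Pool.Agent.H56.CT

open Finset
open Pool.Agent.H22.T7

/-- The root columns: the groups `grp`, the multiplicities `Nn`, the columns `ε` with a second
variable, the coordinates `cc`, and the simplified germs `Fs`. -/
structure Cfg {m : ℕ} (f : Fin m → R2) (κv : Fin m → ℚ) (T : Finset (Fin m)) (n e : ℕ)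
    (Nn : Fin n → ℕ) (grp : Fin n → Fin m) (ε : Fin e → Fin n) (cc : Fin n → Fin 2)
    (Fs : Fin m → R2) : Prop where
  N0 : ∀ j, 0 < Nn j
  gs : Function.Surjective grp
  εi : Function.Injective ε
  gr : ∀ j j', grp j = grp j' → j ≠ j' → j ∉ Set.range ε ∧ Nn j = Nn j'
  n1 : ∀ j, j ∉ Set.range ε → (Nn j : ℚ) * κv (grp j) = 1
  ee : ∀ j, Nn (ε j) = 1 ∧ κv (grp (ε j)) < 1 ∧
    Nonempty (PhiD (f (grp (ε j))) (κv (grp (ε j))))
  nd : ∀ k, κv k = 1 → k ∉ T → ∃ j j', j ≠ j' ∧ grp j = k ∧ grp j' = k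
  inj : Function.Injective (Fin.append (fun j : Fin n => (grp j, cc j))
    (fun j : Fin e => (grp (ε j), (1 : Fin 2))))
  ce : ∀ j, cc (ε j) = 0
  fs0 : ∀ j, Fs (grp (ε j)) = f (grp (ε j))
  fs1 : ∀ k, k ∉ Set.range (fun j => grp (ε j)) →
    Fs k = ∏ j ∈ univ.filter (fun j => grp j = k), (MvPowerSeries.X (cc j) : R2) ^ Nn j
  st : ∀ k, Fs k = f k ∨ (∃ N : ℕ, 0 < N ∧ Fs k = U ^ N ∧ SpD (f k) N) ∨
    (Fs k = U * V ∧ Node (f k))

end Pool.Agent.H56.CT
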