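import Pool.Agent.H56.CT.PBK
import Pool.Agent.H56.CT.PTH
import Pool.Agent.H22.T7.EXT

/-!
# FPB: the functional equation in the coordinates of a path of the resolution

Let `A = MvPowerSeries (Fin m × Fin 2) ℂ`, `ι = rename (fun δ => (k0, δ)) : R2 → A`, `u = X (k0, 0)`.
(1) `Φ : A →ₐ[ℂ] A`, `Φ = substAlgHom` of the family `Z` with `Z (k0, 0) = ι X`, `Z (k0, 1) = ι Y`, `Z (l, δ) = X (l, δ)` for `l ≠ k0` (`hasSubst_of_constantCoeff_zero`: `hp.cX`, `hp.cY`, `constantCoeff_rename`).  `Φ (X j) = Z j`, `Hi 1 (Z j)` (constant coefficient `0`).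
(2) `Φ (GC a κ F) = GC a κ (update F k0 g)`: `Φ (rename (l, ·) h) = rename (l, ·) h` for `l ≠ k0`, and `Φ (ι h) = ι (sb X Y h)` (`rename` is a substitution, `rename_eq_subst`; composition of substitutions `MvPowerSeries.subst_comp_subst_apply`; or: both sides are algebra homomorphisms `R2 → A` which agree at `U`, `V` with values `Hi 1`: as `SBB_ext` in `Pool/Agent/H56/CT/SBB.lean`), and `sb X Y (F k0) = g` (`hp.eq`).
(3) `hp.jac`: `jac X Y = U ^ e * V ^ 0 * η`, `η` a unit, `η' * η = 1`.  Derivations: for `j = (l, δ)`, `l ≠ k0`: `δ j = u ^ e • pderiv j`; `δ (k0, 0) = ι (η' * pd 1 Y) • pderiv (k0, 0) - ι (η' * pd 0 Y) • pderiv (k0, 1)`; `δ (k0, 1) = - ι (η' * pd 1 X) • pderiv (k0, 0) + ι (η' * pd 0 X) • pderiv (k0, 1)` (the module structure on `Derivation`).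
`pderiv (k0, δ) (ι h) = ι (pd δ h)` (`ext_pderiv_in` in `Pool/Agent/H22/T7/EXT.lean`), `pderiv (l, δ) (ι h) = 0` for `l ≠ k0` (`ext_pderiv_out`), so `hδ` of `pbk` holds with `v = u ^ e`: e.g. `δ (k0,0) (ι X) = ι (η' (pd 1 Y pd 0 X - pd 0 Y pd 1 X)) = ι (η' jac X Y) = ι (U ^ e) = u ^ e`, `δ (k0,0) (ι Y) = ι (η' (pd 1 Y pd 0 Y - pd 0 Y pd 1 Y)) = 0`.
(4) `pbk` with `V' = 1`: `M`; `(u ^ e) ^ M * Φ 1 = u ^ (e * M)`.
`spf`: `h : SpD f N` gives `Path f (U ^ n * V ^ N) a 0 X Y`; `PTH_step` with `X' = U ^ N`, `Y' = V`, `a' = N * a + (N - 1)`, `b' = 0`, `ε' = C N` (a unit, `N > 0`): `jac (U ^ N) V = N U ^ (N-1)`; `sb (U ^ N) V (U ^ n * V ^ N) = (U ^ N) ^ n * V ^ N = (U ^ n * V) ^ N` (`sb_hom`).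
`nodp`: `path_psi (path_id f) ψ` (`a = b = 0`, no conditions).
-/

set_option autoImplicit false

namespace Pool.Agent.H56.CT

open Finset
open Pool.Agent.H22.T7

theorem FPB_hi1 {σ : Type} (g : MvPowerSeries σ ℂ) (h : MvPowerSeries.constantCoeff g = 0) :
    Hi 1 g := by
  intro ρ hρ
  by_contra hcon
  have h1 : ρ.degree = 0 := by omega
  rw [Finsupp.degree_eq_zero_iff] at h1
  apply hρ
  rw [h1, MvPowerSeries.coeff_zero_eq_constantCoeff_apply, h]

theorem FPB_C {σ τ : Type} (F : MvPowerSeries σ ℂ →ₐ[ℂ] MvPowerSeries τ ℂ) (c : ℂ) :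
    F (MvPowerSeries.C c) = MvPowerSeries.C c := F.commutes c

/-- Homomorphisms are determined by the images of the coordinates. -/
theorem FPB_ext {σ τ : Type} [Fintype σ] (F G : MvPowerSeries σ ℂ →ₐ[ℂ] MvPowerSeries τ ℂ)
    (hF : ∀ j, Hi 1 (F (MvPowerSeries.X j)))
    (h : ∀ j, F (MvPowerSeries.X j) = G (MvPowerSeries.X j)) (x : MvPowerSeries σ ℂ) :
    F x = G x := by
  classical
  have key : ∀ (N : ℕ) (x : MvPowerSeries σ ℂ), Hi N (F x - G x) := by
    intro N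
    induction N with
    | zero => exact fun x => Hi_zero _
    | succ N ih =>
      intro x
      have h0 : Hi (0 + 1) (x - MvPowerSeries.C (MvPowerSeries.constantCoeff x)) := by
        apply FPB_hi1
        simp
      obtain ⟨g, -, hg⟩ := hi_dec 0 _ h0
      have h2 : x = MvPowerSeries.C (MvPowerSeries.constantCoeff x) +
          ∑ j, MvPowerSeries.X j * g j := by
        rw [← hg]; ring
      have h3 : F x - G x = ∑ j, F (MvPowerSeries.X j) * (F (g j) - G (g j)) := by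
        have hFx : F x = MvPowerSeries.C (MvPowerSeries.constantCoeff x) +
            ∑ j, F (MvPowerSeries.X j) * F (g j) := by
          conv_lhs => rw [h2]
          rw [map_add, FPB_C, map_sum]
          congr 1
          exact sum_congr rfl fun j _ => map_mul F _ _
        have hGx : G x = MvPowerSeries.C (MvPowerSeries.constantCoeff x) +
            ∑ j, F (MvPowerSeries.X j) * G (g j) := by
          conv_lhs => rw [h2]
          rw [map_add, FPB_C, map_sum]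
          congr 1
          exact sum_congr rfl fun j _ => by rw [map_mul, h j]
        rw [hFx, hGx, add_sub_add_left_eq_sub, ← sum_sub_distrib]
        exact sum_congr rfl fun j _ => by ring
      rw [h3, add_comm N 1]
      exact Hi_sum _ _ fun j _ => Hi_mul (hF j) (ih _)
  have h0 : F x - G x = 0 := by
    ext ρ
    by_contra hne
    have h1 : MvPowerSeries.coeff ρ (F x - G x) ≠ 0 := hne
    have h2 := key (ρ.degree + 1) x ρ h1
    omega
  exact sub_eq_zero.1 h0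

/-- The embedding of the variables of the index `k`. -/
def FPB_e {m : ℕ} (k : Fin m) : Fin 2 ↪ Fin m × Fin 2 :=
  ⟨fun δ => (k, δ), fun _ _ h => (Prod.mk.inj h).2⟩

theorem FPB_in {m : ℕ} (k : Fin m) (δ : Fin 2) (g : R2) :
    MvPowerSeries.pderiv ℂ (k, δ) (MvPowerSeries.rename (fun δ : Fin 2 => (k, δ)) g) =
      MvPowerSeries.rename (fun δ : Fin 2 => (k, δ)) (pd δ g) :=
  ext_pderiv_in (FPB_e k) δ g

theorem FPB_out {m : ℕ} (k : Fin m) (t : Fin m × Fin 2) (ht : t.1 ≠ k) (g : R2) :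
    MvPowerSeries.pderiv ℂ t (MvPowerSeries.rename (fun δ : Fin 2 => (k, δ)) g) = 0 :=
  ext_pderiv_out (FPB_e k) t (by
    rintro ⟨b, hb⟩
    exact ht (by rw [← hb]; rfl)) g

/-- The images of the coordinates. -/
noncomputable def FPB_Z {m : ℕ} (k0 : Fin m) (X Y : R2) (j : Fin m × Fin 2) :
    MvPowerSeries (Fin m × Fin 2) ℂ :=
  if j.1 = k0 then MvPowerSeries.rename (fun δ : Fin 2 => (k0, δ)) ((![X, Y] : Fin 2 → R2) j.2)
  else MvPowerSeries.X j

theorem FPB_Z_in {m : ℕ} (k0 : Fin m) (X Y : R2) (δ : Fin 2) :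
    FPB_Z k0 X Y (k0, δ) =
      MvPowerSeries.rename (fun δ : Fin 2 => (k0, δ)) ((![X, Y] : Fin 2 → R2) δ) := by
  unfold FPB_Z
  rw [if_pos rfl]

theorem FPB_Z_out {m : ℕ} (k0 : Fin m) (X Y : R2) (j : Fin m × Fin 2) (hj : j.1 ≠ k0) :
    FPB_Z k0 X Y j = MvPowerSeries.X j := by
  unfold FPB_Z
  rw [if_neg hj]

theorem FPB_Z_co {m : ℕ} (k0 : Fin m) (X Y : R2) (hX : co X 0 0 = 0) (hY : co Y 0 0 = 0)
    (j : Fin m × Fin 2) : MvPowerSeries.constantCoeff (FPB_Z k0 X Y j) = 0 := by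
  unfold FPB_Z
  split_ifs with h
  · rw [MvPowerSeries.constantCoeff_rename]
    rw [PTH_co] at hX hY
    have h2 : ∀ δ : Fin 2, MvPowerSeries.constantCoeff ((![X, Y] : Fin 2 → R2) δ) = 0 := by
      rw [Fin.forall_fin_two]
      exact ⟨hX, hY⟩
    exact h2 j.2
  · exact MvPowerSeries.constantCoeff_X _

/-- The substitution as a homomorphism. -/
theorem FPB_hom {m : ℕ} (k0 : Fin m) (X Y : R2) (hX : co X 0 0 = 0) (hY : co Y 0 0 = 0) :
    ∃ Φ : MvPowerSeries (Fin m × Fin 2) ℂ →ₐ[ℂ] MvPowerSeries (Fin m × Fin 2) ℂ,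
      ∀ j, Φ (MvPowerSeries.X j) = FPB_Z k0 X Y j := by
  have hs : MvPowerSeries.HasSubst (FPB_Z k0 X Y) :=
    MvPowerSeries.hasSubst_of_constantCoeff_zero (FPB_Z_co k0 X Y hX hY)
  exact ⟨MvPowerSeries.substAlgHom hs, fun j => MvPowerSeries.substAlgHom_X hs j⟩

theorem FPB_ren {m : ℕ} (k0 : Fin m) (X Y : R2) (hX : co X 0 0 = 0) (hY : co Y 0 0 = 0)
    (Φ : MvPowerSeries (Fin m × Fin 2) ℂ →ₐ[ℂ] MvPowerSeries (Fin m × Fin 2) ℂ)
    (hΦ : ∀ j, Φ (MvPowerSeries.X j) = FPB_Z k0 X Y j) (F : Fin m → R2) (k : Fin m) :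
    Φ (MvPowerSeries.rename (fun δ : Fin 2 => (k, δ)) (F k)) =
      MvPowerSeries.rename (fun δ : Fin 2 => (k, δ))
        (Function.update F k0 (sb X Y (F k0)) k) := by
  by_cases hk : k = k0
  · subst hk
    rw [Function.update_self]
    obtain ⟨Fs, hFs, hU, hV⟩ := sb_hom X Y hX hY
    rw [← hFs]
    refine FPB_ext (Φ.comp (MvPowerSeries.rename (fun δ : Fin 2 => (k, δ))))
      ((MvPowerSeries.rename (fun δ : Fin 2 => (k, δ))).comp Fs) ?_ ?_ (F k)
    · intro δ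
      rw [AlgHom.comp_apply, MvPowerSeries.rename_X, hΦ]
      exact FPB_hi1 _ (FPB_Z_co k X Y hX hY _)
    · intro δ
      rw [AlgHom.comp_apply, AlgHom.comp_apply, MvPowerSeries.rename_X, hΦ, FPB_Z_in]
      revert δ
      rw [Fin.forall_fin_two]
      exact ⟨by rw [hU]; rfl, by rw [hV]; rfl⟩
  · rw [Function.update_of_ne hk]
    refine FPB_ext (Φ.comp (MvPowerSeries.rename (fun δ : Fin 2 => (k, δ))))
      (MvPowerSeries.rename (fun δ : Fin 2 => (k, δ))) ?_ ?_ (F k)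
    · intro δ
      rw [AlgHom.comp_apply, MvPowerSeries.rename_X, hΦ]
      exact FPB_hi1 _ (FPB_Z_co k0 X Y hX hY _)
    · intro δ
      rw [AlgHom.comp_apply, MvPowerSeries.rename_X, hΦ, FPB_Z_out _ _ _ _ hk]

/-- The derivations. -/
theorem FPB_der {m : ℕ} (k0 : Fin m) (X Y : R2) (e : ℕ)
    (hj : ∃ ε : R2, IsUnit ε ∧ jac X Y = U ^ e * V ^ 0 * ε) :
    ∃ δ : Fin m × Fin 2 → Derivation ℂ (MvPowerSeries (Fin m × Fin 2) ℂ)
      (MvPowerSeries (Fin m × Fin 2) ℂ), ∀ i j, δ j (FPB_Z k0 X Y i) =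
        if i = j then ((MvPowerSeries.X (k0, 0) : MvPowerSeries (Fin m × Fin 2) ℂ)) ^ e
        else 0 := by
  obtain ⟨η, hη, hje⟩ := hj
  obtain ⟨η', hη'⟩ := isUnit_iff_exists_inv'.1 hη
  obtain ⟨ι, hι⟩ : ∃ ι : R2 →ₐ[ℂ] MvPowerSeries (Fin m × Fin 2) ℂ,
    ι = MvPowerSeries.rename (fun δ : Fin 2 => (k0, δ)) := ⟨_, rfl⟩
  have hpi : ∀ (δ : Fin 2) (g : R2), MvPowerSeries.pderiv ℂ (k0, δ) (ι g) = ι (pd δ g) := by
    intro δ g
    rw [hι]
    exact FPB_in k0 δ g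
  have hu : ι U = MvPowerSeries.X (k0, 0) := by
    rw [hι]
    exact MvPowerSeries.rename_X _ _
  have hJ : ι (η' * jac X Y) = (MvPowerSeries.X (k0, 0)) ^ e := by
    rw [hje, pow_zero, mul_one]
    have h1 : η' * (U ^ e * η) = U ^ e := by
      linear_combination U ^ e * hη'
    rw [h1, map_pow, hu]
  refine ⟨fun j => if j.1 = k0 then
      (if j.2 = 0 then
        ι (η' * pd 1 Y) • MvPowerSeries.pderiv ℂ (k0, 0) -
          ι (η' * pd 0 Y) • MvPowerSeries.pderiv ℂ (k0, 1)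
      else
        ι (η' * pd 0 X) • MvPowerSeries.pderiv ℂ (k0, 1) -
          ι (η' * pd 1 X) • MvPowerSeries.pderiv ℂ (k0, 0))
    else ((MvPowerSeries.X (k0, 0) : MvPowerSeries (Fin m × Fin 2) ℂ)) ^ e •
      MvPowerSeries.pderiv ℂ j, ?_⟩
  rintro ⟨l', δ'⟩ ⟨l, δ⟩
  dsimp only
  by_cases hl : l = k0
  · subst hl
    by_cases hl' : l' = l
    · subst hl'
      rw [FPB_Z_in, ← hι, if_pos rfl]
      have hd : δ' = 0 ∨ δ' = 1 := by
        revert δ'
        decide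
      have hd2 : δ = 0 ∨ δ = 1 := by
        revert δ
        decide
      rcases hd with rfl | rfl <;> rcases hd2 with rfl | rfl
      · rw [if_pos rfl, if_pos rfl, ← hJ, Derivation.sub_apply, Derivation.smul_apply,
          Derivation.smul_apply, smul_eq_mul, smul_eq_mul, hpi, hpi, ← map_mul, ← map_mul,
          ← map_sub]
        congr 1
        show η' * pd 1 Y * pd 0 X - η' * pd 0 Y * pd 1 X = η' * (pd 0 X * pd 1 Y - pd 1 X * pd 0 Y)
        ring
      · rw [if_neg (by decide), if_neg (by simp), Derivation.sub_apply, Derivation.smul_apply,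
          Derivation.smul_apply, smul_eq_mul, smul_eq_mul, hpi, hpi, ← map_mul, ← map_mul,
          ← map_sub]
        have h0 : η' * pd 0 X * pd 1 X - η' * pd 1 X * pd 0 X = 0 := by ring
        show ι (η' * pd 0 X * pd 1 X - η' * pd 1 X * pd 0 X) = 0
        rw [h0, map_zero]
      · rw [if_pos rfl, if_neg (by simp), Derivation.sub_apply, Derivation.smul_apply,
          Derivation.smul_apply, smul_eq_mul, smul_eq_mul, hpi, hpi, ← map_mul, ← map_mul,
          ← map_sub]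
        have h0 : η' * pd 1 Y * pd 0 Y - η' * pd 0 Y * pd 1 Y = 0 := by ring
        show ι (η' * pd 1 Y * pd 0 Y - η' * pd 0 Y * pd 1 Y) = 0
        rw [h0, map_zero]
      · rw [if_neg (by decide), if_pos rfl, ← hJ, Derivation.sub_apply, Derivation.smul_apply,
          Derivation.smul_apply, smul_eq_mul, smul_eq_mul, hpi, hpi, ← map_mul, ← map_mul,
          ← map_sub]
        congr 1
        show η' * pd 0 X * pd 1 Y - η' * pd 1 X * pd 0 Y = η' * (pd 0 X * pd 1 Y - pd 1 X * pd 0 Y)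
        ring
    · have hne : ((l', δ') : Fin m × Fin 2) ≠ (l, δ) := fun h => hl' (Prod.mk.inj h).1
      have hz : ∀ t : Fin 2, MvPowerSeries.pderiv ℂ (l, t)
          (MvPowerSeries.X (l', δ') : MvPowerSeries (Fin m × Fin 2) ℂ) = 0 := by
        intro t
        exact MvPowerSeries.pderiv_X_of_ne (fun h => hl' (Prod.mk.inj h).1)
      rw [FPB_Z_out _ _ _ _ hl', if_neg hne, if_pos rfl]
      split_ifs
      · rw [Derivation.sub_apply, Derivation.smul_apply, Derivation.smul_apply, hz, hz,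
          smul_zero, smul_zero, sub_zero]
      · rw [Derivation.sub_apply, Derivation.smul_apply, Derivation.smul_apply, hz, hz,
          smul_zero, smul_zero, sub_zero]
  · rw [if_neg hl, Derivation.smul_apply]
    by_cases hl' : l' = k0
    · subst hl'
      have hne : ((l', δ') : Fin m × Fin 2) ≠ (l, δ) := fun h => hl (Prod.mk.inj h).1.symm
      rw [FPB_Z_in, if_neg hne, FPB_out _ _ hl, smul_zero]
    · rw [FPB_Z_out _ _ _ _ hl']
      by_cases hij : ((l', δ') : Fin m × Fin 2) = (l, δ)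
      · rw [hij, if_pos rfl, MvPowerSeries.pderiv_X_self, smul_eq_mul, mul_one]
      · rw [if_neg hij, MvPowerSeries.pderiv_X_of_ne hij, smul_zero]

/-- FPB -/
theorem fpb {m r : ℕ} (a : Fin r → (Fin m →₀ ℕ)) (κ : Fin r → ℂ) (F : Fin m → R2) (k0 : Fin m)
    {g : R2} {e : ℕ} {X Y : R2} (hp : Path (F k0) g e 0 X Y) (b : Polynomial ℂ)
    (h : FEq (MvPowerSeries (Fin m × Fin 2) ℂ) (GC a κ F) b) :
    ∃ M : ℕ, (e = 0 → M = 0) ∧ FEqV (MvPowerSeries (Fin m × Fin 2) ℂ)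
      (GC a κ (Function.update F k0 g)) ((MvPowerSeries.X (k0, 0)) ^ M) b := by
  obtain ⟨Φ, hΦ⟩ := FPB_hom k0 X Y hp.cX hp.cY
  obtain ⟨δ, hδ⟩ := FPB_der k0 X Y e hp.jac
  obtain ⟨M, hM⟩ := pbk Φ (fun j => by rw [hΦ]; exact FPB_hi1 _ (FPB_Z_co k0 X Y hp.cX hp.cY j))
    ((MvPowerSeries.X (k0, 0)) ^ e) δ (fun i j => by rw [hΦ]; exact hδ i j) (GC a κ F) 1 b h
  refine ⟨e * M, fun h0 => by rw [h0, zero_mul], ?_⟩
  have hG : Φ (GC a κ F) = GC a κ (Function.update F k0 g) := by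
    unfold GC
    rw [map_sum]
    refine sum_congr rfl fun i _ => ?_
    rw [map_mul, FPB_C, map_prod]
    congr 1
    refine prod_congr rfl fun k _ => ?_
    rw [map_pow, FPB_ren k0 X Y hp.cX hp.cY Φ hΦ F k, hp.eq]
  rw [hG, map_one, mul_one, ← pow_mul] at hM
  exact hM

theorem spf {f : R2} {N : ℕ} (hN : 0 < N) (h : SpD f N) :
    ∃ n a X Y, Path f ((U ^ n * V) ^ N) a 0 X Y := by
  obtain ⟨n, a, X, Y, hp⟩ := h
  have hco : co (U ^ N) 0 0 = 0 := by
    obtain ⟨k, rfl⟩ : ∃ k, N = k + 1 := ⟨N - 1, by omega⟩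
    rw [pow_succ']
    exact PTH_co_mul _ _ PTH_coU
  have hjac : jac (U ^ N) V = (N : R2) * U ^ (N - 1) := by
    unfold jac
    have h1 : pd 0 (U ^ N) = (N : R2) * U ^ (N - 1) := by
      show MvPowerSeries.pderiv ℂ 0 (U ^ N) = _
      rw [Derivation.leibniz_pow]
      have h2 : MvPowerSeries.pderiv ℂ 0 U = (1 : R2) := PTH_pdU.1
      rw [h2, smul_eq_mul, mul_one, nsmul_eq_mul]
    rw [PTH_pdV.1, PTH_pdV.2, h1]
    ring
  obtain ⟨X1, Y1, hp1⟩ := PTH_step hp (U ^ N) V (N : R2) (a' := N * a + (N - 1)) (b' := 0)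
    hco PTH_coV (by rw [hjac, pow_add, pow_mul]; ring) (by
      rw [MvPowerSeries.isUnit_iff_constantCoeff, map_natCast, isUnit_iff_ne_zero]
      exact_mod_cast hN.ne')
  refine ⟨n, N * a + (N - 1), X1, Y1, ?_⟩
  obtain ⟨F, hF, hFU, hFV⟩ := sb_hom (U ^ N) V hco PTH_coV
  have h3 : sb (U ^ N) V (U ^ n * V ^ N) = (U ^ n * V) ^ N := by
    rw [← hF, map_mul, map_pow, map_pow, hFU, hFV, mul_pow, ← pow_mul, ← pow_mul, mul_comm N n]
  rw [h3] at hp1
  exact hp1

theorem nodp {f : R2} (h : Node f) : ∃ X Y, Path f (U * V) 0 0 X Y := by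
  obtain ⟨ψ, hψ⟩ := h
  obtain ⟨X, Y, hp⟩ := path_psi (path_id f) ψ (fun h => absurd h (by norm_num))
    (fun h => absurd h (by norm_num))
  rw [hψ] at hp
  exact ⟨X, Y, hp⟩

end Pool.Agent.H56.CT
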