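import Pool.Agent.H56.CT.ZDJ
import Pool.Agent.H56.CT.ZUN

/-!
# ZDB: the two columns `M1 a_t`, `M2 a_t`

`a' = dbE t u M1 M2 a`.  (1) `IsCFace a' τ ↔ IsCFace a τ`: from `k' > 0` for `a'` take `k_t = M1 k'_t + M2 k'_u`, `k_u = 1`, `k_j = k'_j`; from `k > 0` take `k'_t = k_t / (2 M1)`, `k'_u = k_t / (2 M2)`: the values `a'_i·k' = a_i·k` agree (`a_iu = 0`).
(2) `EqvE a a'`: `A` sends `x` to `(M1 x_t, M2 x_t)` in the coordinates `t`, `u`, the identity otherwise; `B` sends `x'` to `α x'_t + β x'_u` in the coordinate `t` (`M1 α + M2 β = 1`), to `0` in the coordinate `u`.  So `faceRank_eqv`, `nvol_eqv`.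
(3) for a compact face (nonempty if `faceRank ≥ 1`) the identity `JfunW .. a' = C(c) (JfunW .. a - JfunW .. a)` of rational functions: `goodW`, `dbl_face`, `ratW` (`GoodR` of the right side: `GoodR.mul` with a constant, `GoodR.poly`, `GoodR.add`).
(4) sum up: `topZetaLW` is linear in the `J_τ`.
-/

set_option autoImplicit false

namespace Pool.Agent.H56.CT

open Finset

theorem ZDB_sum {n r : ℕ} (t u : Fin n) (htu : t ≠ u) (M1 M2 : ℕ) (a : Fin r → (Fin n →₀ ℕ))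
    (hu : ∀ i, a i u = 0) (k k' : Fin n → ℝ) (ht : k t = M1 * k' t + M2 * k' u)
    (hj : ∀ j, j ≠ t → j ≠ u → k j = k' j) (i : Fin r) :
    ∑ j, (dbE t u M1 M2 a i j : ℝ) * k' j = ∑ j, (a i j : ℝ) * k j := by
  rw [← sub_eq_zero, ← sum_sub_distrib]
  rw [Finset.sum_eq_add t u htu]
  · rw [dbE_apply t u htu, dbE_apply t u htu, if_pos rfl, if_neg htu.symm, if_pos rfl, ht, hu]
    push_cast
    ring
  · intro j _ h
    rw [dbE_apply t u htu, if_neg h.1, if_neg h.2, hj j h.1 h.2, sub_self]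
  · intro h; exact absurd (mem_univ _) h
  · intro h; exact absurd (mem_univ _) h

theorem ZDB_face {n r : ℕ} (t u : Fin n) (htu : t ≠ u) (M1 M2 : ℕ) (h1 : 0 < M1)
    (h2 : 0 < M2) (a : Fin r → (Fin n →₀ ℕ)) (hu : ∀ i, a i u = 0) (τ : Finset (Fin r)) :
    H22.T7.IsCFace (dbE t u M1 M2 a) τ ↔ H22.T7.IsCFace a τ := by
  have h1' : (0 : ℝ) < M1 := by exact_mod_cast h1
  have h2' : (0 : ℝ) < M2 := by exact_mod_cast h2
  constructor
  · rintro ⟨k', hk, hτ⟩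
    refine ⟨fun j => if j = t then M1 * k' t + M2 * k' u else if j = u then 1 else k' j, ?_, ?_⟩
    · intro j
      have := hk t
      have := hk u
      have := hk j
      dsimp only
      split_ifs
      · positivity
      · norm_num
      · assumption
    · intro l
      rw [hτ l]
      have hs := ZDB_sum t u htu M1 M2 a hu
        (fun j => if j = t then M1 * k' t + M2 * k' u else if j = u then 1 else k' j) k'
        (by simp) (fun j h3 h4 => by simp [h3, h4])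
      simp only [hs]
  · rintro ⟨k, hk, hτ⟩
    refine ⟨fun j => if j = t then k t / (2 * M1) else if j = u then k t / (2 * M2) else k j, ?_, ?_⟩
    · intro j
      have := hk t
      have := hk j
      dsimp only
      split_ifs
      · positivity
      · positivity
      · assumption
    · intro l
      rw [hτ l]
      have hs := ZDB_sum t u htu M1 M2 a hu k
        (fun j => if j = t then k t / (2 * M1) else if j = u then k t / (2 * M2) else k j)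
        (by simp only [if_pos, if_neg htu.symm]; field_simp; ring) (fun j h3 h4 => by simp [h3, h4])
      simp only [hs]

theorem ZDB_eqv {n r : ℕ} (t u : Fin n) (htu : t ≠ u) (M1 M2 : ℕ)
    (hcop : Nat.Coprime M1 M2) (a : Fin r → (Fin n →₀ ℕ)) (hu : ∀ i, a i u = 0) :
    EqvE a (dbE t u M1 M2 a) := by
  constructor
  · refine ⟨fun j' j => if j' = t then (if j = t then (M1 : ℤ) else 0) else
      if j' = u then (if j = t then (M2 : ℤ) else 0) else (if j = j' then 1 else 0), ?_⟩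
    intro i j'
    rw [dbE_apply t u htu]
    by_cases e1 : j' = t
    · subst e1
      simp
    · by_cases e2 : j' = u
      · subst e2
        simp [e1]
      · simp [e1, e2]
  · obtain ⟨α, β, hαβ⟩ : ∃ α β : ℤ, α * M1 + β * M2 = 1 := by
      have := Nat.isCoprime_iff_coprime.2 hcop
      exact this
    refine ⟨fun j j' => if j = t then (if j' = t then α else if j' = u then β else 0) else
      if j = u then 0 else (if j' = j then 1 else 0), ?_⟩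
    intro i j
    by_cases e1 : j = t
    · subst e1
      have hs : ∑ j', (if j' = j then α else if j' = u then β else 0) * (dbE j u M1 M2 a i j' : ℤ) =
          α * (dbE j u M1 M2 a i j : ℤ) + β * (dbE j u M1 M2 a i u : ℤ) := by
        rw [Finset.sum_eq_add j u htu]
        · rw [if_pos rfl, if_neg htu.symm, if_pos rfl]
        · intro j' _ h
          rw [if_neg h.1, if_neg h.2, zero_mul]
        · intro h; exact absurd (mem_univ _) h
        · intro h; exact absurd (mem_univ _) h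
      simp only [if_true]
      rw [hs, dbE_apply j u htu, dbE_apply j u htu, if_pos rfl, if_neg htu.symm, if_pos rfl]
      push_cast
      linear_combination (-(a i j : ℤ)) * hαβ
    · by_cases e2 : j = u
      · subst e2
        simp [e1, hu i]
      · simp only [if_neg e1, if_neg e2, ite_mul, one_mul, zero_mul, sum_ite_eq', mem_univ, if_true]
        rw [dbE_apply t u htu, if_neg e1, if_neg e2]

theorem ZDB_pos {n : ℕ} (t u : Fin n) (ν : Fin n → ℚ) (hν : ∀ j, 0 < ν j) {x y : ℚ} (hx : 0 < x)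
    (hy : 0 < y) (j : Fin n) : 0 < upd2 t u ν x y j := by
  unfold upd2
  split_ifs
  · exact hx
  · exact hy
  · exact hν j

theorem ZDB_J {n r : ℕ} (t u : Fin n) (htu : t ≠ u) (M1 M2 : ℕ) (h1 : 0 < M1) (h2 : 0 < M2)
    (hcop : Nat.Coprime M1 M2) (ν : Fin n → ℚ) (hν : ∀ j, 0 < ν j) (ν1 ν2 : ℚ) (hν1 : 0 < ν1)
    (hν2 : 0 < ν2) (hne : (M1 : ℚ) * ν2 - M2 * ν1 ≠ 0) (a : Fin r → (Fin n →₀ ℕ))
    (hu : ∀ i, a i u = 0) (τ : Finset (Fin r)) (hτ : τ.Nonempty)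
    (𝒟' : H22.FaceCones (dbE t u M1 M2 a) τ) (𝒟 : H22.FaceCones a τ) :
    JfunW (upd2 t u ν ν1 ν2) (dbE t u M1 M2 a) τ 𝒟' =
      RatFunc.C ((((M1 : ℚ) * ν2 - M2 * ν1 : ℚ) : ℂ)⁻¹) *
        (JfunW (upd2 t u ν (ν1 / M1) 1) a τ 𝒟 - JfunW (upd2 t u ν (ν2 / M2) 1) a τ 𝒟) := by
  have h1' : (0 : ℚ) < M1 := by exact_mod_cast h1
  have h2' : (0 : ℚ) < M2 := by exact_mod_cast h2
  have g' := goodW (upd2 t u ν ν1 ν2) (ZDB_pos t u ν hν hν1 hν2) (dbE t u M1 M2 a) τ 𝒟'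
  have g1 := goodW (upd2 t u ν (ν1 / M1) 1) (ZDB_pos t u ν hν (by positivity) one_pos) a τ 𝒟
  have g2 := goodW (upd2 t u ν (ν2 / M2) 1) (ZDB_pos t u ν hν (by positivity) one_pos) a τ 𝒟
  have g3 := (H22.GoodR.poly (Polynomial.C ((((M1 : ℚ) * ν2 - M2 * ν1 : ℚ) : ℂ)⁻¹))).mul
    (g1.add ((H22.GoodR.poly (Polynomial.C (-1 : ℂ))).mul g2))
  have e : (algebraMap (Polynomial ℂ) (RatFunc ℂ)) (Polynomial.C ((((M1 : ℚ) * ν2 - M2 * ν1 : ℚ) : ℂ)⁻¹)) *
      (JfunW (upd2 t u ν (ν1 / M1) 1) a τ 𝒟 +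
        (algebraMap (Polynomial ℂ) (RatFunc ℂ)) (Polynomial.C (-1 : ℂ)) * JfunW (upd2 t u ν (ν2 / M2) 1) a τ 𝒟) =
      RatFunc.C ((((M1 : ℚ) * ν2 - M2 * ν1 : ℚ) : ℂ)⁻¹) *
        (JfunW (upd2 t u ν (ν1 / M1) 1) a τ 𝒟 - JfunW (upd2 t u ν (ν2 / M2) 1) a τ 𝒟) := by
    rw [RatFunc.algebraMap_C, RatFunc.algebraMap_C, map_neg, map_one]
    ring
  rw [e] at g3
  refine ratW g' (g3.congr fun s hs => ?_)
  have hd := dbl_face t u htu M1 M2 h1 h2 hcop ν hν ν1 ν2 hν1 hν2 hne a hu τ hτ 𝒟' 𝒟 𝒟 s hs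
  rw [hd]
  simp only [Polynomial.eval_C]
  push_cast
  ring

theorem ZDB_ne {n r : ℕ} (a : Fin r → (Fin n →₀ ℕ)) (τ : Finset (Fin r)) (h : 1 ≤ H22.faceRank a τ) :
    τ.Nonempty := by
  by_contra h0
  rw [not_nonempty_iff_eq_empty] at h0
  subst h0
  unfold H22.faceRank at h
  simp at h

theorem ZDB_isFace {n r : ℕ} {a : Fin r → (Fin n →₀ ℕ)} {τ : Finset (Fin r)} (h : H22.T7.IsCFace a τ) :
    H22.IsFace a τ := by
  obtain ⟨k, hk, hτ⟩ := h
  exact ⟨k, fun j => (hk j).le, hτ⟩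

/-- ZDB -/
theorem topZeta_dbl {n r : ℕ} (t u : Fin n) (htu : t ≠ u) (M1 M2 : ℕ) (h1 : 0 < M1)
    (h2 : 0 < M2) (hcop : Nat.Coprime M1 M2) (ν : Fin n → ℚ) (hν : ∀ j, 0 < ν j) (ν1 ν2 : ℚ)
    (hν1 : 0 < ν1) (hν2 : 0 < ν2) (hne : (M1 : ℚ) * ν2 - M2 * ν1 ≠ 0)
    (a : Fin r → (Fin n →₀ ℕ)) (hu : ∀ i, a i u = 0)
    (𝒟' : ∀ τ, H22.FaceCones (dbE t u M1 M2 a) τ) (𝒯' : ∀ τ, H22.FaceTriang (dbE t u M1 M2 a) τ)
    (𝒟 : ∀ τ, H22.FaceCones a τ) (𝒯 : ∀ τ, H22.FaceTriang a τ) :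
    topZetaLW (upd2 t u ν ν1 ν2) (dbE t u M1 M2 a) 𝒟' 𝒯' =
      RatFunc.C ((((M1 : ℚ) * ν2 - M2 * ν1 : ℚ) : ℂ)⁻¹) *
        (topZetaLW (upd2 t u ν (ν1 / M1) 1) a 𝒟 𝒯 -
          topZetaLW (upd2 t u ν (ν2 / M2) 1) a 𝒟 𝒯) := by
  classical
  have hE := ZDB_eqv t u htu M1 M2 hcop a hu
  have hJ := fun (τ : Finset (Fin r)) (hτ : τ.Nonempty) =>
    ZDB_J t u htu M1 M2 h1 h2 hcop ν hν ν1 ν2 hν1 hν2 hne a hu τ hτ (𝒟' τ) (𝒟 τ)
  unfold topZetaLW
  have f1 : univ.filter (fun τ : Finset (Fin r) => H22.T7.IsCFace (dbE t u M1 M2 a) τ ∧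
      H22.faceRank (dbE t u M1 M2 a) τ = 1) =
      univ.filter (fun τ : Finset (Fin r) => H22.T7.IsCFace a τ ∧ H22.faceRank a τ = 1) := by
    ext τ
    rw [mem_filter, mem_filter, ZDB_face t u htu M1 M2 h1 h2 a hu, faceRank_eqv hE]
  have f2 : univ.filter (fun τ : Finset (Fin r) => H22.T7.IsCFace (dbE t u M1 M2 a) τ ∧
      2 ≤ H22.faceRank (dbE t u M1 M2 a) τ) =
      univ.filter (fun τ : Finset (Fin r) => H22.T7.IsCFace a τ ∧ 2 ≤ H22.faceRank a τ) := by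
    ext τ
    rw [mem_filter, mem_filter, ZDB_face t u htu M1 M2 h1 h2 a hu, faceRank_eqv hE]
  have s1 : ∑ τ ∈ univ.filter (fun τ : Finset (Fin r) => H22.T7.IsCFace a τ ∧ H22.faceRank a τ = 1),
      JfunW (upd2 t u ν ν1 ν2) (dbE t u M1 M2 a) τ (𝒟' τ) =
      ∑ τ ∈ univ.filter (fun τ : Finset (Fin r) => H22.T7.IsCFace a τ ∧ H22.faceRank a τ = 1),
        RatFunc.C ((((M1 : ℚ) * ν2 - M2 * ν1 : ℚ) : ℂ)⁻¹) *
        (JfunW (upd2 t u ν (ν1 / M1) 1) a τ (𝒟 τ) - JfunW (upd2 t u ν (ν2 / M2) 1) a τ (𝒟 τ)) := by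
    refine sum_congr rfl fun τ hτ => ?_
    rw [mem_filter] at hτ
    exact hJ τ (ZDB_ne a τ hτ.2.2.ge)
  have s2 : ∑ τ ∈ univ.filter (fun τ : Finset (Fin r) => H22.T7.IsCFace a τ ∧ 2 ≤ H22.faceRank a τ),
      (-1) ^ (H22.faceRank (dbE t u M1 M2 a) τ - 1) * (H22.nvol (𝒯' τ) : RatFunc ℂ) *
        JfunW (upd2 t u ν ν1 ν2) (dbE t u M1 M2 a) τ (𝒟' τ) =
      ∑ τ ∈ univ.filter (fun τ : Finset (Fin r) => H22.T7.IsCFace a τ ∧ 2 ≤ H22.faceRank a τ),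
        RatFunc.C ((((M1 : ℚ) * ν2 - M2 * ν1 : ℚ) : ℂ)⁻¹) *
        ((-1) ^ (H22.faceRank a τ - 1) * (H22.nvol (𝒯 τ) : RatFunc ℂ) *
          JfunW (upd2 t u ν (ν1 / M1) 1) a τ (𝒟 τ) -
          (-1) ^ (H22.faceRank a τ - 1) * (H22.nvol (𝒯 τ) : RatFunc ℂ) *
          JfunW (upd2 t u ν (ν2 / M2) 1) a τ (𝒟 τ)) := by
    refine sum_congr rfl fun τ hτ => ?_
    rw [mem_filter] at hτ
    have hne' := ZDB_ne a τ (le_trans (by norm_num) hτ.2.2)
    rw [hJ τ hne', faceRank_eqv hE, nvol_eqv hE τ hne' (ZDB_isFace hτ.2.1) (𝒯 τ) (𝒯' τ)]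
    ring
  rw [f1, f2, s1, s2, ← mul_sum, ← mul_sum, sum_sub_distrib, sum_sub_distrib]
  ring

end Pool.Agent.H56.CT
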