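import Pool.Agent.H56.CT.SDefs
import Pool.Agent.H56.CT.ZDB

/-!
# SDB: the identities between the zeta functions of systems

`t = finProdFinEquiv (k, 0)`, `u = finProdFinEquiv (k, 1)`.  All weights are positive (`hS`, and the new ones).  `ZS` may be computed with arbitrary decompositions (`topZeta_uniq`).
`zs_dbl`: `g = gcd N1 N2`, `N_i = g M_i`, `M1`, `M2` coprime.  `topZeta_dbl` for `a := pbE a (update S k ⟨g, _, 0, 1⟩)` (the exponents do not depend on the weights): `pbE a (update S k ⟨N1, _, N2, _⟩) = dbE t u M1 M2 (..)` (columns of other variables agree; `M1 * (g a_ik) = N1 a_ik`), the weights: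
`pbW (update S k ⟨N1, ν1, N2, ν2⟩) = upd2 t u (pbW S) ν1 ν2` etc.; `(M1 ν2 - M2 ν1)⁻¹ = g / (N1 ν2 - N2 ν1)`, `ν1 / M1 = g (ν1 / N1)`.  A constant `c : ℂ` acts as `RatFunc.C c *` (`RatFunc.smul_eq_C_mul` or `Algebra.smul_def`).
`zs_swap`: `topZeta_perm` for `π = Equiv.swap t u`.
`zs_one`: `N * (ν / N) = ν`.
`ms_dbl`, `ms_swap`: induction on the list; for `k' :: l`: all terms of `(M k').sum` transform (`k' ≠ k`, `Function.update_comm`), `Finsupp.sum` is a finite sum, `smul` distributes.  The weights of the types in the support of `M k'` are positive (`hM`).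
-/

set_option autoImplicit false

namespace Pool.Agent.H56.CT

open Finset

theorem SDB_pos {m : ℕ} (S : Fin m → Slt) (hS : ∀ k, (S k).Pos) (j : Fin (m * 2)) :
    0 < pbW S j := by
  unfold pbW Slt.w
  split_ifs
  · exact (hS _).1
  · exact (hS _).2

theorem SDB_upos {m : ℕ} (S : Fin m → Slt) (hS : ∀ k, (S k).Pos) (k : Fin m) (X : Slt)
    (hX : X.Pos) : ∀ j, (Function.update S k X j).Pos := by
  intro j
  by_cases h : j = k
  · subst h
    rwa [Function.update_self]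
  · rw [Function.update_of_ne h]
    exact hS j

theorem SDB_ZS {m r : ℕ} (a : Fin r → (Fin m →₀ ℕ)) (S : Fin m → Slt) {ν : Fin (m * 2) → ℚ}
    {b : Fin r → (Fin (m * 2) →₀ ℕ)} (hW : pbW S = ν) (hE : pbE a S = b) (hν : ∀ j, 0 < ν j)
    (𝒟 : ∀ τ, H22.FaceCones b τ) (𝒯 : ∀ τ, H22.FaceTriang b τ) :
    ZS a S = topZetaLW ν b 𝒟 𝒯 := by
  subst hW
  subst hE
  exact topZeta_uniq _ hν _ _ _ _ _

theorem SDB_tu {m : ℕ} (k : Fin m) :
    (finProdFinEquiv (k, (0 : Fin 2)) : Fin (m * 2)) ≠ finProdFinEquiv (k, (1 : Fin 2)) := by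
  intro h
  have := finProdFinEquiv.injective h
  simp at this

theorem SDB_W {m : ℕ} (S : Fin m → Slt) (k : Fin m) (X : Slt) :
    pbW (Function.update S k X) =
      upd2 (finProdFinEquiv (k, (0 : Fin 2))) (finProdFinEquiv (k, (1 : Fin 2))) (pbW S) X.ν1
        X.ν2 := by
  funext j
  obtain ⟨⟨k', δ⟩, rfl⟩ := finProdFinEquiv.surjective j
  unfold upd2
  rw [pbW_apply, pbW_apply]
  simp only [EmbeddingLike.apply_eq_iff_eq, Prod.mk.injEq]
  by_cases hk : k' = k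
  · subst hk
    rw [Function.update_self]
    fin_cases δ <;> simp [Slt.w]
  · rw [Function.update_of_ne hk]
    simp [hk]

theorem SDB_E {m r : ℕ} (a : Fin r → (Fin m →₀ ℕ)) (S : Fin m → Slt) (k : Fin m) (g M1 M2 : ℕ)
    (x y z w : ℚ) :
    pbE a (Function.update S k ⟨g * M1, x, g * M2, y⟩) =
      dbE (finProdFinEquiv (k, (0 : Fin 2))) (finProdFinEquiv (k, (1 : Fin 2))) M1 M2
        (pbE a (Function.update S k ⟨g, z, 0, w⟩)) := by
  funext i
  ext j
  obtain ⟨⟨k', δ⟩, rfl⟩ := finProdFinEquiv.surjective j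
  rw [dbE_apply _ _ (SDB_tu k), pbE_apply, pbE_apply, pbE_apply]
  simp only [EmbeddingLike.apply_eq_iff_eq, Prod.mk.injEq]
  by_cases hk : k' = k
  · subst hk
    rw [Function.update_self, Function.update_self]
    fin_cases δ
    · simp [Slt.N]
      ring
    · simp [Slt.N]
      ring
  · rw [Function.update_of_ne hk, Function.update_of_ne hk]
    simp [hk]

theorem zs_dbl {m r : ℕ} (a : Fin r → (Fin m →₀ ℕ)) (S : Fin m → Slt) (hS : ∀ k, (S k).Pos)
    (k : Fin m) (N1 N2 : ℕ) (ν1 ν2 : ℚ) (hN1 : 0 < N1) (hN2 : 0 < N2) (h1 : 0 < ν1) (h2 : 0 < ν2)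
    (hne : ν1 * N2 ≠ ν2 * N1) :
    ZS a (Function.update S k ⟨N1, ν1, N2, ν2⟩) =
      (((Nat.gcd N1 N2 : ℚ) / ((N1 : ℚ) * ν2 - (N2 : ℚ) * ν1) : ℚ) : ℂ) •
        (ZS a (Function.update S k ⟨Nat.gcd N1 N2, (Nat.gcd N1 N2 : ℚ) * (ν1 / N1), 0, 1⟩) -
          ZS a (Function.update S k ⟨Nat.gcd N1 N2, (Nat.gcd N1 N2 : ℚ) * (ν2 / N2), 0, 1⟩)) := by
  obtain ⟨M1, M2, hcop, e1, e2⟩ := Nat.exists_coprime N1 N2
  have hg : 0 < Nat.gcd N1 N2 := Nat.gcd_pos_of_pos_left _ hN1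
  generalize hgg : Nat.gcd N1 N2 = g at *
  rw [mul_comm] at e1 e2
  subst e1 e2
  have hM1 : 0 < M1 := Nat.pos_of_mul_pos_left hN1
  have hM2 : 0 < M2 := Nat.pos_of_mul_pos_left hN2
  have hgq : (0 : ℚ) < g := by exact_mod_cast hg
  have hM1q : (0 : ℚ) < M1 := by exact_mod_cast hM1
  have hM2q : (0 : ℚ) < M2 := by exact_mod_cast hM2
  push_cast at hne
  have hne' : (M1 : ℚ) * ν2 - M2 * ν1 ≠ 0 := by
    intro h
    apply hne
    linear_combination (-(g : ℚ)) * h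
  have f1 : (g : ℚ) * (ν1 / ((g * M1 : ℕ) : ℚ)) = ν1 / M1 := by
    push_cast
    field_simp
  have f2 : (g : ℚ) * (ν2 / ((g * M2 : ℕ) : ℚ)) = ν2 / M2 := by
    push_cast
    field_simp
  have f3 : (g : ℚ) / (((g * M1 : ℕ) : ℚ) * ν2 - ((g * M2 : ℕ) : ℚ) * ν1) =
      ((M1 : ℚ) * ν2 - M2 * ν1)⁻¹ := by
    push_cast
    rw [show (g : ℚ) * M1 * ν2 - g * M2 * ν1 = g * ((M1 : ℚ) * ν2 - M2 * ν1) by ring,
      div_mul_eq_div_div, div_self hgq.ne', one_div]
  rw [f1, f2, f3]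
  have hpos := SDB_pos S hS
  set b := pbE a (Function.update S k ⟨g, 0, 0, 1⟩) with hb
  have hb' : ∀ z : ℚ, pbE a (Function.update S k ⟨g, z, 0, 1⟩) = b := by
    intro z
    have h3 := SDB_E a S k g 1 0 z 1 0 1
    have h4 := SDB_E a S k g 1 0 0 1 0 1
    simp only [mul_one, mul_zero] at h3 h4
    rw [hb, h3, ← h4]
  have hu : ∀ i, b i (finProdFinEquiv (k, (1 : Fin 2))) = 0 := by
    intro i
    rw [hb, pbE_apply, Function.update_self]
    simp [Slt.N]
  have hp : ∀ x y : ℚ, 0 < x → 0 < y → ∀ j, 0 < upd2 (finProdFinEquiv (k, (0 : Fin 2)))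
      (finProdFinEquiv (k, (1 : Fin 2))) (pbW S) x y j :=
    fun x y hx hy j => ZDB_pos _ _ _ hpos hx hy j
  rw [SDB_ZS a _ (SDB_W S k _) (SDB_E a S k g M1 M2 ν1 ν2 0 1) (hp _ _ h1 h2)
      (fun τ => (H60.ConeExist.exists_faceCones _ τ).some)
      (fun τ => (H60.ConeExist.exists_faceTriang _ τ).some),
    SDB_ZS a _ (SDB_W S k ⟨g, ν1 / M1, 0, 1⟩) (hb' _) (hp _ _ (by positivity) one_pos)
      (fun τ => (H60.ConeExist.exists_faceCones _ τ).some)
      (fun τ => (H60.ConeExist.exists_faceTriang _ τ).some),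
    SDB_ZS a _ (SDB_W S k ⟨g, ν2 / M2, 0, 1⟩) (hb' _) (hp _ _ (by positivity) one_pos)
      (fun τ => (H60.ConeExist.exists_faceCones _ τ).some)
      (fun τ => (H60.ConeExist.exists_faceTriang _ τ).some)]
  rw [topZeta_dbl _ _ (SDB_tu k) M1 M2 hM1 hM2 hcop (pbW S) hpos ν1 ν2 h1 h2 hne' b hu _ _
      (fun τ => (H60.ConeExist.exists_faceCones _ τ).some)
      (fun τ => (H60.ConeExist.exists_faceTriang _ τ).some), RatFunc.smul_eq_C_mul]
  push_cast
  rfl

theorem zs_swap {m r : ℕ} (a : Fin r → (Fin m →₀ ℕ)) (S : Fin m → Slt) (hS : ∀ k, (S k).Pos)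
    (k : Fin m) (N1 N2 : ℕ) (ν1 ν2 : ℚ) (h1 : 0 < ν1) (h2 : 0 < ν2) :
    ZS a (Function.update S k ⟨N1, ν1, N2, ν2⟩) =
      ZS a (Function.update S k ⟨N2, ν2, N1, ν1⟩) := by
  set t : Fin (m * 2) := finProdFinEquiv (k, (0 : Fin 2)) with ht
  set u : Fin (m * 2) := finProdFinEquiv (k, (1 : Fin 2)) with hu
  have hpos := SDB_pos _ (SDB_upos S hS k ⟨N2, ν2, N1, ν1⟩ ⟨h2, h1⟩)
  have hsw : ∀ (k' : Fin m) (δ : Fin 2), Equiv.swap t u (finProdFinEquiv (k', δ)) =
      finProdFinEquiv (k', if k' = k then (if δ = 0 then 1 else 0) else δ) := by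
    intro k' δ
    by_cases hk : k' = k
    · subst hk
      rw [if_pos rfl]
      fin_cases δ
      · simp [ht, hu]
      · simp [ht, hu]
    · rw [if_neg hk, Equiv.swap_apply_of_ne_of_ne]
      · intro h
        have := finProdFinEquiv.injective h
        exact hk (congrArg Prod.fst this)
      · intro h
        have := finProdFinEquiv.injective h
        exact hk (congrArg Prod.fst this)
  have hW : pbW (Function.update S k ⟨N1, ν1, N2, ν2⟩) =
      fun j => pbW (Function.update S k ⟨N2, ν2, N1, ν1⟩) (Equiv.swap t u j) := by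
    funext j
    obtain ⟨⟨k', δ⟩, rfl⟩ := finProdFinEquiv.surjective j
    rw [hsw, pbW_apply, pbW_apply]
    by_cases hk : k' = k
    · subst hk
      rw [Function.update_self, Function.update_self, if_pos rfl]
      fin_cases δ <;> simp [Slt.w]
    · rw [Function.update_of_ne hk, Function.update_of_ne hk, if_neg hk]
  have hE : pbE a (Function.update S k ⟨N1, ν1, N2, ν2⟩) =
      pmE (Equiv.swap t u) (pbE a (Function.update S k ⟨N2, ν2, N1, ν1⟩)) := by
    funext i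
    ext j
    obtain ⟨⟨k', δ⟩, rfl⟩ := finProdFinEquiv.surjective j
    have e : pmE (Equiv.swap t u) (pbE a (Function.update S k ⟨N2, ν2, N1, ν1⟩)) i
        (finProdFinEquiv (k', δ)) = pbE a (Function.update S k ⟨N2, ν2, N1, ν1⟩) i
          (Equiv.swap t u (finProdFinEquiv (k', δ))) := rfl
    rw [e, hsw, pbE_apply, pbE_apply]
    by_cases hk : k' = k
    · subst hk
      rw [Function.update_self, Function.update_self, if_pos rfl]
      fin_cases δ <;> simp [Slt.N]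
    · rw [Function.update_of_ne hk, Function.update_of_ne hk, if_neg hk]
  rw [SDB_ZS a _ hW hE (fun j => hpos _)
    (fun τ => (H60.ConeExist.exists_faceCones _ τ).some)
    (fun τ => (H60.ConeExist.exists_faceTriang _ τ).some)]
  exact topZeta_perm _ _ hpos _ _ _ _ _

theorem ms_dbl {m r : ℕ} (a : Fin r → (Fin m →₀ ℕ)) (M : Fin m → (Str →₀ ℤ))
    (hM : ∀ k, ∀ s ∈ (M k).support, 0 < s.ν1 ∧ 0 < s.ν2) (l : List (Fin m)) (S : Fin m → Slt)
    (hS : ∀ k, (S k).Pos) (k : Fin m) (hk : k ∉ l) (N1 N2 : ℕ) (ν1 ν2 : ℚ) (hN1 : 0 < N1)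
    (hN2 : 0 < N2) (h1 : 0 < ν1) (h2 : 0 < ν2) (hne : ν1 * N2 ≠ ν2 * N1) :
    msum a M l (Function.update S k ⟨N1, ν1, N2, ν2⟩) =
      (((Nat.gcd N1 N2 : ℚ) / ((N1 : ℚ) * ν2 - (N2 : ℚ) * ν1) : ℚ) : ℂ) •
        (msum a M l (Function.update S k
            ⟨Nat.gcd N1 N2, (Nat.gcd N1 N2 : ℚ) * (ν1 / N1), 0, 1⟩) -
          msum a M l (Function.update S k
            ⟨Nat.gcd N1 N2, (Nat.gcd N1 N2 : ℚ) * (ν2 / N2), 0, 1⟩)) := by
  induction l generalizing S with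
  | nil => exact zs_dbl a S hS k N1 N2 ν1 ν2 hN1 hN2 h1 h2 hne
  | cons k' l ih =>
    rw [List.mem_cons, not_or] at hk
    have hkk : k' ≠ k := fun h => hk.1 h.symm
    simp only [msum]
    unfold Finsupp.sum
    rw [← Finset.sum_sub_distrib, Finset.smul_sum]
    refine Finset.sum_congr rfl fun s hs => ?_
    have hs' := hM k' s hs
    have hpos : (toQ s).Pos := ⟨Nat.cast_pos.2 hs'.1, Nat.cast_pos.2 hs'.2⟩
    beta_reduce
    rw [Function.update_comm hkk.symm, Function.update_comm hkk.symm,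
      Function.update_comm hkk.symm,
      ih (Function.update S k' (toQ s)) (SDB_upos S hS k' _ hpos) hk.2, ← smul_sub,
      smul_comm]

theorem ms_swap {m r : ℕ} (a : Fin r → (Fin m →₀ ℕ)) (M : Fin m → (Str →₀ ℤ))
    (hM : ∀ k, ∀ s ∈ (M k).support, 0 < s.ν1 ∧ 0 < s.ν2) (l : List (Fin m)) (S : Fin m → Slt)
    (hS : ∀ k, (S k).Pos) (k : Fin m) (hk : k ∉ l) (N1 N2 : ℕ) (ν1 ν2 : ℚ) (h1 : 0 < ν1)
    (h2 : 0 < ν2) :
    msum a M l (Function.update S k ⟨N1, ν1, N2, ν2⟩) =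
      msum a M l (Function.update S k ⟨N2, ν2, N1, ν1⟩) := by
  induction l generalizing S with
  | nil => exact zs_swap a S hS k N1 N2 ν1 ν2 h1 h2
  | cons k' l ih =>
    rw [List.mem_cons, not_or] at hk
    have hkk : k' ≠ k := fun h => hk.1 h.symm
    simp only [msum]
    unfold Finsupp.sum
    refine Finset.sum_congr rfl fun s hs => ?_
    have hs' := hM k' s hs
    have hpos : (toQ s).Pos := ⟨Nat.cast_pos.2 hs'.1, Nat.cast_pos.2 hs'.2⟩
    beta_reduce
    rw [Function.update_comm hkk.symm, Function.update_comm hkk.symm,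
      ih (Function.update S k' (toQ s)) (SDB_upos S hS k' _ hpos) hk.2]

/-- SDB -/
theorem ms_EW {m r : ℕ} (a : Fin r → (Fin m →₀ ℕ)) (M : Fin m → (Str →₀ ℤ))
    (hM : ∀ k, ∀ s ∈ (M k).support, 0 < s.ν1 ∧ 0 < s.ν2) (l : List (Fin m)) (S : Fin m → Slt)
    (hS : ∀ k, (S k).Pos) (k : Fin m) (hk : k ∉ l) :
    EW (W := RatFunc ℂ) (fun s => msum a M l (Function.update S k (toQ s)))
      (fun κ g => msum a M l (Function.update S k ⟨g, g * κ, 0, 1⟩)) := by
  have hs1 : ∀ N ν : ℕ, 0 < N → 0 < ν →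
      msum a M l (Function.update S k ⟨N, (ν : ℚ), 0, 1⟩) =
        msum a M l (Function.update S k ⟨N, N * ((ν : ℚ) / N), 0, 1⟩) := by
    intro N ν hN _
    have hN' : (N : ℚ) ≠ 0 := by exact_mod_cast hN.ne'
    rw [mul_div_cancel₀ _ hN']
  constructor
  · intro N1 ν1 N2 ν2 hN1 hN2 h1 h2 hne
    have h3 := ms_dbl a M hM l S hS k hk N1 N2 ν1 ν2 hN1 hN2 (by exact_mod_cast h1)
      (by exact_mod_cast h2) (by exact_mod_cast hne)
    simp only [toQ]
    rw [h3]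
    push_cast
    rfl
  · intro N ν hN hν
    simp only [toQ, Nat.cast_one]
    exact hs1 N ν hN hν
  · intro N ν hN hν
    simp only [toQ, Nat.cast_one]
    rw [← hs1 N ν hN hν]
    exact ms_swap a M hM l S hS k hk 0 N 1 ν one_pos (by exact_mod_cast hν)

end Pool.Agent.H56.CT
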