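import Pool.Agent.H56.CT.HBS
import Pool.Agent.H56.CT.SDB

/-!
# HBR: regularity of the zeta functions of the reduced systems

Choose a natural number `K > 1` with `K > κ_k` for all `k` and `-re s0 * d < K` for all `d` as in `hK` of `reg_int` (finitely many `i`, `k`; `d` is determined by `i`, `k`).
Claim: for every `A : Finset (Fin m)` and `S : Fin m → Slt` such that for `k ∈ A`: `k ∉ T` and `S k = ⟨g, g κ_k, 0, 1⟩`, `g > 0`; for `k ∉ A`: `S k = toQ s`, `GoodS (κ k) (k ∈ T) K s`, the function `ZS a S` is regular.  Induction on `A`.  `A = ∅`: `reg_int` (choose the `s`).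
`insert k A`: `S k = ⟨g, g κ, 0, 1⟩`, `κ = κ_k = x / y` in lowest terms, `x, y > 0`.  `N1 = g y`, `ν1 = g x`; `gcd N1 g = g`.  `zs_dbl` for `⟨N1, ν1, g, g K⟩`: `ν1 / N1 = κ < K = (g K)/g`: the coefficient is `g / (N1 g K - g ν1) = 1/(N1 K - ν1) ≠ 0`:
`ZS (update S k ⟨g, g κ, 0, 1⟩) = ZS (update S k ⟨g, g K, 0, 1⟩) + (N1 K - ν1) • ZS (update S k ⟨N1, ν1, g, g K⟩)`.  Both on the right are of the form for `A`: `⟨g, gK, 0, 1⟩` and `⟨N1, ν1, g, gK⟩` are `GoodS` (`ν = κ N1` resp. `ν ≥ K N`).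
Regular functions are closed under sums and multiples with constants (`H37.SM`, `ZRG.lean`: `Reg.add`, `Reg.mul`, the constant is a polynomial).
The theorem: `RedS`: the first case is `GoodS` (first part), the third case is `GoodS` (second part); let `A` be the set of the `k` of the second case.
-/

set_option autoImplicit false

namespace Pool.Agent.H56.CT

open Finset

private theorem HBR_smul {s0 : ℂ} (c : ℂ) {R : RatFunc ℂ} (hR : H37.SM.Reg s0 R) :
    H37.SM.Reg s0 (c • R) := by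
  rw [Algebra.smul_def]
  refine H37.SM.Reg.mul ?_ hR
  rw [H37.SM.reg_iff]
  refine ⟨Polynomial.C c, 1, by simp, ?_⟩
  rw [map_one, div_one]
  exact IsScalarTower.algebraMap_apply ℂ (Polynomial ℂ) (RatFunc ℂ) c

private theorem HBR_core {m r : ℕ} (a : Fin r → (Fin m →₀ ℕ)) (ha : Function.Injective a)
    (hconv : H22.T7.Conv a) (hne : ∀ i, a i ≠ 0) (hr : 0 < r) (κ : Fin m → ℚ)
    (hκ : ∀ k, 0 < κ k) (T : Finset (Fin m)) (hκT : ∀ k ∈ T, κ k = 1) (s0 : ℂ) (hs1 : s0 ≠ -1)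
    (hB : HB a κ T s0) (K : ℕ) (hK1 : (1 : ℚ) < K) (hKκ : ∀ k, κ k < K)
    (hK : ∀ (i : Fin r) (k : Fin m) (d : ℕ), a i = Finsupp.single k d →
      -s0.re * d < ((K : ℚ) : ℝ)) (A : Finset (Fin m)) :
    ∀ S : Fin m → Slt, (∀ k ∈ A, k ∉ T ∧ ∃ g : ℕ, 0 < g ∧ S k = ⟨g, g * κ k, 0, 1⟩) →
      (∀ k, k ∉ A → ∃ s : Str, S k = toQ s ∧ GoodS (κ k) (k ∈ T) K s) →
      H37.SM.Reg s0 (ZS a S) := by
  induction A using Finset.induction_on with
  | empty =>
    intro S _ h2
    choose s hs hs' using fun k => h2 k (Finset.notMem_empty k)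
    have e : S = fun k => toQ (s k) := funext hs
    rw [e]
    exact reg_int a ha hconv hne hr κ hκ T hκT s0 hs1 hB K hK hK1 s hs'
  | insert k0 A hk0 ih =>
    intro S h1 h2
    obtain ⟨hkT, g, hg, hSg⟩ := h1 k0 (Finset.mem_insert_self k0 A)
    have hpos : ∀ k, (S k).Pos := by
      intro k
      by_cases hk : k ∈ insert k0 A
      · obtain ⟨_, g', hg', hS'⟩ := h1 k hk
        rw [hS']
        have : (0 : ℚ) < g' := by exact_mod_cast hg'
        exact ⟨mul_pos this (hκ k), one_pos⟩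
      · obtain ⟨s, hs, hs'⟩ := h2 k hk
        rw [hs]
        rcases hs' with ⟨_, h⟩ | ⟨_, h3, h4, _⟩
        · rw [h]
          constructor <;> simp [toQ]
        · constructor
          · change (0 : ℚ) < (s.ν1 : ℚ)
            exact_mod_cast h3
          · change (0 : ℚ) < (s.ν2 : ℚ)
            exact_mod_cast h4
    -- lowest terms
    obtain ⟨x, hx⟩ : ∃ x : ℕ, (x : ℤ) = (κ k0).num := by
      have h3 : 0 ≤ (κ k0).num := (Rat.num_pos.2 (hκ k0)).le
      exact ⟨(κ k0).num.toNat, Int.toNat_of_nonneg h3⟩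
    obtain ⟨y, hy⟩ : ∃ y : ℕ, y = (κ k0).den := ⟨_, rfl⟩
    have hy0 : 0 < y := by
      rw [hy]
      exact (κ k0).den_pos
    have hyq : (0 : ℚ) < y := by exact_mod_cast hy0
    have hgq : (0 : ℚ) < g := by exact_mod_cast hg
    have hxy : (x : ℚ) = κ k0 * y := by
      have h3 : ((x : ℤ) : ℚ) = κ k0 * ((κ k0).den : ℚ) := by
        rw [hx, Rat.mul_den_eq_num]
      rw [hy]
      exact_mod_cast h3
    have hx0 : 0 < x := by
      have h3 : (0 : ℚ) < x := by
        rw [hxy]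
        exact mul_pos (hκ k0) hyq
      exact_mod_cast h3
    have hxK : (x : ℚ) < K * y := by
      rw [hxy]
      exact mul_lt_mul_of_pos_right (hKκ k0) hyq
    have hKq : (0 : ℚ) < K := (hκ k0).trans (hKκ k0)
    have hK0 : 0 < K := by exact_mod_cast hKq
    have hgcd : Nat.gcd (g * y) g = g := Nat.gcd_eq_right (Dvd.intro _ rfl)
    have hdbl := zs_dbl a S hpos k0 (g * y) g (g * x) (g * K) (Nat.mul_pos hg hy0) hg
      (mul_pos hgq (by exact_mod_cast hx0)) (mul_pos hgq hKq) (by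
        push_cast
        intro h3
        have h4 : (g : ℚ) * g * (x - K * y) = 0 := by linear_combination h3
        have h5 : (g : ℚ) * g * (x - K * y) < 0 := by
          apply mul_neg_of_pos_of_neg (mul_pos hgq hgq)
          linarith
        linarith)
    rw [hgcd] at hdbl
    have e1 : (g : ℚ) * ((g : ℚ) * x / ((g * y : ℕ) : ℚ)) = g * κ k0 := by
      push_cast
      rw [hxy]
      field_simp
    have e2 : (g : ℚ) * ((g : ℚ) * K / (g : ℚ)) = g * K := by
      field_simp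
    rw [e1, e2] at hdbl
    have e3 : Function.update S k0 ⟨g, g * κ k0, 0, 1⟩ = S := by
      rw [← hSg]
      exact Function.update_eq_self k0 S
    rw [e3] at hdbl
    obtain ⟨c, hc⟩ : ∃ c : ℚ, c = (g : ℚ) / (((g * y : ℕ) : ℚ) * ((g : ℚ) * K) -
      (g : ℚ) * ((g : ℚ) * x)) := ⟨_, rfl⟩
    rw [← hc] at hdbl
    have hc0 : (c : ℂ) ≠ 0 := by
      have h3 : c ≠ 0 := by
        rw [hc]
        apply div_ne_zero hgq.ne'
        push_cast
        intro h3
        have h5 : (g : ℚ) * g * (K * y - x) > 0 := by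
          apply mul_pos (mul_pos hgq hgq)
          linarith
        have h4 : (g : ℚ) * g * (K * y - x) = 0 := by linear_combination h3
        linarith
      exact_mod_cast h3
    have hup : ∀ s : Str, GoodS (κ k0) (k0 ∈ T) K s →
        H37.SM.Reg s0 (ZS a (Function.update S k0 (toQ s))) := by
      intro s hs
      apply ih
      · intro k hk
        have hkk : k ≠ k0 := fun h => hk0 (h ▸ hk)
        rw [Function.update_of_ne hkk]
        exact h1 k (Finset.mem_insert_of_mem hk)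
      · intro k hk
        by_cases hkk : k = k0
        · subst hkk
          refine ⟨s, ?_, hs⟩
          rw [Function.update_self]
        · rw [Function.update_of_ne hkk]
          apply h2 k
          rw [Finset.mem_insert]
          rintro (h | h)
          · exact hkk h
          · exact hk h
    have r1 : H37.SM.Reg s0 (ZS a (Function.update S k0 ⟨g * y, g * x, g, g * K⟩)) := by
      have h3 := hup ⟨g * y, g * x, g, g * K⟩ (Or.inr ⟨hkT, Nat.mul_pos hg hx0,
        Nat.mul_pos hg hK0, Or.inl (Nat.mul_pos hg hy0), fun _ => Or.inl (by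
          push_cast
          rw [hxy]
          ring), fun _ => Or.inr (by
          push_cast
          exact le_of_eq (mul_comm _ _))⟩)
      have h4 : toQ ⟨g * y, g * x, g, g * K⟩ = ⟨g * y, g * x, g, g * K⟩ := by
        unfold toQ
        simp
      rwa [h4] at h3
    have r2 : H37.SM.Reg s0 (ZS a (Function.update S k0 ⟨g, g * K, 0, 1⟩)) := by
      have h3 := hup ⟨g, g * K, 0, 1⟩ (Or.inr ⟨hkT, Nat.mul_pos hg hK0, one_pos, Or.inl hg,
        fun _ => Or.inr (by
          push_cast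
          exact le_of_eq (mul_comm _ _)), fun h => absurd h (lt_irrefl 0)⟩)
      have h4 : toQ ⟨g, g * K, 0, 1⟩ = ⟨g, g * K, 0, 1⟩ := by
        unfold toQ
        simp
      rwa [h4] at h3
    have hfin : ZS a S = ((c : ℂ)⁻¹) • ZS a (Function.update S k0 ⟨g * y, g * x, g, g * K⟩) +
        ZS a (Function.update S k0 ⟨g, g * K, 0, 1⟩) := by
      rw [hdbl, smul_smul, inv_mul_cancel₀ hc0, one_smul, sub_add_cancel]
    rw [hfin]
    exact (HBR_smul _ r1).add r2

/-- HBR -/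
theorem reg_red {m r : ℕ} (a : Fin r → (Fin m →₀ ℕ)) (ha : Function.Injective a)
    (hconv : H22.T7.Conv a) (hne : ∀ i, a i ≠ 0) (hr : 0 < r) (κ : Fin m → ℚ)
    (hκ : ∀ k, 0 < κ k) (T : Finset (Fin m)) (hκT : ∀ k ∈ T, κ k = 1) (s0 : ℂ) (hs1 : s0 ≠ -1)
    (hB : HB a κ T s0) (S : Fin m → Slt) (hS : ∀ k, RedS (κ k) (k ∈ T) (S k)) :
    H37.SM.Reg s0 (ZS a S) := by
  classical
  obtain ⟨K, hK⟩ := exists_nat_gt
    (1 + (∑ k, (κ k : ℝ)) + |s0.re| * ∑ i, ∑ k, (a i k : ℝ))
  have hκ0 : ∀ k, (0 : ℝ) ≤ (κ k : ℝ) := fun k => by exact_mod_cast (hκ k).le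
  have ha0 : 0 ≤ ∑ i, ∑ k, (a i k : ℝ) :=
    Finset.sum_nonneg fun i _ => Finset.sum_nonneg fun k _ => Nat.cast_nonneg _
  have hK1 : (1 : ℚ) < K := by
    have h1 : 0 ≤ ∑ k, (κ k : ℝ) := Finset.sum_nonneg fun k _ => hκ0 k
    have h2 : 0 ≤ |s0.re| * ∑ i, ∑ k, (a i k : ℝ) := mul_nonneg (abs_nonneg _) ha0
    have h3 : (1 : ℝ) < (K : ℝ) := by linarith
    exact_mod_cast h3
  have hKκ : ∀ k, κ k < K := by
    intro k
    have h1 : (κ k : ℝ) ≤ ∑ k, (κ k : ℝ) :=
      Finset.single_le_sum (f := fun k => (κ k : ℝ)) (fun k _ => hκ0 k) (Finset.mem_univ k)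
    have h2 : 0 ≤ |s0.re| * ∑ i, ∑ k, (a i k : ℝ) := mul_nonneg (abs_nonneg _) ha0
    have h3 : (κ k : ℝ) < (K : ℝ) := by linarith
    exact_mod_cast h3
  have hKd : ∀ (i : Fin r) (k : Fin m) (d : ℕ), a i = Finsupp.single k d →
      -s0.re * d < ((K : ℚ) : ℝ) := by
    intro i k d hd
    have h1 : (d : ℝ) = (a i k : ℝ) := by
      rw [hd, Finsupp.single_eq_same]
    have h2 : (a i k : ℝ) ≤ ∑ i, ∑ k, (a i k : ℝ) := by
      calc (a i k : ℝ) ≤ ∑ k, (a i k : ℝ) :=
            Finset.single_le_sum (f := fun k => (a i k : ℝ)) (fun k _ => Nat.cast_nonneg _)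
              (Finset.mem_univ k)
        _ ≤ ∑ i, ∑ k, (a i k : ℝ) :=
            Finset.single_le_sum (f := fun i => ∑ k, (a i k : ℝ))
              (fun i _ => Finset.sum_nonneg fun k _ => Nat.cast_nonneg _) (Finset.mem_univ i)
    have h3 : -s0.re * d ≤ |s0.re| * ∑ i, ∑ k, (a i k : ℝ) := by
      calc -s0.re * d ≤ |s0.re| * d :=
            mul_le_mul_of_nonneg_right (neg_le_abs _) (Nat.cast_nonneg d)
        _ ≤ |s0.re| * ∑ i, ∑ k, (a i k : ℝ) := by
            apply mul_le_mul_of_nonneg_left _ (abs_nonneg _)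
            rw [h1]
            exact h2
    have h4 : 0 ≤ ∑ k, (κ k : ℝ) := Finset.sum_nonneg fun k _ => hκ0 k
    have h5 : (((K : ℚ)) : ℝ) = (K : ℝ) := by norm_cast
    rw [h5]
    linarith
  refine HBR_core a ha hconv hne hr κ hκ T hκT s0 hs1 hB K hK1 hKκ hKd
    (Finset.univ.filter fun k => k ∉ T ∧ ∃ g : ℕ, 0 < g ∧ S k = ⟨g, g * κ k, 0, 1⟩) S ?_ ?_
  · intro k hk
    exact (Finset.mem_filter.1 hk).2
  · intro k hk
    rcases hS k with ⟨h1, h2⟩ | ⟨h1, h2⟩ | ⟨h1, S', h2, h3, h4, h5, h6⟩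
    · refine ⟨⟨1, 1, 0, 1⟩, ?_, Or.inl ⟨h1, rfl⟩⟩
      rw [h2]
      unfold toQ
      simp
    · exact absurd (Finset.mem_filter.2 ⟨Finset.mem_univ k, h1, h2⟩) hk
    · refine ⟨S', h2, Or.inr ⟨h1, ?_, ?_, Or.inl h3, fun _ => Or.inl h5, fun _ => Or.inl h6⟩⟩
      · have : (0 : ℚ) < S'.ν1 := by
          rw [h5]
          exact mul_pos (hκ k) (by exact_mod_cast h3)
        exact_mod_cast this
      · have : (0 : ℚ) < S'.ν2 := by
          rw [h6]
          exact mul_pos (hκ k) (by exact_mod_cast h4)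
        exact_mod_cast this

end Pool.Agent.H56.CT
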