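import Pool.Agent.H56.CT.ZDefs
import Pool.Agent.H37.T6.CHY

/-!
# WCH: the hypothesis `HYp` gives the hypothesis of the cluster sums

ADAPT `chy` (`Pool/Agent/H37/T6/CHY.lean`; `CHY_..` by import).  `CSW`, `AAw ν`.  (3): `∑ ν_j w_j + N(w) s0 = 0` (`pr_AAw_lf`); (4): `N(w) > 0`, since otherwise `∑ ν_j w_j = 0`, `w = 0` (`hC.nup`); `s0 = s0p a (qN ν) w`; (5): `YDp a (qN ν) w Yb Yj`, `p0W` instead of `p0R`.
(6): `hHY w Yb Yj` gives `b`, `k` with `qN ν k = 1` (`TT1`), `ApexY`, `k` unique among all directions, so in particular among the `k'` with `ν k' = 1`.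
-/

set_option autoImplicit false

namespace Pool.Agent.H56.CT

open Finset H60.RegTri
open Pool.Agent.H37.T5 Pool.Agent.H37.T6
open Pool.Agent.H56.SMC

/-- WCH -/
theorem chyw {n r : ℕ} {ν : Fin n → ℕ} {a : Fin r → (Fin n →₀ ℕ)} {R : Finset (Fin n → ℕ)}
    {s0 : ℂ} {q : Unit ⊕ Fin n → ℤ} {g : Option (Fin r ⊕ Fin n) → ℝ} {h : Option R → ℝ}
    (hC : CSW ν a R s0 q g h) (hs0 : s0 ≠ 0) (hHY : HYp a (qN ν) (TT1 (qN ν)) s0)
    (Λ : Fin r ⊕ Fin n → ℂ) (hΛ : IsLam (pf a) (AAw ν) BB s0 Λ) (Y : Finset (Fin r ⊕ Fin n))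
    (hY : InT (pf a) q g Y) (hΛY : ∀ ω, Λ ω ≠ 0 → ω ∈ Y) :
    ∃ (b : Fin r ⊕ Fin n) (k : {k : Fin n // ν k = 1}),
      Ap (fun (ω : Fin r ⊕ Fin n) (k : {k : Fin n // ν k = 1}) => pr (pf a ω) (eD k.1))
        (inB univ) Y b k ∧
      ∀ k', Ap (fun (ω : Fin r ⊕ Fin n) (k : {k : Fin n // ν k = 1}) => pr (pf a ω) (eD k.1))
        (inB univ) Y b k' → k' = k := by
  have hZ := hC.rs.zt
  have hind := (rint hY).1
  obtain ⟨i0, hi0⟩ : ∃ i, i ∈ Gx (vv a R) (pf a) Y := by
    obtain ⟨Δ, hΔ, hsub⟩ := hY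
    obtain ⟨i, hi⟩ := rray hC.rs hΔ
    exact ⟨i, Gx_mono hsub hi⟩
  obtain ⟨p, hp⟩ : ∃ p, p = ∑ i ∈ Gx (vv a R) (pf a) Y, vv a R i := ⟨_, rfl⟩
  have hpp : ∀ ω, pr (pf a ω) p = ∑ i ∈ Gx (vv a R) (pf a) Y, pr (pf a ω) (vv a R i) := by
    intro ω
    rw [hp, CHY_pr_sum]
  have hp0 : ∀ ω, 0 ≤ pr (pf a ω) p := by
    intro ω
    rw [hpp]
    exact Finset.sum_nonneg fun i _ => hZ.nn i ω
  have hpz : ∀ ω, pr (pf a ω) p = 0 → ∀ i ∈ Gx (vv a R) (pf a) Y,
      pr (pf a ω) (vv a R i) = 0 := by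
    intro ω hω
    rw [hpp, Finset.sum_eq_zero_iff_of_nonneg fun i _ => hZ.nn i ω] at hω
    exact hω
  have hpY : ∀ ω ∈ Y, pr (pf a ω) p = 0 := by
    intro ω hω
    rw [hpp]
    exact Finset.sum_eq_zero fun i hi => mem_Gx.1 hi ω hω
  -- some exponent in `Y`
  have hb : ∃ b, Λ (Sum.inl b) ≠ 0 := by
    by_contra hno
    push Not at hno
    have h1 := hΛ (Sum.inl ())
    rw [Fintype.sum_sum_type] at h1
    simp [hno, AAw, BB, pf] at h1
    exact hs0 h1
  obtain ⟨b0, hb0⟩ := hb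
  have hb0Y := hΛY _ hb0
  -- the weight vector
  obtain ⟨w, hw⟩ : ∃ w : Fin n → ℕ, ∀ j, (w j : ℤ) = p (Sum.inr j) := by
    refine ⟨fun j => (p (Sum.inr j)).toNat, fun j => ?_⟩
    have h1 := hp0 (Sum.inr j)
    rw [pf_inr] at h1
    exact Int.toNat_of_nonneg h1
  have hpi : ∀ i, pr (pf a (Sum.inl i)) p =
      p (Sum.inl ()) + ∑ j, (a i j : ℤ) * (w j : ℤ) := by
    intro i
    rw [pf_inl]
    congr 1
    exact Finset.sum_congr rfl fun j _ => by rw [hw j]
  have hwmin : (H22.wmin a w : ℤ) = -p (Sum.inl ()) := by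
    refine CHY_wmin w _ (fun i => ?_) b0 ?_
    · have h1 := hp0 (Sum.inl i)
      rw [hpi] at h1
      linarith
    · have h1 := hpY _ hb0Y
      rw [hpi] at h1
      linarith
  have hplf : p = lf a w := by
    funext t
    rcases t with ⟨⟩ | j
    · show p (Sum.inl ()) = -(H22.wmin a w : ℤ)
      rw [hwmin, neg_neg]
    · exact (hw j).symm
  -- the relation
  have hrel : ((wsp (qN ν) w : ℚ) : ℂ) + (H22.wmin a w : ℂ) * s0 = 0 := by
    have h1 := zlam_pair Λ hΛ p
    have h2 : ∑ ω, Λ ω * (pr (pf a ω) p : ℂ) = 0 := by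
      refine Finset.sum_eq_zero fun ω _ => ?_
      by_cases hω : Λ ω = 0
      · rw [hω, zero_mul]
      · rw [hpY ω (hΛY ω hω), Int.cast_zero, mul_zero]
    rw [h2, hplf, pr_AAw_lf, pr_BB_lf] at h1
    simp only [wsp, qN]
    push_cast at h1 ⊢
    exact h1
  have hpos : 0 < H22.wmin a w := by
    rcases Nat.eq_zero_or_pos (H22.wmin a w) with h0 | h0
    · exfalso
      rw [h0, Nat.cast_zero, zero_mul, add_zero] at hrel
      have h1 : ∑ j, ν j * w j = 0 := by
        simp only [wsp, qN] at hrel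
        exact_mod_cast hrel
      have h2 : ∀ j, w j = 0 := fun j => by
        have h3 := (Finset.sum_eq_zero_iff.1 h1) j (mem_univ j)
        rcases Nat.mul_eq_zero.1 h3 with h4 | h4
        · have := hC.nup j
          omega
        · exact h4
      have h3 : p = 0 := by
        rw [hplf]
        funext t
        rcases t with ⟨⟩ | j
        · show -(H22.wmin a w : ℤ) = 0
          rw [h0]
          rfl
        · show (w j : ℤ) = 0
          rw [h2 j]
          rfl
      have h4 : ∀ ω, pr (pf a ω) (vv a R i0) = 0 := by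
        intro ω
        refine hpz ω ?_ i0 hi0
        rw [h3]
        simp [pr]
      have h5 : vR (vv a R) i0 = 0 := by
        apply hZ.sp
        intro ω
        rw [prR_vR, h4 ω, Int.cast_zero]
      apply v_ne hZ i0
      funext t
      have h6 := congrFun h5 t
      have h7 : ((vv a R i0 t : ℤ) : ℝ) = 0 := h6
      exact_mod_cast h7
    · exact h0
  have hNC : (H22.wmin a w : ℂ) ≠ 0 := by exact_mod_cast hpos.ne'
  have hs : s0 = s0p a (qN ν) w := by
    rw [s0p, eq_div_iff hNC]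
    linear_combination hrel
  -- faces of `w` and zeros of the functionals at `p`
  have hface : ∀ i, ∑ j, a i j * w j = H22.wmin a w ↔ pr (pf a (Sum.inl i)) p = 0 := by
    intro i
    rw [hplf, pf_inl_lf]
    omega
  have hfacej : ∀ j, w j = 0 ↔ pr (pf a (Sum.inr j)) p = 0 := by
    intro j
    rw [pf_inr, ← hw j]
    omega
  obtain ⟨Yb, hYb⟩ : ∃ Yb : Finset (Fin r), ∀ b, b ∈ Yb ↔ Sum.inl b ∈ Y :=
    ⟨Finset.univ.filter (fun b => Sum.inl b ∈ Y), fun b => by simp⟩
  obtain ⟨Yj, hYj⟩ : ∃ Yj : Finset (Fin n), ∀ j, j ∈ Yj ↔ Sum.inr j ∈ Y :=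
    ⟨Finset.univ.filter (fun j => Sum.inr j ∈ Y), fun j => by simp⟩
  have hYD : YDp a (qN ν) w Yb Yj := by
    refine ⟨hpos, ?_, ?_, ?_, ?_, ?_⟩
    · intro b hb
      exact (hface b).2 (hpY _ ((hYb b).1 hb))
    · intro j hj
      exact (hfacej j).2 (hpY _ ((hYj j).1 hj))
    · have h1 : LinearIndependent ℝ (fun x : Y => vR (pf a) x.1) := hind
      let e : (Yb ⊕ Yj) → Y := Sum.elim (fun b => ⟨Sum.inl b.1, (hYb b.1).1 b.2⟩)
        (fun j => ⟨Sum.inr j.1, (hYj j.1).1 j.2⟩)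
      have he : Function.Injective e := by
        intro x y hxy
        rcases x with x | x <;> rcases y with y | y
        · have h2 : (Sum.inl x.1 : Fin r ⊕ Fin n) = Sum.inl y.1 := congrArg Subtype.val hxy
          rw [Subtype.ext (Sum.inl_injective h2)]
        · have h2 : (Sum.inl x.1 : Fin r ⊕ Fin n) = Sum.inr y.1 := congrArg Subtype.val hxy
          simp at h2
        · have h2 : (Sum.inr x.1 : Fin r ⊕ Fin n) = Sum.inl y.1 := congrArg Subtype.val hxy
          simp at h2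
        · have h2 : (Sum.inr x.1 : Fin r ⊕ Fin n) = Sum.inr y.1 := congrArg Subtype.val hxy
          rw [Subtype.ext (Sum.inr_injective h2)]
      have h3 := h1.comp e he
      have h4 : (fun x : Y => vR (pf a) x.1) ∘ e = Sum.elim (fun b : Yb => H22.rowR a b.1)
          (fun j : Yj => (eR j.1 : Unit ⊕ Fin n → ℝ)) := by
        funext x
        rcases x with x | x
        · exact vR_pf_inl a x.1
        · exact vR_pf_inr a x.1
      rw [h4] at h3
      exact h3
    · intro y h1 h2 h3 h4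
      have g1 : ∀ ω, pr (pf a ω) p = 0 → 0 ≤ prR (pf a ω) y := by
        intro ω hω
        rcases ω with i | j
        · rw [← CHY_row]
          exact h1 i ((hface i).2 hω)
        · rw [pfR_inr]
          exact h2 j ((hfacej j).2 hω)
      have g2 : ∀ ω ∈ Y, prR (pf a ω) y = 0 := by
        intro ω hω
        rcases ω with i | j
        · rw [← CHY_row]
          exact h3 i ((hYb i).2 hω)
        · rw [pfR_inr]
          exact h4 j ((hYj j).2 hω)
      obtain ⟨M, hM⟩ : ∃ M : ℝ, ∀ ω, |prR (pf a ω) y| ≤ M :=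
        ⟨∑ ω, |prR (pf a ω) y|, fun ω => Finset.single_le_sum
          (f := fun ω => |prR (pf a ω) y|) (fun _ _ => abs_nonneg _) (mem_univ ω)⟩
      have g3 : ∀ ω, prR (pf a ω) (y + M • (fun t => (p t : ℝ))) =
          prR (pf a ω) y + M * (pr (pf a ω) p : ℝ) := by
        intro ω
        rw [ZLOC_prR_add, ZLOC_prR_smul, CHY_prR_int]
      obtain ⟨x, hx, hx0, hxy⟩ := tcone hZ Y (y + M • (fun t => (p t : ℝ)))
        (fun ω => by
          rw [g3]
          rcases (hp0 ω).eq_or_lt with h5 | h5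
          · rw [← h5, Int.cast_zero, mul_zero, add_zero]
            exact g1 ω h5.symm
          · have h6 : (1 : ℝ) ≤ (pr (pf a ω) p : ℝ) := by exact_mod_cast h5
            have h7 := hM ω
            have h8 := neg_abs_le (prR (pf a ω) y)
            have h9 : 0 ≤ M := (abs_nonneg _).trans h7
            nlinarith)
        (fun ω hω => by
          rw [g3, hpY ω hω, g2 ω hω, Int.cast_zero, mul_zero, add_zero])
      have g4 : ∀ ω, pr (pf a ω) p = 0 → prR (pf a ω) y = 0 := by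
        intro ω hω
        have h5 := g3 ω
        rw [hω, Int.cast_zero, mul_zero, add_zero, hxy, ZLOC_prR_sum] at h5
        rw [← h5]
        refine Finset.sum_eq_zero fun i _ => ?_
        by_cases hi : i ∈ Gx (vv a R) (pf a) Y
        · rw [hpz ω hω i hi, Int.cast_zero, mul_zero]
        · rw [hx0 i hi, zero_mul]
      refine ⟨fun i hi => ?_, fun j hj => ?_⟩
      · rw [CHY_row]
        exact g4 _ ((hface i).1 hi)
      · have h5 := g4 _ ((hfacej j).1 hj)
        rwa [pfR_inr] at h5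
    · have h1 : p0W a (qN ν) w = ∑ ω, (Λ ω).re • vR (pf a) ω := by
        funext t
        have h2 := congrArg Complex.re (hΛ t)
        rw [Complex.re_sum] at h2
        have h3 : ∀ ω, (Λ ω * (pf a ω t : ℂ)).re = (Λ ω).re * (pf a ω t : ℝ) := by
          intro ω
          have h4 : ((pf a ω t : ℤ) : ℂ) = (((pf a ω t : ℤ) : ℝ) : ℂ) := by push_cast; rfl
          rw [h4, Complex.re_mul_ofReal]
        simp only [h3] at h2
        rw [Finset.sum_apply]
        simp only [Pi.smul_apply, smul_eq_mul]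
        have h5 : ((AAw ν t : ℤ) + (BB t : ℤ) * s0 : ℂ).re = p0W a (qN ν) w t := by
          have h6 : s0 = ((-((wsp (qN ν) w : ℚ) : ℝ) / (H22.wmin a w : ℝ) : ℝ) : ℂ) := by
            rw [hs, s0p]
            push_cast
            rfl
          rcases t with ⟨⟩ | j
          · simp only [AAw, BB, p0W, Sum.elim_inl]
            rw [h6]
            push_cast
            rw [zero_add, neg_one_mul, neg_div, neg_neg]
            have h7 : (((wsp (qN ν) w : ℚ) : ℂ) / (H22.wmin a w : ℂ)) =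
                ((((wsp (qN ν) w : ℚ) : ℝ) / (H22.wmin a w : ℝ) : ℝ) : ℂ) := by push_cast; rfl
            rw [h7, Complex.ofReal_re]
          · simp [AAw, BB, p0W, qN]
        rw [h5] at h2
        exact h2
      rw [h1]
      refine Submodule.sum_mem _ fun ω _ => ?_
      by_cases hω : Λ ω = 0
      · rw [hω, Complex.zero_re, zero_smul]
        exact Submodule.zero_mem _
      · refine Submodule.smul_mem _ _ (Submodule.subset_span ?_)
        have hωY := hΛY ω hω
        rcases ω with b | j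
        · exact Or.inl ⟨b, (hYb b).2 hωY, vR_pf_inl a b⟩
        · exact Or.inr ⟨j, (hYj j).2 hωY, vR_pf_inr a j⟩
  obtain ⟨b, k, hkT, hbk, huniq⟩ := hHY w Yb Yj hYD hs
  have hk1 : ν k = 1 := by
    have h1 := (Finset.mem_filter.1 hkT).2
    simp only [qN] at h1
    exact_mod_cast h1
  refine ⟨Sum.inl b, ⟨k, hk1⟩, ?_, fun k' hk' => ?_⟩
  · exact (CHY_ap Y Yb Yj hYb hYj b k).1 hbk
  · refine Subtype.ext (huniq k'.1 (Finset.mem_filter.2 ⟨Finset.mem_univ _, ?_⟩)
      ((CHY_ap Y Yb Yj hYb hYj b k'.1).2 hk'))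
    simp [qN, k'.2]

end Pool.Agent.H56.CT
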