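import Pool.Agent.H56.CT.WCE
import Pool.Agent.H56.CT.WCH
import Pool.Agent.H37.T6.FIN6

/-!
# WPO: the zeta side with weights

ADAPT `exists_cs`, `polesT6` (`Pool/Agent/H37/T6/FIN6.lean`): `exists_csw` with `cztw`; `polesw`: `s0 ≠ 0` is now a hypothesis (no `ztc`); `hr`: if `r = 0` there are no faces of rank `≥ 1` (`faceRank = 0`), so the zeta function is `0`, regular; with `hne` this does not occur.
`lfin` for `E = {k // ν k = 1}`, `e k = eD k.1`: `pr_AAw_eD`, `pr_BB_eD`, `chyw`; `cenw`.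
`locw`: ADAPT `loc` (`Pool/Agent/H22/T7/LOC.lean`; its lemmas are private, copy them).  For a face `τ` which is not compact and a generator `w ∈ minCone a τ` claim `N(w) = 0`: otherwise `hz w` gives `k > 0` with `∑ a_ij k_j = ∑ a_ij w_j` for all `i`, so `k ∈ minCone a τ`, and `τ` is compact (`loc_cface`).
The denominator `ν·w + 0·X` is a constant, `≠ 0` if `w ≠ 0`; if it is `0` its inverse is `0`.
`reg0`: if `0 ≤ re s0` then all denominators `ν·w + N(w) s0` have positive real part (`w ≠ 0` because the generators are independent; `ν·w > 0`), and `s0 ≠ -1`; so everything is regular.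
-/


set_option autoImplicit false

namespace Pool.Agent.H56.CT

open Finset H60.RegTri
open Pool.Agent.H37.T5 Pool.Agent.H37.T6
open Pool.Agent.H56.SMC

theorem exists_csw {n r : ℕ} (ν : Fin n → ℕ) (hν : ∀ j, 0 < ν j) (a : Fin r → (Fin n →₀ ℕ))
    (ha : Function.Injective a) (hr : 0 < r) (hn : 0 < n) (s0 : ℂ) :
    ∃ R q g h, CSW ν a R s0 q g h := by
  obtain ⟨R, hR⟩ := exists_raySet a hr
  have hZ := cztw ν hν a ha hr R hR
  obtain ⟨q, hq⟩ := qex hZ s0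
  obtain ⟨g, hg1, hg2, hg3⟩ := gex (pf a) q
  obtain ⟨h, hh1, hh2⟩ := hex (vR (vv a R)) (rv0 R)
  exact ⟨R, q, g, h, ha, hr, hn, hν, hR, ⟨Fintype.card_pos, hZ, hq.pos, hg1, hg2, hh1⟩, hq, hh2,
    hg3⟩

theorem polesw {n r : ℕ} (ν : Fin n → ℕ) (hν : ∀ j, 0 < ν j) (a : Fin r → (Fin n →₀ ℕ))
    (ha : Function.Injective a) (hne : ∃ i, a i ≠ 0) (s0 : ℂ) (hs1 : s0 ≠ -1) (hs0 : s0 ≠ 0)
    (hHY : HYp a (qN ν) (TT1 (qN ν)) s0)
    (𝒟 : ∀ τ, H22.FaceCones a τ) (𝒯 : ∀ τ, H22.FaceTriang a τ) :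
    H37.SM.Reg s0 (topZetaGW (qN ν) a 𝒟 𝒯) := by
  classical
  obtain ⟨i0, hi0⟩ := hne
  have hr : 0 < r := Nat.pos_of_ne_zero (fun h => by subst h; exact i0.elim0)
  have hn : 0 < n := by
    refine Nat.pos_of_ne_zero (fun h => ?_)
    subst h
    exact hi0 (Subsingleton.elim _ _)
  obtain ⟨R, q, g, h, hC⟩ := exists_csw ν hν a ha hr hn s0
  have hL := rls hC.rs hC.qg
  have h1 := lfin hL (inB (univ : Finset (Fin r)))
    (fun k : {k : Fin n // ν k = 1} => (eD k.1 : Unit ⊕ Fin n → ℤ))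
    (fun k => by rw [pr_AAw_eD, k.2, Nat.cast_one]) (fun k => pr_BB_eD k.1)
    (fun Λ hΛ Y hY hΛY => chyw hC hs0 hHY Λ hΛ Y hY hΛY)
  have h2 := cenw hC hs1 𝒟 𝒯
  have h3 : ∑ T : Finset (Fin r), (-1) ^ T.card *
        (((mulv (pf a) (inB T)) ^ 2 : ℕ) : RatFunc ℂ) *
          LLs (pf a) q (AAw ν) BB (DD (pf a) q g) (inB T) =
      ∑ T ∈ (inB (univ : Finset (Fin r))).powerset,
        (-1) ^ T.card * (((mulv (pf a) T) ^ 2 : ℕ) : RatFunc ℂ) *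
          LLs (pf a) q (AAw ν) BB (DD (pf a) q g) T := by
    refine Finset.sum_bij (fun T _ => inB T) ?_ ?_ ?_ ?_
    · intro T _
      rw [mem_powerset]
      exact Finset.map_subset_map.2 (subset_univ _)
    · intro T _ T' _ hTT
      exact Finset.map_injective _ hTT
    · intro T hT
      rw [mem_powerset] at hT
      obtain ⟨T', -, hT'⟩ := Finset.subset_map_iff.1 hT
      exact ⟨T', mem_univ _, hT'.symm⟩
    · intro T _
      rw [inB, card_map]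
  rw [← h3] at h1
  have h4 := h2.sub ((H37.SM.reg_X_div hs1).mul h1)
  rw [add_sub_cancel_right] at h4
  exact h4

theorem WPO_reg_inv {s0 : ℂ} (c : ℂ) (B : ℕ) (h : c + (B : ℂ) * s0 ≠ 0) :
    H37.SM.Reg s0 (RatFunc.C c + (B : RatFunc ℂ) * RatFunc.X)⁻¹ := by
  rw [H37.SM.reg_iff]
  refine ⟨1, Polynomial.C c + (B : Polynomial ℂ) * Polynomial.X, ?_, ?_⟩
  · simpa using h
  · rw [map_one, one_div, map_add, map_mul, map_natCast, RatFunc.algebraMap_C,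
      RatFunc.algebraMap_X]

theorem WPO_isFace {m r : ℕ} {a : Fin r → (Fin m →₀ ℕ)} {τ : Finset (Fin r)}
    (h : H22.T7.IsCFace a τ) : H22.IsFace a τ := by
  obtain ⟨k, hk, hl⟩ := h
  exact ⟨k, fun j => (hk j).le, hl⟩

theorem WPO_cface {m r : ℕ} {a : Fin r → (Fin m →₀ ℕ)} {τ : Finset (Fin r)}
    (hF : H22.IsFace a τ) {k : Fin m → ℝ} (hk : k ∈ H22.minCone a τ) (hpos : ∀ j, 0 < k j) :
    H22.T7.IsCFace a τ := by
  obtain ⟨k0, hk0, hl⟩ := hF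
  have hsum : ∀ l : Fin r, ∑ j, (a l j : ℝ) * (k0 j + k j) =
      ∑ j, (a l j : ℝ) * k0 j + ∑ j, (a l j : ℝ) * k j := by
    intro l
    rw [← Finset.sum_add_distrib]
    exact Finset.sum_congr rfl fun j _ => mul_add _ _ _
  refine ⟨fun j => k0 j + k j, fun j => add_pos_of_nonneg_of_pos (hk0 j) (hpos j), fun l =>
    ⟨fun hlτ l' => ?_, fun h => ?_⟩⟩
  · rw [hsum, hsum]
    exact add_le_add ((hl l).1 hlτ l') (hk.2 l hlτ l')
  · obtain ⟨i, -, hi⟩ := Finset.exists_min_image (Finset.univ : Finset (Fin r))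
      (fun l => ∑ j, (a l j : ℝ) * k0 j) ⟨l, Finset.mem_univ l⟩
    have hiτ : i ∈ τ := (hl i).2 fun l' => hi l' (Finset.mem_univ l')
    have h1 := h i
    simp only [hsum] at h1
    have h2 := hk.2 i hiτ l
    refine (hl l).2 fun l' => ?_
    have h3 := (hl i).1 hiτ l'
    linarith

theorem WPO_prod {s0 : ℂ} {ι : Type*} (T : Finset ι) (f : ι → RatFunc ℂ)
    (h : ∀ i ∈ T, H37.SM.Reg s0 (f i)) : H37.SM.Reg s0 (∏ i ∈ T, f i) := by
  classical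
  induction T using Finset.induction_on with
  | empty =>
    rw [Finset.prod_empty]
    have h1 := H37.SM.reg_natCast (s0 := s0) 1
    rwa [Nat.cast_one] at h1
  | insert i T hi ih =>
    rw [Finset.prod_insert hi]
    exact (h i (Finset.mem_insert_self i T)).mul
      (ih fun j hj => h j (Finset.mem_insert_of_mem hj))

theorem WPO_sign {s0 : ℂ} (k : ℕ) : H37.SM.Reg s0 ((-1 : RatFunc ℂ) ^ k) := by
  have h1 := H37.SM.reg_intCast (s0 := s0) ((-1) ^ k)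
  simpa using h1

theorem WPO_J {n r : ℕ} (ν : Fin n → ℚ) {a : Fin r → (Fin n →₀ ℕ)} {τ : Finset (Fin r)}
    (hz : ∀ w : Fin n → ℕ, 0 < H22.wmin a w → ∃ k : Fin n → ℝ, (∀ j, 0 < k j) ∧
      ∀ i, ∑ j, (a i j : ℝ) * k j = ∑ j, (a i j : ℝ) * (w j : ℝ))
    (hF : H22.IsFace a τ) (hC : ¬ H22.T7.IsCFace a τ) (𝒟 : H22.FaceCones a τ) (s0 : ℂ) :
    H37.SM.Reg s0 (JfunW ν a τ 𝒟) := by
  unfold JfunW
  refine H37.SM.Reg.sum _ _ fun C _ => (H37.SM.reg_natCast _).mul (WPO_prod _ _ fun c _ => ?_)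
  have h1 : H22.wmin a (𝒟.w C c) = 0 := by
    by_contra hne
    obtain ⟨k, hk, hki⟩ := hz (𝒟.w C c) (Nat.pos_of_ne_zero hne)
    refine hC (WPO_cface hF (k := k) ⟨fun j => (hk j).le, fun i hi l => ?_⟩ hk)
    rw [hki, hki]
    exact (𝒟.mem C c).2 i hi l
  rw [h1]
  by_cases h0 : (((wsp ν (𝒟.w C c) : ℚ) : ℂ)) = 0
  · rw [h0, map_zero, Nat.cast_zero, zero_mul, add_zero, inv_zero]
    exact H37.SM.reg_zero
  · refine WPO_reg_inv _ 0 ?_
    rw [Nat.cast_zero, zero_mul, add_zero]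
    exact h0

theorem locw {n r : ℕ} (ν : Fin n → ℚ) (hν : ∀ j, 0 < ν j) (a : Fin r → (Fin n →₀ ℕ))
    (hz : ∀ w : Fin n → ℕ, 0 < H22.wmin a w → ∃ k : Fin n → ℝ, (∀ j, 0 < k j) ∧
      ∀ i, ∑ j, (a i j : ℝ) * k j = ∑ j, (a i j : ℝ) * (w j : ℝ))
    (𝒟 : ∀ τ, H22.FaceCones a τ) (𝒯 : ∀ τ, H22.FaceTriang a τ) (s0 : ℂ) (hs1 : s0 ≠ -1)
    (h : H37.SM.Reg s0 (topZetaGW ν a 𝒟 𝒯)) : H37.SM.Reg s0 (topZetaLW ν a 𝒟 𝒯) := by
  classical
  set J : Finset (Fin r) → RatFunc ℂ := fun τ => JfunW ν a τ (𝒟 τ) with hJ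
  set V : Finset (Fin r) → RatFunc ℂ := fun τ =>
    (-1) ^ (H22.faceRank a τ - 1) * (H22.nvol (𝒯 τ) : RatFunc ℂ) * JfunW ν a τ (𝒟 τ) with hV
  have key : ∀ (p : Finset (Fin r) → Prop) [DecidablePred p] (g : Finset (Fin r) → RatFunc ℂ),
      ∑ τ ∈ univ.filter (fun τ : Finset (Fin r) => H22.T7.IsCFace a τ ∧ p τ), g τ +
        ∑ τ ∈ univ.filter (fun τ : Finset (Fin r) => (H22.IsFace a τ ∧ p τ) ∧
          ¬ H22.T7.IsCFace a τ), g τ =
      ∑ τ ∈ univ.filter (fun τ : Finset (Fin r) => H22.IsFace a τ ∧ p τ), g τ := by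
    intro p _ g
    rw [← Finset.sum_filter_add_sum_filter_not
      (univ.filter (fun τ : Finset (Fin r) => H22.IsFace a τ ∧ p τ))
      (fun τ => H22.T7.IsCFace a τ) g]
    congr 1
    · refine Finset.sum_congr ?_ fun _ _ => rfl
      ext τ
      simp only [Finset.mem_filter, Finset.mem_univ, true_and]
      constructor
      · rintro ⟨h1, h2⟩
        exact ⟨⟨WPO_isFace h1, h2⟩, h1⟩
      · rintro ⟨⟨_, h2⟩, h1⟩
        exact ⟨h1, h2⟩
    · refine Finset.sum_congr ?_ fun _ _ => rfl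
      ext τ
      simp only [Finset.mem_filter, Finset.mem_univ, true_and]
  have k1 := key (fun τ => H22.faceRank a τ = 1) J
  have k2 := key (fun τ => 2 ≤ H22.faceRank a τ) V
  have e : topZetaLW ν a 𝒟 𝒯 = topZetaGW ν a 𝒟 𝒯 -
      (∑ τ ∈ univ.filter (fun τ : Finset (Fin r) =>
          (H22.IsFace a τ ∧ H22.faceRank a τ = 1) ∧ ¬ H22.T7.IsCFace a τ), J τ +
        RatFunc.X / (RatFunc.X + 1) * ∑ τ ∈ univ.filter (fun τ : Finset (Fin r) =>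
          (H22.IsFace a τ ∧ 2 ≤ H22.faceRank a τ) ∧ ¬ H22.T7.IsCFace a τ), V τ) := by
    have e1 : topZetaGW ν a 𝒟 𝒯 =
        ∑ τ ∈ univ.filter (fun τ : Finset (Fin r) => H22.IsFace a τ ∧ H22.faceRank a τ = 1), J τ +
        RatFunc.X / (RatFunc.X + 1) *
        ∑ τ ∈ univ.filter (fun τ : Finset (Fin r) => H22.IsFace a τ ∧ 2 ≤ H22.faceRank a τ), V τ := by
      unfold topZetaGW
      congr!
    have e2 : topZetaLW ν a 𝒟 𝒯 =
        ∑ τ ∈ univ.filter (fun τ : Finset (Fin r) => H22.T7.IsCFace a τ ∧ H22.faceRank a τ = 1),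
          J τ +
        RatFunc.X / (RatFunc.X + 1) *
        ∑ τ ∈ univ.filter (fun τ : Finset (Fin r) => H22.T7.IsCFace a τ ∧ 2 ≤ H22.faceRank a τ),
          V τ := by
      unfold topZetaLW
      congr!
    rw [e1, e2, ← k1, ← k2]
    ring
  rw [e]
  refine h.sub ((H37.SM.Reg.sum _ _ fun τ hτ => ?_).add ((H37.SM.reg_X_div hs1).mul
    (H37.SM.Reg.sum _ _ fun τ hτ => ?_)))
  · rw [Finset.mem_filter] at hτ
    exact WPO_J ν hz hτ.2.1.1 hτ.2.2 _ _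
  · rw [Finset.mem_filter] at hτ
    exact H37.SM.Reg.mul (H37.SM.Reg.mul (WPO_sign _) (H37.SM.reg_natCast _))
      (WPO_J ν hz hτ.2.1.1 hτ.2.2 _ _)

theorem WPO_J0 {n r : ℕ} (ν : Fin n → ℚ) (hν : ∀ j, 0 < ν j) (a : Fin r → (Fin n →₀ ℕ))
    (τ : Finset (Fin r)) (𝒟 : H22.FaceCones a τ) (s0 : ℂ) (hs : 0 ≤ s0.re) :
    H37.SM.Reg s0 (JfunW ν a τ 𝒟) := by
  unfold JfunW
  refine H37.SM.Reg.sum _ _ fun C _ => (H37.SM.reg_natCast _).mul (WPO_prod _ _ fun c _ => ?_)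
  apply WPO_reg_inv
  have hw : ∃ j, 0 < 𝒟.w C c j := by
    by_contra hcon
    push Not at hcon
    apply (𝒟.indep C).ne_zero c
    funext j
    have h1 : 𝒟.w C c j = 0 := Nat.le_zero.1 (hcon j)
    simp [H22.toReal, h1]
  obtain ⟨j0, hj0⟩ := hw
  have hpos : 0 < wsp ν (𝒟.w C c) := by
    unfold wsp
    refine Finset.sum_pos' (fun j _ => mul_nonneg (hν j).le (Nat.cast_nonneg _)) ⟨j0, mem_univ _, ?_⟩
    exact mul_pos (hν j0) (by exact_mod_cast hj0)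
  intro h0
  have h1 := congrArg Complex.re h0
  rw [Complex.add_re, Complex.mul_re, Complex.natCast_re, Complex.natCast_im, Complex.zero_re,
    zero_mul, sub_zero, Complex.ratCast_re] at h1
  have h2 : (0 : ℝ) < ((wsp ν (𝒟.w C c) : ℚ) : ℝ) := by exact_mod_cast hpos
  have h3 : (0 : ℝ) ≤ (H22.wmin a (𝒟.w C c) : ℝ) * s0.re := mul_nonneg (Nat.cast_nonneg _) hs
  linarith

theorem reg0 {n r : ℕ} (ν : Fin n → ℚ) (hν : ∀ j, 0 < ν j) (a : Fin r → (Fin n →₀ ℕ))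
    (𝒟 : ∀ τ, H22.FaceCones a τ) (𝒯 : ∀ τ, H22.FaceTriang a τ) (s0 : ℂ) (hs : 0 ≤ s0.re) :
    H37.SM.Reg s0 (topZetaLW ν a 𝒟 𝒯) := by
  have hs1 : s0 ≠ -1 := by
    rintro rfl
    norm_num at hs
  unfold topZetaLW
  refine (H37.SM.Reg.sum _ _ fun τ _ => WPO_J0 ν hν a τ _ s0 hs).add
    ((H37.SM.reg_X_div hs1).mul (H37.SM.Reg.sum _ _ fun τ _ => ?_))
  exact H37.SM.Reg.mul (H37.SM.Reg.mul (WPO_sign _) (H37.SM.reg_natCast _))
    (WPO_J0 ν hν a τ _ s0 hs)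

/-- WPO -/
theorem poleswL {n r : ℕ} (ν : Fin n → ℕ) (hν : ∀ j, 0 < ν j) (a : Fin r → (Fin n →₀ ℕ))
    (ha : Function.Injective a) (hne : ∃ i, a i ≠ 0)
    (hz : ∀ w : Fin n → ℕ, 0 < H22.wmin a w → ∃ k : Fin n → ℝ, (∀ j, 0 < k j) ∧
      ∀ i, ∑ j, (a i j : ℝ) * k j = ∑ j, (a i j : ℝ) * (w j : ℝ))
    (s0 : ℂ) (hs1 : s0 ≠ -1) (hHY : HYp a (qN ν) (TT1 (qN ν)) s0)
    (𝒟 : ∀ τ, H22.FaceCones a τ) (𝒯 : ∀ τ, H22.FaceTriang a τ) :
    H37.SM.Reg s0 (topZetaLW (qN ν) a 𝒟 𝒯) := by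
  by_cases h : 0 ≤ s0.re
  · exact reg0 _ (fun j => by simp [qN, hν j]) a 𝒟 𝒯 s0 h
  · refine locw _ (fun j => by simp [qN, hν j]) a hz 𝒟 𝒯 s0 hs1
      (polesw ν hν a ha hne s0 hs1 ?_ hHY 𝒟 𝒯)
    rintro rfl
    exact h (by simp)

end Pool.Agent.H56.CT
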