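import Pool.Agent.H56.CT.SDefs
import Pool.Agent.H56.CT.WPO

/-!
# HBS: regularity of the zeta function of a system with integral weights

`a' = pbE a (toQ ∘ S)`, `ν' = pbW (toQ ∘ S) = qN ν''` (`ν''` natural numbers, positive).  `ZS` with arbitrary decompositions: `ZS` is a `topZetaLW`, apply `poleswL`.  `a'` is injective: every variable has some `N_{kδ} > 0`.
`hz`: let `N(w') > 0`, `w_k = ∑_δ N_{kδ} w'_{kδ}`; `∑_j a'_ij w'_j = ∑_k a_ik w_k` for all `i`, so `wmin a' w' = wmin a w`.  All `w_k > 0`: `a i = single k d` (`hconv`), `0 < N(w) ≤ d w_k`.  Put `k'_{kδ} = w_k / (2 N_{kδ})` if both `N_{k0}, N_{k1} > 0`; if one of them is `0`: `1` there, `w_k / N` at the other.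
`HYp a' ν' (TT1 ν') s0`: let `YDp a' ν' w' Yb Yj`, `s0 = s0p a' ν' w'`.  `N(w') > 0`, so `w_k > 0` for all `k`.
(1) For a column `(k, δ)` with `N_{kδ} = 0`: the rows have coordinate `0`, `p0W` has the coordinate `ν' > 0`, so by `span` `(k, δ) ∈ Yj` and `w'_{kδ} = 0` (`onj`).
(2) for every `k` there is `δ` with `N_{kδ} > 0` and `w'_{kδ} > 0` (`w_k > 0`), so `(k, δ) ∉ Yj`.  `span`: `p0W a' ν' w' = ∑_{b ∈ Yb} λ_b rowR a' b + ∑_{j ∈ Yj} μ_j e_j`; coordinate `(k, δ)`: `ν'_{kδ} = N_{kδ} ∑ λ_b a_bk`, so `x_k := ∑_b λ_b a_bk = ν'_{kδ} / N_{kδ}` for all `δ` with `w'_{kδ} > 0`.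
(3) `wsp ν' w' = ∑_k x_k w_k`: in the group `k`: `∑_δ ν'_{kδ} w'_{kδ} = x_k ∑_δ N_{kδ} w'_{kδ}` (`N_{kδ} = 0` implies `w'_{kδ} = 0`).
(4) `x_k = κ_k`: for `k ∉ T` (`GoodS`): `x_k = κ_k` or `x_k ≥ K` (positive numbers `N_{kδ}`).  If `x_k ≥ K` for some `k`: `a i = single k d`, `N(w) ≤ d w_k`, and `-re s0 = (∑ x_k w_k)/N(w) ≥ K w_k / (d w_k)`, so `K ≤ -re s0 * d`, contradicting `hK` (all `x_k > 0`, `d > 0`).  For `k ∈ T`: `S k = ⟨1,1,0,1⟩`, `x_k = 1 = κ_k` (`hκT`).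
(5) So `s0 = s0p a κ w`.  `YDp a κ w Yb ∅`: `pos`, `on`: the values agree.  `ind`: a relation between the `rowR a b` gives the same relation between the `rowR a' b`.  `rel`: given `y` for `a`; put `y'_{kδ} = y_k / N_{kδ}` for one chosen `δ` as in (2) for every `k`, `0` at the other columns, `y' (inl ()) = y (inl ())`:
`∑ rowR a' i * y' = ∑ rowR a i * y`, `y' = 0` at all columns with `w' = 0`; apply `rel` for `a'` (`onj`).  `span`: (2), and the coordinate `inl ()`: `∑ λ_b = (wsp ν' w')/N = (wsp κ w)/N`, so `p0W a κ w = ∑ λ_b rowR a b`.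
(6) `hB` gives `b`, `k ∈ T` with `ApexY a Yb ∅ b k`, `k` unique among the `k'` with `κ_k' = 1`.  `S k = ⟨1,1,0,1⟩`; `(k, 0)` is an apex direction of `b` for `a'` (`(k,0) ∉ Yj` as `w'_{k0} = w_k > 0`), with weight `1`.  Let `(k'', δ)` be an apex direction of `b` for `a'` with weight `ν'_{k''δ} = 1`:
`N_{k''δ} a_{bk''} = 1`, so both are `1`, and `N a_{b'k''} = 0` for the other `b'`, so `k''` is an apex direction of `b` for `a`; `κ_k'' = 1`: `GoodS` with `N = 1`, `ν = 1` gives `1 = κ_k''` or `K ≤ 1`, the latter is excluded by `hK1`.  So `k'' = k`, and `N_{kδ} = 1` gives `δ = 0`.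
-/

set_option autoImplicit false

namespace Pool.Agent.H56.CT

open Finset

section HBS

theorem HBS_sum {m : ℕ} {M : Type*} [AddCommMonoid M] (f : Fin (m * 2) → M) :
    ∑ j, f j = ∑ k : Fin m, ∑ δ : Fin 2, f (finProdFinEquiv (k, δ)) := by
  rw [← Equiv.sum_comp (finProdFinEquiv (m := m) (n := 2)) f, Fintype.sum_prod_type]

variable {m r : ℕ} (a : Fin r → (Fin m →₀ ℕ)) (S : Fin m → Slt)

/-- the weight vector below -/
def HBS_w (w' : Fin (m * 2) → ℕ) (k : Fin m) : ℕ :=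
  ∑ δ, (S k).N δ * w' (finProdFinEquiv (k, δ))

theorem HBS_val (w' : Fin (m * 2) → ℕ) (i : Fin r) :
    ∑ j, pbE a S i j * w' j = ∑ k, a i k * HBS_w S w' k := by
  rw [HBS_sum]
  refine Finset.sum_congr rfl fun k _ => ?_
  unfold HBS_w
  rw [Finset.mul_sum]
  refine Finset.sum_congr rfl fun δ _ => ?_
  rw [pbE_apply]
  ring

theorem HBS_valR (y : Fin (m * 2) → ℝ) (i : Fin r) :
    ∑ j, (pbE a S i j : ℝ) * y j =
      ∑ k, (a i k : ℝ) * ∑ δ, ((S k).N δ : ℝ) * y (finProdFinEquiv (k, δ)) := by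
  rw [HBS_sum]
  refine Finset.sum_congr rfl fun k _ => ?_
  rw [Finset.mul_sum]
  refine Finset.sum_congr rfl fun δ _ => ?_
  rw [pbE_apply]
  push_cast
  ring

theorem HBS_wmin (w' : Fin (m * 2) → ℕ) :
    H22.wmin (pbE a S) w' = H22.wmin a (HBS_w S w') := by
  unfold H22.wmin
  exact iInf_congr fun i => HBS_val a S w' i

theorem HBS_wmin_le {n s : ℕ} (b : Fin s → (Fin n →₀ ℕ)) (w : Fin n → ℕ) (i : Fin s) :
    H22.wmin b w ≤ ∑ j, b i j * w j := ciInf_le (OrderBot.bddBelow _) i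

theorem HBS_single {n : ℕ} (k : Fin n) (d : ℕ) (w : Fin n → ℕ) :
    ∑ j, (Finsupp.single k d) j * w j = d * w k := by
  rw [Finset.sum_eq_single k]
  · rw [Finsupp.single_eq_same]
  · intro j _ hj
    rw [Finsupp.single_eq_of_ne hj, zero_mul]
  · intro h
    exact absurd (Finset.mem_univ k) h

theorem HBS_wpos (hconv : H22.T7.Conv a) {w : Fin m → ℕ} (hpos : 0 < H22.wmin a w) (k : Fin m) :
    0 < w k := by
  obtain ⟨i, d, hi⟩ := hconv k
  have h1 := hpos.trans_le (HBS_wmin_le a w i)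
  rw [hi, HBS_single] at h1
  exact Nat.pos_of_ne_zero fun h => by
    rw [h, mul_zero] at h1
    exact lt_irrefl _ h1

theorem HBS_row {n s : ℕ} (b : Fin s → (Fin n →₀ ℕ)) (i : Fin s) (y : Unit ⊕ Fin n → ℝ) :
    ∑ t, H22.rowR b i t * y t = y (Sum.inl ()) + ∑ j, (b i j : ℝ) * y (Sum.inr j) := by
  rw [Fintype.sum_sum_type]
  simp [H22.rowR]

theorem HBS_good {κ : ℚ} {t : Prop} {K : ℚ} {s : Str} (h : GoodS κ t K s) (hκ1 : t → κ = 1) :
    (∀ δ, 0 < (toQ s).w δ) ∧ (∃ δ, 0 < (toQ s).N δ) ∧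
      (∀ δ, 0 < (toQ s).N δ → (toQ s).w δ = κ * ((toQ s).N δ : ℚ) ∨
        K * ((toQ s).N δ : ℚ) ≤ (toQ s).w δ) ∧
      (t → s = ⟨1, 1, 0, 1⟩) := by
  rcases h with ⟨ht, rfl⟩ | ⟨ht, h1, h2, h3, h4, h5⟩
  · refine ⟨?_, ⟨0, ?_⟩, ?_, fun _ => rfl⟩
    · rw [Fin.forall_fin_two]
      simp [toQ, Slt.w]
    · simp [toQ, Slt.N]
    · rw [Fin.forall_fin_two]
      simp [toQ, Slt.N, Slt.w, hκ1 ht]
  · refine ⟨?_, ?_, ?_, fun h => absurd h ht⟩
    · rw [Fin.forall_fin_two]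
      simp [toQ, Slt.w, h1, h2]
    · rcases h3 with h3 | h3
      · exact ⟨0, by simpa [toQ, Slt.N] using h3⟩
      · exact ⟨1, by simpa [toQ, Slt.N] using h3⟩
    · rw [Fin.forall_fin_two]
      refine ⟨?_, ?_⟩
      · simpa [toQ, Slt.N, Slt.w] using h4
      · simpa [toQ, Slt.N, Slt.w] using h5

theorem HBS_span {n s : ℕ} (b : Fin s → (Fin n →₀ ℕ)) (Yb : Finset (Fin s)) (Yj : Finset (Fin n))
    {x : Unit ⊕ Fin n → ℝ}
    (h : x ∈ Submodule.span ℝ
      ({y | ∃ i ∈ Yb, y = H22.rowR b i} ∪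
        {y | ∃ j ∈ Yj, y = (Pool.Agent.H37.T5.eR j : Unit ⊕ Fin n → ℝ)})) :
    ∃ (l : Fin s → ℝ) (μ : Fin n → ℝ), (∀ j, j ∉ Yj → μ j = 0) ∧
      x (Sum.inl ()) = ∑ i ∈ Yb, l i ∧ ∀ j, x (Sum.inr j) = ∑ i ∈ Yb, l i * (b i j : ℝ) + μ j := by
  classical
  induction h using Submodule.span_induction with
  | mem x hx =>
    rcases hx with ⟨i, hi, rfl⟩ | ⟨j, hj, rfl⟩
    · refine ⟨fun i' => if i' = i then 1 else 0, 0, fun _ _ => rfl, ?_, fun j => ?_⟩
      · simp [H22.rowR, hi]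
      · simp [H22.rowR, hi]
    · refine ⟨0, fun j' => if j' = j then 1 else 0, fun j' hj' => ?_, ?_, fun j' => ?_⟩
      · refine if_neg fun h => ?_
        rw [h] at hj'
        exact hj' hj
      · simp [Pool.Agent.H37.T5.eR]
      · simp [Pool.Agent.H37.T5.eR, Pi.single_apply]
  | zero => exact ⟨0, 0, fun _ _ => rfl, by simp, fun j => by simp⟩
  | add x y _ _ hx hy =>
    obtain ⟨l1, μ1, h1, h2, h3⟩ := hx
    obtain ⟨l2, μ2, h4, h5, h6⟩ := hy
    refine ⟨l1 + l2, μ1 + μ2, fun j hj => ?_, ?_, fun j => ?_⟩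
    · rw [Pi.add_apply, h1 j hj, h4 j hj, add_zero]
    · rw [Pi.add_apply, h2, h5, ← Finset.sum_add_distrib]
      rfl
    · rw [Pi.add_apply, h3, h6]
      simp only [Pi.add_apply, add_mul, Finset.sum_add_distrib]
      ring
  | smul c x _ hx =>
    obtain ⟨l1, μ1, h1, h2, h3⟩ := hx
    refine ⟨c • l1, c • μ1, fun j hj => ?_, ?_, fun j => ?_⟩
    · rw [Pi.smul_apply, h1 j hj, smul_zero]
    · rw [Pi.smul_apply, h2, smul_eq_mul, Finset.mul_sum]
      rfl
    · rw [Pi.smul_apply, h3]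
      simp only [Pi.smul_apply, smul_eq_mul, mul_add, Finset.mul_sum, mul_assoc]

/-- the linear map with `rowR a b ↦ rowR a' b` -/
def HBS_L : (Unit ⊕ Fin m → ℝ) →ₗ[ℝ] (Unit ⊕ Fin (m * 2) → ℝ) where
  toFun y := Sum.elim (fun _ => y (Sum.inl ())) fun j =>
    ((S (finProdFinEquiv.symm j).1).N (finProdFinEquiv.symm j).2 : ℝ) *
      y (Sum.inr (finProdFinEquiv.symm j).1)
  map_add' y z := by
    funext t
    rcases t with t | t
    · rfl
    · simp [mul_add]
  map_smul' c y := by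
    funext t
    rcases t with t | t
    · rfl
    · simp only [Sum.elim_inr, Pi.smul_apply, smul_eq_mul, RingHom.id_apply]
      ring

theorem HBS_L_row (i : Fin r) : HBS_L S (H22.rowR a i) = H22.rowR (pbE a S) i := by
  funext t
  rcases t with t | j
  · rfl
  · obtain ⟨⟨k, δ⟩, rfl⟩ := finProdFinEquiv.surjective j
    show ((S (finProdFinEquiv.symm (finProdFinEquiv (k, δ))).1).N
      (finProdFinEquiv.symm (finProdFinEquiv (k, δ))).2 : ℝ) *
      (a i (finProdFinEquiv.symm (finProdFinEquiv (k, δ))).1 : ℝ) =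
      (pbE a S i (finProdFinEquiv (k, δ)) : ℝ)
    rw [Equiv.symm_apply_apply, pbE_apply]
    push_cast
    rfl

theorem HBS_ind (Yb : Finset (Fin r)) (Yj : Finset (Fin (m * 2)))
    (h : LinearIndependent ℝ (Sum.elim (fun b : Yb => H22.rowR (pbE a S) b.1)
      (fun j : Yj => (Pool.Agent.H37.T5.eR j.1 : Unit ⊕ Fin (m * 2) → ℝ)))) :
    LinearIndependent ℝ (Sum.elim (fun b : Yb => H22.rowR a b.1)
      (fun j : (∅ : Finset (Fin m)) => (Pool.Agent.H37.T5.eR j.1 : Unit ⊕ Fin m → ℝ))) := by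
  have h1 : LinearIndependent ℝ (fun b : Yb => H22.rowR (pbE a S) b.1) :=
    h.comp (Sum.inl : Yb → Yb ⊕ Yj) Sum.inl_injective
  have h2 : LinearIndependent ℝ (fun b : Yb => H22.rowR a b.1) := by
    refine LinearIndependent.of_comp (HBS_L S) ?_
    have e : (⇑(HBS_L S) ∘ fun b : Yb => H22.rowR a b.1) =
        fun b : Yb => H22.rowR (pbE a S) b.1 := by
      funext b
      exact HBS_L_row a S b.1
    rw [e]
    exact h1
  have hem : IsEmpty {x // x ∈ (∅ : Finset (Fin m))} := ⟨fun x => absurd x.2 (Finset.notMem_empty _)⟩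
  rw [linearIndependent_sum]
  refine ⟨?_, ?_, ?_⟩
  · exact h2
  · exact linearIndependent_empty_type
  · have e : Set.range ((Sum.elim (fun b : Yb => H22.rowR a b.1)
        (fun j : (∅ : Finset (Fin m)) => (Pool.Agent.H37.T5.eR j.1 : Unit ⊕ Fin m → ℝ))) ∘ Sum.inr)
        = ∅ := Set.range_eq_empty _
    rw [e, Submodule.span_empty]
    exact disjoint_bot_right

theorem HBS_hz (hconv : H22.T7.Conv a) (hN : ∀ k, ∃ δ, 0 < (S k).N δ) (w' : Fin (m * 2) → ℕ)
    (hpos : 0 < H22.wmin (pbE a S) w') :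
    ∃ k : Fin (m * 2) → ℝ, (∀ j, 0 < k j) ∧
      ∀ i, ∑ j, (pbE a S i j : ℝ) * k j = ∑ j, (pbE a S i j : ℝ) * (w' j : ℝ) := by
  rw [HBS_wmin] at hpos
  have hw := HBS_wpos a hconv hpos
  refine ⟨fun j =>
    if 0 < (S (finProdFinEquiv.symm j).1).N 0 ∧ 0 < (S (finProdFinEquiv.symm j).1).N 1 then
      (HBS_w S w' (finProdFinEquiv.symm j).1 : ℝ) /
        (2 * ((S (finProdFinEquiv.symm j).1).N (finProdFinEquiv.symm j).2 : ℝ))
    else if 0 < (S (finProdFinEquiv.symm j).1).N (finProdFinEquiv.symm j).2 then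
      (HBS_w S w' (finProdFinEquiv.symm j).1 : ℝ) /
        ((S (finProdFinEquiv.symm j).1).N (finProdFinEquiv.symm j).2 : ℝ) else 1, ?_, ?_⟩
  · intro j
    obtain ⟨⟨k, δ⟩, rfl⟩ := finProdFinEquiv.surjective j
    simp only [Equiv.symm_apply_apply]
    have h0 : (0 : ℝ) < HBS_w S w' k := by exact_mod_cast hw k
    split_ifs with h1 h2
    · have h3 : 0 < (S k).N δ := by
        have h4 : ∀ δ : Fin 2, 0 < (S k).N δ := Fin.forall_fin_two.2 h1
        exact h4 δ
      have h5 : (0 : ℝ) < ((S k).N δ : ℝ) := by exact_mod_cast h3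
      positivity
    · have h5 : (0 : ℝ) < ((S k).N δ : ℝ) := by exact_mod_cast h2
      positivity
    · exact one_pos
  · intro i
    rw [HBS_valR, HBS_valR]
    refine Finset.sum_congr rfl fun k _ => ?_
    congr 1
    have e : ∑ δ, ((S k).N δ : ℝ) * (w' (finProdFinEquiv (k, δ)) : ℝ) = (HBS_w S w' k : ℝ) := by
      unfold HBS_w
      push_cast
      rfl
    rw [e]
    simp only [Equiv.symm_apply_apply]
    rw [Fin.sum_univ_two]
    by_cases h0 : 0 < (S k).N 0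
    · have h0' : ((S k).N 0 : ℝ) ≠ 0 := by exact_mod_cast h0.ne'
      by_cases h1 : 0 < (S k).N 1
      · have h1' : ((S k).N 1 : ℝ) ≠ 0 := by exact_mod_cast h1.ne'
        rw [if_pos ⟨h0, h1⟩, if_pos ⟨h0, h1⟩]
        field_simp
        norm_num
      · have hc : ¬ (0 < (S k).N 0 ∧ 0 < (S k).N 1) := fun h => h1 h.2
        simp only [if_neg hc, if_pos h0, if_neg h1]
        have h2 : (S k).N 1 = 0 := by omega
        rw [h2]
        field_simp
        norm_num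
    · have h2 : (S k).N 0 = 0 := by omega
      have h1 : 0 < (S k).N 1 := by
        obtain ⟨δ, hδ⟩ := hN k
        by_contra hc
        have h3 : ∀ δ : Fin 2, ¬ 0 < (S k).N δ := Fin.forall_fin_two.2 ⟨h0, hc⟩
        exact h3 δ hδ
      have h1' : ((S k).N 1 : ℝ) ≠ 0 := by exact_mod_cast h1.ne'
      have hc : ¬ (0 < (S k).N 0 ∧ 0 < (S k).N 1) := fun h => h0 h.1
      simp only [if_neg hc, if_pos h1, if_neg h0]
      rw [h2]
      field_simp
      norm_num

theorem HBS_cast (p : ℚ) (N : ℕ) : (-((p : ℚ) : ℂ) / (N : ℂ)).re = -((p : ℚ) : ℝ) / (N : ℝ) := by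
  have h : (-((p : ℚ) : ℂ) / (N : ℂ)) = ((-((p : ℚ) : ℝ) / (N : ℝ) : ℝ) : ℂ) := by
    push_cast
    rfl
  rw [h, Complex.ofReal_re]

theorem HBS_core (hconv : H22.T7.Conv a) (κ : Fin m → ℚ) (T : Finset (Fin m)) (s0 : ℂ)
    (hB : HB a κ T s0) (K : ℚ)
    (hK : ∀ (i : Fin r) (k : Fin m) (d : ℕ), a i = Finsupp.single k d → -s0.re * d < K)
    (hK1 : 1 < K)
    (hW : ∀ k δ, 0 < (S k).w δ)
    (hG : ∀ k δ, 0 < (S k).N δ → (S k).w δ = κ k * ((S k).N δ : ℚ) ∨
      K * ((S k).N δ : ℚ) ≤ (S k).w δ)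
    (hT : ∀ k ∈ T, S k = ⟨1, 1, 0, 1⟩) : HYp (pbE a S) (pbW S) (TT1 (pbW S)) s0 := by
  intro w' Yb Yj hY hs0
  obtain ⟨w, hw⟩ : ∃ w : Fin m → ℕ, w = HBS_w S w' := ⟨_, rfl⟩
  have hmin : H22.wmin (pbE a S) w' = H22.wmin a w := by rw [hw, HBS_wmin]
  have hval : ∀ i, ∑ j, pbE a S i j * w' j = ∑ k, a i k * w k := fun i => by
    rw [hw, HBS_val]
  have hpos : 0 < H22.wmin a w := hmin ▸ hY.pos
  have hposR : (0 : ℝ) < (H22.wmin a w : ℝ) := by exact_mod_cast hpos
  have hwpos := HBS_wpos a hconv hpos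
  obtain ⟨l, μ, hμ, e1, e2⟩ := HBS_span _ Yb Yj hY.span
  obtain ⟨x, hx⟩ : ∃ x : Fin m → ℝ, x = fun k => ∑ b ∈ Yb, l b * (a b k : ℝ) := ⟨_, rfl⟩
  have e3 : ∀ k δ, w' (finProdFinEquiv (k, δ)) ≠ 0 →
      (((S k).w δ : ℚ) : ℝ) = ((S k).N δ : ℝ) * x k := by
    intro k δ h
    have h1 := e2 (finProdFinEquiv (k, δ))
    rw [hμ _ (fun hj => h (hY.onj _ hj)), add_zero] at h1
    have h2 : p0W (pbE a S) (pbW S) w' (Sum.inr (finProdFinEquiv (k, δ))) =
        (((S k).w δ : ℚ) : ℝ) := by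
      show ((pbW S (finProdFinEquiv (k, δ)) : ℚ) : ℝ) = _
      rw [pbW_apply]
    rw [h2] at h1
    rw [h1, hx]
    dsimp only
    rw [Finset.mul_sum]
    refine Finset.sum_congr rfl fun b _ => ?_
    rw [pbE_apply]
    push_cast
    ring
  have hNp : ∀ k δ, w' (finProdFinEquiv (k, δ)) ≠ 0 → 0 < (S k).N δ := by
    intro k δ h
    have h1 := e3 k δ h
    have h2 : (0 : ℝ) < (((S k).w δ : ℚ) : ℝ) := by exact_mod_cast hW k δ
    refine Nat.pos_of_ne_zero fun h3 => ?_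
    rw [h3, Nat.cast_zero, zero_mul] at h1
    rw [h1] at h2
    exact lt_irrefl _ h2
  have hδ : ∀ k, ∃ δ, w' (finProdFinEquiv (k, δ)) ≠ 0 := by
    intro k
    by_contra hc
    push Not at hc
    have h1 : w k = 0 := by
      rw [hw]
      unfold HBS_w
      exact Finset.sum_eq_zero fun δ _ => by rw [hc δ, mul_zero]
    exact (hwpos k).ne' h1
  choose δ0 hδ0 using hδ
  have hxpos : ∀ k, 0 < x k := by
    intro k
    have h1 := e3 k _ (hδ0 k)
    have h2 : (0 : ℝ) < (((S k).w (δ0 k) : ℚ) : ℝ) := by exact_mod_cast hW k _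
    have h3 : (0 : ℝ) < ((S k).N (δ0 k) : ℝ) := by exact_mod_cast hNp k _ (hδ0 k)
    rw [h1] at h2
    exact (mul_pos_iff_of_pos_left h3).1 h2
  have hsum : ((wsp (pbW S) w' : ℚ) : ℝ) = ∑ k, x k * (w k : ℝ) := by
    unfold wsp
    push_cast
    rw [HBS_sum]
    refine Finset.sum_congr rfl fun k _ => ?_
    rw [hw]
    unfold HBS_w
    push_cast
    rw [Finset.mul_sum]
    refine Finset.sum_congr rfl fun δ _ => ?_
    rw [pbW_apply]
    by_cases h : w' (finProdFinEquiv (k, δ)) = 0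
    · rw [h]
      simp
    · rw [e3 k δ h]
      ring
  have hre : s0.re = -(∑ k, x k * (w k : ℝ)) / (H22.wmin a w : ℝ) := by
    rw [hs0]
    unfold s0p
    rw [HBS_cast, hsum, hmin]
  have hxκ : ∀ k, x k = (κ k : ℝ) := by
    intro k
    have h1 := e3 k _ (hδ0 k)
    have h3 : (0 : ℝ) < ((S k).N (δ0 k) : ℝ) := by exact_mod_cast hNp k _ (hδ0 k)
    rcases hG k _ (hNp k _ (hδ0 k)) with h | h
    · rw [h] at h1
      push_cast at h1
      have h4 : ((S k).N (δ0 k) : ℝ) * x k = ((S k).N (δ0 k) : ℝ) * (κ k : ℝ) := by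
        rw [← h1]
        ring
      exact mul_left_cancel₀ h3.ne' h4
    · exfalso
      have h4 : ((K * ((S k).N (δ0 k) : ℚ) : ℚ) : ℝ) ≤ (((S k).w (δ0 k) : ℚ) : ℝ) := by
        exact_mod_cast h
      rw [h1] at h4
      push_cast at h4
      have h5 : (K : ℝ) ≤ x k := by
        rw [mul_comm] at h4
        exact le_of_mul_le_mul_left h4 h3
      obtain ⟨i, d, hi⟩ := hconv k
      have h6 := hK i k d hi
      have h7 := HBS_wmin_le a w i
      rw [hi, HBS_single] at h7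
      have h8 : (H22.wmin a w : ℝ) ≤ d * w k := by exact_mod_cast h7
      have h9 : x k * (w k : ℝ) ≤ ∑ k, x k * (w k : ℝ) :=
        Finset.single_le_sum (f := fun k => x k * (w k : ℝ))
          (fun k _ => mul_nonneg (hxpos k).le (Nat.cast_nonneg _)) (Finset.mem_univ k)
      have h10 : -s0.re * d = (∑ k, x k * (w k : ℝ)) * d / (H22.wmin a w : ℝ) := by
        rw [hre]
        ring
      have h11 : x k ≤ (∑ k, x k * (w k : ℝ)) * d / (H22.wmin a w : ℝ) := by
        rw [le_div_iff₀ hposR]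
        calc x k * (H22.wmin a w : ℝ) ≤ x k * (d * w k) :=
              mul_le_mul_of_nonneg_left h8 (hxpos k).le
          _ = x k * (w k : ℝ) * d := by ring
          _ ≤ _ := mul_le_mul_of_nonneg_right h9 (Nat.cast_nonneg d)
      rw [h10] at h6
      linarith
  have hwsp : wsp κ w = wsp (pbW S) w' := by
    have h1 : ((wsp κ w : ℚ) : ℝ) = ((wsp (pbW S) w' : ℚ) : ℝ) := by
      rw [hsum]
      unfold wsp
      push_cast
      exact Finset.sum_congr rfl fun k _ => by rw [hxκ]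
    exact_mod_cast h1
  have hs0' : s0 = s0p a κ w := by
    rw [hs0]
    unfold s0p
    rw [hwsp, hmin]
  have hYD : YDp a κ w Yb ∅ := by
    refine ⟨hpos, ?_, ?_, HBS_ind a S Yb Yj hY.ind, ?_, ?_⟩
    · intro b hb
      rw [← hval, hY.on b hb, hmin]
    · intro j hj
      exact absurd hj (Finset.notMem_empty j)
    · intro y h1 _ h3 _
      obtain ⟨y', hy'⟩ : ∃ y' : Unit ⊕ Fin (m * 2) → ℝ, y' = Sum.elim (fun _ => y (Sum.inl ()))
          (fun j => if (finProdFinEquiv.symm j).2 = δ0 (finProdFinEquiv.symm j).1 then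
            y (Sum.inr (finProdFinEquiv.symm j).1) /
              ((S (finProdFinEquiv.symm j).1).N (finProdFinEquiv.symm j).2 : ℝ) else 0) := ⟨_, rfl⟩
      have hy0 : y' (Sum.inl ()) = y (Sum.inl ()) := by rw [hy', Sum.elim_inl]
      have hy1 : ∀ k δ, y' (Sum.inr (finProdFinEquiv (k, δ))) =
          if δ = δ0 k then y (Sum.inr k) / ((S k).N δ : ℝ) else 0 := by
        intro k δ
        rw [hy', Sum.elim_inr, Equiv.symm_apply_apply]
      have hrow : ∀ i, ∑ t, H22.rowR (pbE a S) i t * y' t = ∑ t, H22.rowR a i t * y t := by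
        intro i
        rw [HBS_row, HBS_row, hy0, HBS_valR a S (fun j => y' (Sum.inr j)) i]
        congr 1
        refine Finset.sum_congr rfl fun k _ => ?_
        congr 1
        rw [Finset.sum_eq_single (δ0 k)]
        · rw [hy1, if_pos rfl]
          have h4 : ((S k).N (δ0 k) : ℝ) ≠ 0 := by exact_mod_cast (hNp k _ (hδ0 k)).ne'
          field_simp
        · intro δ _ hδ
          rw [hy1, if_neg hδ, mul_zero]
        · intro h
          exact absurd (Finset.mem_univ _) h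
      have hz0 : ∀ j, w' j = 0 → y' (Sum.inr j) = 0 := by
        intro j hj
        obtain ⟨⟨k, δ⟩, rfl⟩ := finProdFinEquiv.surjective j
        rw [hy1, if_neg]
        rintro rfl
        exact hδ0 k hj
      have h5 := hY.rel y' (fun i hi => by
          rw [hrow]
          refine h1 i ?_
          rw [← hval, hi, hmin]) (fun j hj => (hz0 j hj).ge) (fun b hb => by
          rw [hrow]
          exact h3 b hb) (fun j hj => hz0 j (hY.onj j hj))
      refine ⟨fun i hi => ?_, fun k hk => absurd hk (hwpos k).ne'⟩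
      rw [← hrow]
      refine h5.1 i ?_
      rw [hval, hi, hmin]
    · have e : p0W a κ w = ∑ b ∈ Yb, l b • H22.rowR a b := by
        funext t
        rw [Finset.sum_apply]
        rcases t with t | k
        · have h1 : p0W a κ w (Sum.inl t) = p0W (pbE a S) (pbW S) w' (Sum.inl ()) := by
            show ((wsp κ w : ℚ) : ℝ) / (H22.wmin a w : ℝ) =
              ((wsp (pbW S) w' : ℚ) : ℝ) / (H22.wmin (pbE a S) w' : ℝ)
            rw [hwsp, hmin]
          rw [h1, e1]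
          refine Finset.sum_congr rfl fun b _ => ?_
          simp [H22.rowR]
        · show (κ k : ℝ) = _
          rw [← hxκ k, hx]
          refine Finset.sum_congr rfl fun b _ => ?_
          simp [H22.rowR]
      rw [e]
      refine Submodule.sum_mem _ fun b hb => Submodule.smul_mem _ _ (Submodule.subset_span ?_)
      exact Or.inl ⟨b, hb, rfl⟩
  obtain ⟨b, k, hkT, ⟨hb1, hb2, _, hb4⟩, huniq⟩ := hB w Yb hwpos hYD hs0'
  have hSk := hT k hkT
  have hN0 : (S k).N 0 = 1 := by rw [hSk]; simp [Slt.N]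
  have hN1 : (S k).N 1 = 0 := by rw [hSk]; simp [Slt.N]
  have hw0 : w' (finProdFinEquiv (k, 0)) ≠ 0 := by
    intro h
    have h1 := hwpos k
    rw [hw] at h1
    unfold HBS_w at h1
    rw [Fin.sum_univ_two, hN1, h, mul_zero, zero_mul] at h1
    exact lt_irrefl _ h1
  refine ⟨b, finProdFinEquiv (k, 0), ?_, ⟨hb1, ?_, ?_, ?_⟩, ?_⟩
  · unfold TT1
    rw [Finset.mem_filter]
    refine ⟨Finset.mem_univ _, ?_⟩
    rw [pbW_apply, hSk]
    simp [Slt.w]
  · rw [pbE_apply, hN0, hb2]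
  · intro h
    exact hw0 (hY.onj _ h)
  · intro b' hb' hne
    rw [pbE_apply, hb4 b' hb' hne, mul_zero]
  · intro j hjT hj
    obtain ⟨⟨k'', δ⟩, rfl⟩ := finProdFinEquiv.surjective j
    obtain ⟨_, hc2, hc3, hc4⟩ := hj
    rw [pbE_apply] at hc2
    have hc5 := Nat.eq_one_of_mul_eq_one_right hc2
    have hc6 := Nat.eq_one_of_mul_eq_one_left hc2
    have hN1'' : (S k'').N δ = 1 := by
      first
        | exact hc5
        | exact hc6
    have hκ1 : κ k'' = 1 := by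
      have h1 := (Finset.mem_filter.1 hjT).2
      rw [pbW_apply] at h1
      rcases hG k'' δ (by rw [hN1'']; exact one_pos) with h2 | h2
      · rw [h1, hN1'', Nat.cast_one, mul_one] at h2
        exact h2.symm
      · rw [h1, hN1'', Nat.cast_one, mul_one] at h2
        exact absurd hK1 (not_lt.2 h2)
    have hkk : k'' = k := by
      refine huniq k'' hκ1 ⟨hb1, ?_, Finset.notMem_empty _, fun b' hb' hne => ?_⟩
      · first
          | exact hc5
          | exact hc6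
      · have h1 := hc4 b' hb' hne
        rw [pbE_apply] at h1
        rcases Nat.mul_eq_zero.1 h1 with h2 | h2
        · exfalso
          rw [h2, zero_mul] at hc2
          exact zero_ne_one hc2
        · exact h2
    subst hkk
    have hδ' : δ = 0 := by
      by_contra hne
      have h1 : δ = 1 := by omega
      rw [h1, hN1, zero_mul] at hc2
      exact zero_ne_one hc2
    rw [hδ']

end HBS

/-- HBS -/
theorem reg_int {m r : ℕ} (a : Fin r → (Fin m →₀ ℕ)) (ha : Function.Injective a)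
    (hconv : H22.T7.Conv a) (hne : ∀ i, a i ≠ 0) (hr : 0 < r) (κ : Fin m → ℚ)
    (hκ : ∀ k, 0 < κ k) (T : Finset (Fin m)) (hκT : ∀ k ∈ T, κ k = 1) (s0 : ℂ) (hs1 : s0 ≠ -1)
    (hB : HB a κ T s0) (K : ℚ)
    (hK : ∀ (i : Fin r) (k : Fin m) (d : ℕ), a i = Finsupp.single k d → -s0.re * d < K)
    (hK1 : 1 < K)
    (S : Fin m → Str) (hS : ∀ k, GoodS (κ k) (k ∈ T) K (S k)) :
    H37.SM.Reg s0 (ZS a (fun k => toQ (S k))) := by
  obtain ⟨q, hq⟩ : ∃ q : Fin m → Slt, q = fun k => toQ (S k) := ⟨_, rfl⟩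
  have hg := fun k => HBS_good (hS k) (hκT k)
  obtain ⟨ν, hν⟩ : ∃ ν : Fin (m * 2) → ℕ, ν = fun j => if (finProdFinEquiv.symm j).2 = 0 then
    (S (finProdFinEquiv.symm j).1).ν1 else (S (finProdFinEquiv.symm j).1).ν2 := ⟨_, rfl⟩
  have e : pbW q = qN ν := by
    funext j
    obtain ⟨⟨k, δ⟩, rfl⟩ := finProdFinEquiv.surjective j
    rw [pbW_apply, hν, hq]
    unfold qN
    simp only [Equiv.symm_apply_apply]
    unfold Slt.w toQ
    split_ifs <;> rfl
  have hW : ∀ k δ, 0 < (q k).w δ := by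
    rw [hq]
    exact fun k => (hg k).1
  have hN : ∀ k, ∃ δ, 0 < (q k).N δ := by
    rw [hq]
    exact fun k => (hg k).2.1
  have hG : ∀ k δ, 0 < (q k).N δ → (q k).w δ = κ k * ((q k).N δ : ℚ) ∨
      K * ((q k).N δ : ℚ) ≤ (q k).w δ := by
    rw [hq]
    exact fun k => (hg k).2.2.1
  have hT : ∀ k ∈ T, q k = ⟨1, 1, 0, 1⟩ := by
    intro k hk
    rw [hq]
    dsimp only
    rw [(hg k).2.2.2 hk]
    simp [toQ]
  rw [← hq]
  unfold ZS
  have hH := HBS_core a q hconv κ T s0 hB K hK hK1 hW hG hT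
  rw [e] at hH ⊢
  refine poleswL ν ?_ (pbE a q) ?_ ?_ (fun w hw => HBS_hz a q hconv hN w hw) s0 hs1 hH _ _
  · intro j
    have h1 : 0 < qN ν j := by
      rw [← e]
      obtain ⟨⟨k, δ⟩, rfl⟩ := finProdFinEquiv.surjective j
      rw [pbW_apply]
      exact hW k δ
    unfold qN at h1
    exact_mod_cast h1
  · intro i i' h
    apply ha
    ext k
    obtain ⟨δ, hδ⟩ := hN k
    have h1 := DFunLike.congr_fun h (finProdFinEquiv (k, δ))
    rw [pbE_apply, pbE_apply] at h1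
    exact Nat.eq_of_mul_eq_mul_left hδ h1
  · refine ⟨⟨0, hr⟩, fun h => ?_⟩
    apply hne ⟨0, hr⟩
    ext k
    obtain ⟨δ, hδ⟩ := hN k
    have h1 := DFunLike.congr_fun h (finProdFinEquiv (k, δ))
    rw [pbE_apply, Finsupp.coe_zero, Pi.zero_apply] at h1
    rw [Finsupp.coe_zero, Pi.zero_apply]
    rcases Nat.mul_eq_zero.1 h1 with h2 | h2
    · omega
    · exact h2

end Pool.Agent.H56.CT
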