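import Pool.Agent.H56.CT.SBB

/-!
# LEX: exponents and blow-ups

Notation: `g_{ij} = co g i j`, `h0 = ini N g = ∑_{j ≤ N} g_{N-j,j} z^j`.

Proof.  Coefficients in the charts.  `co_c0`: `g(u, u v) = ∑ g_{ij} u^{i+j} v^j`: `co (sb U (U*V) g) n j = g_{n-j,j}` if `j ≤ n`, `0` otherwise.  `co_ci`: `g(u v, v) = ∑ g_{ij} u^i v^{i+j}`:
`co (sb (U*V) V g) i n = g_{i,n-i}` if `i ≤ n`, `0` otherwise.  (For monomials and polynomials clear; in general by truncation: `trunc_exists`, `sb_Hi`: `Hi L h` gives `Hi L (sb .. h)`, so the coefficients of degree `< L` only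
depend on a truncation of `g`.  Or `MvPowerSeries.coeff_subst`.)
`co_cc` (chart at `c`): `co (sb U (U*(V+c)) g) n k = ∑_{j ≤ n} g_{n-j,j} binom(j,k) c^{j-k}` = the coefficient of `z^k` in `(ini n g)(z + c)` (`Polynomial.comp (X + C c)`, `Polynomial.taylor c`).  Same method.
`lex_c`: for `n < N`: `ini n g = 0`; `ini N g = h0 ≠ 0`, and the smallest `k` with `coeff k (taylor c h0) ≠ 0` is the multiplicity of the root `c` (`Polynomial.rootMultiplicity`, `taylor`).
`lex_c2`: `co_c0`: `co n j = g_{n-j,j} = 0` for `j < N2`; for `j = N2`: `g_{n-N2,N2} ≠ 0` first for `n - N2 = e2`.  `lex_i1`: the same in the other chart.  `lex_i2`: `co_ci`: `co i n = g_{i,n-i} = 0` for `n < N`; for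
`n = N`: `g_{i,N-i}`, the smallest `i` with `g_{i,N-i} ≠ 0` is `N - natDegree h0`.
`lex_deg`: `N ≤ N1 + e1` since `g_{N1,e1} ≠ 0`; `g_{N-j,j} ≠ 0` implies `N - j ≥ N1`, so `natDegree h0 ≤ N - N1`, `N1 ≤ N` (`h0 ≠ 0`).  `lex_deg2`: `g_{N-j,j} ≠ 0` implies `j ≥ N2`, so `z^{N2} ∣ h0`.
`lex_rt`: `h0` has degree `≤ N`, and is divisible by `(z - c)^{e_c}`; if it is also divisible by `z^{N2}` and `c ≠ 0` then by the product.
`lex_ord`: `g ≠ 0` has a nonzero coefficient; take one of smallest degree.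
`lex_c0_ord`: for `sb U (U*V) g` with order `N'`: some `co n j ≠ 0` with `n + j = N'`, `co n j = g_{n-j,j}`, `n ≥ N`, `j ≥ N2`, so `N' ≥ N + N2`.  If `N' = N + N2` then `n = N`, `j = N2`, `g_{N-N2,N2} ≠ 0`, so `e2 ≤ N - N2`.
`lex_ci_ord`: symmetric: `co i n = g_{i,n-i} ≠ 0`, `i + n = N'`, `i ≥ N1`, `n ≥ N`.
`ax1_nx`: `g = U^{N1} s` (all `g_{ij}` with `i < N1` vanish; define `s` by its coefficients), `co s 0 j = g_{N1,j}`.  `ax_nx`: `g = U^{N1} V^{N2} s`; `N1 + N2 ≤ N` since a nonzero coefficient has `i ≥ N1`, `j ≥ N2`; if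
`N = N1 + N2` then the only exponent of degree `N` is `(N1, N2)`, so `co s 0 0 = g_{N1,N2} ≠ 0` and `s` is a unit.
Uniqueness: clear.
-/

set_option autoImplicit false

namespace Pool.Agent.H56.CT

open Finset
open Pool.Agent.H22.T7

theorem LEX_fs (ρ : Fin 2 →₀ ℕ) : Finsupp.single 0 (ρ 0) + Finsupp.single 1 (ρ 1) = ρ := by
  ext i
  fin_cases i <;> simp

theorem LEX_coeff (g : R2) (ρ : Fin 2 →₀ ℕ) : MvPowerSeries.coeff ρ g = co g (ρ 0) (ρ 1) := by
  unfold co
  rw [LEX_fs]

theorem LEX_ext {g h : R2} (H : ∀ i j, co g i j = co h i j) : g = h := by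
  ext ρ
  rw [LEX_coeff, LEX_coeff, H]

theorem LEX_deg (ρ : Fin 2 →₀ ℕ) : ρ.degree = ρ 0 + ρ 1 := by
  conv_lhs => rw [← LEX_fs ρ, map_add, Finsupp.degree_single, Finsupp.degree_single]

theorem LEX_add (g h : R2) (i j : ℕ) : co (g + h) i j = co g i j + co h i j := by
  unfold co; rw [map_add]

theorem LEX_sub (g h : R2) (i j : ℕ) : co (g - h) i j = co g i j - co h i j := by
  unfold co; rw [map_sub]

theorem LEX_zero (i j : ℕ) : co 0 i j = 0 := by
  unfold co; rw [map_zero]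

theorem LEX_smul (c : ℂ) (h : R2) (i j : ℕ) : co (c • h) i j = c * co h i j := by
  unfold co; rw [MvPowerSeries.coeff_smul]

theorem LEX_sum {α : Type*} (s : Finset α) (f : α → R2) (i j : ℕ) :
    co (∑ x ∈ s, f x) i j = ∑ x ∈ s, co (f x) i j := by
  unfold co; rw [map_sum]

theorem LEX_Um (m : ℕ) (h : R2) (i j : ℕ) :
    co (U ^ m * h) i j = if m ≤ i then co h (i - m) j else 0 := by
  unfold co U
  rw [MvPowerSeries.X_pow_eq, MvPowerSeries.coeff_monomial_mul]
  have h1 : (Finsupp.single (0 : Fin 2) m ≤ Finsupp.single 0 i + Finsupp.single 1 j) ↔ m ≤ i := by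
    rw [Finsupp.single_le_iff]
    simp
  by_cases hm : m ≤ i
  · rw [if_pos (h1.mpr hm), if_pos hm, one_mul]
    congr 2
    ext x
    fin_cases x <;> simp
  · rw [if_neg (fun h => hm (h1.mp h)), if_neg hm]

theorem LEX_Vm (m : ℕ) (h : R2) (i j : ℕ) :
    co (V ^ m * h) i j = if m ≤ j then co h i (j - m) else 0 := by
  unfold co V
  rw [MvPowerSeries.X_pow_eq, MvPowerSeries.coeff_monomial_mul]
  have h1 : (Finsupp.single (1 : Fin 2) m ≤ Finsupp.single 0 i + Finsupp.single 1 j) ↔ m ≤ j := by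
    rw [Finsupp.single_le_iff]
    simp
  by_cases hm : m ≤ j
  · rw [if_pos (h1.mpr hm), if_pos hm, one_mul]
    congr 2
    ext x
    fin_cases x <;> simp
  · rw [if_neg (fun h => hm (h1.mp h)), if_neg hm]

theorem LEX_one (i j : ℕ) : co 1 i j = if i = 0 ∧ j = 0 then 1 else 0 := by
  classical
  unfold co
  rw [MvPowerSeries.coeff_one]
  have h1 : (Finsupp.single (0 : Fin 2) i + Finsupp.single 1 j = 0) ↔ (i = 0 ∧ j = 0) := by
    constructor
    · intro h
      have h2 := DFunLike.congr_fun h 0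
      have h3 := DFunLike.congr_fun h 1
      simp at h2 h3
      exact ⟨h2, h3⟩
    · rintro ⟨rfl, rfl⟩
      simp
  by_cases h2 : i = 0 ∧ j = 0
  · rw [if_pos (h1.mpr h2), if_pos h2]
  · rw [if_neg (fun h => h2 (h1.mp h)), if_neg h2]

theorem LEX_mono (m l : ℕ) (i j : ℕ) :
    co (U ^ m * V ^ l) i j = if i = m ∧ j = l then 1 else 0 := by
  have h0 : (U ^ m * V ^ l : R2) = U ^ m * (V ^ l * 1) := by rw [mul_one]
  rw [h0, LEX_Um, LEX_Vm, LEX_one]
  by_cases h1 : m ≤ i
  · by_cases h2 : l ≤ j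
    · rw [if_pos h1, if_pos h2]
      congr 1
      simp only [eq_iff_iff]
      omega
    · rw [if_pos h1, if_neg h2, if_neg (by omega)]
  · rw [if_neg h1, if_neg (by omega)]

theorem LEX_pv (p : Polynomial ℂ) (i j : ℕ) :
    co (Polynomial.aeval (V : R2) p) i j = if i = 0 then p.coeff j else 0 := by
  induction p using Polynomial.induction_on' with
  | add p q hp hq =>
    rw [map_add, LEX_add, hp, hq, Polynomial.coeff_add]
    split_ifs <;> simp
  | monomial n a =>
    rw [Polynomial.aeval_monomial, ← Algebra.smul_def, LEX_smul]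
    have h0 : (V ^ n : R2) = U ^ 0 * V ^ n := by rw [pow_zero, one_mul]
    rw [h0, LEX_mono, Polynomial.coeff_monomial]
    by_cases h1 : i = 0
    · by_cases h2 : n = j
      · rw [if_pos ⟨h1, h2.symm⟩, if_pos h1, if_pos h2, mul_one]
      · rw [if_neg (fun h => h2 h.2.symm), if_pos h1, if_neg h2, mul_zero]
    · rw [if_neg (fun h => h1 h.1), if_neg h1, mul_zero]

theorem LEX_sb (X Y : R2) (hX : co X 0 0 = 0) (hY : co Y 0 0 = 0) (g : R2) (n k L : ℕ)
    (hL : n + k < L) :
    co (sb X Y g) n k = ∑ j ∈ range L, ∑ i ∈ range L, co g i j * co (X ^ i * Y ^ j) n k := by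
  obtain ⟨F, hF, hFU, hFV⟩ := sb_hom X Y hX hY
  set P : R2 := ∑ j ∈ range L, ∑ i ∈ range L, co g i j • (U ^ i * V ^ j) with hP
  have hPc : ∀ a b, a < L → b < L → co P a b = co g a b := by
    intro a b ha hb
    rw [hP, LEX_sum, Finset.sum_eq_single b]
    · rw [LEX_sum, Finset.sum_eq_single a]
      · rw [LEX_smul, LEX_mono, if_pos ⟨rfl, rfl⟩, mul_one]
      · intro i _ hi
        rw [LEX_smul, LEX_mono, if_neg (fun h => hi h.1.symm), mul_zero]
      · intro h; exact absurd (mem_range.mpr ha) h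
    · intro j _ hj
      rw [LEX_sum]
      refine Finset.sum_eq_zero fun i _ => ?_
      rw [LEX_smul, LEX_mono, if_neg (fun h => hj h.2.symm), mul_zero]
    · intro h; exact absurd (mem_range.mpr hb) h
  have hHi : Hi L (g - P) := by
    intro ρ hρ
    by_contra hlt
    rw [not_le, LEX_deg] at hlt
    apply hρ
    rw [LEX_coeff, LEX_sub, hPc _ _ (by omega) (by omega), sub_self]
  have h1 : co (sb X Y (g - P)) n k = 0 := by
    by_contra hne
    have h2 := sb_Hi X Y hX hY L (g - P) hHi _ hne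
    rw [map_add, Finsupp.degree_single, Finsupp.degree_single] at h2
    omega
  have h2 : sb X Y g = F P + sb X Y (g - P) := by
    rw [← hF, ← hF, ← map_add, add_sub_cancel]
  rw [h2, LEX_add, h1, add_zero, hP, map_sum, LEX_sum]
  refine Finset.sum_congr rfl fun j _ => ?_
  rw [map_sum, LEX_sum]
  refine Finset.sum_congr rfl fun i _ => ?_
  rw [map_smul, LEX_smul, map_mul, map_pow, map_pow, hFU, hFV]

theorem LEX_ini (N : ℕ) (g : R2) (j : ℕ) :
    (ini N g).coeff j = if j ≤ N then co g (N - j) j else 0 := by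
  unfold ini
  rw [Polynomial.finsetSum_coeff]
  simp only [Polynomial.coeff_monomial]
  by_cases h : j ≤ N
  · rw [if_pos h, Finset.sum_eq_single j]
    · rw [if_pos rfl]
    · intro i _ hi
      rw [if_neg hi]
    · intro h'; exact absurd (mem_range.mpr (by omega)) h'
  · rw [if_neg h]
    refine Finset.sum_eq_zero fun i hi => ?_
    rw [mem_range] at hi
    rw [if_neg (by omega)]

theorem LEX_U0 : co U 0 0 = 0 := by
  have h : (U : R2) = U ^ 1 * 1 := by rw [pow_one, mul_one]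
  rw [h, LEX_Um, if_neg (by omega)]

theorem LEX_V0 : co V 0 0 = 0 := by
  have h : (V : R2) = V ^ 1 * 1 := by rw [pow_one, mul_one]
  rw [h, LEX_Vm, if_neg (by omega)]

theorem LEX_cc (g : R2) (c : ℂ) (n k : ℕ) :
    co (sb U (U * (V + MvPowerSeries.C c)) g) n k = (Polynomial.taylor c (ini n g)).coeff k := by
  have hY : co (U * (V + MvPowerSeries.C c)) 0 0 = 0 := by
    have h : (U * (V + MvPowerSeries.C c) : R2) = U ^ 1 * (V + MvPowerSeries.C c) := by
      rw [pow_one]
    rw [h, LEX_Um, if_neg (by omega)]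
  rw [LEX_sb U _ LEX_U0 hY g n k (n + k + 1) (by omega)]
  have h1 : ∀ i j, co (U ^ i * (U * (V + MvPowerSeries.C c)) ^ j) n k =
      if i + j = n then ((Polynomial.X + Polynomial.C c) ^ j).coeff k else 0 := by
    intro i j
    have h2 : (U ^ i * (U * (V + MvPowerSeries.C c)) ^ j : R2) =
        U ^ (i + j) * Polynomial.aeval (V : R2) ((Polynomial.X + Polynomial.C c) ^ j) := by
      rw [map_pow, map_add, Polynomial.aeval_X, Polynomial.aeval_C, mul_pow, pow_add, mul_assoc]
      rfl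
    rw [h2, LEX_Um, LEX_pv]
    by_cases h3 : i + j ≤ n
    · rw [if_pos h3]
      by_cases h4 : i + j = n
      · rw [if_pos h4, if_pos (by omega)]
      · rw [if_neg h4, if_neg (by omega)]
    · rw [if_neg h3, if_neg (by omega)]
  have h5 : ∀ j, ∑ i ∈ range (n + k + 1), co g i j *
      co (U ^ i * (U * (V + MvPowerSeries.C c)) ^ j) n k =
      if j ≤ n then co g (n - j) j * ((Polynomial.X + Polynomial.C c) ^ j).coeff k else 0 := by
    intro j
    by_cases h6 : j ≤ n
    · rw [if_pos h6, Finset.sum_eq_single (n - j)]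
      · rw [h1, if_pos (by omega)]
      · intro i _ hi
        rw [h1, if_neg (by omega), mul_zero]
      · intro h; exact absurd (mem_range.mpr (by omega)) h
    · rw [if_neg h6]
      refine Finset.sum_eq_zero fun i _ => ?_
      rw [h1, if_neg (by omega), mul_zero]
  rw [Finset.sum_congr rfl fun j _ => h5 j]
  unfold ini
  rw [map_sum, Polynomial.finsetSum_coeff]
  rw [← Finset.sum_subset (s₁ := range (n + 1)) (s₂ := range (n + k + 1))]
  · refine Finset.sum_congr rfl fun j hj => ?_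
    rw [mem_range] at hj
    rw [if_pos (by omega), Polynomial.taylor_monomial, Polynomial.coeff_C_mul]
  · intro j hj
    rw [mem_range] at hj ⊢
    omega
  · intro j _ hj
    rw [mem_range] at hj
    rw [if_neg (by omega)]

theorem LEX_c0 (g : R2) (n k : ℕ) :
    co (sb U (U * (V + MvPowerSeries.C 0)) g) n k = if k ≤ n then co g (n - k) k else 0 := by
  rw [LEX_cc, Polynomial.taylor_zero, LEX_ini]

theorem LEX_ci (g : R2) (a b : ℕ) :
    co (sb (U * V) V g) a b = if a ≤ b then co g a (b - a) else 0 := by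
  have hX : co (U * V) 0 0 = 0 := by
    have h : (U * V : R2) = U ^ 1 * V := by rw [pow_one]
    rw [h, LEX_Um, if_neg (by omega)]
  rw [LEX_sb _ V hX LEX_V0 g a b (a + b + 1) (by omega)]
  have h1 : ∀ i j, co ((U * V) ^ i * V ^ j) a b = if a = i ∧ b = i + j then 1 else 0 := by
    intro i j
    rw [mul_pow, mul_assoc, ← pow_add, LEX_mono]
  have h5 : ∀ j, ∑ i ∈ range (a + b + 1), co g i j * co ((U * V) ^ i * V ^ j) a b =
      if b = a + j then co g a j else 0 := by
    intro j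
    rw [Finset.sum_eq_single a]
    · rw [h1]
      by_cases h6 : b = a + j
      · rw [if_pos ⟨rfl, h6⟩, if_pos h6, mul_one]
      · rw [if_neg (fun h => h6 h.2), if_neg h6, mul_zero]
    · intro i _ hi
      rw [h1, if_neg (fun h => hi h.1.symm), mul_zero]
    · intro h; exact absurd (mem_range.mpr (by omega)) h
  rw [Finset.sum_congr rfl fun j _ => h5 j]
  by_cases h6 : a ≤ b
  · rw [if_pos h6, Finset.sum_eq_single (b - a)]
    · rw [if_pos (by omega)]
    · intro j _ hj
      rw [if_neg (by omega)]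
    · intro h; exact absurd (mem_range.mpr (by omega)) h
  · rw [if_neg h6]
    refine Finset.sum_eq_zero fun j _ => ?_
    rw [if_neg (by omega)]

theorem LEX_ord_ex {g : R2} {N : ℕ} (h : Ord g N) : ∃ j, j ≤ N ∧ co g (N - j) j ≠ 0 := by
  by_contra hc
  push Not at hc
  apply h.2
  ext j
  rw [LEX_ini, Polynomial.coeff_zero]
  split_ifs with h1
  · exact hc j h1
  · rfl

theorem LEX_dvdU {g : R2} {N : ℕ} (h : ∀ i j, i < N → co g i j = 0) : ∃ s, g = U ^ N * s := by
  have : (MvPowerSeries.X 0 : R2) ^ N ∣ g := by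
    rw [MvPowerSeries.X_pow_dvd_iff]
    intro m hm
    rw [LEX_coeff]
    exact h _ _ hm
  exact this

theorem LEX_dvdV {g : R2} {N : ℕ} (h : ∀ i j, j < N → co g i j = 0) : ∃ s, g = V ^ N * s := by
  have : (MvPowerSeries.X 1 : R2) ^ N ∣ g := by
    rw [MvPowerSeries.X_pow_dvd_iff]
    intro m hm
    rw [LEX_coeff]
    exact h _ _ hm
  exact this

theorem LEX_trail (p : Polynomial ℂ) (c : ℂ) (hp : p ≠ 0) :
    (∀ j, j < p.rootMultiplicity c → (Polynomial.taylor c p).coeff j = 0) ∧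
      (Polynomial.taylor c p).coeff (p.rootMultiplicity c) ≠ 0 := by
  rw [Polynomial.rootMultiplicity_eq_natTrailingDegree, ← Polynomial.taylor_apply]
  constructor
  · intro j hj
    exact Polynomial.coeff_eq_zero_of_lt_natTrailingDegree hj
  · have h1 : (Polynomial.taylor c p) ≠ 0 := fun h => hp ((Polynomial.taylor_eq_zero c p).mp h)
    exact Polynomial.trailingCoeff_nonzero_iff_nonzero.mpr h1

theorem LEX_inid (N : ℕ) (g : R2) : (ini N g).natDegree ≤ N := by
  rw [Polynomial.natDegree_le_iff_coeff_eq_zero]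
  intro j hj
  rw [LEX_ini, if_neg (by omega)]

theorem ax1_unique {g : R2} {N e N' e' : ℕ} (h : AX1 g N e) (h' : AX1 g N' e') :
    N = N' ∧ e = e' := by
  rcases lt_trichotomy N N' with h1 | rfl | h1
  · exact absurd (h'.1 N e h1) h.2.2
  · refine ⟨rfl, ?_⟩
    rcases lt_trichotomy e e' with h2 | h2 | h2
    · exact absurd (h'.2.1 e h2) h.2.2
    · exact h2
    · exact absurd (h.2.1 e' h2) h'.2.2
  · exact absurd (h.1 N' e' h1) h'.2.2

theorem ax2_unique {g : R2} {N e N' e' : ℕ} (h : AX2 g N e) (h' : AX2 g N' e') :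
    N = N' ∧ e = e' := by
  rcases lt_trichotomy N N' with h1 | rfl | h1
  · exact absurd (h'.1 e N h1) h.2.2
  · refine ⟨rfl, ?_⟩
    rcases lt_trichotomy e e' with h2 | h2 | h2
    · exact absurd (h'.2.1 e h2) h.2.2
    · exact h2
    · exact absurd (h.2.1 e' h2) h'.2.2
  · exact absurd (h.1 e' N' h1) h'.2.2

theorem ord_unique {g : R2} {N N' : ℕ} (h : Ord g N) (h' : Ord g N') : N = N' := by
  obtain ⟨j, hj, hne⟩ := LEX_ord_ex h
  obtain ⟨j', hj', hne'⟩ := LEX_ord_ex h'
  rcases lt_trichotomy N N' with h1 | h1 | h1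
  · exact absurd (h'.1 _ _ (by omega)) hne
  · exact h1
  · exact absurd (h.1 _ _ (by omega)) hne'

theorem lex_ord (g : R2) (hg : g ≠ 0) : ∃ N, Ord g N := by
  classical
  have hex : ∃ N, ∃ i j, i + j = N ∧ co g i j ≠ 0 := by
    by_contra hc
    push Not at hc
    apply hg
    apply LEX_ext
    intro i j
    rw [hc _ i j rfl, LEX_zero]
  refine ⟨Nat.find hex, ?_, ?_⟩
  · intro i j hij
    by_contra hne
    exact Nat.find_min hex hij ⟨i, j, rfl, hne⟩
  · obtain ⟨i, j, hij, hne⟩ := Nat.find_spec hex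
    intro h0
    have h1 := LEX_ini (Nat.find hex) g j
    rw [h0, Polynomial.coeff_zero, if_pos (by omega)] at h1
    apply hne
    rw [h1]
    congr 1
    omega

theorem ord_ne {g : R2} {N : ℕ} (h : Ord g N) : g ≠ 0 := by
  rintro rfl
  obtain ⟨j, _, hne⟩ := LEX_ord_ex h
  exact hne (LEX_zero _ _)

theorem lex_c {g : R2} {N : ℕ} (hN : Ord g N) (c : ℂ) :
    AX1 (sb U (U * (V + MvPowerSeries.C c)) g) N (ec (ini N g) c) := by
  have ht := LEX_trail (ini N g) c hN.2
  refine ⟨?_, ?_, ?_⟩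
  · intro i j hi
    have h0 : ini i g = 0 := by
      ext k
      rw [LEX_ini, Polynomial.coeff_zero]
      split_ifs with h1
      · exact hN.1 _ _ (by omega)
      · rfl
    rw [LEX_cc, h0, map_zero, Polynomial.coeff_zero]
  · intro j hj
    rw [LEX_cc]
    exact ht.1 j hj
  · rw [LEX_cc]
    exact ht.2

theorem lex_c2 {g : R2} {N2 e2 : ℕ} (h : AX2 g N2 e2) :
    AX2 (sb U (U * (V + MvPowerSeries.C 0)) g) N2 (e2 + N2) := by
  refine ⟨?_, ?_, ?_⟩
  · intro i j hj
    rw [LEX_c0]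
    split_ifs
    · exact h.1 _ _ hj
    · rfl
  · intro i hi
    rw [LEX_c0]
    split_ifs with h1
    · exact h.2.1 _ (by omega)
    · rfl
  · rw [LEX_c0, if_pos (by omega), Nat.add_sub_cancel]
    exact h.2.2

theorem lex_i1 {g : R2} {N1 e1 : ℕ} (h : AX1 g N1 e1) :
    AX1 (sb (U * V) V g) N1 (N1 + e1) := by
  refine ⟨?_, ?_, ?_⟩
  · intro i j hi
    rw [LEX_ci]
    split_ifs
    · exact h.1 _ _ hi
    · rfl
  · intro j hj
    rw [LEX_ci]
    split_ifs with h1
    · exact h.2.1 _ (by omega)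
    · rfl
  · rw [LEX_ci, if_pos (by omega), Nat.add_sub_cancel_left]
    exact h.2.2

theorem lex_i2 {g : R2} {N : ℕ} (hN : Ord g N) :
    AX2 (sb (U * V) V g) N (N - (ini N g).natDegree) := by
  have hd : (ini N g).natDegree ≤ N := LEX_inid N g
  refine ⟨?_, ?_, ?_⟩
  · intro i j hj
    rw [LEX_ci]
    split_ifs
    · exact hN.1 _ _ (by omega)
    · rfl
  · intro i hi
    rw [LEX_ci]
    split_ifs with h1
    · have h2 : (ini N g).coeff (N - i) = 0 :=
        Polynomial.coeff_eq_zero_of_natDegree_lt (by omega)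
      rw [LEX_ini, if_pos (by omega)] at h2
      rw [← h2]
      congr 1
      omega
    · rfl
  · rw [LEX_ci, if_pos (by omega)]
    have h2 : (ini N g).coeff (ini N g).natDegree ≠ 0 :=
      Polynomial.leadingCoeff_ne_zero.mpr hN.2
    rw [LEX_ini, if_pos hd] at h2
    intro h3
    apply h2
    rw [← h3]
    congr 1
    omega

theorem ini_deg (N : ℕ) (g : R2) : (ini N g).natDegree ≤ N := by
  exact LEX_inid N g

theorem lex_deg {g : R2} {N N1 e1 : ℕ} (hN : Ord g N) (h : AX1 g N1 e1) :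
    N ≤ N1 + e1 ∧ N1 ≤ N ∧ (ini N g).natDegree + N1 ≤ N := by
  have hd : (ini N g).natDegree ≤ N := LEX_inid N g
  have h2 : (ini N g).coeff (ini N g).natDegree ≠ 0 :=
    Polynomial.leadingCoeff_ne_zero.mpr hN.2
  rw [LEX_ini, if_pos hd] at h2
  have h3 : N ≤ N1 + e1 := by
    by_contra hc
    exact h.2.2 (hN.1 _ _ (by omega))
  have h4 : N1 ≤ N - (ini N g).natDegree := by
    by_contra hc
    exact h2 (h.1 _ _ (by omega))
  exact ⟨h3, by omega, by omega⟩

theorem lex_deg2 {g : R2} {N N2 e2 : ℕ} (hN : Ord g N) (h : AX2 g N2 e2) :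
    N ≤ N2 + e2 ∧ N2 ≤ ec (ini N g) 0 := by
  have h3 : N ≤ N2 + e2 := by
    by_contra hc
    exact h.2.2 (hN.1 _ _ (by omega))
  refine ⟨h3, ?_⟩
  have ht := (LEX_trail (ini N g) 0 hN.2).2
  rw [Polynomial.taylor_zero, LEX_ini] at ht
  unfold ec
  by_contra hc
  apply ht
  split_ifs
  · exact h.1 _ _ (by omega)
  · rfl

theorem lex_rt {g : R2} {N : ℕ} (hN : Ord g N) (c : ℂ) :
    ec (ini N g) c ≤ (ini N g).natDegree ∧
      ∀ N2 e2, AX2 g N2 e2 → c ≠ 0 → N2 + ec (ini N g) c ≤ (ini N g).natDegree := by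
  have hp := hN.2
  have hcard := Polynomial.card_roots' (ini N g)
  constructor
  · unfold ec
    rw [← Polynomial.count_roots]
    exact (Multiset.count_le_card _ _).trans hcard
  · intro N2 e2 h hc
    have h1 := (lex_deg2 hN h).2
    unfold ec at h1 ⊢
    rw [← Polynomial.count_roots] at h1 ⊢
    have h2 : Multiset.replicate ((ini N g).roots.count 0) 0 +
        Multiset.replicate ((ini N g).roots.count c) c ≤ (ini N g).roots := by
      rw [Multiset.le_iff_count]
      intro x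
      rw [Multiset.count_add, Multiset.count_replicate, Multiset.count_replicate]
      by_cases hx0 : (0 : ℂ) = x
      · have : c ≠ x := fun h => hc (h.trans hx0.symm)
        rw [if_pos hx0, if_neg this, hx0, add_zero]
      · by_cases hxc : c = x
        · rw [if_neg hx0, if_pos hxc, hxc, zero_add]
        · rw [if_neg hx0, if_neg hxc, add_zero]
          exact Nat.zero_le _
    have h3 := Multiset.card_le_card h2
    rw [Multiset.card_add, Multiset.card_replicate, Multiset.card_replicate] at h3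
    omega

theorem lex_c0_ord {g : R2} {N N2 e2 N' : ℕ} (hN : Ord g N) (h : AX2 g N2 e2)
    (h' : Ord (sb U (U * (V + MvPowerSeries.C 0)) g) N') :
    N + N2 ≤ N' ∧ (N' = N + N2 → e2 + N2 ≤ N) := by
  obtain ⟨j, hj, hne⟩ := LEX_ord_ex h'
  rw [LEX_c0] at hne
  have h1 : j ≤ N' - j := by
    by_contra hc
    rw [if_neg hc] at hne
    exact hne rfl
  rw [if_pos h1] at hne
  have h2 : N ≤ N' - j := by
    by_contra hc
    exact hne (hN.1 _ _ (by omega))
  have h3 : N2 ≤ j := by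
    by_contra hc
    exact hne (h.1 _ _ (by omega))
  refine ⟨by omega, ?_⟩
  intro h4
  have h5 : j = N2 := by omega
  subst h5
  by_contra hc
  exact hne (h.2.1 _ (by omega))

theorem lex_ci_ord {g : R2} {N N1 e1 N' : ℕ} (hN : Ord g N) (h : AX1 g N1 e1)
    (h' : Ord (sb (U * V) V g) N') : N + N1 ≤ N' ∧ (N' = N + N1 → e1 + N1 ≤ N) := by
  obtain ⟨j, hj, hne⟩ := LEX_ord_ex h'
  rw [LEX_ci] at hne
  have h1 : N' - j ≤ j := by
    by_contra hc
    rw [if_neg hc] at hne
    exact hne rfl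
  rw [if_pos h1] at hne
  have h2 : N ≤ j := by
    by_contra hc
    exact hne (hN.1 _ _ (by omega))
  have h3 : N1 ≤ N' - j := by
    by_contra hc
    exact hne (h.1 _ _ (by omega))
  refine ⟨by omega, ?_⟩
  intro h4
  have h5 : N' - j = N1 := by omega
  rw [h5] at hne
  by_contra hc
  exact hne (h.2.1 _ (by omega))

theorem ax1_nx {g : R2} {N e a N' : ℕ} (h : AX1 g N e) (ha : 1 ≤ a) (hx : NX g a 0 N') :
    2 ≤ e := by
  obtain ⟨s, hs⟩ := LEX_dvdU h.1
  obtain ⟨h0, h1⟩ := hx.2.1 ha rfl N s hs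
  have h2 : ∀ j, co g N j = co s 0 j := by
    intro j
    rw [hs, LEX_Um, if_pos le_rfl, Nat.sub_self]
  by_contra hc
  have h3 : e = 0 ∨ e = 1 := by omega
  rcases h3 with rfl | rfl
  · exact h.2.2 ((h2 0).trans h0)
  · exact h.2.2 ((h2 1).trans h1)

theorem ax2_nx {g : R2} {N e b N' : ℕ} (h : AX2 g N e) (hb : 1 ≤ b) (hx : NX g 0 b N') :
    2 ≤ e := by
  obtain ⟨s, hs⟩ := LEX_dvdV h.1
  obtain ⟨h0, h1⟩ := hx.2.2.1 rfl hb N s hs
  have h2 : ∀ j, co g j N = co s j 0 := by
    intro j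
    rw [hs, LEX_Vm, if_pos le_rfl, Nat.sub_self]
  by_contra hc
  have h3 : e = 0 ∨ e = 1 := by omega
  rcases h3 with rfl | rfl
  · exact h.2.2 ((h2 0).trans h0)
  · exact h.2.2 ((h2 1).trans h1)

theorem ax_nx {g : R2} {N1 e1 N2 e2 N a b : ℕ} (h1 : AX1 g N1 e1) (h2 : AX2 g N2 e2)
    (hN : Ord g N) (ha : 1 ≤ a) (hb : 1 ≤ b) (hx : NX g a b N) : N1 + N2 < N := by
  obtain ⟨s1, hs1⟩ := LEX_dvdU h1.1
  have h3 : ∀ i j, co s1 i j = co g (i + N1) j := by
    intro i j
    rw [hs1, LEX_Um, if_pos (by omega), Nat.add_sub_cancel]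
  obtain ⟨s, hs⟩ := LEX_dvdV (g := s1) (N := N2) (fun i j hj => by
    rw [h3]; exact h2.1 _ _ hj)
  have hg : g = U ^ N1 * V ^ N2 * s := by rw [mul_assoc, ← hs, ← hs1]
  have h4 := hx.2.2.2 ha hb N1 N2 s hg
  have h5 : co s 0 0 = co g N1 N2 := by
    rw [hg, mul_assoc, LEX_Um, if_pos le_rfl, LEX_Vm, if_pos le_rfl, Nat.sub_self, Nat.sub_self]
  by_contra hc
  obtain ⟨j, hj, hne⟩ := LEX_ord_ex hN
  have h6 : N1 ≤ N - j := by
    by_contra hc
    exact hne (h1.1 _ _ (by omega))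
  have h7 : N2 ≤ j := by
    by_contra hc
    exact hne (h2.1 _ _ (by omega))
  have h8 : N - j = N1 := by omega
  have h9 : j = N2 := by omega
  rw [h8, h9] at hne
  apply h4
  rw [MvPowerSeries.isUnit_iff_constantCoeff]
  have h10 : MvPowerSeries.constantCoeff s = co s 0 0 := by
    unfold co
    rw [Finsupp.single_zero, Finsupp.single_zero, add_zero]
    exact (MvPowerSeries.coeff_zero_eq_constantCoeff_apply s).symm
  rw [h10, h5]
  exact isUnit_iff_ne_zero.mpr hne

end Pool.Agent.H56.CT
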