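import Pool.Agent.H56.CT.RDefs
import Pool.Agent.H22.T7.MRX

/-!
# RKY: the relation `b(s) I(1) = 0`

ADAPT `bfbL` (`Pool/Agent/H56/T5/BFBL.lean`), `mrelL_iter1`, `mrelL_iter2` (`Pool/Agent/H56/T5/MRELL.lean`) and `MRX_key`, `MRX_id` (`Pool/Agent/H22/T7/MRX.lean`): the identities `h1`, `h2`, `h3` of `FI` hold for `-R ≤ i - 1`, `i ≤ 1` (`h2`: `-R ≤ i ≤ 1`) only, which is enough.
(1) `bfbL` for lists `L` with `|L| ≤ R` (`F = PLn P`, `H = PLn Q`, all supports `≥ 0`: `mrelL_F`): for all `m` and `q ≥ 0`: `I (1 - |L|) m (q * GG F s L) = I 1 (m - |L|) q'`, `q' ≥ 0`.  In the step `j :: L` the identities `h1`, `h3` are used for `i = 1 - |L|`, and `i - 1 = - |L| ≥ -R`, and `h2` for `i = 1 - |L|`.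
So by `z1`: `I (1 - |L|) m (q * GG F s L) = 0`.
(2) `h1` iterated: `I i m g = I (i - k) m (F^k * g)` for `i ≤ 1`, `-R ≤ i - k` (induction on `k`).
(3) `c = aeval s b`.  The identity `hid` under `lmap (aeval s)` (as `MRX_id`, with `P` instead of `fpoly a κ`): `∑_β p_β GG F s (lst β) F^(R - |β|) = c • F^(R-1) + E1`, `E1 = lmap (aeval s) E`, `p_β ≥ 0` (`mrel_toL_nonneg`).
`c • I 0 0 1 = I (1-R) 0 (c • F^(R-1))` by (2) (`0 - (R-1) = 1 - R ≥ -R`) `= ∑_β I (1-R) 0 (p_β GG_β F^(R-|β|)) - I (1-R) 0 E1`; `I (1-R) 0 (F^(R-|β|) (p_β GG_β)) = I (1-|β|) 0 (p_β GG_β) = 0` by (2), (1).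
`I (1-R) 0 E1 = 0`: `E1` is the sum of its terms `single u x` (`JFL_sum_single`), with `E.coeff u ≠ 0` (`lmap_coeff`), `hE`, `1 - R = -((R-1 : ℕ) : ℤ)`.
-/

set_option autoImplicit false

namespace Pool.Agent.H56.CT

open Finset AddMonoidAlgebra
open Pool.Agent.H56.SMC Pool.Agent.H37.T5 Pool.Agent.H56.T5 Pool.Agent.H37.T6 Pool.Agent.H22.T6
open Pool.Agent.H22.T7

/-- integration by parts for lists of length at most `R` -/
theorem RKY_bfb {n : ℕ} {W : Type} [AddCommGroup W] [Module PA W] (R : ℕ) (s t : PA)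
    (P Q : MvPolynomial (Fin n) ℂ) (I : ℤ → ℤ → LP PA n →ₗ[PA] W)
    (hI : FI R s t P Q (fun _ => none) I) (L : List (Fin n)) (hL : L.length ≤ R) (m : ℤ)
    (q : LP PA n) (hq : Supp (Pos n) q) :
    ∃ q' : LP PA n, I (1 - L.length) m (q * GG (PLn P) s L) = I 1 (m - L.length) q' ∧
      Supp (Pos n) q' := by
  have hF : Supp (Pos n) (PLn P) := mrelL_F P
  have hH : Supp (Pos n) (PLn Q) := mrelL_F Q
  induction L generalizing m q with
  | nil =>
    refine ⟨q, ?_, hq⟩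
    simp [GG]
  | cons j L ih =>
    have hL1 : L.length + 1 ≤ R := hL
    have hGG := pos_GG (PLn P) hF s L
    obtain ⟨q', hq', hex⟩ := ih (by omega) (m - 1)
      (-(PLn Q * dL j q) - (t + (m : PA)) • (dL j (PLn Q) * q))
      (BFBL_sub (BFBL_neg (pos_mul hH (pos_dL j hq))) (BFBL_smul _ (pos_mul (pos_dL j hH) hq)))
    refine ⟨q', ?_, hex⟩
    have e1 : (m - ((j :: L).length : ℤ)) = m - 1 - (L.length : ℤ) := by
      rw [List.length_cons]; push_cast; ring
    have e2 : (1 - ((j :: L).length : ℤ)) = 1 - (L.length : ℤ) - 1 := by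
      rw [List.length_cons]; push_cast; ring
    have r1 : -(R : ℤ) ≤ 1 - (L.length : ℤ) - 1 := by omega
    have r2 : 1 - (L.length : ℤ) ≤ 1 := by omega
    have r3 : -(R : ℤ) ≤ 1 - (L.length : ℤ) := by omega
    rw [e1, ← hq', e2]
    have e3 : q * GG (PLn P) s (j :: L) = PLn P * (q * dL j (GG (PLn P) s L)) +
        (s + ((1 - (L.length : ℤ) : ℤ) : PA)) • (dL j (PLn P) * (q * GG (PLn P) s L)) := by
      have e4 : GG (PLn P) s (j :: L) = PLn P * dL j (GG (PLn P) s L) +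
        (s + 1 - (L.length : PA)) • (GG (PLn P) s L * dL j (PLn P)) := rfl
      have e5 : (s + ((1 - (L.length : ℤ) : ℤ) : PA)) = s + 1 - (L.length : PA) := by
        push_cast; ring
      rw [e4, e5, mul_add, mul_smul_comm]
      congr 1
      · ring
      · congr 1; ring
    rw [e3, map_add, map_smul, ← hI.h1 _ _ _ r1 r2 (pos_mul hq (pos_dL j hGG))]
    have e6 := hI.h3 (1 - (L.length : ℤ)) m j (q * GG (PLn P) s L) rfl r1 r2 (pos_mul hq hGG)
    rw [bfb_leibniz, map_add] at e6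
    have e7 : (-(PLn Q * dL j q) - (t + (m : PA)) • (dL j (PLn Q) * q)) * GG (PLn P) s L =
        -(PLn Q * (dL j q * GG (PLn P) s L)) -
          (t + (m : PA)) • (dL j (PLn Q) * (q * GG (PLn P) s L)) := by
      rw [sub_mul, smul_mul_assoc, neg_mul, mul_assoc, mul_assoc]
    rw [e7, map_sub, map_neg, map_smul, ← hI.h2 _ _ _ r3 r2 (pos_mul (pos_dL j hq) hGG)]
    have e8 : ∀ a b c d e : W, a + b + c + d = 0 → e = -a - d → b + c = e := by
      intro a b c d e h he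
      rw [he]
      have : b + c = (a + b + c + d) - a - d := by abel
      rw [this, h]; abel
    exact e8 _ _ _ _ _ e6 rfl

theorem RKY_iter {n : ℕ} {W : Type} [AddCommGroup W] [Module PA W] (R : ℕ) (s t : PA)
    (P Q : MvPolynomial (Fin n) ℂ) (I : ℤ → ℤ → LP PA n →ₗ[PA] W)
    (hI : FI R s t P Q (fun _ => none) I) (k : ℕ) :
    ∀ i m g, -(R : ℤ) ≤ i - k → i ≤ 1 → Supp (Pos n) g →
      I i m g = I (i - k) m (PLn P ^ k * g) := by
  have hF : Supp (Pos n) (PLn P) := mrelL_F P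
  induction k with
  | zero => intro i m g _ _ _; simp
  | succ k ih =>
    intro i m g h1 h2 hg
    have r1 : -(R : ℤ) ≤ i - k - 1 := by push_cast at h1; omega
    have r2 : -(R : ℤ) ≤ i - k := by omega
    have r3 : i - (k : ℤ) ≤ 1 := by omega
    rw [ih i m g r2 h2 hg, hI.h1 _ _ _ r1 r3 (pos_mul (mrelL_pow hF k) hg), ← mul_assoc,
      ← pow_succ']
    congr 2
    push_cast
    ring

/-- the identity, with coefficients in `PA` -/
theorem RKY_id {n : ℕ} (P : MvPolynomial (Fin n) ℂ) (b : Polynomial ℂ) (R : ℕ)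
    (PW : H22.WeylS n) (E : LP (Polynomial ℂ) n) (hid : AIdP P b R PW E) (s : PA) :
    ∑ β ∈ PW.support, toL PA (MvPolynomial.map
        (Polynomial.aeval s : Polynomial ℂ →ₐ[ℂ] PA).toRingHom (PW β)) *
      GG (PLn P) s (lst β) * (PLn P) ^ (R - (lst β).length) =
    (Polynomial.aeval s b : PA) • (PLn P) ^ (R - 1) +
      lmap (Polynomial.aeval s : Polynomial ℂ →ₐ[ℂ] PA).toRingHom E := by
  have h := congrArg (lmap (Polynomial.aeval s : Polynomial ℂ →ₐ[ℂ] PA).toRingHom) hid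
  have h1 : lmap (Polynomial.aeval s : Polynomial ℂ →ₐ[ℂ] PA).toRingHom
      (lmap Polynomial.C (toL ℂ P)) = PLn P := by
    apply lp_ext; intro u
    rw [PLn, lmap_coeff, lmap_coeff, lmap_coeff]
    exact Polynomial.aeval_C _ _
  have e6 : (Polynomial.aeval s : Polynomial ℂ →ₐ[ℂ] PA).toRingHom Polynomial.X = s :=
    Polynomial.aeval_X _
  rw [lmap_sum, lmap_add, lmap_smul, bfa_lmap_pow, h1] at h
  rw [← sub_eq_iff_eq_add'] at h ⊢
  rw [← h]
  congr 1
  refine sum_congr rfl fun β _ => ?_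
  have e7 := bfa_toL_map (Polynomial.aeval s : Polynomial ℂ →ₐ[ℂ] PA).toRingHom (PW β)
  rw [bfa_lmap_mul, bfa_lmap_mul, bfa_lmap_pow, bfa_GG_lmap, h1, e6, e7]

/-- RKY -/
theorem rky {n : ℕ} {W : Type} [AddCommGroup W] [Module PA W] (R : ℕ) (hR : 0 < R) (s t : PA)
    (P Q : MvPolynomial (Fin n) ℂ) (I : ℤ → ℤ → LP PA n →ₗ[PA] W)
    (hI : FI R s t P Q (fun _ => none) I) (b : Polynomial ℂ) (PW : H22.WeylS n)
    (E : LP (Polynomial ℂ) n) (hlen : ∀ β ∈ PW.support, (lst β).length ≤ R)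
    (hid : AIdP P b R PW E)
    (hE : ∀ u (x : PA), E.coeff u ≠ 0 → I (-((R - 1 : ℕ) : ℤ)) 0 (single u x) = 0) :
    (Polynomial.aeval s b : PA) • I 0 0 1 = 0 := by
  have hF : Supp (Pos n) (PLn P) := mrelL_F P
  have hb := RKY_id P b R PW E hid s
  have e0 : (-((R - 1 : ℕ) : ℤ)) = 1 - (R : ℤ) := by
    rw [Nat.cast_sub hR]
    push_cast
    ring
  have e2 : (Polynomial.aeval s b : PA) • I 0 0 1 =
      I (1 - (R : ℤ)) 0 ((Polynomial.aeval s b : PA) • (PLn P) ^ (R - 1)) := by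
    have h := RKY_iter R s t P Q I hI (R - 1) 0 0 1 (by omega) (by omega) mrelL_one
    rw [h, mul_one, ← map_smul]
    congr 2
    rw [Nat.cast_sub hR]
    push_cast
    ring
  have e1 := (sub_eq_of_eq_add hb).symm
  rw [e2, e1, map_sub, map_sum]
  have hE1 : I (1 - (R : ℤ)) 0
      (lmap (Polynomial.aeval s : Polynomial ℂ →ₐ[ℂ] PA).toRingHom E) = 0 := by
    rw [JFL_sum_single (lmap (Polynomial.aeval s : Polynomial ℂ →ₐ[ℂ] PA).toRingHom E),
      map_sum]
    refine sum_eq_zero fun u hu => ?_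
    rw [← e0]
    refine hE u _ fun h0 => ?_
    have h1 := Finsupp.mem_support_iff.1 hu
    rw [lmap_coeff, h0, map_zero] at h1
    exact h1 rfl
  rw [hE1, sub_zero]
  refine sum_eq_zero fun β hβ => ?_
  have hl := hlen β hβ
  have hpb : Supp (Pos n) (toL PA (MvPolynomial.map
      (Polynomial.aeval s : Polynomial ℂ →ₐ[ℂ] PA).toRingHom (PW β))) := mrel_toL_nonneg _
  have hg := pos_mul hpb (pos_GG (PLn P) hF s (lst β))
  obtain ⟨q', hq1, hq2⟩ := RKY_bfb R s t P Q I hI (lst β) hl 0 _ hpb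
  rw [hI.z1 _ _ hq2] at hq1
  have e5 := RKY_iter R s t P Q I hI (R - (lst β).length) (1 - ((lst β).length : ℤ)) 0 _
    (by rw [Nat.cast_sub hl]; omega) (by omega) hg
  have e7 : (1 - ((lst β).length : ℤ)) - ((R - (lst β).length : ℕ) : ℤ) = 1 - (R : ℤ) := by
    rw [Nat.cast_sub hl]; ring
  rw [e7, hq1] at e5
  rw [mul_comm, ← e5]

end Pool.Agent.H56.CT
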