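import Pool.Agent.H56.CT.AIP
import Pool.Agent.H56.CT.RKY
import Pool.Agent.H56.CT.FGI
import Pool.Agent.H22.T7.RST
import Pool.Agent.H22.T7.AUT
import Pool.Agent.H22.T7.QF
import Pool.Agent.H56.CT.ES1

/-!
# MR1: plane curves

`mr1E`.  `N = φ.N`.  `aip` (`n = 2`): `R`, `ρ`; `L = N * R + 1`.  `P` a polynomial with `Hi (L + ρ + N * (R + 1) + 2) (P - f)` (`trunc_exists` in `Pool/Agent/H22/T7/APR.lean`); `PW`, `E` from `aip` (`Hi_mono`).
`W = PA`, `s = C (-κ)`, `t = 0`, `Q = 1`, `I i m (single q x) = C (coeff (-i).toNat (φ (U ^ (q 0).toNat * V ^ (q 1).toNat))) * x` for `i ≤ 0` and `0` for `i > 0`, linear (for `g` with exponents `≥ 0` and constant coefficients it is `C (coeff (-i) (φ g))`).  `FI R s t P 1 (fun _ => none) I`, all by linearity for `g = single q x`, `q ≥ 0`, `h = U^(q 0) V^(q 1)` (`JFL_ind`):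
products `PLn P * single q x`: as in `ES1`: `I i m (PLn p * single q x) = C (coeff (-i) (φ (p h))) * x` for polynomials `p` (linearity in `p`, monomials).  `h1`: `i ≤ 0`: `coeff (1-i) (φ (P h)) = coeff (1-i) (φ (f h)) = coeff (-i) (φ h)` (`cont` for `(P - f) h`, `1 - i ≤ R`; `mul`); `i = 1`: `coeff 0 (φ (P h)) = coeff 0 (X * φ h) = 0`.
`h2`: `PLn 1 = 1`.  `h3`: the last term is `0` (`dL j (PLn 1) = 0`).  `i ≤ 0`: `coeff (-i) (φ (pd j h)) = (κ - i) coeff (1-i) (φ (h pd j f))` (`der`), `dL j (PLn P) = PLn (pderiv j P)`, `coeff (1-i) (φ (h pd j P)) = coeff (1-i) (φ (h pd j f))` (`cont`), `s + i = C (-κ + i)`.  `i = 1`: `coeff 0 (φ (h pd j P)) = coeff 0 (φ (h pd j f)) = 0` (`cc`).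
`h4` is void.  `z1` clear, `z0`: `cont` with `M = 1`, `i = 0`.
`rky`: `hE`: `u ≥ 0`, `L ≤ u 0 + u 1`, `coeff (R-1) (φ (U^.. V^..)) = 0` by `cont` (`N (R-1) < L`).  So `aeval (C (-κ)) b • I 0 0 1 = 0`; `I 0 0 1 = C (coeff 0 (φ 1)) = 1` (`one`), `aeval (C c) b = C (b.eval c)`.
`mr1S`: the same with `n = 1`, `P = X 0 ^ N`, `s = C (-1/N)`, `I i m (single q x) = x` if `i ≤ 0` and `q 0 = - N i`, and `0` otherwise, `L = N * R + 1`.  `h1`: `x^q ↦ x^{q+N}`.  `h3`: `q [q - 1 = -N i] + (-1/N + i) N [q + N - 1 = -N (i-1)] = [q = 1 - N i] (q - 1 + N i) = 0`; for `i = 1`: `I 1 = 0`, and `q + N - 1 = 0` gives `N = 1`, `q = 0`: `(-1 + 1) * .. = 0`.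
`hE`: `u 0 ≥ L > N (R-1)`.
`mr1`: by the cases of `Val`.  First case: `mr1E`.  Last two cases: `κ = 1`, `qf` (`Pool/Agent/H22/T7/QF.lean`, `f ≠ 0`, `f` not a unit since its constant coefficient is `0`) gives `b.eval (-1) = 0`.
Second case: `GC (fun _ : Fin 1 => Finsupp.single 0 1) (fun _ => 1) (fun _ => f) = rename (fun δ => (0, δ)) f` and `MvPowerSeries.renameEquiv ℂ e` for the equivalence `e : Fin 2 ≃ Fin 1 × Fin 2`, `δ ↦ (0, δ)`: by `aut`, `FEq (MvPowerSeries (Fin 1 × Fin 2) ℂ) (GC ..) b`; `fstep` (`k0 = 0`, `g = U ^ N`), back to `FEq R2 (U ^ N) b` by `aut` with the inverse, and `rst`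
with `ι : Fin 1 ↪ Fin 2`, `ι 0 = 0`, `V = 1`: `U ^ N = rename ι (X 0 ^ N)`.  `mr1S`.
-/

set_option autoImplicit false

namespace Pool.Agent.H56.CT

open Finset AddMonoidAlgebra
open Pool.Agent.H56.SMC Pool.Agent.H37.T5 Pool.Agent.H56.T5 Pool.Agent.H37.T6 Pool.Agent.H22.T6
open Pool.Agent.H22.T7

/-- the functional with given values at the monomials -/
private noncomputable def MR1_L {n : ℕ} (c : Lat n → ℂ) : LP PA n →ₗ[PA] PA :=
  (Finsupp.lsum PA (fun q : Lat n => LinearMap.toSpanSingleton PA PA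
    (PowerSeries.C (c q)))).comp (AddMonoidAlgebra.coeffLinearEquiv PA).toLinearMap

private theorem MR1_L_single {n : ℕ} (c : Lat n → ℂ) (q : Lat n) (x : PA) :
    MR1_L c (single q x) = PowerSeries.C (c q) * x := by
  unfold MR1_L
  rw [LinearMap.comp_apply]
  show Finsupp.lsum PA _ (Finsupp.single q x) = _
  rw [Finsupp.lsum_single, LinearMap.toSpanSingleton_apply, smul_eq_mul, mul_comm]

/-- `U^a V^b` -/
private noncomputable def MR1_h (q : Lat 2) : R2 := U ^ (q 0).toNat * V ^ (q 1).toNat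

private theorem MR1_h_ev (δ : Fin 2) (q : Lat 2) (hq : ∀ j, 0 ≤ q j) :
    MR1_h (ev δ + q) = MvPowerSeries.X δ * MR1_h q := by
  unfold MR1_h
  have h0 := hq 0
  have h1 := hq 1
  fin_cases δ
  · have e1 : ((ev 0 : Lat 2) + q) 0 = q 0 + 1 := by
      rw [Pi.add_apply, ev, Pi.single_eq_same, add_comm]
    have e2 : ((ev 0 : Lat 2) + q) 1 = q 1 := by
      rw [Pi.add_apply, ev, Pi.single_eq_of_ne (by decide), zero_add]
    show U ^ (((ev 0 : Lat 2) + q) 0).toNat * V ^ (((ev 0 : Lat 2) + q) 1).toNat = _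
    rw [e1, e2, Int.toNat_add h0 zero_le_one]
    show U ^ ((q 0).toNat + 1) * _ = U * _
    ring
  · have e1 : ((ev 1 : Lat 2) + q) 0 = q 0 := by
      rw [Pi.add_apply, ev, Pi.single_eq_of_ne (by decide), zero_add]
    have e2 : ((ev 1 : Lat 2) + q) 1 = q 1 + 1 := by
      rw [Pi.add_apply, ev, Pi.single_eq_same, add_comm]
    show U ^ (((ev 1 : Lat 2) + q) 0).toNat * V ^ (((ev 1 : Lat 2) + q) 1).toNat = _
    rw [e1, e2, Int.toNat_add h1 zero_le_one]
    show _ * V ^ ((q 1).toNat + 1) = V * _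
    ring

/-- the functional given by a linear form on the power series -/
private noncomputable def MR1_E (Λ : R2 →ₗ[ℂ] ℂ) : LP PA 2 →ₗ[PA] PA :=
  MR1_L (fun q => Λ (MR1_h q))

private theorem MR1_E_single (Λ : R2 →ₗ[ℂ] ℂ) (q : Lat 2) (x : PA) :
    MR1_E Λ (single q x) = PowerSeries.C (Λ (MR1_h q)) * x := by
  unfold MR1_E
  rw [MR1_L_single]

private theorem MR1_key (Λ : R2 →ₗ[ℂ] ℂ) (p : MvPolynomial (Fin 2) ℂ) :
    ∀ q : Lat 2, (∀ j, 0 ≤ q j) → ∀ x : PA,
      MR1_E Λ (PLn p * single q x) = PowerSeries.C (Λ ((p : R2) * MR1_h q)) * x := by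
  induction p using MvPolynomial.induction_on with
  | C a =>
    intro q hq x
    rw [ES1_PLn_C, single_mul_single, zero_add, MR1_E_single, MvPolynomial.coe_C,
      ← MvPowerSeries.smul_eq_C_mul, map_smul, smul_eq_mul, map_mul]
    ring
  | add p p' hp hp' =>
    intro q hq x
    rw [ES1_PLn_add, add_mul, map_add, hp q hq x, hp' q hq x, MvPolynomial.coe_add, add_mul,
      map_add, map_add, add_mul]
  | mul_X p δ hp =>
    intro q hq x
    rw [ES1_PLn_mul, mul_assoc, ES1_PLn_X, single_mul_single, one_mul, hp (ev δ + q)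
      (fun j => by rw [Pi.add_apply]; exact add_nonneg (ES1_ev_nn _ j) (hq j)) x,
      MR1_h_ev δ q hq, MvPolynomial.coe_mul, MvPolynomial.coe_X, mul_assoc]

private theorem MR1_dL (Λ : R2 →ₗ[ℂ] ℂ) (δ : Fin 2) (q : Lat 2) (hq : ∀ j, 0 ≤ q j) (x : PA) :
    MR1_E Λ (dL δ (single q x)) = PowerSeries.C (Λ (pd δ (MR1_h q))) * x := by
  rw [JF_dL_single, MR1_E_single]
  have hx : ((q δ : PA)) = PowerSeries.C ((q δ).toNat : ℂ) := by
    rw [map_natCast]
    have : ((q δ).toNat : ℤ) = q δ := Int.toNat_of_nonneg (hq _)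
    conv_lhs => rw [← this]
    exact Int.cast_natCast _
  have h1 : pd δ (MR1_h q) = ((q δ).toNat : ℂ) • MR1_h (-ev δ + q) := by
    unfold MR1_h
    fin_cases δ
    · have e1 : (-(ev 0 : Lat 2) + q) 0 = q 0 - 1 := by
        rw [Pi.add_apply, Pi.neg_apply, ev, Pi.single_eq_same]
        ring
      have e2 : (-(ev 0 : Lat 2) + q) 1 = q 1 := by
        rw [Pi.add_apply, Pi.neg_apply, ev, Pi.single_eq_of_ne (by decide), neg_zero, zero_add]
      have e3 := ES1_pd0 (q 0).toNat (q 1).toNat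
      refine e3.trans ?_
      show _ = ((q 0).toNat : ℂ) • (U ^ ((-(ev 0 : Lat 2) + q) 0).toNat * V ^ ((-(ev 0 : Lat 2) + q) 1).toNat)
      rw [e1, e2]
      have e4 : (q 0 - 1).toNat = (q 0).toNat - 1 := by omega
      rw [e4]
    · have e1 : (-(ev 1 : Lat 2) + q) 0 = q 0 := by
        rw [Pi.add_apply, Pi.neg_apply, ev, Pi.single_eq_of_ne (by decide), neg_zero, zero_add]
      have e2 : (-(ev 1 : Lat 2) + q) 1 = q 1 - 1 := by
        rw [Pi.add_apply, Pi.neg_apply, ev, Pi.single_eq_same]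
        ring
      have e3 := ES1_pd1 (q 0).toNat (q 1).toNat
      refine e3.trans ?_
      show _ = ((q 1).toNat : ℂ) • (U ^ ((-(ev 1 : Lat 2) + q) 0).toNat * V ^ ((-(ev 1 : Lat 2) + q) 1).toNat)
      rw [e1, e2]
      have e4 : (q 1 - 1).toNat = (q 1).toNat - 1 := by omega
      rw [e4]
  rw [h1, map_smul, smul_eq_mul, hx, map_mul]
  ring

/-- the coefficient of `X^k` -/
private noncomputable def MR1_c {f : R2} {κ : ℚ} (φ : PhiD f κ) (k : ℕ) : R2 →ₗ[ℂ] ℂ :=
  (PowerSeries.coeff (R := ℂ) k).comp φ.φ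

private theorem MR1_c_apply {f : R2} {κ : ℚ} (φ : PhiD f κ) (k : ℕ) (h : R2) :
    MR1_c φ k h = PowerSeries.coeff k (φ.φ h) := rfl

/-- the formal integrals -/
private noncomputable def MR1_I {f : R2} {κ : ℚ} (φ : PhiD f κ) (i _m : ℤ) :
    LP PA 2 →ₗ[PA] PA :=
  if i ≤ 0 then MR1_E (MR1_c φ (-i).toNat) else 0

private theorem MR1_Ipos {f : R2} {κ : ℚ} (φ : PhiD f κ) (m : ℤ) : MR1_I φ 1 m = 0 := by
  unfold MR1_I
  rw [if_neg (by decide)]

private theorem MR1_Ile {f : R2} {κ : ℚ} (φ : PhiD f κ) (i m : ℤ) (k : ℕ) (hi : i = -(k : ℤ)) :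
    MR1_I φ i m = MR1_E (MR1_c φ k) := by
  unfold MR1_I
  have h1 : i ≤ 0 := by omega
  have h2 : (-i).toNat = k := by omega
  rw [if_pos h1, h2]

private theorem MR1_FI {f : R2} {κ : ℚ} (φ : PhiD f κ) (R : ℕ) (P : MvPolynomial (Fin 2) ℂ)
    (hP : Hi (φ.N * (R + 1 + 1) + 1) ((P : R2) - f)) :
    FI R (PowerSeries.C (-(κ : ℂ))) 0 P 1 (fun _ => none) (MR1_I φ) where
  h1 := by
    intro i m g hi1 hi2 hg
    refine JFL_ind (M := fun g => MR1_I φ i m g = MR1_I φ (i - 1) m (PLn P * g)) ?_ ?_ ?_ hg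
    · rw [map_zero, mul_zero, map_zero]
    · intro x y hx hy
      rw [map_add, hx, hy, mul_add, map_add]
    · intro q hq x
      rcases le_or_gt i 0 with h0 | h0
      · have e1 : i = -((-i).toNat : ℤ) := by omega
        have e2 : i - 1 = -(((-i).toNat + 1 : ℕ) : ℤ) := by omega
        rw [MR1_Ile φ i m _ e1, MR1_Ile φ (i - 1) m _ e2, MR1_key _ _ _ hq, MR1_E_single,
          MR1_c_apply, MR1_c_apply, ES1_ff φ (R + 1) P hP _ _ (by omega), φ.mul,
          PowerSeries.coeff_succ_X_mul]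
      · have e1 : i = 1 := by omega
        subst e1
        have e2 : (1 : ℤ) - 1 = -((0 : ℕ) : ℤ) := by norm_num
        rw [MR1_Ipos, MR1_Ile φ (1 - 1) m _ e2, MR1_key _ _ _ hq, MR1_c_apply,
          ES1_ff φ (R + 1) P hP _ _ (by omega), φ.mul, PowerSeries.coeff_zero_X_mul, map_zero,
          zero_mul]
        rfl
  h2 := by
    intro i m g _ _ _
    rw [ES1_PLn_one, one_mul]
    rfl
  h3 := by
    intro i m j g _ hi1 hi2 hg
    have e0 : dL j (PLn (1 : MvPolynomial (Fin 2) ℂ)) = 0 := by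
      rw [ES1_dL_PLn, ← MvPolynomial.C_1, MvPolynomial.pderiv_C, ES1_PLn_zero]
    rw [e0, zero_mul, map_zero, smul_zero, add_zero, ES1_dL_PLn]
    refine JFL_ind (M := fun g => MR1_I φ i m (dL j g) +
      (PowerSeries.C (-(κ : ℂ)) + (i : PA)) •
        MR1_I φ (i - 1) m (PLn (MvPolynomial.pderiv j P) * g) = 0) ?_ ?_ ?_ hg
    · rw [ES1_dL_zero, map_zero, mul_zero, map_zero, smul_zero, add_zero]
    · intro x y hx hy
      rw [ES1_dL_add, map_add, mul_add, map_add, smul_add, add_add_add_comm, hx, hy, add_zero]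
    · intro q hq x
      rcases le_or_gt i 0 with h0 | h0
      · have e1 : i = -((-i).toNat : ℤ) := by omega
        have e2 : i - 1 = -(((-i).toNat + 1 : ℕ) : ℤ) := by omega
        have e3 : (i : PA) = PowerSeries.C (-((-i).toNat : ℂ)) := by
          rw [map_neg, map_natCast]
          conv_lhs => rw [e1]
          push_cast
          rfl
        rw [MR1_Ile φ i m _ e1, MR1_Ile φ (i - 1) m _ e2, MR1_key _ _ _ hq, MR1_dL _ _ _ hq,
          MR1_c_apply, MR1_c_apply, ES1_fd φ (R + 1) P hP _ _ _ (by omega), φ.der, e3, ← map_add,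
          smul_eq_mul, ← mul_assoc, ← map_mul, ← add_mul, ← map_add]
        have e4 : ((κ : ℂ) + ((-i).toNat : ℂ)) *
            PowerSeries.coeff ((-i).toNat + 1) (φ.φ (MR1_h q * pd j f)) +
            (-(κ : ℂ) + -((-i).toNat : ℂ)) *
            PowerSeries.coeff ((-i).toNat + 1) (φ.φ (MR1_h q * pd j f)) = 0 := by ring
        rw [e4, map_zero, zero_mul]
      · have e1 : i = 1 := by omega
        subst e1
        have e2 : (1 : ℤ) - 1 = -((0 : ℕ) : ℤ) := by norm_num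
        rw [MR1_Ipos, MR1_Ile φ (1 - 1) m _ e2, MR1_key _ _ _ hq, MR1_c_apply,
          ES1_fd φ (R + 1) P hP _ _ _ (by omega), φ.cc, map_zero, zero_mul, smul_zero, add_zero]
        rfl
  h4 := by
    intro i m j c g h
    exact absurd h (by simp)
  z1 := by
    intro m g _
    rw [MR1_Ipos]
    rfl
  z0 := by
    intro m q x hq hq0
    rw [MR1_Ile φ 0 m 0 (by norm_num), MR1_E_single, MR1_c_apply]
    have h1 : Hi 1 (MR1_h q) := by
      refine Hi_mono ?_ (ES1_Hi_mon (q 0).toNat (q 1).toNat)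
      by_contra hcon
      apply hq0
      have h0 := hq 0
      have h1 := hq 1
      funext j
      fin_cases j
      · show q 0 = 0
        omega
      · show q 1 = 0
        omega
    rw [φ.cont 1 _ h1 0 (by omega), map_zero, zero_mul]

private theorem MR1_aeval (b : Polynomial ℂ) (c : ℂ) (x : PA) (hx : x = 1)
    (h : (Polynomial.aeval (PowerSeries.C c : PA) b : PA) • x = 0) : b.eval c = 0 := by
  rw [hx, smul_eq_mul, mul_one] at h
  have h1 : (Polynomial.aeval (algebraMap ℂ PA c) b : PA) = algebraMap ℂ PA (b.eval c) := by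
    rw [Polynomial.aeval_algebraMap_apply]
    simp
  have h2 : (algebraMap ℂ PA c) = PowerSeries.C c := rfl
  rw [h2, h] at h1
  exact (algebraMap ℂ PA).injective (by rw [map_zero]; exact h1.symm)

theorem mr1E {f : R2} {κ : ℚ} (φ : PhiD f κ) (b : Polynomial ℂ) (h : FEq R2 f b) :
    b.eval (-(κ : ℂ)) = 0 := by
  obtain ⟨R, ρ, hR, hR2⟩ := aip f b h
  obtain ⟨P, hP, -⟩ := trunc_exists f (φ.N * R + 1 + ρ + (φ.N * (R + 1 + 1) + 1))
  have hP' : Hi (φ.N * R + 1 + ρ + (φ.N * (R + 1 + 1) + 1)) ((P : R2) - f) := by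
    have h1 : (P : R2) - f = (-1 : ℂ) • (f - (P : R2)) := by
      rw [neg_smul, one_smul, neg_sub]
    rw [h1]
    exact Hi_smul _ hP
  obtain ⟨PW, E, hlen, hid, hE⟩ := hR2 (φ.N * R + 1) P (Hi_mono (by omega) hP')
  have hFI := MR1_FI φ R P (Hi_mono (by omega) hP')
  have key := rky R hR (PowerSeries.C (-(κ : ℂ))) 0 P 1 (MR1_I φ) hFI b PW E hlen hid (by
    intro u x hu
    obtain ⟨hu0, hu1⟩ := hE u hu
    rw [MR1_Ile φ _ _ (R - 1) rfl, MR1_E_single, MR1_c_apply]
    have h1 := ES1_Hi_mon (u 0).toNat (u 1).toNat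
    have h2 : φ.N * (R - 1) < (u 0).toNat + (u 1).toNat := by
      have h3 : φ.N * (R - 1) ≤ φ.N * R := Nat.mul_le_mul_left _ (by omega)
      rw [Fin.sum_univ_two] at hu1
      have h4 := hu0 0
      have h5 := hu0 1
      omega
    have h3 := φ.cont _ _ h1 (R - 1) h2
    unfold MR1_h
    rw [h3, map_zero, zero_mul])
  apply MR1_aeval b _ _ ?_ key
  have e1 : (1 : LP PA 2) = single 0 1 := rfl
  rw [MR1_Ile φ 0 0 0 (by norm_num), e1, MR1_E_single, MR1_c_apply]
  have e2 : MR1_h 0 = 1 := by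
    unfold MR1_h
    simp
  rw [e2, φ.one, map_one, one_mul]

/-- the formal integrals for `x^N` -/
private noncomputable def MR1_J (N : ℕ) (i _m : ℤ) : LP PA 1 →ₗ[PA] PA :=
  if i ≤ 0 then MR1_L (fun q => if q 0 = -((N : ℤ) * i) then 1 else 0) else 0

private theorem MR1_Jpos (N : ℕ) (m : ℤ) : MR1_J N 1 m = 0 := by
  unfold MR1_J
  rw [if_neg (by decide)]

private theorem MR1_Jle (N : ℕ) (i m : ℤ) (hi : i ≤ 0) (q : Lat 1) (x : PA) :
    MR1_J N i m (single q x) = if q 0 = -((N : ℤ) * i) then x else 0 := by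
  unfold MR1_J
  rw [if_pos hi, MR1_L_single]
  split_ifs
  · rw [map_one, one_mul]
  · rw [map_zero, zero_mul]

private theorem MR1_PLn_pow (k : ℕ) : PLn ((MvPolynomial.X 0 : MvPolynomial (Fin 1) ℂ) ^ k) =
    (single (fun _ => (k : ℤ)) 1 : LP PA 1) := by
  induction k with
  | zero =>
    rw [pow_zero, ES1_PLn_one, AddMonoidAlgebra.one_def]
    congr 1
  | succ k ih =>
    rw [pow_succ, ES1_PLn_mul, ih, ES1_PLn_X, single_mul_single, one_mul]
    congr 1
    funext j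
    have hj : j = 0 := Subsingleton.elim _ _
    rw [hj, Pi.add_apply, ev, Pi.single_eq_same]
    push_cast
    ring

private theorem MR1_FJ (N : ℕ) (hN : 0 < N) (R : ℕ) :
    FI R (PowerSeries.C (-(((1 / (N : ℚ) : ℚ)) : ℂ))) 0
      ((MvPolynomial.X 0 : MvPolynomial (Fin 1) ℂ) ^ N) 1 (fun _ => none) (MR1_J N) where
  h1 := by
    intro i m g hi1 hi2 hg
    refine JFL_ind (M := fun g => MR1_J N i m g = MR1_J N (i - 1) m (PLn _ * g)) ?_ ?_ ?_ hg
    · rw [map_zero, mul_zero, map_zero]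
    · intro x y hx hy
      rw [map_add, hx, hy, mul_add, map_add]
    · intro q hq x
      rw [MR1_PLn_pow, single_mul_single, one_mul]
      have e0 : ((fun _ => (N : ℤ)) + q : Lat 1) 0 = (N : ℤ) + q 0 := rfl
      rcases le_or_gt i 0 with h0 | h0
      · rw [MR1_Jle N i m h0, MR1_Jle N (i - 1) m (by omega), e0]
        have e1 : -((N : ℤ) * (i - 1)) = (N : ℤ) + -((N : ℤ) * i) := by ring
        rw [e1]
        by_cases h2 : q 0 = -((N : ℤ) * i)
        · rw [if_pos h2, if_pos (by rw [h2])]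
        · rw [if_neg h2, if_neg (fun h3 => h2 (by linarith))]
      · have e1 : i = 1 := by omega
        subst e1
        rw [MR1_Jpos, MR1_Jle N (1 - 1) m (by norm_num), e0, if_neg]
        · rfl
        · have h1 := hq 0
          intro h2
          have h3 : (0 : ℤ) < N := by exact_mod_cast hN
          simp at h2
          omega
  h2 := by
    intro i m g _ _ _
    rw [ES1_PLn_one, one_mul]
    rfl
  h3 := by
    intro i m j g _ hi1 hi2 hg
    have hj : j = 0 := Subsingleton.elim _ _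
    subst hj
    have e0 : dL (0 : Fin 1) (PLn (1 : MvPolynomial (Fin 1) ℂ)) = 0 := by
      rw [ES1_dL_PLn, ← MvPolynomial.C_1, MvPolynomial.pderiv_C, ES1_PLn_zero]
    rw [e0, zero_mul, map_zero, smul_zero, add_zero, MR1_PLn_pow, JF_dL_single]
    have e5 : (-ev 0 + (fun _ => (N : ℤ)) : Lat 1) = fun _ => (N : ℤ) - 1 := by
      funext j
      have hj : j = 0 := Subsingleton.elim _ _
      rw [hj, Pi.add_apply, Pi.neg_apply, ev, Pi.single_eq_same]
      ring
    rw [e5, mul_one]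
    have hN' : (N : ℚ) ≠ 0 := by exact_mod_cast hN.ne'
    have hNc : (N : ℂ) ≠ 0 := by exact_mod_cast hN.ne'
    have e6 : ((((N : ℤ)) : PA)) = PowerSeries.C (N : ℂ) := by
      rw [map_natCast]
      exact Int.cast_natCast _
    refine JFL_ind (M := fun g => MR1_J N i m (dL 0 g) +
      (PowerSeries.C (-(((1 / (N : ℚ) : ℚ)) : ℂ)) + (i : PA)) •
        MR1_J N (i - 1) m (single (fun _ => (N : ℤ) - 1) (((N : ℤ)) : PA) * g) = 0) ?_ ?_ ?_ hg
    · rw [ES1_dL_zero, map_zero, mul_zero, map_zero, smul_zero, add_zero]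
    · intro x y hx hy
      rw [ES1_dL_add, map_add, mul_add, map_add, smul_add, add_add_add_comm, hx, hy, add_zero]
    · intro q hq x
      rw [JF_dL_single, single_mul_single]
      have e7 : (-ev 0 + q : Lat 1) 0 = q 0 - 1 := by
        rw [Pi.add_apply, Pi.neg_apply, ev, Pi.single_eq_same]
        ring
      have e8 : ((fun _ => (N : ℤ) - 1) + q : Lat 1) 0 = (N : ℤ) - 1 + q 0 := rfl
      have hi' : (i : PA) = PowerSeries.C (i : ℂ) := (map_intCast (PowerSeries.C (R := ℂ)) i).symm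
      rcases le_or_gt i 0 with h0 | h0
      · rw [MR1_Jle N i m h0, MR1_Jle N (i - 1) m (by omega), e7, e8]
        have e1 : -((N : ℤ) * (i - 1)) = (N : ℤ) + -((N : ℤ) * i) := by ring
        rw [e1]
        by_cases h2 : q 0 - 1 = -((N : ℤ) * i)
        · rw [if_pos h2, if_pos (by linarith)]
          have hq1 : q 0 = 1 - (N : ℤ) * i := by linarith
          have e9 : ((q 0 : ℤ) : PA) = PowerSeries.C (1 - (N : ℂ) * (i : ℂ)) := by
            rw [hq1]
            rw [map_sub, map_mul, map_one, map_natCast, map_intCast]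
            push_cast
            ring
          rw [e9, e6, hi', smul_eq_mul, ← mul_assoc, ← map_add, ← map_mul, ← add_mul, ← map_add]
          have e10 : (1 - (N : ℂ) * (i : ℂ)) +
              (-(((1 / (N : ℚ) : ℚ)) : ℂ) + (i : ℂ)) * (N : ℂ) = 0 := by
            push_cast
            field_simp
            ring
          rw [e10, map_zero, zero_mul]
        · rw [if_neg h2, if_neg (fun h3 => h2 (by linarith)), smul_zero, add_zero]
      · have e1 : i = 1 := by omega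
        subst e1
        rw [MR1_Jpos, MR1_Jle N (1 - 1) m (by norm_num), e8]
        have h1 := hq 0
        by_cases h2 : (N : ℤ) - 1 + q 0 = -((N : ℤ) * (1 - 1))
        · rw [if_pos h2]
          have h3 : N = 1 := by
            have : (0 : ℤ) < N := by exact_mod_cast hN
            have h4 : -((N : ℤ) * (1 - 1)) = 0 := by ring
            rw [h4] at h2
            omega
          subst h3
          have e11 : (PowerSeries.C (-(((1 / ((1 : ℕ) : ℚ) : ℚ)) : ℂ)) + ((1 : ℤ) : PA)) = 0 := by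
            simp
          rw [e11, zero_smul, add_zero]
          rfl
        · rw [if_neg h2, smul_zero, add_zero]
          rfl
  h4 := by
    intro i m j c g h
    exact absurd h (by simp)
  z1 := by
    intro m g _
    rw [MR1_Jpos]
    rfl
  z0 := by
    intro m q x hq hq0
    rw [MR1_Jle N 0 m le_rfl, if_neg]
    intro h1
    apply hq0
    funext j
    have hj : j = 0 := Subsingleton.elim _ _
    rw [hj, h1]
    simp

theorem mr1S (N : ℕ) (hN : 0 < N) (b : Polynomial ℂ)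
    (h : FEq (MvPowerSeries (Fin 1) ℂ) (MvPowerSeries.X 0 ^ N) b) :
    b.eval (-(((1 / (N : ℚ) : ℚ)) : ℂ)) = 0 := by
  obtain ⟨R, ρ, hR, hR2⟩ := aip (MvPowerSeries.X 0 ^ N : MvPowerSeries (Fin 1) ℂ) b h
  have hP : Hi (N * R + 1 + ρ) ((((MvPolynomial.X 0 : MvPolynomial (Fin 1) ℂ) ^ N :
      MvPolynomial (Fin 1) ℂ) : MvPowerSeries (Fin 1) ℂ) - MvPowerSeries.X 0 ^ N) := by
    rw [MvPolynomial.coe_pow, MvPolynomial.coe_X, sub_self]
    intro ρ hρ
    exact absurd (map_zero _) hρ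
  obtain ⟨PW, E, hlen, hid, hE⟩ := hR2 (N * R + 1) _ hP
  have key := rky R hR _ 0 _ 1 (MR1_J N) (MR1_FJ N hN R) b PW E hlen hid (by
    intro u x hu
    obtain ⟨hu0, hu1⟩ := hE u hu
    rw [MR1_Jle N _ _ (by omega), if_neg]
    intro h1
    rw [Fin.sum_univ_one, h1] at hu1
    have h2 : -((N : ℤ) * -((R - 1 : ℕ) : ℤ)) = ((N * (R - 1) : ℕ) : ℤ) := by
      push_cast
      ring
    rw [h2] at hu1
    have h3 : N * (R - 1) ≤ N * R := Nat.mul_le_mul_left _ (by omega)
    omega)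
  apply MR1_aeval b _ _ ?_ key
  have e1 : (1 : LP PA 1) = single 0 1 := rfl
  rw [e1, MR1_Jle N 0 0 le_rfl, if_pos]
  simp

private theorem MR1_qf {f : R2} (hf : f ≠ 0) (hf0 : co f 0 0 = 0) (b : Polynomial ℂ)
    (h : FEq R2 f b) : b.eval (-1) = 0 := by
  have hdom : IsDomain R2 := NoZeroDivisors.to_isDomain _
  obtain ⟨B, hB, hk⟩ := h
  refine (qf f hf ?_ b hB ?_).1
  · intro hu
    rw [MvPowerSeries.isUnit_iff_constantCoeff, ← SBB_coe, hf0] at hu
    exact not_isUnit_zero hu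
  · intro k
    rw [hk k, one_mul]

private theorem MR1_GC (f : R2) : GC (fun _ : Fin 1 => Finsupp.single (0 : Fin 1) 1)
    (fun _ => (1 : ℂ)) (fun _ : Fin 1 => f) =
      MvPowerSeries.rename (fun δ : Fin 2 => ((0 : Fin 1), δ)) f := by
  unfold GC
  simp

/-- the equivalence of the variables -/
private def MR1_e : Fin 2 ≃ Fin 1 × Fin 2 where
  toFun δ := (0, δ)
  invFun := Prod.snd
  left_inv _ := rfl
  right_inv x := Prod.ext (Subsingleton.elim _ _) rfl

private theorem MR1_to {f : R2} {b : Polynomial ℂ} (h : FEq R2 f b) :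
    FEq (MvPowerSeries (Fin 1 × Fin 2) ℂ) (GC (fun _ : Fin 1 => Finsupp.single (0 : Fin 1) 1)
      (fun _ => (1 : ℂ)) (fun _ : Fin 1 => f)) b := by
  rw [MR1_GC]
  exact aut (MvPowerSeries.renameEquiv ℂ MR1_e) f b h

private theorem MR1_of {f : R2} {b : Polynomial ℂ}
    (h : FEq (MvPowerSeries (Fin 1 × Fin 2) ℂ) (GC (fun _ : Fin 1 => Finsupp.single (0 : Fin 1) 1)
      (fun _ => (1 : ℂ)) (fun _ : Fin 1 => f)) b) : FEq R2 f b := by
  rw [MR1_GC] at h
  have h1 := aut (MvPowerSeries.renameEquiv ℂ MR1_e).symm _ b h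
  have h2 : (MvPowerSeries.renameEquiv ℂ MR1_e).symm
      (MvPowerSeries.rename (fun δ : Fin 2 => ((0 : Fin 1), δ)) f) = f :=
    (MvPowerSeries.renameEquiv ℂ MR1_e).symm_apply_apply f
  rw [h2] at h1
  exact h1

private theorem MR1_two {f : R2} {N : ℕ} (hN : 0 < N) (hs : SpD f N) (b : Polynomial ℂ)
    (h : FEq R2 f b) : FEq (MvPowerSeries (Fin 1) ℂ) (MvPowerSeries.X 0 ^ N) b := by
  have h1 := fstep _ _ (fun _ : Fin 1 => f) 0 (U ^ N) (Or.inr (Or.inl ⟨N, hN, rfl, hs⟩)) b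
    (MR1_to h)
  have h2 : Function.update (fun _ : Fin 1 => f) 0 (U ^ N) = fun _ : Fin 1 => (U ^ N : R2) := by
    funext k
    have hk : k = 0 := Subsingleton.elim _ _
    rw [hk, Function.update_self]
  rw [h2] at h1
  have h3 := MR1_of h1
  refine rst (⟨fun _ => 0, fun _ _ _ => Subsingleton.elim _ _⟩ : Fin 1 ↪ Fin 2)
    (MvPowerSeries.X 0 ^ N) 1 one_ne_zero ?_ b ?_
  · intro ρ hρ _
    classical
    rw [MvPowerSeries.coeff_one] at hρ
    split_ifs at hρ with h4
    · rw [h4]; rfl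
    · exact absurd rfl hρ
  · rw [map_pow, MvPowerSeries.rename_X]
    exact h3

/-- MR1 -/
theorem mr1 {f : R2} (hf : f ≠ 0) (hf0 : co f 0 0 = 0) (b : Polynomial ℂ) (h : FEq R2 f b)
    (κ : ℚ) (t : Prop) (hV : Val f κ t) : b.eval (-(κ : ℂ)) = 0 := by
  rcases hV with ⟨-, -, -, ⟨φ⟩⟩ | ⟨-, N, hN, rfl, hs⟩ | ⟨-, rfl, -⟩ | ⟨-, rfl, -⟩
  · exact mr1E φ b h
  · exact mr1S N (by omega) b (MR1_two (by omega) hs b h)
  · rw [Rat.cast_one]
    exact MR1_qf hf hf0 b h
  · rw [Rat.cast_one]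
    exact MR1_qf hf hf0 b h

end Pool.Agent.H56.CT
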