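import Pool.Agent.H56.CT.RDefs

/-!
# NPB: nondegeneracy of the pull back

Let `w : Fin n → ℤ`, `x` in the torus with the face polynomial and all `x_l ∂_l` of it zero at `x` (for `rtE Nn grp a`).  `W k = ∑_{j : grp j = k} Nn j * w j`, `X k = ∏_{j : grp j = k} x j ^ Nn j ≠ 0`.
`∑_j w_j (rtE Nn grp a i j) = ∑_k W_k (a i k)` (`Finset.sum_fiberwise`), so the faces coincide (the two filters are equal), `∏_j x_j ^ (rtE Nn grp a i j) = ∏_k X_k ^ (a i k)` (`Finset.prod_fiberwise`, `pow_mul`, `Finset.prod_pow`).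
So the face polynomial of `a` vanishes at `X`, and for `k = grp j` (`hg`): `∑ κ_i (Nn j * a i k) ∏ .. = 0`, `Nn j ≠ 0`, so `∑ κ_i (a i k) ∏ .. = 0`.  This contradicts `nd W X`.
-/

set_option autoImplicit false

namespace Pool.Agent.H56.CT

open Finset
open Pool.Agent.H56.SMC Pool.Agent.H22.T7

theorem NPB_sum {R : Type} [CommSemiring R] {m n : ℕ} (Nn : Fin n → ℕ) (grp : Fin n → Fin m)
    (z : Fin n → R) (x : Fin m → ℕ) :
    ∑ j, z j * ((Nn j * x (grp j) : ℕ) : R) =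
      ∑ k, (∑ j ∈ univ.filter (fun j => grp j = k), z j * (Nn j : R)) * (x k : R) := by
  rw [← Finset.sum_fiberwise univ grp (fun j => z j * ((Nn j * x (grp j) : ℕ) : R))]
  apply Finset.sum_congr rfl
  intro k _
  rw [Finset.sum_mul]
  apply Finset.sum_congr rfl
  intro j hj
  rw [(mem_filter.1 hj).2]
  push_cast
  ring

theorem NPB_prod {m n : ℕ} (Nn : Fin n → ℕ) (grp : Fin n → Fin m) (x : Fin n → ℂ)
    (e : Fin m → ℕ) :
    ∏ j, x j ^ (Nn j * e (grp j)) =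
      ∏ k, (∏ j ∈ univ.filter (fun j => grp j = k), x j ^ Nn j) ^ e k := by
  rw [← Finset.prod_fiberwise univ grp (fun j => x j ^ (Nn j * e (grp j)))]
  apply Finset.prod_congr rfl
  intro k _
  rw [← Finset.prod_pow]
  apply Finset.prod_congr rfl
  intro j hj
  rw [(mem_filter.1 hj).2, pow_mul]

/-- NPB -/
theorem npb {m n r : ℕ} (a : Fin r → (Fin m →₀ ℕ)) (κ : Fin r → ℂ) (nd : Nondeg a κ)
    (Nn : Fin n → ℕ) (hN : ∀ j, 0 < Nn j) (grp : Fin n → Fin m)
    (hg : Function.Surjective grp) : Nondeg (rtE Nn grp a) κ := by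
  rintro w x hx ⟨h1, h2⟩
  obtain ⟨W, hW⟩ : ∃ W : Fin m → ℤ, ∀ k, W k =
      ∑ j ∈ univ.filter (fun j => grp j = k), w j * (Nn j : ℤ) := ⟨_, fun _ => rfl⟩
  obtain ⟨X, hX⟩ : ∃ X : Fin m → ℂ, ∀ k, X k =
      ∏ j ∈ univ.filter (fun j => grp j = k), x j ^ Nn j := ⟨_, fun _ => rfl⟩
  have hs : ∀ i, ∑ j, w j * (rtE Nn grp a i j : ℤ) = ∑ k, W k * (a i k : ℤ) := by
    intro i
    have h3 := NPB_sum (R := ℤ) Nn grp w (fun k => a i k)
    simp only [rtE_apply, hW]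
    exact h3
  have hp : ∀ i, ∏ j, x j ^ (rtE Nn grp a i j) = ∏ k, X k ^ (a i k) := by
    intro i
    simp only [rtE_apply, hX]
    exact NPB_prod Nn grp x (fun k => a i k)
  have hF : (univ.filter fun i => ∀ i', ∑ j, w j * (rtE Nn grp a i j : ℤ) ≤
      ∑ j, w j * (rtE Nn grp a i' j : ℤ)) =
      univ.filter fun i => ∀ i', ∑ j, W j * (a i j : ℤ) ≤ ∑ j, W j * (a i' j : ℤ) := by
    apply Finset.filter_congr
    intro i _
    exact forall_congr' fun i' => by rw [hs, hs]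
  rw [hF] at h1
  refine nd W X (fun k => ?_) ⟨?_, fun k => ?_⟩
  · rw [hX]
    exact Finset.prod_ne_zero_iff.2 fun j _ => pow_ne_zero _ (hx j)
  · rw [← h1]
    exact Finset.sum_congr rfl fun i _ => by rw [hp]
  · obtain ⟨j, rfl⟩ := hg k
    have h4 := h2 j
    rw [hF] at h4
    have h5 : (Nn j : ℂ) ≠ 0 := by exact_mod_cast (hN j).ne'
    refine (mul_eq_zero.1 (?_ : (Nn j : ℂ) * _ = 0)).resolve_left h5
    rw [Finset.mul_sum, ← h4]
    apply Finset.sum_congr rfl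
    intro i _
    rw [rtE_apply, hp]
    push_cast
    ring

end Pool.Agent.H56.CT
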