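import Mathlib

/-!
# ODE: the power `h^{-κ}` of a power series with constant term `1`

`S = K⟦ρ⟧`, `∂_ρ = d⁄dX K`, `∂_z = dz D` = the derivation `D` of `K` applied to the coefficients.

Proof.  `dz D` is a derivation: `coeff n (g h) = ∑ coeff i g coeff j h`.
(1) For every `G ∈ S` there is `U` with `constantCoeff U = 1`, `∂_ρ U = G U`: the coefficients are given by the recursion `u_0 = 1`, `(n+1) u_{n+1} = ∑_{i ≤ n} G_i u_{n-i}`.
(2) If `∂_ρ W = G W` and `constantCoeff W = 0` then `W = 0` (induction on the coefficients, characteristic zero).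
`h = ht` is a unit.  Take `G = -κ h⁻¹ ∂_ρ h` and `U` as in (1); put `H = -κ h⁻¹ ∂_z h`.  `∂_ρ ∂_z = ∂_z ∂_ρ` (coefficients; `D` commutes with the multiplication by integers), so `∂_z G = ∂_ρ H` (`D κ = 0`; both are
`-κ (h⁻¹ ∂_z∂_ρ h - h⁻² ∂_z h ∂_ρ h)`; multiply with `h²` to avoid the derivative of `h⁻¹`).  `W = ∂_z U - H U`: `∂_ρ W = ∂_z (G U) - (∂_ρ H) U - H G U = G ∂_z U - G H U = G W`, and
`constantCoeff W = D 1 - (constantCoeff H) = 0` (`constantCoeff (∂_z h) = D 1 = 0`).  So `W = 0`.
-/

set_option autoImplicit false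

namespace Pool.Agent.H56.CT

open PowerSeries

/-- The derivation `D` applied to the coefficients. -/
noncomputable def dz {K : Type} [Field K] [Algebra ℂ K] (D : Derivation ℂ K K) :
    Derivation ℂ (PowerSeries K) (PowerSeries K) :=
  Derivation.mk' { toFun := fun g => PowerSeries.mk fun n => D (coeff n g)
                   map_add' := by
                    intro x y
                    ext n
                    simp
                   map_smul' := by
                    intro c x
                    ext n
                    simp } (by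
    intro x y
    ext n
    simp only [LinearMap.coe_mk, AddHom.coe_mk, coeff_mk, coeff_mul, map_sum, Derivation.leibniz,
      smul_eq_mul, map_add]
    rw [Finset.sum_add_distrib]
    congr 1
    rw [← Finset.Nat.sum_antidiagonal_swap]
    exact Finset.sum_congr rfl fun p _ => by simp)

theorem coeff_dz {K : Type} [Field K] [Algebra ℂ K] (D : Derivation ℂ K K) (g : PowerSeries K)
    (n : ℕ) : coeff n (dz D g) = D (coeff n g) := by
  change coeff n (PowerSeries.mk fun n => D (coeff n g)) = _
  rw [coeff_mk]

private noncomputable def ODE_u {K : Type} [Field K] (G : ℕ → K) : ℕ → K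
  | 0 => 1
  | n + 1 => (∑ i : Fin (n + 1), ODE_u G i.1 * G (n - i.1)) / ((n : K) + 1)
termination_by n => n
decreasing_by exact i.2

private theorem ODE_u_succ {K : Type} [Field K] [CharZero K] (G : ℕ → K) (n : ℕ) :
    ODE_u G (n + 1) * ((n : K) + 1) = ∑ k ∈ Finset.range (n + 1), ODE_u G k * G (n - k) := by
  have hn : ((n : K) + 1) ≠ 0 := Nat.cast_add_one_ne_zero n
  rw [ODE_u, div_mul_cancel₀ _ hn, Finset.sum_range fun k => ODE_u G k * G (n - k)]

private theorem ODE_exists {K : Type} [Field K] [CharZero K] (G : PowerSeries K) :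
    ∃ U : PowerSeries K, constantCoeff U = 1 ∧ PowerSeries.derivative K U = G * U := by
  refine ⟨PowerSeries.mk (ODE_u fun n => coeff n G), ?_, ?_⟩
  · rw [← coeff_zero_eq_constantCoeff_apply, coeff_mk, ODE_u]
  · ext n
    rw [coeff_derivative, coeff_mk, ODE_u_succ, mul_comm G, coeff_mul,
      Finset.Nat.sum_antidiagonal_eq_sum_range_succ
        (fun i j => coeff i (PowerSeries.mk (ODE_u fun n => coeff n G)) * coeff j G) n]
    simp only [coeff_mk]

private theorem ODE_unique {K : Type} [Field K] [CharZero K] (G W : PowerSeries K)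
    (h0 : constantCoeff W = 0) (h : PowerSeries.derivative K W = G * W) : W = 0 := by
  ext n
  rw [map_zero]
  induction n using Nat.strong_induction_on with
  | _ n ih =>
    rcases n with _ | n
    · rw [coeff_zero_eq_constantCoeff_apply, h0]
    · have h1 := congrArg (coeff n) h
      rw [coeff_derivative, coeff_mul, Finset.sum_eq_zero] at h1
      · exact (mul_eq_zero.1 h1).resolve_right (Nat.cast_add_one_ne_zero n)
      · intro p hp
        have h2 : p.2 < n + 1 := by
          have := Finset.HasAntidiagonal.mem_antidiagonal.1 hp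
          omega
        rw [ih p.2 h2, mul_zero]

private theorem ODE_comm {K : Type} [Field K] [Algebra ℂ K] (D : Derivation ℂ K K)
    (g : PowerSeries K) :
    PowerSeries.derivative K (dz D g) = dz D (PowerSeries.derivative K g) := by
  ext n
  rw [coeff_derivative, coeff_dz, coeff_dz, coeff_derivative, Derivation.leibniz]
  have h1 : D ((n : K) + 1) = 0 := by
    rw [map_add, Derivation.map_natCast, Derivation.map_one_eq_zero, add_zero]
  rw [h1, smul_zero, zero_add, smul_eq_mul, mul_comm]

private theorem ODE_C {K : Type} [Field K] [Algebra ℂ K] (D : Derivation ℂ K K)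
    {κ : K} (hκ : D κ = 0) : dz D (C κ) = 0 := by
  ext n
  rw [coeff_dz, coeff_C, map_zero]
  split_ifs
  · exact hκ
  · exact map_zero D

/-- ODE -/
theorem ode {K : Type} [Field K] [Algebra ℂ K] [CharZero K] (D : Derivation ℂ K K)
    (ht : PowerSeries K) (h1 : constantCoeff ht = 1) (κ : K) (hκ : D κ = 0) :
    ∃ U : PowerSeries K, constantCoeff U = 1 ∧
      ht * PowerSeries.derivative K U = -(C κ * PowerSeries.derivative K ht * U) ∧
      ht * dz D U = -(C κ * dz D ht * U) := by
  obtain ⟨hi, hhi⟩ : ∃ hi : PowerSeries K, ht * hi = 1 :=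
    ⟨ht⁻¹, PowerSeries.mul_inv_cancel ht (by rw [h1]; exact one_ne_zero)⟩
  obtain ⟨U, hU0, hU⟩ := ODE_exists (-(C κ * hi * PowerSeries.derivative K ht))
  obtain ⟨G, hG⟩ : ∃ G, G = -(C κ * hi * PowerSeries.derivative K ht) := ⟨_, rfl⟩
  obtain ⟨H, hH⟩ : ∃ H, H = -(C κ * hi * dz D ht) := ⟨_, rfl⟩
  rw [← hG] at hU
  have hκ' : dz D (C κ) = 0 := ODE_C D hκ
  have hκ'' : PowerSeries.derivative K (C κ) = 0 := by
    rw [show (C κ : PowerSeries K) = algebraMap K (PowerSeries K) κ from rfl]
    exact Derivation.map_algebraMap _ κ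
  have e1 : ht * dz D hi + hi * dz D ht = 0 := by
    have := congrArg (dz D) hhi
    rwa [Derivation.leibniz, Derivation.map_one_eq_zero, smul_eq_mul, smul_eq_mul] at this
  have e2 : ht * PowerSeries.derivative K hi + hi * PowerSeries.derivative K ht = 0 := by
    have := congrArg (PowerSeries.derivative K) hhi
    rwa [Derivation.leibniz, Derivation.map_one_eq_zero, smul_eq_mul, smul_eq_mul] at this
  have d1 : dz D hi = -(hi * hi * dz D ht) := by
    linear_combination hi * e1 - dz D hi * hhi
  have d2 : PowerSeries.derivative K hi = -(hi * hi * PowerSeries.derivative K ht) := by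
    linear_combination hi * e2 - PowerSeries.derivative K hi * hhi
  have g1 : dz D G = PowerSeries.derivative K H := by
    rw [hG, hH, map_neg, map_neg, Derivation.leibniz, Derivation.leibniz, Derivation.leibniz,
      Derivation.leibniz, hκ', hκ'', d1, d2, ODE_comm]
    simp only [smul_eq_mul, mul_zero, add_zero]
    ring
  have hW : dz D U - H * U = 0 := by
    apply ODE_unique G
    · rw [map_sub, map_mul, hH, map_neg, map_mul, ← coeff_zero_eq_constantCoeff_apply (dz D U),
        ← coeff_zero_eq_constantCoeff_apply (dz D ht), coeff_dz, coeff_dz,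
        coeff_zero_eq_constantCoeff_apply, coeff_zero_eq_constantCoeff_apply, hU0, h1,
        Derivation.map_one_eq_zero]
      simp
    · rw [map_sub, ODE_comm, hU, Derivation.leibniz, Derivation.leibniz, hU, g1]
      simp only [smul_eq_mul]
      ring
  refine ⟨U, hU0, ?_, ?_⟩
  · rw [hU, hG]
    linear_combination (-(C κ * PowerSeries.derivative K ht * U)) * hhi
  · rw [sub_eq_zero.1 hW, hH]
    linear_combination (-(C κ * dz D ht * U)) * hhi

end Pool.Agent.H56.CT
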