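import Pool.Agent.H56.CT.FDefs
import Pool.Agent.H22.T7.CJ

/-!
# PBK: pull back of a functional equation

(1) `δ j (F h) = v * F (pderiv j h)` for all `h`.  `E h := δ j (F h) - v * F (pderiv ℂ j h)` is additive, `E (C c) = 0`, and `E (X i * x) = F (X i) * E x` (Leibniz for both derivations, `hδ`).  Claim: `Hi N (E h)` for all `N`, `h`; induction on `N`: `h = C c + ∑ i, X i * g i` (`hi_dec` in `Pool/Agent/H22/T7/DPS.lean` for `h - C (constantCoeff h)`, which is `Hi 1`), so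
`E h = ∑ F (X i) * E (g i)`, `Hi 1 (F (X i))`, `Hi_mul`.  So all coefficients of `E h` vanish.
(2) For every `D ∈ Diff (MvPowerSeries σ ℂ)` there are `M` and `D' ∈ Diff (MvPowerSeries τ ℂ)` with `v ^ M * F (D h) = D' (F h)` for all `h`.  `Diff_ind` (`Pool/Agent/H22/T7/PFB.lean`), as in `cj_const` (`Pool/Agent/H22/T7/CJ.lean`): `1`: `M = 0`; sums: `M = M1 + M2`; scalars; `mulLeft a * D`: `mulLeft (F a) * D'`;
`d * D` for a derivation `d`: let `y = D h`, `v ^ M * F y = D' (F h)`.  `d y = ∑ j, d (X j) * pderiv j y` (`dps`).  `δ j (v ^ M * F y) = M v^(M-1) (δ j v) F y + v ^ (M+1) F (pderiv j y)` (`cj_pow`-like), so `v ^ (M+2) F (pderiv j y) = v * δ j (D' (F h)) - M (δ j v) * D' (F h)`;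
multiply with `F (d (X j))` and add: `M + 2` and `∑ j, mulLeft (F (d (X j))) * (mulLeft v * δ j * D' - M • (mulLeft (δ j v) * D'))`.
(3) `B ∈ PF`, `B c = ∑ i, c ^ i • D i` (`PF_iff`), `M i`, `D' i` from (2), `M = ∑ M i`, `B' c = ∑ i, c ^ i • mulLeft (v ^ (M - M i)) * D' i ∈ PF`, `v ^ M * F (B c h) = B' c (F h)`.
(4) `B' k ((F G) ^ (k+1)) = v ^ M * F (B k (G ^ (k+1))) = v ^ M * F (b(k) • (V * G ^ k)) = b(k) • (v ^ M * F V * (F G) ^ k)`.
-/

set_option autoImplicit false

namespace Pool.Agent.H56.CT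

open Finset
open Pool.Agent.H22.T7

/-- `E h = δ j (F h) - v * F (pderiv j h)` vanishes. -/
theorem PBK_key {σ τ : Type} [Fintype σ] [DecidableEq σ] [Fintype τ] [DecidableEq τ]
    (F : MvPowerSeries σ ℂ →ₐ[ℂ] MvPowerSeries τ ℂ) (hF : ∀ j, Hi 1 (F (MvPowerSeries.X j)))
    (v : MvPowerSeries τ ℂ)
    (δ : σ → Derivation ℂ (MvPowerSeries τ ℂ) (MvPowerSeries τ ℂ))
    (hδ : ∀ i j, δ j (F (MvPowerSeries.X i)) = if i = j then v else 0) (j : σ)
    (h : MvPowerSeries σ ℂ) :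
    δ j (F h) = v * F (MvPowerSeries.pderiv ℂ j h) := by
  classical
  set E : MvPowerSeries σ ℂ → MvPowerSeries τ ℂ := fun h =>
    δ j (F h) - v * F (MvPowerSeries.pderiv ℂ j h) with hE
  have hadd : ∀ x y, E (x + y) = E x + E y := by
    intro x y
    simp only [hE, map_add, mul_add]
    ring
  have hsum : ∀ (s : Finset σ) (f : σ → MvPowerSeries σ ℂ),
      E (∑ i ∈ s, f i) = ∑ i ∈ s, E (f i) := by
    intro s f
    induction s using Finset.induction_on with
    | empty => simp [hE]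
    | insert i s hi ih => rw [sum_insert hi, sum_insert hi, hadd, ih]
  have hmul : ∀ x y, E (x * y) = F x * E y + F y * E x := by
    intro x y
    simp only [hE, Derivation.leibniz, smul_eq_mul, map_mul, map_add]
    ring
  have hX : ∀ i, E (MvPowerSeries.X i) = 0 := by
    intro i
    simp only [hE]
    rw [hδ]
    by_cases hij : i = j
    · rw [if_pos hij, hij, MvPowerSeries.pderiv_X_self, map_one, mul_one, sub_self]
    · rw [if_neg hij, MvPowerSeries.pderiv_X_of_ne (fun h => hij h), map_zero, mul_zero, sub_self]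
  have hC : ∀ c : ℂ, E (MvPowerSeries.C c) = 0 := by
    intro c
    simp only [hE, MvPowerSeries.pderiv_C, map_zero, mul_zero, sub_zero]
    have h1 : (MvPowerSeries.C c : MvPowerSeries σ ℂ) = algebraMap ℂ _ c := rfl
    rw [h1, AlgHom.commutes]
    exact (δ j).map_algebraMap c
  have key : ∀ (N : ℕ) (h : MvPowerSeries σ ℂ), Hi N (E h) := by
    intro N
    induction N with
    | zero => intro h; exact Hi_zero _
    | succ N ih =>
      intro h
      have h0 : Hi (0 + 1) (h - MvPowerSeries.C (MvPowerSeries.constantCoeff h)) := by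
        intro ρ hρ
        by_contra hcon
        have h1 : ρ.degree = 0 := by omega
        rw [Finsupp.degree_eq_zero_iff] at h1
        apply hρ
        rw [h1, map_sub]
        simp
      obtain ⟨g, -, hg⟩ := hi_dec 0 _ h0
      have h2 : h = MvPowerSeries.C (MvPowerSeries.constantCoeff h) +
          ∑ j, MvPowerSeries.X j * g j := by
        rw [← hg]; ring
      rw [h2, hadd, hC, zero_add, hsum]
      refine Hi_sum _ _ fun i _ => ?_
      rw [hmul, hX, mul_zero, add_zero, add_comm N 1]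
      exact Hi_mul (hF i) (ih _)
  have h0 : E h = 0 := by
    ext ρ
    by_contra hne
    have h1 : MvPowerSeries.coeff ρ (E h) ≠ 0 := hne
    have h2 := key (ρ.degree + 1) h ρ h1
    omega
  exact sub_eq_zero.1 h0

/-- Differential operators along `F`. -/
theorem PBK_diff {σ τ : Type} [Fintype σ] [DecidableEq σ] [Fintype τ] [DecidableEq τ]
    (F : MvPowerSeries σ ℂ →ₐ[ℂ] MvPowerSeries τ ℂ) (hF : ∀ j, Hi 1 (F (MvPowerSeries.X j)))
    (v : MvPowerSeries τ ℂ)
    (δ : σ → Derivation ℂ (MvPowerSeries τ ℂ) (MvPowerSeries τ ℂ))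
    (hδ : ∀ i j, δ j (F (MvPowerSeries.X i)) = if i = j then v else 0) :
    ∀ D ∈ Diff (MvPowerSeries σ ℂ), ∃ M : ℕ, ∃ D' ∈ Diff (MvPowerSeries τ ℂ),
      ∀ h, v ^ M * F (D h) = D' (F h) := by
  refine Diff_ind ?_ ?_ ?_ ?_ ?_
  · refine ⟨0, 1, one_mem _, fun h => ?_⟩
    rw [pow_zero, one_mul, Module.End.one_apply, Module.End.one_apply]
  · rintro D E ⟨M1, D1, hD1, h1⟩ ⟨M2, D2, hD2, h2⟩
    refine ⟨M1 + M2, LinearMap.mulLeft ℂ (v ^ M2) * D1 + LinearMap.mulLeft ℂ (v ^ M1) * D2,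
      add_mem (mul_mem (mulLeft_mem _) hD1) (mul_mem (mulLeft_mem _) hD2), fun h => ?_⟩
    rw [LinearMap.add_apply, LinearMap.add_apply, Module.End.mul_apply, Module.End.mul_apply,
      LinearMap.mulLeft_apply, LinearMap.mulLeft_apply, map_add, ← h1, ← h2, pow_add]
    ring
  · rintro c D ⟨M, D', hD', h1⟩
    refine ⟨M, c • D', (Diff _).smul_mem hD' c, fun h => ?_⟩
    rw [LinearMap.smul_apply, LinearMap.smul_apply, map_smul, mul_smul_comm, h1]
  · rintro a D ⟨M, D', hD', h1⟩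
    refine ⟨M, LinearMap.mulLeft ℂ (F a) * D', mul_mem (mulLeft_mem _) hD', fun h => ?_⟩
    rw [Module.End.mul_apply, Module.End.mul_apply, LinearMap.mulLeft_apply,
      LinearMap.mulLeft_apply, map_mul, ← h1]
    ring
  · rintro d D ⟨M, D', hD', h1⟩
    refine ⟨M + 2, ∑ j, LinearMap.mulLeft ℂ (F (d (MvPowerSeries.X j))) *
      (LinearMap.mulLeft ℂ v * (δ j).toLinearMap * D' -
        M • (LinearMap.mulLeft ℂ (δ j v) * D')), ?_, fun h => ?_⟩
    · refine sum_mem fun j _ => mul_mem (mulLeft_mem _) (sub_mem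
        (mul_mem (mul_mem (mulLeft_mem _) (der_mem _)) hD') (nsmul_mem
        (mul_mem (mulLeft_mem _) hD') M))
    · have e0 : (d.toLinearMap * D) h = d (D h) := rfl
      rw [e0, dps d (D h), map_sum, mul_sum, LinearMap.sum_apply]
      refine sum_congr rfl fun j _ => ?_
      have e1 : (LinearMap.mulLeft ℂ (F (d (MvPowerSeries.X j))) *
          (LinearMap.mulLeft ℂ v * (δ j).toLinearMap * D' -
            M • (LinearMap.mulLeft ℂ (δ j v) * D'))) (F h) =
          F (d (MvPowerSeries.X j)) * (v * δ j (D' (F h)) - (M : MvPowerSeries τ ℂ) *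
            (δ j v * D' (F h))) := by
        rw [Module.End.mul_apply, LinearMap.mulLeft_apply, LinearMap.sub_apply,
          LinearMap.smul_apply, nsmul_eq_mul]
        rfl
      have e2 := cj_pow v (δ j) M
      have e3 := PBK_key F hF v δ hδ j (D h)
      rw [e1, map_mul, ← h1, Derivation.leibniz, smul_eq_mul, smul_eq_mul, e3, pow_add]
      linear_combination (-1 : MvPowerSeries τ ℂ) * F (d (MvPowerSeries.X j)) * F (D h) * e2

/-- PBK -/
theorem pbk {σ τ : Type} [Fintype σ] [DecidableEq σ] [Fintype τ] [DecidableEq τ]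
    (F : MvPowerSeries σ ℂ →ₐ[ℂ] MvPowerSeries τ ℂ) (hF : ∀ j, Hi 1 (F (MvPowerSeries.X j)))
    (v : MvPowerSeries τ ℂ)
    (δ : σ → Derivation ℂ (MvPowerSeries τ ℂ) (MvPowerSeries τ ℂ))
    (hδ : ∀ i j, δ j (F (MvPowerSeries.X i)) = if i = j then v else 0)
    (G V' : MvPowerSeries σ ℂ) (b : Polynomial ℂ) (h : FEqV (MvPowerSeries σ ℂ) G V' b) :
    ∃ M : ℕ, FEqV (MvPowerSeries τ ℂ) (F G) (v ^ M * F V') b := by
  obtain ⟨B, hB, hk⟩ := h
  obtain ⟨d, D, hD, hc⟩ := (PF_iff B).1 hB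
  choose M D' hD' h1 using fun i => PBK_diff F hF v δ hδ (D i) (hD i)
  obtain ⟨N, hN⟩ : ∃ N, N = ∑ i, M i := ⟨_, rfl⟩
  have hle : ∀ i, M i ≤ N := by
    intro i
    rw [hN]
    exact Finset.single_le_sum (fun _ _ => Nat.zero_le _) (Finset.mem_univ i)
  refine ⟨N, fun c => ∑ i : Fin d, c ^ (i : ℕ) • (LinearMap.mulLeft ℂ (v ^ (N - M i)) * D' i),
    (PF_iff _).2 ⟨d, fun i => LinearMap.mulLeft ℂ (v ^ (N - M i)) * D' i,
      fun i => mul_mem (mulLeft_mem _) (hD' i), fun c => rfl⟩, fun k => ?_⟩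
  have e1 : (∑ i : Fin d, (k : ℂ) ^ (i : ℕ) • (LinearMap.mulLeft ℂ (v ^ (N - M i)) * D' i))
      (F G ^ (k + 1)) = v ^ N * F (B (k : ℂ) (G ^ (k + 1))) := by
    rw [hc, LinearMap.sum_apply, LinearMap.sum_apply, map_sum, mul_sum]
    refine sum_congr rfl fun i _ => ?_
    rw [LinearMap.smul_apply, LinearMap.smul_apply, map_smul, mul_smul_comm, Module.End.mul_apply,
      LinearMap.mulLeft_apply, ← map_pow, ← h1, ← mul_assoc, ← pow_add,
      Nat.sub_add_cancel (hle i)]
  dsimp only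
  rw [e1, hk, map_smul, map_mul, map_pow, mul_smul_comm, mul_assoc]

end Pool.Agent.H56.CT
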