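import Pool.Agent.H56.CT.Defs
import Pool.Agent.H56.CT.ODE

/-!
# PIX: the chart `u = ρ`, `v = ρ z`

Proof.  `π g = ∑_n (ini n g) ρ^n`, `coeff n (π g) = algebraMap (ini n g) = ∑_{j ≤ n} g_{n-j,j} z^j`.  It is additive and `ℂ`-linear, `π 1 = 1`; multiplicative: `coeff n (π (g h)) = ∑_{j ≤ n} z^j ∑ g_{i1,j1} h_{i2,j2}`
over `i1 + i2 = n - j`, `j1 + j2 = j`, and `∑_{m1 + m2 = n} (∑_{j1 ≤ m1} g_{m1-j1,j1} z^{j1}) (∑_{j2 ≤ m2} h_{m2-j2,j2} z^{j2})`; both are the sum of `g_{i1,j1} h_{i2,j2} z^{j1+j2}` over all `i1 + j1 + i2 + j2 = n`.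
(Coefficients of products: `MvPowerSeries.coeff_mul`, and the antidiagonal of `single 0 i + single 1 j` corresponds to pairs of antidiagonals; alternatively obtain `π` as a substitution
`MvPowerSeries.subst ![X, C z * X]` into `PowerSeries K = MvPowerSeries Unit K` (`HasSubst`: constant terms zero; `substAlgHom` with coefficient ring `ℂ` and target `K`) and compute its coefficients with `coeff_subst`.)
Chain rules: `coeff n (∂_ρ (π g)) = (n+1) ∑_j g_{n+1-j,j} z^j`; `coeff n (π (pd 0 g)) = ∑_{j ≤ n} (n-j+1) g_{n-j+1,j} z^j`; `coeff n (C z * π (pd 1 g)) = z ∑_{j ≤ n} (j+1) g_{n-j,j+1} z^j = ∑_{1 ≤ j ≤ n+1} j g_{n+1-j,j} z^j`;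
the sum is right (`coeff_pderiv`).  `coeff n (dz D (π g)) = ∑_j j g_{n-j,j} z^{j-1} = coeff (n-1) (π (pd 1 g))`, and `0` for `n = 0`.
-/

set_option autoImplicit false

namespace Pool.Agent.H56.CT

open Finset

theorem PIX_co_mul (g h : R2) (i j : ℕ) :
    co (g * h) i j = ∑ p ∈ antidiagonal i, ∑ q ∈ antidiagonal j, co g p.1 q.1 * co h p.2 q.2 := by
  classical
  unfold co
  rw [MvPowerSeries.coeff_mul, ← Finset.sum_product']
  symm
  refine Finset.sum_nbij'
    (fun x => ((Finsupp.single 0 x.1.1 + Finsupp.single 1 x.2.1 : Fin 2 →₀ ℕ),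
      (Finsupp.single 0 x.1.2 + Finsupp.single 1 x.2.2 : Fin 2 →₀ ℕ)))
    (fun y => ((y.1 0, y.2 0), (y.1 1, y.2 1))) ?_ ?_ ?_ ?_ ?_
  · rintro ⟨⟨a, b⟩, c, d⟩ hx
    simp only [mem_product, HasAntidiagonal.mem_antidiagonal] at hx
    simp only [HasAntidiagonal.mem_antidiagonal]
    rw [← hx.1, ← hx.2, Finsupp.single_add, Finsupp.single_add]
    abel
  · rintro ⟨a, b⟩ hx
    simp only [HasAntidiagonal.mem_antidiagonal] at hx
    simp only [mem_product, HasAntidiagonal.mem_antidiagonal]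
    have h0 := congrArg (fun w : Fin 2 →₀ ℕ => w 0) hx
    have h1 := congrArg (fun w : Fin 2 →₀ ℕ => w 1) hx
    simp at h0 h1
    exact ⟨h0, h1⟩
  · rintro ⟨⟨a, b⟩, c, d⟩ hx
    simp
  · rintro ⟨a, b⟩ hx
    simp only [Prod.mk.injEq]
    constructor
    · ext k
      fin_cases k <;> simp
    · ext k
      fin_cases k <;> simp
  · rintro ⟨⟨a, b⟩, c, d⟩ hx
    rfl

theorem PIX_ini (n : ℕ) (g : R2) :
    ini n g = ∑ p ∈ antidiagonal n, Polynomial.monomial p.2 (co g p.1 p.2) := by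
  unfold ini
  rw [← Finset.Nat.sum_antidiagonal_swap, Finset.Nat.sum_antidiagonal_eq_sum_range_succ_mk]
  rfl

theorem PIX_mul (n : ℕ) (g h : R2) :
    ini n (g * h) = ∑ p ∈ antidiagonal n, ini p.1 g * ini p.2 h := by
  have h1 : ini n (g * h) = ∑ p ∈ antidiagonal n, ∑ q ∈ antidiagonal p.1 ×ˢ antidiagonal p.2,
      Polynomial.monomial q.2.1 (co g q.1.1 q.2.1) * Polynomial.monomial q.2.2 (co h q.1.2 q.2.2) := by
    rw [PIX_ini]
    refine Finset.sum_congr rfl fun p _ => ?_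
    rw [PIX_co_mul, ← Finset.sum_product', map_sum]
    refine Finset.sum_congr rfl fun q hq => ?_
    rw [mem_product, HasAntidiagonal.mem_antidiagonal, HasAntidiagonal.mem_antidiagonal] at hq
    rw [Polynomial.monomial_mul_monomial, hq.2]
  have h2 : ∑ p ∈ antidiagonal n, ini p.1 g * ini p.2 h =
      ∑ p ∈ antidiagonal n, ∑ q ∈ antidiagonal p.1 ×ˢ antidiagonal p.2,
      Polynomial.monomial q.1.2 (co g q.1.1 q.1.2) * Polynomial.monomial q.2.2 (co h q.2.1 q.2.2) := by
    refine Finset.sum_congr rfl fun p _ => ?_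
    rw [PIX_ini, PIX_ini, Finset.sum_mul_sum, Finset.sum_product]
  rw [h1, h2, Finset.sum_sigma', Finset.sum_sigma']
  refine Finset.sum_nbij'
    (fun x => ⟨(x.2.1.1 + x.2.2.1, x.2.1.2 + x.2.2.2), ((x.2.1.1, x.2.2.1), (x.2.1.2, x.2.2.2))⟩)
    (fun x => ⟨(x.2.1.1 + x.2.2.1, x.2.1.2 + x.2.2.2), ((x.2.1.1, x.2.2.1), (x.2.1.2, x.2.2.2))⟩)
    ?_ ?_ ?_ ?_ ?_
  · rintro ⟨⟨i, j⟩, ⟨⟨a, b⟩, c, d⟩⟩ hx
    simp only [mem_sigma, mem_product, HasAntidiagonal.mem_antidiagonal] at hx ⊢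
    refine ⟨?_, trivial, trivial⟩
    omega
  · rintro ⟨⟨i, j⟩, ⟨⟨a, b⟩, c, d⟩⟩ hx
    simp only [mem_sigma, mem_product, HasAntidiagonal.mem_antidiagonal] at hx ⊢
    refine ⟨?_, trivial, trivial⟩
    omega
  · rintro ⟨⟨i, j⟩, ⟨⟨a, b⟩, c, d⟩⟩ hx
    simp only [mem_sigma, mem_product, HasAntidiagonal.mem_antidiagonal] at hx
    obtain ⟨h3, h4, h5⟩ := hx
    subst h4 h5
    rfl
  · rintro ⟨⟨i, j⟩, ⟨⟨a, b⟩, c, d⟩⟩ hx
    simp only [mem_sigma, mem_product, HasAntidiagonal.mem_antidiagonal] at hx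
    obtain ⟨h3, h4, h5⟩ := hx
    subst h4 h5
    rfl
  · rintro ⟨⟨i, j⟩, ⟨⟨a, b⟩, c, d⟩⟩ hx
    rfl

theorem PIX_pd0 (g : R2) (i j : ℕ) : co (pd 0 g) i j = co g (i + 1) j * ((i : ℂ) + 1) := by
  unfold co pd
  rw [MvPowerSeries.coeff_pderiv]
  congr 1
  · congr 1
    rw [Finsupp.single_add]
    abel_nf
  · simp

theorem PIX_pd1 (g : R2) (i j : ℕ) : co (pd 1 g) i j = co g i (j + 1) * ((j : ℂ) + 1) := by
  unfold co pd
  rw [MvPowerSeries.coeff_pderiv]
  congr 1
  · congr 1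
    rw [Finsupp.single_add]
    abel_nf
  · simp

theorem PIX_d0 (n : ℕ) (g : R2) : ini (n + 1) g * ((n : Polynomial ℂ) + 1) =
    ini n (pd 0 g) + Polynomial.X * ini n (pd 1 g) := by
  have h1 : ini (n + 1) g * ((n : Polynomial ℂ) + 1) =
      ∑ p ∈ antidiagonal (n + 1), Polynomial.monomial p.2 (co g p.1 p.2 * (p.1 : ℂ)) +
      ∑ p ∈ antidiagonal (n + 1), Polynomial.monomial p.2 (co g p.1 p.2 * (p.2 : ℂ)) := by
    rw [PIX_ini, Finset.sum_mul, ← Finset.sum_add_distrib]
    refine Finset.sum_congr rfl fun p hp => ?_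
    rw [HasAntidiagonal.mem_antidiagonal] at hp
    have hc : ((n : Polynomial ℂ) + 1) = Polynomial.C ((p.1 : ℂ) + (p.2 : ℂ)) := by
      have : ((p.1 : ℂ) + (p.2 : ℂ)) = (n : ℂ) + 1 := by exact_mod_cast hp
      rw [this, Polynomial.C_add, Polynomial.C_1, Polynomial.C_eq_natCast]
    rw [hc, mul_comm, Polynomial.C_mul_monomial, ← map_add]
    congr 1
    ring
  have h2 : ∑ p ∈ antidiagonal (n + 1), Polynomial.monomial p.2 (co g p.1 p.2 * (p.1 : ℂ)) =
      ini n (pd 0 g) := by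
    rw [Finset.Nat.sum_antidiagonal_succ, PIX_ini]
    simp only [PIX_pd0]
    push_cast
    simp
  have h3 : ∑ p ∈ antidiagonal (n + 1), Polynomial.monomial p.2 (co g p.1 p.2 * (p.2 : ℂ)) =
      Polynomial.X * ini n (pd 1 g) := by
    rw [Finset.Nat.sum_antidiagonal_succ', PIX_ini, Finset.mul_sum]
    simp only [PIX_pd1, Polynomial.X_mul_monomial]
    push_cast
    simp
  rw [h1, h2, h3]

theorem PIX_d1 (n : ℕ) (g : R2) : Polynomial.derivative (ini (n + 1) g) = ini n (pd 1 g) := by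
  rw [PIX_ini, map_sum, Finset.Nat.sum_antidiagonal_succ', PIX_ini]
  simp only [PIX_pd1, Polynomial.derivative_monomial]
  push_cast
  simp

/-- PIX -/
theorem pix (D : Derivation ℂ (RatFunc ℂ) (RatFunc ℂ))
    (hD : ∀ p : Polynomial ℂ, D (algebraMap (Polynomial ℂ) (RatFunc ℂ) p) =
      algebraMap (Polynomial ℂ) (RatFunc ℂ) (Polynomial.derivative p)) :
    ∃ π : R2 →ₐ[ℂ] PowerSeries (RatFunc ℂ),
      (∀ g n, PowerSeries.coeff n (π g) =
        algebraMap (Polynomial ℂ) (RatFunc ℂ) (ini n g)) ∧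
      (∀ g, PowerSeries.derivative (RatFunc ℂ) (π g) =
        π (pd 0 g) + PowerSeries.C RatFunc.X * π (pd 1 g)) ∧
      ∀ g, dz D (π g) = PowerSeries.X * π (pd 1 g) := by
  have hsc : ∀ (c : ℂ) (p : Polynomial ℂ), algebraMap (Polynomial ℂ) (RatFunc ℂ) (c • p) =
      c • algebraMap (Polynomial ℂ) (RatFunc ℂ) p := by
    intro c p
    rw [Algebra.smul_def, map_mul, ← IsScalarTower.algebraMap_apply ℂ (Polynomial ℂ) (RatFunc ℂ),
      ← Algebra.smul_def]
  let L : R2 →ₗ[ℂ] PowerSeries (RatFunc ℂ) :=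
    { toFun := fun g => PowerSeries.mk fun n => algebraMap (Polynomial ℂ) (RatFunc ℂ) (ini n g)
      map_add' := by
        intro g h
        ext n
        rw [map_add, PowerSeries.coeff_mk, PowerSeries.coeff_mk, PowerSeries.coeff_mk, ← map_add]
        congr 1
        rw [PIX_ini, PIX_ini, PIX_ini, ← Finset.sum_add_distrib]
        refine Finset.sum_congr rfl fun p _ => ?_
        rw [← map_add]
        rfl
      map_smul' := by
        intro c g
        ext n
        have h1 : ini n (c • g) = c • ini n g := by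
          rw [PIX_ini, PIX_ini, Finset.smul_sum]
          refine Finset.sum_congr rfl fun p _ => ?_
          rw [Polynomial.smul_monomial]
          rfl
        rw [PowerSeries.coeff_mk, h1, hsc, RingHom.id_apply]
        simp }
  have hL : ∀ g n, PowerSeries.coeff n (L g) =
      algebraMap (Polynomial ℂ) (RatFunc ℂ) (ini n g) := by
    intro g n
    show PowerSeries.coeff n (PowerSeries.mk fun n => algebraMap (Polynomial ℂ) (RatFunc ℂ) (ini n g)) = _
    rw [PowerSeries.coeff_mk]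
  have hone : L 1 = 1 := by
    ext n
    rw [hL, PowerSeries.coeff_one]
    split_ifs with h0
    · subst h0
      have : ini 0 (1 : R2) = 1 := by
        unfold ini co
        simp
      rw [this, map_one]
    · have : ini n (1 : R2) = 0 := by
        rw [PIX_ini]
        refine Finset.sum_eq_zero fun p hp => ?_
        rw [HasAntidiagonal.mem_antidiagonal] at hp
        have h1 : co (1 : R2) p.1 p.2 = 0 := by
          classical
          unfold co
          rw [MvPowerSeries.coeff_one, if_neg]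
          intro h2
          have h3 := congrArg (fun w : Fin 2 →₀ ℕ => w 0) h2
          have h4 := congrArg (fun w : Fin 2 →₀ ℕ => w 1) h2
          simp at h3 h4
          omega
        rw [h1, map_zero]
      rw [this, map_zero]
  have hmul : ∀ g h, L (g * h) = L g * L h := by
    intro g h
    ext n
    rw [hL, PowerSeries.coeff_mul, PIX_mul, map_sum]
    refine Finset.sum_congr rfl fun p _ => ?_
    rw [map_mul, hL, hL]
  refine ⟨AlgHom.ofLinearMap L hone hmul, fun g n => hL g n, fun g => ?_, fun g => ?_⟩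
  · ext n
    show PowerSeries.coeff n (PowerSeries.derivative (RatFunc ℂ) (L g)) =
      PowerSeries.coeff n (L (pd 0 g) + PowerSeries.C RatFunc.X * L (pd 1 g))
    rw [PowerSeries.coeff_derivative, map_add, PowerSeries.coeff_C_mul, hL, hL, hL]
    have := congrArg (algebraMap (Polynomial ℂ) (RatFunc ℂ)) (PIX_d0 n g)
    rw [map_mul, map_add, map_add, map_one, map_natCast, map_mul, RatFunc.algebraMap_X] at this
    exact this
  · ext n
    show PowerSeries.coeff n (dz D (L g)) = PowerSeries.coeff n (PowerSeries.X * L (pd 1 g))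
    rw [coeff_dz, hL, hD]
    rcases n with _ | n
    · rw [PowerSeries.coeff_zero_X_mul]
      have : Polynomial.derivative (ini 0 g) = 0 := by
        unfold ini
        simp
      rw [this, map_zero]
    · rw [PowerSeries.coeff_succ_X_mul, hL, PIX_d1]

end Pool.Agent.H56.CT
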