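import Pool.Agent.H56.CT.WDefs
import Pool.Agent.H56.CT.Defs
import Pool.Agent.H56.T5.BFBL
import Pool.Agent.H22.T7.JFX

/-!
# The relation block: definitions

Formal integrals `I i m g`, a version of `∫ F^{s+i} H^{t+m} g`, for `-R ≤ i ≤ 1`; composition with
germs of plane curves.
-/

set_option autoImplicit false

namespace Pool.Agent.H56.CT

open Finset AddMonoidAlgebra
open Pool.Agent.H56.SMC Pool.Agent.H37.T5 Pool.Agent.H56.T5 Pool.Agent.H37.T6 Pool.Agent.H22.T6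
open Pool.Agent.H22.T7

/-- A polynomial as a Laurent polynomial over `PA`. -/
noncomputable def PLn {n : ℕ} (P : MvPolynomial (Fin n) ℂ) : LP PA n :=
  lmap (algebraMap ℂ PA) (toL ℂ P)

/-- The operator `x_k ∂/∂x_k`. -/
noncomputable def thL {n : ℕ} (k : Fin n) (g : LP PA n) : LP PA n := dg (fun u => (u k : PA)) g

/-- `H = λ_0 + ∑ λ_j x_j^M`. -/
noncomputable def HlP {n : ℕ} (M : ℕ) (lam : Option (Fin n) ⊕ Fin 0 → ℂ) :
    MvPolynomial (Fin n) ℂ :=
  MvPolynomial.C (lam (Sum.inl none)) +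
    ∑ j, MvPolynomial.monomial (Finsupp.single j M) (lam (Sum.inl (some j)))

/-- The relations, together with the terms with exponents in `HiV`. -/
noncomputable def VH {n r : ℕ} (a : Fin r → (Fin n →₀ ℕ)) (κ : Fin r → ℂ) (p : Fin n → ℚ)
    (w : Fin n → ℕ) (M : ℤ) (lam : Option (Fin n) ⊕ Fin 0 → ℂ) :
    Submodule PA (LP KA (n + 2)) :=
  (exLS (fun j => jK (ppw (fun j => PowerSeries.C (pC p j))
        (PowerSeries.C (s0p a p w) + PowerSeries.X) (PowerSeries.C Complex.I) j))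
      (A5 a M) (fun i => jK (PowerSeries.C (cC κ lam i))) ev (sh (TT1 p))
      Set.univ).restrictScalars PA ⊔
    Submodule.span PA {x | ∃ u ∈ HiV a w, x = single u 1}

/-- Formal integrals.  The variable `j` is of plain type (`e j = none`, integration by parts for
`∂_j`) or of type `c` (`e j = some c`, integration by parts for `θ_j + c`). -/
structure FI {n : ℕ} {W : Type} [AddCommGroup W] [Module PA W] (R : ℕ) (s t : PA)
    (P Q : MvPolynomial (Fin n) ℂ) (e : Fin n → Option ℂ) (I : ℤ → ℤ → LP PA n →ₗ[PA] W) :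
    Prop where
  h1 : ∀ i m g, -(R : ℤ) ≤ i - 1 → i ≤ 1 → Supp (Pos n) g → I i m g = I (i - 1) m (PLn P * g)
  h2 : ∀ i m g, -(R : ℤ) ≤ i → i ≤ 1 → Supp (Pos n) g → I i m g = I i (m - 1) (PLn Q * g)
  h3 : ∀ i m j g, e j = none → -(R : ℤ) ≤ i - 1 → i ≤ 1 → Supp (Pos n) g →
    I i m (dL j g) + (s + (i : PA)) • I (i - 1) m (dL j (PLn P) * g) +
      (t + (m : PA)) • I i (m - 1) (dL j (PLn Q) * g) = 0
  h4 : ∀ i m j c g, e j = some c → -(R : ℤ) ≤ i - 1 → i ≤ 1 → Supp (Pos n) g →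
    I i m (thL j g + PowerSeries.C c • g) + (s + (i : PA)) • I (i - 1) m (thL j (PLn P) * g) +
      (t + (m : PA)) • I i (m - 1) (thL j (PLn Q) * g) = 0
  z1 : ∀ m g, Supp (Pos n) g → I 1 m g = 0
  z0 : ∀ m q x, (∀ j, 0 ≤ q j) → q ≠ 0 → I 0 m (single q x) = 0

/-- The monomials with exponents in `K` are killed. -/
def Kil {n : ℕ} {W : Type} [AddCommGroup W] [Module PA W] (R : ℕ)
    (I : ℤ → ℤ → LP PA n →ₗ[PA] W) (K : Set (Lat n)) : Prop :=
  ∀ i m q x, -(R : ℤ) ≤ i → i ≤ 1 → (∀ j, 0 ≤ q j) → q ∈ K → I i m (single q x) = 0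

/-- The two variables which replace the variable `k`. -/
def xv {n : ℕ} (k : Fin n) (δ : Fin 2) : Fin (n + 1) := if δ = 0 then k.castSucc else Fin.last n

/-- The polynomial `f'(x_k, y)` is substituted for the variable `x_k`; `y` is the new variable. -/
noncomputable def sbV {n : ℕ} (k : Fin n) (f' : MvPolynomial (Fin 2) ℂ) :
    MvPolynomial (Fin n) ℂ →ₐ[ℂ] MvPolynomial (Fin (n + 1)) ℂ :=
  MvPolynomial.aeval (fun j => if j = k then MvPolynomial.rename (xv k) f' else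
    MvPolynomial.X j.castSucc)

/-- The span of the monomials with `q_k ≥ D`. -/
noncomputable def TK {n : ℕ} (k : Fin n) (D : ℕ) : Submodule PA (LP PA n) :=
  Submodule.span PA {x | ∃ q : Lat n, (∀ j, 0 ≤ q j) ∧ (D : ℤ) ≤ q k ∧ x = single q 1}

/-- The polynomials `f'_j` are substituted for the variables `ε_j`. -/
noncomputable def sbI {n : ℕ} : (e : ℕ) → (Fin e → Fin n) → (Fin e → MvPolynomial (Fin 2) ℂ) →
    MvPolynomial (Fin n) ℂ → MvPolynomial (Fin (n + e)) ℂ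
  | 0, _, _, P => P
  | e + 1, ε, f', P => sbV (Fin.castAdd e (ε (Fin.last e))) (f' (Fin.last e))
      (sbI e (fun j => ε j.castSucc) (fun j => f' j.castSucc) P)

/-- The identity `∑_β p_β GG_β P^{R-|β|} = b P^{R-1} + E` for the polynomial `P`. -/
def AIdP {n : ℕ} (P : MvPolynomial (Fin n) ℂ) (b : Polynomial ℂ) (R : ℕ)
    (PW : H22.WeylS n) (E : LP (Polynomial ℂ) n) : Prop :=
  ∑ β ∈ PW.support, toL (Polynomial ℂ) (PW β) *
      GG (lmap Polynomial.C (toL ℂ P)) Polynomial.X (lst β) *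
      (lmap Polynomial.C (toL ℂ P)) ^ (R - (lst β).length) =
    b • (lmap Polynomial.C (toL ℂ P)) ^ (R - 1) + E

open Classical in
/-- The power series `f_j(x_k, y_j)` for `k = ε_j`, and the variable `x_k` otherwise. -/
noncomputable def zt {n e : ℕ} (ε : Fin e → Fin n) (f : Fin e → R2) (k : Fin n) :
    MvPowerSeries (Fin (n + e)) ℂ :=
  if h : ∃ j, ε j = k then
    MvPowerSeries.subst ![MvPowerSeries.X (Fin.castAdd e k),
      MvPowerSeries.X (Fin.natAdd n h.choose)] (f h.choose)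
  else MvPowerSeries.X (Fin.castAdd e k)

/-- The composition of `∑ κ_i x^{a_i}` with the germs `f_j` in the variables `ε_j`. -/
noncomputable def compG {n e r : ℕ} (a : Fin r → (Fin n →₀ ℕ)) (κ : Fin r → ℂ)
    (ε : Fin e → Fin n) (f : Fin e → R2) : MvPowerSeries (Fin (n + e)) ℂ :=
  ∑ i, MvPowerSeries.C (κ i) * ∏ k, zt ε f k ^ a i k

/-- Properties of the fibre integral `ψ` (`x_k`, `y` are replaced by `x_k = f(x_k, y)`) and of `Q`,
`ψ(∂_δ g) = (θ_k + c) Q_δ(g)`. -/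
structure ESP {n : ℕ} (k : Fin n) (c : ℂ) (D N : ℕ) (f' : MvPolynomial (Fin 2) ℂ)
    (ψ : LP PA (n + 1) →ₗ[PA] LP PA n) (Q : Fin 2 → LP PA (n + 1) →ₗ[PA] LP PA n) : Prop where
  pos : ∀ g, Supp (Pos (n + 1)) g → Supp (Pos n) (ψ g)
  posQ : ∀ δ g, Supp (Pos (n + 1)) g → Supp (Pos n) (Q δ g)
  mul : ∀ P g, Supp (Pos (n + 1)) g → ψ (PLn (sbV k f' P) * g) - PLn P * ψ g ∈ TK k D
  dL0 : ∀ j g, j ≠ k → Supp (Pos (n + 1)) g → ψ (dL j.castSucc g) = dL j (ψ g)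
  dL1 : ∀ j P g, j ≠ k → Supp (Pos (n + 1)) g →
    ψ (dL j.castSucc (PLn (sbV k f' P)) * g) - dL j (PLn P) * ψ g ∈ TK k D
  th0 : ∀ j g, j ≠ k → Supp (Pos (n + 1)) g → ψ (thL j.castSucc g) = thL j (ψ g)
  th1 : ∀ j P g, j ≠ k → Supp (Pos (n + 1)) g →
    ψ (thL j.castSucc (PLn (sbV k f' P)) * g) - thL j (PLn P) * ψ g ∈ TK k D
  x0 : ∀ δ g, Supp (Pos (n + 1)) g →
    ψ (dL (xv k δ) g) = thL k (Q δ g) + (PowerSeries.C c : PA) • Q δ g
  x1 : ∀ δ P g, Supp (Pos (n + 1)) g →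
    ψ (dL (xv k δ) (PLn (sbV k f' P)) * g) - thL k (PLn P) * Q δ g ∈ TK k D
  one : ∀ u, (ψ 1 - 1).coeff u ≠ 0 → u ≠ 0 ∧ ∀ j, 0 ≤ u j
  ne : ∀ (q : Lat (n + 1)) (x : PA), (∀ j, 0 ≤ q j) → q ≠ 0 →
    ∀ u, (ψ (single q x)).coeff u ≠ 0 → u ≠ 0
  zero : ∀ (q : Lat (n + 1)) (x : PA), (∀ j, 0 ≤ q j) →
    ((N * D : ℕ) : ℤ) ≤ q k.castSucc + q (Fin.last n) → ψ (single q x) = 0
  off : ∀ (q : Lat (n + 1)) (x : PA), (∀ j, 0 ≤ q j) →
    ∀ u, (ψ (single q x)).coeff u ≠ 0 → ∀ j, j ≠ k → u j = q j.castSucc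

/-- The types of the variables after the substitution for the variable `k`. -/
def eS {n : ℕ} (k : Fin n) (e : Fin n → Option ℂ) : Fin (n + 1) → Option ℂ :=
  Fin.snoc (α := fun _ => Option ℂ) (fun j => if j = k then none else e j) none

/-- The types of the variables after the substitutions for the variables `ε_j`. -/
def eI {n : ℕ} : (e : ℕ) → (Fin e → Fin n) → (Fin n → Option ℂ) → Fin (n + e) → Option ℂ
  | 0, _, t => t
  | e + 1, ε, t => eS (Fin.castAdd e (ε (Fin.last e))) (eI e (fun j => ε j.castSucc) t)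

/-- The exponents of `∑ κ_i x^{a_i}` with `x_k = ∏_{grp j = k} x_j^{Nn j}`. -/
noncomputable def rtE {m n r : ℕ} (Nn : Fin n → ℕ) (grp : Fin n → Fin m)
    (a : Fin r → (Fin m →₀ ℕ)) : Fin r → (Fin n →₀ ℕ) :=
  fun i => Finsupp.equivFunOnFinite.symm (fun j => Nn j * a i (grp j))

theorem rtE_apply {m n r : ℕ} (Nn : Fin n → ℕ) (grp : Fin n → Fin m)
    (a : Fin r → (Fin m →₀ ℕ)) (i : Fin r) (j : Fin n) :
    rtE Nn grp a i j = Nn j * a i (grp j) := by
  simp [rtE]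

end Pool.Agent.H56.CT
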