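import Pool.Agent.H56.CT.ES1
import Pool.Agent.H56.CT.ES2

/-!
# RIT: the substitutions for several variables

`eI_cast`, `eI_nat`: induction on `e` (`Fin.castAdd (e+1) k = (Fin.castAdd e k).castSucc`, `Fin.natAdd n (Fin.last e) = Fin.last (n+e)`, `Fin.natAdd n j.castSucc = (Fin.natAdd n j).castSucc`, all by `rfl`/`Fin.ext`; `Fin.snoc_castSucc`, `Fin.snoc_last`; range of `ε` = range of `ε ∘ castSucc` and `ε (last e)`).

`rit`: induction on `e` (`I` fixed).  `e = 0`: `I' = I` (`n + 0 = n`, `Fin.castAdd 0 k = k`; `eI 0`, `sbI 0` are the identity).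
`e + 1`: the induction hypothesis for `ε ∘ castSucc`, `f ∘ castSucc`, .. gives `I1` in the variables `Fin (n + e)`.  `k := Fin.castAdd e (ε (Fin.last e))`: `eI e (ε ∘ castSucc) t0 k = t0 (ε (Fin.last e)) = some κ` (`eI_cast`; `ε (last e)` is not in the range of `ε ∘ castSucc`).
`Kil R I1 {q | D ≤ q k}`: the last property of `I1` for `K = {q | D ≤ q (ε (Fin.last e))}` (it does not depend on the coordinates `ε j.castSucc`), `hK (Fin.last e)`.
`es1` (`n := n + e`) for `φ (Fin.last e)`, and `es2`; `I' i m = (I1 i m).comp ψ` on `Fin (n + e + 1) = Fin (n + (e+1))` (definitional).  `I' 0 0 1 = I1 0 0 (ψ 1) = I1 0 0 1 = I 0 0 1`.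
Kills: `j = Fin.last e`: third property of `es2`; `j = j'.castSucc`: the last property of `es2` for the set `{q | N_j D ≤ q (castAdd e (ε j)) + q (natAdd n j')}`, which does not depend on the coordinate `k` (`ε j ≠ ε (last e)`; `natAdd` and `castAdd` are different).
Last property: `K` does not depend on the coordinates in the range of `ε`: apply the last property of `I1` (the range of `ε ∘ castSucc` is smaller) and then the last property of `es2` for `{q : Lat (n+e) | (fun k => q (castAdd e k)) ∈ K}` (it does not depend on the coordinate `k`).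
-/

set_option autoImplicit false

namespace Pool.Agent.H56.CT

open Finset AddMonoidAlgebra
open Pool.Agent.H56.SMC Pool.Agent.H37.T5 Pool.Agent.H56.T5 Pool.Agent.H37.T6 Pool.Agent.H22.T6
open Pool.Agent.H22.T7

theorem RIT_eS_cast {n : ℕ} (k : Fin n) (e : Fin n → Option ℂ) (j : Fin n) :
    eS k e j.castSucc = if j = k then none else e j := by
  unfold eS
  rw [Fin.snoc_castSucc]

theorem RIT_eS_last {n : ℕ} (k : Fin n) (e : Fin n → Option ℂ) : eS k e (Fin.last n) = none := by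
  unfold eS
  rw [Fin.snoc_last]

theorem RIT_range {n e : ℕ} (ε : Fin (e + 1) → Fin n) (k : Fin n) :
    k ∈ Set.range ε ↔ k = ε (Fin.last e) ∨ k ∈ Set.range fun j : Fin e => ε j.castSucc := by
  constructor
  · rintro ⟨j, rfl⟩
    induction j using Fin.lastCases with
    | last => exact Or.inl rfl
    | cast j => exact Or.inr ⟨j, rfl⟩
  · rintro (rfl | ⟨j, rfl⟩)
    · exact ⟨_, rfl⟩
    · exact ⟨_, rfl⟩

open Classical in
theorem eI_cast {n : ℕ} (e : ℕ) (ε : Fin e → Fin n) (t0 : Fin n → Option ℂ) (k : Fin n) :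
    eI e ε t0 (Fin.castAdd e k) = if k ∈ Set.range ε then none else t0 k := by
  induction e with
  | zero =>
    rw [if_neg]
    · rfl
    · rintro ⟨j, _⟩
      exact j.elim0
  | succ e ih =>
    have h1 : eI (e + 1) ε t0 (Fin.castAdd (e + 1) k) =
        eS (Fin.castAdd e (ε (Fin.last e))) (eI e (fun j => ε j.castSucc) t0)
          (Fin.castAdd e k).castSucc := rfl
    rw [h1, RIT_eS_cast, ih]
    by_cases h : k = ε (Fin.last e)
    · rw [if_pos (by rw [h]), if_pos ((RIT_range ε k).2 (Or.inl h))]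
    · rw [if_neg (fun h' => h (Fin.castAdd_injective n e h'))]
      by_cases h2 : k ∈ Set.range fun j : Fin e => ε j.castSucc
      · rw [if_pos h2, if_pos ((RIT_range ε k).2 (Or.inr h2))]
      · rw [if_neg h2, if_neg (fun h3 => ((RIT_range ε k).1 h3).elim h h2)]

theorem eI_nat {n : ℕ} (e : ℕ) (ε : Fin e → Fin n) (t0 : Fin n → Option ℂ) (j : Fin e) :
    eI e ε t0 (Fin.natAdd n j) = none := by
  induction e with
  | zero => exact j.elim0
  | succ e ih =>
    induction j using Fin.lastCases with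
    | last =>
      have h1 : eI (e + 1) ε t0 (Fin.natAdd n (Fin.last e)) =
          eS (Fin.castAdd e (ε (Fin.last e))) (eI e (fun j => ε j.castSucc) t0)
            (Fin.last (n + e)) := rfl
      rw [h1, RIT_eS_last]
    | cast j =>
      have h1 : eI (e + 1) ε t0 (Fin.natAdd n j.castSucc) =
          eS (Fin.castAdd e (ε (Fin.last e))) (eI e (fun j => ε j.castSucc) t0)
            (Fin.natAdd n j).castSucc := rfl
      rw [h1, RIT_eS_cast]
      split_ifs
      · rfl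
      · exact ih _ j

theorem RIT_ne {n e : ℕ} (k : Fin n) (j : Fin e) : Fin.natAdd n j ≠ Fin.castAdd e k := by
  intro h
  have h1 := congrArg Fin.val h
  rw [Fin.val_natAdd, Fin.val_castAdd] at h1
  have h2 := k.2
  omega

theorem RIT_aux {n : ℕ} (D : ℕ) (hD : 0 < D)
    {W : Type} [AddCommGroup W] [Module PA W] (R : ℕ) (s t : PA)
    (P P2 : MvPolynomial (Fin n) ℂ) (t0 : Fin n → Option ℂ) (I : ℤ → ℤ → LP PA n →ₗ[PA] W)
    (hI : FI R s t P P2 t0 I) (e : ℕ) : ∀ (ε : Fin e → Fin n) (_ : Function.Injective ε)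
    (f : Fin e → R2) (κ : Fin e → ℚ) (φ : ∀ j, PhiD (f j) (κ j))
    (f' : Fin e → MvPolynomial (Fin 2) ℂ)
    (_ : ∀ j, Hi ((φ j).N * (D + 1) + 1) ((f' j : R2) - f j))
    (_ : ∀ j, t0 (ε j) = some (κ j : ℂ))
    (_ : ∀ j, Kil R I {q | (D : ℤ) ≤ q (ε j)}),
    ∃ I' : ℤ → ℤ → LP PA (n + e) →ₗ[PA] W,
      FI R s t (sbI e ε f' P) (sbI e ε f' P2) (eI e ε t0) I' ∧ I' 0 0 1 = I 0 0 1 ∧
      (∀ j, Kil R I' {q | (((φ j).N * D : ℕ) : ℤ) ≤
        q (Fin.castAdd e (ε j)) + q (Fin.natAdd n j)}) ∧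
      ∀ K : Set (Lat n), (∀ q q' : Lat n, (∀ k, k ∉ Set.range ε → q k = q' k) →
        q ∈ K → q' ∈ K) → Kil R I K → Kil R I' {q | (fun k => q (Fin.castAdd e k)) ∈ K} := by
  induction e with
  | zero =>
    intro ε _ f κ φ f' _ _ _
    refine ⟨I, hI, rfl, fun j => j.elim0, fun K _ hK2 => ?_⟩
    intro i m q x h1 h2 h3 h4
    exact hK2 i m q x h1 h2 h3 h4
  | succ e ih =>
    intro ε hε f κ φ f' hf' ht hK
    obtain ⟨I1, hI1, h1one, h1kil, h1K⟩ := ih (fun j => ε j.castSucc)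
      (fun j j' h => Fin.castSucc_injective e (hε h)) (fun j => f j.castSucc)
      (fun j => κ j.castSucc) (fun j => φ j.castSucc) (fun j => f' j.castSucc)
      (fun j => hf' j.castSucc) (fun j => ht j.castSucc) (fun j => hK j.castSucc)
    have hnr : ε (Fin.last e) ∉ Set.range fun j : Fin e => ε j.castSucc := by
      rintro ⟨j, hj⟩
      exact (Fin.castSucc_lt_last j).ne (hε hj)
    have hk : eI e (fun j => ε j.castSucc) t0 (Fin.castAdd e (ε (Fin.last e))) =
        some (κ (Fin.last e) : ℂ) := by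
      rw [eI_cast, if_neg hnr, ht]
    have hKk : Kil R I1 {q | (D : ℤ) ≤ q (Fin.castAdd e (ε (Fin.last e)))} :=
      h1K {q | (D : ℤ) ≤ q (ε (Fin.last e))} (fun q q' h h2 => by
        show (D : ℤ) ≤ q' (ε (Fin.last e))
        rw [← h _ hnr]
        exact h2) (hK (Fin.last e))
    obtain ⟨ψ, Q, hψ⟩ := es1 (φ (Fin.last e)) (Fin.castAdd e (ε (Fin.last e))) D hD
      (f' (Fin.last e)) (hf' (Fin.last e))
    obtain ⟨hFI, hone, hkil, hKK⟩ := es2 R s t _ _ _ I1 hI1 _ _ hk D (φ (Fin.last e)).N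
      (f' (Fin.last e)) ψ Q hψ hKk
    refine ⟨fun i m => (I1 i m).comp ψ, hFI, ?_, ?_, ?_⟩
    · show I1 0 0 (ψ 1) = I 0 0 1
      exact hone.trans h1one
    · intro j
      induction j using Fin.lastCases with
      | last => exact hkil
      | cast j =>
        refine hKK {q : Lat (n + e) | (((φ j.castSucc).N * D : ℕ) : ℤ) ≤
          q (Fin.castAdd e (ε j.castSucc)) + q (Fin.natAdd n j)} ?_ (h1kil j)
        intro q q' h h2
        have e1 : Fin.castAdd e (ε j.castSucc) ≠ Fin.castAdd e (ε (Fin.last e)) := fun h3 =>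
          hnr ⟨j, Fin.castAdd_injective n e h3⟩
        show (((φ j.castSucc).N * D : ℕ) : ℤ) ≤
          q' (Fin.castAdd e (ε j.castSucc)) + q' (Fin.natAdd n j)
        rw [← h _ e1, ← h _ (RIT_ne _ j)]
        exact h2
    · intro K hK1 hK2
      have h1 := h1K K (fun q q' hq => hK1 q q' (fun k' hk' => hq k'
        (fun ⟨j, hj⟩ => hk' ⟨j.castSucc, hj⟩))) hK2
      refine hKK {q : Lat (n + e) | (fun k => q (Fin.castAdd e k)) ∈ K} ?_ h1
      intro q q' h h2
      refine hK1 _ _ (fun k' hk' => h (Fin.castAdd e k') fun h3 => hk' ?_) h2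
      exact ⟨Fin.last e, (Fin.castAdd_injective n e h3).symm⟩

/-- RIT -/
theorem rit {n e : ℕ} (ε : Fin e → Fin n) (hε : Function.Injective ε) (f : Fin e → R2)
    (κ : Fin e → ℚ) (φ : ∀ j, PhiD (f j) (κ j)) (D : ℕ) (hD : 0 < D)
    (f' : Fin e → MvPolynomial (Fin 2) ℂ)
    (hf' : ∀ j, Hi ((φ j).N * (D + 1) + 1) ((f' j : R2) - f j))
    {W : Type} [AddCommGroup W] [Module PA W] (R : ℕ) (s t : PA)
    (P P2 : MvPolynomial (Fin n) ℂ) (t0 : Fin n → Option ℂ) (I : ℤ → ℤ → LP PA n →ₗ[PA] W)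
    (hI : FI R s t P P2 t0 I) (ht : ∀ j, t0 (ε j) = some (κ j : ℂ))
    (hK : ∀ j, Kil R I {q | (D : ℤ) ≤ q (ε j)}) :
    ∃ I' : ℤ → ℤ → LP PA (n + e) →ₗ[PA] W,
      FI R s t (sbI e ε f' P) (sbI e ε f' P2) (eI e ε t0) I' ∧ I' 0 0 1 = I 0 0 1 ∧
      (∀ j, Kil R I' {q | (((φ j).N * D : ℕ) : ℤ) ≤
        q (Fin.castAdd e (ε j)) + q (Fin.natAdd n j)}) ∧
      ∀ K : Set (Lat n), (∀ q q' : Lat n, (∀ k, k ∉ Set.range ε → q k = q' k) →
        q ∈ K → q' ∈ K) → Kil R I K → Kil R I' {q | (fun k => q (Fin.castAdd e k)) ∈ K} :=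
  RIT_aux D hD R s t P P2 t0 I hI e ε hε f κ φ f' hf' ht hK

end Pool.Agent.H56.CT
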