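import Pool.Agent.H56.CT.RDefs

/-!
# RJW: the formal integrals, with weights

ADAPT `jfX` (`Pool/Agent/H22/T7/JFX.lean`) and `JFL_rel`, `JFL_D0`, `JFL_D1`, `JFL_D2`, `JFL_mem` (`Pool/Agent/H56/T5/JFL.lean`; `JFL_rel`, `JFL_ind`, `JF_rec`, `JF_L`, `JF_mapf`, `JF_mapH`, `JF_dL_*` can be used as they are).

`E := exLS (fun j => jK (ppw ..)) (A5 a M) .. ev (sh (TT1 p)) univ`, `A5 a M = cA a (bbM (noW n) M)` (by definition), `VH = E.restrictScalars PA ⊔ span {single u 1 | u ∈ HiV a w}`.
Let `ρ`, `σ` be as in `jfX` (`s0 := s0p a p w`, `t0 := I`, `I ≠ m` for integers `m`), `J i m := (VH ..).mkQ.comp (JF_L ρ σ i m)` (`PA`-linear), so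
`J i m (single q x) = mk (single (vec (-i) (-m) q) (ρ i * jK (C (σ m)) * jK x))`.  An element of `E` is zero in the quotient (`Submodule.mem_sup_left`).
(1) The relation `D_k e_u ∈ E` for `u ∈ LL ev (sh (TT1 p)) {k}` (`JFL_rel` with this parameter; or directly: `ExL.single_comp`).  For `k = 0`, `k = 1`: `u = vec l l2 q`, `q ≥ 0` (`vec_mem_LL`): as `JFL_D0`, `JFL_D1`.
For `k = j.succ.succ`, `p j = 1`: `u = vec l l2 (-ev j + q)`, `q ≥ 0`: membership as in `JFL_mem` (only `j' ∈ TT1 p` have to be considered); the parameter is `pC p j = 1`: as `JFL_D2`.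
For `k = j.succ.succ`, `p j ≠ 1`: `u = vec l l2 q`, `q ≥ 0` (`vec_mem_LL`): `(C (pC p j) + q_j) e_u = ∑_i κ_i a_ij e_{(l+1,l2;q+a_i)} + ∑_k λ_k β_kj e_{(l,l2+1;q+β_k)}`.
(2) `h1`, `h2`, `h3`: as in `jfX` (for all `i`, `m`; `PLn P = lmap (algebraMap ℂ PA) (toL ℂ P)` by definition, and `toL ℂ (HlP M lam) = Hl (bbM (noW n) M) lam`: `toL` of a monomial is `JF_toL_monomial`, `MvPolynomial.C c = monomial 0 c`; the sum over `Option (Fin n) ⊕ Fin 0` is `none` plus the `some j`).
`h4`: `e j = some c` means `p j ≠ 1`, `c = pC p j`.  Linear in `g`, so `g = single q x` (`JFL_ind`; `thL j` is additive, `thL j (single q x) = single q (q_j x)`): the relation `D_{j+2}` at `u = vec (-i) (-m) q` times `ρ i σ m`; `ρ i = ρ (i-1) (-s-i)`, `σ m = σ (m-1) (-t-m)`; this is the same calculation as for `h3`, with `q` instead of `-ev j + q`.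
(3) Last claim: `i ≤ 0`, so `i = -R'`, `ρ i = jK ρ1` (last part of the proof of `jfX`, `hs0`), so `single (vec (-i) (-m) q) (ρ i * jK (C (σ m)) * jK x) = (ρ1 * C (σ m) * x) • single (vec (-i) (-m) q) 1 ∈ span` (`Algebra.smul_def`).
(4) `z0`: for `q ≥ 0`, `q ≠ 0`: `vec 0 (-m) q ∈ HiV a w` (`l = 0`: `0 ≤ ∑ q_j v_j`, and `0 < ∑ q_j w_j` since `w > 0`, some `q_j > 0`), so (3).
`z1`: by `h1`, `J 1 m g = J 0 m (PLn P * g)`, and `PLn P * g` is a sum of terms `single (a_i + q) x` with `q ≥ 0`, `a_i + q ≠ 0` (`ha`; `JF_mapf`, `JFL_ind` for `g`), so (4).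
`J 0 0 1`: as in `jfX` (`ρ 0 = 1`, `σ 0 = 1`, `vec 0 0 0 = 0`).
-/

set_option autoImplicit false

namespace Pool.Agent.H56.CT

open Finset AddMonoidAlgebra
open Pool.Agent.H56.SMC Pool.Agent.H37.T5 Pool.Agent.H56.T5 Pool.Agent.H37.T6 Pool.Agent.H22.T6
open Pool.Agent.H22.T7

section main

variable {n r : ℕ} (a : Fin r → (Fin n →₀ ℕ)) (κ : Fin r → ℂ) (p : Fin n → ℚ) (s0 : ℂ) (M : ℤ)
    (lam : Option (Fin n) ⊕ Fin 0 → ℂ)

/-- the submodule of the relations -/
private noncomputable abbrev RJW_S : Submodule KA (LP KA (n + 2)) :=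
  exLS (fun j => jK (ppw (fun j => PowerSeries.C (pC p j))
        (PowerSeries.C s0 + PowerSeries.X) (PowerSeries.C Complex.I) j))
      (A5 a M) (fun i => jK (PowerSeries.C (cC κ lam i))) ev (sh (TT1 p)) Set.univ

private theorem RJW_D0 (l l2 : ℤ) (q : Lat n) (hq : ∀ j, 0 ≤ q j) (x : KA) :
    (RJW_S a κ p s0 M lam).mkQ (single (vec l l2 q)
      ((-jK (PowerSeries.C s0 + PowerSeries.X) + (l : KA)) * x)) =
    ∑ i, (RJW_S a κ p s0 M lam).mkQ (single (vec (l + 1) l2 (q + fun j => (a i j : ℤ)))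
      (jK (PowerSeries.C (κ i)) * x)) := by
  have h := JFL_rel (fun j : Fin (n + 2) => jK (ppw (fun j => PowerSeries.C (pC p j))
        (PowerSeries.C s0 + PowerSeries.X) (PowerSeries.C Complex.I) j)) (A5 a M)
    (fun i => jK (PowerSeries.C (cC κ lam i))) 0 (vec l l2 q)
    (vec_mem_LL (TT1 p) _ l l2 q fun j _ => hq j) x
  rw [Fintype.sum_sum_type] at h
  have e1 : (vec l l2 q : Lat (n + 2)) 0 = l := rfl
  have e2 : jK (ppw (n := n) (fun j => PowerSeries.C (pC p j))
        (PowerSeries.C s0 + PowerSeries.X) (PowerSeries.C Complex.I) 0) =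
      -jK (PowerSeries.C s0 + PowerSeries.X) := by
    rw [← map_neg]; rfl
  simp only [e1, e2] at h
  rw [h]
  have e3 : ∀ k, (RJW_S a κ p s0 M lam).mkQ (single (vec l l2 q + A5 a M (Sum.inr k))
      (jK (PowerSeries.C (cC κ lam (Sum.inr k))) * ((A5 a M (Sum.inr k) 0 : ℤ) : KA) * x)) = 0 := by
    intro k
    have : (A5 a M (Sum.inr k) 0 : ℤ) = 0 := rfl
    rw [this]
    simp
  rw [sum_congr rfl (fun k _ => e3 k), sum_const_zero, add_zero]
  refine sum_congr rfl fun i _ => ?_
  have e4 : (A5 a M (Sum.inl i) 0 : ℤ) = 1 := rfl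
  have e5 : vec l l2 q + A5 a M (Sum.inl i) = vec (l + 1) l2 (q + fun j => (a i j : ℤ)) := by
    show vec l l2 q + vec 1 0 (fun j => (a i j : ℤ)) = _
    rw [vec_add, add_zero]
  rw [e4, e5]
  simp only [Int.cast_one, mul_one]
  rfl

private theorem RJW_D1 (l l2 : ℤ) (q : Lat n) (hq : ∀ j, 0 ≤ q j) (x : KA) :
    (RJW_S a κ p s0 M lam).mkQ (single (vec l l2 q)
      ((-jK (PowerSeries.C Complex.I) + (l2 : KA)) * x)) =
    ∑ k, (RJW_S a κ p s0 M lam).mkQ (single (vec l (l2 + 1) (q + bbM (noW n) M k))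
      (jK (PowerSeries.C (lam k)) * x)) := by
  have h := JFL_rel (fun j : Fin (n + 2) => jK (ppw (fun j => PowerSeries.C (pC p j))
        (PowerSeries.C s0 + PowerSeries.X) (PowerSeries.C Complex.I) j)) (A5 a M)
    (fun i => jK (PowerSeries.C (cC κ lam i))) (Fin.succ 0) (vec l l2 q)
    (vec_mem_LL (TT1 p) _ l l2 q fun j _ => hq j) x
  rw [Fintype.sum_sum_type] at h
  have e1 : (vec l l2 q : Lat (n + 2)) (Fin.succ 0) = l2 := rfl
  have e2 : jK (ppw (n := n) (fun j => PowerSeries.C (pC p j))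
        (PowerSeries.C s0 + PowerSeries.X) (PowerSeries.C Complex.I)
      (Fin.succ 0)) = -jK (PowerSeries.C Complex.I) := by
    rw [← map_neg]; rfl
  simp only [e1, e2] at h
  rw [h]
  have e3 : ∀ k : Fin r, (RJW_S a κ p s0 M lam).mkQ (single (vec l l2 q + A5 a M (Sum.inl k))
      (jK (PowerSeries.C (cC κ lam (Sum.inl k))) *
        ((A5 a M (Sum.inl k) (Fin.succ 0) : ℤ) : KA) * x)) = 0 := by
    intro k
    have : (A5 a M (Sum.inl k) (Fin.succ 0) : ℤ) = 0 := rfl
    rw [this]
    simp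
  rw [sum_congr rfl (fun k _ => e3 k), sum_const_zero, zero_add]
  refine sum_congr rfl fun i _ => ?_
  have e4 : (A5 a M (Sum.inr i) (Fin.succ 0) : ℤ) = 1 := rfl
  have e5 : vec l l2 q + A5 a M (Sum.inr i) = vec l (l2 + 1) (q + bbM (noW n) M i) := by
    show vec l l2 q + vec 0 1 (bbM (noW n) M i) = _
    rw [vec_add, add_zero]
  rw [e4, e5]
  simp only [Int.cast_one, mul_one]
  rfl

private theorem RJW_D2 (l l2 : ℤ) (q : Lat n) (j : Fin n)
    (hq : vec l l2 q ∈ LL ev (sh (TT1 p)) {j.succ.succ}) (x : KA) :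
    (RJW_S a κ p s0 M lam).mkQ (single (vec l l2 q)
      ((jK (PowerSeries.C (pC p j)) + (q j : KA)) * x)) =
    ∑ i, (RJW_S a κ p s0 M lam).mkQ (single (vec (l + 1) l2 (q + fun j => (a i j : ℤ)))
      (jK (PowerSeries.C (κ i)) * (a i j : KA) * x)) +
    ∑ k, (RJW_S a κ p s0 M lam).mkQ (single (vec l (l2 + 1) (q + bbM (noW n) M k))
      (jK (PowerSeries.C (lam k)) * (bbM (noW n) M k j : KA) * x)) := by
  have h := JFL_rel (fun j : Fin (n + 2) => jK (ppw (fun j => PowerSeries.C (pC p j))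
        (PowerSeries.C s0 + PowerSeries.X) (PowerSeries.C Complex.I) j)) (A5 a M)
    (fun i => jK (PowerSeries.C (cC κ lam i))) j.succ.succ (vec l l2 q) hq x
  rw [Fintype.sum_sum_type] at h
  have e1 : (vec l l2 q : Lat (n + 2)) j.succ.succ = q j := rfl
  have e2 : jK (ppw (n := n) (fun j => PowerSeries.C (pC p j))
        (PowerSeries.C s0 + PowerSeries.X) (PowerSeries.C Complex.I)
      j.succ.succ) = jK (PowerSeries.C (pC p j)) := rfl
  simp only [e1, e2] at h
  rw [h]
  congr 1
  · refine sum_congr rfl fun i _ => ?_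
    have e4 : (A5 a M (Sum.inl i) j.succ.succ : ℤ) = (a i j : ℤ) := rfl
    have e5 : vec l l2 q + A5 a M (Sum.inl i) = vec (l + 1) l2 (q + fun j => (a i j : ℤ)) := by
      show vec l l2 q + vec 1 0 (fun j => (a i j : ℤ)) = _
      rw [vec_add, add_zero]
    rw [e4, e5]
    simp only [Int.cast_natCast]
    rfl
  · refine sum_congr rfl fun i _ => ?_
    have e4 : (A5 a M (Sum.inr i) j.succ.succ : ℤ) = bbM (noW n) M i j := rfl
    have e5 : vec l l2 q + A5 a M (Sum.inr i) = vec l (l2 + 1) (q + bbM (noW n) M i) := by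
      show vec l l2 q + vec 0 1 (bbM (noW n) M i) = _
      rw [vec_add, add_zero]
    rw [e4, e5]
    rfl

private theorem RJW_mem (l l2 : ℤ) (q : Lat n) (hq : ∀ j, 0 ≤ q j) (j : Fin n) :
    vec l l2 (-ev j + q) ∈ LL ev (sh (TT1 p)) {j.succ.succ} :=
  fun k hk => JFL_mem l l2 q hq j k (sh_mono (Finset.subset_univ _) hk)

end main

private theorem RJW_H {n : ℕ} (M : ℕ) (lam : Option (Fin n) ⊕ Fin 0 → ℂ) :
    toL ℂ (HlP M lam) = Hl (bbM (noW n) (M : ℤ)) lam := by
  unfold HlP Hl
  rw [map_add, map_sum, Fintype.sum_sum_type, Fintype.sum_option]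
  simp only [Finset.univ_eq_empty, Finset.sum_empty, add_zero]
  congr 1
  · have h : (MvPolynomial.C (lam (Sum.inl none)) : MvPolynomial (Fin n) ℂ) =
        MvPolynomial.monomial 0 (lam (Sum.inl none)) := rfl
    rw [h, JF_toL_monomial]
    rfl
  · refine sum_congr rfl fun j _ => ?_
    rw [JF_toL_monomial]
    congr 1
    funext i
    show ((Finsupp.single j M i : ℕ) : ℤ) = ((M : ℤ) • ev j) i
    simp only [Pi.smul_apply, ev, Pi.single_apply, Finsupp.single_apply, smul_eq_mul]
    by_cases h : i = j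
    · simp [h]
    · simp [h, Ne.symm h]

private theorem RJW_thL_single {n : ℕ} (j : Fin n) (q : Lat n) (x : PA) :
    thL j (single q x : LP PA n) = single q ((q j : PA) * x) := by
  unfold thL
  apply lp_ext; intro u
  rw [dg_coeff, coeff_single', coeff_single']
  split_ifs with h
  · rw [h]
  · rw [mul_zero]

private theorem RJW_thL_add {n : ℕ} (j : Fin n) (x y : LP PA n) :
    thL j (x + y) = thL j x + thL j y := by
  unfold thL
  apply lp_ext; intro u
  rw [coeff_add', dg_coeff, dg_coeff, dg_coeff, coeff_add', mul_add]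

private theorem RJW_thL_zero {n : ℕ} (j : Fin n) : thL j (0 : LP PA n) = 0 := by
  have h := RJW_thL_add j (0 : LP PA n) 0
  rw [add_zero] at h
  exact left_eq_add.mp h

private theorem RJW_thL_sum {n : ℕ} {α : Type} (j : Fin n) (s : Finset α)
    (f : α → LP PA n) : thL j (∑ i ∈ s, f i) = ∑ i ∈ s, thL j (f i) := by
  classical
  induction s using Finset.induction_on with
  | empty => simpa using RJW_thL_zero j
  | insert b s hb ih => rw [sum_insert hb, sum_insert hb, RJW_thL_add, ih]

private theorem RJW_core {n r : ℕ} (a : Fin r → (Fin n →₀ ℕ)) (κ : Fin r → ℂ) (p : Fin n → ℚ)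
    (s0 : ℂ) (hs0 : ∀ k : ℕ, s0 ≠ (k : ℂ)) (M : ℤ) (lam : Option (Fin n) ⊕ Fin 0 → ℂ) :
    ∃ (ρ : ℤ → KA) (σ : ℤ → ℂ), ρ 0 = 1 ∧ σ 0 = 1 ∧
      (∀ R : ℕ, ∃ ρ1 : PA, ρ (-(R : ℤ)) = jK ρ1) ∧
      (∀ i m g, Supp (Pos n) g → JF_I (RJW_S a κ p s0 M lam) ρ σ i m g =
        JF_I (RJW_S a κ p s0 M lam) ρ σ (i - 1) m
          (lmap (algebraMap ℂ PA) (toL ℂ (fpoly a κ)) * g)) ∧
      (∀ i m g, Supp (Pos n) g → JF_I (RJW_S a κ p s0 M lam) ρ σ i m g =
        JF_I (RJW_S a κ p s0 M lam) ρ σ i (m - 1)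
          (lmap (algebraMap ℂ PA) (Hl (bbM (noW n) M) lam) * g)) ∧
      (∀ i m j g, p j = 1 → Supp (Pos n) g →
        JF_I (RJW_S a κ p s0 M lam) ρ σ i m (dL j g) +
        ((PowerSeries.C s0 + PowerSeries.X) + (i : PA)) •
          JF_I (RJW_S a κ p s0 M lam) ρ σ (i - 1) m
            (dL j (lmap (algebraMap ℂ PA) (toL ℂ (fpoly a κ))) * g) +
        (PowerSeries.C Complex.I + (m : PA)) •
          JF_I (RJW_S a κ p s0 M lam) ρ σ i (m - 1)
            (dL j (lmap (algebraMap ℂ PA) (Hl (bbM (noW n) M) lam)) * g) = 0) ∧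
      (∀ i m j g, Supp (Pos n) g →
        JF_I (RJW_S a κ p s0 M lam) ρ σ i m (thL j g + PowerSeries.C (pC p j) • g) +
        ((PowerSeries.C s0 + PowerSeries.X) + (i : PA)) •
          JF_I (RJW_S a κ p s0 M lam) ρ σ (i - 1) m
            (thL j (lmap (algebraMap ℂ PA) (toL ℂ (fpoly a κ))) * g) +
        (PowerSeries.C Complex.I + (m : PA)) •
          JF_I (RJW_S a κ p s0 M lam) ρ σ i (m - 1)
            (thL j (lmap (algebraMap ℂ PA) (Hl (bbM (noW n) M) lam)) * g) = 0) := by
  have hD : ∀ i : ℤ, -jK (PowerSeries.C s0 + PowerSeries.X) - (i : KA) ≠ 0 := by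
    intro i h
    have h1 : jK (-(PowerSeries.C s0 + PowerSeries.X) - (i : PA)) = 0 := by
      rw [map_sub, map_neg, map_intCast]; exact h
    have h2 : (-(PowerSeries.C s0 + PowerSeries.X) - (i : PA)) = 0 :=
      (IsFractionRing.injective PA KA) (by rw [map_zero]; exact h1)
    have h3 := congrArg (PowerSeries.coeff 1) h2
    have h4 : ((i : ℤ) : PA) = PowerSeries.C (i : ℂ) := by simp
    rw [h4, map_sub, map_neg, map_add, PowerSeries.coeff_C, PowerSeries.coeff_one_X,
      PowerSeries.coeff_C, map_zero, if_neg one_ne_zero, if_neg one_ne_zero] at h3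
    norm_num at h3
  have hE : ∀ m : ℤ, -Complex.I - (m : ℂ) ≠ 0 := by
    intro m h
    have h1 := congrArg Complex.im h
    simp at h1
  obtain ⟨ρ, hρ0, hρ⟩ := JF_rec _ hD
  obtain ⟨σ, hσ0, hσ⟩ := JF_rec _ hE
  have hσ' : ∀ m, jK (PowerSeries.C (σ m)) = jK (PowerSeries.C (σ (m - 1))) *
      (-jK (PowerSeries.C Complex.I) - (m : KA)) := by
    intro m
    rw [hσ m]
    simp only [map_mul, map_sub, map_neg, map_intCast]
  refine ⟨ρ, σ, hρ0, hσ0, ?_, ?_, ?_, ?_, ?_⟩
  · intro R
    induction R with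
    | zero => exact ⟨1, by simp [hρ0]⟩
    | succ R ih =>
      obtain ⟨ρ1, h1⟩ := ih
      have hu : IsUnit (-(PowerSeries.C s0 + PowerSeries.X) + (R : PA)) := by
        rw [PowerSeries.isUnit_iff_constantCoeff]
        have e1 : PowerSeries.constantCoeff (-(PowerSeries.C s0 + PowerSeries.X) + (R : PA)) =
            -s0 + R := by
          simp
        rw [e1, isUnit_iff_ne_zero]
        intro h0
        exact hs0 R (by linear_combination -h0)
      obtain ⟨v, hv⟩ := hu
      have h2 := hρ (-(R : ℤ))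
      have e2 : -jK (PowerSeries.C s0 + PowerSeries.X) - ((-(R : ℤ) : ℤ) : KA) = jK (v : PA) := by
        rw [hv]
        simp only [map_add, map_neg, map_natCast]
        push_cast
        ring
      have e3 : -(R : ℤ) - 1 = -((R + 1 : ℕ) : ℤ) := by push_cast; ring
      rw [e2, e3, h1] at h2
      refine ⟨ρ1 * ((v⁻¹ : PAˣ) : PA), ?_⟩
      rw [map_mul, h2, mul_assoc, ← map_mul, Units.mul_inv, map_one, mul_one]
  · intro i m g hg
    refine JFL_ind (M := fun g => JF_I (RJW_S a κ p s0 M lam) ρ σ i m g =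
      JF_I (RJW_S a κ p s0 M lam) ρ σ (i - 1) m
        (lmap (algebraMap ℂ PA) (toL ℂ (fpoly a κ)) * g)) ?_ ?_ ?_ hg
    · simp only [mul_zero, map_zero]
    · intro x y hx hy
      rw [mul_add, map_add, map_add, hx, hy]
    · intro q hq x
      rw [JF_I_single, JF_mapf, sum_mul, map_sum]
      have h := RJW_D0 a κ p s0 M lam (-i) (-m) q hq
        (ρ (i - 1) * jK (PowerSeries.C (σ m)) * jK x)
      have e1 : (-jK (PowerSeries.C s0 + PowerSeries.X) + ((-i : ℤ) : KA)) *
          (ρ (i - 1) * jK (PowerSeries.C (σ m)) * jK x) =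
          ρ i * jK (PowerSeries.C (σ m)) * jK x := by
        rw [hρ i]; push_cast; ring
      rw [e1] at h
      rw [h]
      refine sum_congr rfl fun k _ => ?_
      rw [single_mul_single, JF_I_single]
      congr 2
      · congr 1
        · ring
        · rw [add_comm]
      · rw [map_mul]; ring
  · intro i m g hg
    refine JFL_ind (M := fun g => JF_I (RJW_S a κ p s0 M lam) ρ σ i m g =
      JF_I (RJW_S a κ p s0 M lam) ρ σ i (m - 1)
        (lmap (algebraMap ℂ PA) (Hl (bbM (noW n) M) lam) * g)) ?_ ?_ ?_ hg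
    · simp only [mul_zero, map_zero]
    · intro x y hx hy
      rw [mul_add, map_add, map_add, hx, hy]
    · intro q hq x
      rw [JF_I_single, JF_mapH, sum_mul, map_sum]
      have h := RJW_D1 a κ p s0 M lam (-i) (-m) q hq
        (ρ i * jK (PowerSeries.C (σ (m - 1))) * jK x)
      have e1 : (-jK (PowerSeries.C Complex.I) + ((-m : ℤ) : KA)) *
          (ρ i * jK (PowerSeries.C (σ (m - 1))) * jK x) =
          ρ i * jK (PowerSeries.C (σ m)) * jK x := by
        rw [hσ' m]; push_cast; ring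
      rw [e1] at h
      rw [h]
      refine sum_congr rfl fun k _ => ?_
      rw [single_mul_single, JF_I_single]
      congr 2
      · congr 1
        · ring
        · rw [add_comm]
      · rw [map_mul]; ring
  · intro i m j g hpj hg
    refine JFL_ind (M := fun g => JF_I (RJW_S a κ p s0 M lam) ρ σ i m (dL j g) +
        ((PowerSeries.C s0 + PowerSeries.X) + (i : PA)) •
          JF_I (RJW_S a κ p s0 M lam) ρ σ (i - 1) m
            (dL j (lmap (algebraMap ℂ PA) (toL ℂ (fpoly a κ))) * g) +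
        (PowerSeries.C Complex.I + (m : PA)) •
          JF_I (RJW_S a κ p s0 M lam) ρ σ i (m - 1)
            (dL j (lmap (algebraMap ℂ PA) (Hl (bbM (noW n) M) lam)) * g) = 0) ?_ ?_ ?_ hg
    · simp only [JF_dL_zero, mul_zero, map_zero, smul_zero, add_zero]
    · intro x y hx hy
      rw [JF_dL_add, mul_add, mul_add, map_add, map_add, map_add, smul_add, smul_add]
      calc _ = _ + _ := by abel
        _ = 0 + 0 := congrArg₂ (· + ·) hx hy
        _ = 0 := add_zero 0
    · intro q hq x
      rw [JF_mapf, JF_mapH, JF_dL_sum, JF_dL_sum, sum_mul, sum_mul, map_sum, map_sum, smul_sum,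
        smul_sum]
      have h := RJW_D2 a κ p s0 M lam (-i) (-m) (-ev j + q) j
        (RJW_mem p _ _ q hq j)
        (ρ i * jK (PowerSeries.C (σ m)) * jK x)
      have e0 : ((-ev j + q : Lat n) j : ℤ) = -1 + q j := by
        simp [ev]
      have ep : jK (PowerSeries.C (pC p j)) = 1 := by
        have : pC p j = 1 := by
          unfold pC
          rw [hpj]
          simp
        rw [this, map_one, map_one]
      have e1 : (jK (PowerSeries.C (pC p j)) + (((-ev j + q : Lat n) j : ℤ) : KA)) *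
          (ρ i * jK (PowerSeries.C (σ m)) * jK x) =
          ρ i * jK (PowerSeries.C (σ m)) * jK ((q j : PA) * x) := by
        rw [e0, ep, map_mul, map_intCast]; push_cast; ring
      rw [e1] at h
      rw [JF_dL_single, JF_I_single, h]
      have f1 : ∀ k : Fin r, ((PowerSeries.C s0 + PowerSeries.X) + (i : PA)) •
          JF_I (RJW_S a κ p s0 M lam) ρ σ (i - 1) m
            (dL j (single (fun j => (a k j : ℤ)) (PowerSeries.C (κ k))) * single q x) =
          -(RJW_S a κ p s0 M lam).mkQ (single (vec (-i + 1) (-m)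
            ((-ev j + q) + fun j => (a k j : ℤ)))
            (jK (PowerSeries.C (κ k)) * (a k j : KA) *
              (ρ i * jK (PowerSeries.C (σ m)) * jK x))) := by
        intro k
        rw [JF_dL_single, single_mul_single, ← map_smul, JF_smul_single, JF_I_single, ← map_neg]
        congr 1
        rw [← AddMonoidAlgebra.single_neg]
        congr 1
        · congr 1
          · ring
          · abel
        · rw [hρ i]
          simp only [map_mul, map_add, map_intCast]
          push_cast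
          ring
      have f2 : ∀ k, (PowerSeries.C Complex.I + (m : PA)) •
          JF_I (RJW_S a κ p s0 M lam) ρ σ i (m - 1)
            (dL j (single (bbM (noW n) M k) (PowerSeries.C (lam k))) * single q x) =
          -(RJW_S a κ p s0 M lam).mkQ (single (vec (-i) (-m + 1) ((-ev j + q) + bbM (noW n) M k))
            (jK (PowerSeries.C (lam k)) * (bbM (noW n) M k j : KA) *
              (ρ i * jK (PowerSeries.C (σ m)) * jK x))) := by
        intro k
        rw [JF_dL_single, single_mul_single, ← map_smul, JF_smul_single, JF_I_single, ← map_neg]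
        congr 1
        rw [← AddMonoidAlgebra.single_neg]
        congr 1
        · congr 1
          · ring
          · abel
        · rw [hσ' m]
          simp only [map_mul, map_add, map_intCast]
          ring
      rw [sum_congr rfl (fun k _ => f1 k), sum_congr rfl (fun k _ => f2 k), sum_neg_distrib,
        sum_neg_distrib]
      abel
  · intro i m j g hg
    refine JFL_ind (M := fun g => JF_I (RJW_S a κ p s0 M lam) ρ σ i m
          (thL j g + PowerSeries.C (pC p j) • g) +
        ((PowerSeries.C s0 + PowerSeries.X) + (i : PA)) •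
          JF_I (RJW_S a κ p s0 M lam) ρ σ (i - 1) m
            (thL j (lmap (algebraMap ℂ PA) (toL ℂ (fpoly a κ))) * g) +
        (PowerSeries.C Complex.I + (m : PA)) •
          JF_I (RJW_S a κ p s0 M lam) ρ σ i (m - 1)
            (thL j (lmap (algebraMap ℂ PA) (Hl (bbM (noW n) M) lam)) * g) = 0) ?_ ?_ ?_ hg
    · simp only [RJW_thL_zero, mul_zero, map_zero, smul_zero, add_zero]
    · intro x y hx hy
      have e : thL j (x + y) + PowerSeries.C (pC p j) • (x + y) =
          (thL j x + PowerSeries.C (pC p j) • x) + (thL j y + PowerSeries.C (pC p j) • y) := by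
        rw [RJW_thL_add, smul_add]
        abel
      rw [e, mul_add, mul_add, map_add, map_add (JF_I (RJW_S a κ p s0 M lam) ρ σ (i - 1) m),
        map_add (JF_I (RJW_S a κ p s0 M lam) ρ σ i (m - 1)), smul_add, smul_add]
      calc _ = _ + _ := by abel
        _ = 0 + 0 := congrArg₂ (· + ·) hx hy
        _ = 0 := add_zero 0
    · intro q hq x
      rw [JF_mapf, JF_mapH, RJW_thL_sum, RJW_thL_sum, sum_mul, sum_mul, map_sum, map_sum,
        smul_sum, smul_sum]
      have h := RJW_D2 a κ p s0 M lam (-i) (-m) q j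
        (vec_mem_LL (TT1 p) _ (-i) (-m) q fun j _ => hq j)
        (ρ i * jK (PowerSeries.C (σ m)) * jK x)
      have e1 : (jK (PowerSeries.C (pC p j)) + ((q j : ℤ) : KA)) *
          (ρ i * jK (PowerSeries.C (σ m)) * jK x) =
          ρ i * jK (PowerSeries.C (σ m)) * jK ((q j : PA) * x + PowerSeries.C (pC p j) * x) := by
        rw [map_add, map_mul, map_mul, map_intCast]; ring
      rw [e1] at h
      have e2 : thL j (single q x : LP PA n) + PowerSeries.C (pC p j) • (single q x : LP PA n) =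
          single q ((q j : PA) * x + PowerSeries.C (pC p j) * x) := by
        rw [RJW_thL_single, JF_smul_single, ← AddMonoidAlgebra.single_add]
      rw [e2, JF_I_single, h]
      have f1 : ∀ k : Fin r, ((PowerSeries.C s0 + PowerSeries.X) + (i : PA)) •
          JF_I (RJW_S a κ p s0 M lam) ρ σ (i - 1) m
            (thL j (single (fun j => (a k j : ℤ)) (PowerSeries.C (κ k))) * single q x) =
          -(RJW_S a κ p s0 M lam).mkQ (single (vec (-i + 1) (-m)
            (q + fun j => (a k j : ℤ)))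
            (jK (PowerSeries.C (κ k)) * (a k j : KA) *
              (ρ i * jK (PowerSeries.C (σ m)) * jK x))) := by
        intro k
        rw [RJW_thL_single, single_mul_single, ← map_smul, JF_smul_single, JF_I_single,
          ← map_neg]
        congr 1
        rw [← AddMonoidAlgebra.single_neg]
        congr 1
        · congr 1
          · ring
          · abel
        · rw [hρ i]
          simp only [map_mul, map_add, map_intCast]
          push_cast
          ring
      have f2 : ∀ k, (PowerSeries.C Complex.I + (m : PA)) •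
          JF_I (RJW_S a κ p s0 M lam) ρ σ i (m - 1)
            (thL j (single (bbM (noW n) M k) (PowerSeries.C (lam k))) * single q x) =
          -(RJW_S a κ p s0 M lam).mkQ (single (vec (-i) (-m + 1) (q + bbM (noW n) M k))
            (jK (PowerSeries.C (lam k)) * (bbM (noW n) M k j : KA) *
              (ρ i * jK (PowerSeries.C (σ m)) * jK x))) := by
        intro k
        rw [RJW_thL_single, single_mul_single, ← map_smul, JF_smul_single, JF_I_single,
          ← map_neg]
        congr 1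
        rw [← AddMonoidAlgebra.single_neg]
        congr 1
        · congr 1
          · ring
          · abel
        · rw [hσ' m]
          simp only [map_mul, map_add, map_intCast]
          ring
      rw [sum_congr rfl (fun k _ => f1 k), sum_congr rfl (fun k _ => f2 k), sum_neg_distrib,
        sum_neg_distrib]
      abel

/-- RJW -/
theorem rjw {n r : ℕ} (a : Fin r → (Fin n →₀ ℕ)) (κ : Fin r → ℂ) (p : Fin n → ℚ)
    (w : Fin n → ℕ) (hw : ∀ j, 0 < w j) (ha : ∀ i, a i ≠ 0)
    (hs0 : ∀ k : ℕ, s0p a p w ≠ (k : ℂ)) (M : ℕ) (lam : Option (Fin n) ⊕ Fin 0 → ℂ) (R : ℕ) :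
    ∃ J : ℤ → ℤ → LP PA n →ₗ[PA] (LP KA (n + 2) ⧸ VH a κ p w (M : ℤ) lam),
      FI R (PowerSeries.C (s0p a p w) + PowerSeries.X) (PowerSeries.C Complex.I) (fpoly a κ)
        (HlP M lam) (fun k => if p k = 1 then none else some (pC p k)) J ∧
      J 0 0 1 = Submodule.Quotient.mk (single 0 1) ∧
      ∀ (i m : ℤ) (q : Lat n) (x : PA), i ≤ 0 → (∀ j, 0 ≤ q j) →
        vec (-i) (-m) q ∈ HiV a w → J i m (single q x) = 0 := by
  obtain ⟨ρ, σ, hρ0, hσ0, hρn, c1, c2, c3, c4⟩ := RJW_core a κ p (s0p a p w) hs0 (M : ℤ) lam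
  set S := RJW_S a κ p (s0p a p w) (M : ℤ) lam with hS
  have hle : S.restrictScalars PA ≤ VH a κ p w (M : ℤ) lam := le_sup_left
  let Φ : (LP KA (n + 2) ⧸ S) →ₗ[PA] (LP KA (n + 2) ⧸ VH a κ p w (M : ℤ) lam) :=
    (Submodule.factor hle).comp (Submodule.Quotient.restrictScalarsEquiv PA S).symm.toLinearMap
  have hΦ : ∀ x, Φ (S.mkQ x) = (VH a κ p w (M : ℤ) lam).mkQ x := fun x => rfl
  have hJ : ∀ i m (q : Lat n) (x : PA), Φ (JF_I S ρ σ i m (single q x)) =
      (VH a κ p w (M : ℤ) lam).mkQ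
        (single (vec (-i) (-m) q) (ρ i * jK (PowerSeries.C (σ m)) * jK x)) := by
    intro i m q x
    rw [JF_I_single, hΦ]
  have hz : ∀ (i m : ℤ) (q : Lat n) (x : PA), i ≤ 0 → vec (-i) (-m) q ∈ HiV a w →
      Φ (JF_I S ρ σ i m (single q x)) = 0 := by
    intro i m q x hi hq
    rw [hJ]
    obtain ⟨R', rfl⟩ : ∃ R' : ℕ, i = -(R' : ℤ) := ⟨(-i).toNat, by omega⟩
    obtain ⟨ρ1, h1⟩ := hρn R'
    rw [h1, ← map_mul, ← map_mul, Submodule.mkQ_apply, Submodule.Quotient.mk_eq_zero]
    refine Submodule.mem_sup_right ?_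
    have e : (single (vec (- -(R' : ℤ)) (-m) q) (jK (ρ1 * PowerSeries.C (σ m) * x)) :
        LP KA (n + 2)) = (ρ1 * PowerSeries.C (σ m) * x) •
          (single (vec (- -(R' : ℤ)) (-m) q) 1 : LP KA (n + 2)) := by
      apply lp_ext; intro u
      have h2 : ((ρ1 * PowerSeries.C (σ m) * x) •
          (single (vec (- -(R' : ℤ)) (-m) q) 1 : LP KA (n + 2))).coeff u =
          (ρ1 * PowerSeries.C (σ m) * x) •
            (single (vec (- -(R' : ℤ)) (-m) q) 1 : LP KA (n + 2)).coeff u := rfl
      rw [h2, coeff_single', coeff_single']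
      split_ifs
      · rw [Algebra.smul_def, mul_one]
        rfl
      · rw [smul_zero]
    rw [e]
    exact Submodule.smul_mem _ _ (Submodule.subset_span ⟨_, hq, rfl⟩)
  have hHi : ∀ (m : ℤ) (q : Lat n), (∀ j, 0 ≤ q j) → q ≠ 0 → vec (-0) (-m) q ∈ HiV a w := by
    intro m q hq hq0
    refine ⟨0, -m, q, by rw [neg_zero], le_rfl, hq, ?_, ?_⟩
    · intro v
      rw [zero_mul]
      exact Finset.sum_nonneg fun j _ => mul_nonneg (hq j) (Int.natCast_nonneg _)
    · rw [zero_mul]
      obtain ⟨j, hj⟩ : ∃ j, q j ≠ 0 := by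
        by_contra hcon
        push Not at hcon
        exact hq0 (funext hcon)
      refine Finset.sum_pos' (fun j _ => mul_nonneg (hq j) (Int.natCast_nonneg _)) ⟨j, Finset.mem_univ j, ?_⟩
      have h1 : 0 < q j := lt_of_le_of_ne (hq j) (Ne.symm hj)
      exact mul_pos h1 (by exact_mod_cast hw j)
  have z0 : ∀ (m : ℤ) (q : Lat n) (x : PA), (∀ j, 0 ≤ q j) → q ≠ 0 →
      Φ (JF_I S ρ σ 0 m (single q x)) = 0 := fun m q x hq hq0 => hz 0 m q x le_rfl (hHi m q hq hq0)
  have hQ : PLn (HlP M lam) = lmap (algebraMap ℂ PA) (Hl (bbM (noW n) (M : ℤ)) lam) := by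
    unfold PLn
    rw [RJW_H]
  have hsome : ∀ (j : Fin n) (c : ℂ), (if p j = 1 then none else some (pC p j)) = some c →
      c = pC p j := by
    intro j c h
    split_ifs at h with h1
    exact (Option.some.inj h).symm
  have hnone : ∀ (j : Fin n), (if p j = 1 then none else some (pC p j)) = none → p j = 1 := by
    intro j h
    by_contra h1
    rw [if_neg h1] at h
    exact absurd h (by simp)
  refine ⟨fun i m => Φ.comp (JF_I S ρ σ i m), ⟨?_, ?_, ?_, ?_, ?_, ?_⟩, ?_, ?_⟩
  · intro i m g _ _ hg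
    exact congrArg Φ (c1 i m g hg)
  · intro i m g _ _ hg
    rw [hQ]
    exact congrArg Φ (c2 i m g hg)
  · intro i m j g he _ _ hg
    have h := congrArg Φ (c3 i m j g (hnone j he) hg)
    rw [map_add, map_add, map_smul, map_smul, map_zero] at h
    rw [hQ]
    exact h
  · intro i m j c g he _ _ hg
    have h := congrArg Φ (c4 i m j g hg)
    rw [map_add Φ, map_add Φ, map_smul, map_smul, map_zero] at h
    rw [hQ, hsome j c he]
    exact h
  · intro m g hg
    have h1 : Φ (JF_I S ρ σ 1 m g) = Φ (JF_I S ρ σ (1 - 1) m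
        (lmap (algebraMap ℂ PA) (toL ℂ (fpoly a κ)) * g)) := congrArg Φ (c1 1 m g hg)
    show Φ (JF_I S ρ σ 1 m g) = 0
    rw [h1, sub_self]
    refine JFL_ind (M := fun g => Φ (JF_I S ρ σ 0 m
        (lmap (algebraMap ℂ PA) (toL ℂ (fpoly a κ)) * g)) = 0) ?_ ?_ ?_ hg
    · simp only [mul_zero, map_zero]
    · intro x y hx hy
      rw [mul_add, map_add, map_add, hx, hy, add_zero]
    · intro q hq x
      rw [JF_mapf, sum_mul, map_sum, map_sum]
      refine Finset.sum_eq_zero fun k _ => ?_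
      rw [single_mul_single]
      refine z0 m _ _ (fun j => ?_) ?_
      · have := hq j
        show 0 ≤ (a k j : ℤ) + q j
        omega
      · intro h0
        obtain ⟨j, hj⟩ : ∃ j, a k j ≠ 0 := by
          by_contra hcon
          push Not at hcon
          exact ha k (Finsupp.ext hcon)
        have h2 := congrFun h0 j
        have h3 : (a k j : ℤ) + q j = 0 := h2
        have := hq j
        omega
  · intro m q x hq hq0
    exact z0 m q x hq hq0
  · show Φ (JF_I S ρ σ 0 0 (single 0 1)) = _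
    rw [hJ, hρ0, hσ0]
    simp only [map_one, mul_one, neg_zero]
    have h2 : (vec 0 0 (0 : Lat n) : Lat (n + 2)) = 0 := by
      funext k
      refine Fin.cases rfl (fun k => Fin.cases rfl (fun k => rfl) k) k
    rw [h2]
    rfl
  · intro i m q x hi _ hq
    exact hz i m q x hi hq

end Pool.Agent.H56.CT
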