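import Pool.Agent.H56.CT.RDefs

/-!
# RKL: monomials which are killed; the relation

`rkl`.  Let `q ≥ 0` with `q_j ≥ D` for `j ∈ g`, `-R ≤ i ≤ 1`.  `i = 1`: `h1` for `g = single q x`.  `i ≤ 0`: `l = -i ∈ [0, R]`; `vec l (-m) q ∈ HiV a w`: for `v ≥ 0`, `wmin a v ≤ ∑ a i0 j * v j ≤ B ∑_{j ∈ g} v_j` (`appg_wmin_le` in `Pool/Agent/H56/SMC/APPG.lean`),
so `l * wmin a v ≤ R B ∑_{j ∈ g} v_j ≤ D ∑_{j ∈ g} v_j ≤ ∑ q_j v_j`; for `v = w`: `∑_{j ∈ g} w_j > 0` and `R B < D`, so strictly.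

`relh_of`.  Let `M > 0` (an integer; `M = (M' : ℤ)`, `lift M to ℕ`), `lam` be given.  `h` says that `single 0 (jK c) = c • single 0 1` is in `VH` (`c = aeval s b`; `Submodule.Quotient.mk_smul`, `Submodule.Quotient.mk_eq_zero`), so it is `y + z` with `y` exact (`Submodule.mem_sup`) and
`z ∈ span_PA {single u 1 | u ∈ HiV a w}`.  By span induction (`Submodule.span_induction`): there is `x : LP PA (n+2)` with `z = lmap jK x` and all exponents in `HiV a w` (`single u 1 = lmap jK (single u 1)`; sums; `r • lmap jK x = lmap jK (r • x)`, `Algebra.smul_def`).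
`lmap jK (single 0 c - x) = single 0 (jK c) - z = y`.
-/

set_option autoImplicit false

namespace Pool.Agent.H56.CT

open Finset AddMonoidAlgebra
open Pool.Agent.H56.SMC Pool.Agent.H37.T5 Pool.Agent.H56.T5 Pool.Agent.H37.T6 Pool.Agent.H22.T6
open Pool.Agent.H22.T7

/-- The value of `wmin` is a lower bound. -/
theorem RKL_wmin_le {n r : ℕ} (a : Fin r → (Fin n →₀ ℕ)) (w : Fin n → ℕ) (i : Fin r) :
    (H22.wmin a w : ℤ) ≤ ∑ j, (w j : ℤ) * (a i j : ℤ) := by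
  have h : H22.wmin a w ≤ ∑ j, a i j * w j := by
    unfold H22.wmin
    exact ciInf_le ⟨0, by rintro _ ⟨i, rfl⟩; exact Nat.zero_le _⟩ i
  calc (H22.wmin a w : ℤ) ≤ ((∑ j, a i j * w j : ℕ) : ℤ) := by exact_mod_cast h
    _ = ∑ j, (w j : ℤ) * (a i j : ℤ) := by
      push_cast
      exact sum_congr rfl fun j _ => mul_comm _ _

/-- The key estimate. -/
theorem RKL_est {n r : ℕ} (a : Fin r → (Fin n →₀ ℕ)) (R : ℕ) (g : Finset (Fin n)) (i0 : Fin r)
    (B D : ℕ) (h0 : ∀ j, j ∉ g → a i0 j = 0) (hB : ∀ j ∈ g, a i0 j ≤ B) (hD : R * B + 1 ≤ D)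
    (l : ℤ) (hl0 : 0 ≤ l) (hlR : l ≤ R) (q : Lat n) (hq : ∀ j, 0 ≤ q j)
    (hqK : ∀ j ∈ g, (D : ℤ) ≤ q j) (v : Fin n → ℕ) :
    l * (H22.wmin a v : ℤ) + ∑ j ∈ g, (v j : ℤ) ≤ ∑ j, q j * (v j : ℤ) := by
  have e1 : (H22.wmin a v : ℤ) ≤ B * ∑ j ∈ g, (v j : ℤ) := by
    refine (RKL_wmin_le a v i0).trans ?_
    have e2 : ∑ j, (v j : ℤ) * (a i0 j : ℤ) = ∑ j ∈ g, (v j : ℤ) * (a i0 j : ℤ) := by
      symm
      refine Finset.sum_subset (Finset.subset_univ g) fun j _ hj => ?_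
      rw [h0 j hj]
      simp
    rw [e2, Finset.mul_sum]
    refine Finset.sum_le_sum fun j hj => ?_
    rw [mul_comm]
    exact mul_le_mul_of_nonneg_right (by exact_mod_cast hB j hj) (Int.natCast_nonneg _)
  have hS : 0 ≤ ∑ j ∈ g, (v j : ℤ) := Finset.sum_nonneg fun j _ => Int.natCast_nonneg _
  have e3 : (D : ℤ) * ∑ j ∈ g, (v j : ℤ) ≤ ∑ j, q j * (v j : ℤ) := by
    rw [Finset.mul_sum]
    refine le_trans (Finset.sum_le_sum fun j hj => ?_) (Finset.sum_le_univ_sum_of_nonneg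
      (s := g) (f := fun j => q j * (v j : ℤ)) fun j => mul_nonneg (hq j) (Int.natCast_nonneg _))
    exact mul_le_mul_of_nonneg_right (hqK j hj) (Int.natCast_nonneg _)
  have e4 : l * (H22.wmin a v : ℤ) ≤ R * (B * ∑ j ∈ g, (v j : ℤ)) :=
    mul_le_mul hlR e1 (Int.natCast_nonneg _) (Int.natCast_nonneg _)
  have e5 : ((R * B + 1 : ℕ) : ℤ) * ∑ j ∈ g, (v j : ℤ) ≤ (D : ℤ) * ∑ j ∈ g, (v j : ℤ) :=
    mul_le_mul_of_nonneg_right (by exact_mod_cast hD) hS
  push_cast at e5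
  nlinarith

/-- RKL -/
theorem rkl {n r : ℕ} {W : Type} [AddCommGroup W] [Module PA W] (a : Fin r → (Fin n →₀ ℕ))
    (w : Fin n → ℕ) (hw : ∀ j, 0 < w j) (R : ℕ) (J : ℤ → ℤ → LP PA n →ₗ[PA] W)
    (h1 : ∀ m g, Supp (Pos n) g → J 1 m g = 0)
    (hJ : ∀ (i m : ℤ) (q : Lat n) (x : PA), i ≤ 0 → (∀ j, 0 ≤ q j) →
      vec (-i) (-m) q ∈ HiV a w → J i m (single q x) = 0)
    (g : Finset (Fin n)) (hg : g.Nonempty) (i0 : Fin r) (B D : ℕ)
    (h0 : ∀ j, j ∉ g → a i0 j = 0) (hB : ∀ j ∈ g, a i0 j ≤ B) (hD : R * B + 1 ≤ D) :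
    Kil R J {q | ∀ j ∈ g, (D : ℤ) ≤ q j} := by
  intro i m q x hiR hi1 hq hqK
  rcases eq_or_lt_of_le hi1 with h | h
  · subst h
    exact h1 m _ (Supp.single (S := Pos n) hq x)
  · have hi : i ≤ 0 := by omega
    refine hJ i m q x hi hq ⟨-i, -m, q, rfl, by omega, hq, fun v => ?_, ?_⟩
    · have e := RKL_est a R g i0 B D h0 hB hD (-i) (by omega) (by omega) q hq hqK v
      have hS : 0 ≤ ∑ j ∈ g, (v j : ℤ) := Finset.sum_nonneg fun j _ => Int.natCast_nonneg _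
      linarith
    · have e := RKL_est a R g i0 B D h0 hB hD (-i) (by omega) (by omega) q hq hqK w
      have hS : 0 < ∑ j ∈ g, (w j : ℤ) :=
        Finset.sum_pos (fun j _ => by exact_mod_cast hw j) hg
      linarith

theorem RKL_lmap_single {d : ℕ} (u : Lat d) (r : PA) :
    lmap jK (single u r : LP PA d) = single u (jK r) := by
  apply lp_ext
  intro v
  rw [lmap_coeff, coeff_single', coeff_single']
  split_ifs
  · rfl
  · exact map_zero _

/-- The relation. -/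
theorem relh_of {n r : ℕ} (a : Fin r → (Fin n →₀ ℕ)) (κ : Fin r → ℂ) (p : Fin n → ℚ)
    (b : Polynomial ℂ) (w : Fin n → ℕ)
    (h : ∀ M : ℕ, 0 < M → ∀ lam : Option (Fin n) ⊕ Fin 0 → ℂ,
      (Polynomial.aeval (PowerSeries.C (s0p a p w) + PowerSeries.X : PA) b) •
        (Submodule.Quotient.mk (single 0 1) : LP KA (n + 2) ⧸ VH a κ p w (M : ℤ) lam) = 0) :
    RELH a κ p b w := by
  intro M hM lam
  lift M to ℕ using hM.le
  have h' := h M (by exact_mod_cast hM) lam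
  rw [← Submodule.Quotient.mk_smul, Submodule.Quotient.mk_eq_zero] at h'
  generalize (Polynomial.aeval (PowerSeries.C (s0p a p w) + PowerSeries.X : PA) b) = c at h' ⊢
  unfold VH at h'
  obtain ⟨y, hy, z, hz, hyz⟩ := Submodule.mem_sup.1 h'
  have key : ∀ z ∈ Submodule.span PA {x : LP KA (n + 2) | ∃ u ∈ HiV a w, x = single u 1},
      ∃ x : LP PA (n + 2), lmap jK x = z ∧ Supp (HiV a w) x := by
    intro z hz
    induction hz using Submodule.span_induction with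
    | mem x hx =>
      obtain ⟨u, hu, rfl⟩ := hx
      refine ⟨single u 1, ?_, Supp.single hu 1⟩
      rw [RKL_lmap_single, map_one]
    | zero =>
      refine ⟨0, ?_, Supp.zero _⟩
      apply lp_ext
      intro v
      rw [lmap_coeff]
      exact map_zero _
    | add x y _ _ hx hy =>
      obtain ⟨x', hx1, hx2⟩ := hx
      obtain ⟨y', hy1, hy2⟩ := hy
      exact ⟨x' + y', by rw [lmap_add, hx1, hy1], hx2.add hy2⟩
    | smul r x _ hx =>
      obtain ⟨x', hx1, hx2⟩ := hx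
      refine ⟨r • x', ?_, hx2.smul r⟩
      rw [lmap_smul, hx1]
      exact algebraMap_smul KA r x
  obtain ⟨x, hx1, hx2⟩ := key z hz
  refine ⟨x, ?_, hx2⟩
  have e : lmap jK (single 0 c - x) = y := by
    rw [lmap_sub, hx1, RKL_lmap_single]
    have e2 : c • (single 0 1 : LP KA (n + 2)) = single 0 (jK c) := by
      rw [← algebraMap_smul KA c (single 0 1 : LP KA (n + 2))]
      apply lp_ext
      intro v
      rw [coeff_smul', coeff_single', coeff_single']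
      change jK c * _ = _
      split_ifs
      · rw [mul_one]
      · rw [mul_zero]
    rw [← e2, ← hyz]
    exact add_sub_cancel_right y z
  rw [e]
  exact hy

end Pool.Agent.H56.CT
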