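import Pool.Agent.H56.CT.RJW
import Pool.Agent.H56.CT.RKL
import Pool.Agent.H56.CT.RIT
import Pool.Agent.H56.CT.AIP
import Pool.Agent.H56.CT.RKY
import Pool.Agent.H56.CT.CGH

/-!
# RMN: the relation for the root columns

`R`, `ρ` from `aip` for `G = compG (rtE Nn grp a) κ ε f`.  `B` with `rtE Nn grp a i j ≤ B` for all `i`, `j` (finite sup).  `D = R * B + 1`, `N_j = (φ j).N`, `L = D * (∑ j, N_j + n) + 1`, `D1 = L + ρ + ∑ j, (N_j * (D + 1) + 1)`.
Let `a'`, `κ'`, `η`, `w` be given.  Choose polynomials `f' j` with `Hi D1 (f' j - f j)` (`trunc_exists` in `Pool/Agent/H22/T7/APR.lean`).  `P = sbI e ε f' (fpoly (rtE Nn grp a') κ')`; `cgh` (with `L := D1`) and `Hi_mono`: `Hi (L + ρ) (P - G)`; `aip` gives `PW`, `E`.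
`Ω` = the list of all `Fin.append (fun l => (if l = j then 1 else 0) - (if l = j' then 1 else 0)) (fun _ => 0)` for the pairs `j ≠ j'` with `grp j = grp j'` (`Finset.toList` of a finset of pairs, mapped).  By `hgr`, `j`, `j'` are not in the range of `ε` and `Nn j = Nn j'`, so `∑ ω_l (rtE Nn grp a' i l) = Nn j * a' i (grp j) - Nn j' * a' i (grp j') = 0`
(exponents of `fpoly (rtE ..) κ'` are among the `rtE Nn grp a' i`), and `cgw` gives the hypothesis of `npr`; `npr` gives `PW'`, `E'`.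
`r' > 0` (`hc`, `m > 0` as `n > 0`; `η`); `wmin (rtE Nn grp a') w > 0`: `rtE Nn grp a' t ≠ 0` (`a' t ≠ 0`, `hg`, `hN`), `w > 0` (`exists_wmin`).  So `s0p (rtE Nn grp a') p w = -(x : ℂ)` with `x > 0` rational (`wsp p w > 0`: `n > 0`), hence `≠ k` for all `k : ℕ`.
`relh_of`: let `M > 0`, `lam` be given.  `rjw (a := rtE Nn grp a')` (`R`) gives `J`.  For `k : Fin m` let `g_k = univ.filter (grp · = k)`, nonempty (`hg`).  `hc k`: `a i = single k c`, so for `i0 = η i`: `rtE Nn grp a' i0 j = Nn j * a i (grp j)` is `0` for `j ∉ g_k` and `≤ B` otherwise; `rkl` (`D`): `Kil R J {q | ∀ j ∈ g_k, D ≤ q j}`.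
For `j : Fin e`: `g_{grp (ε j)} = {ε j}` (`hgr`), so `Kil R J {q | D ≤ q (ε j)}`.
`rit` with `κ := fun j => p (ε j)`, `t0 := fun k => if p k = 1 then none else some (pC p k)` (`hpε`; `Hi` by `Hi_mono`: `D1 ≥ N_j (D+1) + 1`, a term of the sum): `I'` on `Fin (n + e)`.  `eI e ε t0 = fun _ => none`: `eI_cast`, `eI_nat`, `hp1` (`Fin.addCases`).
`rky` for `I'`, `PW'`, `E'`: gives `aeval s b • I' 0 0 1 = 0`, and `I' 0 0 1 = J 0 0 1 = mk (single 0 1)`.  Its hypothesis `hE`: let `E'.coeff u ≠ 0`: then `u ≥ 0`, `L ≤ ∑ u_j`, `dt ω u = 0` for `ω ∈ Ω`, i.e. `u (castAdd e j) = u (castAdd e j')` if `grp j = grp j'`.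
If `N_j D ≤ u (castAdd e (ε j)) + u (natAdd n j)` for some `j`: the third property of `rit` (`-R ≤ -(R-1) ≤ 1`).  If for some `k` not in the range of `ε`: `D ≤ u (castAdd e k)`: then `D ≤ u (castAdd e j')` for all `j' ∈ g_{grp k}`, and all these `j'` are not in the range of `ε` (`j' = k` or `hgr`), so the last property of `rit` for
`K = {q | ∀ j' ∈ g_{grp k}, D ≤ q j'}` applies.  Otherwise `∑ u = ∑_{k : Fin n} u (castAdd e k) + ∑_j u (natAdd n j)` (`Fin.sum_univ_add`) `= ∑_j (u (castAdd e (ε j)) + u (natAdd n j)) + ∑_{k ∉ range ε} u (castAdd e k) ≤ D ∑_j N_j + n D < L`, a contradiction (the sum over the range of `ε`: `Finset.sum_image`, `hε`).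
-/

set_option autoImplicit false

namespace Pool.Agent.H56.CT

open Finset AddMonoidAlgebra
open Pool.Agent.H56.SMC Pool.Agent.H37.T5 Pool.Agent.H56.T5 Pool.Agent.H37.T6 Pool.Agent.H22.T6
open Pool.Agent.H22.T7

/-- A bound for the exponents. -/
theorem RMN_bound {n r : ℕ} (A : Fin r → (Fin n →₀ ℕ)) : ∃ B : ℕ, ∀ i j, A i j ≤ B := by
  refine ⟨∑ i, ∑ j, A i j, fun i j => ?_⟩
  have h1 : A i j ≤ ∑ j, A i j :=
    Finset.single_le_sum (f := fun j => A i j) (fun _ _ => Nat.zero_le _) (Finset.mem_univ j)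
  have h2 : ∑ j, A i j ≤ ∑ i, ∑ j, A i j :=
    Finset.single_le_sum (f := fun i => ∑ j, A i j) (fun _ _ => Nat.zero_le _) (Finset.mem_univ i)
  exact h1.trans h2

/-- The exponents of the polynomial. -/
theorem RMN_fpoly {n r : ℕ} (A : Fin r → (Fin n →₀ ℕ)) (κ : Fin r → ℂ) (u : Fin n →₀ ℕ)
    (hu : MvPolynomial.coeff u (fpoly A κ) ≠ 0) : ∃ i, u = A i := by
  unfold fpoly at hu
  rw [MvPolynomial.coeff_sum] at hu
  obtain ⟨i, -, hi⟩ := Finset.exists_ne_zero_of_sum_ne_zero hu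
  rw [MvPolynomial.coeff_monomial] at hi
  refine ⟨i, ?_⟩
  by_contra hne
  apply hi
  rw [if_neg (fun h => hne h.symm)]

/-- The weights which compare the coordinates `j`, `j'`. -/
def RMN_om {n : ℕ} (j j' : Fin n) : Fin n → ℤ :=
  fun l => (if l = j then 1 else 0) - (if l = j' then 1 else 0)

theorem RMN_om_sum {n : ℕ} (j j' : Fin n) (u : Fin n → ℤ) :
    ∑ l, RMN_om j j' l * u l = u j - u j' := by
  unfold RMN_om
  simp only [sub_mul, ite_mul, one_mul, zero_mul, Finset.sum_sub_distrib, Finset.sum_ite_eq',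
    Finset.mem_univ, if_true]

theorem RMN_append_sum {n e : ℕ} (j j' : Fin n) (u : Fin (n + e) → ℤ) :
    ∑ l, Fin.append (RMN_om j j') (fun _ : Fin e => 0) l * u l =
      u (Fin.castAdd e j) - u (Fin.castAdd e j') := by
  rw [Fin.sum_univ_add]
  simp only [Fin.append_left, Fin.append_right, zero_mul, Finset.sum_const_zero, add_zero]
  exact RMN_om_sum j j' (fun l => u (Fin.castAdd e l))

/-- The pairs of coordinates in the same group. -/
def RMN_pairs {m n : ℕ} (grp : Fin n → Fin m) : Finset (Fin n × Fin n) :=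
  Finset.univ.filter (fun jj => jj.1 ≠ jj.2 ∧ grp jj.1 = grp jj.2)

/-- The list of the weights. -/
noncomputable def RMN_Om {m n : ℕ} (e : ℕ) (grp : Fin n → Fin m) : List (Lat (n + e)) :=
  (RMN_pairs grp).toList.map (fun jj => Fin.append (RMN_om jj.1 jj.2) (fun _ : Fin e => 0))

theorem RMN_mem_Om {m n e : ℕ} (grp : Fin n → Fin m) (ω : Lat (n + e)) :
    ω ∈ RMN_Om e grp ↔ ∃ j j', j ≠ j' ∧ grp j = grp j' ∧
      ω = Fin.append (RMN_om j j') (fun _ : Fin e => 0) := by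
  unfold RMN_Om
  rw [List.mem_map]
  constructor
  · rintro ⟨jj, hjj, rfl⟩
    rw [Finset.mem_toList, RMN_pairs, Finset.mem_filter] at hjj
    exact ⟨jj.1, jj.2, hjj.2.1, hjj.2.2, rfl⟩
  · rintro ⟨j, j', h1, h2, rfl⟩
    refine ⟨(j, j'), ?_, rfl⟩
    rw [Finset.mem_toList, RMN_pairs, Finset.mem_filter]
    exact ⟨Finset.mem_univ _, h1, h2⟩

/-- The sum of the coordinates is small, if no monomial is killed. -/
theorem RMN_sum {n e : ℕ} (ε : Fin e → Fin n) (hε : Function.Injective ε) (N : Fin e → ℕ) (D : ℕ)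
    (u : Lat (n + e)) (h1 : ∀ j, u (Fin.castAdd e (ε j)) + u (Fin.natAdd n j) < ((N j * D : ℕ) : ℤ))
    (h2 : ∀ k, k ∉ Set.range ε → u (Fin.castAdd e k) < (D : ℤ)) :
    ∑ l, u l < ((D * (∑ j, N j + n) + 1 : ℕ) : ℤ) := by
  classical
  rw [Fin.sum_univ_add]
  have e1 : ∑ k, u (Fin.castAdd e k) = ∑ j, u (Fin.castAdd e (ε j)) +
      ∑ k ∈ (Finset.univ.image ε)ᶜ, u (Fin.castAdd e k) := by
    rw [← Finset.sum_add_sum_compl (Finset.univ.image ε) (fun k => u (Fin.castAdd e k)),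
      Finset.sum_image (fun x _ y _ h => hε h)]
  have e2 : ∑ k ∈ (Finset.univ.image ε)ᶜ, u (Fin.castAdd e k) ≤ (n : ℤ) * D := by
    calc ∑ k ∈ (Finset.univ.image ε)ᶜ, u (Fin.castAdd e k)
        ≤ ∑ k ∈ (Finset.univ.image ε)ᶜ, (D : ℤ) := by
          refine Finset.sum_le_sum fun k hk => (h2 k ?_).le
          rintro ⟨j, rfl⟩
          rw [Finset.mem_compl, Finset.mem_image] at hk
          exact hk ⟨j, Finset.mem_univ _, rfl⟩
      _ = (((Finset.univ.image ε)ᶜ).card : ℤ) * D := by rw [Finset.sum_const, nsmul_eq_mul]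
      _ ≤ (n : ℤ) * D := by
          refine mul_le_mul_of_nonneg_right ?_ (Int.natCast_nonneg _)
          have := Finset.card_le_univ ((Finset.univ.image ε)ᶜ)
          rw [Fintype.card_fin] at this
          exact_mod_cast this
  have e3 : ∑ j, u (Fin.castAdd e (ε j)) + ∑ j, u (Fin.natAdd n j) ≤
      ∑ j, ((N j * D : ℕ) : ℤ) := by
    rw [← Finset.sum_add_distrib]
    exact Finset.sum_le_sum fun j _ => (h1 j).le
  have e4 : ∑ j, ((N j * D : ℕ) : ℤ) = (∑ j, (N j : ℤ)) * D := by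
    rw [Finset.sum_mul]
    exact Finset.sum_congr rfl fun j _ => by push_cast; ring
  push_cast
  rw [e1]
  linarith

theorem RMN_exists_wmin {n r : ℕ} (hr : 0 < r) (A : Fin r → (Fin n →₀ ℕ)) (v : Fin n → ℕ) :
    ∃ i, ∑ j, A i j * v j = H22.wmin A v := by
  have : Nonempty (Fin r) := ⟨⟨0, hr⟩⟩
  exact Nat.sInf_mem (Set.range_nonempty _)

theorem RMN_wmin {n r : ℕ} (hr : 0 < r) (A : Fin r → (Fin n →₀ ℕ)) (hA : ∀ i, A i ≠ 0)
    (w : Fin n → ℕ) (hw : ∀ j, 0 < w j) : 0 < H22.wmin A w := by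
  obtain ⟨i, hi⟩ := RMN_exists_wmin hr A w
  rw [← hi]
  obtain ⟨j, hj⟩ := Finsupp.ne_iff.1 (hA i)
  rw [Finsupp.coe_zero, Pi.zero_apply] at hj
  exact lt_of_lt_of_le (Nat.mul_pos (Nat.pos_of_ne_zero hj) (hw j))
    (Finset.single_le_sum (f := fun j => A i j * w j) (fun _ _ => Nat.zero_le _)
      (Finset.mem_univ j))

theorem RMN_s0 {n r : ℕ} (hn : 0 < n) (hr : 0 < r) (A : Fin r → (Fin n →₀ ℕ))
    (hA : ∀ i, A i ≠ 0) (p : Fin n → ℚ) (hp : ∀ j, 0 < p j) (w : Fin n → ℕ)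
    (hw : ∀ j, 0 < w j) (k : ℕ) : s0p A p w ≠ (k : ℂ) := by
  have h1 := RMN_wmin hr A hA w hw
  have h2 : 0 < wsp p w := by
    unfold wsp
    have : Nonempty (Fin n) := ⟨⟨0, hn⟩⟩
    refine Finset.sum_pos (fun j _ => mul_pos (hp j) ?_) Finset.univ_nonempty
    exact_mod_cast hw j
  intro h
  unfold s0p at h
  have h3 : (H22.wmin A w : ℂ) ≠ 0 := by exact_mod_cast h1.ne'
  rw [div_eq_iff h3] at h
  have h4 : -(wsp p w) = (k : ℚ) * (H22.wmin A w : ℚ) := by exact_mod_cast h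
  have h5 : (0 : ℚ) ≤ (k : ℚ) * (H22.wmin A w : ℚ) := by positivity
  linarith

theorem RMN_rtE_ne {m n r : ℕ} (Nn : Fin n → ℕ) (hN : ∀ j, 0 < Nn j) (grp : Fin n → Fin m)
    (hg : Function.Surjective grp) (a' : Fin r → (Fin m →₀ ℕ)) (ha' : ∀ t, a' t ≠ 0) (i : Fin r) :
    rtE Nn grp a' i ≠ 0 := by
  obtain ⟨k, hk⟩ := Finsupp.ne_iff.1 (ha' i)
  rw [Finsupp.coe_zero, Pi.zero_apply] at hk
  obtain ⟨j, rfl⟩ := hg k
  intro h
  have h1 := rtE_apply Nn grp a' i j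
  rw [h, Finsupp.coe_zero, Pi.zero_apply] at h1
  exact (Nat.mul_pos (hN j) (Nat.pos_of_ne_zero hk)).ne h1

theorem RMN_neg {σ : Type} {L : ℕ} {g h : MvPowerSeries σ ℂ} (hh : Hi L (g - h)) :
    Hi L (h - g) := by
  have := Hi_smul (-1 : ℂ) hh
  rwa [neg_one_smul, neg_sub] at this

/-- The hypothesis of `npr`. -/
theorem RMN_omega {m n e r' : ℕ} (Nn : Fin n → ℕ) (grp : Fin n → Fin m) (ε : Fin e → Fin n)
    (hgr : ∀ j j', grp j = grp j' → j ≠ j' → j ∉ Set.range ε ∧ Nn j = Nn j')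
    (f' : Fin e → MvPolynomial (Fin 2) ℂ) (a' : Fin r' → (Fin m →₀ ℕ)) (κ' : Fin r' → ℂ)
    (ω : Lat (n + e)) (hω : ω ∈ RMN_Om e grp) (u : Fin (n + e) →₀ ℕ)
    (hu : MvPolynomial.coeff u (sbI e ε f' (fpoly (rtE Nn grp a') κ')) ≠ 0) :
    ∑ j, ω j * (u j : ℤ) = 0 := by
  obtain ⟨j, j', hne, hjj, rfl⟩ := (RMN_mem_Om grp ω).1 hω
  refine cgw ε f' (fpoly (rtE Nn grp a') κ') (RMN_om j j') ?_ ?_ u hu
  · intro l
    have h1 : ε l ≠ j := fun h => (hgr j j' hjj hne).1 ⟨l, h⟩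
    have h2 : ε l ≠ j' := fun h => (hgr j' j hjj.symm hne.symm).1 ⟨l, h⟩
    unfold RMN_om
    rw [if_neg h1, if_neg h2, sub_zero]
  · intro v hv
    obtain ⟨i, rfl⟩ := RMN_fpoly _ _ _ hv
    rw [RMN_om_sum j j' (fun l => ((rtE Nn grp a' i l : ℕ) : ℤ)), rtE_apply, rtE_apply, hjj,
      (hgr j j' hjj hne).2, sub_self]

/-- The killed monomials of the group `k`. -/
theorem RMN_kil {m n r r' : ℕ} {W : Type} [AddCommGroup W] [Module PA W]
    (a : Fin r → (Fin m →₀ ℕ)) (hc : Conv a) (Nn : Fin n → ℕ) (grp : Fin n → Fin m)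
    (hg : Function.Surjective grp) (a' : Fin r' → (Fin m →₀ ℕ)) (η : Fin r → Fin r')
    (hη : ∀ i, a' (η i) = a i) (w : Fin n → ℕ) (hw : ∀ j, 0 < w j) (R B : ℕ)
    (hB : ∀ i j, rtE Nn grp a i j ≤ B) (J : ℤ → ℤ → LP PA n →ₗ[PA] W)
    (h1 : ∀ m g, Supp (Pos n) g → J 1 m g = 0)
    (hJ : ∀ (i m : ℤ) (q : Lat n) (x : PA), i ≤ 0 → (∀ j, 0 ≤ q j) →
      vec (-i) (-m) q ∈ HiV (rtE Nn grp a') w → J i m (single q x) = 0) (k : Fin m) :
    Kil R J {q | ∀ j ∈ Finset.univ.filter (fun j => grp j = k), ((R * B + 1 : ℕ) : ℤ) ≤ q j} := by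
  obtain ⟨i, c, hi⟩ := hc k
  obtain ⟨j0, hj0⟩ := hg k
  refine rkl (rtE Nn grp a') w hw R J h1 hJ (Finset.univ.filter (fun j => grp j = k))
    ⟨j0, Finset.mem_filter.2 ⟨Finset.mem_univ _, hj0⟩⟩ (η i) B (R * B + 1) ?_ ?_ le_rfl
  · intro j hj
    have hj' : grp j ≠ k := fun h => hj (Finset.mem_filter.2 ⟨Finset.mem_univ _, h⟩)
    rw [rtE_apply, hη, hi, Finsupp.single_apply, if_neg (fun h => hj' h.symm), mul_zero]
  · intro j _
    have h := hB i j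
    rw [rtE_apply] at h ⊢
    rw [hη]
    exact h

/-- RMN -/
theorem rmn {m n e r : ℕ} (hn : 0 < n) (a : Fin r → (Fin m →₀ ℕ)) (κ : Fin r → ℂ)
    (hc : Conv a) (Nn : Fin n → ℕ) (hN : ∀ j, 0 < Nn j) (grp : Fin n → Fin m)
    (hg : Function.Surjective grp) (ε : Fin e → Fin n) (hε : Function.Injective ε)
    (hgr : ∀ j j', grp j = grp j' → j ≠ j' → j ∉ Set.range ε ∧ Nn j = Nn j')
    (f : Fin e → R2) (hf : ∀ j, co (f j) 0 0 = 0) (p : Fin n → ℚ) (hp : ∀ j, 0 < p j)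
    (hp1 : ∀ k, k ∉ Set.range ε → p k = 1) (hpε : ∀ j, p (ε j) ≠ 1)
    (φ : ∀ j, PhiD (f j) (p (ε j))) (b : Polynomial ℂ)
    (h : FEq (MvPowerSeries (Fin (n + e)) ℂ) (compG (rtE Nn grp a) κ ε f) b) :
    ∃ D1 : ℕ, ∀ (r' : ℕ) (a' : Fin r' → (Fin m →₀ ℕ)) (κ' : Fin r' → ℂ) (η : Fin r → Fin r'),
      (∀ i, a' (η i) = a i) → (∀ t, a' t ≠ 0) →
      Hi D1 ((fpoly a' κ' : MvPowerSeries (Fin m) ℂ) - (fpoly a κ : MvPowerSeries (Fin m) ℂ)) →
      ∀ w : Fin n → ℕ, (∀ j, 0 < w j) → RELH (rtE Nn grp a') κ' p b w := by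
  classical
  obtain ⟨R, ρ, hR, haip⟩ := aip (compG (rtE Nn grp a) κ ε f) b h
  obtain ⟨B, hB⟩ := RMN_bound (rtE Nn grp a)
  refine ⟨((R * B + 1) * (∑ j, (φ j).N + n) + 1) + ρ + ∑ j, ((φ j).N * ((R * B + 1) + 1) + 1), ?_⟩
  intro r' a' κ' η hη ha' hHi w hw
  set D : ℕ := R * B + 1 with hD
  set L : ℕ := D * (∑ j, (φ j).N + n) + 1 with hL
  set D1 : ℕ := L + ρ + ∑ j, ((φ j).N * (D + 1) + 1) with hD1
  choose f' hf' _ using fun j => trunc_exists (f j) D1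
  have hf1 : ∀ j, Hi D1 ((f' j : R2) - f j) := fun j => RMN_neg (hf' j)
  have hP := cgh a κ Nn hN grp hg ε hε f hf D1 f' hf1 a' κ' hHi
  obtain ⟨PW, E, hlen, hid, hE⟩ := haip L _ (Hi_mono (by omega) hP)
  obtain ⟨PW', E', hlen', hid', hE'⟩ := npr _ b R PW E hlen hid (RMN_Om e grp)
    (fun ω hω u hu => RMN_omega Nn grp ε hgr f' a' κ' ω hω u hu)
  have hr' : 0 < r' := by
    obtain ⟨i, _, _⟩ := hc (grp ⟨0, hn⟩)
    exact (Nat.zero_le _).trans_lt (η i).2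
  have hne := RMN_rtE_ne Nn hN grp hg a' ha'
  refine relh_of (rtE Nn grp a') κ' p b w fun M hM lam => ?_
  obtain ⟨J, hFI, hJ1, hJk⟩ := rjw (rtE Nn grp a') κ' p w hw hne
    (RMN_s0 hn hr' _ hne p hp w hw) M lam R
  have hkg : ∀ k : Fin m, Kil R J {q | ∀ j ∈ Finset.univ.filter (fun j => grp j = k),
      (D : ℤ) ≤ q j} :=
    RMN_kil a hc Nn grp hg a' η hη w hw R B hB J hFI.z1 hJk
  have hke : ∀ j : Fin e, Kil R J {q | (D : ℤ) ≤ q (ε j)} := by
    intro j i m' q x h1 h2 h3 h4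
    refine hkg (grp (ε j)) i m' q x h1 h2 h3 ?_
    intro j' hj'
    have hj2 : grp j' = grp (ε j) := (Finset.mem_filter.1 hj').2
    by_cases h5 : ε j = j'
    · rw [← h5]
      exact h4
    · exact absurd ⟨j, rfl⟩ (hgr (ε j) j' hj2.symm h5).1
  obtain ⟨I', hFI', hI1, hkil, hK'⟩ := rit ε hε f (fun j => p (ε j)) φ D (Nat.succ_pos _) f'
    (fun j => Hi_mono (by
      have : (φ j).N * (D + 1) + 1 ≤ ∑ j, ((φ j).N * (D + 1) + 1) :=
        Finset.single_le_sum (f := fun j => (φ j).N * (D + 1) + 1) (fun _ _ => Nat.zero_le _)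
          (Finset.mem_univ j)
      omega) (hf1 j)) R _ _ _ _ _ J hFI
    (fun j => by
      rw [if_neg (hpε j)]
      rfl) hke
  have heI : eI e ε (fun k => if p k = 1 then none else some (pC p k)) = fun _ => none := by
    funext l
    refine Fin.addCases (fun k => ?_) (fun j => ?_) l
    · rw [eI_cast]
      by_cases hk : k ∈ Set.range ε
      · rw [if_pos hk]
      · rw [if_neg hk, if_pos (hp1 k hk)]
    · rw [eI_nat]
  rw [heI] at hFI'
  have hfin := rky R hR _ _ _ _ I' hFI' b PW' E' hlen' hid' ?_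
  · rw [hI1, hJ1] at hfin
    exact hfin
  · intro u x hu
    obtain ⟨hu1, hu2⟩ := hE' u hu
    obtain ⟨hu3, hu4⟩ := hE u hu1
    have hR1 : -(R : ℤ) ≤ -((R - 1 : ℕ) : ℤ) := by omega
    have hR2 : -((R - 1 : ℕ) : ℤ) ≤ 1 := by omega
    by_cases c1 : ∃ j, (((φ j).N * D : ℕ) : ℤ) ≤ u (Fin.castAdd e (ε j)) + u (Fin.natAdd n j)
    · obtain ⟨j, hj⟩ := c1
      exact hkil j _ 0 u x hR1 hR2 hu3 hj
    by_cases c2 : ∃ k, k ∉ Set.range ε ∧ (D : ℤ) ≤ u (Fin.castAdd e k)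
    · obtain ⟨k, hk, hk2⟩ := c2
      refine hK' {q : Lat n | ∀ j ∈ Finset.univ.filter (fun j => grp j = grp k), (D : ℤ) ≤ q j}
        ?_ (hkg (grp k)) _ 0 u x hR1 hR2 hu3 ?_
      · intro q q' hq hq1 j hj
        rw [← hq j ?_]
        · exact hq1 j hj
        · have hj2 : grp j = grp k := (Finset.mem_filter.1 hj).2
          by_cases h5 : j = k
          · rw [h5]
            exact hk
          · exact (hgr j k hj2 h5).1
      · intro j hj
        show (D : ℤ) ≤ u (Fin.castAdd e j)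
        have hj2 : grp j = grp k := (Finset.mem_filter.1 hj).2
        by_cases h5 : j = k
        · rw [h5]
          exact hk2
        · have h6 := hu2 _ ((RMN_mem_Om grp _).2 ⟨j, k, h5, hj2, rfl⟩)
          unfold dt at h6
          rw [RMN_append_sum] at h6
          linarith
    exfalso
    push Not at c1 c2
    have h7 := RMN_sum ε hε (fun j => (φ j).N) D u c1 c2
    rw [← hL] at h7
    exact absurd h7 (not_lt.2 hu4)

end Pool.Agent.H56.CT
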