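import Pool.Agent.H56.CT.Defs
import Pool.Agent.H22.T7.DPS
import Pool.Agent.H22.T7.APR

/-!
# SBB: basic properties of the substitution `sb X Y g = g(X, Y)`

Proof.  `hs`: `co X 0 0 = 0` means `constantCoeff X = 0`, so `MvPowerSeries.hasSubst_of_constantCoeff_zero` (the family `![X, Y]`, `Fin.forall_fin_two`).  `sbH = MvPowerSeries.substAlgHom hs` (composed with nothing else; it
is an algebra homomorphism over `ℂ`), `MvPowerSeries.coe_substAlgHom`, `MvPowerSeries.subst_X`.
`sb_Hi`: `MvPowerSeries.coeff_subst` and `le_order_subst`, or: `h` with `Hi M h` is by `hi_dec` (iterated `M` times) in the ideal generated by the monomials of degree `M`, and `Hi 1 X`, `Hi 1 Y`, so the image is a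
sum of multiples of products of `M` series with `Hi 1` (`Hi_mul`).
`sb_sb`: `MvPowerSeries.subst_comp_subst_apply`, the family `fun i => subst ![X', Y'] (![X, Y] i)` is `![sb X' Y' X, sb X' Y' Y]`.
`sb_id`: `MvPowerSeries.subst_self`.
`sb_pd` (chain rule): for polynomials `h` (as series) by `MvPolynomial.induction_on` (both sides are derivations in `h` over the ring homomorphism `sbH`; at `X 0`, `X 1`: `pderiv_X`).  In general: for every `L` write
`h = c + (h - c)` with a polynomial `c` and `Hi (L+1) (h - c)` (`trunc_exists`); both sides of the identity for `h - c` satisfy `Hi L` (`Hi_pderiv`, `sb_Hi`, `Hi_mul_left`), so the difference of the two sides satisfies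
`Hi L` for all `L`, hence is zero.
`sb_aut`: an algebra automorphism `ψ` of `ℂ⟦u,v⟧` is the substitution `sb (ψ U) (ψ V)`, and `co (ψ U) 0 0 = 0`: `ψ` maps non-units to non-units (`MvPowerSeries.isUnit_iff_constantCoeff`), so `Hi 1 x → Hi 1 (ψ x)`, and
`Hi L x → Hi L (ψ x)` (`hi_dec` iterated as above).  For polynomials `h`: both sides are algebra homomorphisms (`MvPolynomial.algHom_ext`); in general by truncation as above.
-/

set_option autoImplicit false

namespace Pool.Agent.H56.CT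

open Finset
open Pool.Agent.H22.T7

theorem SBB_coe (g : R2) : co g 0 0 = MvPowerSeries.constantCoeff g := by
  unfold co
  rw [Finsupp.single_zero, Finsupp.single_zero, add_zero]
  exact MvPowerSeries.coeff_zero_eq_constantCoeff_apply g

theorem SBB_hi1 (g : R2) (h : co g 0 0 = 0) : Hi 1 g := by
  intro ρ hρ
  by_contra hcon
  have h1 : ρ.degree = 0 := by omega
  rw [Finsupp.degree_eq_zero_iff] at h1
  apply hρ
  rw [h1, MvPowerSeries.coeff_zero_eq_constantCoeff_apply, ← SBB_coe, h]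

theorem SBB_hi1' (g : R2) (h : Hi 1 g) : co g 0 0 = 0 := by
  by_contra hcon
  rw [SBB_coe, ← MvPowerSeries.coeff_zero_eq_constantCoeff_apply] at hcon
  have := h 0 hcon
  simp at this

theorem SBB_hi0 (g : R2) : Hi 1 (g - MvPowerSeries.C (MvPowerSeries.constantCoeff g)) := by
  apply SBB_hi1
  rw [SBB_coe]
  simp

theorem SBB_zero (g : R2) (h : ∀ N, Hi N g) : g = 0 := by
  ext ρ
  by_contra hne
  have h1 : MvPowerSeries.coeff ρ g ≠ 0 := hne
  have h2 := h (ρ.degree + 1) ρ h1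
  omega

theorem SBB_X (g : Fin 2 → R2) : ∑ j, MvPowerSeries.X j * g j = U * g 0 + V * g 1 :=
  Fin.sum_univ_two _

/-- The main induction. -/
theorem SBB_ind (F E : R2 → R2) (hadd : ∀ x y, E (x + y) = E x + E y)
    (hC : ∀ c : ℂ, E (MvPowerSeries.C c) = 0) (hU : ∀ x, E (U * x) = F U * E x)
    (hV : ∀ x, E (V * x) = F V * E x) (hFU : Hi 1 (F U)) (hFV : Hi 1 (F V)) (h : R2) :
    E h = 0 := by
  apply SBB_zero
  intro N
  induction N generalizing h with
  | zero => exact Hi_zero _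
  | succ N ih =>
    obtain ⟨g, -, hg⟩ := hi_dec 0 _ (SBB_hi0 h)
    rw [SBB_X] at hg
    have h2 : h = MvPowerSeries.C (MvPowerSeries.constantCoeff h) + (U * g 0 + V * g 1) := by
      rw [← hg]
      ring
    rw [h2, hadd, hC, zero_add, hadd, hU, hV, add_comm N 1]
    exact Hi_add (Hi_mul hFU (ih _)) (Hi_mul hFV (ih _))

/-- Homomorphisms preserve the order. -/
theorem SBB_Hi (F : R2 →ₐ[ℂ] R2) (hFU : Hi 1 (F U)) (hFV : Hi 1 (F V)) (M : ℕ) (h : R2)
    (hh : Hi M h) : Hi M (F h) := by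
  induction M generalizing h with
  | zero => exact Hi_zero _
  | succ M ih =>
    obtain ⟨g, hg1, hg⟩ := hi_dec M h hh
    rw [SBB_X] at hg
    rw [hg, map_add, map_mul, map_mul, add_comm M 1]
    exact Hi_add (Hi_mul hFU (ih _ (hg1 0))) (Hi_mul hFV (ih _ (hg1 1)))

theorem SBB_C (F : R2 →ₐ[ℂ] R2) (c : ℂ) : F (MvPowerSeries.C c) = MvPowerSeries.C c :=
  F.commutes c

/-- Homomorphisms are determined by the images of the coordinates. -/
theorem SBB_ext (F G : R2 →ₐ[ℂ] R2) (hFU : Hi 1 (F U)) (hFV : Hi 1 (F V)) (h1 : F U = G U)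
    (h2 : F V = G V) (h : R2) : F h = G h := by
  have h3 := SBB_ind (fun x => F x) (fun x => F x - G x)
    (fun x y => by
      show F (x + y) - G (x + y) = (F x - G x) + (F y - G y)
      rw [map_add, map_add]
      ring)
    (fun c => by
      show F (MvPowerSeries.C c) - G (MvPowerSeries.C c) = 0
      rw [SBB_C, SBB_C, sub_self])
    (fun x => by
      show F (U * x) - G (U * x) = F U * (F x - G x)
      rw [map_mul, map_mul, ← h1]
      ring)
    (fun x => by
      show F (V * x) - G (V * x) = F V * (F x - G x)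
      rw [map_mul, map_mul, ← h2]
      ring) hFU hFV h
  exact sub_eq_zero.1 h3

theorem sb_has (X Y : R2) (hX : co X 0 0 = 0) (hY : co Y 0 0 = 0) :
    MvPowerSeries.HasSubst (![X, Y] : Fin 2 → R2) := by
  apply MvPowerSeries.hasSubst_of_constantCoeff_zero
  rw [Fin.forall_fin_two]
  rw [SBB_coe] at hX hY
  exact ⟨hX, hY⟩

/-- The substitution as an algebra homomorphism. -/
theorem sb_hom (X Y : R2) (hX : co X 0 0 = 0) (hY : co Y 0 0 = 0) :
    ∃ F : R2 →ₐ[ℂ] R2, (∀ g, F g = sb X Y g) ∧ F U = X ∧ F V = Y := by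
  have hs := sb_has X Y hX hY
  refine ⟨MvPowerSeries.substAlgHom hs, fun g => ?_, ?_, ?_⟩
  · rw [MvPowerSeries.coe_substAlgHom]
    rfl
  · rw [MvPowerSeries.substAlgHom_X]
    rfl
  · rw [MvPowerSeries.substAlgHom_X]
    rfl

theorem sb_Hi (X Y : R2) (hX : co X 0 0 = 0) (hY : co Y 0 0 = 0) (M : ℕ) (h : R2)
    (hh : Hi M h) : Hi M (sb X Y h) := by
  obtain ⟨F, hF, hU, hV⟩ := sb_hom X Y hX hY
  rw [← hF]
  exact SBB_Hi F (by rw [hU]; exact SBB_hi1 _ hX) (by rw [hV]; exact SBB_hi1 _ hY) M h hh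

theorem sb_sb (X Y X' Y' : R2) (hX : co X 0 0 = 0) (hY : co Y 0 0 = 0) (hX' : co X' 0 0 = 0)
    (hY' : co Y' 0 0 = 0) (g : R2) :
    sb X' Y' (sb X Y g) = sb (sb X' Y' X) (sb X' Y' Y) g := by
  unfold sb
  rw [MvPowerSeries.subst_comp_subst_apply (sb_has X Y hX hY) (sb_has X' Y' hX' hY')]
  congr 1
  funext s
  fin_cases s <;> rfl

theorem sb_co (X Y : R2) (hX : co X 0 0 = 0) (hY : co Y 0 0 = 0) (g : R2) :
    co (sb X Y g) 0 0 = co g 0 0 := by
  obtain ⟨F, hF, -, -⟩ := sb_hom X Y hX hY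
  have h1 := SBB_hi1' _ (sb_Hi X Y hX hY 1 _ (SBB_hi0 g))
  rw [← hF, map_sub, SBB_C, SBB_coe, map_sub, hF] at h1
  rw [SBB_coe, SBB_coe, sub_eq_zero.1 h1]
  simp

theorem sb_id (g : R2) : sb U V g = g := by
  have h1 : (![U, V] : Fin 2 → R2) = MvPowerSeries.X := by
    funext s
    fin_cases s <;> rfl
  unfold sb
  rw [h1, MvPowerSeries.subst_self]
  rfl

/-- The chain rule. -/
theorem sb_pd (X Y : R2) (hX : co X 0 0 = 0) (hY : co Y 0 0 = 0) (j : Fin 2) (h : R2) :
    pd j (sb X Y h) = sb X Y (pd 0 h) * pd j X + sb X Y (pd 1 h) * pd j Y := by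
  obtain ⟨F, hF, hU, hV⟩ := sb_hom X Y hX hY
  rw [← hF, ← hF, ← hF]
  have p00 : pd 0 U = 1 := MvPowerSeries.pderiv_X_self
  have p11 : pd 1 V = 1 := MvPowerSeries.pderiv_X_self
  have p10 : pd 1 U = 0 := MvPowerSeries.pderiv_X_of_ne (by decide)
  have p01 : pd 0 V = 0 := MvPowerSeries.pderiv_X_of_ne (by decide)
  have pC : ∀ (i : Fin 2) (c : ℂ), pd i (MvPowerSeries.C c) = 0 := fun i c =>
    MvPowerSeries.pderiv_C
  have pm : ∀ (i : Fin 2) (x y : R2), pd i (x * y) = x * pd i y + y * pd i x := by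
    intro i x y
    show MvPowerSeries.pderiv ℂ i (x * y) = _
    rw [Derivation.leibniz, smul_eq_mul, smul_eq_mul]
  have pa : ∀ (i : Fin 2) (x y : R2), pd i (x + y) = pd i x + pd i y := fun i x y => map_add _ x y
  have h3 := SBB_ind (fun x => F x)
    (fun x => pd j (F x) - (F (pd 0 x) * pd j X + F (pd 1 x) * pd j Y))
    (fun x y => by
      show pd j (F (x + y)) - (F (pd 0 (x + y)) * pd j X + F (pd 1 (x + y)) * pd j Y) =
        (pd j (F x) - (F (pd 0 x) * pd j X + F (pd 1 x) * pd j Y)) +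
        (pd j (F y) - (F (pd 0 y) * pd j X + F (pd 1 y) * pd j Y))
      rw [pa, pa, map_add, map_add, map_add, pa]
      ring)
    (fun c => by
      show pd j (F (MvPowerSeries.C c)) - (F (pd 0 (MvPowerSeries.C c)) * pd j X
        + F (pd 1 (MvPowerSeries.C c)) * pd j Y) = 0
      rw [SBB_C, pC, pC, pC, map_zero]
      ring)
    (fun x => by
      show pd j (F (U * x)) - (F (pd 0 (U * x)) * pd j X + F (pd 1 (U * x)) * pd j Y) =
        F U * (pd j (F x) - (F (pd 0 x) * pd j X + F (pd 1 x) * pd j Y))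
      rw [pm, pm, p00, p10, map_mul, pm, hU, map_add, map_add, map_mul, map_mul, map_mul, map_mul,
        hU, map_one, map_zero]
      ring)
    (fun x => by
      show pd j (F (V * x)) - (F (pd 0 (V * x)) * pd j X + F (pd 1 (V * x)) * pd j Y) =
        F V * (pd j (F x) - (F (pd 0 x) * pd j X + F (pd 1 x) * pd j Y))
      rw [pm, pm, p01, p11, map_mul, pm, hV, map_add, map_add, map_mul, map_mul, map_mul, map_mul,
        hV, map_one, map_zero]
      ring)
    (by show Hi 1 (F U); rw [hU]; exact SBB_hi1 _ hX)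
    (by show Hi 1 (F V); rw [hV]; exact SBB_hi1 _ hY) h
  exact sub_eq_zero.1 h3

/-- Automorphisms are substitutions. -/
theorem sb_aut (ψ : R2 ≃ₐ[ℂ] R2) :
    co (ψ U) 0 0 = 0 ∧ co (ψ V) 0 0 = 0 ∧ ∀ g, ψ g = sb (ψ U) (ψ V) g := by
  have key : ∀ x : R2, MvPowerSeries.constantCoeff x = 0 → co (ψ x) 0 0 = 0 := by
    intro x hx
    by_contra hcon
    rw [SBB_coe] at hcon
    have h1 : IsUnit (ψ x) := MvPowerSeries.isUnit_iff_constantCoeff.2 (isUnit_iff_ne_zero.2 hcon)
    have h2 : IsUnit x := by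
      have h3 := h1.map ψ.symm
      rwa [AlgEquiv.symm_apply_apply] at h3
    have h4 := MvPowerSeries.isUnit_iff_constantCoeff.1 h2
    rw [hx] at h4
    exact not_isUnit_zero h4
  have hU := key U (MvPowerSeries.constantCoeff_X _)
  have hV := key V (MvPowerSeries.constantCoeff_X _)
  refine ⟨hU, hV, fun g => ?_⟩
  obtain ⟨F, hF, fU, fV⟩ := sb_hom (ψ U) (ψ V) hU hV
  rw [← hF]
  exact SBB_ext (ψ : R2 →ₐ[ℂ] R2) F (SBB_hi1 _ hU) (SBB_hi1 _ hV) fU.symm fV.symm g

end Pool.Agent.H56.CT
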