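import Mathlib

/-!
# Germs of plane curves and their resolution trees

`Res g a b M`: a tree of blow-ups of points which resolves the germ `g` of a plane curve at a point
where the Jacobian of the previous blow-ups is `u^a v^b` up to a unit; `M` counts the strata with
their Euler characteristics.
-/

set_option autoImplicit false

namespace Pool.Agent.H56.CT

open Finset

/-- Germs of functions of two variables `u`, `v`. -/
abbrev R2 : Type := MvPowerSeries (Fin 2) ℂ

/-- The coordinate `u`. -/
noncomputable abbrev U : R2 := MvPowerSeries.X 0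

/-- The coordinate `v`. -/
noncomputable abbrev V : R2 := MvPowerSeries.X 1

/-- The coefficient of `u^i v^j`. -/
noncomputable def co (g : R2) (i j : ℕ) : ℂ :=
  MvPowerSeries.coeff (Finsupp.single 0 i + Finsupp.single 1 j) g

/-- `g(X, Y)`, for power series `X`, `Y` without constant term. -/
noncomputable def sb (X Y g : R2) : R2 := MvPowerSeries.subst ![X, Y] g

/-- The polynomial `g_N(1, z)`, where `g_N` is the homogeneous part of degree `N` of `g`. -/
noncomputable def ini (N : ℕ) (g : R2) : Polynomial ℂ :=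
  ∑ j ∈ range (N + 1), Polynomial.monomial j (co g (N - j) j)

/-- `g` has order `N`. -/
def Ord (g : R2) (N : ℕ) : Prop := (∀ i j, i + j < N → co g i j = 0) ∧ ini N g ≠ 0

/-- The types of the points of the resolution: the pull back of `f` is `u^{N1} v^{N2}` and that of
`dx ∧ dy` is `u^{ν1 - 1} v^{ν2 - 1} du ∧ dv` up to a unit, in suitable coordinates. -/
structure Str where
  /-- the multiplicity of the first divisor -/
  N1 : ℕ
  /-- the log discrepancy of the first divisor -/
  ν1 : ℕ
  /-- the multiplicity of the second divisor -/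
  N2 : ℕ
  /-- the log discrepancy of the second divisor -/
  ν2 : ℕ
  deriving DecidableEq

/-- `g`, of order `N`, does not have normal crossings with the exceptional divisors `u = 0` (if
`a > 0`) and `v = 0` (if `b > 0`).  Without exceptional divisors: `N ≥ 3`, or `N = 2` and there is
only one tangent.  With one exceptional divisor: the rest of `g`, restricted to this divisor, has
order `≥ 2`.  With two exceptional divisors: the rest of `g` is not a unit. -/
def NX (g : R2) (a b N : ℕ) : Prop :=
  (a = 0 → b = 0 → 3 ≤ N ∨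
    (N = 2 ∧ (ini N g).natDegree ≠ 1 ∧ ∀ c, (ini N g).rootMultiplicity c ≠ 1)) ∧
  (1 ≤ a → b = 0 → ∀ (n : ℕ) (s : R2), g = U ^ n * s → co s 0 0 = 0 ∧ co s 0 1 = 0) ∧
  (a = 0 → 1 ≤ b → ∀ (n : ℕ) (s : R2), g = V ^ n * s → co s 0 0 = 0 ∧ co s 1 0 = 0) ∧
  (1 ≤ a → 1 ≤ b → ∀ (n m : ℕ) (s : R2), g = U ^ n * V ^ m * s → ¬ IsUnit s)

/-- Resolution trees.  `leaf`: in suitable formal coordinates, in which the exceptional divisors
`u = 0` (if `a > 0`) and `v = 0` (if `b > 0`) are still given by these equations, `g` is
`u^{N1} v^{N2}`.  `blow`: the origin is blown up.  The exceptional divisor `E` has multiplicity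
`N` and log discrepancy `a + b + 2`; the finite set `S` of points of `E` contains the zeros of
`g_N(1, z)`, and `0` if `b > 0`; the other special point is the point at infinity.  The part of
`E` outside of these points has Euler characteristic `1 - |S|`. -/
inductive Res : R2 → ℕ → ℕ → (Str →₀ ℤ) → Prop
  | leaf (g : R2) (a b : ℕ) (ψ : R2 ≃ₐ[ℂ] R2) (N1 N2 : ℕ) (h : ψ g = U ^ N1 * V ^ N2)
      (hu : 1 ≤ a → Associated (ψ U) U) (hv : 1 ≤ b → Associated (ψ V) V) :
      Res g a b (Finsupp.single ⟨N1, a + 1, N2, b + 1⟩ 1)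
  | blow (g : R2) (a b N : ℕ) (hN : Ord g N) (hx : NX g a b N) (S : Finset ℂ)
      (hS : ∀ c, (ini N g).IsRoot c → c ∈ S) (h0 : 1 ≤ b → (0 : ℂ) ∈ S) (M : ℂ → (Str →₀ ℤ))
      (Mi : Str →₀ ℤ)
      (hM : ∀ c ∈ S, Res (sb U (U * (V + MvPowerSeries.C c)) g) (a + b + 1)
        (if c = 0 then b else 0) (M c))
      (hi : Res (sb (U * V) V g) a (a + b + 1) Mi) :
      Res g a b (∑ c ∈ S, M c + Mi +
        Finsupp.single ⟨N, a + b + 2, 0, 1⟩ (1 - (S.card : ℤ)))

end Pool.Agent.H56.CT
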