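import Pool.Agent.H22.T7.TDefs
import Pool.Agent.H22.T7.Defs
import Pool.Agent.H56.CT.SRes

/-!
# Compositions with germs of plane curves, and the topological zeta function with weights
-/

set_option autoImplicit false

namespace Pool.Agent.H56.CT

open Finset
open Pool.Agent.H22.T7

/-- The germ `𝒢(F_1(u_1, v_1), …, F_m(u_m, v_m))`, `𝒢 = ∑ κ_i x^{a_i}`, in the variables `(k, 0)`,
`(k, 1)`. -/
noncomputable def GC {m r : ℕ} (a : Fin r → (Fin m →₀ ℕ)) (κ : Fin r → ℂ) (F : Fin m → R2) :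
    MvPowerSeries (Fin m × Fin 2) ℂ :=
  ∑ i, MvPowerSeries.C (κ i) *
    ∏ k, (MvPowerSeries.rename (fun δ : Fin 2 => (k, δ)) (F k)) ^ a i k

/-- `∑ p_j w_j`. -/
def wsp {n : ℕ} (p : Fin n → ℚ) (w : Fin n → ℕ) : ℚ := ∑ j, p j * w j

/-- `J_τ(s) = Σ_C mult(C) ∏_c 1 / (ν·w_c + N(w_c) s)`. -/
noncomputable def JfunW {n r : ℕ} (ν : Fin n → ℚ) (a : Fin r → (Fin n →₀ ℕ))
    (τ : Finset (Fin r)) (𝒟 : H22.FaceCones a τ) : RatFunc ℂ :=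
  ∑ C, (H22.coneMult (𝒟.w C) : RatFunc ℂ) *
    ∏ c, (RatFunc.C ((wsp ν (𝒟.w C c) : ℚ) : ℂ) +
      (H22.wmin a (𝒟.w C c) : RatFunc ℂ) * RatFunc.X)⁻¹

open Classical in
/-- The local topological zeta function with weights:
`Z(s) = Σ_{τ vertex} J_τ(s) + (s / (s+1)) Σ_{dim τ ≥ 1} (-1)^{dim τ} (dim τ)! Vol(τ) J_τ(s)`, the
sums over the compact faces of the Newton polyhedron. -/
noncomputable def topZetaLW {n r : ℕ} (ν : Fin n → ℚ) (a : Fin r → (Fin n →₀ ℕ))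
    (𝒟 : ∀ τ, H22.FaceCones a τ) (𝒯 : ∀ τ, H22.FaceTriang a τ) : RatFunc ℂ :=
  ∑ τ ∈ univ.filter (fun τ : Finset (Fin r) => H22.T7.IsCFace a τ ∧ H22.faceRank a τ = 1),
      JfunW ν a τ (𝒟 τ) +
    RatFunc.X / (RatFunc.X + 1) *
      ∑ τ ∈ univ.filter (fun τ : Finset (Fin r) => H22.T7.IsCFace a τ ∧ 2 ≤ H22.faceRank a τ),
        (-1) ^ (H22.faceRank a τ - 1) * (H22.nvol (𝒯 τ) : RatFunc ℂ) * JfunW ν a τ (𝒟 τ)

end Pool.Agent.H56.CT
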