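import Pool.Agent.H56.CT.ODE

/-!
# SEA: the formal integrals over the fibres

`S = K⟦ρ⟧`, derivations `∂_ρ = derivative K` and `∂_z = dz D`; `τ = ρ^N h`, `constantCoeff h = h0 ≠ 0`; `κ N = ν`.  `γ : K → ℂ` linear with `γ(D P - κ (h0'/h0) P) = 0` for all `P ∈ K` (`h0' = D h0`).

Proof.  `h` is a unit.  `ht = C h0⁻¹ * h` has constant term `1`; `U` from `ode` (`κ` rational: `D κ = 0`).  So `∂_ρ U = -κ (∂_ρ h / h) U` (`∂_ρ ht / ht = ∂_ρ h / h`) and `∂_z U = -κ (∂_z h / h - D h0 / h0) U`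
(`dz D (C x) = C (D x)`).  `W_j = (h⁻¹)^j U`.  Definition: `coeff j (Φ c) = γ (coeff (ν + j N - 1) (W_j c))`; if `ν = 0` then `N κ = 0`, and the index `ν + j N - 1` is truncated for `j = 0`: we assume `0 < ν`.
Then (`m = ν + j N = (κ + j) N > 0`):
`∂_ρ W_j = -(j + κ) (h_ρ/h) W_j`,  `∂_z W_j = -(j + κ) (h_z/h) W_j + κ (h0'/h0) W_j`   (`h_ρ = ∂_ρ h`, `h_z = ∂_z h`; derivative of `h⁻¹`: from `h h⁻¹ = 1`).
(1) `coeff j (Φ (ρ^N h c))`: for `j = 0` it is `γ (coeff (ν-1) (U ρ^N h c)) = 0` since `c` has order `≥ ν - 1` and `N ≥ 1`; for `j = i + 1`: `W_j ρ^N h c = ρ^N W_i c` and `coeff (ν + j N - 1) = coeff (ν + i N - 1)` of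
`W_i c`.
(2) `∂_ρ τ = ρ^{N-1} (N h + ρ h_ρ)`, `∂_z τ = ρ^N h_z`, `W_{j+1} = W_j h⁻¹`.  So
`coeff (j+1) (Φ (∂_ρ τ B - ∂_z τ A)) = γ (coeff m (W_j h⁻¹ (N h + ρ h_ρ) B)) - γ (coeff (m-1) (W_j h⁻¹ h_z A))`.
`coeff j (Φ (∂_ρ B - ∂_z A)) = γ (coeff (m-1) (W_j ∂_ρ B - W_j ∂_z A))`.  `W_j ∂_ρ B = ∂_ρ (W_j B) - (∂_ρ W_j) B` and `coeff (m-1) (∂_ρ (W_j B)) = m coeff m (W_j B)`, so the `B`-part is
`γ ((κ+j) N coeff m (W_j B) + (κ+j) coeff (m-1) (h_ρ h⁻¹ W_j B)) = (κ+j) γ (coeff m (W_j h⁻¹ (N h + ρ h_ρ) B))`.  `W_j ∂_z A = ∂_z (W_j A) - (∂_z W_j) A`; with `x = coeff (m-1) (W_j A)`: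
`coeff (m-1) (∂_z (W_j A)) = D x`, so the `A`-part is `-γ (D x - κ (h0'/h0) x) - (κ+j) γ (coeff (m-1) (h_z h⁻¹ W_j A)) = -(κ+j) γ (coeff (m-1) (W_j h⁻¹ h_z A))`.
(3) `coeff 0 (Φ c) = γ (coeff (ν-1) (U c))`, and `c` has order `≥ ν-1`, `constantCoeff U = 1`.
(4) `c` has order `≥ ν + M - 1` and `ν + N j - 1 < ν + M - 1`.
Multiplication of `γ` by rational numbers: `γ ((q : K) * x) = (q : ℂ) * γ x` for rational `q` (`γ` is `ℂ`-linear, `(q : K) * x = (q : ℂ) • x`: `algebraMap ℂ K` preserves rational numbers, `map_ratCast`).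
-/

set_option autoImplicit false

namespace Pool.Agent.H56.CT

open PowerSeries

/-- SEA -/
theorem SEA_W {S : Type} [CommRing S] (d : S → S) (hd : ∀ x y, d (x * y) = x * d y + y * d x)
    (h hi U e q : S) (hhi : h * hi = 1) (h1 : d 1 = 0)
    (hU : d U = -(q * hi * d h * U) + e * U) (j : ℕ) :
    d (hi ^ j * U) = -((j + q) * hi * d h * (hi ^ j * U)) + e * (hi ^ j * U) := by
  have hdhi : d hi = -(hi * hi * d h) := by
    have e1 : h * d hi + hi * d h = 0 := by
      rw [← hd, hhi, h1]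
    have e2 : hi * (h * d hi + hi * d h) = 0 := by rw [e1, mul_zero]
    have e3 : hi * (h * d hi + hi * d h) = (h * hi) * d hi + hi * hi * d h := by ring
    rw [e3, hhi, one_mul] at e2
    linear_combination e2
  induction j with
  | zero =>
    simp only [pow_zero, one_mul, Nat.cast_zero, zero_add]
    rw [hU]
  | succ j ih =>
    have e4 : hi ^ (j + 1) * U = hi * (hi ^ j * U) := by ring
    rw [e4, hd, ih, hdhi]
    push_cast
    ring

/-- SEA -/
theorem sea {K : Type} [Field K] [Algebra ℂ K] [CharZero K] (D : Derivation ℂ K K)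
    (h : PowerSeries K) (h0 : K) (hh : constantCoeff h = h0) (hne : h0 ≠ 0) (N ν : ℕ)
    (hN : 0 < N) (hν : 0 < ν) (κ : ℚ) (hκ : κ * N = ν) (γ : K →ₗ[ℂ] ℂ)
    (hγ : ∀ P : K, γ (D P - (κ : K) * (D h0 / h0) * P) = 0) :
    ∃ Φ : PowerSeries K →ₗ[ℂ] PowerSeries ℂ,
      (∀ c, (∀ i, i + 1 < ν → coeff i c = 0) → Φ (X ^ N * h * c) = X * Φ c) ∧
      (∀ A B i, coeff i (Φ (PowerSeries.derivative K B - dz D A)) = ((κ : ℂ) + i) *
        coeff (i + 1) (Φ (PowerSeries.derivative K (X ^ N * h) * B - dz D (X ^ N * h) * A))) ∧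
      (∀ c, (∀ i, i + 1 < ν → coeff i c = 0) → coeff 0 (Φ c) = γ (coeff (ν - 1) c)) ∧
      (∀ (M : ℕ) c, (∀ i, i + 1 < ν + M → coeff i c = 0) → ∀ j, N * j < M →
        coeff j (Φ c) = 0) := by
  classical
  have hDκ : D (κ : K) = 0 := by
    have : (κ : K) = algebraMap ℂ K (κ : ℂ) := by rw [map_ratCast]
    rw [this, D.map_algebraMap]
  have hγq : ∀ (q : ℚ) (x : K), γ ((q : K) * x) = (q : ℂ) * γ x := by
    intro q x
    have : (q : K) * x = (q : ℂ) • x := by
      rw [Algebra.smul_def, map_ratCast]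
    rw [this, map_smul, smul_eq_mul]
  -- the inverse of `h`
  obtain ⟨hi, hhi⟩ : ∃ hi : PowerSeries K, h * hi = 1 :=
    ⟨h⁻¹, PowerSeries.mul_inv_cancel h (by rw [hh]; exact hne)⟩
  have hhi' : hi * h = 1 := by rw [mul_comm]; exact hhi
  -- constants
  have hdzC : ∀ a : K, dz D (C a) = C (D a) := by
    intro a
    ext n
    rw [coeff_dz, coeff_C, coeff_C]
    split_ifs
    · rfl
    · rw [map_zero]
  have hdzX : ∀ n : ℕ, dz D ((X : PowerSeries K) ^ n) = 0 := by
    intro n
    ext m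
    rw [coeff_dz, coeff_X_pow]
    split_ifs
    · rw [D.map_one_eq_zero, map_zero]
    · rw [map_zero, map_zero]
  obtain ⟨U, hU1, hUr, hUz⟩ := ode D (C h0⁻¹ * h)
    (by rw [map_mul, hh, constantCoeff_C, inv_mul_cancel₀ hne]) (κ : K) hDκ
  have hC0 : (C h0 : PowerSeries K) * C h0⁻¹ = 1 := by
    rw [← map_mul, mul_inv_cancel₀ hne, map_one]
  have hderC : ∀ (a : K) (g : PowerSeries K),
      PowerSeries.derivative K (C a * g) = C a * PowerSeries.derivative K g := by
    intro a g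
    rw [← smul_eq_C_mul, ← smul_eq_C_mul, Derivation.map_smul]
  rw [hderC] at hUr
  rw [Derivation.leibniz, hdzC, smul_eq_mul, smul_eq_mul] at hUz
  -- the equations of `U`
  have hUr' : PowerSeries.derivative K U =
      -(C (κ : K) * hi * PowerSeries.derivative K h * U) + 0 * U := by
    have e1 : (C h0 * C h0⁻¹) * (h * hi) * PowerSeries.derivative K U =
        -((C h0 * C h0⁻¹) * C (κ : K) * hi * PowerSeries.derivative K h * U) := by
      linear_combination (C h0 * hi) * hUr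
    rw [hC0, hhi] at e1
    linear_combination e1
  have hDinv : D h0⁻¹ = -(h0⁻¹ * h0⁻¹ * D h0) := by
    have e1 : D (h0 * h0⁻¹) = 0 := by rw [mul_inv_cancel₀ hne, D.map_one_eq_zero]
    rw [Derivation.leibniz, smul_eq_mul, smul_eq_mul] at e1
    have e2 : h0⁻¹ * (h0 * D h0⁻¹ + h0⁻¹ * D h0) = 0 := by rw [e1, mul_zero]
    have e3 : h0⁻¹ * h0 = 1 := inv_mul_cancel₀ hne
    linear_combination e2 - (D h0⁻¹) * e3
  have hUz' : dz D U = -(C (κ : K) * hi * dz D h * U) + C ((κ : K) * (D h0 / h0)) * U := by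
    have e0 : (C h0 : PowerSeries K) * C (D h0⁻¹) = - C (D h0 / h0) := by
      rw [← map_mul, ← map_neg, hDinv]
      congr 1
      field_simp
    have e1 : (C h0 * C h0⁻¹) * (h * hi) * dz D U =
        -(C (κ : K) * ((C h0 * C h0⁻¹) * hi * dz D h + (h * hi) * (C h0 * C (D h0⁻¹))) * U) := by
      linear_combination (C h0 * hi) * hUz
    rw [hC0, hhi, e0] at e1
    rw [map_mul]
    linear_combination e1
  -- the equations of `W_j`
  have hWr : ∀ j : ℕ, PowerSeries.derivative K (hi ^ j * U) =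
      -(((j : PowerSeries K) + C (κ : K)) * hi * PowerSeries.derivative K h * (hi ^ j * U))
        + 0 * (hi ^ j * U) := by
    intro j
    refine SEA_W (fun x => PowerSeries.derivative K x) ?_ h hi U 0 (C (κ : K)) hhi ?_ hUr' j
    · intro x y
      change PowerSeries.derivative K (x * y) = _
      rw [Derivation.leibniz, smul_eq_mul, smul_eq_mul]
    · exact Derivation.map_one_eq_zero _
  have hWz : ∀ j : ℕ, dz D (hi ^ j * U) =
      -(((j : PowerSeries K) + C (κ : K)) * hi * dz D h * (hi ^ j * U))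
        + C ((κ : K) * (D h0 / h0)) * (hi ^ j * U) := by
    intro j
    refine SEA_W (fun x => dz D x) ?_ h hi U (C ((κ : K) * (D h0 / h0))) (C (κ : K)) hhi ?_ hUz' j
    · intro x y
      change dz D (x * y) = _
      rw [Derivation.leibniz, smul_eq_mul, smul_eq_mul]
    · exact Derivation.map_one_eq_zero _
  -- the map
  let Φ : PowerSeries K →ₗ[ℂ] PowerSeries ℂ :=
    { toFun := fun c => PowerSeries.mk fun j => γ (coeff (ν + j * N - 1) (hi ^ j * U * c))
      map_add' := by
        intro x y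
        ext n
        simp [mul_add]
      map_smul' := by
        intro z x
        ext n
        simp }
  have hΦ : ∀ c j, coeff j (Φ c) = γ (coeff (ν + j * N - 1) (hi ^ j * U * c)) := by
    intro c j
    change coeff j (PowerSeries.mk fun j => γ (coeff (ν + j * N - 1) (hi ^ j * U * c))) = _
    rw [coeff_mk]
  have hdvd : ∀ (n : ℕ) (c : PowerSeries K), (∀ i, i + 1 < n → coeff i c = 0) →
      X ^ (n - 1) ∣ c := by
    intro n c hc
    rw [X_pow_dvd_iff]
    intro m hm
    exact hc m (by omega)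
  refine ⟨Φ, ?_, ?_, ?_, ?_⟩
  · intro c hc
    ext j
    rw [hΦ]
    rcases j with _ | j
    · rw [coeff_zero_X_mul]
      have e1 : coeff (ν + 0 * N - 1) (hi ^ 0 * U * (X ^ N * h * c)) = 0 := by
        obtain ⟨r, hr⟩ := hdvd ν c hc
        have : (X : PowerSeries K) ^ (N + (ν - 1)) ∣ hi ^ 0 * U * (X ^ N * h * c) := by
          refine ⟨hi ^ 0 * U * h * r, ?_⟩
          rw [hr, pow_add]
          ring
        exact (X_pow_dvd_iff.1 this) _ (by omega)
      rw [e1, map_zero]
    · rw [coeff_succ_X_mul, hΦ]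
      have e1 : hi ^ (j + 1) * U * (X ^ N * h * c) = X ^ N * (hi ^ j * U * c) := by
        have : hi ^ (j + 1) * U * (X ^ N * h * c) = (h * hi) * (X ^ N * (hi ^ j * U * c)) := by
          ring
        rw [this, hhi, one_mul]
      have e2 : ν + (j + 1) * N - 1 = (ν + j * N - 1) + N := by
        rw [add_mul, one_mul]
        omega
      rw [e1, e2, coeff_X_pow_mul]
  · intro A B i
    obtain ⟨k, hk⟩ : ∃ k, ν + i * N = k + 1 := ⟨ν + i * N - 1, by omega⟩
    obtain ⟨N', rfl⟩ : ∃ N', N = N' + 1 := ⟨N - 1, by omega⟩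
    rw [hΦ, hΦ]
    have i1 : ν + i * (N' + 1) - 1 = k := by omega
    have i2 : ν + (i + 1) * (N' + 1) - 1 = (k + 1) + N' := by
      rw [add_mul, one_mul]
      omega
    rw [i1, i2]
    set W := hi ^ i * U with hW
    -- the left side
    have hWr' := hWr i
    have hWz' := hWz i
    rw [← hW] at hWr' hWz'
    have hnat : ((i : PowerSeries K) + C (κ : K)) = C ((i : K) + (κ : K)) := by
      rw [map_add, map_natCast]
    rw [hnat] at hWr' hWz'
    set p := coeff (k + 1) (W * B) with hp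
    set r := coeff k (hi * PowerSeries.derivative K h * W * B) with hr
    set s := coeff k (hi * dz D h * W * A) with hs
    set x := coeff k (W * A) with hx
    have L1 : W * PowerSeries.derivative K B = PowerSeries.derivative K (W * B)
        + C ((i : K) + (κ : K)) * (hi * PowerSeries.derivative K h * W * B) := by
      rw [Derivation.leibniz, smul_eq_mul, smul_eq_mul, hWr']
      ring
    have L2 : W * dz D A = dz D (W * A)
        + C ((i : K) + (κ : K)) * (hi * dz D h * W * A) - C ((κ : K) * (D h0 / h0)) * (W * A) := by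
      rw [Derivation.leibniz, smul_eq_mul, smul_eq_mul, hWz']
      ring
    have L3 : coeff k (W * (PowerSeries.derivative K B - dz D A)) =
        (p * ((k : K) + 1) + ((i : K) + (κ : K)) * r)
          - (D x + ((i : K) + (κ : K)) * s - ((κ : K) * (D h0 / h0)) * x) := by
      have hs1 : ∀ a b : PowerSeries K, coeff k (a - b) = coeff k a - coeff k b :=
        fun a b => map_sub _ a b
      have ha1 : ∀ a b : PowerSeries K, coeff k (a + b) = coeff k a + coeff k b :=
        fun a b => map_add _ a b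
      rw [mul_sub, L1, L2, hs1, ha1, hs1, ha1, coeff_C_mul, coeff_C_mul,
        coeff_C_mul, coeff_dz]
      congr 2
      exact coeff_derivative _ _
    -- the right side
    have R1 : PowerSeries.derivative K (X ^ (N' + 1) * h) =
        X ^ N' * (C ((N' : K) + 1) * h + X * PowerSeries.derivative K h) := by
      rw [Derivation.leibniz, smul_eq_mul, smul_eq_mul, Derivation.leibniz_pow, derivative_X]
      rw [map_add, map_natCast, map_one]
      simp only [smul_eq_mul, nsmul_eq_mul, Nat.add_sub_cancel]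
      push_cast
      ring
    have R2 : dz D (X ^ (N' + 1) * h) = X ^ N' * (X * dz D h) := by
      rw [Derivation.leibniz, smul_eq_mul, smul_eq_mul, hdzX]
      ring
    have R3 : hi ^ (i + 1) * U * (PowerSeries.derivative K (X ^ (N' + 1) * h) * B
        - dz D (X ^ (N' + 1) * h) * A) =
        X ^ N' * (C ((N' : K) + 1) * (W * B)
          + X * (hi * PowerSeries.derivative K h * W * B) - X * (hi * dz D h * W * A)) := by
      rw [R1, R2]
      have : hi ^ (i + 1) * U = hi * W := by rw [hW]; ring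
      rw [this]
      linear_combination (X ^ N' * C ((N' : K) + 1) * W * B) * hhi
    have R4 : coeff ((k + 1) + N') (hi ^ (i + 1) * U *
        (PowerSeries.derivative K (X ^ (N' + 1) * h) * B - dz D (X ^ (N' + 1) * h) * A)) =
        ((N' : K) + 1) * p + r - s := by
      have hs1 : ∀ a b : PowerSeries K, coeff (k + 1) (a - b) = coeff (k + 1) a - coeff (k + 1) b :=
        fun a b => map_sub _ a b
      have ha1 : ∀ a b : PowerSeries K, coeff (k + 1) (a + b) = coeff (k + 1) a + coeff (k + 1) b :=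
        fun a b => map_add _ a b
      rw [R3, coeff_X_pow_mul, hs1, ha1, coeff_C_mul, coeff_succ_X_mul, coeff_succ_X_mul]
    rw [L3, R4]
    have hkκ : (k : K) + 1 = ((i : K) + (κ : K)) * ((N' : K) + 1) := by
      have e1 : ((k : K) + 1) = ((k + 1 : ℕ) : K) := by push_cast; ring
      have e2 : ((κ * ((N' + 1 : ℕ) : ℚ) : ℚ) : K) = ((ν : ℚ) : K) := by rw [hκ]
      rw [e1, ← hk]
      push_cast at e2 ⊢
      linear_combination -e2
    have F1 : (p * ((k : K) + 1) + ((i : K) + (κ : K)) * r)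
          - (D x + ((i : K) + (κ : K)) * s - ((κ : K) * (D h0 / h0)) * x) =
        (((κ + (i : ℚ) : ℚ)) : K) * (((N' : K) + 1) * p + r - s)
          - (D x - (κ : K) * (D h0 / h0) * x) := by
      rw [hkκ]
      push_cast
      ring
    rw [F1, map_sub, hγ, sub_zero, hγq]
    push_cast
    ring
  · intro c hc
    rw [hΦ]
    obtain ⟨r, hr⟩ := hdvd ν c hc
    have e1 : coeff (ν + 0 * N - 1) (hi ^ 0 * U * c) = coeff (ν - 1) c := by
      rw [zero_mul, add_zero, pow_zero, one_mul, hr]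
      have : U * (X ^ (ν - 1) * r) = X ^ (ν - 1) * (U * r) := by ring
      rw [this]
      have e2 : ν - 1 = 0 + (ν - 1) := by omega
      have e3 : ∀ q : PowerSeries K, coeff (ν - 1) (X ^ (ν - 1) * q) = coeff 0 q := by
        intro q
        have := coeff_X_pow_mul q (ν - 1) 0
        rwa [zero_add] at this
      rw [e3, e3, coeff_zero_eq_constantCoeff, map_mul, hU1, one_mul]
    rw [e1]
  · intro M c hc j hj
    rw [hΦ]
    obtain ⟨r, hr⟩ := hdvd (ν + M) c hc
    have e1 : coeff (ν + j * N - 1) (hi ^ j * U * c) = 0 := by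
      have : (X : PowerSeries K) ^ (ν + M - 1) ∣ hi ^ j * U * c := by
        refine ⟨hi ^ j * U * r, ?_⟩
        rw [hr]
        ring
      refine (X_pow_dvd_iff.1 this) _ ?_
      have : j * N = N * j := mul_comm _ _
      omega
    rw [e1, map_zero]

end Pool.Agent.H56.CT
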