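import Pool.Agent.H56.CT.Defs

/-!
# SEC: `z^b` is not exact

Notation: `ν = a + b + 2`, `κ = ν/N`, `0 < κ < 1`; `e_c = ec h0 c`, `β_c = bc b c` = the order of `z^b` at `c`.

Proof.  Suppose `D P - κ (h0'/h0) P = z^b`.  Write `P = p/q` with coprime polynomials (`P.num`, `P.denom`); `D P = (p' q - p q')/q²` (from `hD`: `D (P q) = D p`).  Multiplying with `h0 q²`:
(1)  `(p' q - p q') h0 - κ h0' p q = z^b h0 q²` in `ℂ[z]` (`algebraMap` is injective).  `p ≠ 0`.
Local step at `c ∈ ℂ`: `p = (z-c)^{m1} p1`, `q = (z-c)^{m2} q1`, `h0 = (z-c)^e h1`, `z^b = (z-c)^β z1`, with `p1, q1, h1, z1` nonzero at `c` (`Polynomial.exists_eq_pow_rootMultiplicity_mul_and_not_dvd`), `m = m1 - m2`,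
`e = e_c`, `β = β_c`.  Multiply (1) with `z - c`; the left side is `(z-c)^{m1+m2+e} B`, `B = (m1 - m2 - κ e) p1 q1 h1 + (z-c) (p1' q1 h1 - p1 q1' h1 - κ h1' p1 q1)`, the right side `(z-c)^{β+e+2 m2+1} z1 h1 q1²`.  So:
(2) if `m ≠ κ e` then `m1 + m2 + e = β + e + 2 m2 + 1`, i.e. `m = β + 1`;  (3) if `m = κ e` then `m1 + m2 + e + 1 ≤ β + e + 2 m2 + 1`, i.e. `κ e = m ≤ β`.
If `e = 0`: `m = β + 1` or `m = 0`, so `m ≥ 0`.  If `e ≥ 1`: `κ e > β` (`β = 0` unless `c = 0`, `b ≥ 1`, and then this is `hb`), so (3) is impossible, `m = β + 1` and `κ e ≠ β + 1`.  So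
(4) `P` has no poles: `q` has no roots (coprime: `min m1 m2 = 0`), `q` is constant, and we may take `q = 1`, `P = p`, `p' h0 - κ h0' p = z^b h0`;
(5) for every root `c` of `h0`: `(z-c)^{β_c+1} ∣ p` and `κ e_c ≠ β_c + 1`.  If `b ≥ 1` then `0` is a root of `h0` (`hb` gives `e_0 > 0`).
Degrees: `d = deg p ≥ ∑_{roots c} (β_c + 1)` (product of coprime factors), which is `#roots + b` if `0` is a root, `#roots` otherwise (then `b = 0`); in both cases `d ≥ #roots + b`.
The coefficient of degree `d - 1 + deg h0` on the left is `(d - κ deg h0) lc(p) lc(h0)` (compare coefficients after multiplication with `z`).  The right side has degree `b + deg h0`.  So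
(6) if `d ≠ κ deg h0` then `d = b + 1`;  (7) if `d = κ deg h0` then `b < d - 1`, i.e. `d ≥ b + 2`.
Put `e∞ = N - deg h0`; `κ deg h0 = ν - κ e∞`.
Case A: `a ≥ 1` or `e∞ ≥ 1`.  Then `κ e∞ > a` (`ha`, or `a = 0`, `e∞ ≥ 1`), so `κ deg h0 < b + 2` and (7) is impossible; so `d = b + 1 ≠ κ deg h0`, i.e. `κ e∞ ≠ a + 1`; `#roots + b ≤ b + 1`, so `#roots ≤ 1`,
and `spc h0 b` (= the set of roots, since `0` is a root if `b ≥ 1`) has at most one element.  So `Contr` is false: first part: at roots `κ e_c ≠ β_c + 1`; at other points `e_c = 0` and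
`N (β_c + 1) ≠ 0`; second part: `κ e∞ ≠ a + 1`; third part: `1 + 1 < 3`.
Case B: `a = 0`, `deg h0 = N`.  `κ deg h0 = b + 2`, so `d ≤ b + 2` by (6), (7), `#roots ≤ 2`; `Contr` is false: second part: `N (a+1) ≠ 0`; third part: `2 + 0 < 3`.
-/

set_option autoImplicit false

namespace Pool.Agent.H56.CT

open Finset

section loc

open Polynomial

/-- comparison of orders -/
theorem SEC_ord {c : ℂ} {B R : ℂ[X]} {i j : ℕ} (h : (X - C c) ^ i * B = (X - C c) ^ j * R)
    (hR : R.eval c ≠ 0) : (B.eval c ≠ 0 ∧ i = j) ∨ (B.eval c = 0 ∧ i < j) := by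
  have hT : (X - C c : ℂ[X]) ≠ 0 := X_sub_C_ne_zero c
  rcases lt_trichotomy i j with hij | hij | hij
  · right
    obtain ⟨k, rfl⟩ := Nat.exists_eq_add_of_lt hij
    have h1 : (X - C c) ^ i * B = (X - C c) ^ i * ((X - C c) ^ (k + 1) * R) := by
      rw [h, ← mul_assoc, ← pow_add]
      rfl
    have h2 := mul_left_cancel₀ (pow_ne_zero i hT) h1
    refine ⟨?_, hij⟩
    rw [h2]
    simp
  · left
    subst hij
    have h2 := mul_left_cancel₀ (pow_ne_zero i hT) h
    rw [h2]
    exact ⟨hR, rfl⟩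
  · exfalso
    obtain ⟨k, rfl⟩ := Nat.exists_eq_add_of_lt hij
    have h1 : (X - C c) ^ j * R = (X - C c) ^ j * ((X - C c) ^ (k + 1) * B) := by
      rw [← h, ← mul_assoc, ← pow_add]
      rfl
    have h2 := mul_left_cancel₀ (pow_ne_zero j hT) h1
    apply hR
    rw [h2]
    simp

/-- splitting off the zero at `c` -/
theorem SEC_dec {f : ℂ[X]} (hf : f ≠ 0) (c : ℂ) : ∃ (m : ℕ) (f1 : ℂ[X]), f.rootMultiplicity c = m ∧
    f = (X - C c) ^ m * f1 ∧ f1.eval c ≠ 0 ∧
    (X - C c) * derivative f = (X - C c) ^ m * (C (m : ℂ) * f1 + (X - C c) * derivative f1) := by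
  obtain ⟨f1, h1, h2⟩ := exists_eq_pow_rootMultiplicity_mul_and_not_dvd f hf c
  obtain ⟨m, hm⟩ : ∃ m, f.rootMultiplicity c = m := ⟨_, rfl⟩
  rw [hm] at h1
  refine ⟨m, f1, hm, h1, ?_, ?_⟩
  · intro h3
    exact h2 (dvd_iff_isRoot.2 h3)
  · rw [h1, derivative_mul, derivative_X_sub_C_pow]
    cases m with
    | zero =>
      simp
    | succ m =>
      rw [Nat.add_sub_cancel]
      ring

theorem SEC_loc {p q h0 z : ℂ[X]} {k : ℂ} (hp : p ≠ 0) (hq : q ≠ 0) (hh : h0 ≠ 0) (hz : z ≠ 0)
    (h : (derivative p * q - p * derivative q) * h0 - C k * derivative h0 * p * q = z * h0 * q ^ 2) (c : ℂ) :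
    ((p.rootMultiplicity c : ℂ) - q.rootMultiplicity c ≠ k * h0.rootMultiplicity c ∧
      p.rootMultiplicity c = z.rootMultiplicity c + q.rootMultiplicity c + 1) ∨
    ((p.rootMultiplicity c : ℂ) - q.rootMultiplicity c = k * h0.rootMultiplicity c ∧
      p.rootMultiplicity c ≤ z.rootMultiplicity c + q.rootMultiplicity c) := by
  obtain ⟨m1, p1, hm1, ep, hp1, dp⟩ := SEC_dec hp c
  obtain ⟨m2, q1, hm2, eq, hq1, dq⟩ := SEC_dec hq c
  obtain ⟨e, h1, hm3, eh, hh1, dh⟩ := SEC_dec hh c
  obtain ⟨β, z1, hm4, ez, hz1, -⟩ := SEC_dec hz c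
  rw [hm1, hm2, hm3, hm4]
  set T : ℂ[X] := X - C c with hT
  set B : ℂ[X] := (C (m1 : ℂ) * p1 + T * derivative p1) * q1 * h1 - p1 * (C (m2 : ℂ) * q1 + T * derivative q1) * h1 -
    C k * (C (e : ℂ) * h1 + T * derivative h1) * p1 * q1 with hB
  have key : T ^ (m1 + m2 + e) * B = T ^ (β + e + 2 * m2 + 1) * (z1 * h1 * q1 ^ 2) := by
    calc T ^ (m1 + m2 + e) * B
        = (T ^ m1 * (C (m1 : ℂ) * p1 + T * derivative p1)) * (T ^ m2 * q1) * (T ^ e * h1) -
          (T ^ m1 * p1) * (T ^ m2 * (C (m2 : ℂ) * q1 + T * derivative q1)) * (T ^ e * h1) -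
          C k * (T ^ e * (C (e : ℂ) * h1 + T * derivative h1)) * (T ^ m1 * p1) * (T ^ m2 * q1) := by
          rw [hB, pow_add, pow_add]
          ring
      _ = (T * derivative p) * q * h0 - p * (T * derivative q) * h0 - C k * (T * derivative h0) * p * q := by
          rw [← dp, ← dq, ← dh, ← ep, ← eq, ← eh]
      _ = T * ((derivative p * q - p * derivative q) * h0 - C k * derivative h0 * p * q) := by ring
      _ = T * (z * h0 * q ^ 2) := by rw [h]
      _ = T * ((T ^ β * z1) * (T ^ e * h1) * (T ^ m2 * q1) ^ 2) := by rw [← ez, ← eh, ← eq]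
      _ = _ := by
          rw [pow_add, pow_add, pow_add, pow_mul']
          ring
  have hBe : B.eval c = ((m1 : ℂ) - m2 - k * e) * (p1.eval c * q1.eval c * h1.eval c) := by
    rw [hB, hT]
    simp
    ring
  have hu : p1.eval c * q1.eval c * h1.eval c ≠ 0 := mul_ne_zero (mul_ne_zero hp1 hq1) hh1
  have hR : (z1 * h1 * q1 ^ 2).eval c ≠ 0 := by
    rw [eval_mul, eval_mul, eval_pow]
    exact mul_ne_zero (mul_ne_zero hz1 hh1) (pow_ne_zero 2 hq1)
  rcases SEC_ord key hR with ⟨h2, h3⟩ | ⟨h2, h3⟩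
  · left
    refine ⟨fun h4 => h2 ?_, by omega⟩
    rw [hBe, h4, sub_self, zero_mul]
  · right
    refine ⟨?_, by omega⟩
    rw [hBe] at h2
    rcases mul_eq_zero.1 h2 with h4 | h4
    · exact sub_eq_zero.1 h4
    · exact absurd h4 hu

theorem SEC_cast {N ν m1 m2 e : ℕ} (hN : 0 < N) :
    (m1 : ℂ) - m2 = (ν : ℂ) / N * e ↔ N * m1 = N * m2 + ν * e := by
  have hN' : (N : ℂ) ≠ 0 := by exact_mod_cast hN.ne'
  rw [sub_eq_iff_eq_add, div_mul_eq_mul_div, div_add' _ _ _ hN', eq_div_iff hN']
  constructor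
  · intro h
    have h2 : ((N * m1 : ℕ) : ℂ) = ((N * m2 + ν * e : ℕ) : ℂ) := by
      push_cast
      linear_combination h
    exact_mod_cast h2
  · intro h
    have h2 : ((N * m1 : ℕ) : ℂ) = ((N * m2 + ν * e : ℕ) : ℂ) := by rw [h]
    push_cast at h2
    linear_combination h2

theorem SEC_coeff (f : ℂ[X]) (n : ℕ) : (X * derivative f).coeff n = n * f.coeff n := by
  cases n with
  | zero => simp
  | succ n =>
    rw [coeff_X_mul, coeff_derivative]
    push_cast
    ring

theorem SEC_nd (f : ℂ[X]) : (X * derivative f).natDegree ≤ f.natDegree := by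
  rw [natDegree_le_iff_coeff_eq_zero]
  intro n hn
  rw [SEC_coeff, coeff_eq_zero_of_natDegree_lt hn, mul_zero]

theorem SEC_deg {p h0 : ℂ[X]} {k : ℂ} {b : ℕ} (hp : p ≠ 0) (hh : h0 ≠ 0)
    (h : derivative p * h0 - C k * derivative h0 * p = X ^ b * h0) :
    (p.natDegree = b + 1 ∧ (p.natDegree : ℂ) ≠ k * h0.natDegree) ∨
      (b + 2 ≤ p.natDegree ∧ (p.natDegree : ℂ) = k * h0.natDegree) := by
  have e1 : (X * derivative p) * h0 - C k * ((X * derivative h0) * p) = X ^ (b + 1) * h0 := by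
    have h1 : (X ^ (b + 1) * h0 : ℂ[X]) = X * (X ^ b * h0) := by ring
    rw [h1, ← h]
    ring
  have hlh : h0.coeff h0.natDegree ≠ 0 := leadingCoeff_ne_zero.2 hh
  have hlp : p.coeff p.natDegree ≠ 0 := leadingCoeff_ne_zero.2 hp
  have e2 : ((X * derivative p) * h0 - C k * ((X * derivative h0) * p)).coeff (p.natDegree + h0.natDegree) =
      ((p.natDegree : ℂ) - k * h0.natDegree) * (p.coeff p.natDegree * h0.coeff h0.natDegree) := by
    rw [coeff_sub, coeff_C_mul, coeff_mul_add_eq_of_natDegree_le (SEC_nd p) le_rfl, add_comm p.natDegree,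
      coeff_mul_add_eq_of_natDegree_le (SEC_nd h0) le_rfl, SEC_coeff, SEC_coeff]
    ring
  have e3 : ∀ n, p.natDegree + h0.natDegree < n →
      ((X * derivative p) * h0 - C k * ((X * derivative h0) * p)).coeff n = 0 := by
    intro n hn
    have h1 : ((X * derivative p) * h0).natDegree ≤ p.natDegree + h0.natDegree :=
      natDegree_mul_le_of_le (SEC_nd p) le_rfl
    have h2 : ((X * derivative h0) * p).natDegree ≤ h0.natDegree + p.natDegree :=
      natDegree_mul_le_of_le (SEC_nd h0) le_rfl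
    rw [coeff_sub, coeff_C_mul, coeff_eq_zero_of_natDegree_lt (by omega), coeff_eq_zero_of_natDegree_lt (by omega)]
    simp
  rcases lt_trichotomy p.natDegree (b + 1) with h1 | h1 | h1
  · exfalso
    have h2 := e3 (h0.natDegree + (b + 1)) (by omega)
    rw [e1, coeff_X_pow_mul] at h2
    exact hlh h2
  · left
    refine ⟨h1, fun h2 => ?_⟩
    rw [h2, sub_self, zero_mul, e1, h1, add_comm (b + 1) h0.natDegree, coeff_X_pow_mul] at e2
    exact hlh e2
  · right
    refine ⟨h1, ?_⟩
    rw [e1, coeff_X_pow_mul', if_pos (by omega), coeff_eq_zero_of_natDegree_lt (by omega)] at e2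
    rcases mul_eq_zero.1 e2.symm with h2 | h2
    · exact sub_eq_zero.1 h2
    · exact absurd h2 (mul_ne_zero hlp hlh)

theorem SEC_Xpow (b : ℕ) (c : ℂ) : (X ^ b : ℂ[X]).rootMultiplicity c = bc b c := by
  unfold bc
  split_ifs with h
  · subst h
    have e : (X ^ b : ℂ[X]) = (X - C (0 : ℂ)) ^ b := by simp
    rw [e, rootMultiplicity_X_sub_C_pow]
  · refine rootMultiplicity_eq_zero ?_
    rw [IsRoot, eval_pow, eval_X]
    exact pow_ne_zero b h

theorem SEC_sum {p : ℂ[X]} (s : Finset ℂ) : ∑ c ∈ s, p.rootMultiplicity c ≤ p.natDegree := by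
  classical
  have h1 : ∑ c ∈ s, p.rootMultiplicity c ≤ ∑ c ∈ s ∪ p.roots.toFinset, p.rootMultiplicity c :=
    sum_le_sum_of_subset subset_union_left
  have h2 : ∑ c ∈ s ∪ p.roots.toFinset, p.rootMultiplicity c = p.roots.card := by
    rw [← Multiset.sum_count_eq_card (s := s ∪ p.roots.toFinset) (m := p.roots)
      (fun a ha => mem_union_right _ (Multiset.mem_toFinset.2 ha))]
    exact sum_congr rfl fun c _ => (count_roots p).symm
  exact h1.trans (h2.le.trans (card_roots' p))

/-- the polynomial identity -/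
theorem SEC_poly (D : Derivation ℂ (RatFunc ℂ) (RatFunc ℂ))
    (hD : ∀ p : Polynomial ℂ, D (algebraMap (Polynomial ℂ) (RatFunc ℂ) p) =
      algebraMap (Polynomial ℂ) (RatFunc ℂ) (Polynomial.derivative p))
    {h0 : ℂ[X]} (hh : h0 ≠ 0) {k : ℂ} {b : ℕ} {P : RatFunc ℂ}
    (h : D P - RatFunc.C k * (algebraMap (Polynomial ℂ) (RatFunc ℂ) (derivative h0) /
        algebraMap (Polynomial ℂ) (RatFunc ℂ) h0) * P = RatFunc.X ^ b) :
    (derivative P.num * P.denom - P.num * derivative P.denom) * h0 - C k * derivative h0 * P.num * P.denom =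
      X ^ b * h0 * P.denom ^ 2 := by
  set φ := algebraMap (Polynomial ℂ) (RatFunc ℂ) with hφ
  have hinj : Function.Injective φ := RatFunc.algebraMap_injective ℂ
  have hq0 : φ P.denom ≠ 0 := by
    intro h1
    exact P.denom_ne_zero (hinj (by rw [h1, map_zero]))
  have hh0 : φ h0 ≠ 0 := by
    intro h1
    exact hh (hinj (by rw [h1, map_zero]))
  have hPq : P * φ P.denom = φ P.num := ((div_eq_iff hq0).1 (RatFunc.num_div_denom P)).symm
  have h1 : P * φ (derivative P.denom) + φ P.denom * D P = φ (derivative P.num) := by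
    have h2 := congrArg D hPq
    rw [Derivation.leibniz, hD, hD, smul_eq_mul, smul_eq_mul] at h2
    exact h2
  apply hinj
  have hC : φ (C k) = RatFunc.C k := RatFunc.algebraMap_C k
  have hX : φ X = RatFunc.X := RatFunc.algebraMap_X
  simp only [map_sub, map_mul, map_pow]
  rw [hC, hX, ← h, ← hPq]
  have h3 : φ (derivative P.num) = P * φ (derivative P.denom) + φ P.denom * D P := h1.symm
  rw [h3]
  field_simp
  ring

end loc

/-- SEC -/
theorem sec (D : Derivation ℂ (RatFunc ℂ) (RatFunc ℂ))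
    (hD : ∀ p : Polynomial ℂ, D (algebraMap (Polynomial ℂ) (RatFunc ℂ) p) =
      algebraMap (Polynomial ℂ) (RatFunc ℂ) (Polynomial.derivative p))
    (h0 : Polynomial ℂ) (hh : h0 ≠ 0) (N a b : ℕ) (hN : h0.natDegree ≤ N) (hν : a + b + 2 < N)
    (hb : 1 ≤ b → b * N < (a + b + 2) * ec h0 0)
    (ha : 1 ≤ a → a * N < (a + b + 2) * (N - h0.natDegree)) (hc : Contr h0 N a b)
    (P : RatFunc ℂ) :
    D P - RatFunc.C (((a + b + 2 : ℕ) : ℂ) / N) *
      (algebraMap (Polynomial ℂ) (RatFunc ℂ) (Polynomial.derivative h0) /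
        algebraMap (Polynomial ℂ) (RatFunc ℂ) h0) * P ≠ RatFunc.X ^ b := by
  classical
  intro heq
  have hN0 : 0 < N := by omega
  have hpoly := SEC_poly D hD hh heq
  have hq : P.denom ≠ 0 := P.denom_ne_zero
  have hX0 : (Polynomial.X ^ b : Polynomial ℂ) ≠ 0 := pow_ne_zero _ Polynomial.X_ne_zero
  have hp : P.num ≠ 0 := by
    intro h1
    rw [h1] at hpoly
    simp only [Polynomial.derivative_zero, zero_mul, mul_zero, sub_zero] at hpoly
    exact mul_ne_zero (mul_ne_zero hX0 hh) (pow_ne_zero 2 hq) hpoly.symm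
  have hloc := SEC_loc hp hq hh hX0 hpoly
  set ν := a + b + 2 with hνd
  -- no poles
  have hq1 : P.denom = 1 := by
    have h1 : P.denom.natDegree = 0 := by
      by_contra h2
      obtain ⟨c, hc1⟩ := IsAlgClosed.exists_root P.denom (fun h3 => h2 (Polynomial.natDegree_eq_of_degree_eq_some h3))
      have h3 : 0 < P.denom.rootMultiplicity c := (Polynomial.rootMultiplicity_pos hq).2 hc1
      have h4 : P.num.rootMultiplicity c = 0 := by
        refine Polynomial.rootMultiplicity_eq_zero fun h5 => ?_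
        obtain ⟨u, v, huv⟩ := P.isCoprime_num_denom
        have h6 := congrArg (Polynomial.eval c) huv
        rw [Polynomial.eval_add, Polynomial.eval_mul, Polynomial.eval_mul, h5.eq_zero, hc1.eq_zero] at h6
        simp at h6
      rcases hloc c with ⟨-, h5⟩ | ⟨h5, -⟩
      · omega
      · rw [SEC_cast hN0, h4] at h5
        have h6 : 0 < N * P.denom.rootMultiplicity c := Nat.mul_pos hN0 h3
        omega
    exact (P.monic_denom.natDegree_eq_zero).1 h1
  rw [hq1] at hpoly hloc
  have hr1 : ∀ c : ℂ, (1 : Polynomial ℂ).rootMultiplicity c = 0 := fun c =>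
    Polynomial.rootMultiplicity_eq_zero (by simp)
  -- the local conditions
  have hl : ∀ c : ℂ, (N * P.num.rootMultiplicity c ≠ ν * ec h0 c ∧ P.num.rootMultiplicity c = bc b c + 1) ∨
      (N * P.num.rootMultiplicity c = ν * ec h0 c ∧ P.num.rootMultiplicity c ≤ bc b c) := by
    intro c
    have h1 := hloc c
    rw [hr1, SEC_Xpow, Ne, SEC_cast hN0] at h1
    simpa [ec] using h1
  have hb0 : 1 ≤ b → 0 < ec h0 0 := by
    intro h1
    have h2 := hb h1
    by_contra h3
    have h4 : ec h0 0 = 0 := by omega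
    rw [h4, Nat.mul_zero] at h2
    omega
  have hroot : ∀ c : ℂ, 0 < ec h0 c → N * (bc b c + 1) ≠ ν * ec h0 c ∧ P.num.rootMultiplicity c = bc b c + 1 := by
    intro c h1
    rcases hl c with ⟨h2, h3⟩ | ⟨h2, h3⟩
    · rw [h3] at h2
      exact ⟨h2, h3⟩
    · exfalso
      have h4 : ν * ec h0 c ≤ N * bc b c := by
        rw [← h2]
        exact Nat.mul_le_mul_left _ h3
      have h5 : 0 < ν * ec h0 c := Nat.mul_pos (by omega) h1
      unfold bc at h4
      split_ifs at h4 with h6
      · subst h6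
        rcases Nat.eq_zero_or_pos b with h7 | h7
        · rw [h7] at h4
          omega
        · have h8 := hb h7
          rw [Nat.mul_comm b N] at h8
          omega
      · omega
  have hspc : ∀ c ∈ spc h0 b, 0 < ec h0 c := by
    intro c hc1
    unfold spc at hc1
    rw [mem_union] at hc1
    rcases hc1 with h1 | h1
    · rw [Multiset.mem_toFinset] at h1
      exact (Polynomial.rootMultiplicity_pos hh).2 ((Polynomial.mem_roots hh).1 h1)
    · split_ifs at h1 with h2
      · rw [mem_singleton] at h1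
        rw [h1]
        exact hb0 h2
      · simp at h1
  have hcard : (spc h0 b).card + b ≤ P.num.natDegree := by
    have h1 := SEC_sum (p := P.num) (spc h0 b)
    have h2 : ∑ c ∈ spc h0 b, P.num.rootMultiplicity c = ∑ c ∈ spc h0 b, (bc b c + 1) :=
      sum_congr rfl fun c hc1 => (hroot c (hspc c hc1)).2
    rw [h2, sum_add_distrib, sum_const, smul_eq_mul, Nat.mul_one] at h1
    have h3 : ∑ c ∈ spc h0 b, bc b c = b := by
      unfold bc
      rw [sum_ite_eq']
      rcases Nat.eq_zero_or_pos b with h4 | h4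
      · rw [h4]
        simp
      · rw [if_pos]
        unfold spc
        rw [mem_union]
        right
        rw [if_pos (show 1 ≤ b from h4)]
        exact mem_singleton_self _
    omega
  -- degrees
  have hpoly1 : Polynomial.derivative P.num * h0 - Polynomial.C ((ν : ℂ) / N) * Polynomial.derivative h0 * P.num =
      Polynomial.X ^ b * h0 := by
    have h1 := hpoly
    simp only [Polynomial.derivative_one, mul_one, mul_zero, sub_zero, one_pow] at h1
    exact h1
  have hdeg : (P.num.natDegree = b + 1 ∧ N * P.num.natDegree ≠ ν * h0.natDegree) ∨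
      (b + 2 ≤ P.num.natDegree ∧ N * P.num.natDegree = ν * h0.natDegree) := by
    have hcc : ((P.num.natDegree : ℂ) = (ν : ℂ) / N * h0.natDegree) ↔ N * P.num.natDegree = ν * h0.natDegree := by
      have h1 := SEC_cast (N := N) (ν := ν) (m1 := P.num.natDegree) (m2 := 0) (e := h0.natDegree) hN0
      rw [Nat.cast_zero, sub_zero, Nat.mul_zero, Nat.zero_add] at h1
      exact h1
    have h1 := SEC_deg hp hh hpoly1
    rw [Ne, hcc] at h1
    exact h1
  set d := P.num.natDegree with hd
  set n := h0.natDegree with hn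
  have hsplit : ν * (N - n) + ν * n = ν * N := by
    rw [← Nat.mul_add, Nat.sub_add_cancel hN]
  have hνN : ν * N = a * N + (b + 2) * N := by
    rw [hνd]
    ring
  rcases hc with ⟨c, h1⟩ | h1 | h1
  · -- a special point with integral exponent
    rcases Nat.eq_zero_or_pos (ec h0 c) with h2 | h2
    · rw [h2, Nat.mul_zero] at h1
      have h3 : 0 < N * (bc b c + 1) := Nat.mul_pos hN0 (by omega)
      omega
    · exact (hroot c h2).1 h1
  · -- the point at infinity
    have h1 : N * (a + 1) = ν * (N - n) := h1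
    have h2 : n < N := by
      by_contra h3
      have h4 : N - n = 0 := by omega
      rw [h4, Nat.mul_zero] at h1
      have h3 : 0 < N * (a + 1) := Nat.mul_pos hN0 (by omega)
      omega
    have h3 : N * (a + 1) = a * N + N := by ring
    have h4 : ν * n = N * (b + 1) := by
      have h5 : N * (b + 1) + N = (b + 2) * N := by ring
      omega
    rcases hdeg with ⟨h5, h6⟩ | ⟨h5, h6⟩
    · rw [h5, h4] at h6
      exact h6 rfl
    · rw [h4] at h6
      have h7 := Nat.eq_of_mul_eq_mul_left hN0 h6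
      omega
  · by_cases hA : 1 ≤ a ∨ h0.natDegree < N
    · rw [if_pos hA] at h1
      have h2 : a * N < ν * (N - n) := by
        rcases Nat.eq_zero_or_pos a with h3 | h3
        · rw [h3, Nat.zero_mul]
          exact Nat.mul_pos (by omega) (by omega)
        · exact ha h3
      rcases hdeg with ⟨h5, h6⟩ | ⟨h5, h6⟩
      · omega
      · have h7 : N * (b + 2) ≤ N * d := Nat.mul_le_mul_left _ h5
        have h8 : N * (b + 2) = (b + 2) * N := Nat.mul_comm _ _
        omega
    · rw [if_neg hA] at h1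
      have h2 : n = N := by omega
      have h3 : a = 0 := by omega
      rcases hdeg with ⟨h5, h6⟩ | ⟨h5, h6⟩
      · omega
      · rw [h2, Nat.mul_comm N d] at h6
        have h7 := Nat.eq_of_mul_eq_mul_right hN0 h6
        omega

end Pool.Agent.H56.CT
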