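import Pool.Agent.H56.CT.DRV
import Pool.Agent.H56.CT.SEC
import Pool.Agent.H56.CT.SEA
import Pool.Agent.H56.CT.SBB
import Pool.Agent.H56.CT.PIX

/-!
# SEP: the formal integral attached to an exceptional divisor

`g = sb X Y f` of order `N`, Jacobian `u^a v^b ε`; the exceptional divisor `E` of the blow-up of the origin, `ν = a + b + 2 < N`, `κ = ν/N`.

Proof.  `D` from `drv`, `π` from `pix`, `K = RatFunc ℂ`, `∂_ρ = derivative K`, `∂_z = dz D`.  `θ = π ∘ (sb X Y) : R2 → K⟦ρ⟧` an algebra homomorphism (`sb_hom`).  `g` has order `N`: `coeff n (π g) = 0` for `n < N` (`ini n g = 0`), so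
`π g = ρ^N h` with `constantCoeff h = h0 = ini N g ≠ 0` (`PowerSeries.X_pow_dvd_iff`).  `h0' = D h0 = derivative`.
`sec`: `z^b` is not in the `ℂ`-subspace `{D P - κ (h0'/h0) P}` of `K` (the range of a linear map; `RatFunc.C κ` is `(κ : K)` for rational `κ`), so there is a linear `γ : K → ℂ` which vanishes on it, with `γ (z^b) = 1/ε_00`
(`Submodule.exists_le_ker_of_notMem` or a complement; `ε_00 = co ε 0 0 ≠ 0`).  `Φ` from `sea`.  `J = jac X Y = u^a v^b ε`, `J' = ρ π(J)`; `π U = ρ`, `π V = z ρ` (coefficients), so `J' = ρ^{a+b+1} z^b π(ε)`: order `≥ ν - 1`,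
`coeff (ν-1) J' = z^b ε_00`.
`φ H = Φ (θ(H) J')`.
`mul`: `θ(f) = π g = ρ^N h` and (1) of `sea`.
`{P, Q} = ∂_ρ P ∂_z Q - ∂_z P ∂_ρ Q`.  For `P = θ H`, `Q = θ H'` (chain rules `sb_pd` and `pix`): `{θ H, θ H'} = θ(pd 0 H pd 1 H' - pd 1 H pd 0 H') J'`.  (Both chain rules: `∂_ρ π(g) = π(g_u) + z π(g_v)`, `∂_z π(g) = ρ π(g_v)`, so
`{π g, π g'} = ρ π(g_u g'_v - g_v g'_u)`; and `g = sb X Y H`: `g_u g'_v - g_v g'_u = sb(H_0 H'_1 - H_1 H'_0) jac X Y`.)
`der` for `j = 0`: `y = V`, `A = θ(h) ∂_ρ θ(y)`, `B = θ(h) ∂_z θ(y)`: `∂_ρ B - ∂_z A = {θ h, θ y} = θ(pd 0 h) J'` (`∂_ρ ∂_z = ∂_z ∂_ρ`), and `∂_ρ τ B - ∂_z τ A = θ(h) {τ, θ y} = θ(h pd 0 f) J'`, `τ = θ f`.  So (2) of `sea` is `der`.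
For `j = 1`: `x = U`, `A = -θ(h) ∂_ρ θ(x)`, `B = -θ(h) ∂_z θ(x)`: `∂_ρ B - ∂_z A = -{θ h, θ x} = θ(pd 1 h) J'` etc.
`cc`: `θ(h pd 0 f) J' = ∂_ρ τ B - ∂_z τ A` is divisible by `ρ^{N-1}` (`∂_ρ τ` and `∂_z τ` are), and `N - 1 > ν - 1`, so by (3) of `sea` the coefficient `0` of `Φ` is `γ 0 = 0`.
`cont`: `Hi M h`: `Hi M (sb X Y h)` (`sb_Hi`), so `coeff i (π (sb X Y h)) = 0` for `i < M`, and `θ(h) J'` has order `≥ M + ν - 1`; (4) of `sea`.
`one`: (3) of `sea`: `γ (z^b ε_00) = 1`.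
-/

set_option autoImplicit false

namespace Pool.Agent.H56.CT

open Finset

open Pool.Agent.H22.T7

theorem SEP_coe (g : R2) : co g 0 0 = MvPowerSeries.constantCoeff g := by
  unfold co
  rw [Finsupp.single_zero, Finsupp.single_zero, add_zero]
  exact MvPowerSeries.coeff_zero_eq_constantCoeff_apply g

theorem SEP_comm {K : Type} [Field K] [Algebra ℂ K] (D : Derivation ℂ K K) (p : PowerSeries K) :
    dz D (PowerSeries.derivative K p) = PowerSeries.derivative K (dz D p) := by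
  ext n
  rw [coeff_dz, PowerSeries.coeff_derivative, PowerSeries.coeff_derivative, coeff_dz,
    Derivation.leibniz, map_add, Derivation.map_natCast, Derivation.map_one_eq_zero]
  simp only [smul_eq_mul, add_zero, mul_zero, zero_add]
  ring

theorem SEP_ini0 (g : R2) : ini 0 g = Polynomial.C (co g 0 0) := by
  unfold ini
  simp

theorem SEP_iniHi (g : R2) (M i : ℕ) (hg : Hi M g) (hi : i < M) : ini i g = 0 := by
  unfold ini
  refine Finset.sum_eq_zero fun j hj => ?_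
  rw [Finset.mem_range] at hj
  have h1 : co g (i - j) j = 0 := by
    by_contra hne
    have h2 := hg _ hne
    rw [map_add, Finsupp.degree_single, Finsupp.degree_single] at h2
    omega
  rw [h1, Polynomial.monomial_zero_right]

theorem SEP_iniOrd (g : R2) (M i : ℕ) (hg : Ord g M) (hi : i < M) : ini i g = 0 := by
  unfold ini
  refine Finset.sum_eq_zero fun j hj => ?_
  rw [Finset.mem_range] at hj
  have h1 : co g (i - j) j = 0 := hg.1 _ _ (by omega)
  rw [h1, Polynomial.monomial_zero_right]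

theorem SEP_deg (g : R2) (N : ℕ) : (ini N g).natDegree ≤ N := by
  unfold ini
  refine Polynomial.natDegree_sum_le_of_forall_le _ _ fun j hj => ?_
  rw [Finset.mem_range] at hj
  exact (Polynomial.natDegree_monomial_le _).trans (by omega)

/-- The functional. -/
theorem SEP_gam {K : Type} [Field K] [Algebra ℂ K] (L : K →ₗ[ℂ] K) (z : K) (e : ℂ) (he : e ≠ 0)
    (hz : ∀ P, L P ≠ z) : ∃ γ : K →ₗ[ℂ] ℂ, (∀ P, γ (L P) = 0) ∧ γ (e • z) = 1 := by
  have h1 : z ∉ LinearMap.range L := by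
    rintro ⟨P, hP⟩
    exact hz P hP
  obtain ⟨γ, hγ, hγ2⟩ := Submodule.exists_le_ker_of_notMem h1
  refine ⟨(e * γ z)⁻¹ • γ, ?_, ?_⟩
  · intro P
    have h2 : γ (L P) = 0 := hγ2 ⟨P, rfl⟩
    rw [LinearMap.smul_apply, h2, smul_zero]
  · rw [LinearMap.smul_apply, map_smul, smul_eq_mul, smul_eq_mul]
    exact inv_mul_cancel₀ (mul_ne_zero he hγ)

/-- SEP -/
theorem sep (f g : R2) (a b N : ℕ) (X Y : R2) (hp : Path f g a b X Y) (hg : Ord g N)
    (hν : a + b + 2 < N) (hb : 1 ≤ b → b * N < (a + b + 2) * ec (ini N g) 0)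
    (ha : 1 ≤ a → a * N < (a + b + 2) * (N - (ini N g).natDegree))
    (hc : Contr (ini N g) N a b) :
    Nonempty (PhiD f (((a + b + 2 : ℕ) : ℚ) / N)) := by
  classical
  obtain ⟨D, hD⟩ := drv
  obtain ⟨π, hπ, hπr, hπz⟩ := pix D hD
  obtain ⟨F, hF, hFU, hFV⟩ := sb_hom X Y hp.cX hp.cY
  obtain ⟨ε, hε, hJ⟩ := hp.jac
  have hN0 : 0 < N := by omega
  have hCne : ((N : ℕ) : ℂ) ≠ 0 := Nat.cast_ne_zero.2 hN0.ne'
  have hQne : ((N : ℕ) : ℚ) ≠ 0 := Nat.cast_ne_zero.2 hN0.ne'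
  have p00 : pd 0 U = 1 := MvPowerSeries.pderiv_X_self
  have p11 : pd 1 V = 1 := MvPowerSeries.pderiv_X_self
  have p10 : pd 1 U = 0 := MvPowerSeries.pderiv_X_of_ne (by decide)
  have p01 : pd 0 V = 0 := MvPowerSeries.pderiv_X_of_ne (by decide)
  have hinj : Function.Injective (algebraMap (Polynomial ℂ) (RatFunc ℂ)) :=
    RatFunc.algebraMap_injective ℂ
  -- images of the coordinates
  have hc0 : ∀ x : R2, PowerSeries.constantCoeff (π x) = algebraMap ℂ (RatFunc ℂ) (co x 0 0) := by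
    intro x
    rw [← PowerSeries.coeff_zero_eq_constantCoeff_apply, hπ, SEP_ini0]
    rw [IsScalarTower.algebraMap_apply ℂ (Polynomial ℂ) (RatFunc ℂ)]
    rfl
  have hU0 : co U 0 0 = 0 := by rw [SEP_coe]; simp
  have hV0 : co V 0 0 = 0 := by rw [SEP_coe]; simp
  have hπU : π U = PowerSeries.X := by
    refine PowerSeries.derivative.ext ?_ ?_
    · rw [hπr, p00, p10, map_one, map_zero, mul_zero, add_zero, PowerSeries.derivative_X]
    · rw [hc0, hU0, map_zero, PowerSeries.constantCoeff_X]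
  have hπV : π V = PowerSeries.C RatFunc.X * PowerSeries.X := by
    refine PowerSeries.derivative.ext ?_ ?_
    · rw [hπr, p01, p11, map_one, map_zero, zero_add, Derivation.leibniz, PowerSeries.derivative_X,
        PowerSeries.derivative_C]
      simp
    · rw [hc0, hV0, map_zero, map_mul, PowerSeries.constantCoeff_X, mul_zero]
  -- the Jacobian
  obtain ⟨J', hJ'⟩ : ∃ J' : PowerSeries (RatFunc ℂ), J' = PowerSeries.X * π (jac X Y) := ⟨_, rfl⟩
  have hJ2 : J' = PowerSeries.X ^ (a + b + 1) * (PowerSeries.C (RatFunc.X ^ b) * π ε) := by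
    rw [hJ', hJ, map_mul, map_mul, map_pow, map_pow, hπU, hπV, map_pow]
    ring
  -- the function
  have hτd : PowerSeries.X ^ N ∣ π g := by
    rw [PowerSeries.X_pow_dvd_iff]
    intro m hm
    rw [hπ, SEP_iniOrd g N m hg hm, map_zero]
  obtain ⟨h, hh⟩ := hτd
  obtain ⟨h0, hh0⟩ : ∃ h0 : RatFunc ℂ, h0 = algebraMap (Polynomial ℂ) (RatFunc ℂ) (ini N g) :=
    ⟨_, rfl⟩
  have hh1 : PowerSeries.constantCoeff h = h0 := by
    rw [hh0, ← hπ, hh, PowerSeries.coeff_X_pow_mul', if_pos le_rfl, Nat.sub_self,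
      PowerSeries.coeff_zero_eq_constantCoeff_apply]
  have hne : h0 ≠ 0 := by
    rw [hh0]
    intro h1
    rw [← map_zero (algebraMap (Polynomial ℂ) (RatFunc ℂ))] at h1
    exact hg.2 (hinj h1)
  -- the functional
  obtain ⟨κ, hκ⟩ : ∃ κ : ℚ, κ = ((a + b + 2 : ℕ) : ℚ) / N := ⟨_, rfl⟩
  rw [← hκ]
  have hκK : (κ : RatFunc ℂ) = RatFunc.C (((a + b + 2 : ℕ) : ℂ) / N) := by
    rw [hκ, map_div₀, map_natCast, map_natCast, Rat.cast_div, Rat.cast_natCast, Rat.cast_natCast]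
  have he : co ε 0 0 ≠ 0 := by
    rw [SEP_coe]
    exact isUnit_iff_ne_zero.1 (MvPowerSeries.isUnit_iff_constantCoeff.1 hε)
  obtain ⟨γ, hγ1, hγ2⟩ := SEP_gam (D.toLinearMap -
    LinearMap.mulLeft ℂ ((κ : RatFunc ℂ) * (D h0 / h0))) (RatFunc.X ^ b) (co ε 0 0) he (by
      intro P
      have h1 := sec D hD (ini N g) hg.2 N a b (SEP_deg g N) hν hb ha hc P
      rw [← hκK, ← hD, ← hh0] at h1
      exact h1)
  obtain ⟨Φ, hΦ1, hΦ2, hΦ3, hΦ4⟩ := sea D h h0 hh1 hne N (a + b + 2) hN0 (by omega) κ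
    (by rw [hκ]; exact div_mul_cancel₀ _ hQne) γ (fun P => hγ1 P)
  -- the homomorphism `θ`
  have hfg : π (F f) = PowerSeries.X ^ N * h := by
    rw [hF, hp.eq, hh]
  have hbr : ∀ P Q : R2, PowerSeries.derivative (RatFunc ℂ) (π (F P)) * dz D (π (F Q)) -
      dz D (π (F P)) * PowerSeries.derivative (RatFunc ℂ) (π (F Q)) =
      π (F (pd 0 P * pd 1 Q - pd 1 P * pd 0 Q)) * J' := by
    intro P Q
    have d1 : ∀ (j : Fin 2) (W : R2), pd j (F W) = F (pd 0 W) * pd j X + F (pd 1 W) * pd j Y := by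
      intro j W
      rw [hF, hF, hF]
      exact sb_pd X Y hp.cX hp.cY j W
    rw [hπr, hπr, hπz, hπz, d1, d1, d1, d1, hJ']
    unfold jac
    simp only [map_mul, map_add, map_sub]
    ring
  have hAB : ∀ (j : Fin 2) (H : R2), ∃ A B : PowerSeries (RatFunc ℂ),
      π (F (pd j H)) * J' = PowerSeries.derivative (RatFunc ℂ) B - dz D A ∧
      π (F (H * pd j f)) * J' =
        PowerSeries.derivative (RatFunc ℂ) (PowerSeries.X ^ N * h) * B -
          dz D (PowerSeries.X ^ N * h) * A := by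
    intro j H
    have key : ∀ (W : R2) (s : ℂ), ∃ A B : PowerSeries (RatFunc ℂ),
        s • (π (F (pd 0 H * pd 1 W - pd 1 H * pd 0 W)) * J') =
          PowerSeries.derivative (RatFunc ℂ) B - dz D A ∧
        s • (π (F (H * (pd 0 f * pd 1 W - pd 1 f * pd 0 W))) * J') =
        PowerSeries.derivative (RatFunc ℂ) (PowerSeries.X ^ N * h) * B -
          dz D (PowerSeries.X ^ N * h) * A := by
      intro W s
      refine ⟨s • (π (F H) * PowerSeries.derivative (RatFunc ℂ) (π (F W))),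
        s • (π (F H) * dz D (π (F W))), ?_, ?_⟩
      · rw [← hbr]
        have e1 : PowerSeries.derivative (RatFunc ℂ) (s • (π (F H) * dz D (π (F W)))) =
            s • PowerSeries.derivative (RatFunc ℂ) (π (F H) * dz D (π (F W))) := by
          ext n
          simp
        rw [e1, Derivation.map_smul, Derivation.leibniz, Derivation.leibniz, SEP_comm, ← smul_sub]
        simp only [smul_eq_mul]
        congr 1
        ring
      · rw [← hfg, map_mul F, map_mul π, mul_assoc, ← hbr, mul_smul_comm, mul_smul_comm, ← smul_sub]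
        congr 1
        ring
    fin_cases j
    · obtain ⟨A, B, h1, h2⟩ := key V 1
      refine ⟨A, B, ?_, ?_⟩
      · rw [← h1]
        simp [p01, p11]
      · rw [← h2]
        simp [p01, p11]
    · obtain ⟨A, B, h1, h2⟩ := key U (-1)
      refine ⟨A, B, ?_, ?_⟩
      · rw [← h1]
        simp [p00, p10]
      · rw [← h2]
        simp [p00, p10]
  -- orders
  have hJd : PowerSeries.X ^ (a + b + 1) ∣ J' := ⟨_, hJ2⟩
  have hord : ∀ c : PowerSeries (RatFunc ℂ), ∀ i, i + 1 < a + b + 2 →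
      PowerSeries.coeff i (c * J') = 0 := by
    intro c i hi
    exact PowerSeries.X_pow_dvd_iff.1 (hJd.mul_left c) i (by omega)
  let φ : R2 →ₗ[ℂ] PowerSeries ℂ := Φ ∘ₗ (LinearMap.mulRight ℂ J') ∘ₗ (π.comp F).toLinearMap
  have hφ : ∀ H, φ H = Φ (π (F H) * J') := fun H => rfl
  refine ⟨⟨φ, N, hN0, ?_, ?_, ?_, ?_, ?_⟩⟩
  · intro H
    rw [hφ, hφ, map_mul F, map_mul π, hfg, mul_assoc]
    exact hΦ1 _ (hord _)
  · intro j H
    rw [hφ, hΦ3 _ (hord _)]
    obtain ⟨A, B, -, h2⟩ := hAB j H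
    have hd1 : PowerSeries.X ^ (N - 1) ∣
        PowerSeries.derivative (RatFunc ℂ) (PowerSeries.X ^ N * h) := by
      rw [PowerSeries.X_pow_dvd_iff]
      intro m hm
      rw [PowerSeries.coeff_derivative, PowerSeries.coeff_X_pow_mul', if_neg (by omega), zero_mul]
    have hd2 : PowerSeries.X ^ (N - 1) ∣ dz D (PowerSeries.X ^ N * h) := by
      rw [PowerSeries.X_pow_dvd_iff]
      intro m hm
      rw [coeff_dz, PowerSeries.coeff_X_pow_mul', if_neg (by omega), map_zero]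
    have hd3 : PowerSeries.X ^ (N - 1) ∣ π (F (H * pd j f)) * J' := by
      rw [h2]
      exact dvd_sub (hd1.mul_right _) (hd2.mul_right _)
    rw [PowerSeries.X_pow_dvd_iff.1 hd3 (a + b + 2 - 1) (by omega), map_zero]
  · intro j H i
    obtain ⟨A, B, h1, h2⟩ := hAB j H
    rw [hφ, hφ, h1, h2]
    exact hΦ2 A B i
  · intro M H hH i hi
    rw [hφ]
    refine hΦ4 M _ ?_ i hi
    intro m hm
    have hd1 : PowerSeries.X ^ M ∣ π (F H) := by
      rw [PowerSeries.X_pow_dvd_iff]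
      intro n hn
      rw [hπ, hF, SEP_iniHi _ M n (sb_Hi X Y hp.cX hp.cY M H hH) hn, map_zero]
    have hd2 := mul_dvd_mul hd1 hJd
    rw [← pow_add] at hd2
    exact PowerSeries.X_pow_dvd_iff.1 hd2 m (by omega)
  · rw [hφ, map_one, map_one, hΦ3 _ (hord _), one_mul, hJ2]
    have e1 : a + b + 2 - 1 = a + b + 1 := by omega
    rw [e1, PowerSeries.coeff_X_pow_mul', if_pos le_rfl, Nat.sub_self,
      PowerSeries.coeff_zero_eq_constantCoeff_apply, map_mul, PowerSeries.constantCoeff_C, hc0,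
      mul_comm, ← Algebra.smul_def]
    exact hγ2

end Pool.Agent.H56.CT
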