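import Pool.Agent.H56.CT.WCS
import Pool.Agent.H37.T6.CEN

/-!
# WCE: the topological zeta function, with weights

ADAPT `Pool/Agent/H37/T6/CEN.lean` (`P_d` and all lemmas) with `CSW`, `AAw ν`, `JfunW (qN ν)`, `topZetaGW (qN ν)`, `csaw`, `VL_rhow`, `pr_AAw_rho`.
-/

set_option autoImplicit false

namespace Pool.Agent.H56.CT

open Finset H60.RegTri
open Pool.Agent.H37.T5 Pool.Agent.H37.T6
open Pool.Agent.H56.SMC

variable {n r : ℕ} {ν : Fin n → ℕ} {a : Fin r → (Fin n →₀ ℕ)} {R : Finset (Fin n → ℕ)} {s0 : ℂ}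
  {q : Unit ⊕ Fin n → ℤ} {g : Option (Fin r ⊕ Fin n) → ℝ} {h : Option R → ℝ}

open Classical in
/-- `P_d` -/
noncomputable def WCE_P (ν : Fin n → ℕ) (a : Fin r → (Fin n →₀ ℕ)) (q : Unit ⊕ Fin n → ℤ)
    (g : Option (Fin r ⊕ Fin n) → ℝ) (d : ℕ) : RatFunc ℂ :=
  ∑ T ∈ univ.filter (fun T : Finset (Fin r) => T.card = d),
    (((mulv (pf a) (inB T)) ^ 2 : ℕ) : RatFunc ℂ) *
      LLs (pf a) q (AAw ν) BB (DD (pf a) q g) (inB T)

theorem WCE_LL0 (ν : Fin n → ℕ) (a : Fin r → (Fin n →₀ ℕ)) (q : Unit ⊕ Fin n → ℤ)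
    (g : Option (Fin r ⊕ Fin n) → ℝ) (Ξ : Finset (Fin r ⊕ Fin n)) (h : ¬ InT (pf a) q g Ξ) :
    LLs (pf a) q (AAw ν) BB (DD (pf a) q g) Ξ = 0 := by
  unfold LLs
  have h6 : (DD (pf a) q g).filter (fun Δ => Ξ ⊆ Δ) = ∅ := by
    rw [filter_eq_empty_iff]
    exact fun Δ' hΔ' h7 => h ⟨Δ', hΔ', h7⟩
  rw [h6, sum_empty]

theorem WCE_big (ν : Fin n → ℕ) (a : Fin r → (Fin n →₀ ℕ)) (q : Unit ⊕ Fin n → ℤ)
    (g : Option (Fin r ⊕ Fin n) → ℝ) (T : Finset (Fin r)) (h : n + 1 ≤ T.card) :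
    LLs (pf a) q (AAw ν) BB (DD (pf a) q g) (inB T) = 0 := by
  apply WCE_LL0
  rintro ⟨Δ, hΔ, hsub⟩
  have h1 := (mem_DD.1 hΔ).2
  have h2 := card_le_card hsub
  rw [CEN_card_inB] at h2
  rw [Fintype.card_sum, Fintype.card_fin, Fintype.card_unit] at h1
  omega

theorem WCE_all (ν : Fin n → ℕ) (a : Fin r → (Fin n →₀ ℕ)) (q : Unit ⊕ Fin n → ℤ)
    (g : Option (Fin r ⊕ Fin n) → ℝ) :
    ∑ T : Finset (Fin r), (-1) ^ T.card * (((mulv (pf a) (inB T)) ^ 2 : ℕ) : RatFunc ℂ) *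
        LLs (pf a) q (AAw ν) BB (DD (pf a) q g) (inB T) =
      ∑ d ∈ range (n + 1), (-1) ^ d * WCE_P ν a q g d := by
  classical
  have h1 : ∑ T : Finset (Fin r), (-1) ^ T.card * (((mulv (pf a) (inB T)) ^ 2 : ℕ) : RatFunc ℂ) *
        LLs (pf a) q (AAw ν) BB (DD (pf a) q g) (inB T) =
      ∑ T ∈ univ.filter (fun T : Finset (Fin r) => T.card ∈ range (n + 1)),
        (-1) ^ T.card * (((mulv (pf a) (inB T)) ^ 2 : ℕ) : RatFunc ℂ) *
        LLs (pf a) q (AAw ν) BB (DD (pf a) q g) (inB T) := by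
    rw [sum_filter]
    refine sum_congr rfl fun T _ => ?_
    split_ifs with h
    · rfl
    · rw [WCE_big ν a q g T (by rw [mem_range] at h; omega), mul_zero]
  rw [h1, ← sum_fiberwise_of_maps_to (s := univ.filter
    (fun T : Finset (Fin r) => T.card ∈ range (n + 1))) (t := range (n + 1))
    (g := fun T => T.card) (fun T hT => (mem_filter.1 hT).2)]
  refine sum_congr rfl fun d hd => ?_
  unfold WCE_P
  rw [mul_sum, filter_filter]
  refine sum_congr ?_ fun T hT => ?_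
  · ext T
    simp only [mem_filter, mem_univ, true_and]
    constructor
    · exact fun h => h.2
    · exact fun h => ⟨by rw [h]; exact hd, h⟩
  · rw [(mem_filter.1 hT).2, mul_assoc]

theorem WCE_one (ν : Fin n → ℕ) (a : Fin r → (Fin n →₀ ℕ)) (q : Unit ⊕ Fin n → ℤ)
    (g : Option (Fin r ⊕ Fin n) → ℝ) :
    WCE_P ν a q g 1 = ∑ i : Fin r, LLs (pf a) q (AAw ν) BB (DD (pf a) q g) {Sum.inl i} := by
  classical
  unfold WCE_P
  have h1 : univ.filter (fun T : Finset (Fin r) => T.card = 1) =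
      univ.map ⟨fun i : Fin r => ({i} : Finset (Fin r)), singleton_injective⟩ := by
    ext T
    simp only [mem_filter, mem_univ, true_and, mem_map, Function.Embedding.coeFn_mk]
    rw [card_eq_one]
    exact ⟨fun ⟨x, hx⟩ => ⟨x, hx.symm⟩, fun ⟨x, hx⟩ => ⟨x, hx.symm⟩⟩
  rw [h1, sum_map]
  refine sum_congr rfl fun i _ => ?_
  have h2 : (inB ({i} : Finset (Fin r)) : Finset (Fin r ⊕ Fin n)) = {Sum.inl i} := by
    simp [inB]
  rw [Function.Embedding.coeFn_mk, cnv_mul, ZNL_faceVol_single, h2]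
  simp

theorem WCE_zero (ν : Fin n → ℕ) (a : Fin r → (Fin n →₀ ℕ)) (q : Unit ⊕ Fin n → ℤ)
    (g : Option (Fin r ⊕ Fin n) → ℝ) :
    WCE_P ν a q g 0 = LLs (pf a) q (AAw ν) BB (DD (pf a) q g) ∅ := by
  classical
  unfold WCE_P
  have h1 : univ.filter (fun T : Finset (Fin r) => T.card = 0) = {∅} := by
    ext T
    simp [card_eq_zero]
  have h2 : (inB (∅ : Finset (Fin r)) : Finset (Fin r ⊕ Fin n)) = ∅ := by
    simp [inB]
  rw [h1, sum_singleton, h2, mulv_empty]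
  simp

theorem WCE_rel (hC : CSW ν a R s0 q g h) : -RatFunc.X * WCE_P ν a q g 0 = WCE_P ν a q g 1 := by
  classical
  obtain ⟨Δ, hΔ⟩ := rdd_ne hC.rs
  have hT : InT (pf a) q g ∅ := ⟨Δ, hΔ, empty_subset _⟩
  have hnp := hC.np
  have h1 := rrel hC.rs ∅ hT (by
    rw [card_empty, Fintype.card_sum, Fintype.card_fin, Fintype.card_unit]; omega)
    rho (fun ω hω => absurd hω (notMem_empty _))
  rw [VL_rhow, rjl hC.rs hC.qg ∅ hT, ← WCE_zero] at h1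
  rw [h1, WCE_one, sum_filter, sdiff_empty, Fintype.sum_sum_type]
  have h2 : ∑ j : Fin n, (if InT (pf a) q g (insert (Sum.inr j) ∅) then
      (pr (pf a (Sum.inr j)) rho : RatFunc ℂ) *
        JJ (vv a R) (pf a) (AAw ν) BB h univ (insert (Sum.inr j) ∅) else 0) = 0 := by
    refine sum_eq_zero fun j _ => ?_
    rw [pf_inr]
    simp [rho]
  rw [h2, add_zero]
  refine sum_congr rfl fun i _ => ?_
  have h3 : pr (pf a (Sum.inl i)) rho = 1 := by
    rw [pf_inl]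
    simp [rho]
  rw [h3, Int.cast_one, one_mul]
  have h4 : (insert (Sum.inl i) ∅ : Finset (Fin r ⊕ Fin n)) = {Sum.inl i} := rfl
  rw [h4]
  split_ifs with h5
  · rw [rjl hC.rs hC.qg _ h5]
  · rw [WCE_LL0 ν a q g _ h5]

theorem WCE_regtop (𝒟 : ∀ τ, H22.FaceCones a τ) (τ : Finset (Fin r))
    (hτ : H22.faceRank a τ = n + 1) : H37.SM.Reg s0 (JfunW (qN ν) a τ (𝒟 τ)) := by
  unfold JfunW
  refine H37.SM.Reg.sum _ _ fun C _ => ?_
  have hE : IsEmpty (Fin (n + 1 - H22.faceRank a τ)) := by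
    rw [hτ, Nat.sub_self]
    exact Fin.isEmpty
  have h1 : ∏ c, (RatFunc.C ((wsp (qN ν) ((𝒟 τ).w C c) : ℚ) : ℂ) +
      (H22.wmin a ((𝒟 τ).w C c) : RatFunc ℂ) * RatFunc.X)⁻¹ = 1 := by
    have := hE
    exact Fintype.prod_empty _
  rw [h1, mul_one]
  exact H37.SM.reg_natCast _

/-- WCE -/
theorem cenw (hC : CSW ν a R s0 q g h) (hs1 : s0 ≠ -1) (𝒟 : ∀ τ, H22.FaceCones a τ)
    (𝒯 : ∀ τ, H22.FaceTriang a τ) :
    H37.SM.Reg s0 (topZetaGW (qN ν) a 𝒟 𝒯 + RatFunc.X / (RatFunc.X + 1) *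
      ∑ T : Finset (Fin r), (-1) ^ T.card * (((mulv (pf a) (inB T)) ^ 2 : ℕ) : RatFunc ℂ) *
        LLs (pf a) q (AAw ν) BB (DD (pf a) q g) (inB T)) := by
  classical
  have hn := hC.np
  obtain ⟨m, rfl⟩ : ∃ m, n = m + 1 := ⟨n - 1, by omega⟩
  -- the faces of rank `d`
  let F : ℕ → Finset (Finset (Fin r)) := fun d =>
    univ.filter (fun τ : Finset (Fin r) => H22.IsFace a τ ∧ H22.faceRank a τ = d)
  have hF : ∀ d τ, τ ∈ F d ↔ H22.IsFace a τ ∧ H22.faceRank a τ = d := fun d τ => by simp [F]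
  have hS : ∀ d, 1 ≤ d → d ≤ m + 1 →
      ∑ τ ∈ F d, (H22.nvol (𝒯 τ) : RatFunc ℂ) * JfunW (qN ν) a τ (𝒟 τ) = WCE_P ν a q g d :=
    fun d h1 h2 => by
      have h3 := csaw hC 𝒟 𝒯 (F d) d h1 h2 (hF d)
      rw [h3]
      unfold WCE_P
      exact sum_congr (by ext T; simp) fun _ _ => rfl
  have h1 : ∑ τ ∈ F 1, JfunW (qN ν) a τ (𝒟 τ) = WCE_P ν a q g 1 := by
    rw [← hS 1 le_rfl (by omega)]
    refine sum_congr rfl fun τ hτ => ?_
    have hr1 := ((hF 1 τ).1 hτ).2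
    obtain ⟨p, rfl⟩ := rank_one a hC.inj τ (CEN_nonempty (by rw [hr1]; exact one_ne_zero)) hr1
    rw [nvol_single, Nat.cast_one, one_mul]
  have h2 : ∑ τ ∈ univ.filter (fun τ : Finset (Fin r) => H22.IsFace a τ ∧
      2 ≤ H22.faceRank a τ), (-1) ^ (H22.faceRank a τ - 1) *
        (H22.nvol (𝒯 τ) : RatFunc ℂ) * JfunW (qN ν) a τ (𝒟 τ) =
      ∑ i ∈ range (m + 1), (-1) ^ (i + 1) *
        ∑ τ ∈ F (i + 2), (H22.nvol (𝒯 τ) : RatFunc ℂ) * JfunW (qN ν) a τ (𝒟 τ) := by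
    rw [← sum_fiberwise_of_maps_to (s := univ.filter (fun τ : Finset (Fin r) => H22.IsFace a τ ∧
      2 ≤ H22.faceRank a τ)) (t := range (m + 1)) (g := fun τ => H22.faceRank a τ - 2)
      (fun τ hτ => by
        have h3 := (mem_filter.1 hτ).2.2
        have h4 := ZJT_rank_le (a := a) τ
        rw [mem_range]
        omega)]
    refine sum_congr rfl fun i _ => ?_
    rw [mul_sum, filter_filter]
    refine sum_congr ?_ fun τ hτ => ?_
    · ext τ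
      rw [hF]
      simp only [mem_filter, mem_univ, true_and]
      constructor
      · rintro ⟨⟨h3, h4⟩, h5⟩
        exact ⟨h3, by omega⟩
      · rintro ⟨h3, h4⟩
        exact ⟨⟨h3, by omega⟩, by omega⟩
    · rw [((hF _ τ).1 hτ).2]
      have h5 : i + 2 - 1 = i + 1 := by omega
      rw [h5, mul_assoc]
  have hc : H37.SM.Reg s0 (∑ τ ∈ F (m + 2), (H22.nvol (𝒯 τ) : RatFunc ℂ) *
      JfunW (qN ν) a τ (𝒟 τ)) := by
    refine H37.SM.Reg.sum _ _ fun τ hτ => ?_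
    exact (H37.SM.reg_natCast _).mul (WCE_regtop 𝒟 τ ((hF _ τ).1 hτ).2)
  have hX : (RatFunc.X + 1 : RatFunc ℂ) ≠ 0 := by
    have h3 := H37.SM.linear_ne_zero 1 1 one_pos
    intro h4
    apply h3
    rw [Nat.cast_one, one_mul, add_comm]
    exact h4
  set c := ∑ τ ∈ F (m + 2), (H22.nvol (𝒯 τ) : RatFunc ℂ) * JfunW (qN ν) a τ (𝒟 τ) with hcdef
  have hrel := WCE_rel hC
  have key : topZetaGW (qN ν) a 𝒟 𝒯 + RatFunc.X / (RatFunc.X + 1) *
      ∑ T : Finset (Fin r), (-1) ^ T.card * (((mulv (pf a) (inB T)) ^ 2 : ℕ) : RatFunc ℂ) *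
        LLs (pf a) q (AAw ν) BB (DD (pf a) q g) (inB T) =
      RatFunc.X / (RatFunc.X + 1) * ((-1) ^ (m + 1) * c) := by
    have h6 : topZetaGW (qN ν) a 𝒟 𝒯 = WCE_P ν a q g 1 + RatFunc.X / (RatFunc.X + 1) *
        (∑ i ∈ range m, (-1) ^ (i + 1) * WCE_P ν a q g (i + 2) + (-1) ^ (m + 1) * c) := by
      have h7 : ∑ i ∈ range (m + 1), (-1 : RatFunc ℂ) ^ (i + 1) *
          ∑ τ ∈ F (i + 2), (H22.nvol (𝒯 τ) : RatFunc ℂ) * JfunW (qN ν) a τ (𝒟 τ) =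
          ∑ i ∈ range m, (-1) ^ (i + 1) * WCE_P ν a q g (i + 2) + (-1) ^ (m + 1) * c := by
        rw [sum_range_succ]
        congr 1
        refine sum_congr rfl fun i hi => ?_
        rw [hS (i + 2) (by omega) (by have := mem_range.1 hi; omega)]
      rw [← h7, ← h2, ← h1]
      unfold topZetaGW
      congr 1
    rw [h6, WCE_all, sum_range_succ', sum_range_succ', ← hrel]
    have h8 : ∑ i ∈ range m, (-1 : RatFunc ℂ) ^ (i + 1) * WCE_P ν a q g (i + 2) =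
        -∑ i ∈ range m, (-1) ^ (i + 1 + 1) * WCE_P ν a q g (i + 1 + 1) := by
      rw [← sum_neg_distrib]
      refine sum_congr rfl fun i _ => ?_
      rw [pow_succ (-1 : RatFunc ℂ) (i + 1)]
      ring
    rw [h8]
    field_simp
    try ring
  rw [key]
  refine (H37.SM.reg_X_div hs1).mul (H37.SM.Reg.mul ?_ hc)
  have h9 : ((-1 : RatFunc ℂ)) ^ (m + 1) = (((-1) ^ (m + 1) : ℤ) : RatFunc ℂ) := by
    push_cast
    rfl
  rw [h9]
  exact H37.SM.reg_intCast _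

end Pool.Agent.H56.CT
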