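import Pool.Agent.H56.CT.ZUN
import Pool.Agent.H37.T6.CJF
import Pool.Agent.H37.T6.CZT
import Pool.Agent.H37.T6.CUF

/-!
# WCJ: `J_τ` through the lifted rays, with weights

`cztw`: as `czt` (`Pool/Agent/H37/T6/CZT.lean`): only `ne` changes: `pr (AAw ν) (lf a w) = ∑ ν_j w_j > 0` (`w ≠ 0`, `ν > 0`).
`jf_triw`: as `jf_tri` (`Pool/Agent/H56/SMC/ZNJT.lean`): the same decomposition `𝒟'`, `Jfun_uniq` instead of `ztb`, and the sum of `(mulS σ) * ∏ w ∈ σ, (VL (AAw ν) BB (lf a w.1))⁻¹` (`VL_lfw`).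
`cjfw`: as `cjf` (`Pool/Agent/H37/T6/CJF.lean`; `CJF_..` by import) with `CSW`, `jf_triw`, `tmv (AAw ν) BB`.
-/

set_option autoImplicit false

namespace Pool.Agent.H56.CT

open Finset H60.RegTri
open Pool.Agent.H37.T5 Pool.Agent.H37.T6
open Pool.Agent.H56.SMC

theorem cztw {n r : ℕ} (ν : Fin n → ℕ) (hν : ∀ j, 0 < ν j) (a : Fin r → (Fin n →₀ ℕ))
    (ha : Function.Injective a) (hr : 0 < r)
    (R : Finset (Fin n → ℕ)) (hR : RaySet a R) : ZT (vv a R) (pf a) (AAw ν) BB := by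
  classical
  have hwmin : ∀ (w : Fin n → ℕ) (i : Fin r), H22.wmin a w ≤ ∑ j, a i j * w j := fun w i =>
    ciInf_le (OrderBot.bddBelow _) i
  refine ⟨?_, ?_, ?_, ?_, ?_⟩
  · intro i
    cases i with
    | none =>
      right
      show pr BB rho ≠ 0
      rw [pr_BB_rho]
      norm_num
    | some w =>
      left
      show pr (AAw ν) (lf a w.1) ≠ 0
      rw [pr_AAw_lf]
      intro h
      apply (hR.facet w.1 w.2).1
      funext j
      have h1 : ∑ j, ν j * w.1 j = 0 := by exact_mod_cast h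
      have h2 := (Finset.sum_eq_zero_iff.1 h1) j (mem_univ j)
      rcases Nat.mul_eq_zero.1 h2 with h3 | h3
      · exact absurd h3 (hν j).ne'
      · exact h3
  · intro i ω
    cases i with
    | none =>
      rcases ω with q | j
      · show 0 ≤ pr (pf a (Sum.inl q)) rho
        rw [pf_inl]
        simp [rho]
      · show 0 ≤ pr (pf a (Sum.inr j)) rho
        rw [pf_inr]
        simp [rho]
    | some w =>
      rcases ω with q | j
      · show 0 ≤ pr (pf a (Sum.inl q)) (lf a w.1)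
        rw [pf_inl_lf]
        have := hwmin w.1 q
        omega
      · show 0 ≤ pr (pf a (Sum.inr j)) (lf a w.1)
        rw [pf_inr]
        simp [lf]
  · intro y hy
    refine zgn a ha hr R hR y fun ω => ?_
    rcases ω with q | j
    · exact hy (Sum.inl q.1)
    · exact hy (Sum.inr j)
  · intro y hy
    have h1 : ∀ j, y (Sum.inr j) = 0 := fun j => by
      rw [← pfR_inr a j y]
      exact hy (Sum.inr j)
    have h2 : y (Sum.inl ()) = 0 := by
      have h3 := hy (Sum.inl (⟨0, hr⟩ : Fin r))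
      rw [pfR_inl] at h3
      simpa [h1] using h3
    funext t
    rcases t with t | t
    · exact h2
    · exact h1 t
  · refine ⟨fun _ => 1, fun ω => ?_⟩
    rcases ω with q | j
    · rw [pf_inl]
      have : (0 : ℤ) ≤ ∑ j, (a q j : ℤ) * 1 := Finset.sum_nonneg fun j _ => by positivity
      linarith
    · rw [pf_inr]
      norm_num


theorem jf_triw {n r : ℕ} (ν : Fin n → ℕ) (hν : ∀ j, 0 < ν j) (a : Fin r → (Fin n →₀ ℕ))
    (R : Finset (Fin n → ℕ)) (hR : RaySet a R) (h : R → ℝ)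
    (hh : ∀ τ, GenericOn (rv R) h τ) (τ : Finset (Fin r)) (hτ : τ.Nonempty)
    (𝒟 : H22.FaceCones a τ) :
    JfunW (qN ν) a τ 𝒟 = ∑ σ ∈ upT R h (raysIn a R τ) (n + 1 - H22.faceRank a τ),
      (mulS σ : RatFunc ℂ) * ∏ w ∈ σ, (VL (AAw ν) BB (lf a w.1))⁻¹ := by
  classical
  set S : Finset (Finset R) := upT R h (raysIn a R τ) (n + 1 - H22.faceRank a τ) with hS
  have hup : ∀ σ ∈ S, UpperOn (rv R) h (raysIn a R τ) σ := fun σ hσ => (mem_upT.1 hσ).1
  have hcard : ∀ σ ∈ S, σ.card = n + 1 - H22.faceRank a τ := fun σ hσ => (mem_upT.1 hσ).2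
  let e : (C : Fin S.card) → ((S.equivFin.symm C).1 : Finset R) ≃
      Fin (n + 1 - H22.faceRank a τ) := fun C =>
    Finset.equivFinOfCardEq (hcard _ (S.equivFin.symm C).2)
  let W : (C : Fin S.card) → Fin (n + 1 - H22.faceRank a τ) → R := fun C c => ((e C).symm c).1
  have hWmem : ∀ C c, W C c ∈ (S.equivFin.symm C).1 := fun C c => ((e C).symm c).2
  have hsumW : ∀ (C : Fin S.card) (x : R → ℝ),
      ∑ c, x (W C c) • rv R (W C c) = ∑ i ∈ (S.equivFin.symm C).1, x i • rv R i := by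
    intro C x
    exact (Fintype.sum_equiv (e C).symm (fun c => x (W C c) • rv R (W C c))
      (fun i : ((S.equivFin.symm C).1 : Finset R) => x i • rv R i) (fun c => rfl)).trans
      (Finset.sum_coe_sort _ (fun i => x i • rv R i))
  have hfull : ∀ σ ∈ S, ∀ l ∈ raysIn a R τ,
      rv R l ∈ Submodule.span ℝ (rv R '' (σ : Set R)) := by
    intro σ hσ l hl
    exact upT_span a R τ hτ σ (hup σ hσ).1 (hup σ hσ).2.1 (hcard σ hσ) _ (mem_raysIn.1 hl)
  let 𝒟' : H22.FaceCones a τ :=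
    { m := S.card
      w := fun C c => (W C c).1
      mem := fun C c => mem_raysIn.1 ((hup _ (S.equivFin.symm C).2).1 (hWmem C c))
      indep := by
        intro C
        have h1 : LinearIndependent ℝ
            (fun i : ((S.equivFin.symm C).1 : Finset R) => rv R i) :=
          (hup _ (S.equivFin.symm C).2).2.1
        exact h1.comp _ (e C).symm.injective
      disj := by
        intro C C' hne
        have h1 := disjoint_oCone (rv R) h (raysIn a R τ) _ _
          (hup _ (S.equivFin.symm C).2) (hfull _ (S.equivFin.symm C).2)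
          (hup _ (S.equivFin.symm C').2) (hfull _ (S.equivFin.symm C').2) (by
            intro h
            exact hne (S.equivFin.symm.injective (Subtype.ext h)))
        have h2 : ∀ C, H22.openCone (fun c => H22.toReal (W C c).1) ⊆
            oCone (rv R) (S.equivFin.symm C).1 := by
          rintro C _ ⟨x, hx, rfl⟩
          refine ⟨fun i => if h : i ∈ (S.equivFin.symm C).1 then x (e C ⟨i, h⟩) else 0,
            fun i hi => ?_, ?_⟩
          · simp only [hi, dif_pos]; exact hx _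
          · rw [← hsumW C]
            refine Finset.sum_congr rfl fun c _ => ?_
            have h3 : W C c ∈ (S.equivFin.symm C).1 := hWmem C c
            have h4 : e C ⟨W C c, h3⟩ = c := by
              have : (⟨W C c, h3⟩ : ((S.equivFin.symm C).1 : Finset R)) = (e C).symm c := rfl
              rw [this, Equiv.apply_symm_apply]
            rw [dif_pos h3, h4]
            rfl
        exact Disjoint.mono (h2 C) (h2 C') h1
      cover := by
        intro hv k hk
        obtain ⟨σ, hσ, x, hx, hxe⟩ := znjt_cover a R hR h hh τ hτ hv k hk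
        refine ⟨S.equivFin ⟨σ, hσ⟩, fun c => x (W (S.equivFin ⟨σ, hσ⟩) c), fun c => ?_, ?_⟩
        · apply hx
          have h3 : W (S.equivFin ⟨σ, hσ⟩) c ∈ (S.equivFin.symm (S.equivFin ⟨σ, hσ⟩)).1 :=
            hWmem _ c
          rwa [Equiv.symm_apply_apply] at h3
        · rw [hxe]
          have h4 := hsumW (S.equivFin ⟨σ, hσ⟩) x
          rw [Equiv.symm_apply_apply] at h4
          exact h4.symm }
  rw [Jfun_uniq (qN ν) (fun j => by
    show (0 : ℚ) < ((ν j : ℕ) : ℚ)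
    exact_mod_cast hν j) a τ hτ 𝒟 𝒟']
  have hR1 : ∑ σ ∈ S, (mulS σ : RatFunc ℂ) * ∏ w ∈ σ, (VL (AAw ν) BB (lf a w.1))⁻¹ =
      ∑ C : Fin S.card, (mulS (S.equivFin.symm C).1 : RatFunc ℂ) *
        ∏ w ∈ (S.equivFin.symm C).1, (VL (AAw ν) BB (lf a w.1))⁻¹ := by
    rw [← Finset.sum_coe_sort S
      (fun σ => (mulS σ : RatFunc ℂ) * ∏ w ∈ σ, (VL (AAw ν) BB (lf a w.1))⁻¹)]
    exact (Equiv.sum_comp S.equivFin.symm (fun σ : S => (mulS σ.1 : RatFunc ℂ) *
      ∏ w ∈ σ.1, (VL (AAw ν) BB (lf a w.1))⁻¹)).symm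
  rw [hR1]
  unfold JfunW
  refine Finset.sum_congr rfl fun C _ => ?_
  have hmul : H22.coneMult (𝒟'.w C) = mulS (S.equivFin.symm C).1 := by
    unfold H22.coneMult mulS
    apply znjt_latIndex
    ext y
    constructor
    · rintro ⟨c, rfl⟩
      exact ⟨(e C).symm c, rfl⟩
    · rintro ⟨i, rfl⟩
      refine ⟨e C i, ?_⟩
      show (fun j => (((((e C).symm (e C i)).1).1 j : ℕ) : ℤ)) = _
      rw [Equiv.symm_apply_apply]
  have hprod : ∏ c, (RatFunc.C ((wsp (qN ν) (𝒟'.w C c) : ℚ) : ℂ) +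
      (H22.wmin a (𝒟'.w C c) : RatFunc ℂ) * RatFunc.X)⁻¹ =
      ∏ w ∈ (S.equivFin.symm C).1, (VL (AAw ν) BB (lf a w.1))⁻¹ := by
    rw [← Finset.prod_coe_sort (S.equivFin.symm C).1 (fun w => (VL (AAw ν) BB (lf a w.1))⁻¹)]
    refine Fintype.prod_equiv (e C).symm
      (fun c => (RatFunc.C ((wsp (qN ν) (𝒟'.w C c) : ℚ) : ℂ) +
        (H22.wmin a (𝒟'.w C c) : RatFunc ℂ) * RatFunc.X)⁻¹)
      (fun i : ((S.equivFin.symm C).1 : Finset R) => (VL (AAw ν) BB (lf a i.1.1))⁻¹)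
      (fun c => ?_)
    show _ = (VL (AAw ν) BB (lf a ((e C).symm c).1.1))⁻¹
    rw [VL_lfw]
  rw [hmul, hprod]

/-- WCJ -/
theorem cjfw {n r : ℕ} {ν : Fin n → ℕ} {a : Fin r → (Fin n →₀ ℕ)} {R : Finset (Fin n → ℕ)}
    {s0 : ℂ} {q : Unit ⊕ Fin n → ℤ} {g : Option (Fin r ⊕ Fin n) → ℝ} {h : Option R → ℝ}
    (hC : CSW ν a R s0 q g h) (τ : Finset (Fin r)) (hτ : H22.IsFace a τ)
    (hne : τ.Nonempty) (T : Finset (Fin r)) (hTτ : T ⊆ τ)
    (hT : LinearIndepOn ℝ (H22.rowR a) (T : Set (Fin r))) (hTc : T.card = H22.faceRank a τ)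
    (𝒟 : H22.FaceCones a τ) :
    JfunW (qN ν) a τ 𝒟 =
      ∑ σ ∈ TT (vv a R) (pf a) h (inB T), tmv (AAw ν) BB (vv a R) σ := by
  classical
  obtain ⟨t, ht⟩ := CJF_ne a τ T hne hTτ hT hTc
  rw [jf_triw ν hC.nup a R hC.rays (fun w => h (some w)) (ZJT_gen R h hC.gen') τ hne 𝒟]
  have hle := ZJT_rank_le a τ
  have hGx := CJF_Gx a R τ T hne hTτ hT hTc
  have hmin : ∀ u ∈ raysIn a R τ, ∑ j, a t j * u.1 j = H22.wmin a u.1 := by
    intro u hu
    have h1 := mem_raysIn.1 hu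
    exact (H22.wmin_eq h1 (hTτ ht)).symm
  have hvec : ∀ u ∈ raysIn a R τ, vR (vv a R) (some u) = ZJT_L a t (rv R u) :=
    fun u hu => ZJT_vec a R t u (hmin u hu)
  have hcard : ∀ σ : Finset R, σ.card + (inB T : Finset (Fin r ⊕ Fin n)).card =
      Fintype.card (Unit ⊕ Fin n) ↔ σ.card = n + 1 - H22.faceRank a τ := by
    intro σ
    unfold inB
    rw [card_map, hTc, Fintype.card_sum, Fintype.card_fin, Fintype.card_unit]
    omega
  have hTT : TT (vv a R) (pf a) h (inB T) =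
      (upT R (fun w => h (some w)) (raysIn a R τ) (n + 1 - H22.faceRank a τ)).map
        (mapEmbedding ZJT_e).toEmbedding := by
    ext σ'
    rw [mem_TT, mem_map, hGx]
    constructor
    · rintro ⟨h1, h2⟩
      obtain ⟨σ, hσ, rfl⟩ := subset_map_iff.1 h1.1
      refine ⟨σ, ?_, rfl⟩
      rw [mem_upT]
      refine ⟨(ZJT_upper (rv R) (vR (vv a R)) _ (ZJT_L_inj a t) _ hvec h σ).1 h1, ?_⟩
      rw [card_map] at h2
      exact (hcard σ).1 h2
    · rintro ⟨σ, hσ, rfl⟩
      rw [mem_upT] at hσ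
      refine ⟨(ZJT_upper (rv R) (vR (vv a R)) _ (ZJT_L_inj a t) _ hvec h σ).2 hσ.1, ?_⟩
      show (σ.map ZJT_e).card + _ = _
      rw [card_map]
      exact (hcard σ).2 hσ.2
  rw [hTT, sum_map]
  refine sum_congr rfl fun σ hσ => ?_
  rw [mem_upT] at hσ
  show (mulS σ : RatFunc ℂ) * ∏ w ∈ σ, (VL (AAw ν) BB (lf a w.1))⁻¹ =
    tmv (AAw ν) BB (vv a R) (σ.map ZJT_e)
  unfold tmv
  rw [zjt_mul a R t σ fun u hu => hmin u (hσ.1.1 hu), prod_map]
  rfl

end Pool.Agent.H56.CT
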