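import Pool.Agent.H56.CT.ZDefs
import Pool.Agent.H37.T6.CUF

/-!
# WCU: full simplices and faces, with weights

ADAPT `cuf_gen`, `cuf_a`, `cuf_c` (`Pool/Agent/H37/T6/CUF.lean`; the other lemmas by import): `CSW` instead of `CS`, `AAw ν` instead of `AA` (it is not used except inside `hC.rs`, `hC.qg`).
-/

set_option autoImplicit false

namespace Pool.Agent.H56.CT

open Finset H60.RegTri
open Pool.Agent.H37.T5 Pool.Agent.H37.T6
open Pool.Agent.H56.SMC

variable {n r : ℕ} {ν : Fin n → ℕ} {a : Fin r → (Fin n →₀ ℕ)} {R : Finset (Fin n → ℕ)} {s0 : ℂ}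
  {q : Unit ⊕ Fin n → ℤ} {g : Option (Fin r ⊕ Fin n) → ℝ} {h : Option R → ℝ}

theorem cuf_genw (hC : CSW ν a R s0 q g h) (τ : Finset (Fin r)) :
    GenericOn (H22.rowR a) (fun i => g (some (Sum.inl i))) τ := by
  intro σ _ hσ l _ hlσ β hβ
  let e : Fin r ↪ Option (Fin r ⊕ Fin n) :=
    ⟨fun i => some (Sum.inl i), fun i j hij => Sum.inl_injective (Option.some_injective _ hij)⟩
  have he : ∀ i, vR (phq q (pf a)) (e i) = H22.rowR a i := fun i => vR_pf_inl a i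
  have h1 := hC.rs.ggen univ (σ.map e) (subset_univ _) ((CUF_map e _ _ he σ).2 hσ) (e l)
    (mem_univ _) (by
      intro hmem
      obtain ⟨i, hi, hil⟩ := mem_map.1 hmem
      exact hlσ (e.injective hil ▸ hi)) (Function.extend e β 0) (by
      rw [sum_map, he, hβ]
      refine sum_congr rfl fun j _ => ?_
      rw [e.injective.extend_apply, he])
  rw [sum_map] at h1
  intro h2
  apply h1
  refine h2.trans (sum_congr rfl fun j _ => ?_)
  rw [e.injective.extend_apply]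
  rfl

theorem cuf_aw (hC : CSW ν a R s0 q g h) (T : Finset (Fin r)) (hTne : T.Nonempty)
    (hT : InT (pf a) q g (inB T)) (hF : (TT (vv a R) (pf a) h (inB T)).Nonempty) :
    ∃ τ, H22.IsFace a τ ∧ H22.faceRank a τ = T.card ∧
      T ∈ UF a (fun i => g (some (Sum.inl i))) τ := by
  classical
  obtain ⟨σ, hσ⟩ := hF
  obtain ⟨⟨hσG, hσi, -⟩, hcard⟩ := mem_TT.1 hσ
  obtain ⟨hTi, -, hTU⟩ := rint hT
  have hTG : inB T ⊆ Gx (pf a) (vv a R) σ := sub_Gxs.1 hσG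
  obtain ⟨x0, hx0⟩ : ∃ x0 : Unit ⊕ Fin n → ℝ, x0 = ∑ i ∈ σ, vR (vv a R) i := ⟨_, rfl⟩
  have hprx : ∀ z : Unit ⊕ Fin n → ℤ, prR z x0 = ∑ i ∈ σ, (pr z (vv a R i) : ℝ) := by
    intro z
    rw [hx0, CUF_prx]
  have hnn : ∀ ω, ∀ i ∈ σ, (0 : ℝ) ≤ (pr (pf a ω) (vv a R i) : ℝ) := fun ω i _ => by
    exact_mod_cast hC.rs.zt.nn i ω
  have hpos : ∀ ω, 0 ≤ prR (pf a ω) x0 := by
    intro ω
    rw [hprx]
    exact sum_nonneg (hnn ω)
  have hzero : ∀ ω, prR (pf a ω) x0 = 0 ↔ ω ∈ Gx (pf a) (vv a R) σ := by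
    intro ω
    rw [hprx, sum_eq_zero_iff_of_nonneg (hnn ω), mem_Gxs]
    exact ⟨fun h1 i hi => by exact_mod_cast h1 i hi, fun h1 i hi => by exact_mod_cast h1 i hi⟩
  obtain ⟨τ, hτd⟩ : ∃ τ : Finset (Fin r),
      τ = univ.filter (fun l => (Sum.inl l : Fin r ⊕ Fin n) ∈ Gx (pf a) (vv a R) σ) := ⟨_, rfl⟩
  have hmτ : ∀ l, l ∈ τ ↔ (Sum.inl l : Fin r ⊕ Fin n) ∈ Gx (pf a) (vv a R) σ := by
    intro l
    rw [hτd, mem_filter]
    exact ⟨fun h => h.2, fun h => ⟨mem_univ _, h⟩⟩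
  have hTτ : T ⊆ τ := fun l hl => (hmτ l).2 (hTG (mem_inB.2 hl))
  have hP : ∀ l, prR (pf a (Sum.inl l)) x0 =
      x0 (Sum.inl ()) + ∑ j, (a l j : ℝ) * x0 (Sum.inr j) := fun l => pfR_inl a l x0
  have hface : H22.IsFace a τ := by
    refine ⟨fun j => x0 (Sum.inr j), fun j => ?_, fun l => ⟨fun hl l' => ?_, fun hl => ?_⟩⟩
    · have h1 := hpos (Sum.inr j)
      rwa [pfR_inr] at h1
    · have h1 := (hzero (Sum.inl l)).2 ((hmτ l).1 hl)
      have h2 := hpos (Sum.inl l')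
      rw [hP] at h1 h2
      linarith
    · obtain ⟨i0, hi0⟩ := hTne
      have h1 := (hzero (Sum.inl i0)).2 ((hmτ i0).1 (hTτ hi0))
      have h2 := hpos (Sum.inl l)
      have h3 := hl i0
      rw [hmτ, ← hzero]
      rw [hP] at h1 h2 ⊢
      linarith
  have hTi' : LinearIndepOn ℝ (H22.rowR a) (T : Set (Fin r)) := (cuf_ind a T).1 hTi
  have hspan : Submodule.span ℝ (H22.rowR a '' (τ : Set (Fin r))) =
      Submodule.span ℝ (H22.rowR a '' (T : Set (Fin r))) := by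
    apply le_antisymm
    · rw [Submodule.span_le]
      rintro _ ⟨l, hl, rfl⟩
      rw [SetLike.mem_coe, mem_span_iff]
      have hl' : (Sum.inl l : Fin r ⊕ Fin n) ∈ Gx (pf a) (vv a R) σ :=
        (hmτ l).1 (by exact_mod_cast hl)
      obtain ⟨β, hβ⟩ := rdim (pf a) (vv a R) σ (inB T) hσi hTi (fun ω hω i hi => by
          rw [pr_cm]
          exact mem_Gxs.1 (hTG hω) i hi) (by rw [add_comm]; exact hcard)
        (vR (pf a) (Sum.inl l)) (fun i hi => by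
          rw [prR_vR, pr_cm, mem_Gxs.1 hl' i hi, Int.cast_zero])
      refine ⟨fun i => β (Sum.inl i), ?_⟩
      rw [vR_pf_inl, CUF_sum] at hβ
      rw [hβ]
      refine sum_congr rfl fun i _ => ?_
      rw [vR_pf_inl]
    · exact Submodule.span_mono (Set.image_mono (by exact_mod_cast hTτ))
  have hrank : H22.faceRank a τ = T.card := by
    rw [H60.ConeExist.card_eq_finrank (H22.rowR a) T hTi', ← hspan]
    rfl
  refine ⟨τ, hface, hrank, mem_UF.2 ⟨?_, hrank.symm⟩⟩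
  have hsub : (inB T : Finset (Fin r ⊕ Fin n)) ⊆ inB τ := by
    intro ω hω
    rcases ω with i | j
    · exact mem_inB.2 (hTτ (mem_inB.1 hω))
    · exact absurd hω inr_inB
  exact CUF_up (subset_refl _) hTτ (hTU (inB τ) hsub)

theorem cuf_cw (hC : CSW ν a R s0 q g h) (τ : Finset (Fin r)) (hτ : H22.IsFace a τ)
    (T : Finset (Fin r)) (hTne : T.Nonempty) (hTn : T.card ≤ n)
    (h1 : T ∈ UF a (fun i => g (some (Sum.inl i))) τ)
    (hF : (TT (vv a R) (pf a) h (inB T)).Nonempty) : InT (pf a) q g (inB T) := by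
  classical
  obtain ⟨σ, hσ⟩ := hF
  obtain ⟨⟨hσG, hσi, -⟩, hcard⟩ := mem_TT.1 hσ
  obtain ⟨⟨hTτ, hTi, hTU⟩, -⟩ := mem_UF.1 h1
  have hΞ := (cuf_ind a T).2 hTi
  have hne : σ.Nonempty := by
    rw [← Finset.card_pos]
    have h2 : Fintype.card (Unit ⊕ Fin n) = n + 1 := by
      rw [Fintype.card_sum, Fintype.card_unit, Fintype.card_fin, add_comm]
    rw [h2, CUF_inB_card] at hcard
    omega
  refine rext hC.rs (inB T) σ hΞ hσi hσG hcard hne ⟨sub_Gxs.1 hσG, hΞ, ?_⟩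
  intro l _ hlT β hβ
  rcases l with i | j
  · rw [vR_pf_inl, CUF_sum] at hβ
    have hβ' : H22.rowR a i = ∑ i ∈ T, β (Sum.inl i) • H22.rowR a i := by
      rw [hβ]
      refine sum_congr rfl fun i _ => ?_
      rw [vR_pf_inl]
    have h2 := hTU i (CUF_aff hτ hTne hTτ i ⟨_, hβ'⟩) (fun hmem => hlT (mem_inB.2 hmem))
      (fun i => β (Sum.inl i)) hβ'
    rw [CUF_sum]
    exact h2
  · rw [CUF_sum] at hβ
    have h2 := hC.bot T (by
      have h3 : (fun i => vR (pf a) (Sum.inl i)) = H22.rowR a := funext fun i => vR_pf_inl a i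
      rw [h3]
      exact hTi) j (fun i => β (Sum.inl i)) hβ
    rw [CUF_sum]
    exact h2

end Pool.Agent.H56.CT
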