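import Pool.Agent.H56.CT.WCJ
import Pool.Agent.H56.CT.WCU
import Pool.Agent.H37.T6.CSA

/-!
# WCS: the sum over the faces of a given rank, with weights

ADAPT `Pool/Agent/H37/T6/CSA.lean`: `CSA_sumTT`, `CSA_zero`, `CSA_one`, `csa` with `CSW`, `AAw ν`, `JfunW (qN ν)`, `cjfw`, `cuf_genw`, `cuf_aw`, `cuf_cw` (`cuf_b`, `cuf_ind`, `cnv`, `rjl` by import).
-/

set_option autoImplicit false

namespace Pool.Agent.H56.CT

open Finset H60.RegTri
open Pool.Agent.H37.T5 Pool.Agent.H37.T6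
open Pool.Agent.H56.SMC

variable {n r : ℕ} {ν : Fin n → ℕ} {a : Fin r → (Fin n →₀ ℕ)} {R : Finset (Fin n → ℕ)} {s0 : ℂ}
  {q : Unit ⊕ Fin n → ℤ} {g : Option (Fin r ⊕ Fin n) → ℝ} {h : Option R → ℝ}

theorem WCS_sumTT (ν : Fin n → ℕ) (a : Fin r → (Fin n →₀ ℕ)) (R : Finset (Fin n → ℕ)) (h : Option R → ℝ)
    (T : Finset (Fin r)) (hT : T.card ≤ n) :
    ∑ σ ∈ TT (vv a R) (pf a) h (inB T), tmv (AAw ν) BB (vv a R) σ =
      (mulv (pf a) (inB T) : RatFunc ℂ) * JJ (vv a R) (pf a) (AAw ν) BB h univ (inB T) := by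
  have hm : (mulv (pf a) (inB T) : RatFunc ℂ) ≠ 0 := Nat.cast_ne_zero.mpr (mulv_ne (pf a) _)
  unfold JJ
  rw [← mul_assoc, mul_inv_cancel₀ hm, one_mul]
  refine sum_congr ?_ fun _ _ => rfl
  ext σ
  rw [mem_TC]
  constructor
  · intro hσ
    have h1 := (mem_TT.1 hσ).2
    rw [CSA_card, CSA_cardB] at h1
    have h2 : 0 < σ.card := by omega
    obtain ⟨c, hc⟩ := card_pos.1 h2
    exact ⟨hσ, c, hc, mem_univ _⟩
  · exact fun hσ => hσ.1

theorem WCS_zero (hC : CSW ν a R s0 q g h) (T : Finset (Fin r)) (hT : T.card ≤ n)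
    (hne : LLs (pf a) q (AAw ν) BB (DD (pf a) q g) (inB T) ≠ 0) :
    InT (pf a) q g (inB T) ∧ (TT (vv a R) (pf a) h (inB T)).Nonempty := by
  classical
  have hI : InT (pf a) q g (inB T) := by
    by_contra hcon
    apply hne
    unfold LLs
    have h6 : (DD (pf a) q g).filter (fun Δ => inB T ⊆ Δ) = ∅ := by
      rw [filter_eq_empty_iff]
      exact fun Δ' hΔ' h7 => hcon ⟨Δ', hΔ', h7⟩
    rw [h6, sum_empty]
  refine ⟨hI, ?_⟩
  by_contra hcon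
  rw [not_nonempty_iff_eq_empty] at hcon
  apply hne
  rw [← rjl hC.rs hC.qg (inB T) hI]
  have h1 := WCS_sumTT ν a R h T hT
  rw [hcon, sum_empty] at h1
  have hm : (mulv (pf a) (inB T) : RatFunc ℂ) ≠ 0 := Nat.cast_ne_zero.mpr (mulv_ne (pf a) _)
  exact (mul_eq_zero.1 h1.symm).resolve_left hm

theorem WCS_one (hC : CSW ν a R s0 q g h) (τ : Finset (Fin r)) (hτ : H22.IsFace a τ)
    (T : Finset (Fin r)) (hTne : T.Nonempty) (hT : T.card ≤ n)
    (h1 : T ∈ UF a (fun i => g (some (Sum.inl i))) τ) :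
    ∑ σ ∈ TT (vv a R) (pf a) h (inB T), tmv (AAw ν) BB (vv a R) σ =
      (mulv (pf a) (inB T) : RatFunc ℂ) * LLs (pf a) q (AAw ν) BB (DD (pf a) q g) (inB T) := by
  rcases (TT (vv a R) (pf a) h (inB T)).eq_empty_or_nonempty with h2 | h2
  · by_cases h3 : LLs (pf a) q (AAw ν) BB (DD (pf a) q g) (inB T) = 0
    · rw [h3, mul_zero, h2, sum_empty]
    · exact absurd h2 (WCS_zero hC T hT h3).2.ne_empty
  · rw [WCS_sumTT ν a R h T hT, rjl hC.rs hC.qg (inB T) (cuf_cw hC τ hτ T hTne hT h1 h2)]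

/-- WCS -/
theorem csaw (hC : CSW ν a R s0 q g h) (𝒟 : ∀ τ, H22.FaceCones a τ) (𝒯 : ∀ τ, H22.FaceTriang a τ)
    (F : Finset (Finset (Fin r))) (d : ℕ) (hd : 1 ≤ d) (hdn : d ≤ n)
    (hF : ∀ τ, τ ∈ F ↔ H22.IsFace a τ ∧ H22.faceRank a τ = d) :
    ∑ τ ∈ F, (H22.nvol (𝒯 τ) : RatFunc ℂ) * JfunW (qN ν) a τ (𝒟 τ) =
      ∑ T ∈ univ.filter (fun T : Finset (Fin r) => T.card = d),
        (((mulv (pf a) (inB T)) ^ 2 : ℕ) : RatFunc ℂ) *
          LLs (pf a) q (AAw ν) BB (DD (pf a) q g) (inB T) := by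
  classical
  have hUFd : ∀ τ ∈ F, ∀ T ∈ UF a (fun i => g (some (Sum.inl i))) τ, T.card = d := by
    intro τ hτ T hT
    rw [(mem_UF.1 hT).2, ((hF τ).1 hτ).2]
  have hne : ∀ T : Finset (Fin r), T.card = d → T.Nonempty := by
    intro T hT
    rw [← card_pos]
    omega
  have h2 : ∀ τ ∈ F, (H22.nvol (𝒯 τ) : RatFunc ℂ) * JfunW (qN ν) a τ (𝒟 τ) =
      ∑ T ∈ UF a (fun i => g (some (Sum.inl i))) τ, (((mulv (pf a) (inB T)) ^ 2 : ℕ) : RatFunc ℂ) *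
          LLs (pf a) q (AAw ν) BB (DD (pf a) q g) (inB T) := by
    intro τ hτ
    obtain ⟨hface, hrk⟩ := (hF τ).1 hτ
    have hτne : τ.Nonempty := by
      rw [nonempty_iff_ne_empty]
      rintro rfl
      have h3 : H22.faceRank a ∅ = 0 := by
        unfold H22.faceRank
        rw [coe_empty, Set.image_empty, Submodule.span_empty, finrank_bot]
      omega
    rw [cnv a (fun i => g (some (Sum.inl i))) (cuf_genw hC) τ hτne (𝒯 τ), Nat.cast_sum, sum_mul]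
    refine sum_congr rfl fun T hT => ?_
    obtain ⟨hup, hc⟩ := mem_UF.1 hT
    rw [cjfw hC τ hface hτne T hup.1 hup.2.1 hc (𝒟 τ),
      WCS_one hC τ hface T (hne T (hUFd τ hτ T hT)) (by rw [hUFd τ hτ T hT]; exact hdn) hT,
      Nat.cast_pow, pow_two, mul_assoc]
  rw [sum_congr rfl h2, ← sum_biUnion]
  · apply sum_subset
    · intro T hT
      obtain ⟨τ, hτ, hT'⟩ := mem_biUnion.1 hT
      exact mem_filter.2 ⟨mem_univ _, hUFd τ hτ T hT'⟩
    · intro T hT hT2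
      have hTd : T.card = d := (mem_filter.1 hT).2
      by_cases h3 : LLs (pf a) q (AAw ν) BB (DD (pf a) q g) (inB T) = 0
      · rw [h3, mul_zero]
      · exfalso
        obtain ⟨hI, hN⟩ := WCS_zero hC T (by omega) h3
        obtain ⟨τ, hτ, hrk, hmem⟩ := cuf_aw hC T (hne T hTd) hI hN
        exact hT2 (mem_biUnion.2 ⟨τ, (hF τ).2 ⟨hτ, hrk.trans hTd⟩, hmem⟩)
  · intro τ hτ τ' hτ' hne'
    rw [Function.onFun, disjoint_left]
    intro T hT hT'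
    exact hne' (cuf_b (fun i => g (some (Sum.inl i))) τ τ' ((hF τ).1 hτ).1 ((hF τ').1 hτ').1 T
      (hne T (hUFd τ hτ T hT)) hT hT')

end Pool.Agent.H56.CT
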