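import Pool.Agent.H22.T6.GDefs
import Pool.Agent.H22.T7.TDefs
import Pool.Agent.H56.CT.SD0

/-!
# The chains T6, T7 with weights: definitions

The form `∏ x_j^{p_j - 1} dx_j`, `0 < p_j ≤ 1`, instead of `∏ dx_j`.  The names are those of `H22.T6`, `H37.T6` with a suffix.
-/

set_option autoImplicit false

namespace Pool.Agent.H56.CT

open Finset AddMonoidAlgebra
open Pool.Agent.H56.SMC Pool.Agent.H37.T5 Pool.Agent.H56.T5 Pool.Agent.H37.T6 Pool.Agent.H22.T6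

/-- The candidate pole `-(∑ p_j w_j) / N(w)`. -/
noncomputable def s0p {n r : ℕ} (a : Fin r → (Fin n →₀ ℕ)) (p : Fin n → ℚ) (w : Fin n → ℕ) : ℂ :=
  -((wsp p w : ℚ) : ℂ) / (H22.wmin a w : ℂ)

/-- The point `((∑ p_j w_j)/N(w); p)`. -/
noncomputable def p0W {n r : ℕ} (a : Fin r → (Fin n →₀ ℕ)) (p : Fin n → ℚ) (w : Fin n → ℕ) :
    Unit ⊕ Fin n → ℝ :=
  Sum.elim (fun _ => ((wsp p w : ℚ) : ℝ) / (H22.wmin a w : ℝ)) (fun j => (p j : ℝ))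

/-- `YD` with weights. -/
structure YDp {n r : ℕ} (a : Fin r → (Fin n →₀ ℕ)) (p : Fin n → ℚ) (w : Fin n → ℕ)
    (Yb : Finset (Fin r)) (Yj : Finset (Fin n)) : Prop where
  pos : 0 < H22.wmin a w
  on : ∀ b ∈ Yb, ∑ j, a b j * w j = H22.wmin a w
  onj : ∀ j ∈ Yj, w j = 0
  ind : LinearIndependent ℝ (Sum.elim (fun b : Yb => H22.rowR a b.1)
    (fun j : Yj => (eR j.1 : Unit ⊕ Fin n → ℝ)))
  rel : ∀ y : Unit ⊕ Fin n → ℝ,
    (∀ i, ∑ j, a i j * w j = H22.wmin a w → 0 ≤ ∑ t, H22.rowR a i t * y t) →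
    (∀ j, w j = 0 → 0 ≤ y (Sum.inr j)) →
    (∀ b ∈ Yb, ∑ t, H22.rowR a b t * y t = 0) → (∀ j ∈ Yj, y (Sum.inr j) = 0) →
    (∀ i, ∑ j, a i j * w j = H22.wmin a w → ∑ t, H22.rowR a i t * y t = 0) ∧
      ∀ j, w j = 0 → y (Sum.inr j) = 0
  span : p0W a p w ∈ Submodule.span ℝ
    ({y | ∃ b ∈ Yb, y = H22.rowR a b} ∪ {y | ∃ j ∈ Yj, y = eR j})

/-- Some `b ∈ Yb` has exactly one apex direction, and this direction is in `T`. -/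
def UYp {n r : ℕ} (a : Fin r → (Fin n →₀ ℕ)) (T : Finset (Fin n)) (Yb : Finset (Fin r))
    (Yj : Finset (Fin n)) : Prop :=
  ∃ b k, k ∈ T ∧ ApexY a Yb Yj b k ∧ ∀ k', ApexY a Yb Yj b k' → k' = k

/-- Some `b ∈ Yb` has exactly one apex direction in `T`. -/
def UYt {n r : ℕ} (a : Fin r → (Fin n →₀ ℕ)) (T : Finset (Fin n)) (Yb : Finset (Fin r))
    (Yj : Finset (Fin n)) : Prop :=
  ∃ b k, k ∈ T ∧ ApexY a Yb Yj b k ∧ ∀ k' ∈ T, ApexY a Yb Yj b k' → k' = k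

/-- The hypothesis of the zeta side, with weights. -/
def HYp {n r : ℕ} (a : Fin r → (Fin n →₀ ℕ)) (p : Fin n → ℚ) (T : Finset (Fin n)) (s0 : ℂ) :
    Prop :=
  ∀ (w : Fin n → ℕ) (Yb : Finset (Fin r)) (Yj : Finset (Fin n)), YDp a p w Yb Yj →
    s0 = s0p a p w → UYt a T Yb Yj

/-- The same for weight vectors with positive entries. -/
def HYpPos {n r : ℕ} (a : Fin r → (Fin n →₀ ℕ)) (p : Fin n → ℚ) (T : Finset (Fin n)) (s0 : ℂ) :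
    Prop :=
  ∀ (w : Fin n → ℕ) (Yb : Finset (Fin r)) (Yj : Finset (Fin n)), (∀ j, 0 < w j) →
    YDp a p w Yb Yj → s0 = s0p a p w → UYp a T Yb Yj

/-- The directions with weight `1`. -/
def TT1 {n : ℕ} (p : Fin n → ℚ) : Finset (Fin n) := univ.filter (fun j => p j = 1)

/-- The face of `w` is critical for the weights `p`. -/
def CritW {n r : ℕ} (a : Fin r → (Fin n →₀ ℕ)) (p : Fin n → ℚ) (w : Fin n → ℕ) : Prop :=
  p0W a p w ∈ Submodule.span ℝ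
    ({y | ∃ i ∈ FF a w, y = H22.rowR a i} ∪ {y | ∃ j, w j = 0 ∧ y = (eR j : Unit ⊕ Fin n → ℝ)})

/-- `LPD` with weights. -/
structure LPW {n r : ℕ} (A : Fin r → Fin n → ℕ) (F : Finset (Fin r)) (C P : Finset (Fin n))
    (c : Fin n → ℚ) (lam : Fin r → ℚ) (p : Fin n → ℚ) : Prop where
  PC : P ⊆ C
  c0 : ∀ j, 0 ≤ c j
  cP : ∀ j, c j ≠ 0 ↔ j ∈ P
  c1 : ∀ i ∈ F, ∑ j, c j * (A i j : ℚ) ≤ 1
  l0 : ∀ i ∈ F, 0 < lam i
  lP : ∀ j ∈ P, ∑ i ∈ F, lam i * (A i j : ℚ) = p j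
  lC : ∀ j ∈ C, j ∉ P → p j < ∑ i ∈ F, lam i * (A i j : ℚ)

/-- `TH` with weights. -/
structure THW {n r : ℕ} (a : Fin r → (Fin n →₀ ℕ)) (w : Fin n → ℕ) (M : ℤ) (P : Finset (Fin n))
    (D : ℤ) (cZ : Fin n → ℤ) (p : Fin n → ℚ) (θ : IX n r → ℚ) : Prop where
  off : ∀ g, dt (h5 a w) (A5 a M g) ≠ 0 → θ g = 0
  nn : ∀ g, 0 ≤ θ g
  P1 : ∀ j ∈ P, yq a M θ j.succ.succ = p j
  J1 : ∀ j, (∃ i, a i j = 0) → p j ≤ yq a M θ j.succ.succ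
  l2 : yq a M θ (Fin.succ 0) < 1
  sm : (D : ℚ) * yq a M θ 0 - ∑ j, (cZ j : ℚ) * yq a M θ j.succ.succ < 1

/-- The parameter `(-s, -t; p)`. -/
def ppw {n : ℕ} {R : Type} [CommRing R] (p : Fin n → R) (s t : R) : Fin (n + 2) → R :=
  Fin.cons (-s) (Fin.cons (-t) p)

/-- The weights as complex numbers. -/
noncomputable def pC {n : ℕ} (p : Fin n → ℚ) (j : Fin n) : ℂ := (p j : ℂ)

/-- The exponents `(l, l2; q)` with `l ≥ 0`, `q ≥ 0`, `q·v ≥ l N(v)` for all `v ≥ 0`, and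
`q·w > l N(w)`. -/
def HiV {n r : ℕ} (a : Fin r → (Fin n →₀ ℕ)) (w : Fin n → ℕ) : Set (Lat (n + 2)) :=
  {u | ∃ (l l2 : ℤ) (q : Fin n → ℤ), u = vec l l2 q ∧ 0 ≤ l ∧ (∀ j, 0 ≤ q j) ∧
    (∀ v : Fin n → ℕ, l * (H22.wmin a v : ℤ) ≤ ∑ j, q j * (v j : ℤ)) ∧
    l * (H22.wmin a w : ℤ) < ∑ j, q j * (w j : ℤ)}

/-- The relation obtained from the functional equation, for the weight vector `w`: `b(s) · 1` is
exact up to terms with exponents in `HiV`. -/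
def RELH {n r : ℕ} (a : Fin r → (Fin n →₀ ℕ)) (κ : Fin r → ℂ) (p : Fin n → ℚ)
    (b : Polynomial ℂ) (w : Fin n → ℕ) : Prop :=
  ∀ (M : ℤ), 0 < M → ∀ lam : Option (Fin n) ⊕ Fin 0 → ℂ, ∃ x : LP PA (n + 2),
    ExL (fun j => jK (ppw (fun j => PowerSeries.C (pC p j))
        (PowerSeries.C (s0p a p w) + PowerSeries.X) (PowerSeries.C Complex.I) j))
      (A5 a M) (fun i => jK (PowerSeries.C (cC κ lam i))) ev (sh (TT1 p)) Set.univ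
      (lmap jK (single 0
        (Polynomial.aeval (PowerSeries.C (s0p a p w) + PowerSeries.X : PA) b) - x)) ∧
    ∀ u, x.coeff u ≠ 0 → u ∈ HiV a w

end Pool.Agent.H56.CT
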