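import Pool.Agent.H56.CT.WDefs
import Pool.Agent.H22.T6.LP

/-!
# WLP: the linear programming lemma with weights

Proof.  Write `p j = P_j / Q` with a common denominator `Q > 0` and natural numbers `P_j > 0` (`Q = ∏ denominators`).  `L = ∏ P_j`.  Apply `lp` (`Pool/Agent/H22/T6/LP.lean`) to the natural matrix `A' i j = A i j * (L / P_j)` (`L/P_j` a natural number
`> 0`) and the same `F`, `C`: `P`, `c'`, and for every `η'` some `lam'`.  Put `c j = c' j * (L/P_j)` and, for `η`, `lam i = lam' i * (L/Q)` with `η' = η Q/L`.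
`∑ j, c j * A i j = ∑ j, c' j * A' i j ≤ 1`.  `∑ i, lam i * A i j = (L/Q) (P_j/L) ∑ lam' i A' i j = (P_j/Q) ∑ lam' i A' i j = p j ∑ lam' i A' i j`, which is `p j` for `j ∈ P` and `> p j` for `j ∈ C \ P`.
`∑ lam i (1 - ∑ c j A i j) = (L/Q) ∑ lam' i (1 - ∑ c' j A' i j) < (L/Q) η' = η`.
-/

set_option autoImplicit false

namespace Pool.Agent.H56.CT

open Finset AddMonoidAlgebra
open Pool.Agent.H56.SMC Pool.Agent.H37.T5 Pool.Agent.H56.T5 Pool.Agent.H37.T6 Pool.Agent.H22.T6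

/-- multipliers making the weights equal -/
theorem WLP_t {n : ℕ} (p : Fin n → ℚ) (hp : ∀ j, 0 < p j) :
    ∃ (t : Fin n → ℕ) (μ : ℚ), 0 < μ ∧ (∀ j, 0 < t j) ∧ ∀ j, p j * (t j : ℚ) = μ := by
  have hnum : ∀ j, 0 < (p j).num := fun j => Rat.num_pos.2 (hp j)
  have hN : ∀ j, (((p j).num.toNat : ℕ) : ℚ) = ((p j).num : ℚ) := by
    intro j
    have h1 : (((p j).num.toNat : ℕ) : ℤ) = (p j).num := Int.toNat_of_nonneg (hnum j).le
    exact_mod_cast congrArg (Int.cast : ℤ → ℚ) h1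
  have hN0 : ∀ j, 0 < (p j).num.toNat := by
    intro j
    have := hnum j
    omega
  refine ⟨fun j => (p j).den * ∏ k ∈ univ.erase j, (p k).num.toNat, ∏ k, ((p k).num : ℚ), ?_, ?_, ?_⟩
  · exact prod_pos fun k _ => by exact_mod_cast hnum k
  · intro j
    exact Nat.mul_pos (p j).den_pos (prod_pos fun k _ => hN0 k)
  · intro j
    rw [← mul_prod_erase univ _ (mem_univ j)]
    push_cast
    rw [← mul_assoc, Rat.mul_den_eq_num]
    congr 1
    exact prod_congr rfl fun k _ => hN k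

/-- WLP -/
theorem lpw {n r : ℕ} (A : Fin r → Fin n → ℕ) (F : Finset (Fin r)) (hF : F.Nonempty)
    (C : Finset (Fin n)) (hC : ∀ j ∈ C, ∃ i ∈ F, A i j ≠ 0) (p : Fin n → ℚ)
    (hp : ∀ j, 0 < p j) :
    ∃ (P : Finset (Fin n)) (c : Fin n → ℚ), ∀ η : ℚ, 0 < η → ∃ lam : Fin r → ℚ,
      LPW A F C P c lam p ∧ ∑ i ∈ F, lam i * (1 - ∑ j, c j * (A i j : ℚ)) < η := by
  obtain ⟨t, μ, hμ, ht, htp⟩ := WLP_t p hp
  obtain ⟨P, c', h⟩ := lp (fun i j => A i j * t j) F hF C (by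
    intro j hj
    obtain ⟨i, hi, h1⟩ := hC j hj
    exact ⟨i, hi, Nat.mul_ne_zero h1 (ht j).ne'⟩)
  have ht' : ∀ j, (0 : ℚ) < t j := fun j => by exact_mod_cast ht j
  have hc : ∀ i, ∑ j, c' j * (t j : ℚ) * (A i j : ℚ) = ∑ j, c' j * ((A i j * t j : ℕ) : ℚ) := by
    intro i
    refine sum_congr rfl fun j _ => ?_
    push_cast
    ring
  refine ⟨P, fun j => c' j * (t j : ℚ), fun η hη => ?_⟩
  obtain ⟨lam, hl, hlt⟩ := h (η / μ) (div_pos hη hμ)
  have hs : ∀ j, ∑ i ∈ F, μ * lam i * (A i j : ℚ) = p j * ∑ i ∈ F, lam i * ((A i j * t j : ℕ) : ℚ) := by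
    intro j
    rw [mul_sum]
    refine sum_congr rfl fun i _ => ?_
    rw [← htp j]
    push_cast
    ring
  refine ⟨fun i => μ * lam i, ⟨hl.PC, ?_, ?_, ?_, ?_, ?_, ?_⟩, ?_⟩
  · intro j
    exact mul_nonneg (hl.c0 j) (ht' j).le
  · intro j
    rw [← hl.cP j]
    exact ⟨fun h1 => left_ne_zero_of_mul h1, fun h1 => mul_ne_zero h1 (ht' j).ne'⟩
  · intro i hi
    rw [hc]
    exact hl.c1 i hi
  · intro i hi
    exact mul_pos hμ (hl.l0 i hi)
  · intro j hj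
    rw [hs, hl.lP j hj, mul_one]
  · intro j hj hj'
    rw [hs]
    exact lt_mul_of_one_lt_right (hp j) (hl.lC j hj hj')
  · have e : ∑ i ∈ F, μ * lam i * (1 - ∑ j, c' j * (t j : ℚ) * (A i j : ℚ)) =
        μ * ∑ i ∈ F, lam i * (1 - ∑ j, c' j * ((A i j * t j : ℕ) : ℚ)) := by
      rw [mul_sum]
      refine sum_congr rfl fun i _ => ?_
      rw [hc, mul_assoc]
    rw [e]
    rw [lt_div_iff₀ hμ] at hlt
    rw [mul_comm]
    exact hlt

end Pool.Agent.H56.CT
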