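import Pool.Agent.H56.CT.WDefs
import Pool.Agent.H22.T6.GTA

/-!
# WTA: the coefficients of the level with weights

ADAPT `theta` (`Pool/Agent/H22/T6/GTA.lean`, all lemmas `GTA_..` by import; the same `θ0 = GTA_t a w lam`).  Changes: the hypothesis is `LPW .. p`; `P1`: the value on `P` is `p j` (`hL.lP`); `J1`: for `j ∉ P` with `∃ i, a i j = 0`: if `w j = 0` the value is
`≥ M/(n+1) > 1 ≥ p j` (`hp`); if `w j ≠ 0` then `j ∈ CC0 a w \ P` and the value is `> p j` (`hL.lC`).  `l2`, `sm` are unchanged.  The condition on `ρ` is now `∀ j ∈ P, yq a M ρ j.succ.succ = 0`.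
-/

set_option autoImplicit false

namespace Pool.Agent.H56.CT

open Finset AddMonoidAlgebra
open Pool.Agent.H56.SMC Pool.Agent.H37.T5 Pool.Agent.H56.T5 Pool.Agent.H37.T6 Pool.Agent.H22.T6

open Topology in
/-- WTA -/
theorem thetaw {n r : ℕ} (a : Fin r → (Fin n →₀ ℕ)) (w : Fin n → ℕ) (M : ℤ)
    (hM : (n : ℤ) + 2 ≤ M) (P : Finset (Fin n)) (c : Fin n → ℚ) (lam : Fin r → ℚ)
    (p : Fin n → ℚ) (hp : ∀ j, 0 < p j ∧ p j ≤ 1)
    (hL : LPW (fun i j => a i j) (FF a w) (CC0 a w) P c lam p) (D : ℤ) (hD : 0 < D)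
    (cZ : Fin n → ℤ) (hcZ : ∀ j, (cZ j : ℚ) = D * c j)
    (hsm : ∑ i ∈ FF a w, lam i * (1 - ∑ j, c j * (a i j : ℚ)) < 1 / (2 * D)) :
    ∃ (θ0 : IX n r → ℚ) (ε : ℚ), 0 < ε ∧ ∀ ρ : IX n r → ℚ, (∀ g, |ρ g| < ε) →
      (∀ g, dt (h5 a w) (A5 a M g) ≠ 0 → ρ g = 0) →
      (∀ j ∈ P, yq a M ρ j.succ.succ = 0) → THW a w M P D cZ p (fun g => θ0 g + ρ g) := by
  classical
  have hM0 : 0 < M := by omega
  have hMq : (n : ℚ) + 2 ≤ (M : ℚ) := by exact_mod_cast hM
  have hn : (0 : ℚ) < (n : ℚ) + 1 := by positivity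
  have hDq : (0 : ℚ) < (D : ℚ) := by exact_mod_cast hD
  obtain ⟨t, ht⟩ : ∃ t : IX n r → ℚ, t = GTA_t a w lam := ⟨_, rfl⟩
  have ti : ∀ i, t (Sum.inl i) = if i ∈ FF a w then lam i else 0 := fun i => by rw [ht]; rfl
  have tn : t (Sum.inr (Sum.inl none)) = 1 / (2 * ((n : ℚ) + 1)) := by rw [ht]; rfl
  have ts : ∀ j, t (Sum.inr (Sum.inl (some j))) = if w j = 0 then 1 / ((n : ℚ) + 1) else 0 :=
    fun j => by rw [ht]; rfl
  have hPw : ∀ j ∈ P, w j ≠ 0 := by
    intro j hj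
    have h1 := hL.PC hj
    unfold CC0 at h1
    exact (Finset.mem_filter.1 h1).2.1
  -- coordinates
  have y0 : yq a M t 0 = ∑ i ∈ FF a w, lam i := by
    rw [GTA_yq0]
    simp only [ti]
    rw [Finset.sum_ite_mem, Finset.univ_inter]
  have y1 : yq a M t (Fin.succ 0) < 1 := by
    rw [GTA_yq1, tn]
    have h1 : ∑ j, t (Sum.inr (Sum.inl (some j))) ≤ ∑ _j : Fin n, 1 / ((n : ℚ) + 1) := by
      refine Finset.sum_le_sum fun j _ => ?_
      rw [ts]
      split_ifs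
      · exact le_rfl
      · positivity
    have h2 : ∑ _j : Fin n, 1 / ((n : ℚ) + 1) = (n : ℚ) / ((n : ℚ) + 1) := by
      rw [Finset.sum_const, Finset.card_univ, Fintype.card_fin, nsmul_eq_mul]
      ring
    rw [h2] at h1
    have h3 : 1 / (2 * ((n : ℚ) + 1)) + (n : ℚ) / ((n : ℚ) + 1) < 1 := by
      have h4 : 1 / (2 * ((n : ℚ) + 1)) + (n : ℚ) / ((n : ℚ) + 1) =
          1 - 1 / (2 * ((n : ℚ) + 1)) := by
        field_simp
        ring
      have h5 : 0 < 1 / (2 * ((n : ℚ) + 1)) := by positivity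
      linarith
    linarith
  have ys : ∀ j, yq a M t j.succ.succ =
      ∑ i ∈ FF a w, lam i * (a i j : ℚ) + (if w j = 0 then 1 / ((n : ℚ) + 1) else 0) * (M : ℚ) := by
    intro j
    rw [GTA_yqs, ts]
    congr 1
    simp only [ti, ite_mul, zero_mul]
    rw [Finset.sum_ite_mem, Finset.univ_inter]
  have yP : ∀ j ∈ P, yq a M t j.succ.succ = p j := by
    intro j hj
    rw [ys, if_neg (hPw j hj), zero_mul, add_zero]
    exact hL.lP j hj
  have yJ : ∀ j, (∃ i, a i j = 0) → j ∉ P → p j < yq a M t j.succ.succ := by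
    intro j hj hjP
    rw [ys]
    by_cases hw : w j = 0
    · rw [if_pos hw]
      have h1 : 0 ≤ ∑ i ∈ FF a w, lam i * (a i j : ℚ) :=
        Finset.sum_nonneg fun i hi => mul_nonneg (hL.l0 i hi).le (Nat.cast_nonneg _)
      have h2 : 1 < 1 / ((n : ℚ) + 1) * (M : ℚ) := by
        rw [div_mul_eq_mul_div, one_mul, one_lt_div hn]
        linarith
      have h3 := (hp j).2
      linarith
    · rw [if_neg hw, zero_mul, add_zero]
      refine hL.lC j ?_ hjP
      unfold CC0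
      exact Finset.mem_filter.2 ⟨Finset.mem_univ j, hw, hj⟩
  have ysm : (D : ℚ) * yq a M t 0 - ∑ j, (cZ j : ℚ) * yq a M t j.succ.succ < 1 := by
    have h1 : ∀ j, (cZ j : ℚ) * yq a M t j.succ.succ =
        D * (c j * ∑ i ∈ FF a w, lam i * (a i j : ℚ)) := by
      intro j
      rw [hcZ, ys]
      by_cases hw : w j = 0
      · have h2 : c j = 0 := by
          by_contra h3
          exact hPw j ((hL.cP j).1 h3) hw
        rw [h2]
        ring
      · rw [if_neg hw]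
        ring
    have h2 : ∑ j, (cZ j : ℚ) * yq a M t j.succ.succ =
        D * ∑ i ∈ FF a w, lam i * ∑ j, c j * (a i j : ℚ) := by
      rw [Finset.sum_congr rfl fun j _ => h1 j, ← Finset.mul_sum]
      congr 1
      have h3 : ∀ j, c j * ∑ i ∈ FF a w, lam i * (a i j : ℚ) =
          ∑ i ∈ FF a w, lam i * (c j * (a i j : ℚ)) := by
        intro j
        rw [Finset.mul_sum]
        exact Finset.sum_congr rfl fun i _ => by ring
      rw [Finset.sum_congr rfl fun j _ => h3 j, Finset.sum_comm]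
      exact Finset.sum_congr rfl fun i _ => by rw [Finset.mul_sum]
    have h3 : (D : ℚ) * yq a M t 0 - ∑ j, (cZ j : ℚ) * yq a M t j.succ.succ =
        D * ∑ i ∈ FF a w, lam i * (1 - ∑ j, c j * (a i j : ℚ)) := by
      rw [h2, y0, ← mul_sub, ← Finset.sum_sub_distrib]
      congr 1
      exact Finset.sum_congr rfl fun i _ => by ring
    rw [h3]
    have h4 := mul_lt_mul_of_pos_left hsm hDq
    have h5 : (D : ℚ) * (1 / (2 * D)) = 1 / 2 := by
      field_simp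
    rw [h5] at h4
    linarith
  -- choice of ε
  obtain ⟨B, hB⟩ : ∃ B : ℚ, B = ∑ g : IX n r, ∑ k, |(A5 a M g k : ℚ)| := ⟨_, rfl⟩
  obtain ⟨B', hB'⟩ : ∃ B' : ℚ, B' = ((D : ℚ) + ∑ j, |(cZ j : ℚ)|) * B := ⟨_, rfl⟩
  have e1 : ∀ᶠ ε in 𝓝[>] (0 : ℚ), ∀ g : IX n r, dt (h5 a w) (A5 a M g) = 0 → ε * 1 < t g := by
    rw [Filter.eventually_all]
    intro g
    by_cases hg : dt (h5 a w) (A5 a M g) = 0
    · have h1 : 0 < t g := by
        rw [ht]
        exact GTA_t_pos a w lam hM0 hL.l0 g hg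
      exact (GTA_ev (B := 1) h1).mono fun ε hε _ => hε
    · exact Filter.Eventually.of_forall fun ε h => absurd h hg
  have e2 : ∀ᶠ ε in 𝓝[>] (0 : ℚ), ∀ j : Fin n, (∃ i, a i j = 0) → j ∉ P →
      ε * B < yq a M t j.succ.succ - p j := by
    rw [Filter.eventually_all]
    intro j
    by_cases hj : (∃ i, a i j = 0) ∧ j ∉ P
    · have h1 : 0 < yq a M t j.succ.succ - p j := by
        have := yJ j hj.1 hj.2
        linarith
      exact (GTA_ev (B := B) h1).mono fun ε hε _ _ => hε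
    · exact Filter.Eventually.of_forall fun ε h h' => absurd ⟨h, h'⟩ hj
  have e3 : ∀ᶠ ε in 𝓝[>] (0 : ℚ), ε * B < 1 - yq a M t (Fin.succ 0) :=
    GTA_ev (by linarith)
  have e4 : ∀ᶠ ε in 𝓝[>] (0 : ℚ), ε * B' <
      1 - ((D : ℚ) * yq a M t 0 - ∑ j, (cZ j : ℚ) * yq a M t j.succ.succ) :=
    GTA_ev (by linarith)
  have e5 : ∀ᶠ ε in 𝓝[>] (0 : ℚ), 0 < ε := self_mem_nhdsWithin
  obtain ⟨ε, f1, f2, f3, f4, f5⟩ := (e1.and (e2.and (e3.and (e4.and e5)))).exists
  refine ⟨t, ε, f5, fun ρ hρ hoff hP0 => ?_⟩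
  have hab : ∀ k, |yq a M ρ k| ≤ ε * B := fun k => by
    rw [hB]
    exact GTA_abs a M hρ k
  have hP1 : ∀ j ∈ P, yq a M (fun g => t g + ρ g) j.succ.succ = p j := by
    intro j hj
    rw [GTA_add, hP0 _ hj, add_zero]
    exact yP j hj
  refine ⟨?_, ?_, hP1, ?_, ?_, ?_⟩
  · intro g hg
    rw [hoff g hg, ht, GTA_t_off a w lam hM0 g hg, add_zero]
  · intro g
    by_cases hg : dt (h5 a w) (A5 a M g) = 0
    · have h1 := f1 g hg
      have h2 := (abs_lt.1 (hρ g)).1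
      linarith
    · rw [hoff g hg, ht, GTA_t_off a w lam hM0 g hg, add_zero]
  · intro j hj
    by_cases hjP : j ∈ P
    · exact (hP1 j hjP).ge
    · rw [GTA_add]
      have h1 := f2 j hj hjP
      have h2 := (abs_le.1 (hab j.succ.succ)).1
      linarith
  · rw [GTA_add]
    have h2 := (abs_le.1 (hab (Fin.succ 0))).2
    linarith
  · simp only [GTA_add]
    have h1 : ∑ j, (cZ j : ℚ) * (yq a M t j.succ.succ + yq a M ρ j.succ.succ) =
        ∑ j, (cZ j : ℚ) * yq a M t j.succ.succ + ∑ j, (cZ j : ℚ) * yq a M ρ j.succ.succ := by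
      rw [← Finset.sum_add_distrib]
      exact Finset.sum_congr rfl fun j _ => by ring
    have h2 : |∑ j, (cZ j : ℚ) * yq a M ρ j.succ.succ| ≤ (∑ j, |(cZ j : ℚ)|) * (ε * B) := by
      refine (Finset.abs_sum_le_sum_abs _ _).trans ?_
      rw [Finset.sum_mul]
      refine Finset.sum_le_sum fun j _ => ?_
      rw [abs_mul]
      exact mul_le_mul_of_nonneg_left (hab _) (abs_nonneg _)
    have h3 : (D : ℚ) * yq a M ρ 0 ≤ D * (ε * B) :=
      mul_le_mul_of_nonneg_left (abs_le.1 (hab 0)).2 hDq.le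
    have h4 := (abs_le.1 h2).1
    have h5 : ε * B' = D * (ε * B) + (∑ j, |(cZ j : ℚ)|) * (ε * B) := by
      rw [hB']
      ring
    rw [h1]
    linarith

end Pool.Agent.H56.CT
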