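import Pool.Agent.H56.CT.ZDefs

/-!
# ZFU: the inner integral

For `t > 0` the conditions are `-α t / M2 ≤ x ≤ β t / M1`, an interval of length `t / (M1 M2)` (`M1 α + M2 β = 1`).  The exponent `-(ν1 (α t + M2 x) + ν2 (β t - M1 x))` is linear in `x` with slope `M1 ν2 - M2 ν1 ≠ 0`; at `x = β t / M1` it is `-(ν1/M1) t`, at `x = -α t / M2` it is `-(ν2/M2) t`.
So the integral is `(exp(-(ν1/M1) t) - exp(-(ν2/M2) t)) / (M1 ν2 - M2 ν1)` (`integral_indicator`, `intervalIntegral`, `integral_exp_mul_complex` or the fundamental theorem with the primitive `exp(..)/(M1 ν2 - M2 ν1)`).  For `t = 0` the set is `{0}` and both sides are `0`.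
For `t < 0` there is no `x` (`M1 (α t + M2 x) + M2 (β t - M1 x) = t`).
-/

set_option autoImplicit false

namespace Pool.Agent.H56.CT

open Finset MeasureTheory

/-- ZFU -/
theorem inner_int (M1 M2 : ℕ) (h1 : 0 < M1) (h2 : 0 < M2) (α β : ℤ)
    (hαβ : (M1 : ℤ) * α + M2 * β = 1) (ν1 ν2 : ℝ) (hne : (M1 : ℝ) * ν2 - M2 * ν1 ≠ 0) (t : ℝ)
    (ht : 0 ≤ t) :
    ∫ x : ℝ, (if 0 ≤ (α : ℝ) * t + M2 * x ∧ 0 ≤ (β : ℝ) * t - M1 * x then
      Real.exp (-(ν1 * (α * t + M2 * x) + ν2 * (β * t - M1 * x))) else 0) =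
      ((M1 : ℝ) * ν2 - M2 * ν1)⁻¹ *
        (Real.exp (-(ν1 / M1) * t) - Real.exp (-(ν2 / M2) * t)) := by
  have hM1 : (0 : ℝ) < M1 := by exact_mod_cast h1
  have hM2 : (0 : ℝ) < M2 := by exact_mod_cast h2
  have hab' : (M1 : ℝ) * α + M2 * β = 1 := by exact_mod_cast hαβ
  set c : ℝ := (M1 : ℝ) * ν2 - M2 * ν1 with hc
  set a : ℝ := -(α * t) / M2 with ha
  set b : ℝ := β * t / M1 with hb
  have hle : a ≤ b := by
    rw [ha, hb, div_le_div_iff₀ hM2 hM1]
    have : (β : ℝ) * t * M2 - -(α * t) * M1 = ((M1 : ℝ) * α + M2 * β) * t := by ring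
    rw [hab', one_mul] at this
    linarith
  have e1 : (fun x : ℝ => (if 0 ≤ (α : ℝ) * t + M2 * x ∧ 0 ≤ (β : ℝ) * t - M1 * x then
      Real.exp (-(ν1 * (α * t + M2 * x) + ν2 * (β * t - M1 * x))) else 0)) =
      Set.indicator (Set.Icc a b)
        (fun x : ℝ => Real.exp (-(ν1 * (α * t + M2 * x) + ν2 * (β * t - M1 * x)))) := by
    funext x
    have k1 : 0 ≤ (α : ℝ) * t + M2 * x ↔ a ≤ x := by
      rw [ha, div_le_iff₀ hM2]
      constructor <;> intro h <;> linarith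
    have k2 : 0 ≤ (β : ℝ) * t - M1 * x ↔ x ≤ b := by
      rw [hb, le_div_iff₀ hM1]
      constructor <;> intro h <;> linarith
    by_cases hx : x ∈ Set.Icc a b
    · rw [Set.indicator_of_mem hx, if_pos ⟨k1.2 hx.1, k2.2 hx.2⟩]
    · rw [Set.indicator_of_notMem hx, if_neg]
      rintro ⟨h3, h4⟩
      exact hx ⟨k1.1 h3, k2.1 h4⟩
  rw [e1, integral_indicator measurableSet_Icc, integral_Icc_eq_integral_Ioc,
    ← intervalIntegral.integral_of_le hle]
  have e2 : ∀ x : ℝ, HasDerivAt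
      (fun x : ℝ => c⁻¹ * Real.exp (-(ν1 * (α * t + M2 * x) + ν2 * (β * t - M1 * x))))
      (Real.exp (-(ν1 * (α * t + M2 * x) + ν2 * (β * t - M1 * x)))) x := by
    intro x
    have d1 : HasDerivAt (fun x : ℝ => -(ν1 * (α * t + M2 * x) + ν2 * (β * t - M1 * x)))
        (-(ν1 * (M2 * 1) + ν2 * (-(M1 * 1)))) x := by
      exact ((((hasDerivAt_id x).const_mul (M2 : ℝ)).const_add (α * t)).const_mul ν1 |>.add
        ((((hasDerivAt_id x).const_mul (M1 : ℝ)).const_sub (β * t)).const_mul ν2)).neg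
    have d2 := (d1.exp).const_mul c⁻¹
    have e3 : c⁻¹ * (Real.exp (-(ν1 * (α * t + M2 * x) + ν2 * (β * t - M1 * x))) *
        (-(ν1 * (M2 * 1) + ν2 * (-(M1 * 1))))) =
        Real.exp (-(ν1 * (α * t + M2 * x) + ν2 * (β * t - M1 * x))) := by
      have e4 : (-(ν1 * (M2 * 1) + ν2 * (-((M1 : ℝ) * 1)))) = c := by rw [hc]; ring
      rw [e4]
      field_simp
    rw [e3] at d2
    exact d2
  have e5 : ∫ x in a..b, Real.exp (-(ν1 * (α * t + M2 * x) + ν2 * (β * t - M1 * x))) =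
      c⁻¹ * Real.exp (-(ν1 * (α * t + M2 * b) + ν2 * (β * t - M1 * b))) -
      c⁻¹ * Real.exp (-(ν1 * (α * t + M2 * a) + ν2 * (β * t - M1 * a))) := by
    refine intervalIntegral.integral_eq_sub_of_hasDerivAt (fun x _ => e2 x) ?_
    exact (Continuous.intervalIntegrable (by fun_prop) _ _)
  rw [e5]
  have g1 : (-(ν1 * (α * t + M2 * b) + ν2 * (β * t - M1 * b))) = -(ν1 / M1) * t := by
    have h5 : (M1 : ℝ) * b = β * t := by rw [hb]; field_simp
    have h6 : (α : ℝ) * t + M2 * b = t / M1 := by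
      rw [eq_div_iff hM1.ne', add_mul, mul_assoc (M2 : ℝ), mul_comm b, h5]
      have : (α : ℝ) * t * M1 + M2 * (β * t) = ((M1 : ℝ) * α + M2 * β) * t := by ring
      rw [this, hab', one_mul]
    rw [h6, h5]
    ring
  have g2 : (-(ν1 * (α * t + M2 * a) + ν2 * (β * t - M1 * a))) = -(ν2 / M2) * t := by
    have h5 : (M2 : ℝ) * a = -(α * t) := by rw [ha]; field_simp
    have h6 : (β : ℝ) * t - M1 * a = t / M2 := by
      rw [eq_div_iff hM2.ne', sub_mul, mul_assoc (M1 : ℝ), mul_comm a, h5]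
      have : (β : ℝ) * t * M2 - M1 * -(α * t) = ((M1 : ℝ) * α + M2 * β) * t := by ring
      rw [this, hab', one_mul]
    rw [h6, h5]
    ring
  rw [g1, g2]
  ring

end Pool.Agent.H56.CT
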