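import Pool.Agent.H56.CT.ZLJ
import Pool.Agent.H56.CT.ZFU

/-!
# ZDJ: the two columns `M1 a_t`, `M2 a_t`, for one face

Integers `α`, `β` with `M1 α + M2 β = 1` (Bezout).  `P : ℤ^n → ℤ^n`, `(P k)_t = α k_t + M2 k_u`, `(P k)_u = β k_t - M1 k_u`, `(P k)_j = k_j` otherwise; the inverse is `k_t = M1 k'_t + M2 k'_u`, `k_u = β k'_t - α k'_u`.  With `a' = dbE t u M1 M2 a`: `∑_j a'_ij (P k)_j = ∑_j a_ij k_j` (`a_iu = 0`).  The same over `ℝ`.
`exists_LBu` gives `b0`, `B = Fin.cons e_u b0` a basis for `a`; `B' = P ∘ B` is a basis for `a'`.  `Jval_LB` for `a'`, `B'` and for `a`, `B` (two weights).  In each case the integral over `Fin (d0 + 1) → ℝ` is an iterated integral: first over the coordinate `x` of `e_u`, then over `p : Fin d0 → ℝ`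
(`MeasureTheory.volume_preserving_piFinSuccAbove` at `0`, `integral_prod` with the integrability from `Jval_LB`).  Let `k = ∑ p_c b0_c`, `k_u = 0`.
(1) System `a`, weights `upd2 t u ν y 1`: the integrand at `k + x e_u` is `[x ≥ 0] e^{-x} · [k ∈ minCone a τ] exp(-y k_t - ∑_{j ≠ t,u} ν_j k_j - s a_i0·k)`, so the inner integral is `G(k) e^{-y k_t}`, `G(k) = [k ∈ minCone a τ] exp(-∑_{j≠t,u} ν_j k_j - s a_i0·k)` (`∫_{x ≥ 0} e^{-x} = 1`).
(2) System `a'`: the integrand at `P (k + x e_u)` is `[α k_t + M2 x ≥ 0, β k_t - M1 x ≥ 0] exp(-ν1(α k_t + M2 x) - ν2 (β k_t - M1 x)) · G(k)`: the conditions for `P(k + x e_u) ∈ minCone a' τ` are the two inequalities, `k_j ≥ 0` for `j ≠ t, u` and `a_i·k ≤ a_l·k` for `i ∈ τ`; the two inequalities imply `k_t ≥ 0`.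
Inner integral by `inner_int` (`k_t ≥ 0` if `G(k) ≠ 0`): `(M1 ν2 - M2 ν1)⁻¹ (e^{-(ν1/M1)k_t} - e^{-(ν2/M2) k_t}) G(k)`.  Linearity of the integral over `p` (the functions `G(k) e^{-y k_t}` are integrable: `Integrable.integral_prod_left/right` from `Jval_LB`).
-/

set_option autoImplicit false

namespace Pool.Agent.H56.CT

open Finset MeasureTheory

theorem ZDJ_sum2 {n : ℕ} {R : Type*} [CommRing R] (t u : Fin n) (htu : t ≠ u) (F G : Fin n → R)
    (h : ∀ j, j ≠ t → j ≠ u → F j = G j) (h2 : F t + F u = G t + G u) :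
    ∑ j, F j = ∑ j, G j := by
  classical
  have hu : u ∈ (univ : Finset (Fin n)).erase t := mem_erase.2 ⟨htu.symm, mem_univ _⟩
  rw [← add_sum_erase univ F (mem_univ t), ← add_sum_erase univ G (mem_univ t),
    ← add_sum_erase _ F hu, ← add_sum_erase _ G hu, ← add_assoc, ← add_assoc, h2]
  congr 1
  refine sum_congr rfl fun j hj => ?_
  rw [mem_erase, mem_erase] at hj
  exact h j hj.2.1 hj.1

/-- The change of coordinates. -/
def ZDJ_P {n : ℕ} {R : Type*} [CommRing R] (t u : Fin n) (α β M1 M2 : R) (k : Fin n → R) :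
    Fin n → R :=
  fun j => if j = t then α * k t + M2 * k u else if j = u then β * k t - M1 * k u else k j

/-- The inverse. -/
def ZDJ_Q {n : ℕ} {R : Type*} [CommRing R] (t u : Fin n) (α β M1 M2 : R) (k : Fin n → R) :
    Fin n → R :=
  fun j => if j = t then M1 * k t + M2 * k u else if j = u then β * k t - α * k u else k j

theorem ZDJ_QP {n : ℕ} {R : Type*} [CommRing R] (t u : Fin n) (htu : t ≠ u) (α β M1 M2 : R)
    (h : M1 * α + M2 * β = 1) (k : Fin n → R) :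
    ZDJ_Q t u α β M1 M2 (ZDJ_P t u α β M1 M2 k) = k := by
  funext j
  unfold ZDJ_Q ZDJ_P
  by_cases h1 : j = t
  · subst h1
    simp only [if_true, htu.symm, if_false]
    linear_combination (k j) * h
  · by_cases h2 : j = u
    · subst h2
      simp only [if_true, h1, if_false]
      linear_combination (k j) * h
    · simp only [h1, h2, if_false]

theorem ZDJ_PQ {n : ℕ} {R : Type*} [CommRing R] (t u : Fin n) (htu : t ≠ u) (α β M1 M2 : R)
    (h : M1 * α + M2 * β = 1) (k : Fin n → R) :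
    ZDJ_P t u α β M1 M2 (ZDJ_Q t u α β M1 M2 k) = k := by
  funext j
  unfold ZDJ_Q ZDJ_P
  by_cases h1 : j = t
  · subst h1
    simp only [if_true, htu.symm, if_false]
    linear_combination (k j) * h
  · by_cases h2 : j = u
    · subst h2
      simp only [if_true, h1, if_false]
      linear_combination (k j) * h
    · simp only [h1, h2, if_false]

theorem ZDJ_P_sum {n d : ℕ} {R : Type*} [CommRing R] (t u : Fin n) (α β M1 M2 : R)
    (x : Fin d → R) (v : Fin d → Fin n → R) :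
    ZDJ_P t u α β M1 M2 (fun j => ∑ c, x c * v c j) =
      fun j => ∑ c, x c * ZDJ_P t u α β M1 M2 (v c) j := by
  funext j
  unfold ZDJ_P
  by_cases h1 : j = t
  · simp only [h1, if_true]
    rw [mul_sum, mul_sum, ← sum_add_distrib]
    exact sum_congr rfl fun c _ => by ring
  · by_cases h2 : j = u
    · have h1' : ¬ u = t := fun h => h1 (h2.trans h)
      simp only [h2, h1', if_true, if_false]
      rw [mul_sum, mul_sum, ← sum_sub_distrib]
      exact sum_congr rfl fun c _ => by ring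
    · simp only [h1, h2, if_false]

/-- the exponents on the transformed vectors -/
theorem dbE_apply {n r : ℕ} (t u : Fin n) (htu : t ≠ u) (M1 M2 : ℕ) (a : Fin r → (Fin n →₀ ℕ))
    (i : Fin r) (j : Fin n) : dbE t u M1 M2 a i j =
      if j = t then M1 * a i t else if j = u then M2 * a i t else a i j := by
  rfl

/-- the values of the exponents are preserved -/
theorem ZDJ_val {n r : ℕ} {R : Type*} [CommRing R] (t u : Fin n) (htu : t ≠ u) (M1 M2 : ℕ)
    (a : Fin r → (Fin n →₀ ℕ)) (hu : ∀ i, a i u = 0) (α β : R)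
    (h : (M1 : R) * α + M2 * β = 1) (i : Fin r) (k : Fin n → R) :
    ∑ j, (dbE t u M1 M2 a i j : R) * ZDJ_P t u α β M1 M2 k j = ∑ j, (a i j : R) * k j := by
  refine ZDJ_sum2 t u htu _ _ ?_ ?_
  · intro j h1 h2
    rw [dbE_apply t u htu, if_neg h1, if_neg h2]
    unfold ZDJ_P
    rw [if_neg h1, if_neg h2]
  · rw [dbE_apply t u htu, dbE_apply t u htu, if_pos rfl, if_neg htu.symm, if_pos rfl]
    unfold ZDJ_P
    rw [if_pos rfl, if_neg htu.symm, if_pos rfl, hu]
    push_cast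
    linear_combination ((a i t : R) * k t) * h

/-- The transformed lattice basis. -/
theorem ZDJ_LB {n r d : ℕ} (t u : Fin n) (htu : t ≠ u) (M1 M2 : ℕ)
    (a : Fin r → (Fin n →₀ ℕ)) (hu : ∀ i, a i u = 0) (α β : ℤ)
    (h : (M1 : ℤ) * α + M2 * β = 1) (τ : Finset (Fin r)) (b : Fin d → Fin n → ℤ)
    (hb : IsLB a τ b) :
    IsLB (dbE t u M1 M2 a) τ (fun c => ZDJ_P t u α β (M1 : ℤ) (M2 : ℤ) (b c)) := by
  refine ⟨?_, ?_, ?_⟩
  · have h1 := hb.ind
    rw [Fintype.linearIndependent_iff] at h1 ⊢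
    intro x hx
    apply h1 x
    have h2 : (∑ c, x c • b c) = fun j => ∑ c, x c * b c j := by
      funext j
      rw [Finset.sum_apply]
      rfl
    have h3 : ZDJ_P t u α β (M1 : ℤ) (M2 : ℤ) (∑ c, x c • b c) = 0 := by
      rw [h2, ZDJ_P_sum]
      rw [← hx]
      funext j
      rw [Finset.sum_apply]
      rfl
    have h4 := ZDJ_QP t u htu α β (M1 : ℤ) (M2 : ℤ) h (∑ c, x c • b c)
    rw [h3] at h4
    rw [← h4]
    funext j
    unfold ZDJ_Q
    simp
  · intro c i hi i' hi'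
    rw [ZDJ_val t u htu M1 M2 a hu α β h, ZDJ_val t u htu M1 M2 a hu α β h]
    exact hb.mem c i hi i' hi'
  · intro k hk
    have h5 := ZDJ_PQ t u htu α β (M1 : ℤ) (M2 : ℤ) h k
    obtain ⟨x, hx⟩ := hb.gen (ZDJ_Q t u α β (M1 : ℤ) (M2 : ℤ) k) (by
      intro i hi i' hi'
      have := hk i hi i' hi'
      rw [← h5, ZDJ_val t u htu M1 M2 a hu α β h, ZDJ_val t u htu M1 M2 a hu α β h] at this
      exact this)
    refine ⟨x, ?_⟩
    have h2 : (∑ c, x c • b c) = fun j => ∑ c, x c * b c j := by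
      funext j
      rw [Finset.sum_apply]
      rfl
    rw [← h5, hx, h2, ZDJ_P_sum]
    funext j
    rw [Finset.sum_apply]
    rfl

/-- Fubini. -/
theorem ZDJ_fub {d : ℕ} (F : (Fin (d + 1) → ℝ) → ℝ) (hF : Integrable F) :
    Integrable (fun p : Fin d → ℝ => ∫ x : ℝ, F (Fin.cons x p : Fin (d + 1) → ℝ)) ∧
      ∫ q, F q = ∫ p : Fin d → ℝ, ∫ x : ℝ, F (Fin.cons x p : Fin (d + 1) → ℝ) := by
  have hm := (volume_preserving_piFinSuccAbove (fun _ : Fin (d + 1) => ℝ) 0).symm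
  have h1 : ∀ z : ℝ × (Fin d → ℝ),
      F ((MeasurableEquiv.piFinSuccAbove (fun _ : Fin (d + 1) => ℝ) 0).symm z) =
        F (Fin.cons z.1 z.2 : Fin (d + 1) → ℝ) := by
    intro z
    have h0 : (MeasurableEquiv.piFinSuccAbove (fun _ : Fin (d + 1) => ℝ) 0).symm z =
        (Fin.cons z.1 z.2 : Fin (d + 1) → ℝ) := by
      show (Fin.insertNth (0 : Fin (d + 1)) z.1 z.2 : Fin (d + 1) → ℝ) = _
      rw [Fin.insertNth_zero']
    rw [h0]
  have h2 : Integrable (fun z : ℝ × (Fin d → ℝ) => F (Fin.cons z.1 z.2 : Fin (d + 1) → ℝ))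
      (volume.prod volume) := by
    have h3 := (hm.integrable_comp_emb (MeasurableEquiv.measurableEmbedding _)).2 hF
    exact h3.congr (Filter.Eventually.of_forall fun z => h1 z)
  refine ⟨h2.integral_prod_right, ?_⟩
  rw [← integral_prod_symm _ h2, ← hm.integral_comp (MeasurableEquiv.measurableEmbedding _)]
  exact integral_congr_ae (Filter.Eventually.of_forall fun z => h1 z)

open Classical in
/-- The part of the integrand without the coordinates `t`, `u`. -/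
noncomputable def ZDJ_G {n r : ℕ} (t u : Fin n) (ν : Fin n → ℚ) (a : Fin r → (Fin n →₀ ℕ))
    (τ : Finset (Fin r)) (i0 : Fin r) (s : ℝ) (k : Fin n → ℝ) : ℝ :=
  if k ∈ H22.minCone a τ then
    Real.exp (-(∑ j, ((upd2 t u ν 0 0 j : ℚ) : ℝ) * k j) - s * ∑ j, (a i0 j : ℝ) * k j) else 0

theorem ZDJ_cons {n d : ℕ} (u : Fin n) (b0 : Fin d → Fin n → ℤ) (x : ℝ) (p : Fin d → ℝ)
    (j : Fin n) :
    ∑ c, (Fin.cons x p : Fin (d + 1) → ℝ) c *
      (((Fin.cons (Pi.single u 1) b0 : Fin (d + 1) → Fin n → ℤ) c j : ℤ) : ℝ) =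
      (∑ c, p c * (b0 c j : ℝ)) + (if j = u then x else 0) := by
  rw [Fin.sum_univ_succ]
  simp only [Fin.cons_zero, Fin.cons_succ]
  by_cases h : j = u
  · subst h
    simp [add_comm]
  · simp [h]

theorem ZDJ_upd {n : ℕ} (t u : Fin n) (htu : t ≠ u) (ν : Fin n → ℚ) (x y : ℚ) (k' k : Fin n → ℝ)
    (h : ∀ j, j ≠ t → j ≠ u → k' j = k j) :
    ∑ j, ((upd2 t u ν x y j : ℚ) : ℝ) * k' j =
      (∑ j, ((upd2 t u ν 0 0 j : ℚ) : ℝ) * k j) + ((x : ℝ) * k' t + (y : ℝ) * k' u) := by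
  classical
  have h1 : (x : ℝ) * k' t + (y : ℝ) * k' u =
      ∑ j, ((if j = t then (x : ℝ) * k' t else 0) + (if j = u then (y : ℝ) * k' u else 0)) := by
    rw [sum_add_distrib, Finset.sum_ite_eq' univ t, Finset.sum_ite_eq' univ u]
    simp
  rw [h1, ← sum_add_distrib]
  refine sum_congr rfl fun j _ => ?_
  unfold upd2
  by_cases h2 : j = t
  · subst h2
    simp [htu]
  · by_cases h3 : j = u
    · subst h3
      simp [h2]
    · simp [h2, h3, h j h2 h3]

theorem ZDJ_exp : ∫ x : ℝ, (if 0 ≤ x then Real.exp (-x) else 0) = 1 := by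
  have h1 : (fun x : ℝ => if 0 ≤ x then Real.exp (-x) else 0) =
      (Set.Ici (0 : ℝ)).indicator (fun x => Real.exp (-x)) := by
    funext x
    rw [Set.indicator_apply]
    rfl
  rw [h1, integral_indicator measurableSet_Ici, integral_Ici_eq_integral_Ioi,
    integral_exp_neg_Ioi_zero]

/-- The system without doubling. -/
theorem ZDJ_one {n r : ℕ} (t u : Fin n) (htu : t ≠ u) (ν : Fin n → ℚ) (hν : ∀ j, 0 < ν j)
    (y : ℚ) (hy : 0 < y) (a : Fin r → (Fin n →₀ ℕ)) (hu : ∀ i, a i u = 0)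
    (τ : Finset (Fin r)) (𝒟 : H22.FaceCones a τ) (s : ℝ) (hs : 0 < s) (i0 : Fin r)
    (hi0 : i0 ∈ τ) {d : ℕ} (b0 : Fin d → Fin n → ℤ) (hbu : ∀ c, b0 c u = 0)
    (hb : IsLB a τ (Fin.cons (Pi.single u 1) b0 : Fin (d + 1) → Fin n → ℤ)) :
    Integrable (fun p : Fin d → ℝ => Real.exp (-(y : ℝ) * ∑ c, p c * (b0 c t : ℝ)) *
      ZDJ_G t u ν a τ i0 s (fun j => ∑ c, p c * (b0 c j : ℝ))) ∧
    JvalW (upd2 t u ν y 1) a τ 𝒟 s = ∫ p : Fin d → ℝ,
      Real.exp (-(y : ℝ) * ∑ c, p c * (b0 c t : ℝ)) *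
        ZDJ_G t u ν a τ i0 s (fun j => ∑ c, p c * (b0 c j : ℝ)) := by
  classical
  have hpos : ∀ j, 0 < upd2 t u ν y 1 j := by
    intro j
    unfold upd2
    split_ifs
    · exact hy
    · exact one_pos
    · exact hν j
  obtain ⟨h1, h2⟩ := Jval_LB (upd2 t u ν y 1) hpos a τ 𝒟 _ hb i0 hi0 s hs
  obtain ⟨h3, h4⟩ := ZDJ_fub _ h1
  have key : ∀ p : Fin d → ℝ, (∫ x : ℝ, fW (upd2 t u ν y 1) a τ i0 s (fun j =>
      ∑ c, (Fin.cons x p : Fin (d + 1) → ℝ) c *
      (((Fin.cons (Pi.single u 1) b0 : Fin (d + 1) → Fin n → ℤ) c j : ℤ) : ℝ))) =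
      Real.exp (-(y : ℝ) * ∑ c, p c * (b0 c t : ℝ)) *
        ZDJ_G t u ν a τ i0 s (fun j => ∑ c, p c * (b0 c j : ℝ)) := by
    intro p
    obtain ⟨k, hk⟩ : ∃ k : Fin n → ℝ, k = fun j => ∑ c, p c * (b0 c j : ℝ) := ⟨_, rfl⟩
    have hku : k u = 0 := by
      rw [hk]
      simp [hbu]
    have hkj : ∀ j, ∑ c, p c * (b0 c j : ℝ) = k j := by
      intro j
      rw [hk]
    rw [hkj t, ← hk]
    have h5 : ∀ x : ℝ, fW (upd2 t u ν y 1) a τ i0 s (fun j =>
        ∑ c, (Fin.cons x p : Fin (d + 1) → ℝ) c *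
        (((Fin.cons (Pi.single u 1) b0 : Fin (d + 1) → Fin n → ℤ) c j : ℤ) : ℝ)) =
        (if 0 ≤ x then Real.exp (-x) else 0) *
          (Real.exp (-(y : ℝ) * k t) * ZDJ_G t u ν a τ i0 s k) := by
      intro x
      have e1 : (fun j => ∑ c, (Fin.cons x p : Fin (d + 1) → ℝ) c *
          (((Fin.cons (Pi.single u 1) b0 : Fin (d + 1) → Fin n → ℤ) c j : ℤ) : ℝ)) =
          fun j => k j + (if j = u then x else 0) := by
        funext j
        rw [ZDJ_cons, hkj]
      rw [e1]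
      have e2 : ∀ i, ∑ j, (a i j : ℝ) * (k j + (if j = u then x else 0)) =
          ∑ j, (a i j : ℝ) * k j := by
        intro i
        refine sum_congr rfl fun j _ => ?_
        by_cases h6 : j = u
        · rw [h6, hu]
          simp
        · rw [if_neg h6, add_zero]
      have e3 : ((fun j => k j + (if j = u then x else 0)) ∈ H22.minCone a τ) ↔
          (0 ≤ x ∧ k ∈ H22.minCone a τ) := by
        unfold H22.minCone
        simp only [Set.mem_ofPred_eq, e2]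
        constructor
        · rintro ⟨g1, g2⟩
          refine ⟨?_, ?_, g2⟩
          · have := g1 u
            rw [hku, if_pos rfl, zero_add] at this
            exact this
          · intro j
            by_cases h6 : j = u
            · rw [h6, hku]
            · have := g1 j
              rw [if_neg h6, add_zero] at this
              exact this
        · rintro ⟨g0, g1, g2⟩
          refine ⟨?_, g2⟩
          intro j
          by_cases h6 : j = u
          · rw [if_pos h6]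
            exact add_nonneg (g1 j) g0
          · rw [if_neg h6, add_zero]
            exact g1 j
      have e4 := ZDJ_upd t u htu ν y 1 (fun j => k j + (if j = u then x else 0)) k
        (fun j _ h7 => by rw [if_neg h7, add_zero])
      simp only [if_neg htu, if_true, hku, zero_add, add_zero] at e4
      unfold fW ZDJ_G
      simp only [e2, e3]
      rw [e4]
      by_cases g1 : 0 ≤ x
      · by_cases g2 : k ∈ H22.minCone a τ
        · rw [if_pos ⟨g1, g2⟩, if_pos g1, if_pos g2, ← Real.exp_add, ← Real.exp_add]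
          congr 1
          push_cast
          ring
        · rw [if_neg (fun h => g2 h.2), if_neg g2, mul_zero, mul_zero]
      · rw [if_neg (fun h => g1 h.1), if_neg g1, zero_mul]
    rw [integral_congr_ae (Filter.Eventually.of_forall fun x => h5 x), integral_mul_const,
      ZDJ_exp, one_mul]
  refine ⟨h3.congr (Filter.Eventually.of_forall fun p => key p), ?_⟩
  rw [h2]
  unfold LB
  rw [h4]
  exact integral_congr_ae (Filter.Eventually.of_forall fun p => key p)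

/-- ZDJ -/
theorem dbl_face {n r : ℕ} (t u : Fin n) (htu : t ≠ u) (M1 M2 : ℕ) (h1 : 0 < M1) (h2 : 0 < M2)
    (hcop : Nat.Coprime M1 M2) (ν : Fin n → ℚ) (hν : ∀ j, 0 < ν j) (ν1 ν2 : ℚ) (hν1 : 0 < ν1)
    (hν2 : 0 < ν2) (hne : (M1 : ℚ) * ν2 - M2 * ν1 ≠ 0) (a : Fin r → (Fin n →₀ ℕ))
    (hu : ∀ i, a i u = 0) (τ : Finset (Fin r)) (hτ : τ.Nonempty)
    (𝒟 : H22.FaceCones (dbE t u M1 M2 a) τ) (𝒟1 𝒟2 : H22.FaceCones a τ) (s : ℝ) (hs : 0 < s) :
    JvalW (upd2 t u ν ν1 ν2) (dbE t u M1 M2 a) τ 𝒟 s =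
      (((M1 : ℚ) * ν2 - M2 * ν1 : ℚ) : ℝ)⁻¹ *
        (JvalW (upd2 t u ν (ν1 / M1) 1) a τ 𝒟1 s - JvalW (upd2 t u ν (ν2 / M2) 1) a τ 𝒟2 s) := by
  classical
  obtain ⟨α, β, hαβ⟩ : ∃ α β : ℤ, (M1 : ℤ) * α + M2 * β = 1 := by
    obtain ⟨x, y, hxy⟩ := Nat.isCoprime_iff_coprime.2 hcop
    exact ⟨x, y, by linear_combination hxy⟩
  have hαβR : (M1 : ℝ) * (α : ℝ) + (M2 : ℝ) * (β : ℝ) = 1 := by exact_mod_cast hαβ
  obtain ⟨d0, b0, -, hbu, hB⟩ := exists_LBu a τ hτ u hu
  obtain ⟨i0, hi0⟩ := hτ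
  have hM1 : (0 : ℚ) < M1 := by exact_mod_cast h1
  have hM2 : (0 : ℚ) < M2 := by exact_mod_cast h2
  obtain ⟨g1, g2⟩ := ZDJ_one t u htu ν hν (ν1 / M1) (div_pos hν1 hM1) a hu τ 𝒟1 s hs i0 hi0 b0
    hbu hB
  obtain ⟨g3, g4⟩ := ZDJ_one t u htu ν hν (ν2 / M2) (div_pos hν2 hM2) a hu τ 𝒟2 s hs i0 hi0 b0
    hbu hB
  have hB' := ZDJ_LB t u htu M1 M2 a hu α β hαβ τ _ hB
  have hpos : ∀ j, 0 < upd2 t u ν ν1 ν2 j := by
    intro j
    unfold upd2
    split_ifs
    · exact hν1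
    · exact hν2
    · exact hν j
  obtain ⟨h3, h4⟩ := Jval_LB (upd2 t u ν ν1 ν2) hpos (dbE t u M1 M2 a) τ 𝒟 _ hB' i0 hi0 s hs
  obtain ⟨h5, h6⟩ := ZDJ_fub _ h3
  have hneR : (M1 : ℝ) * ((ν2 : ℚ) : ℝ) - M2 * ((ν1 : ℚ) : ℝ) ≠ 0 := by exact_mod_cast hne
  have key : ∀ p : Fin d0 → ℝ, (∫ x : ℝ, fW (upd2 t u ν ν1 ν2) (dbE t u M1 M2 a) τ i0 s (fun j =>
      ∑ c, (Fin.cons x p : Fin (d0 + 1) → ℝ) c *
      ((ZDJ_P t u α β (M1 : ℤ) (M2 : ℤ)
        ((Fin.cons (Pi.single u 1) b0 : Fin (d0 + 1) → Fin n → ℤ) c) j : ℤ) : ℝ))) =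
      ((M1 : ℝ) * ((ν2 : ℚ) : ℝ) - M2 * ((ν1 : ℚ) : ℝ))⁻¹ *
      (Real.exp (-((ν1 / M1 : ℚ) : ℝ) * ∑ c, p c * (b0 c t : ℝ)) *
        ZDJ_G t u ν a τ i0 s (fun j => ∑ c, p c * (b0 c j : ℝ)) -
      Real.exp (-((ν2 / M2 : ℚ) : ℝ) * ∑ c, p c * (b0 c t : ℝ)) *
        ZDJ_G t u ν a τ i0 s (fun j => ∑ c, p c * (b0 c j : ℝ))) := by
    intro p
    obtain ⟨k, hk⟩ : ∃ k : Fin n → ℝ, k = fun j => ∑ c, p c * (b0 c j : ℝ) := ⟨_, rfl⟩
    have hku : k u = 0 := by
      rw [hk]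
      simp [hbu]
    have hkj : ∀ j, ∑ c, p c * (b0 c j : ℝ) = k j := by
      intro j
      rw [hk]
    rw [hkj t, ← hk]
    have h7 : ∀ x : ℝ, fW (upd2 t u ν ν1 ν2) (dbE t u M1 M2 a) τ i0 s (fun j =>
        ∑ c, (Fin.cons x p : Fin (d0 + 1) → ℝ) c *
        ((ZDJ_P t u α β (M1 : ℤ) (M2 : ℤ)
          ((Fin.cons (Pi.single u 1) b0 : Fin (d0 + 1) → Fin n → ℤ) c) j : ℤ) : ℝ)) =
        (if 0 ≤ (α : ℝ) * k t + M2 * x ∧ 0 ≤ (β : ℝ) * k t - M1 * x then
          Real.exp (-((ν1 : ℝ) * (α * k t + M2 * x) + (ν2 : ℝ) * (β * k t - M1 * x))) else 0) *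
          ZDJ_G t u ν a τ i0 s k := by
      intro x
      obtain ⟨k', hk'⟩ : ∃ k' : Fin n → ℝ, k' = fun j => k j + (if j = u then x else 0) :=
        ⟨_, rfl⟩
      have hk't : k' t = k t := by
        rw [hk']
        simp only [if_neg htu, add_zero]
      have hk'u : k' u = x := by
        rw [hk']
        simp only [if_true, hku, zero_add]
      have e1 : (fun j => ∑ c, (Fin.cons x p : Fin (d0 + 1) → ℝ) c *
          ((ZDJ_P t u α β (M1 : ℤ) (M2 : ℤ)
          ((Fin.cons (Pi.single u 1) b0 : Fin (d0 + 1) → Fin n → ℤ) c) j : ℤ) : ℝ)) =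
          ZDJ_P t u (α : ℝ) (β : ℝ) (M1 : ℝ) (M2 : ℝ) k' := by
        have e0 : k' = fun j => ∑ c, (Fin.cons x p : Fin (d0 + 1) → ℝ) c *
            (((Fin.cons (Pi.single u 1) b0 : Fin (d0 + 1) → Fin n → ℤ) c j : ℤ) : ℝ) := by
          rw [hk']
          funext j
          rw [ZDJ_cons, hkj]
        rw [e0, ZDJ_P_sum t u (α : ℝ) (β : ℝ) (M1 : ℝ) (M2 : ℝ) (Fin.cons x p : Fin (d0 + 1) → ℝ)
          (fun c j => (((Fin.cons (Pi.single u 1) b0 : Fin (d0 + 1) → Fin n → ℤ) c j : ℤ) : ℝ))]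
        funext j
        refine sum_congr rfl fun c _ => ?_
        congr 1
        unfold ZDJ_P
        split_ifs <;> push_cast <;> ring
      rw [e1]
      have e2 : ∀ i, ∑ j, (dbE t u M1 M2 a i j : ℝ) *
          ZDJ_P t u (α : ℝ) (β : ℝ) (M1 : ℝ) (M2 : ℝ) k' j = ∑ j, (a i j : ℝ) * k j := by
        intro i
        rw [ZDJ_val t u htu M1 M2 a hu (α : ℝ) (β : ℝ) hαβR]
        refine sum_congr rfl fun j _ => ?_
        by_cases h6 : j = u
        · rw [h6, hu]
          simp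
        · rw [hk']
          simp only [if_neg h6, add_zero]
      have ePt : ZDJ_P t u (α : ℝ) (β : ℝ) (M1 : ℝ) (M2 : ℝ) k' t = α * k t + M2 * x := by
        unfold ZDJ_P
        rw [if_pos rfl, hk't, hk'u]
      have ePu : ZDJ_P t u (α : ℝ) (β : ℝ) (M1 : ℝ) (M2 : ℝ) k' u = β * k t - M1 * x := by
        unfold ZDJ_P
        rw [if_neg htu.symm, if_pos rfl, hk't, hk'u]
      have ePj : ∀ j, j ≠ t → j ≠ u →
          ZDJ_P t u (α : ℝ) (β : ℝ) (M1 : ℝ) (M2 : ℝ) k' j = k j := by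
        intro j h8 h9
        unfold ZDJ_P
        rw [if_neg h8, if_neg h9, hk']
        simp only [if_neg h9, add_zero]
      have e3 : (ZDJ_P t u (α : ℝ) (β : ℝ) (M1 : ℝ) (M2 : ℝ) k' ∈
          H22.minCone (dbE t u M1 M2 a) τ) ↔
          ((0 ≤ (α : ℝ) * k t + M2 * x ∧ 0 ≤ (β : ℝ) * k t - M1 * x) ∧
            k ∈ H22.minCone a τ) := by
        unfold H22.minCone
        simp only [Set.mem_ofPred_eq, e2]
        constructor
        · rintro ⟨q1, q2⟩
          have q3 := q1 t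
          have q4 := q1 u
          rw [ePt] at q3
          rw [ePu] at q4
          refine ⟨⟨q3, q4⟩, ?_, q2⟩
          intro j
          by_cases h8 : j = t
          · rw [h8]
            have hM1' : (0 : ℝ) ≤ M1 := Nat.cast_nonneg _
            have hM2' : (0 : ℝ) ≤ M2 := Nat.cast_nonneg _
            have q5 := mul_nonneg hM1' q3
            have q6 := mul_nonneg hM2' q4
            have q7 : k t = M1 * (α * k t + M2 * x) + M2 * (β * k t - M1 * x) := by
              linear_combination (-(k t)) * hαβR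
            rw [q7]
            exact add_nonneg q5 q6
          · by_cases h9 : j = u
            · rw [h9, hku]
            · rw [← ePj j h8 h9]
              exact q1 j
        · rintro ⟨⟨q3, q4⟩, q1, q2⟩
          refine ⟨?_, q2⟩
          intro j
          by_cases h8 : j = t
          · rw [h8, ePt]
            exact q3
          · by_cases h9 : j = u
            · rw [h9, ePu]
              exact q4
            · rw [ePj j h8 h9]
              exact q1 j
      have e4 := ZDJ_upd t u htu ν ν1 ν2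
        (ZDJ_P t u (α : ℝ) (β : ℝ) (M1 : ℝ) (M2 : ℝ) k') k ePj
      rw [ePt, ePu] at e4
      unfold fW ZDJ_G
      simp only [e2, e3]
      rw [e4]
      by_cases q1 : 0 ≤ (α : ℝ) * k t + M2 * x ∧ 0 ≤ (β : ℝ) * k t - M1 * x
      · by_cases q2 : k ∈ H22.minCone a τ
        · rw [if_pos ⟨q1, q2⟩, if_pos q1, if_pos q2, ← Real.exp_add]
          congr 1
          ring
        · rw [if_neg (fun h => q2 h.2), if_neg q2, mul_zero]
      · rw [if_neg (fun h => q1 h.1), if_neg q1, zero_mul]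
    rw [integral_congr_ae (Filter.Eventually.of_forall fun x => h7 x), integral_mul_const]
    by_cases q2 : k ∈ H22.minCone a τ
    · rw [inner_int M1 M2 h1 h2 α β hαβ (ν1 : ℝ) (ν2 : ℝ) hneR (k t) (q2.1 t)]
      push_cast
      ring
    · have q3 : ZDJ_G t u ν a τ i0 s k = 0 := by
        unfold ZDJ_G
        rw [if_neg q2]
      rw [q3]
      simp
  rw [h4]
  unfold LB
  rw [h6, integral_congr_ae (Filter.Eventually.of_forall fun p => key p), integral_const_mul,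
    integral_sub g1 g3, g2, g4]
  push_cast
  ring

end Pool.Agent.H56.CT
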