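import Pool.Agent.H56.CT.WDefs
import Pool.Agent.H22.T7.Defs
import Pool.Agent.H37.T6.TDefs

/-!
# The topological zeta function with weights: definitions

The form `∏ x_j^{ν_j - 1} dx_j` instead of `∏ dx_j`: the linear form `∑ ν_j w_j + N(w) s` instead of
`∑ w_j + N(w) s`.
-/

set_option autoImplicit false

namespace Pool.Agent.H56.CT

open Finset
open Pool.Agent.H37.T5 Pool.Agent.H37.T6

open Classical in
/-- The global topological zeta function with weights. -/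
noncomputable def topZetaGW {n r : ℕ} (ν : Fin n → ℚ) (a : Fin r → (Fin n →₀ ℕ))
    (𝒟 : ∀ τ, H22.FaceCones a τ) (𝒯 : ∀ τ, H22.FaceTriang a τ) : RatFunc ℂ :=
  ∑ τ ∈ univ.filter (fun τ : Finset (Fin r) => H22.IsFace a τ ∧ H22.faceRank a τ = 1),
      JfunW ν a τ (𝒟 τ) +
    RatFunc.X / (RatFunc.X + 1) *
      ∑ τ ∈ univ.filter (fun τ : Finset (Fin r) => H22.IsFace a τ ∧ 2 ≤ H22.faceRank a τ),
        (-1) ^ (H22.faceRank a τ - 1) * (H22.nvol (𝒯 τ) : RatFunc ℂ) * JfunW ν a τ (𝒟 τ)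

/-- The value of `J_τ` at the real number `s`. -/
noncomputable def JvalW {n r : ℕ} (ν : Fin n → ℚ) (a : Fin r → (Fin n →₀ ℕ))
    (τ : Finset (Fin r)) (𝒟 : H22.FaceCones a τ) (s : ℝ) : ℝ :=
  ∑ C, (H22.coneMult (𝒟.w C) : ℝ) *
    ∏ c, (1 / (((wsp ν (𝒟.w C c) : ℚ) : ℝ) + s * (H22.wmin a (𝒟.w C c) : ℝ)))

/-- The integral over the real span of the lattice vectors `b`, normalised by the lattice. -/
noncomputable def LB {d n : ℕ} (b : Fin d → Fin n → ℤ) (f : (Fin n → ℝ) → ℝ) : ℝ :=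
  ∫ p : Fin d → ℝ, f (fun j => ∑ c, p c * (b c j : ℝ))

/-- `b` is a basis of the lattice of all integral vectors at which all `a_i`, `i ∈ τ`, have the
same value. -/
structure IsLB {n r d : ℕ} (a : Fin r → (Fin n →₀ ℕ)) (τ : Finset (Fin r))
    (b : Fin d → Fin n → ℤ) : Prop where
  ind : LinearIndependent ℤ b
  mem : ∀ c, ∀ i ∈ τ, ∀ i' ∈ τ, ∑ j, (a i j : ℤ) * b c j = ∑ j, (a i' j : ℤ) * b c j
  gen : ∀ k : Fin n → ℤ, (∀ i ∈ τ, ∀ i' ∈ τ, ∑ j, (a i j : ℤ) * k j = ∑ j, (a i' j : ℤ) * k j) →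
    ∃ x : Fin d → ℤ, k = ∑ c, x c • b c

open Classical in
/-- The integrand of `J_τ`. -/
noncomputable def fW {n r : ℕ} (ν : Fin n → ℚ) (a : Fin r → (Fin n →₀ ℕ)) (τ : Finset (Fin r))
    (i0 : Fin r) (s : ℝ) (k : Fin n → ℝ) : ℝ :=
  if k ∈ H22.minCone a τ then
    Real.exp (-(∑ j, (ν j : ℝ) * k j) - s * ∑ j, (a i0 j : ℝ) * k j) else 0

/-- The exponents `M1 a_{i,t}`, `M2 a_{i,t}` in the directions `t`, `u`. -/
noncomputable def dbE {n r : ℕ} (t u : Fin n) (M1 M2 : ℕ) (a : Fin r → (Fin n →₀ ℕ)) :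
    Fin r → (Fin n →₀ ℕ) :=
  fun i => Finsupp.equivFunOnFinite.symm
    (fun j => if j = t then M1 * a i t else if j = u then M2 * a i t else a i j)

/-- The weights `x`, `y` in the directions `t`, `u`. -/
def upd2 {n : ℕ} (t u : Fin n) (ν : Fin n → ℚ) (x y : ℚ) : Fin n → ℚ :=
  fun j => if j = t then x else if j = u then y else ν j

/-- A permutation of the coordinates. -/
noncomputable def pmE {n r : ℕ} (π : Equiv.Perm (Fin n)) (a : Fin r → (Fin n →₀ ℕ)) :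
    Fin r → (Fin n →₀ ℕ) :=
  fun i => Finsupp.equivFunOnFinite.symm (fun j => a i (π j))

/-- The constant part of `V`, with weights. -/
def AAw {n : ℕ} (ν : Fin n → ℕ) : Unit ⊕ Fin n → ℤ := Sum.elim (fun _ => 0) (fun j => (ν j : ℤ))

/-- The weights as rational numbers. -/
def qN {n : ℕ} (ν : Fin n → ℕ) : Fin n → ℚ := fun j => (ν j : ℚ)

/-- The concrete setting, with weights. -/
structure CSW {n r : ℕ} (ν : Fin n → ℕ) (a : Fin r → (Fin n →₀ ℕ)) (R : Finset (Fin n → ℕ))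
    (s0 : ℂ) (q : Unit ⊕ Fin n → ℤ) (g : Option (Fin r ⊕ Fin n) → ℝ) (h : Option R → ℝ) :
    Prop where
  inj : Function.Injective a
  rp : 0 < r
  np : 0 < n
  nup : ∀ j, 0 < ν j
  rays : Pool.Agent.H56.SMC.RaySet a R
  rs : RS (vv a R) (pf a) (AAw ν) BB q g h
  qg : QG (vv a R) (pf a) (AAw ν) BB s0 q
  gen' : ∀ τ, H60.RegTri.GenericOn (rv0 R) h τ
  bot : Bot (pf a) g

theorem pr_AAw_lf {n r : ℕ} (ν : Fin n → ℕ) (a : Fin r → (Fin n →₀ ℕ)) (w : Fin n → ℕ) :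
    pr (AAw ν) (lf a w) = ∑ j, (ν j : ℤ) * w j := by
  simp [pr, AAw, lf, Fintype.sum_sum_type]

theorem pr_AAw_rho {n : ℕ} (ν : Fin n → ℕ) : pr (AAw ν) rho = 0 := by
  simp [pr, AAw, rho, Fintype.sum_sum_type]

theorem pr_AAw_eD {n : ℕ} (ν : Fin n → ℕ) (k : Fin n) : pr (AAw ν) (eD k) = ν k := by
  simp [pr, AAw, eD, Fintype.sum_sum_type, Pi.single_apply]

theorem VL_lfw {n r : ℕ} (ν : Fin n → ℕ) (a : Fin r → (Fin n →₀ ℕ)) (w : Fin n → ℕ) :
    VL (AAw ν) BB (lf a w) =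
      RatFunc.C ((wsp (qN ν) w : ℚ) : ℂ) + (H22.wmin a w : RatFunc ℂ) * RatFunc.X := by
  rw [VL, pr_AAw_lf, pr_BB_lf, wsp]
  simp only [qN]
  push_cast
  simp [map_sum, map_mul, map_natCast]

theorem VL_rhow {n : ℕ} (ν : Fin n → ℕ) :
    VL (AAw ν : Unit ⊕ Fin n → ℤ) BB rho = -RatFunc.X := by
  rw [VL, pr_AAw_rho, pr_BB_rho]
  push_cast
  ring

end Pool.Agent.H56.CT
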