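import Pool.Agent.H56.CT.ZLX
import Pool.Agent.H22.Cones

/-!
# ZLJ: `J_τ` as an integral

ADAPT `cone_integral` (`Pool/Agent/H22/Cones.lean`), with `k(p) = ∑_c p_c b_c` instead of `kC D.A p`.  `d = n + 1 - faceRank a τ` (`IsLB.card`); `subst` it.  (Real span: the real vectors `k` with all `a_i·k`, `i ∈ τ`, equal are the real combinations of the `b_c`: the lattice is the set of integral solutions of a
linear system with integral coefficients; or: it is a real vector space of dimension `d` by `faceRank` and the `b_c` are `d` independent elements.)  `b` is independent over `ℝ` (integral vectors independent over `ℤ`; see `Pool/Agent/H22/VolAdd.lean`, `indep_real_of_int`), so `p ↦ k(p)` is injective.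
The matrices `Q C`: by `gen`, `w C c = ∑_{c'} Q_{c'c} b_{c'}` with integers `Q_{c'c}` (`w C c ∈ minCone a τ`, so all `a_i·w` are equal for `i ∈ τ`); `det Q ≠ 0` (`indep`), `|det Q| = coneMult (w C)` by `latIndex_eq_det` (`Pool/Agent/H22/Lattice.lean`) with `N` = the span of `b` (it is saturated, by `gen`).
The integrand `F(p) = fW ν a τ i0 s (k(p))`.  On the open cone of `w C`, `p = Q x`, `x > 0`: `F = ∏_c exp(-x_c β_c)`, `β_c = ν·w_c + s N(w_c) > 0` (`w_c ≠ 0`; `a_i0·w = N(w)` by `wmin_eq`), so `∫ (V C).indicator F = |det Q| ∏ 1/β_c` by the change of variables and `integral_fintype_prod`-style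
computation as in `cone_integral`, and it is integrable.  `F` is almost everywhere the sum of the `(V C).indicator F` (the proof of `hae` in `cone_integral`; if `minCone a τ` does not contain `d` independent vectors there are no cones and `F = 0` almost everywhere, `ae_notMem_of_no_basis`), so it is integrable.
-/

set_option autoImplicit false

namespace Pool.Agent.H56.CT

open Finset MeasureTheory

/-- The real vectors of the span. -/
private noncomputable def ZLJ_k {n d : ℕ} (b : Fin d → Fin n → ℤ) :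
    (Fin d → ℝ) →ₗ[ℝ] (Fin n → ℝ) where
  toFun p := fun j => ∑ c, p c * (b c j : ℝ)
  map_add' p q := by
    funext j
    simp [add_mul, Finset.sum_add_distrib]
  map_smul' t p := by
    funext j
    simp [Finset.mul_sum, mul_assoc]

private theorem ZLJ_apply {n d : ℕ} (b : Fin d → Fin n → ℤ) (p : Fin d → ℝ) (j : Fin n) :
    ZLJ_k b p j = ∑ c, p c * (b c j : ℝ) := rfl

private theorem ZLJ_indep {n d : ℕ} (b : Fin d → Fin n → ℤ) (hb : LinearIndependent ℤ b)
    (x : Fin d → ℝ) (hx : ZLJ_k b x = 0) : x = 0 := by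
  classical
  have hcard : d ≤ n := by
    have := hb.fintype_card_le_finrank
    rw [Module.finrank_fintype_fun_eq_card] at this
    simpa using this
  obtain ⟨B, G, hvG, hG, -⟩ := H22.exists_adapted_basis b hb (n - d)
    (by
      simp only [Fintype.card_fin]
      omega)
  have hG' : ((G.map (Int.cast : ℤ → ℝ)) : Matrix (Fin d) (Fin d) ℝ).det ≠ 0 := by
    have := (Int.castRingHom ℝ).map_det G
    simp only [eq_intCast] at this
    change (((Int.castRingHom ℝ).mapMatrix G)).det ≠ 0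
    rw [← this]
    exact_mod_cast hG
  have hrepr : ∀ i i' : Fin d, B.repr (b i) (Sum.inr i') = G i' i := by
    intro i i'
    rw [hvG i, map_sum, Finsupp.finsetSum_apply]
    have h1 : ∀ k : Fin d, (B.repr (G k i • B (Sum.inr k))) (Sum.inr i') =
        if k = i' then G k i else 0 := by
      intro k
      rw [map_smul, Module.Basis.repr_self, Finsupp.smul_apply, Finsupp.single_apply, smul_eq_mul]
      by_cases h : k = i'
      · simp [h]
      · simp [h]
    simp only [h1, Finset.sum_ite_eq', Finset.mem_univ, if_true]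
  have hsum : ZLJ_k b x = ∑ c, x c • (fun j => (b c j : ℝ)) := by
    funext j
    rw [ZLJ_apply]
    simp [Finset.sum_apply]
  have h1 : (G.map (Int.cast : ℤ → ℝ)).mulVec x = 0 := by
    funext i'
    have h2 := congrArg (fun y => H22.coordR B y (Sum.inr i')) hx
    rw [hsum] at h2
    simp only [map_sum, map_smul, map_zero, Pi.zero_apply, Finset.sum_apply, Pi.smul_apply,
      smul_eq_mul, H22.coordR_cast, hrepr] at h2
    simp only [Matrix.mulVec, dotProduct, Matrix.map_apply, Pi.zero_apply]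
    rw [← h2]
    exact Finset.sum_congr rfl fun i _ => by ring
  exact Matrix.eq_zero_of_mulVec_eq_zero hG' h1

private theorem ZLJ_inj {n d : ℕ} (b : Fin d → Fin n → ℤ) (hb : LinearIndependent ℤ b) :
    Function.Injective (ZLJ_k b) := by
  rw [← LinearMap.ker_eq_bot, LinearMap.ker_eq_bot']
  exact fun x hx => ZLJ_indep b hb x hx

private theorem ZLJ_bound {n d : ℕ} (b : Fin d → Fin n → ℤ) (hb : LinearIndependent ℤ b) :
    ∃ M : ℝ, 0 < M ∧ ∀ (p : Fin d → ℝ) (c : Fin d), |p c| ≤ M * ∑ j, |ZLJ_k b p j| := by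
  obtain ⟨K, hK, hL⟩ := LinearMap.exists_antilipschitzWith (ZLJ_k b)
    (LinearMap.ker_eq_bot.2 (ZLJ_inj b hb))
  refine ⟨K, by exact_mod_cast hK, fun p c => ?_⟩
  have h1 := hL.le_mul_dist p 0
  rw [dist_zero_right, map_zero, dist_zero_right] at h1
  have h2 : |p c| ≤ ‖p‖ := norm_le_pi_norm p c
  have h3 : ‖ZLJ_k b p‖ ≤ ∑ j, |ZLJ_k b p j| := by
    rw [pi_norm_le_iff_of_nonneg (Finset.sum_nonneg fun _ _ => abs_nonneg _)]
    intro j
    exact Finset.single_le_sum (f := fun j => |ZLJ_k b p j|) (fun _ _ => abs_nonneg _)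
      (Finset.mem_univ j)
  exact h2.trans (h1.trans (mul_le_mul_of_nonneg_left h3 (NNReal.coe_nonneg K)))

private theorem ZLJ_nu {n : ℕ} (ν : Fin n → ℚ) (hν : ∀ j, 0 < ν j) :
    ∃ m : ℝ, 0 < m ∧ ∀ j, m ≤ (ν j : ℝ) := by
  rcases isEmpty_or_nonempty (Fin n) with h | h
  · exact ⟨1, one_pos, fun j => (h.false j).elim⟩
  · obtain ⟨j0, hj0⟩ := Finite.exists_min ν
    exact ⟨ν j0, by exact_mod_cast hν j0, fun j => by exact_mod_cast hj0 j⟩

private theorem ZLJ_closed {n r : ℕ} (a : Fin r → (Fin n →₀ ℕ)) (τ : Finset (Fin r)) :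
    IsClosed (H22.minCone a τ) := by
  have h1 : H22.minCone a τ = (⋂ j, {k : Fin n → ℝ | 0 ≤ k j}) ∩
      ⋂ (i : Fin r) (_ : i ∈ τ) (l : Fin r),
        {k : Fin n → ℝ | ∑ j, (a i j : ℝ) * k j ≤ ∑ j, (a l j : ℝ) * k j} := by
    ext k
    simp only [H22.minCone, Set.mem_inter_iff, Set.mem_iInter, Set.mem_ofPred_eq]
  rw [h1]
  refine IsClosed.inter (isClosed_iInter fun j => ?_)
    (isClosed_iInter fun i => isClosed_iInter fun _ => isClosed_iInter fun l => ?_)
  · exact isClosed_le continuous_const (continuous_apply j)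
  · exact isClosed_le (by fun_prop) (by fun_prop)

private theorem ZLJ_meas {n r d : ℕ} (ν : Fin n → ℚ) (a : Fin r → (Fin n →₀ ℕ))
    (τ : Finset (Fin r)) (b : Fin d → Fin n → ℤ) (i0 : Fin r) (s : ℝ) :
    Measurable (fun p : Fin d → ℝ => fW ν a τ i0 s (ZLJ_k b p)) := by
  classical
  have hc : Continuous (ZLJ_k b) := LinearMap.continuous_of_finiteDimensional _
  have h1 : (fun p : Fin d → ℝ => fW ν a τ i0 s (ZLJ_k b p)) =
      ((ZLJ_k b) ⁻¹' (H22.minCone a τ)).indicator (fun p => Real.exp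
        (-(∑ j, (ν j : ℝ) * ZLJ_k b p j) - s * ∑ j, (a i0 j : ℝ) * ZLJ_k b p j)) := by
    funext p
    unfold fW
    by_cases hp : ZLJ_k b p ∈ H22.minCone a τ
    · rw [if_pos hp, Set.indicator_of_mem (show p ∈ (ZLJ_k b) ⁻¹' (H22.minCone a τ) from hp)]
    · rw [if_neg hp, Set.indicator_of_notMem (show p ∉ (ZLJ_k b) ⁻¹' (H22.minCone a τ) from hp)]
  rw [h1]
  refine Measurable.indicator ?_ ((ZLJ_closed a τ).preimage hc).measurableSet
  have hcj : ∀ j, Continuous fun p => ZLJ_k b p j := fun j => (continuous_apply j).comp hc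
  refine Continuous.measurable ?_
  refine Real.continuous_exp.comp (Continuous.sub (Continuous.neg ?_) (Continuous.mul continuous_const ?_))
  · exact continuous_finsetSum _ fun j _ => (hcj j).const_mul _
  · exact continuous_finsetSum _ fun j _ => (hcj j).const_mul _

private theorem ZLJ_int {n r d : ℕ} (ν : Fin n → ℚ) (hν : ∀ j, 0 < ν j)
    (a : Fin r → (Fin n →₀ ℕ)) (τ : Finset (Fin r)) (b : Fin d → Fin n → ℤ)
    (hb : LinearIndependent ℤ b) (i0 : Fin r) (s : ℝ) (hs : 0 < s) :
    Integrable (fun p : Fin d → ℝ => fW ν a τ i0 s (ZLJ_k b p)) := by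
  classical
  obtain ⟨M, hM, hMb⟩ := ZLJ_bound b hb
  obtain ⟨m, hm, hmν⟩ := ZLJ_nu ν hν
  obtain ⟨ε, hε⟩ : ∃ ε : ℝ, ε = m / (d * M + 1) := ⟨_, rfl⟩
  have hε0 : 0 < ε := by rw [hε]; positivity
  refine Integrable.mono' (H22.prod_exp_integrable (d := d) hε0)
    (ZLJ_meas ν a τ b i0 s).aestronglyMeasurable (Filter.Eventually.of_forall fun p => ?_)
  rw [Real.norm_eq_abs]
  unfold fW
  split_ifs with hk
  · rw [abs_of_pos (Real.exp_pos _), ← Real.exp_sum]
    apply Real.exp_le_exp.2
    have h0 := hk.1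
    have h1 : 0 ≤ ∑ j, (a i0 j : ℝ) * ZLJ_k b p j :=
      Finset.sum_nonneg fun j _ => mul_nonneg (Nat.cast_nonneg _) (h0 j)
    have h2 : m * ∑ j, ZLJ_k b p j ≤ ∑ j, (ν j : ℝ) * ZLJ_k b p j := by
      rw [Finset.mul_sum]
      exact Finset.sum_le_sum fun j _ => mul_le_mul_of_nonneg_right (hmν j) (h0 j)
    have h3 : ∑ c, |p c| ≤ d * M * ∑ j, ZLJ_k b p j := by
      have h4 : ∑ j, |ZLJ_k b p j| = ∑ j, ZLJ_k b p j :=
        Finset.sum_congr rfl fun j _ => abs_of_nonneg (h0 j)
      calc ∑ c, |p c| ≤ ∑ _c : Fin d, M * ∑ j, ZLJ_k b p j := by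
            refine Finset.sum_le_sum fun c _ => ?_
            rw [← h4]
            exact hMb p c
        _ = _ := by simp; ring
    have hS : 0 ≤ ∑ j, ZLJ_k b p j := Finset.sum_nonneg fun j _ => h0 j
    have h5 : ε * ∑ c, |p c| ≤ m * ∑ j, ZLJ_k b p j := by
      rw [hε, div_mul_eq_mul_div, div_le_iff₀ (by positivity)]
      have h6 : m * ∑ c, |p c| ≤ m * (d * M * ∑ j, ZLJ_k b p j) :=
        mul_le_mul_of_nonneg_left h3 hm.le
      have h7 : 0 ≤ m * ∑ j, ZLJ_k b p j := mul_nonneg hm.le hS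
      nlinarith
    have h8 : ∑ c, -ε * |p c| = -(ε * ∑ c, |p c|) := by
      rw [Finset.mul_sum, ← Finset.sum_neg_distrib]
      exact Finset.sum_congr rfl fun c _ => by ring
    rw [h8]
    nlinarith
  · rw [abs_zero]
    exact Finset.prod_nonneg fun _ _ => (Real.exp_pos _).le

/-- ZLJ -/
theorem Jval_LB {n r d : ℕ} (ν : Fin n → ℚ) (hν : ∀ j, 0 < ν j) (a : Fin r → (Fin n →₀ ℕ))
    (τ : Finset (Fin r)) (𝒟 : H22.FaceCones a τ) (b : Fin d → Fin n → ℤ) (hb : IsLB a τ b)
    (i0 : Fin r) (hi0 : i0 ∈ τ) (s : ℝ) (hs : 0 < s) :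
    Integrable (fun p : Fin d → ℝ => fW ν a τ i0 s (fun j => ∑ c, p c * (b c j : ℝ))) ∧
      JvalW ν a τ 𝒟 s = LB b (fW ν a τ i0 s) := by
  classical
  have hτ : τ.Nonempty := ⟨i0, hi0⟩
  obtain rfl := hb.card hτ
  have hFint := ZLJ_int ν hν a τ b hb.ind i0 s hs
  refine ⟨hFint, ?_⟩
  have hwτ : ∀ C c, ∀ i ∈ τ, ∀ i' ∈ τ, ∑ j, (a i j : ℤ) * ((𝒟.w C c j : ℕ) : ℤ) =
      ∑ j, (a i' j : ℤ) * ((𝒟.w C c j : ℕ) : ℤ) := by
    intro C c i hi i' hi'
    have h1 := (𝒟.mem C c).2 i hi i'
    have h2 := (𝒟.mem C c).2 i' hi' i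
    have h3 := le_antisymm h1 h2
    unfold H22.toReal at h3
    exact_mod_cast h3
  choose Z hZ using fun C c => hb.gen (fun j => ((𝒟.w C c j : ℕ) : ℤ)) (hwτ C c)
  obtain ⟨Qz, hQz⟩ : ∃ Qz : Fin 𝒟.m → Matrix (Fin (n + 1 - H22.faceRank a τ))
      (Fin (n + 1 - H22.faceRank a τ)) ℤ, ∀ C c' c, Qz C c' c = Z C c c' :=
    ⟨fun C c' c => Z C c c', fun _ _ _ => rfl⟩
  obtain ⟨Q, hQ⟩ : ∃ Q : Fin 𝒟.m → Matrix (Fin (n + 1 - H22.faceRank a τ))
      (Fin (n + 1 - H22.faceRank a τ)) ℝ, ∀ C, Q C = (Qz C).map (Int.cast : ℤ → ℝ) :=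
    ⟨fun C => (Qz C).map (Int.cast : ℤ → ℝ), fun _ => rfl⟩
  have hkQ : ∀ C x, ZLJ_k b ((Q C).mulVec x) = ∑ c, x c • H22.toReal (𝒟.w C c) := by
    intro C x
    funext j
    have h1 : ∀ c, (H22.toReal (𝒟.w C c)) j = ∑ c', (Z C c c' : ℝ) * (b c' j : ℝ) := by
      intro c
      have h2 := congrFun (hZ C c) j
      simp only [Finset.sum_apply, Pi.smul_apply, smul_eq_mul] at h2
      unfold H22.toReal
      have h3 : ((𝒟.w C c j : ℕ) : ℝ) = (((𝒟.w C c j : ℕ) : ℤ) : ℝ) := by push_cast; rfl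
      rw [h3, h2]
      push_cast
      rfl
    rw [ZLJ_apply]
    simp only [Finset.sum_apply, Pi.smul_apply, smul_eq_mul, h1, Matrix.mulVec, dotProduct, hQ,
      Matrix.map_apply, hQz, Finset.mul_sum, Finset.sum_mul]
    rw [Finset.sum_comm]
    exact Finset.sum_congr rfl fun c _ => Finset.sum_congr rfl fun c' _ => by ring
  have hdet : ∀ C, (Q C).det ≠ 0 := by
    intro C h0
    obtain ⟨x, hx0, hx⟩ := Matrix.exists_mulVec_eq_zero_iff.mpr h0
    apply hx0
    have h1 := hkQ C x
    rw [hx, map_zero] at h1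
    funext c
    exact (Fintype.linearIndependent_iff.mp (𝒟.indep C)) x h1.symm c
  have hdetz : ∀ C, (Q C).det = (((Qz C).det : ℤ) : ℝ) := by
    intro C
    have := (Int.castRingHom ℝ).map_det (Qz C)
    simp only [eq_intCast] at this
    rw [hQ, this]
    rfl
  have hmult : ∀ C, (H22.coneMult (𝒟.w C) : ℝ) = |(Q C).det| := by
    intro C
    have h1 : H22.latIndex (fun c j => ((𝒟.w C c j : ℕ) : ℤ)) = (Qz C).det.natAbs := by
      refine H22.latIndex_eq_det (Submodule.span ℤ (Set.range b)) ?_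
        (Module.Basis.span hb.ind) _ (Qz C) ?_ ?_
      · intro k x hk hkx
        have hrel : ∀ y ∈ Submodule.span ℤ (Set.range b), ∀ i ∈ τ, ∀ i' ∈ τ,
            ∑ j, (a i j : ℤ) * y j = ∑ j, (a i' j : ℤ) * y j := by
          intro y hy i hi i' hi'
          induction hy using Submodule.span_induction with
          | mem y hy =>
            obtain ⟨c, rfl⟩ := hy
            exact hb.mem c i hi i' hi'
          | zero => simp
          | add y z _ _ hy hz =>
            simp only [Pi.add_apply, mul_add, Finset.sum_add_distrib, hy, hz]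
          | smul t y _ hy =>
            have e1 : ∀ l : Fin r, ∑ j, (a l j : ℤ) * (t • y) j = t * ∑ j, (a l j : ℤ) * y j := by
              intro l
              rw [Finset.mul_sum]
              exact Finset.sum_congr rfl fun j _ => by rw [Pi.smul_apply, smul_eq_mul]; ring
            rw [e1, e1, hy]
        have h2 : ∀ i ∈ τ, ∀ i' ∈ τ, ∑ j, (a i j : ℤ) * x j = ∑ j, (a i' j : ℤ) * x j := by
          intro i hi i' hi'
          have h3 := hrel _ hkx i hi i' hi'
          have e1 : ∀ l : Fin r, ∑ j, (a l j : ℤ) * (k • x) j = k * ∑ j, (a l j : ℤ) * x j := by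
            intro l
            rw [Finset.mul_sum]
            exact Finset.sum_congr rfl fun j _ => by rw [Pi.smul_apply, smul_eq_mul]; ring
          rw [e1, e1] at h3
          exact mul_left_cancel₀ hk h3
        obtain ⟨y, hy⟩ := hb.gen x h2
        rw [hy]
        exact Submodule.sum_mem _ fun c _ =>
          Submodule.smul_mem _ _ (Submodule.subset_span ⟨c, rfl⟩)
      · intro c
        rw [hZ C c]
        refine Finset.sum_congr rfl fun c' _ => ?_
        rw [hQz, Module.Basis.span_apply]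
      · intro h0
        apply hdet C
        rw [hdetz, h0, Int.cast_zero]
    unfold H22.coneMult
    rw [h1, hdetz, Nat.cast_natAbs, Int.cast_abs]
  obtain ⟨V, hV⟩ : ∃ V : Fin 𝒟.m → Set (Fin (n + 1 - H22.faceRank a τ) → ℝ),
      ∀ C, V C = {p | ∀ c, 0 < ((Q C)⁻¹.mulVec p) c} := ⟨_, fun _ => rfl⟩
  have hVm : ∀ C p, p ∈ V C ↔ ∀ c, 0 < ((Q C)⁻¹.mulVec p) c := fun C p => by rw [hV]; rfl
  have hVmeas : ∀ C, MeasurableSet (V C) := by
    intro C
    have h1 : V C = ⋂ c, {p | 0 < ((Q C)⁻¹.mulVec p) c} := by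
      ext p; simp [hVm]
    rw [h1]
    refine MeasurableSet.iInter fun c => ?_
    exact measurableSet_lt measurable_const
      ((measurable_pi_apply c).comp (H22.continuous_mulVec' _).measurable)
  have hinv : ∀ C p, (Q C).mulVec ((Q C)⁻¹.mulVec p) = p := by
    intro C p
    rw [Matrix.mulVec_mulVec, Matrix.mul_nonsing_inv _ (isUnit_iff_ne_zero.mpr (hdet C)),
      Matrix.one_mulVec]
  have hinv' : ∀ C x, (Q C)⁻¹.mulVec ((Q C).mulVec x) = x := by
    intro C p
    rw [Matrix.mulVec_mulVec, Matrix.nonsing_inv_mul _ (isUnit_iff_ne_zero.mpr (hdet C)),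
      Matrix.one_mulVec]
  have hkV : ∀ C p, ZLJ_k b p = ∑ c, ((Q C)⁻¹.mulVec p) c • H22.toReal (𝒟.w C c) := by
    intro C p
    conv_lhs => rw [← hinv C p]
    rw [hkQ]
  have hVopen : ∀ C, ∀ p ∈ V C, ZLJ_k b p ∈ H22.openCone fun c => H22.toReal (𝒟.w C c) :=
    fun C p hp => ⟨_, (hVm C p).1 hp, hkV C p⟩
  have hVmin : ∀ C, ∀ p ∈ V C, ZLJ_k b p ∈ H22.minCone a τ := by
    intro C p hp
    rw [hkV C p]
    exact H22.openCone_subset _ (𝒟.mem C) (fun c => ((hVm C p).1 hp c).le)
  obtain ⟨F, hF⟩ : ∃ F : (Fin (n + 1 - H22.faceRank a τ) → ℝ) → ℝ,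
      F = fun p => fW ν a τ i0 s (ZLJ_k b p) := ⟨_, rfl⟩
  have hFint' : Integrable F := by rw [hF]; exact hFint
  have hF0 : ∀ p, ZLJ_k b p ∉ H22.minCone a τ → F p = 0 := by
    intro p hp
    rw [hF]
    show fW ν a τ i0 s (ZLJ_k b p) = 0
    unfold fW
    rw [if_neg hp]
  have hae : ∀ᵐ p : Fin (n + 1 - H22.faceRank a τ) → ℝ, F p = ∑ C, (V C).indicator F p := by
    by_cases hfull : ∃ v : Fin (n + 1 - H22.faceRank a τ) → Fin n → ℝ, LinearIndependent ℝ v ∧
        ∀ c, v c ∈ H22.minCone a τ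
    · have hne : ∀ᵐ p : Fin (n + 1 - H22.faceRank a τ) → ℝ,
          ∀ C c, ((Q C)⁻¹.mulVec p) c ≠ 0 := by
        rw [ae_all_iff]; intro C
        rw [ae_all_iff]; intro c
        have hB : (fun c' => (Q C)⁻¹ c c') ≠ 0 := by
          intro h0
          have h1 := hinv' C (Pi.single c 1)
          have h2 := congrFun h1 c
          simp only [Matrix.mulVec, dotProduct, Pi.single_eq_same] at h2
          have h3 : ∀ c', (Q C)⁻¹ c c' = 0 := fun c' => congrFun h0 c'
          simp [h3] at h2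
        exact H22.ae_form_ne _ hB
      filter_upwards [hne] with p hp
      by_cases hk : ZLJ_k b p ∈ H22.minCone a τ
      · obtain ⟨C, x, hx0, hx⟩ := 𝒟.cover hfull _ hk
        have h1 : p = (Q C).mulVec x := by
          apply ZLJ_inj b hb.ind
          rw [hkQ]; exact hx
        have h2 : (Q C)⁻¹.mulVec p = x := by rw [h1, hinv']
        have hpC : p ∈ V C := by
          rw [hVm]
          intro c
          have h3 := hp C c
          rw [h2] at h3 ⊢
          exact lt_of_le_of_ne (hx0 c) (Ne.symm h3)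
        rw [Finset.sum_eq_single C, Set.indicator_of_mem hpC]
        · intro C' _ hC'
          apply Set.indicator_of_notMem
          intro hpC'
          exact (Set.disjoint_left.mp (𝒟.disj C C' (Ne.symm hC'))) (hVopen C p hpC)
            (hVopen C' p hpC')
        · intro h; exact absurd (Finset.mem_univ _) h
      · rw [hF0 p hk]
        symm
        apply Finset.sum_eq_zero
        intro C _
        apply Set.indicator_of_notMem
        exact fun h => hk (hVmin C p h)
    · have hnm : ∀ᵐ p : Fin (n + 1 - H22.faceRank a τ) → ℝ, ZLJ_k b p ∉ H22.minCone a τ := by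
        obtain ⟨S, hS⟩ : ∃ S : Set (Fin (n + 1 - H22.faceRank a τ) → ℝ),
            S = {p | ZLJ_k b p ∈ H22.minCone a τ} := ⟨_, rfl⟩
        have hspan : Submodule.span ℝ S ≠ ⊤ := by
          intro htop
          obtain ⟨f, hf1, hf2, hf3⟩ := Submodule.exists_fun_fin_finrank_span_eq ℝ S
          have hfr : Module.finrank ℝ (Submodule.span ℝ S) = n + 1 - H22.faceRank a τ := by
            rw [htop]; simp
          apply hfull
          have hL : LinearMap.ker (ZLJ_k b) = ⊥ := LinearMap.ker_eq_bot.mpr (ZLJ_inj b hb.ind)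
          refine ⟨fun c => ZLJ_k b (f (Fin.cast hfr.symm c)), ?_, fun c => ?_⟩
          · exact (hf3.map' (ZLJ_k b) hL).comp (Fin.cast hfr.symm) (Fin.cast_injective _)
          · have h1 : ∀ q ∈ S, ZLJ_k b q ∈ H22.minCone a τ := by
              intro q hq
              rw [hS] at hq
              exact hq
            exact h1 _ (hf1 (Fin.cast hfr.symm c))
        have := Measure.addHaar_submodule volume (Submodule.span ℝ S) hspan
        rw [measure_eq_zero_iff_ae_notMem] at this
        filter_upwards [this] with p hp hp'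
        exact hp (Submodule.subset_span (by rw [hS]; exact hp'))
      filter_upwards [hnm] with p hk
      rw [hF0 p hk]
      symm
      apply Finset.sum_eq_zero
      intro C _
      apply Set.indicator_of_notMem
      exact fun h => hk (hVmin C p h)
  have hLB : LB b (fW ν a τ i0 s) = ∫ p, F p := by rw [hF]; rfl
  rw [hLB, integral_congr_ae hae,
    integral_finsetSum _ (fun C _ => hFint'.indicator (hVmeas C))]
  unfold JvalW
  refine Finset.sum_congr rfl fun C _ => ?_
  have hrefl : ((Q C).submatrix id (Equiv.refl (Fin (n + 1 - H22.faceRank a τ)))).det =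
    (Q C).det := rfl
  rw [H22.change_var_real (Q C) (Equiv.refl _) (by rw [hrefl]; exact hdet C), hrefl, hmult]
  congr 1
  have hβ : ∀ c, (0 : ℝ) < ((wsp ν (𝒟.w C c) : ℚ) : ℝ) + s * (H22.wmin a (𝒟.w C c) : ℝ) := by
    intro c
    have h1 : (0 : ℚ) < wsp ν (𝒟.w C c) := by
      unfold wsp
      have h2 : ∀ j ∈ Finset.univ, 0 ≤ ν j * (𝒟.w C c j : ℚ) := fun j _ =>
        mul_nonneg (hν j).le (Nat.cast_nonneg _)
      refine lt_of_le_of_ne (Finset.sum_nonneg h2) fun h0 => ?_
      have h3 := (Finset.sum_eq_zero_iff_of_nonneg h2).1 h0.symm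
      apply (𝒟.indep C).ne_zero c
      funext j
      have h4 := h3 j (Finset.mem_univ j)
      have h5 : (𝒟.w C c j : ℚ) = 0 := (mul_eq_zero.1 h4).resolve_left (hν j).ne'
      unfold H22.toReal
      have h6 : 𝒟.w C c j = 0 := by exact_mod_cast h5
      rw [h6]
      simp
    have h2 : (0 : ℝ) < ((wsp ν (𝒟.w C c) : ℚ) : ℝ) := by exact_mod_cast h1
    have h3 : (0 : ℝ) ≤ (H22.wmin a (𝒟.w C c) : ℝ) := Nat.cast_nonneg _
    nlinarith
  have hpt : ∀ x : Fin (n + 1 - H22.faceRank a τ) → ℝ, (V C).indicator F ((Q C).mulVec x) =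
      ∏ c, (if 0 < x c then Real.exp (-(x c *
        (((wsp ν (𝒟.w C c) : ℚ) : ℝ) + s * (H22.wmin a (𝒟.w C c) : ℝ)))) else 0) := by
    intro x
    by_cases hx : ∀ c, 0 < x c
    · have hmemV : (Q C).mulVec x ∈ V C := by
        rw [hVm]
        intro c; rw [hinv']; exact hx c
      rw [Set.indicator_of_mem hmemV]
      have hFx : F ((Q C).mulVec x) = Real.exp (-(∑ j, (ν j : ℝ) * ZLJ_k b ((Q C).mulVec x) j) -
          s * ∑ j, (a i0 j : ℝ) * ZLJ_k b ((Q C).mulVec x) j) := by
        rw [hF]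
        show fW ν a τ i0 s (ZLJ_k b ((Q C).mulVec x)) = _
        unfold fW
        rw [if_pos (hVmin C _ hmemV)]
      rw [hFx]
      have e1 : ∑ j, (ν j : ℝ) * ZLJ_k b ((Q C).mulVec x) j =
          ∑ c, x c * ((wsp ν (𝒟.w C c) : ℚ) : ℝ) := by
        rw [hkQ]
        simp only [Finset.sum_apply, Pi.smul_apply, smul_eq_mul, Finset.mul_sum]
        rw [Finset.sum_comm]
        refine Finset.sum_congr rfl fun c _ => ?_
        unfold wsp H22.toReal
        push_cast
        rw [Finset.mul_sum]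
        exact Finset.sum_congr rfl fun j _ => by ring
      have e2 : ∑ j, (a i0 j : ℝ) * ZLJ_k b ((Q C).mulVec x) j =
          ∑ c, x c * (H22.wmin a (𝒟.w C c) : ℝ) := by
        rw [hkQ]
        simp only [Finset.sum_apply, Pi.smul_apply, smul_eq_mul, Finset.mul_sum]
        rw [Finset.sum_comm]
        refine Finset.sum_congr rfl fun c _ => ?_
        rw [H22.wmin_eq (𝒟.mem C c) hi0]
        push_cast
        rw [Finset.mul_sum]
        refine Finset.sum_congr rfl fun j _ => ?_
        unfold H22.toReal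
        ring
      rw [e1, e2]
      have e3 : ∏ c, (if 0 < x c then Real.exp (-(x c *
          (((wsp ν (𝒟.w C c) : ℚ) : ℝ) + s * (H22.wmin a (𝒟.w C c) : ℝ)))) else 0) =
          Real.exp (∑ c, -(x c * (((wsp ν (𝒟.w C c) : ℚ) : ℝ) +
            s * (H22.wmin a (𝒟.w C c) : ℝ)))) := by
        rw [Real.exp_sum]
        exact Finset.prod_congr rfl fun c _ => if_pos (hx c)
      rw [e3]
      congr 1
      rw [Finset.mul_sum, ← Finset.sum_neg_distrib, ← Finset.sum_sub_distrib]
      exact Finset.sum_congr rfl fun c _ => by ring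
    · have hn : (Q C).mulVec x ∉ V C := by
        intro h
        apply hx
        intro c
        have := (hVm C _).1 h c
        rwa [hinv'] at this
      rw [Set.indicator_of_notMem hn]
      push Not at hx
      obtain ⟨c, hc⟩ := hx
      exact (Finset.prod_eq_zero (Finset.mem_univ c) (if_neg (not_lt.mpr hc))).symm
  simp only [hpt]
  rw [integral_fintype_prod_volume_eq_prod (fun (c : Fin (n + 1 - H22.faceRank a τ)) (u : ℝ) =>
    if 0 < u then Real.exp (-(u * (((wsp ν (𝒟.w C c) : ℚ) : ℝ) +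
      s * (H22.wmin a (𝒟.w C c) : ℝ)))) else 0)]
  exact Finset.prod_congr rfl fun c _ => (H22.integral_exp_pos (hβ c)).symm

end Pool.Agent.H56.CT
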