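import Pool.Agent.H56.CT.ZDefs
import Pool.Agent.H22.Main
import Pool.Agent.H22.VolAdd
import Pool.Agent.H56.SMC.ZTB

/-!
# ZLX: lattice bases of the directions of a face

`exists_LB`: `d = n + 1 - faceRank a τ`.  Choose `σ ⊆ τ`, `rowR a` independent on `σ`, `σ.card = faceRank a τ` (see `ztb_exists_rowBasis` in `Pool/Agent/H56/SMC/ZTB.lean`, private: copy it).  `homRow a i`, `i ∈ σ`, are independent over `ℤ`; `exists_adapted_basis` (`Pool/Agent/H22/Lattice.lean`) gives
a basis `B` of `ℤ^{1+n}` indexed by `Fin d ⊕ σ` and an integral matrix `G`, `det G ≠ 0`, `homRow a i = ∑ i', G i' i • B (inr i')`.  Put `b c j = B.repr (Pi.single (inr j) 1) (inl c)`; also `b0 c = B.repr (Pi.single (inl ()) 1) (inl c)`.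
For every integral vector `x`: `B.repr x (inl c) = x (inl ()) b0 c + ∑_j x (inr j) b c j`.  For `x = homRow a i`, `i ∈ σ`, this is `0`: `a_i·b_c = -b0 c`.  The rows of `τ` are real combinations of the rows of `σ` (equal finrank), so `a_i·b_c = -b0 c` for all `i ∈ τ`: `mem`.
`gen`: let `k` be as there, `v` the common value of `a_i·k`; the functional `x ↦ -v x (inl ()) + ∑ x (inr j) k j` vanishes at `homRow a i`, `i ∈ σ`, hence (`G` is invertible over `ℚ`) at all `B (inr i')`, so it is `∑_c y_c B.repr · (inl c)` with `y_c` its value at `B (inl c)`; evaluate at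
`Pi.single (inr j) 1`: `k j = ∑_c y_c b c j`.  `ind`: if `∑ y_c b c = 0` then the functional `∑ y_c B.repr · (inl c)` vanishes at all `Pi.single (inr j) 1` and at `homRow a i` for one `i ∈ σ` (`σ` nonempty: `faceRank > 0`), so at `Pi.single (inl ()) 1`, so it is `0` and its values `y_c` at `B (inl c)` are `0`.
`IsLB.card`: two bases of the same lattice have the same number of elements (both families are linearly independent over `ℤ` and each is contained in the span of the other; `LinearIndependent` and `Submodule.finrank`, `finrank_span_eq_card`).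
`exists_LBu`: `N0 = {k | all a_i·k, i ∈ τ, are equal and k u = 0}` is a submodule of `ℤ^n`, so it has a finite basis `b0 : Fin d0` (`Submodule.basisOfPid` or `Module.finBasis`).  `(e_u, b0)` is an `IsLB`: `a_i u = 0`, `k = k_u e_u + (k - k_u e_u)`.  `d0 + 1 = d` by `IsLB.card`.
-/

set_option autoImplicit false

namespace Pool.Agent.H56.CT

open Finset

/-- a basis of the rows of `τ` -/
theorem ZLX_exists_rowBasis {n r : ℕ} (a : Fin r → (Fin n →₀ ℕ)) (τ : Finset (Fin r)) :
    ∃ σ : Finset (Fin r), σ ⊆ τ ∧ LinearIndependent ℝ (fun i : σ => H22.rowR a i) ∧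
      σ.card = H22.faceRank a τ ∧
      ∀ i ∈ τ, H22.rowR a i ∈ Submodule.span ℝ (H22.rowR a '' (σ : Set (Fin r))) := by
  classical
  obtain ⟨b, hb1, -, hb2, hb3⟩ := exists_linearIndepOn_extension (K := ℝ) (v := H22.rowR a)
    (s := (∅ : Set (Fin r))) (t := (τ : Set (Fin r))) (linearIndepOn_empty ℝ _)
    (Set.empty_subset _)
  have hcoe : ((b.toFinset : Finset (Fin r)) : Set (Fin r)) = b := Set.coe_toFinset b
  have hind : LinearIndependent ℝ (fun i : b.toFinset => H22.rowR a i) := by
    have h1 : LinearIndepOn ℝ (H22.rowR a) ((b.toFinset : Finset (Fin r)) : Set (Fin r)) := by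
      rw [hcoe]; exact hb3
    exact h1
  have hspan : Submodule.span ℝ (H22.rowR a '' b) =
      Submodule.span ℝ (H22.rowR a '' (τ : Set (Fin r))) := by
    apply le_antisymm
    · exact Submodule.span_mono (Set.image_mono hb1)
    · rw [Submodule.span_le]; exact hb2
  refine ⟨b.toFinset, ?_, hind, ?_, ?_⟩
  · intro i hi
    have : i ∈ (τ : Set (Fin r)) := hb1 (Set.mem_toFinset.mp hi)
    exact_mod_cast this
  · rw [← H22.finrank_span_indep hind]
    unfold H22.faceRank
    rw [hcoe, hspan]
  · intro i hi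
    rw [hcoe, hspan]
    exact Submodule.subset_span ⟨i, hi, rfl⟩

/-- the linear form with coefficients `c` -/
theorem ZLX_form {n : ℕ} (f : (Unit ⊕ Fin n → ℤ) →ₗ[ℤ] ℤ) (x : Unit ⊕ Fin n → ℤ) :
    f x = x (Sum.inl ()) * f (Pi.single (Sum.inl ()) 1) +
      ∑ j, x (Sum.inr j) * f (Pi.single (Sum.inr j) 1) := by
  classical
  have hx : x = ∑ κ, x κ • (Pi.single κ (1 : ℤ) : Unit ⊕ Fin n → ℤ) := by
    funext κ
    simp [Finset.sum_apply, Pi.single_apply]
  conv_lhs => rw [hx]
  rw [map_sum, Fintype.sum_sum_type]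
  simp only [map_smul, smul_eq_mul, Finset.univ_unique, Finset.sum_singleton]

/-- lattice bases exist -/
theorem exists_LB {n r : ℕ} (a : Fin r → (Fin n →₀ ℕ)) (τ : Finset (Fin r))
    (hτ : τ.Nonempty) : ∃ b : Fin (n + 1 - H22.faceRank a τ) → Fin n → ℤ, IsLB a τ b := by
  classical
  obtain ⟨σ, hστ, hind, hcard, hspan⟩ := ZLX_exists_rowBasis a τ
  have hσne : σ.Nonempty := by
    rw [← Finset.card_pos, hcard]
    first | exact H22.faceRank_pos hτ | exact H22.faceRank_pos a hτ
  have hZ := (H22.rows_indep_iff a σ).mp hind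
  have hle : σ.card ≤ n + 1 := by
    have := hZ.fintype_card_le_finrank
    rw [Module.finrank_fintype_fun_eq_card] at this
    simp only [Fintype.card_coe, Fintype.card_sum, Fintype.card_unit, Fintype.card_fin] at this
    omega
  obtain ⟨B, G, hG, hdet, -⟩ := H22.exists_adapted_basis (fun i : σ => H22.homRow a i) hZ
    (n + 1 - H22.faceRank a τ) (by
      simp only [Fintype.card_coe, Fintype.card_sum, Fintype.card_unit, Fintype.card_fin]
      omega)
  set φ : Fin (n + 1 - H22.faceRank a τ) → (Unit ⊕ Fin n → ℤ) →ₗ[ℤ] ℤ :=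
    fun c => B.coord (Sum.inl c) with hφ
  set b : Fin (n + 1 - H22.faceRank a τ) → Fin n → ℤ :=
    fun c j => φ c (Pi.single (Sum.inr j) 1) with hb
  set b0 : Fin (n + 1 - H22.faceRank a τ) → ℤ :=
    fun c => φ c (Pi.single (Sum.inl ()) 1) with hb0
  have hrepr : ∀ (c) (x : Unit ⊕ Fin n → ℤ),
      φ c x = x (Sum.inl ()) * b0 c + ∑ j, x (Sum.inr j) * b c j := fun c x => ZLX_form (φ c) x
  have hσ0 : ∀ c, ∀ i : σ, φ c (H22.homRow a i) = 0 := by
    intro c i
    have h1 := hG i
    rw [h1, map_sum]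
    refine Finset.sum_eq_zero fun i' _ => ?_
    rw [map_smul]
    simp [hφ, Module.Basis.coord_apply]
  -- the real form
  have hτ0 : ∀ c, ∀ i ∈ τ, ∑ j, (a i j : ℤ) * b c j = -b0 c := by
    intro c i hi
    let L : (Unit ⊕ Fin n → ℝ) →ₗ[ℝ] ℝ :=
      (b0 c : ℝ) • LinearMap.proj (Sum.inl ()) +
        ∑ j, (b c j : ℝ) • LinearMap.proj (Sum.inr j)
    have hL : ∀ l : Fin r, L (H22.rowR a l) = ((b0 c + ∑ j, (a l j : ℤ) * b c j : ℤ) : ℝ) := by
      intro l
      simp only [L, LinearMap.add_apply, LinearMap.smul_apply, LinearMap.proj_apply,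
        LinearMap.sum_apply, smul_eq_mul, H22.rowR, Sum.elim_inl, Sum.elim_inr]
      push_cast
      rw [mul_one]
      congr 1
      exact Finset.sum_congr rfl fun j _ => mul_comm _ _
    have hker : Submodule.span ℝ (H22.rowR a '' (σ : Set (Fin r))) ≤ LinearMap.ker L := by
      rw [Submodule.span_le]
      rintro _ ⟨l, hl, rfl⟩
      have hl' : l ∈ σ := hl
      show L (H22.rowR a l) = 0
      rw [hL]
      have h1 := hσ0 c ⟨l, hl'⟩
      rw [hrepr] at h1
      simp only [H22.homRow, Sum.elim_inl, Sum.elim_inr, one_mul] at h1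
      exact_mod_cast h1
    have h2 : L (H22.rowR a i) = 0 := hker (hspan i hi)
    rw [hL] at h2
    have h3 : b0 c + ∑ j, (a i j : ℤ) * b c j = 0 := by exact_mod_cast h2
    linarith
  refine ⟨b, ?_, ?_, ?_⟩
  · rw [Fintype.linearIndependent_iff]
    intro y hy
    have hy' : ∀ j, ∑ c, y c * b c j = 0 := by
      intro j
      have := congrFun hy j
      simpa [Finset.sum_apply] using this
    obtain ⟨i, hi⟩ := hσne
    have h1 : ∑ c, y c * b0 c = 0 := by
      have h2 : ∀ c, y c * b0 c = -∑ j, (a i j : ℤ) * (y c * b c j) := by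
        intro c
        have := hτ0 c i (hστ hi)
        have h3 : b0 c = -∑ j, (a i j : ℤ) * b c j := by linarith
        rw [h3, mul_neg, Finset.mul_sum]
        congr 1
        exact Finset.sum_congr rfl fun j _ => by ring
      rw [Finset.sum_congr rfl fun c _ => h2 c, Finset.sum_neg_distrib, Finset.sum_comm]
      simp only [← Finset.mul_sum, hy', mul_zero, Finset.sum_const_zero, neg_zero]
    have h4 : ∀ x : Unit ⊕ Fin n → ℤ, ∑ c, y c * φ c x = 0 := by
      intro x
      have h5 : ∀ c, y c * φ c x =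
          x (Sum.inl ()) * (y c * b0 c) + ∑ j, x (Sum.inr j) * (y c * b c j) := by
        intro c
        rw [hrepr, mul_add, Finset.mul_sum]
        congr 1
        · ring
        · exact Finset.sum_congr rfl fun j _ => by ring
      rw [Finset.sum_congr rfl fun c _ => h5 c, Finset.sum_add_distrib, ← Finset.mul_sum, h1,
        mul_zero, zero_add, Finset.sum_comm]
      simp only [← Finset.mul_sum, hy', mul_zero, Finset.sum_const_zero]
    intro c
    have h6 := h4 (B (Sum.inl c))
    rw [Finset.sum_eq_single c] at h6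
    · simpa [hφ, Module.Basis.coord_apply] using h6
    · intro c' _ hc'
      have : (Sum.inl c : Fin (n + 1 - H22.faceRank a τ) ⊕ σ) ≠ Sum.inl c' := by
        intro h; exact hc' (Sum.inl.inj h).symm
      simp [hφ, Module.Basis.coord_apply, Finsupp.single_apply, this]
    · intro h; exact absurd (Finset.mem_univ c) h
  · intro c i hi i' hi'
    rw [hτ0 c i hi, hτ0 c i' hi']
  · intro k hk
    obtain ⟨i0, hi0⟩ := hσne
    set v : ℤ := ∑ j, (a i0 j : ℤ) * k j with hv
    let f : (Unit ⊕ Fin n → ℤ) →ₗ[ℤ] ℤ :=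
      (-v) • LinearMap.proj (Sum.inl ()) + ∑ j, k j • LinearMap.proj (Sum.inr j)
    have hf : ∀ x, f x = -v * x (Sum.inl ()) + ∑ j, k j * x (Sum.inr j) := by
      intro x
      simp [f, LinearMap.sum_apply]
    have hf0 : ∀ i : σ, f (H22.homRow a i) = 0 := by
      intro i
      rw [hf]
      simp only [H22.homRow, Sum.elim_inl, Sum.elim_inr, mul_one]
      have h1 := hk i (hστ i.2) i0 (hστ hi0)
      rw [← hv] at h1
      have h2 : ∑ j, k j * (a i j : ℤ) = ∑ j, (a i j : ℤ) * k j :=
        Finset.sum_congr rfl fun j _ => mul_comm _ _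
      rw [h2, h1]; ring
    have hfB : ∀ i', f (B (Sum.inr i')) = 0 := by
      have h1 : Matrix.vecMul (fun i' => f (B (Sum.inr i'))) G = 0 := by
        funext i
        have h2 := hf0 i
        have h3 := hG i
        rw [h3, map_sum] at h2
        simp only [Matrix.vecMul, dotProduct, Pi.zero_apply]
        rw [← h2]
        refine Finset.sum_congr rfl fun i' _ => ?_
        rw [map_smul, smul_eq_mul, mul_comm]
      have h4 := Matrix.eq_zero_of_vecMul_eq_zero hdet h1
      exact fun i' => congrFun h4 i'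
    refine ⟨fun c => f (B (Sum.inl c)), ?_⟩
    funext j
    have h1 : f (Pi.single (Sum.inr j) 1) = k j := by
      rw [hf]
      simp [Pi.single_apply]
    have h2 : f (Pi.single (Sum.inr j) 1) =
        ∑ ι, B.repr (Pi.single (Sum.inr j) 1) ι * f (B ι) := by
      conv_lhs => rw [← B.sum_repr (Pi.single (Sum.inr j) 1)]
      rw [map_sum]
      simp only [map_smul, smul_eq_mul]
    rw [← h1, h2, Fintype.sum_sum_type]
    simp only [hfB, mul_zero, Finset.sum_const_zero, add_zero]
    rw [Finset.sum_apply]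
    refine Finset.sum_congr rfl fun c _ => ?_
    simp only [hb, hφ, Pi.smul_apply, smul_eq_mul, Module.Basis.coord_apply]
    ring

theorem ZLX_card_aux {n r d d' : ℕ} {a : Fin r → (Fin n →₀ ℕ)} {τ : Finset (Fin r)}
    {b : Fin d → Fin n → ℤ} {b' : Fin d' → Fin n → ℤ} (h : IsLB a τ b) (h' : IsLB a τ b') :
    d = d' := by
  have key : ∀ {d d' : ℕ} {b : Fin d → Fin n → ℤ} {b' : Fin d' → Fin n → ℤ},
      IsLB a τ b → IsLB a τ b' →
      Submodule.span ℤ (Set.range b) ≤ Submodule.span ℤ (Set.range b') := by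
    intro d d' b b' h h'
    rw [Submodule.span_le]
    rintro _ ⟨c, rfl⟩
    obtain ⟨x, hx⟩ := h'.gen (b c) (h.mem c)
    show b c ∈ Submodule.span ℤ (Set.range b')
    rw [hx]
    exact Submodule.sum_mem _ fun c' _ =>
      Submodule.smul_mem _ _ (Submodule.subset_span ⟨c', rfl⟩)
  have heq : Submodule.span ℤ (Set.range b) = Submodule.span ℤ (Set.range b') :=
    le_antisymm (key h h') (key h' h)
  have h1 := finrank_span_eq_card h.ind
  have h2 := finrank_span_eq_card h'.ind
  rw [heq, h2] at h1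
  simpa using h1.symm

/-- the number of elements of a lattice basis -/
theorem IsLB.card {n r d : ℕ} {a : Fin r → (Fin n →₀ ℕ)} {τ : Finset (Fin r)}
    {b : Fin d → Fin n → ℤ} (h : IsLB a τ b) (hτ : τ.Nonempty) :
    d = n + 1 - H22.faceRank a τ := by
  obtain ⟨b', h'⟩ := exists_LB a τ hτ
  exact ZLX_card_aux h h'

/-- ZLX -/
theorem exists_LBu {n r : ℕ} (a : Fin r → (Fin n →₀ ℕ)) (τ : Finset (Fin r))
    (hτ : τ.Nonempty) (u : Fin n) (hu : ∀ i, a i u = 0) :
    ∃ (d0 : ℕ) (b0 : Fin d0 → Fin n → ℤ), d0 + 1 = n + 1 - H22.faceRank a τ ∧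
      (∀ c, b0 c u = 0) ∧
      IsLB a τ (Fin.cons (Pi.single u 1) b0 : Fin (d0 + 1) → Fin n → ℤ) := by
  classical
  let N0 : Submodule ℤ (Fin n → ℤ) :=
    { carrier := {k | (∀ i ∈ τ, ∀ i' ∈ τ, ∑ j, (a i j : ℤ) * k j = ∑ j, (a i' j : ℤ) * k j) ∧
        k u = 0}
      add_mem' := by
        rintro x y ⟨hx, hxu⟩ ⟨hy, hyu⟩
        refine ⟨fun i hi i' hi' => ?_, ?_⟩
        · simp only [Pi.add_apply, mul_add, Finset.sum_add_distrib]
          rw [hx i hi i' hi', hy i hi i' hi']
        · rw [Pi.add_apply, hxu, hyu, add_zero]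
      zero_mem' := by
        refine ⟨fun i hi i' hi' => ?_, rfl⟩
        simp
      smul_mem' := by
        rintro c x ⟨hx, hxu⟩
        refine ⟨fun i hi i' hi' => ?_, ?_⟩
        · simp only [Pi.smul_apply, smul_eq_mul, mul_left_comm, ← Finset.mul_sum]
          rw [hx i hi i' hi']
        · rw [Pi.smul_apply, hxu, smul_zero] }
  have hN0 : ∀ k, k ∈ N0 ↔ ((∀ i ∈ τ, ∀ i' ∈ τ,
      ∑ j, (a i j : ℤ) * k j = ∑ j, (a i' j : ℤ) * k j) ∧ k u = 0) := fun k => Iff.rfl
  let B := Module.finBasis ℤ N0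
  set d0 := Module.finrank ℤ N0 with hd0
  set b0 : Fin d0 → Fin n → ℤ := fun c => (B c : Fin n → ℤ) with hb0
  have hb0u : ∀ c, b0 c u = 0 := fun c => ((hN0 _).mp (B c).2).2
  have hdot : ∀ i, ∀ k : Fin n → ℤ, ∀ m : ℤ,
      ∑ j, (a i j : ℤ) * (k - m • (Pi.single u 1 : Fin n → ℤ)) j = ∑ j, (a i j : ℤ) * k j := by
    intro i k m
    refine Finset.sum_congr rfl fun j _ => ?_
    by_cases hj : j = u
    · subst hj; simp [hu i]
    · simp [Pi.single_apply, hj]
  have hLB : IsLB a τ (Fin.cons (Pi.single u 1) b0 : Fin (d0 + 1) → Fin n → ℤ) := by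
    refine ⟨?_, ?_, ?_⟩
    · rw [Fintype.linearIndependent_iff]
      intro y hy
      rw [Fin.sum_univ_succ] at hy
      simp only [Fin.cons_zero, Fin.cons_succ] at hy
      have h0 : y 0 = 0 := by
        have := congrFun hy u
        simpa [Finset.sum_apply, hb0u] using this
      have h1 : ∑ c : Fin d0, y c.succ • b0 c = 0 := by
        rw [h0, zero_smul, zero_add] at hy
        exact hy
      have h2 : ∑ c : Fin d0, y c.succ • B c = 0 := by
        apply Subtype.ext
        simpa [Submodule.coe_sum, Submodule.coe_smul] using h1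
      have h3 := Fintype.linearIndependent_iff.mp B.linearIndependent _ h2
      intro c
      refine Fin.cases h0 (fun c => h3 c) c
    · intro c
      refine Fin.cases ?_ (fun c => ?_) c
      · intro i hi i' hi'
        simp only [Fin.cons_zero]
        simp [Pi.single_apply, hu]
      · simp only [Fin.cons_succ]
        exact ((hN0 _).mp (B c).2).1
    · intro k hk
      have hk' : k - k u • (Pi.single u 1 : Fin n → ℤ) ∈ N0 := by
        rw [hN0]
        refine ⟨fun i hi i' hi' => ?_, ?_⟩
        · rw [hdot, hdot]; exact hk i hi i' hi'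
        · simp
      refine ⟨Fin.cons (k u) (fun c => B.repr ⟨_, hk'⟩ c), ?_⟩
      rw [Fin.sum_univ_succ]
      simp only [Fin.cons_zero, Fin.cons_succ]
      have h1 := congrArg Subtype.val (B.sum_repr ⟨_, hk'⟩)
      rw [Submodule.coe_sum] at h1
      simp only [Submodule.coe_smul] at h1
      rw [h1]
      abel
  exact ⟨d0, b0, hLB.card hτ, hb0u, hLB⟩

end Pool.Agent.H56.CT
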